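import Pool.Agent.SubT.DimC

/-! Module DIM1. Text: team-store MP_e27144_an_pr_growth_helper66.md.
HINT: section 11, C1. -/

namespace Pool.Agent.SubT

open scoped BigOperators ENNReal

open MeasureTheory Set Filter Topology

/-- Invariance of the `L1` norm under multiplication by powers of `2`. -/
lemma DIM1_inv (μ : Measure (AddCircle (1 : ℝ))) [IsProbabilityMeasure μ]
    (h2 : MeasurePreserving (fun x => (2 : ℕ) • x) μ μ) (k i : ℕ) :
    ∫ x, ‖(2 ^ i * k : ℕ) • x‖ ∂μ = ∫ x, ‖k • x‖ ∂μ := by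
  induction i with
  | zero => simp
  | succ i ih =>
    rw [← ih]
    have hcont : Continuous (fun x : AddCircle (1 : ℝ) => ‖(2 ^ i * k : ℕ) • x‖) := by fun_prop
    have h := integral_map (μ := μ) (φ := fun x : AddCircle (1 : ℝ) => (2 : ℕ) • x)
      h2.measurable.aemeasurable
      (f := fun x : AddCircle (1 : ℝ) => ‖(2 ^ i * k : ℕ) • x‖)
      hcont.aestronglyMeasurable
    rw [h2.map_eq] at h
    rw [h]
    congr 1
    funext x
    rw [smul_smul]
    congr 2
    ring

/-- The norm of a difference of multiples. -/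
lemma DIM1_sub (u v : ℕ) (x : AddCircle (1 : ℝ)) :
    ‖u • x - v • x‖ = ‖(((u : ℤ) - (v : ℤ)).natAbs) • x‖ := by
  rcases le_total v u with h | h
  · have : ((u : ℤ) - (v : ℤ)).natAbs = u - v := by omega
    rw [this, sub_nsmul x h, sub_eq_add_neg]
  · have : ((u : ℤ) - (v : ℤ)).natAbs = v - u := by omega
    rw [this, sub_nsmul x h, ← sub_eq_add_neg, norm_sub_rev]

/-- Two close pairs give a good multiple in the window. -/
lemma DIM1_win (N : ℝ) (hN : 3 ≤ N) (k : ℕ) (hk : k ≠ 0) (hk2 : Real.log k ≤ 3 * N) :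
    ∃ i : ℕ, N ≤ Real.log ((2 ^ i * k : ℕ) : ℝ) ∧ Real.log ((2 ^ i * k : ℕ) : ℝ) ≤ 3 * N := by
  have hkp : (0 : ℝ) < k := by exact_mod_cast Nat.pos_of_ne_zero hk
  have hk0 : 0 ≤ Real.log k := Real.log_natCast_nonneg k
  have hl2 : 0 < Real.log 2 := Real.log_pos (by norm_num)
  have hl21 : Real.log 2 ≤ 1 := by
    have := Real.log_two_lt_d9
    linarith
  have hlog : ∀ i : ℕ, Real.log ((2 ^ i * k : ℕ) : ℝ) = i * Real.log 2 + Real.log k := by
    intro i
    push_cast
    rw [Real.log_mul (by positivity) hkp.ne', Real.log_pow]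
  refine ⟨⌈(N - Real.log k) / Real.log 2⌉₊, ?_, ?_⟩
  · rw [hlog]
    have h := Nat.le_ceil ((N - Real.log k) / Real.log 2)
    rw [div_le_iff₀ hl2] at h
    linarith
  · rw [hlog]
    rcases le_total (N - Real.log k) 0 with h0 | h0
    · have : ⌈(N - Real.log k) / Real.log 2⌉₊ = 0 :=
        Nat.ceil_eq_zero.mpr (div_nonpos_of_nonpos_of_nonneg h0 hl2.le)
      rw [this]
      simpa using hk2
    · have h := Nat.ceil_lt_add_one (div_nonneg h0 hl2.le)
      have h' : (⌈(N - Real.log k) / Real.log 2⌉₊ : ℝ) * Real.log 2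
          < ((N - Real.log k) / Real.log 2 + 1) * Real.log 2 :=
        mul_lt_mul_of_pos_right h hl2
      have h'' : ((N - Real.log k) / Real.log 2 + 1) * Real.log 2
          = N - Real.log k + Real.log 2 := by
        field_simp
      linarith

/-- Distinct pairs give distinct products. -/
lemma DIM1_inj (a b a' b' : ℕ) (h : 2 ^ a * 3 ^ b = 2 ^ a' * 3 ^ b') : a = a' ∧ b = b' := by
  have h2 : (2 ^ a * 3 ^ b).factorization 2 = (2 ^ a' * 3 ^ b').factorization 2 := by rw [h]
  have h3 : (2 ^ a * 3 ^ b).factorization 3 = (2 ^ a' * 3 ^ b').factorization 3 := by rw [h]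
  have p2 : Nat.Prime 2 := Nat.prime_two
  have p3 : Nat.Prime 3 := Nat.prime_three
  have key : ∀ u v : ℕ, (2 ^ u * 3 ^ v).factorization 2 = u ∧
      (2 ^ u * 3 ^ v).factorization 3 = v := by
    intro u v
    rw [Nat.factorization_mul (by positivity) (by positivity), p2.factorization_pow,
      p3.factorization_pow]
    constructor
    · simp
    · simp
  rw [(key a b).1, (key a' b').1] at h2
  rw [(key a b).2, (key a' b').2] at h3
  exact ⟨h2, h3⟩

/-- Size of a product. -/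
lemma DIM1_size (n a b : ℕ) (ha : a < n) (hb : b < n) :
    Real.log ((2 ^ a * 3 ^ b : ℕ) : ℝ) ≤ 2 * n := by
  have h1 : ((2 ^ a * 3 ^ b : ℕ) : ℝ) ≤ (6 : ℝ) ^ n := by
    push_cast
    calc (2 : ℝ) ^ a * 3 ^ b ≤ 2 ^ n * 3 ^ n := by
          apply mul_le_mul (pow_le_pow_right₀ (by norm_num) ha.le)
            (pow_le_pow_right₀ (by norm_num) hb.le) (by positivity) (by positivity)
      _ = 6 ^ n := by rw [← mul_pow]; norm_num
  have h2 : (0 : ℝ) < ((2 ^ a * 3 ^ b : ℕ) : ℝ) := by positivity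
  calc Real.log ((2 ^ a * 3 ^ b : ℕ) : ℝ) ≤ Real.log ((6 : ℝ) ^ n) := Real.log_le_log h2 h1
    _ = n * Real.log 6 := Real.log_pow _ _
    _ ≤ n * 2 := by
        refine mul_le_mul_of_nonneg_left ?_ (Nat.cast_nonneg _)
        rw [Real.log_le_iff_le_exp (by norm_num)]
        have h := Real.exp_one_gt_d9
        have : Real.exp 2 = Real.exp 1 * Real.exp 1 := by
          rw [← Real.exp_add]; norm_num
        rw [this]
        nlinarith
    _ = 2 * n := by ring

/-- DIM1: infinite upper box dimension. -/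
theorem box_dim (μ : Measure (AddCircle (1 : ℝ))) [IsProbabilityMeasure μ]
    (h2 : MeasurePreserving (fun x => (2 : ℕ) • x) μ μ)
    (h3 : MeasurePreserving (fun x => (3 : ℕ) • x) μ μ) (hat : ∀ x, μ {x} = 0)
    (B ε0 : ℝ) (hB : 0 < B) (hε0 : 0 < ε0) :
    ∃ ε : ℝ, 0 < ε ∧ ε < ε0 ∧ ∀ F : Finset (ℕ × ℕ), (F.card : ℝ) ≤ ε ^ (-B) →
      ∃ a b : ℕ, ∀ p ∈ F,
        ε < ∫ x, ‖(2 ^ a * 3 ^ b : ℕ) • x - (2 ^ p.1 * 3 ^ p.2 : ℕ) • x‖ ∂μ := by
  obtain ⟨N, hN0, hN1, hN⟩ := dim_main μ h2 h3 hat 2 (1 / B) (by norm_num) (by positivity)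
    (max (3 * 4 ^ B + 3) ((2 / ε0) ^ (B / 2) + 1))
  have hNa : 3 * 4 ^ B + 3 ≤ N := le_trans (le_max_left _ _) hN0
  have hNb : (2 / ε0) ^ (B / 2) + 1 ≤ N := le_trans (le_max_right _ _) hN0
  have h4B : (0 : ℝ) < 4 ^ B := by positivity
  have hN3 : 3 ≤ N := by linarith
  have hNpos : 0 < N := by linarith
  set n : ℕ := ⌈N⌉₊ with hn
  have hnN : N ≤ n := Nat.le_ceil N
  have hnN1 : (n : ℝ) < N + 1 := Nat.ceil_lt_add_one hNpos.le
  have hnpos : (0 : ℝ) < n := by linarith
  have hε : (n : ℝ) ^ (-(2 / B)) ≤ N ^ (-(2 / B)) :=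
    Real.rpow_le_rpow_of_nonpos hNpos hnN (by simp only [Left.neg_nonpos_iff]; positivity)
  refine ⟨2 * (n : ℝ) ^ (-(2 / B)), by positivity, ?_, ?_⟩
  · -- ε < ε0
    have h1 : N ^ (-(2 / B)) < ε0 / 2 := by
      have h5 : (2 / ε0) ^ (B / 2) < N := by linarith
      have h6 : ((2 / ε0) ^ (B / 2)) ^ (2 / B) < N ^ (2 / B) :=
        Real.rpow_lt_rpow (by positivity) h5 (by positivity)
      rw [← Real.rpow_mul (by positivity)] at h6
      have h7 : B / 2 * (2 / B) = 1 := by field_simp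
      rw [h7, Real.rpow_one] at h6
      rw [Real.rpow_neg hNpos.le, inv_lt_comm₀ (by positivity) (by positivity)]
      have h8 : (ε0 / 2)⁻¹ = 2 / ε0 := by rw [inv_div]
      rw [h8]
      exact h6
    linarith
  · intro F hF
    by_contra hcon
    push Not at hcon
    have hεB : (2 * (n : ℝ) ^ (-(2 / B))) ^ (-B) < (n : ℝ) ^ 2 := by
      rw [Real.mul_rpow (by norm_num) (by positivity), ← Real.rpow_mul hnpos.le]
      have h7 : -(2 / B) * -B = 2 := by field_simp
      rw [h7]
      have h8 : (2 : ℝ) ^ (-B) < 1 := Real.rpow_lt_one_of_one_lt_of_neg (by norm_num) (by linarith)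
      have h9 : (n : ℝ) ^ (2 : ℝ) = (n : ℝ) ^ (2 : ℕ) := by
        rw [← Real.rpow_natCast]; norm_num
      rw [h9]
      have h10 : (0 : ℝ) < (n : ℝ) ^ 2 := by positivity
      nlinarith
    have hcard : F.card < (Finset.range n ×ˢ Finset.range n).card := by
      rw [Finset.card_product, Finset.card_range]
      have h1 : (F.card : ℝ) < (n : ℝ) ^ 2 := lt_of_le_of_lt hF hεB
      have h2' : (F.card : ℝ) < ((n * n : ℕ) : ℝ) := by
        push_cast
        nlinarith
      exact_mod_cast h2'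
    choose P hPF hPle using hcon
    obtain ⟨u, hu, v, hv, huv, hPuv⟩ := Finset.exists_ne_map_eq_of_card_lt_of_maps_to hcard
      (f := fun q : ℕ × ℕ => P q.1 q.2) (fun q _ => hPF q.1 q.2)
    simp only [Finset.mem_product, Finset.mem_range] at hu hv
    set U : ℕ := 2 ^ u.1 * 3 ^ u.2 with hU
    set V : ℕ := 2 ^ v.1 * 3 ^ v.2 with hV
    have hUV : U ≠ V := by
      intro h
      apply huv
      obtain ⟨h1, h2'⟩ := DIM1_inj _ _ _ _ h
      exact Prod.ext h1 h2'
    set k : ℕ := ((U : ℤ) - (V : ℤ)).natAbs with hk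
    have hk0 : k ≠ 0 := by omega
    have hkmax : k ≤ max U V := by omega
    have hklog : Real.log k ≤ 2 * n := by
      have hkp : (0 : ℝ) < k := by exact_mod_cast Nat.pos_of_ne_zero hk0
      rcases le_total U V with h | h
      · rw [max_eq_right h] at hkmax
        have hc : (k : ℝ) ≤ (V : ℝ) := by exact_mod_cast hkmax
        refine le_trans (Real.log_le_log hkp hc) ?_
        exact DIM1_size n v.1 v.2 hv.1 hv.2
      · rw [max_eq_left h] at hkmax
        have hc : (k : ℝ) ≤ (U : ℝ) := by exact_mod_cast hkmax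
        refine le_trans (Real.log_le_log hkp hc) ?_
        exact DIM1_size n u.1 u.2 hu.1 hu.2
    have hint : ∫ x, ‖k • x‖ ∂μ ≤ 2 * (2 * (n : ℝ) ^ (-(2 / B))) := by
      have e1 := hPle u.1 u.2
      have e2 := hPle v.1 v.2
      have hPuv' : P u.1 u.2 = P v.1 v.2 := hPuv
      rw [hPuv'] at e1
      set W : ℕ := 2 ^ (P v.1 v.2).1 * 3 ^ (P v.1 v.2).2 with hW
      have hbd : ∀ z : AddCircle (1 : ℝ), ‖z‖ ≤ 1 / 2 := by
        intro z
        have := AddCircle.norm_le_half_period (p := (1 : ℝ)) (x := z) one_ne_zero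
        simpa using this
      have hI : ∀ f : AddCircle (1 : ℝ) → AddCircle (1 : ℝ), Continuous f →
          Integrable (fun x => ‖f x‖) μ := by
        intro f hf
        refine Integrable.mono' (integrable_const (1 / 2 : ℝ)) hf.norm.aestronglyMeasurable ?_
        refine Filter.Eventually.of_forall fun x => ?_
        rw [Real.norm_eq_abs, abs_of_nonneg (norm_nonneg _)]
        exact hbd _
      have i1 := hI (fun x => U • x - W • x) (by fun_prop)
      have i2 := hI (fun x => V • x - W • x) (by fun_prop)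
      have i3 := hI (fun x => k • x) (by fun_prop)
      calc ∫ x, ‖k • x‖ ∂μ ≤ ∫ x, (‖U • x - W • x‖ + ‖V • x - W • x‖) ∂μ := by
            refine integral_mono i3 (i1.add i2) ?_
            intro x
            show ‖k • x‖ ≤ ‖U • x - W • x‖ + ‖V • x - W • x‖
            rw [hk, ← DIM1_sub]
            have : U • x - V • x = (U • x - W • x) - (V • x - W • x) := by abel
            rw [this]
            exact norm_sub_le _ _
        _ = ∫ x, ‖U • x - W • x‖ ∂μ + ∫ x, ‖V • x - W • x‖ ∂μ := integral_add i1 i2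
        _ ≤ 2 * (2 * (n : ℝ) ^ (-(2 / B))) := by linarith
    obtain ⟨i, hi1, hi2⟩ := DIM1_win N hN3 k hk0 (by linarith)
    have hfin := hN (2 ^ i * k) hi1 (by
      refine le_trans hi2 ?_
      have : N ^ (2 : ℝ) = N ^ (2 : ℕ) := by rw [← Real.rpow_natCast]; norm_num
      rw [this]
      nlinarith)
    rw [DIM1_inv μ h2 k i] at hfin
    -- (3N)^(-1/B) ≤ ... ≤ 4 N^(-2/B)
    have hL : (3 * N) ^ (-(1 / B)) ≤ Real.log ((2 ^ i * k : ℕ) : ℝ) ^ (-(1 / B)) :=
      Real.rpow_le_rpow_of_nonpos (by linarith) hi2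
        (by simp only [Left.neg_nonpos_iff]; positivity)
    have hR : (3 * N) ^ (-(1 / B)) ≤ 4 * N ^ (-(2 / B)) := by linarith
    have h3N : 0 < 3 * N := by linarith
    -- contradiction
    have hm : (3 * N) ^ (-(1 / B)) * (3 * N) ^ (1 / B) = 1 := by
      rw [← Real.rpow_add h3N]; simp
    have hR2 : 1 ≤ 4 * N ^ (-(2 / B)) * (3 * N) ^ (1 / B) := by
      have h0 := mul_le_mul_of_nonneg_right hR (show (0 : ℝ) ≤ (3 * N) ^ (1 / B) by positivity)
      rw [hm] at h0
      exact h0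
    have h12 : 4 * N ^ (-(2 / B)) * (3 * N) ^ (1 / B) = 4 * 3 ^ (1 / B) * N ^ (-(1 / B)) := by
      rw [Real.mul_rpow (by norm_num) hNpos.le]
      have : N ^ (-(2 / B)) * N ^ (1 / B) = N ^ (-(1 / B)) := by
        rw [← Real.rpow_add hNpos]
        congr 1
        ring
      rw [← this]
      ring
    rw [h12] at hR2
    have h13 : 4 * 3 ^ (1 / B) < N ^ (1 / B) := by
      have h14 : (3 * 4 ^ B) ^ (1 / B) < N ^ (1 / B) :=
        Real.rpow_lt_rpow (by positivity) (by linarith) (by positivity)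
      rw [Real.mul_rpow (by norm_num) h4B.le, ← Real.rpow_mul (by norm_num)] at h14
      have h15 : B * (1 / B) = 1 := by field_simp
      rw [h15, Real.rpow_one] at h14
      linarith
    have h16 : N ^ (1 / B) * N ^ (-(1 / B)) = 1 := by
      rw [← Real.rpow_add hNpos]; simp
    have h17 : 0 < N ^ (-(1 / B)) := by positivity
    have h18 : 4 * 3 ^ (1 / B) * N ^ (-(1 / B)) < N ^ (1 / B) * N ^ (-(1 / B)) :=
      mul_lt_mul_of_pos_right h13 h17
    linarith

end Pool.Agent.SubT
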