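import Pool.Agent.SubT.KL

/-! Module GR1. Text: team-store MP_e27144_an_pr_growth_helper66.md.
HINT: section 10: key_lemma for kappa/2, dyadic ranges of the depth d = log((1/36)/||x||), integrate over ν; (6g+1)^2 <= 49 g^2. -/

namespace Pool.Agent.SubT

open scoped BigOperators ENNReal

open MeasureTheory Set Filter Topology

theorem GR1_mp (ν : Measure (AddCircle (1 : ℝ)))
    (h2 : MeasurePreserving (fun x => (2 : ℕ) • x) ν ν)
    (h3 : MeasurePreserving (fun x => (3 : ℕ) • x) ν ν) (a b : ℕ) :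
    MeasurePreserving (fun x : AddCircle (1 : ℝ) => (2 ^ a * 3 ^ b : ℕ) • x) ν ν := by
  induction a with
  | zero =>
    induction b with
    | zero =>
      have e : (fun x : AddCircle (1 : ℝ) => (2 ^ 0 * 3 ^ 0 : ℕ) • x) = id := by
        funext x
        simp
      rw [e]
      exact MeasurePreserving.id ν
    | succ b ih =>
      have h := h3.comp ih
      have e : (fun x : AddCircle (1 : ℝ) => (2 ^ 0 * 3 ^ (b + 1) : ℕ) • x) =
          (fun x => (3 : ℕ) • x) ∘ (fun x => (2 ^ 0 * 3 ^ b : ℕ) • x) := by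
        funext x
        simp only [Function.comp, smul_smul]
        congr 1
        ring
      rw [e]
      exact h
  | succ a ih =>
    have h := h2.comp ih
    have e : (fun x : AddCircle (1 : ℝ) => (2 ^ (a + 1) * 3 ^ b : ℕ) • x) =
        (fun x => (2 : ℕ) • x) ∘ (fun x => (2 ^ a * 3 ^ b : ℕ) • x) := by
      funext x
      simp only [Function.comp, smul_smul]
      congr 1
      ring
    rw [e]
    exact h

theorem GR1_meas (r : ℝ) : MeasurableSet {x : AddCircle (1 : ℝ) | r < ‖x‖} :=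
  (isOpen_lt continuous_const continuous_norm).measurableSet

/-- One dyadic range. -/
theorem GR1_range (κ : ℝ) (hκ : 0 < κ) (g0 : ℝ)
    (hg0 : ∀ g ≥ g0, ∀ x : AddCircle (1 : ℝ), ‖x‖ = 1 / 36 * Real.exp (-g) →
      (1 / 10 ^ 4) * g ^ 2 ≤ ({p : ℕ × ℕ | LL p.1 p.2 < 2 * g ∧
        1 / 36 * Real.exp (-(κ / 2 * g)) < ‖(2 ^ p.1 * 3 ^ p.2 : ℕ) • x‖}.ncard : ℝ))
    (ν : Measure (AddCircle (1 : ℝ)))
    (h2 : MeasurePreserving (fun x => (2 : ℕ) • x) ν ν)
    (h3 : MeasurePreserving (fun x => (3 : ℕ) • x) ν ν) (s g : ℝ) (hg : 1 ≤ g) (hgg : g0 ≤ g)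
    (hs : κ * g ≤ s) :
    ν {x | 1 / 36 * Real.exp (-(2 * g)) < ‖x‖ ∧ ‖x‖ ≤ 1 / 36 * Real.exp (-g)} ≤
      ENNReal.ofReal (49 * 10 ^ 4) * ν {x | 1 / 36 * Real.exp (-s) < ‖x‖} := by
  set A : Set (AddCircle (1 : ℝ)) :=
    {x | 1 / 36 * Real.exp (-(2 * g)) < ‖x‖ ∧ ‖x‖ ≤ 1 / 36 * Real.exp (-g)} with hA
  set E : Set (AddCircle (1 : ℝ)) := {x | 1 / 36 * Real.exp (-s) < ‖x‖} with hE
  set n : ℕ := ⌊6 * g⌋₊ + 1 with hn
  set F : Finset (ℕ × ℕ) := Finset.range n ×ˢ Finset.range n with hF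
  have hEm : MeasurableSet E := GR1_meas _
  have hAm : MeasurableSet A :=
    (GR1_meas _).inter (isClosed_le continuous_norm continuous_const).measurableSet
  -- pointwise
  have hpt : ∀ x ∈ A, ENNReal.ofReal (g ^ 2 / 10 ^ 4) ≤
      ∑ p ∈ F, (((fun y : AddCircle (1 : ℝ) => (2 ^ p.1 * 3 ^ p.2 : ℕ) • y) ⁻¹' E).indicator
        (fun _ => (1 : ℝ≥0∞)) x) := by
    intro x hx
    have hx0 : 0 < ‖x‖ := lt_trans (by positivity) hx.1
    set d : ℝ := -Real.log (36 * ‖x‖) with hd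
    have hxd : ‖x‖ = 1 / 36 * Real.exp (-d) := by
      rw [hd, neg_neg, Real.exp_log (by positivity)]
      ring
    have hd1 : g ≤ d := by
      have := hx.2
      rw [hxd] at this
      have h4 : Real.exp (-d) ≤ Real.exp (-g) := by linarith
      have := Real.exp_le_exp.1 h4
      linarith
    have hd2 : d < 2 * g := by
      have := hx.1
      rw [hxd] at this
      have h4 : Real.exp (-(2 * g)) < Real.exp (-d) := by linarith
      have := Real.exp_lt_exp.1 h4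
      linarith
    have hkey := hg0 d (by linarith) x hxd
    have hsub : {p : ℕ × ℕ | LL p.1 p.2 < 2 * d ∧
        1 / 36 * Real.exp (-(κ / 2 * d)) < ‖(2 ^ p.1 * 3 ^ p.2 : ℕ) • x‖} ⊆
        ↑(F.filter (fun p => (2 ^ p.1 * 3 ^ p.2 : ℕ) • x ∈ E)) := by
      rintro ⟨a, b⟩ ⟨hp1, hp2⟩
      simp only [LL] at hp1
      have l2 : (0.69 : ℝ) < Real.log 2 := by linarith [Real.log_two_gt_d9]
      have l3 : (0.69 : ℝ) < Real.log 3 :=
        l2.trans (Real.log_lt_log (by norm_num) (by norm_num))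
      have ha0 : (0 : ℝ) ≤ a := Nat.cast_nonneg a
      have hb0 : (0 : ℝ) ≤ b := Nat.cast_nonneg b
      have ha : (a : ℝ) < 6 * g := by nlinarith
      have hb : (b : ℝ) < 6 * g := by nlinarith
      have ha' : a < n := by
        rw [hn, Nat.lt_succ_iff]
        exact Nat.le_floor ha.le
      have hb' : b < n := by
        rw [hn, Nat.lt_succ_iff]
        exact Nat.le_floor hb.le
      rw [Finset.coe_filter]
      refine ⟨?_, ?_⟩
      · rw [hF, Finset.mem_product, Finset.mem_range, Finset.mem_range]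
        exact ⟨ha', hb'⟩
      · refine lt_of_le_of_lt ?_ hp2
        have : Real.exp (-s) ≤ Real.exp (-(κ / 2 * d)) := by
          apply Real.exp_le_exp.2
          have : κ / 2 * d ≤ κ / 2 * (2 * g) := by
            apply mul_le_mul_of_nonneg_left hd2.le (by linarith)
          linarith
        linarith
    have hcard := Set.ncard_le_ncard hsub (Finset.finite_toSet _)
    rw [Set.ncard_coe_finset] at hcard
    have hsum : (∑ p ∈ F, (((fun y : AddCircle (1 : ℝ) => (2 ^ p.1 * 3 ^ p.2 : ℕ) • y) ⁻¹' E).indicator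
        (fun _ => (1 : ℝ≥0∞)) x)) =
        ((F.filter (fun p => (2 ^ p.1 * 3 ^ p.2 : ℕ) • x ∈ E)).card : ℝ≥0∞) := by
      rw [Finset.card_filter]
      push_cast
      refine Finset.sum_congr rfl fun p _ => ?_
      by_cases h : (2 ^ p.1 * 3 ^ p.2 : ℕ) • x ∈ E
      · rw [if_pos h, Set.indicator_of_mem (by exact h)]
      · rw [if_neg h, Set.indicator_of_notMem (by exact h)]
    rw [hsum]
    have h5 : g ^ 2 / 10 ^ 4 ≤
        ((F.filter (fun p => (2 ^ p.1 * 3 ^ p.2 : ℕ) • x ∈ E)).card : ℝ) := by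
      calc g ^ 2 / 10 ^ 4 ≤ (1 / 10 ^ 4) * d ^ 2 := by
            have : g ^ 2 ≤ d ^ 2 := by
              apply pow_le_pow_left₀ (by linarith) hd1
            linarith
        _ ≤ _ := hkey
        _ ≤ _ := by exact_mod_cast hcard
    calc ENNReal.ofReal (g ^ 2 / 10 ^ 4) ≤ ENNReal.ofReal
          ((F.filter (fun p => (2 ^ p.1 * 3 ^ p.2 : ℕ) • x ∈ E)).card : ℝ) :=
          ENNReal.ofReal_le_ofReal h5
      _ = _ := ENNReal.ofReal_natCast _
  -- integrate
  have hint : ENNReal.ofReal (g ^ 2 / 10 ^ 4) * ν A ≤ ∑ p ∈ F, ν E := by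
    have hmeas : ∀ p ∈ F, Measurable (((fun y : AddCircle (1 : ℝ) =>
        (2 ^ p.1 * 3 ^ p.2 : ℕ) • y) ⁻¹' E).indicator (fun _ => (1 : ℝ≥0∞))) := by
      intro p _
      exact measurable_const.indicator ((GR1_mp ν h2 h3 p.1 p.2).measurable hEm)
    calc ENNReal.ofReal (g ^ 2 / 10 ^ 4) * ν A
        = ∫⁻ _ in A, ENNReal.ofReal (g ^ 2 / 10 ^ 4) ∂ν := by
          rw [setLIntegral_const]
      _ ≤ ∫⁻ x in A, ∑ p ∈ F, (((fun y : AddCircle (1 : ℝ) =>
          (2 ^ p.1 * 3 ^ p.2 : ℕ) • y) ⁻¹' E).indicator (fun _ => (1 : ℝ≥0∞)) x) ∂ν :=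
          setLIntegral_mono' hAm hpt
      _ ≤ ∫⁻ x, ∑ p ∈ F, (((fun y : AddCircle (1 : ℝ) =>
          (2 ^ p.1 * 3 ^ p.2 : ℕ) • y) ⁻¹' E).indicator (fun _ => (1 : ℝ≥0∞)) x) ∂ν :=
          setLIntegral_le_lintegral _ _
      _ = ∑ p ∈ F, ∫⁻ x, (((fun y : AddCircle (1 : ℝ) =>
          (2 ^ p.1 * 3 ^ p.2 : ℕ) • y) ⁻¹' E).indicator (fun _ => (1 : ℝ≥0∞)) x) ∂ν :=
          lintegral_finsetSum _ hmeas
      _ = ∑ p ∈ F, ν E := by
          refine Finset.sum_congr rfl fun p _ => ?_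
          have hm := (GR1_mp ν h2 h3 p.1 p.2)
          rw [lintegral_indicator (hm.measurable hEm), setLIntegral_const, one_mul,
            hm.measure_preimage hEm.nullMeasurableSet]
  have hcardF : ((F.card : ℕ) : ℝ) ≤ 49 * g ^ 2 := by
    rw [hF, Finset.card_product, Finset.card_range]
    push_cast
    have h1 : (n : ℝ) ≤ 7 * g := by
      rw [hn]
      push_cast
      have := Nat.floor_le (by linarith : (0 : ℝ) ≤ 6 * g)
      linarith
    have h0 : (0 : ℝ) ≤ n := Nat.cast_nonneg n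
    nlinarith
  rw [Finset.sum_const, nsmul_eq_mul] at hint
  have hF2 : (F.card : ℝ≥0∞) ≤ ENNReal.ofReal (49 * g ^ 2) := by
    rw [← ENNReal.ofReal_natCast]
    exact ENNReal.ofReal_le_ofReal hcardF
  have hpos : 0 < g ^ 2 / 10 ^ 4 := by positivity
  have h6 : ENNReal.ofReal (g ^ 2 / 10 ^ 4) * ν A ≤
      ENNReal.ofReal (g ^ 2 / 10 ^ 4) * (ENNReal.ofReal (49 * 10 ^ 4) * ν E) := by
    refine hint.trans ?_
    rw [← mul_assoc, ← ENNReal.ofReal_mul hpos.le]
    refine (mul_le_mul' hF2 le_rfl).trans ?_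
    refine mul_le_mul' (ENNReal.ofReal_le_ofReal ?_) le_rfl
    rw [div_mul_eq_mul_div, le_div_iff₀ (by norm_num)]
    nlinarith [sq_nonneg g]
  have h7 : ENNReal.ofReal (g ^ 2 / 10 ^ 4) ≠ 0 := by
    simpa [ENNReal.ofReal_eq_zero] using hpos
  exact (ENNReal.mul_le_mul_iff_right h7 ENNReal.ofReal_ne_top).1 h6

/-- GR1: the basic step. -/
theorem growth_step (κ : ℝ) (hκ : 0 < κ) (hκ1 : κ < 1) :
    ∃ s0 : ℝ, 1 ≤ s0 ∧ ∀ ν : Measure (AddCircle (1 : ℝ)),
      MeasurePreserving (fun x => (2 : ℕ) • x) ν ν → MeasurePreserving (fun x => (3 : ℕ) • x) ν ν →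
      ∀ s ≥ s0, ν {x | 1 / 36 * Real.exp (-(s / κ)) < ‖x‖} ≤
        ENNReal.ofReal (1 + 10 ^ 6 * (1 + Real.log (1 / κ))) *
          ν {x | 1 / 36 * Real.exp (-s) < ‖x‖} := by
  obtain ⟨g0, hg00, hg0⟩ := key_lemma (κ / 2) (by linarith)
  refine ⟨max 1 g0, le_max_left _ _, ?_⟩
  intro ν h2 h3 s hs
  have hs1 : 1 ≤ s := (le_max_left _ _).trans hs
  have hsg : g0 ≤ s := (le_max_right _ _).trans hs
  have hlog : 0 ≤ Real.log (1 / κ) := Real.log_nonneg (by
    rw [le_div_iff₀ hκ]; linarith)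
  set J : ℕ := ⌈Real.logb 2 (1 / κ)⌉₊ with hJ
  have hlogb : 0 ≤ Real.logb 2 (1 / κ) := Real.logb_nonneg (by norm_num) (by
    rw [le_div_iff₀ hκ]; linarith)
  have hJ1 : (J : ℝ) ≤ 1 + Real.logb 2 (1 / κ) := by
    have := Nat.ceil_lt_add_one hlogb
    linarith
  have hJ2 : 1 / κ ≤ (2 : ℝ) ^ J := by
    have h := Nat.le_ceil (Real.logb 2 (1 / κ))
    rw [← hJ] at h
    have h8 : (2 : ℝ) ^ (Real.logb 2 (1 / κ)) ≤ (2 : ℝ) ^ (J : ℝ) :=
      Real.rpow_le_rpow_of_exponent_le (by norm_num) h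
    rw [Real.rpow_logb (by norm_num) (by norm_num) (by positivity), Real.rpow_natCast] at h8
    exact h8
  set E : Set (AddCircle (1 : ℝ)) := {x | 1 / 36 * Real.exp (-s) < ‖x‖} with hE
  have hJlt : ∀ j < J, κ * (s * 2 ^ j) ≤ s := by
    intro j hj
    have h9 : (j : ℝ) < Real.logb 2 (1 / κ) := by
      by_contra hcon
      push Not at hcon
      have : J ≤ j := Nat.ceil_le.2 hcon
      omega
    have h10 : (2 : ℝ) ^ j ≤ 1 / κ := by
      have h11 : (2 : ℝ) ^ (j : ℝ) ≤ (2 : ℝ) ^ (Real.logb 2 (1 / κ)) :=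
        Real.rpow_le_rpow_of_exponent_le (by norm_num) h9.le
      rw [Real.rpow_logb (by norm_num) (by norm_num) (by positivity), Real.rpow_natCast] at h11
      exact h11
    have h12 : κ * 2 ^ j ≤ 1 := by
      calc κ * 2 ^ j ≤ κ * (1 / κ) := mul_le_mul_of_nonneg_left h10 hκ.le
        _ = 1 := by field_simp
    nlinarith
  have hcov : {x : AddCircle (1 : ℝ) | 1 / 36 * Real.exp (-(s / κ)) < ‖x‖} ⊆
      E ∪ ⋃ j ∈ Finset.range J, {x | 1 / 36 * Real.exp (-(2 * (s * 2 ^ j))) < ‖x‖ ∧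
        ‖x‖ ≤ 1 / 36 * Real.exp (-(s * 2 ^ j))} := by
    intro x hx
    have hx : 1 / 36 * Real.exp (-(s / κ)) < ‖x‖ := hx
    have hbig : 1 / 36 * Real.exp (-(s * 2 ^ J)) < ‖x‖ := by
      refine lt_of_le_of_lt ?_ hx
      have : Real.exp (-(s * 2 ^ J)) ≤ Real.exp (-(s / κ)) := by
        apply Real.exp_le_exp.2
        have : s / κ ≤ s * 2 ^ J := by
          rw [div_eq_mul_one_div]
          exact mul_le_mul_of_nonneg_left hJ2 (by linarith)
        linarith
      linarith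
    have key : ∀ k : ℕ, 1 / 36 * Real.exp (-(s * 2 ^ k)) < ‖x‖ →
        x ∈ E ∪ ⋃ j ∈ Finset.range k, {x | 1 / 36 * Real.exp (-(2 * (s * 2 ^ j))) < ‖x‖ ∧
        ‖x‖ ≤ 1 / 36 * Real.exp (-(s * 2 ^ j))} := by
      intro k
      induction k with
      | zero =>
        intro h
        left
        simpa [hE] using h
      | succ k ih =>
        intro h
        by_cases h13 : 1 / 36 * Real.exp (-(s * 2 ^ k)) < ‖x‖
        · rcases ih h13 with h14 | h14
          · exact Or.inl h14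
          · right
            simp only [mem_iUnion, Finset.mem_range] at h14 ⊢
            obtain ⟨j, hj, h15⟩ := h14
            exact ⟨j, by omega, h15⟩
        · right
          simp only [mem_iUnion, Finset.mem_range]
          refine ⟨k, by omega, ?_, not_lt.1 h13⟩
          have : 2 * (s * 2 ^ k) = s * 2 ^ (k + 1) := by ring
          rw [this]
          exact h
    exact key J hbig
  calc ν {x | 1 / 36 * Real.exp (-(s / κ)) < ‖x‖}
      ≤ ν (E ∪ ⋃ j ∈ Finset.range J, {x | 1 / 36 * Real.exp (-(2 * (s * 2 ^ j))) < ‖x‖ ∧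
        ‖x‖ ≤ 1 / 36 * Real.exp (-(s * 2 ^ j))}) := measure_mono hcov
    _ ≤ ν E + ν (⋃ j ∈ Finset.range J, {x | 1 / 36 * Real.exp (-(2 * (s * 2 ^ j))) < ‖x‖ ∧
        ‖x‖ ≤ 1 / 36 * Real.exp (-(s * 2 ^ j))}) := measure_union_le _ _
    _ ≤ ν E + ∑ j ∈ Finset.range J, ν {x | 1 / 36 * Real.exp (-(2 * (s * 2 ^ j))) < ‖x‖ ∧
        ‖x‖ ≤ 1 / 36 * Real.exp (-(s * 2 ^ j))} := by
        gcongr
        exact measure_biUnion_finset_le _ _
    _ ≤ ν E + ∑ j ∈ Finset.range J, ENNReal.ofReal (49 * 10 ^ 4) * ν E := by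
        gcongr with j hj
        have h2j : (1 : ℝ) ≤ 2 ^ j := one_le_pow₀ (by norm_num)
        have hsj : s ≤ s * 2 ^ j := by nlinarith
        exact GR1_range κ hκ g0 hg0 ν h2 h3 s (s * 2 ^ j) (by linarith) (by linarith)
          (hJlt j (Finset.mem_range.1 hj))
    _ = ENNReal.ofReal (1 + J * (49 * 10 ^ 4)) * ν E := by
        rw [Finset.sum_const, Finset.card_range, nsmul_eq_mul, ← mul_assoc,
          ← ENNReal.ofReal_natCast, ← ENNReal.ofReal_mul (Nat.cast_nonneg J),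
          ENNReal.ofReal_add (by norm_num) (by positivity), ENNReal.ofReal_one]
        ring
    _ ≤ _ := by
        refine mul_le_mul' (ENNReal.ofReal_le_ofReal ?_) le_rfl
        have hl2 : (0.69 : ℝ) < Real.log 2 := by linarith [Real.log_two_gt_d9]
        have h16 : Real.logb 2 (1 / κ) * Real.log 2 = Real.log (1 / κ) := by
          rw [Real.logb]
          field_simp
        have h17 : Real.logb 2 (1 / κ) * 0.69 ≤ Real.log (1 / κ) := by
          rw [← h16]
          exact mul_le_mul_of_nonneg_left hl2.le hlogb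
        nlinarith

end Pool.Agent.SubT
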