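import Pool.Agent.SubT.Defs

/-! Module GR2. Text: team-store MP_e27144_an_pr_growth_helper66.md.
HINT: section 10, last line. -/

namespace Pool.Agent.SubT

open scoped BigOperators ENNReal

open MeasureTheory Set Filter Topology

theorem GR2_rep (x : AddCircle (1 : ℝ)) : ∃ t : ℝ, (t : AddCircle (1 : ℝ)) = x ∧ |t| = ‖x‖ := by
  induction x using QuotientAddGroup.induction_on with
  | H y =>
    refine ⟨y - round y, ?_, ?_⟩
    · have h : ((y - round y : ℝ) : AddCircle (1 : ℝ)) = (y : AddCircle (1 : ℝ)) := by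
        rw [AddCircle.coe_sub, sub_eq_self]
        rw [AddCircle.coe_eq_zero_iff]
        exact ⟨round y, by simp⟩
      exact h
    · have h : ‖(y : AddCircle (1 : ℝ))‖ = |y - round ((1 : ℝ)⁻¹ * y) * 1| := AddCircle.norm_eq 1
      rw [inv_one, one_mul, mul_one] at h
      exact h.symm

theorem GR2_norm (x : AddCircle (1 : ℝ)) (k : ℕ) (h : (k : ℝ) * ‖x‖ ≤ 1 / 2) :
    ‖k • x‖ = k * ‖x‖ := by
  obtain ⟨t, rfl, ht⟩ := GR2_rep x
  rw [← ht] at h ⊢
  have h1 : (k • (t : AddCircle (1 : ℝ))) = ((k * t : ℝ) : AddCircle (1 : ℝ)) := by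
    rw [← nsmul_eq_mul, AddCircle.coe_nsmul]
  have h2 : |(k : ℝ) * t| = k * |t| := by rw [abs_mul, Nat.abs_cast]
  rw [h1, (AddCircle.norm_coe_eq_abs_iff (1 : ℝ) one_ne_zero).mpr (by rw [h2, abs_one]; exact h),
    h2]

theorem GR2_pow (ν : Measure (AddCircle (1 : ℝ)))
    (h2 : MeasurePreserving (fun x => (2 : ℕ) • x) ν ν) (j : ℕ) :
    MeasurePreserving (fun x : AddCircle (1 : ℝ) => (2 ^ j : ℕ) • x) ν ν := by
  induction j with
  | zero =>
    simp only [pow_zero, one_nsmul]
    exact MeasurePreserving.id ν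
  | succ j ih =>
    have h3 := h2.comp ih
    have h4 : ((fun x : AddCircle (1 : ℝ) => (2 : ℕ) • x) ∘
        fun x : AddCircle (1 : ℝ) => (2 ^ j : ℕ) • x) = fun x => (2 ^ (j + 1) : ℕ) • x := by
      funext x
      simp only [Function.comp]
      rw [← mul_nsmul, pow_succ]
    rwa [h4] at h3

/-- GR2: the trivial bound for small `s`. -/
theorem growth_base (ν : Measure (AddCircle (1 : ℝ)))
    (h2 : MeasurePreserving (fun x => (2 : ℕ) • x) ν ν) (s : ℝ) (hs : 1 ≤ s) :
    ν {x | 1 / 36 * Real.exp (-s) < ‖x‖} ≤ ENNReal.ofReal (4 * s) * ν {x | 1 / 36 ≤ ‖x‖} := by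
  set A : Set (AddCircle (1 : ℝ)) := {x | 1 / 36 ≤ ‖x‖} with hA
  have hAm : MeasurableSet A := (isClosed_le continuous_const continuous_norm).measurableSet
  set J : ℕ := ⌈s / Real.log 2⌉₊ with hJ
  have hl2 : (0.69 : ℝ) < Real.log 2 := by have := Real.log_two_gt_d9; linarith
  have hsub : {x : AddCircle (1 : ℝ) | 1 / 36 * Real.exp (-s) < ‖x‖} ⊆
      ⋃ j ∈ Finset.range (J + 1), (fun x : AddCircle (1 : ℝ) => (2 ^ j : ℕ) • x) ⁻¹' A := by
    intro x hx
    simp only [mem_ofPred_eq] at hx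
    have hex : ∃ j : ℕ, 1 / 36 ≤ (2 : ℝ) ^ j * ‖x‖ := by
      refine ⟨J, ?_⟩
      have h3 : Real.exp s ≤ (2 : ℝ) ^ J := by
        have h4 : s ≤ J * Real.log 2 := by
          have := Nat.le_ceil (s / Real.log 2)
          rwa [div_le_iff₀ (by linarith)] at this
        calc Real.exp s ≤ Real.exp (J * Real.log 2) := Real.exp_le_exp.mpr h4
          _ = (2 : ℝ) ^ J := by rw [mul_comm, Real.exp_mul, Real.exp_log two_pos,
              Real.rpow_natCast]
      have h5 : Real.exp s * Real.exp (-s) = 1 := by rw [← Real.exp_add]; simp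
      have h6 : 0 < Real.exp s := Real.exp_pos s
      have h7 : 1 / 36 < Real.exp s * ‖x‖ := by nlinarith
      have h8 : Real.exp s * ‖x‖ ≤ (2 : ℝ) ^ J * ‖x‖ :=
        mul_le_mul_of_nonneg_right h3 (norm_nonneg x)
      linarith
    classical
    set j := Nat.find hex with hj
    have hj1 : 1 / 36 ≤ (2 : ℝ) ^ j * ‖x‖ := Nat.find_spec hex
    have hjJ : j ≤ J := by
      apply Nat.find_min' hex
      have h3 : Real.exp s ≤ (2 : ℝ) ^ J := by
        have h4 : s ≤ J * Real.log 2 := by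
          have := Nat.le_ceil (s / Real.log 2)
          rwa [div_le_iff₀ (by linarith)] at this
        calc Real.exp s ≤ Real.exp (J * Real.log 2) := Real.exp_le_exp.mpr h4
          _ = (2 : ℝ) ^ J := by rw [mul_comm, Real.exp_mul, Real.exp_log two_pos,
              Real.rpow_natCast]
      have h5 : Real.exp s * Real.exp (-s) = 1 := by rw [← Real.exp_add]; simp
      have h6 : 0 < Real.exp s := Real.exp_pos s
      have h7 : 1 / 36 < Real.exp s * ‖x‖ := by nlinarith
      have h8 : Real.exp s * ‖x‖ ≤ (2 : ℝ) ^ J * ‖x‖ :=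
        mul_le_mul_of_nonneg_right h3 (norm_nonneg x)
      linarith
    rw [mem_iUnion₂]
    refine ⟨j, Finset.mem_range.mpr (by omega), ?_⟩
    simp only [mem_preimage, hA, mem_ofPred_eq]
    rcases Nat.eq_zero_or_pos j with h0 | hpos
    · rw [h0, pow_zero, one_mul] at hj1
      rw [h0, pow_zero, one_nsmul]
      exact hj1
    · obtain ⟨i, hi⟩ : ∃ i, j = i + 1 := ⟨j - 1, by omega⟩
      have hlt : (2 : ℝ) ^ i * ‖x‖ < 1 / 36 := by
        have := Nat.find_min hex (show i < Nat.find hex by rw [← hj]; omega)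
        exact not_le.mp this
      have h9 : ((2 ^ j : ℕ) : ℝ) * ‖x‖ ≤ 1 / 2 := by
        push_cast
        rw [hi, pow_succ]
        nlinarith
      rw [GR2_norm x (2 ^ j) h9]
      push_cast
      exact hj1
  refine (measure_mono hsub).trans ((measure_biUnion_finset_le _ _).trans ?_)
  have h10 : ∀ j ∈ Finset.range (J + 1),
      ν ((fun x : AddCircle (1 : ℝ) => (2 ^ j : ℕ) • x) ⁻¹' A) = ν A := fun j _ =>
    (GR2_pow ν h2 j).measure_preimage hAm.nullMeasurableSet
  rw [Finset.sum_congr rfl h10, Finset.sum_const, Finset.card_range, nsmul_eq_mul]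
  refine mul_le_mul_left ?_ _
  rw [← ENNReal.ofReal_natCast]
  apply ENNReal.ofReal_le_ofReal
  have h11 : (J : ℝ) < s / Real.log 2 + 1 := Nat.ceil_lt_add_one (by positivity)
  have h12 : s / Real.log 2 ≤ 1.45 * s := by
    rw [div_le_iff₀ (by linarith)]
    nlinarith
  push_cast
  nlinarith

end Pool.Agent.SubT
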