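import Pool.Agent.SubT.Growth1
import Pool.Agent.SubT.Growth2

/-! Module GROWTH. Text: team-store MP_e27144_an_pr_growth_helper66.md.
HINT: section 10: iterate growth_step; then the image of ν under q. -/

namespace Pool.Agent.SubT

open scoped BigOperators ENNReal

open MeasureTheory Set Filter Topology

theorem GROWTH_R (η : ℝ) (hη : 0 < η) :
    ∃ R : ℝ, 1 < R ∧ 1 + 10 ^ 6 * (1 + Real.log R) ≤ R ^ η := by
  set Y : ℝ := 1 + 10 ^ 6 * (1 + 2 / η) with hY
  have h2 : 0 < 2 / η := by positivity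
  have hY1 : 1 < Y := by rw [hY]; nlinarith
  have hY0 : 0 < Y := by linarith
  refine ⟨Y ^ (2 / η), Real.one_lt_rpow hY1 h2, ?_⟩
  have h3 : (Y ^ (2 / η)) ^ η = Y ^ 2 := by
    rw [← Real.rpow_mul hY0.le, div_mul_cancel₀ _ hη.ne']
    norm_num
  have h4 : Real.log (Y ^ (2 / η)) ≤ 2 / η * Y := by
    rw [Real.log_rpow hY0]
    have : Real.log Y ≤ Y := (Real.log_le_sub_one_of_pos hY0).trans (by linarith)
    exact mul_le_mul_of_nonneg_left this h2.le
  rw [h3]
  nlinarith

/-- GROWTH: Theorem B for `q = 1`. -/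
theorem growth_one (η : ℝ) (hη : 0 < η) :
    ∃ K : ℝ, 0 < K ∧ ∀ ν : Measure (AddCircle (1 : ℝ)),
      MeasurePreserving (fun x => (2 : ℕ) • x) ν ν → MeasurePreserving (fun x => (3 : ℕ) • x) ν ν →
      ∀ s : ℝ, 1 ≤ s → ν {x | Real.exp (-s) ≤ ‖x‖} ≤
        ENNReal.ofReal (K * s ^ η) * ν {x | 1 / 36 ≤ ‖x‖} := by
  obtain ⟨R, hR, hC⟩ := GROWTH_R η hη
  have hR0 : 0 < R := by linarith
  set C : ℝ := 1 + 10 ^ 6 * (1 + Real.log R) with hCdef
  have hC0 : 0 < C := by
    have := Real.log_pos hR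
    rw [hCdef]; positivity
  obtain ⟨s0, hs0, hstep⟩ := growth_step (1 / R) (by positivity)
    (by rw [div_lt_one hR0]; exact hR)
  refine ⟨4 * s0 * R ^ η, by positivity, fun ν h2 h3 s hs => ?_⟩
  set f : ℝ → ENNReal := fun s => ν {x : AddCircle (1 : ℝ) | 1 / 36 * Real.exp (-s) < ‖x‖} with hf
  have hmono : ∀ a b : ℝ, a ≤ b → f a ≤ f b := by
    intro a b hab
    apply measure_mono
    intro x hx
    simp only [mem_ofPred_eq] at hx ⊢
    have : Real.exp (-b) ≤ Real.exp (-a) := Real.exp_le_exp.mpr (by linarith)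
    linarith
  have hk : ∀ k : ℕ, f (R ^ k * s0) ≤ ENNReal.ofReal (C ^ k * (4 * s0)) *
      ν {x | 1 / 36 ≤ ‖x‖} := by
    intro k
    induction k with
    | zero =>
      simp only [pow_zero, one_mul]
      exact growth_base ν h2 s0 hs0
    | succ k ih =>
      have h4 : s0 ≤ R ^ k * s0 := by
        have : (1 : ℝ) ≤ R ^ k := one_le_pow₀ hR.le
        nlinarith
      have h5 := hstep ν h2 h3 (R ^ k * s0) h4
      have h6 : R ^ k * s0 / (1 / R) = R ^ (k + 1) * s0 := by
        rw [div_div_eq_mul_div, div_one, pow_succ]; ring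
      have h7 : Real.log (1 / (1 / R)) = Real.log R := by rw [one_div_one_div]
      rw [h6, h7] at h5
      refine h5.trans ((mul_le_mul_right ih _).trans (le_of_eq ?_))
      rw [← mul_assoc, ← ENNReal.ofReal_mul (by positivity), pow_succ]
      congr 2
      ring
  have hgoal : f s ≤ ENNReal.ofReal (4 * s0 * R ^ η * s ^ η) * ν {x | 1 / 36 ≤ ‖x‖} := by
    obtain ⟨k, hk1, hk2⟩ : ∃ k : ℕ, s ≤ R ^ k * s0 ∧ C ^ k * (4 * s0) ≤ 4 * s0 * R ^ η * s ^ η := by
      have hRη : 1 ≤ R ^ η := Real.one_le_rpow hR.le hη.le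
      have hsη : 1 ≤ s ^ η := Real.one_le_rpow hs hη.le
      rcases le_or_gt s s0 with hle | hlt
      · refine ⟨0, by simpa using hle, ?_⟩
        rw [pow_zero, one_mul]
        have h8 : 1 ≤ R ^ η * s ^ η := one_le_mul_of_one_le_of_one_le hRη hsη
        nlinarith
      · have hex : ∃ k : ℕ, s ≤ R ^ k * s0 := by
          obtain ⟨k, hk⟩ := pow_unbounded_of_one_lt s hR
          refine ⟨k, ?_⟩
          have : 0 < R ^ k := by positivity
          nlinarith
        classical
        refine ⟨Nat.find hex, Nat.find_spec hex, ?_⟩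
        have hpos : 0 < Nat.find hex := by
          rw [Nat.pos_iff_ne_zero]
          intro h0
          have := Nat.find_spec hex
          rw [h0, pow_zero, one_mul] at this
          linarith
        obtain ⟨i, hi⟩ : ∃ i, Nat.find hex = i + 1 := ⟨Nat.find hex - 1, by omega⟩
        have hlt2 : R ^ i * s0 < s := not_le.mp (Nat.find_min hex (by omega))
        rw [hi]
        have h9 : C ^ (i + 1) ≤ (R ^ η) ^ (i + 1) := pow_le_pow_left₀ hC0.le hC _
        have h10 : (R ^ η) ^ (i + 1) = R ^ η * (R ^ i) ^ η := by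
          rw [pow_succ, mul_comm, ← Real.rpow_natCast, ← Real.rpow_mul hR0.le, mul_comm η,
            Real.rpow_mul hR0.le, Real.rpow_natCast]
        have h11 : (R ^ i) ^ η ≤ s ^ η := by
          apply Real.rpow_le_rpow (by positivity) _ hη.le
          have : 0 < R ^ i := by positivity
          nlinarith
        have h12 : C ^ (i + 1) ≤ R ^ η * s ^ η := by
          refine h9.trans ?_
          rw [h10]
          exact mul_le_mul_of_nonneg_left h11 (by positivity)
        nlinarith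
    refine (hmono _ _ hk1).trans ((hk k).trans ?_)
    exact mul_le_mul_left (ENNReal.ofReal_le_ofReal hk2) _
  refine le_trans (measure_mono ?_) hgoal
  intro x hx
  simp only [mem_ofPred_eq] at hx ⊢
  have : 0 < Real.exp (-s) := Real.exp_pos _
  linarith

theorem GROWTH_map (ν : Measure (AddCircle (1 : ℝ))) (q : ℤ) (k : ℕ)
    (h : MeasurePreserving (fun x => k • x) ν ν) :
    MeasurePreserving (fun x => k • x) (ν.map (fun x => q • x)) (ν.map (fun x => q • x)) := by
  have hq : Measurable (fun x : AddCircle (1 : ℝ) => q • x) := (continuous_zsmul q).measurable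
  have hk : Measurable (fun x : AddCircle (1 : ℝ) => k • x) := (continuous_nsmul k).measurable
  refine ⟨hk, ?_⟩
  rw [Measure.map_map hk hq]
  have h1 : ((fun x : AddCircle (1 : ℝ) => k • x) ∘ fun x : AddCircle (1 : ℝ) => q • x) =
      (fun x : AddCircle (1 : ℝ) => q • x) ∘ fun x : AddCircle (1 : ℝ) => k • x := by
    funext x
    simp only [Function.comp]
    exact smul_comm k q x
  rw [h1, ← Measure.map_map hq hk, h.map_eq]

/-- GROWTH: Theorem B. -/
theorem growth (η : ℝ) (hη : 0 < η) :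
    ∃ K : ℝ, 0 < K ∧ ∀ ν : Measure (AddCircle (1 : ℝ)),
      MeasurePreserving (fun x => (2 : ℕ) • x) ν ν → MeasurePreserving (fun x => (3 : ℕ) • x) ν ν →
      ∀ q : ℤ, ∀ s : ℝ, 1 ≤ s → ν {x | Real.exp (-s) ≤ ‖q • x‖} ≤
        ENNReal.ofReal (K * s ^ η) * ν {x | 1 / 36 ≤ ‖q • x‖} := by
  obtain ⟨K, hK, h⟩ := growth_one η hη
  refine ⟨K, hK, fun ν h2 h3 q s hs => ?_⟩
  have h4 := h (ν.map (fun x => q • x)) (GROWTH_map ν q 2 h2) (GROWTH_map ν q 3 h3) s hs
  have hq : Measurable (fun x : AddCircle (1 : ℝ) => q • x) := (continuous_zsmul q).measurable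
  have hm : ∀ c : ℝ, MeasurableSet {x : AddCircle (1 : ℝ) | c ≤ ‖x‖} := fun c =>
    (isClosed_le continuous_const continuous_norm).measurableSet
  rw [Measure.map_apply hq (hm _), Measure.map_apply hq (hm _)] at h4
  exact h4

end Pool.Agent.SubT
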