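import Mathlib

/-! Module ADAPT: bases adapted to a chain of subspaces. -/

namespace Pool.Agent.SubT

open scoped BigOperators

open Module

/-- extension of a basis of a subspace -/
theorem ADAPT_extend {V : Type} [AddCommGroup V] [Module ℚ V] [FiniteDimensional ℚ V]
    {B' B : Submodule ℚ V} (h : B' ≤ B) {ι : Type} [Fintype ι] (b' : Basis ι ℚ B') :
    ∃ (κ : Type) (_ : Fintype κ) (b : Basis (ι ⊕ κ) ℚ B),
      ∀ i, ((b (Sum.inl i) : B) : V) = ((b' i : B') : V) := by
  obtain ⟨C, hC⟩ := Submodule.exists_isCompl (B'.comap B.subtype)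
  let e : (B'.comap B.subtype) ≃ₗ[ℚ] B' := Submodule.comapSubtypeEquivOfLe h
  let b1 : Basis ι ℚ (B'.comap B.subtype) := b'.map e.symm
  let b2 : Basis (Fin (finrank ℚ C)) ℚ C := finBasis ℚ C
  refine ⟨Fin (finrank ℚ C), inferInstance,
    (b1.prod b2).map (Submodule.prodEquivOfIsCompl (B'.comap B.subtype) C hC), fun i => ?_⟩
  have h1 : (b1.prod b2) (Sum.inl i) = (b1 i, 0) := by
    apply Prod.ext
    · exact Basis.prod_apply_inl_fst b1 b2 i
    · exact Basis.prod_apply_inl_snd b1 b2 i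
  rw [Basis.map_apply, h1, Submodule.coe_prodEquivOfIsCompl']
  simp only [ZeroMemClass.coe_zero, add_zero]
  have h2 : b1 i = e.symm (b' i) := Basis.map_apply _ _ _
  rw [h2]
  have h3 : e (e.symm (b' i)) = b' i := e.apply_symm_apply _
  have h4 : ∀ z : (B'.comap B.subtype), ((e z : B') : V) = ((z : B) : V) := fun z => rfl
  rw [← h4, h3]

theorem ADAPT_aux {V : Type} [AddCommGroup V] [Module ℚ V] [FiniteDimensional ℚ V]
    (F : ℕ → Submodule ℚ V) (hF : Monotone F) (k1 : ℕ) : ∀ B : Submodule ℚ V,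
    ∃ (ι : Type) (_ : Fintype ι) (b : Basis ι ℚ B) (lev : ι → ℕ),
      (∀ j, lev j ≤ k1) ∧ (∀ j, lev j < k1 → ((b j : B) : V) ∈ F (lev j)) ∧
      (∑ j, (lev j : ℤ)) =
        k1 * (finrank ℚ B : ℤ) - ∑ k ∈ Finset.range k1, (finrank ℚ ↥(B ⊓ F k) : ℤ) := by
  induction k1 with
  | zero =>
    intro B
    refine ⟨Fin (finrank ℚ B), inferInstance, finBasis ℚ B, fun _ => 0, fun _ => le_rfl,
      fun _ h => absurd h (lt_irrefl _), ?_⟩
    simp
  | succ k ih =>
    intro B
    obtain ⟨ι, _, b', lev', h1, h2, h3⟩ := ih (B ⊓ F k)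
    obtain ⟨κ, _, b, hb⟩ := ADAPT_extend (inf_le_left : B ⊓ F k ≤ B) b'
    refine ⟨ι ⊕ κ, inferInstance, b, Sum.elim lev' (fun _ => k + 1), ?_, ?_, ?_⟩
    · rintro (i | j)
      · exact (h1 i).trans (Nat.le_succ k)
      · exact le_rfl
    · rintro (i | j) hlt
      · simp only [Sum.elim_inl] at hlt ⊢
        rw [hb i]
        rcases (h1 i).lt_or_eq with h | h
        · exact h2 i h
        · rw [h]
          exact (b' i).2.2
      · exact absurd hlt (lt_irrefl _)
    · have hd' : finrank ℚ ↥(B ⊓ F k) = Fintype.card ι := finrank_eq_card_basis b'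
      have hd : finrank ℚ B = Fintype.card ι + Fintype.card κ := by
        rw [finrank_eq_card_basis b, Fintype.card_sum]
      have hinf : ∀ i ∈ Finset.range k, (finrank ℚ ↥((B ⊓ F k) ⊓ F i) : ℤ) =
          (finrank ℚ ↥(B ⊓ F i) : ℤ) := by
        intro i hi
        have hle : F i ≤ F k := hF (Finset.mem_range.1 hi).le
        have : (B ⊓ F k) ⊓ F i = B ⊓ F i := by
          rw [inf_assoc, inf_eq_right.2 hle]
        rw [this]
      rw [Finset.sum_congr rfl hinf] at h3
      rw [Fintype.sum_sum_type]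
      simp only [Sum.elim_inl, Sum.elim_inr]
      rw [h3, Finset.sum_const, Finset.card_univ, Finset.sum_range_succ, hd', hd]
      push_cast
      simp only [nsmul_eq_mul]
      ring

/-- ADAPT: a basis of `B` adapted to the increasing chain `B ⊓ F k`, `k < k1`: the `j`-th element
has a level `lev j ≤ k1`, lies in `F (lev j)` if `lev j < k1`, and the sum of the levels is
`k1 * dim B - sum_(k < k1) dim (B ⊓ F k)`. -/
theorem exists_adapted {V : Type} [AddCommGroup V] [Module ℚ V] [FiniteDimensional ℚ V]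
    (B : Submodule ℚ V) (k1 : ℕ) (F : ℕ → Submodule ℚ V) (hF : Monotone F) :
    ∃ (b : Basis (Fin (finrank ℚ B)) ℚ B) (lev : Fin (finrank ℚ B) → ℕ),
      (∀ j, lev j ≤ k1) ∧ (∀ j, lev j < k1 → ((b j : B) : V) ∈ F (lev j)) ∧
      (∑ j, (lev j : ℤ)) =
        k1 * (finrank ℚ B : ℤ) - ∑ k ∈ Finset.range k1, (finrank ℚ ↥(B ⊓ F k) : ℤ) := by
  obtain ⟨ι, _, b, lev, h1, h2, h3⟩ := ADAPT_aux F hF k1 B
  let e : ι ≃ Fin (finrank ℚ B) := Fintype.equivFinOfCardEq (finrank_eq_card_basis b).symm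
  refine ⟨b.reindex e, fun j => lev (e.symm j), fun j => h1 _, fun j hj => ?_, ?_⟩
  · rw [Basis.reindex_apply]
    exact h2 _ hj
  · rw [← h3]
    exact Equiv.sum_comp e.symm (fun i => (lev i : ℤ))

end Pool.Agent.SubT
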