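import Pool.Agent.SubT.FurstB

/-! Module FURSTU. Text: team-store MP_e27144_an_pr_growth_helper66.md.
HINT: compactness: the set of y whose orbit avoids the ball is closed, invariant, not everything, hence finite, hence torsion points. -/

namespace Pool.Agent.SubT

open scoped BigOperators ENNReal

open MeasureTheory Set Filter Topology

/-- FURSTU: for every ball `U` there are `q`, `M` such that every `y` with `‖q y‖ ≥ 1/36` has a
point `2^a 3^b y`, `a, b ≤ M`, in `U`. -/
theorem furst_ball (c : AddCircle (1 : ℝ)) (ρ : ℝ) (hρ : 0 < ρ) :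
    ∃ q : ℕ, 1 ≤ q ∧ ∃ M : ℕ, ∀ y : AddCircle (1 : ℝ), 1 / 36 ≤ ‖q • y‖ →
      ∃ a b : ℕ, a ≤ M ∧ b ≤ M ∧ (2 ^ a * 3 ^ b : ℕ) • y ∈ Metric.ball c ρ := by
  classical
  set Y : Set (AddCircle (1 : ℝ)) := {y | ∀ a b : ℕ, (2 ^ a * 3 ^ b : ℕ) • y ∉ Metric.ball c ρ}
    with hY
  have hYinv : InvSet {m | ∃ a b : ℕ, m = 2 ^ a * 3 ^ b} Y := by
    refine ⟨?_, ?_⟩
    · have : Y = ⋂ a : ℕ, ⋂ b : ℕ, (fun y => (2 ^ a * 3 ^ b : ℕ) • y) ⁻¹' (Metric.ball c ρ)ᶜ := by
        ext y
        simp only [hY, mem_ofPred_eq, mem_iInter, mem_preimage, mem_compl_iff]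
      rw [this]
      refine isClosed_iInter fun a => isClosed_iInter fun b => ?_
      exact (Metric.isOpen_ball.isClosed_compl).preimage (continuous_const_smul _)
    · rintro m ⟨a', b', hm⟩ y hy a b
      have : (2 ^ a * 3 ^ b : ℕ) • (m • y) = (2 ^ (a + a') * 3 ^ (b + b') : ℕ) • y := by
        rw [smul_smul, hm]
        congr 1
        ring
      rw [this]
      exact hy _ _
  have hYne : Y ≠ univ := by
    intro h
    have hc : c ∈ Y := by rw [h]; trivial
    apply hc 0 0
    simpa using hρ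
  have hYfin : Y.Finite := (furst_closed Y hYinv).resolve_left hYne
  -- torsion
  have htor : ∀ y ∈ Y, ∃ n : ℕ, 1 ≤ n ∧ n • y = 0 := by
    intro y hy
    by_contra hcon
    push Not at hcon
    have hinj : Function.Injective (fun a : ℕ => (2 ^ a * 3 ^ 0 : ℕ) • y) := by
      have aux : ∀ a b : ℕ, a < b → (2 ^ a * 3 ^ 0 : ℕ) • y ≠ (2 ^ b * 3 ^ 0 : ℕ) • y := by
        intro a b hab h
        simp only [pow_zero, mul_one] at h
        have hlt : 2 ^ a < 2 ^ b := Nat.pow_lt_pow_right (by norm_num) hab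
        apply hcon (2 ^ b - 2 ^ a) (by omega)
        have h2 : (2 ^ b - 2 ^ a) • y + (2 ^ a) • y = (2 ^ b) • y := by
          rw [← add_smul, Nat.sub_add_cancel hlt.le]
        rw [← h] at h2
        simpa using h2
      intro a b h
      rcases lt_trichotomy a b with h' | h' | h'
      · exact absurd h (aux a b h')
      · exact h'
      · exact absurd h.symm (aux b a h')
    exact ((Set.infinite_range_of_injective hinj).mono (by
      rintro _ ⟨a, rfl⟩
      exact hYinv.2 _ ⟨a, 0, rfl⟩ y hy)) hYfin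
  choose! N hN1 hN2 using htor
  set q : ℕ := ∏ y ∈ hYfin.toFinset, N y with hq
  have hq1 : 1 ≤ q := by
    rw [hq]
    exact Nat.one_le_iff_ne_zero.mpr (Finset.prod_ne_zero_iff.mpr fun y hy => by
      have := hN1 y (hYfin.mem_toFinset.mp hy)
      omega)
  have hqy : ∀ y ∈ Y, q • y = 0 := by
    intro y hy
    have hdvd : N y ∣ q := Finset.dvd_prod_of_mem N (hYfin.mem_toFinset.mpr hy)
    obtain ⟨k, hk⟩ := hdvd
    rw [hk, mul_comm, mul_smul, hN2 y hy, smul_zero]
  refine ⟨q, hq1, ?_⟩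
  set Z : Set (AddCircle (1 : ℝ)) := {y | 1 / 36 ≤ ‖q • y‖} with hZ
  have hZc : IsCompact Z := by
    have : IsClosed Z := isClosed_le continuous_const ((continuous_const_smul q).norm)
    exact this.isCompact
  have hcover : Z ⊆ ⋃ p : ℕ × ℕ, (fun y => (2 ^ p.1 * 3 ^ p.2 : ℕ) • y) ⁻¹' (Metric.ball c ρ) := by
    intro y hy
    by_contra hcon
    simp only [mem_iUnion, mem_preimage, not_exists] at hcon
    have hyY : y ∈ Y := fun a b => hcon (a, b)
    have h1 : q • y = 0 := hqy y hyY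
    have h2 : (1 : ℝ) / 36 ≤ ‖q • y‖ := hy
    rw [h1, norm_zero] at h2
    norm_num at h2
  obtain ⟨T, hT⟩ := hZc.elim_finite_subcover _
    (fun p => Metric.isOpen_ball.preimage (continuous_const_smul _)) hcover
  refine ⟨T.sup (fun p => max p.1 p.2), fun y hy => ?_⟩
  have := hT hy
  simp only [mem_iUnion, mem_preimage] at this
  obtain ⟨p, hp, hpy⟩ := this
  have h1 : max p.1 p.2 ≤ T.sup (fun p => max p.1 p.2) :=
    Finset.le_sup (f := fun p : ℕ × ℕ => max p.1 p.2) hp
  exact ⟨p.1, p.2, (le_max_left _ _).trans h1, (le_max_right _ _).trans h1, hpy⟩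

end Pool.Agent.SubT
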