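import Pool.Agent.SubT.Growth
import Pool.Agent.SubT.FurstU

/-! Module ANN. Text: team-store MP_e27144_an_pr_growth_helper66.md.
HINT: growth_ball: growth for q0 q and furst_ball. annulus: nu(annulus N) <= nu(annulus (N - j log 2)); average over j. -/

namespace Pool.Agent.SubT

open scoped BigOperators ENNReal

open MeasureTheory Set Filter Topology

theorem ANN_pow (ν : Measure (AddCircle (1 : ℝ))) (k : ℕ)
    (h : MeasurePreserving (fun x => k • x) ν ν) (j : ℕ) :
    MeasurePreserving (fun x : AddCircle (1 : ℝ) => (k ^ j : ℕ) • x) ν ν := by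
  induction j with
  | zero =>
    simp only [pow_zero, one_nsmul]
    exact MeasurePreserving.id ν
  | succ j ih =>
    have h3 := h.comp ih
    have h4 : ((fun x : AddCircle (1 : ℝ) => k • x) ∘
        fun x : AddCircle (1 : ℝ) => (k ^ j : ℕ) • x) = fun x => (k ^ (j + 1) : ℕ) • x := by
      funext x
      simp only [Function.comp]
      rw [← mul_nsmul, pow_succ]
    rwa [h4] at h3

theorem ANN_mix (ν : Measure (AddCircle (1 : ℝ)))
    (h2 : MeasurePreserving (fun x => (2 : ℕ) • x) ν ν)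
    (h3 : MeasurePreserving (fun x => (3 : ℕ) • x) ν ν) (a b : ℕ) :
    MeasurePreserving (fun x : AddCircle (1 : ℝ) => (2 ^ a * 3 ^ b : ℕ) • x) ν ν := by
  have h4 := (ANN_pow ν 2 h2 a).comp (ANN_pow ν 3 h3 b)
  have h5 : ((fun x : AddCircle (1 : ℝ) => (2 ^ a : ℕ) • x) ∘
      fun x : AddCircle (1 : ℝ) => (3 ^ b : ℕ) • x) = fun x => (2 ^ a * 3 ^ b : ℕ) • x := by
    funext x
    simp only [Function.comp]
    rw [← mul_nsmul, mul_comm]
  rwa [h5] at h4

/-- growth with an arbitrary ball on the right -/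
theorem growth_ball (c : AddCircle (1 : ℝ)) (ρ η : ℝ) (hρ : 0 < ρ) (hη : 0 < η) :
    ∃ q0 : ℕ, 1 ≤ q0 ∧ ∃ K : ℝ, 0 < K ∧ ∀ ν : Measure (AddCircle (1 : ℝ)),
      MeasurePreserving (fun x => (2 : ℕ) • x) ν ν → MeasurePreserving (fun x => (3 : ℕ) • x) ν ν →
      ∀ q : ℤ, ∀ s : ℝ, 1 ≤ s → ν {x | Real.exp (-s) ≤ ‖q0 • (q • x)‖} ≤
        ENNReal.ofReal (K * s ^ η) * ν {x | q • x ∈ Metric.ball c ρ} := by
  obtain ⟨q0, hq0, M, hM⟩ := furst_ball c ρ hρ
  obtain ⟨K, hK, hg⟩ := growth η hη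
  refine ⟨q0, hq0, K * ((M + 1) ^ 2 : ℕ), by positivity, fun ν h2 h3 q s hs => ?_⟩
  have h4 := hg ν h2 h3 ((q0 : ℤ) * q) s hs
  have h5 : ∀ x : AddCircle (1 : ℝ), ((q0 : ℤ) * q) • x = q0 • (q • x) := by
    intro x
    rw [mul_smul, natCast_zsmul]
  simp only [h5] at h4
  have hqm : Measurable (fun x : AddCircle (1 : ℝ) => q • x) := (continuous_zsmul q).measurable
  set B : Set (AddCircle (1 : ℝ)) := {x | q • x ∈ Metric.ball c ρ} with hB
  have hBm : MeasurableSet B := hqm Metric.isOpen_ball.measurableSet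
  have hsub : {x : AddCircle (1 : ℝ) | 1 / 36 ≤ ‖q0 • (q • x)‖} ⊆
      ⋃ p ∈ (Finset.range (M + 1) ×ˢ Finset.range (M + 1)),
        (fun x : AddCircle (1 : ℝ) => (2 ^ p.1 * 3 ^ p.2 : ℕ) • x) ⁻¹' B := by
    intro x hx
    obtain ⟨a, b, ha, hb, hab⟩ := hM (q • x) hx
    rw [mem_iUnion₂]
    refine ⟨(a, b), Finset.mem_product.mpr ⟨Finset.mem_range.mpr (by simp only; omega),
      Finset.mem_range.mpr (by simp only; omega)⟩, ?_⟩
    simp only [mem_preimage, hB, mem_ofPred_eq]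
    rw [smul_comm]
    exact hab
  have h6 : ν {x : AddCircle (1 : ℝ) | 1 / 36 ≤ ‖q0 • (q • x)‖} ≤
      (((M + 1) ^ 2 : ℕ) : ENNReal) * ν B := by
    refine (measure_mono hsub).trans ((measure_biUnion_finset_le _ _).trans ?_)
    rw [Finset.sum_congr rfl fun p _ =>
      (ANN_mix ν h2 h3 p.1 p.2).measure_preimage hBm.nullMeasurableSet, Finset.sum_const,
      Finset.card_product, Finset.card_range, nsmul_eq_mul, sq]
  refine h4.trans ((mul_le_mul_right h6 _).trans (le_of_eq ?_))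
  rw [← mul_assoc]
  congr 1
  rw [← ENNReal.ofReal_natCast, ← ENNReal.ofReal_mul (by positivity)]
  congr 1
  ring

/-- ANN -/
theorem annulus (c : AddCircle (1 : ℝ)) (ρ η : ℝ) (hρ : 0 < ρ) (hη : 0 < η) :
    ∃ N0 K : ℝ, 1 ≤ N0 ∧ 0 < K ∧ ∀ ν : Measure (AddCircle (1 : ℝ)),
      MeasurePreserving (fun x => (2 : ℕ) • x) ν ν → MeasurePreserving (fun x => (3 : ℕ) • x) ν ν →
      ∀ q : ℤ, ∀ N : ℝ, N0 ≤ N →
        ν {x | Real.exp (-(N + 1)) ≤ ‖q • x‖ ∧ ‖q • x‖ < Real.exp (-N)} ≤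
          ENNReal.ofReal (K * N ^ (-1 + η)) * ν {x | q • x ∈ Metric.ball c ρ} := by
  obtain ⟨q0, hq0, K, hK, hg⟩ := growth_ball c ρ η hρ hη
  have hq0R : (1 : ℝ) ≤ q0 := by exact_mod_cast hq0
  refine ⟨max 8 (2 * Real.log (2 * q0)), 8 * K * 2 ^ η, le_trans (by norm_num) (le_max_left _ _),
    by positivity, fun ν h2 h3 q N hN => ?_⟩
  have hN8 : 8 ≤ N := (le_max_left _ _).trans hN
  have hNq : 2 * Real.log (2 * q0) ≤ N := (le_max_right _ _).trans hN
  have hN0 : 0 < N := by linarith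
  have hqm : Measurable (fun x : AddCircle (1 : ℝ) => q • x) := (continuous_zsmul q).measurable
  have hl2a : (0.69 : ℝ) < Real.log 2 := by have := Real.log_two_gt_d9; linarith
  have hl2b : Real.log 2 < 0.7 := by have := Real.log_two_lt_d9; linarith
  set A : ℝ → Set (AddCircle (1 : ℝ)) := fun t =>
    {x | Real.exp (-(t + 1)) ≤ ‖q • x‖ ∧ ‖q • x‖ < Real.exp (-t)} with hA
  have hAm : ∀ t, MeasurableSet (A t) := by
    intro t
    have e1 : MeasurableSet {x : AddCircle (1 : ℝ) | Real.exp (-(t + 1)) ≤ ‖x‖} :=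
      (isClosed_le continuous_const continuous_norm).measurableSet
    have e2 : MeasurableSet {x : AddCircle (1 : ℝ) | ‖x‖ < Real.exp (-t)} :=
      (isOpen_lt continuous_norm continuous_const).measurableSet
    exact (hqm e1).inter (hqm e2)
  set J : ℕ := ⌊N / 4⌋₊ with hJ
  have hJ1 : N / 8 ≤ J := by
    have := Nat.lt_floor_add_one (N / 4)
    rw [← hJ] at this
    linarith
  have hJ2 : (J : ℝ) ≤ N / 4 := Nat.floor_le (by linarith)
  -- the exponent
  have hexp : ∀ i : ℕ, i < J → (2 : ℝ) ^ (2 * i) = Real.exp (2 * i * Real.log 2) ∧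
      2 * (i : ℝ) * Real.log 2 ≤ N / 2 := by
    intro i hi
    constructor
    · have e0 : (2 * (i : ℝ)) = ((2 * i : ℕ) : ℝ) := by push_cast; rfl
      rw [e0, mul_comm ((2 * i : ℕ) : ℝ), Real.exp_mul, Real.exp_log two_pos, Real.rpow_natCast]
    · have hi' : (i : ℝ) ≤ J := by exact_mod_cast hi.le
      have hi0 : (0 : ℝ) ≤ i := Nat.cast_nonneg i
      nlinarith
  have hsmall : Real.exp (-(N / 2)) ≤ 1 / (2 * q0) := by
    have e1 : (2 * (q0 : ℝ)) ≤ Real.exp (N / 2) := by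
      rw [← Real.log_le_iff_le_exp (by positivity)]
      linarith
    rw [Real.exp_neg, ← one_div]
    exact one_div_le_one_div_of_le (by positivity) e1
  have hsmall' : (q0 : ℝ) * Real.exp (-(N / 2)) ≤ 1 / 2 := by
    calc (q0 : ℝ) * Real.exp (-(N / 2)) ≤ q0 * (1 / (2 * q0)) :=
          mul_le_mul_of_nonneg_left hsmall (by positivity)
      _ = 1 / 2 := by field_simp
  have hsmall1 : Real.exp (-(N / 2)) ≤ 1 / 2 := by
    have : 0 < Real.exp (-(N / 2)) := Real.exp_pos _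
    nlinarith
  -- monotonicity
  have hle : ∀ i : ℕ, i < J → ν (A N) ≤ ν (A (N - 2 * i * Real.log 2)) := by
    intro i hi
    obtain ⟨e1, e2⟩ := hexp i hi
    have hmp := ANN_pow ν 2 h2 (2 * i)
    refine le_trans (measure_mono ?_)
      (hmp.measure_preimage (hAm (N - 2 * i * Real.log 2)).nullMeasurableSet).le
    intro x hx
    obtain ⟨hx1, hx2⟩ := hx
    have e3 : ((2 ^ (2 * i) : ℕ) : ℝ) * ‖q • x‖ ≤ 1 / 2 := by
      push_cast
      rw [e1]
      have e4 : Real.exp (2 * i * Real.log 2) * ‖q • x‖ ≤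
          Real.exp (2 * i * Real.log 2) * Real.exp (-N) :=
        mul_le_mul_of_nonneg_left hx2.le (Real.exp_pos _).le
      have e5 : Real.exp (2 * i * Real.log 2) * Real.exp (-N) ≤ Real.exp (-(N / 2)) := by
        rw [← Real.exp_add]
        exact Real.exp_le_exp.mpr (by linarith)
      linarith
    have e6 : ‖q • ((2 ^ (2 * i) : ℕ) • x)‖ = Real.exp (2 * i * Real.log 2) * ‖q • x‖ := by
      rw [smul_comm, GR2_norm _ _ e3]
      push_cast
      rw [e1]
    have hpos : 0 < Real.exp (2 * i * Real.log 2) := Real.exp_pos _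
    refine ⟨?_, ?_⟩
    · show Real.exp (-(N - 2 * i * Real.log 2 + 1)) ≤ ‖q • ((2 ^ (2 * i) : ℕ) • x)‖
      rw [e6]
      have e7 : Real.exp (-(N - 2 * i * Real.log 2 + 1)) =
          Real.exp (2 * i * Real.log 2) * Real.exp (-(N + 1)) := by
        rw [← Real.exp_add]; ring_nf
      rw [e7]
      exact mul_le_mul_of_nonneg_left hx1 hpos.le
    · show ‖q • ((2 ^ (2 * i) : ℕ) • x)‖ < Real.exp (-(N - 2 * i * Real.log 2))
      rw [e6]
      have e7 : Real.exp (-(N - 2 * i * Real.log 2)) =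
          Real.exp (2 * i * Real.log 2) * Real.exp (-N) := by
        rw [← Real.exp_add]; ring_nf
      rw [e7]
      exact mul_lt_mul_of_pos_left hx2 hpos
  -- disjointness
  have hdisj : (↑(Finset.range J) : Set ℕ).PairwiseDisjoint
      (fun i : ℕ => A (N - 2 * i * Real.log 2)) := by
    have key : ∀ i j : ℕ, i < j → Disjoint (A (N - 2 * i * Real.log 2))
        (A (N - 2 * j * Real.log 2)) := by
      intro i j hij
      rw [Set.disjoint_left]
      intro x hx hy
      have e1 : ‖q • x‖ < Real.exp (-(N - 2 * i * Real.log 2)) := hx.2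
      have e2 : Real.exp (-(N - 2 * j * Real.log 2 + 1)) ≤ ‖q • x‖ := hy.1
      have e3 := lt_of_le_of_lt e2 e1
      rw [Real.exp_lt_exp] at e3
      have e4 : (i : ℝ) + 1 ≤ j := by exact_mod_cast hij
      nlinarith
    intro i _ j _ hij
    rcases lt_or_gt_of_ne hij with h | h
    · exact key i j h
    · exact (key j i h).symm
  -- union
  have hU : ν (⋃ i ∈ Finset.range J, A (N - 2 * i * Real.log 2)) ≤
      ENNReal.ofReal (K * (N + 1) ^ η) * ν {x | q • x ∈ Metric.ball c ρ} := by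
    refine le_trans (measure_mono ?_) (hg ν h2 h3 q (N + 1) (by linarith))
    intro x hx
    rw [mem_iUnion₂] at hx
    obtain ⟨i, hi, hx⟩ := hx
    obtain ⟨e1, e2⟩ := hexp i (Finset.mem_range.mp hi)
    obtain ⟨hx1, hx2⟩ := hx
    have e3 : ‖q • x‖ ≤ Real.exp (-(N / 2)) :=
      hx2.le.trans (Real.exp_le_exp.mpr (by linarith))
    have e4 : (q0 : ℝ) * ‖q • x‖ ≤ 1 / 2 :=
      (mul_le_mul_of_nonneg_left e3 (by positivity)).trans hsmall'
    show Real.exp (-(N + 1)) ≤ ‖q0 • (q • x)‖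
    rw [GR2_norm _ _ e4]
    have e5 : Real.exp (-(N + 1)) ≤ ‖q • x‖ := by
      refine le_trans (Real.exp_le_exp.mpr ?_) hx1
      have : (0 : ℝ) ≤ 2 * i * Real.log 2 := by positivity
      linarith
    have e6 := norm_nonneg (q • x)
    nlinarith
  rw [measure_biUnion_finset hdisj fun i _ => hAm _] at hU
  have hsum : (J : ENNReal) * ν (A N) ≤ ∑ i ∈ Finset.range J, ν (A (N - 2 * i * Real.log 2)) := by
    have : ∑ _i ∈ Finset.range J, ν (A N) = (J : ENNReal) * ν (A N) := by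
      rw [Finset.sum_const, Finset.card_range, nsmul_eq_mul]
    rw [← this]
    exact Finset.sum_le_sum fun i hi => hle i (Finset.mem_range.mp hi)
  have hfin := hsum.trans hU
  have e10 : ENNReal.ofReal (8 / N) * (J : ENNReal) ≥ 1 := by
    rw [← ENNReal.ofReal_natCast, ← ENNReal.ofReal_mul (by positivity), ge_iff_le,
      ENNReal.one_le_ofReal]
    rw [div_mul_eq_mul_div, le_div_iff₀ hN0]
    linarith
  calc ν (A N) = 1 * ν (A N) := (one_mul _).symm
    _ ≤ ENNReal.ofReal (8 / N) * (J : ENNReal) * ν (A N) := mul_le_mul_left e10 _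
    _ = ENNReal.ofReal (8 / N) * ((J : ENNReal) * ν (A N)) := mul_assoc _ _ _
    _ ≤ ENNReal.ofReal (8 / N) * (ENNReal.ofReal (K * (N + 1) ^ η) *
        ν {x | q • x ∈ Metric.ball c ρ}) := mul_le_mul_right hfin _
    _ = ENNReal.ofReal (8 / N * (K * (N + 1) ^ η)) * ν {x | q • x ∈ Metric.ball c ρ} := by
        rw [← mul_assoc, ← ENNReal.ofReal_mul (by positivity)]
    _ ≤ ENNReal.ofReal (8 * K * 2 ^ η * N ^ (-1 + η)) * ν {x | q • x ∈ Metric.ball c ρ} := by
        refine mul_le_mul_left (ENNReal.ofReal_le_ofReal ?_) _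
        have e11 : (N + 1) ^ η ≤ 2 ^ η * N ^ η := by
          rw [← Real.mul_rpow (by norm_num) hN0.le]
          exact Real.rpow_le_rpow (by linarith) (by linarith) hη.le
        have e12 : N ^ (-1 + η) = N ^ η / N := by
          rw [Real.rpow_add hN0, Real.rpow_neg_one]
          field_simp
        rw [e12]
        calc 8 / N * (K * (N + 1) ^ η) ≤ 8 / N * (K * (2 ^ η * N ^ η)) := by
              refine mul_le_mul_of_nonneg_left ?_ (by positivity)
              exact mul_le_mul_of_nonneg_left e11 hK.le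
          _ = 8 * K * 2 ^ η * (N ^ η / N) := by ring

end Pool.Agent.SubT
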