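import Pool.Agent.SubT.Nrm

/-! Module AUXB. Text: team-store MP_e27144_an_pr_growth_helper66.md.
HINT: nrm is submultiplicative; the norm of a linear form is at most n b. -/

namespace Pool.Agent.SubT

open scoped BigOperators ENNReal

open MeasureTheory Set Filter Topology

theorem AUXB_nrm_pow_le {σ : Type*} (P : MvPolynomial σ ℤ) (k : ℕ) : nrm (P ^ k) ≤ nrm P ^ k := by
  have := nrm_prod_le (Finset.range k) (fun _ => P)
  simpa using this

theorem AUXB_nrm_monomial_le {σ : Type*} (s : σ →₀ ℕ) (a : ℤ) :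
    nrm (MvPolynomial.monomial s a) ≤ |((a : ℤ) : ℝ)| := by
  classical
  by_cases ha : a = 0
  · subst ha
    simp [nrm]
  · unfold nrm
    rw [MvPolynomial.support_monomial, if_neg ha]
    simp

theorem AUXB_nrm_lin_le {m n : ℕ} (B : Matrix (Fin n) (Fin n) ℤ) (b : ℝ)
    (hB : ∀ k i, |((B k i : ℤ) : ℝ)| ≤ b) (h : Fin m) (k : Fin n) :
    nrm (∑ i, MvPolynomial.C (B k i) * MvPolynomial.X (h, i) : MvPolynomial (Fin m × Fin n) ℤ) ≤
      n * b := by
  refine (nrm_sum_le _ _).trans ?_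
  have : ∀ i ∈ (Finset.univ : Finset (Fin n)),
      nrm (MvPolynomial.C (B k i) * MvPolynomial.X (h, i) : MvPolynomial (Fin m × Fin n) ℤ) ≤ b := by
    intro i _
    rw [MvPolynomial.C_mul_X_eq_monomial]
    exact (AUXB_nrm_monomial_le _ _).trans (hB k i)
  refine (Finset.sum_le_sum this).trans ?_
  simp

theorem AUXB_sub_mono {m n : ℕ} (B : Matrix (Fin n) (Fin n) ℤ) (J : (Fin m × Fin n) →₀ ℕ)
    (c : ℤ) :
    subZ B (MvPolynomial.monomial J c) = MvPolynomial.C c * ∏ hk : Fin m × Fin n,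
      (∑ i, MvPolynomial.C (B hk.2 i) * MvPolynomial.X (hk.1, i) :
        MvPolynomial (Fin m × Fin n) ℤ) ^ (J hk) := by
  unfold subZ
  rw [MvPolynomial.aeval_monomial, Finsupp.prod_fintype _ _ (by intro i; simp)]
  rfl

theorem AUXB_sum_eq {m n : ℕ} (r : Fin m → ℕ) (J : (Fin m × Fin n) →₀ ℕ)
    (hJ : ∀ h, ∑ k, J (h, k) = r h) : ∑ hk : Fin m × Fin n, J hk = ∑ h, r h := by
  rw [Fintype.sum_prod_type]
  exact Finset.sum_congr rfl fun h _ => hJ h

/-- AUXB: bound for the substitution of a monomial. -/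
theorem nrm_subZ_monomial_le {m n : ℕ} (B : Matrix (Fin n) (Fin n) ℤ) (b : ℝ) (hb : 1 ≤ b)
    (hB : ∀ k i, |((B k i : ℤ) : ℝ)| ≤ b) (r : Fin m → ℕ) (J : (Fin m × Fin n) →₀ ℕ)
    (hJ : ∀ h, ∑ k, J (h, k) = r h) :
    nrm (subZ B (MvPolynomial.monomial J 1)) ≤ (n * b) ^ (∑ h, r h) := by
  rw [AUXB_sub_mono, MvPolynomial.C_1, one_mul]
  refine (nrm_prod_le _ _).trans ?_
  have h1 : ∀ hk ∈ (Finset.univ : Finset (Fin m × Fin n)),
      nrm ((∑ i, MvPolynomial.C (B hk.2 i) * MvPolynomial.X (hk.1, i) :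
        MvPolynomial (Fin m × Fin n) ℤ) ^ (J hk)) ≤ (n * b) ^ (J hk) := by
    intro hk _
    refine (AUXB_nrm_pow_le _ _).trans ?_
    exact pow_le_pow_left₀ (nrm_nonneg _) (AUXB_nrm_lin_le B b hB hk.1 hk.2) _
  refine (Finset.prod_le_prod (fun _ _ => nrm_nonneg _) h1).trans ?_
  rw [Finset.prod_pow_eq_pow_sum, AUXB_sum_eq r J hJ]

/-- the weight of block h -/
def AUXB_w {m n : ℕ} (h : Fin m) : Fin m × Fin n → ℕ := fun hk => if hk.1 = h then 1 else 0

theorem AUXB_weight {m n : ℕ} (h : Fin m) (J : (Fin m × Fin n) →₀ ℕ) :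
    Finsupp.weight (AUXB_w h) J = ∑ k, J (h, k) := by
  classical
  rw [Finsupp.weight_apply, Finsupp.sum_fintype _ _ (by intro i; simp), Fintype.sum_prod_type]
  rw [Finset.sum_eq_single h]
  · simp [AUXB_w]
  · intro h' _ hne
    simp [AUXB_w, hne]
  · intro hh
    exact absurd (Finset.mem_univ h) hh

theorem AUXB_homB_iff {m n : ℕ} {R : Type*} [CommSemiring R] (r : Fin m → ℕ)
    (P : MvPolynomial (Fin m × Fin n) R) :
    HomB r P ↔ ∀ h, MvPolynomial.IsWeightedHomogeneous (AUXB_w h) P (r h) := by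
  constructor
  · intro hP h d hd
    rw [AUXB_weight]
    exact hP d (MvPolynomial.mem_support_iff.mpr hd) h
  · intro hP J hJ h
    have := hP h (MvPolynomial.mem_support_iff.mp hJ)
    rwa [AUXB_weight] at this

/-- substitution of linear forms (general coefficients) preserves block degrees -/
theorem AUXB_homB_subst {m n : ℕ} {R S : Type*} [CommSemiring R] [CommSemiring S] [Algebra R S]
    (B : Matrix (Fin n) (Fin n) S) (r : Fin m → ℕ)
    (P : MvPolynomial (Fin m × Fin n) R) (hP : HomB r P) :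
    HomB r (MvPolynomial.aeval (fun hk : Fin m × Fin n =>
      (∑ i, MvPolynomial.C (B hk.2 i) * MvPolynomial.X (hk.1, i) :
        MvPolynomial (Fin m × Fin n) S)) P) := by
  classical
  rw [AUXB_homB_iff]
  intro h
  rw [MvPolynomial.aeval_def, MvPolynomial.eval₂_eq]
  refine MvPolynomial.IsWeightedHomogeneous.sum _ _ _ fun J hJ => ?_
  have hc : (algebraMap R (MvPolynomial (Fin m × Fin n) S)) (MvPolynomial.coeff J P) =
      MvPolynomial.C (algebraMap R S (MvPolynomial.coeff J P)) := rfl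
  rw [hc]
  have h0 := MvPolynomial.isWeightedHomogeneous_C (AUXB_w (n := n) h)
    (algebraMap R S (MvPolynomial.coeff J P))
  have h1 : MvPolynomial.IsWeightedHomogeneous (AUXB_w (n := n) h)
      (∏ i ∈ J.support, (∑ l, MvPolynomial.C (B i.2 l) * MvPolynomial.X (i.1, l) :
        MvPolynomial (Fin m × Fin n) S) ^ (J i)) (∑ i ∈ J.support, J i • AUXB_w (n := n) h i) := by
    refine MvPolynomial.IsWeightedHomogeneous.prod _ _ _ fun i _ => ?_
    refine MvPolynomial.IsWeightedHomogeneous.pow ?_ _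
    refine MvPolynomial.IsWeightedHomogeneous.sum _ _ _ fun l _ => ?_
    refine MvPolynomial.IsWeightedHomogeneous.C_mul ?_ _
    have := MvPolynomial.isWeightedHomogeneous_X S (AUXB_w (n := n) h) (i.1, l)
    exact this
  have h2 := h0.mul h1
  rw [zero_add] at h2
  have h3 : ∑ i ∈ J.support, J i • AUXB_w (n := n) h i = r h := by
    rw [← hP J hJ h, ← AUXB_weight, Finsupp.weight_apply]
    rfl
  rwa [h3] at h2

/-- AUXB: the substitution preserves block degrees. -/
theorem homB_subZ {m n : ℕ} (B : Matrix (Fin n) (Fin n) ℤ) (r : Fin m → ℕ)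
    (P : MvPolynomial (Fin m × Fin n) ℤ) (hP : HomB r P) : HomB r (subZ B P) :=
  AUXB_homB_subst B r P hP

end Pool.Agent.SubT
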