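import Pool.Agent.SubT.Defs

/-! Module CHEB. Text: team-store MP_e27144_an_pr_growth_helper66.md.
HINT: (2.1) of the text: second moment; the cross terms vanish because the sum over J_h of (J h i / r h - 1/n) is 0 (symmetry under permutations of Fin n and sum_i J h i = r h). -/

namespace Pool.Agent.SubT

open scoped BigOperators ENNReal

open MeasureTheory Set Filter Topology

theorem mem_JJ {m n : ℕ} (r : Fin m → ℕ) (J : Fin m → Fin n → ℕ) :
    J ∈ JJ n r ↔ ∀ h, ∑ k, J h k = r h := by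
  unfold JJ
  rw [Fintype.mem_piFinset]
  simp [Finset.mem_piAntidiag]

private theorem cheb_card_le (n r : ℕ) :
    (Finset.piAntidiag (Finset.univ : Finset (Fin n)) r).card ≤ 2 ^ (n * r) := by
  have h1 : Finset.piAntidiag (Finset.univ : Finset (Fin n)) r ⊆
      Fintype.piFinset (fun _ : Fin n => Finset.range (r + 1)) := by
    intro J hJ
    rw [Finset.mem_piAntidiag] at hJ
    rw [Fintype.mem_piFinset]
    intro i
    rw [Finset.mem_range]
    have h2 := Finset.single_le_sum (f := J) (fun _ _ => Nat.zero_le _) (Finset.mem_univ i)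
    rw [hJ.1] at h2
    omega
  refine (Finset.card_le_card h1).trans ?_
  rw [Fintype.card_piFinset]
  simp only [Finset.card_range, Finset.prod_const, Finset.card_univ, Fintype.card_fin]
  rw [mul_comm n r, pow_mul]
  exact Nat.pow_le_pow_left (Nat.lt_two_pow_self (n := r)) n

theorem card_JJ_le {m n : ℕ} (r : Fin m → ℕ) : ((JJ n r).card : ℝ) ≤ 2 ^ (n * ∑ h, r h) := by
  have h1 : (JJ n r).card ≤ 2 ^ (n * ∑ h, r h) := by
    unfold JJ
    rw [Fintype.card_piFinset, Finset.mul_sum, ← Finset.prod_pow_eq_pow_sum]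
    exact Finset.prod_le_prod' fun h _ => cheb_card_le n (r h)
  exact_mod_cast h1

theorem card_JJ_pos {m n : ℕ} (hn : 1 ≤ n) (r : Fin m → ℕ) : 0 < (JJ n r).card := by
  rw [Finset.card_pos]
  refine ⟨fun h => Pi.single (⟨0, hn⟩ : Fin n) (r h), ?_⟩
  rw [mem_JJ]
  intro h
  rw [Finset.sum_pi_single']
  simp

/-- a coordinate has mean `r / n` -/
private theorem cheb_mean (n r : ℕ) (hn : 1 ≤ n) (i : Fin n) :
    (n : ℝ) * ∑ J ∈ Finset.piAntidiag (Finset.univ : Finset (Fin n)) r, ((J i : ℕ) : ℝ) =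
      r * ((Finset.piAntidiag (Finset.univ : Finset (Fin n)) r).card : ℝ) := by
  classical
  have hsym : ∀ j : Fin n, ∑ J ∈ Finset.piAntidiag (Finset.univ : Finset (Fin n)) r, ((J j : ℕ) : ℝ) =
      ∑ J ∈ Finset.piAntidiag (Finset.univ : Finset (Fin n)) r, ((J i : ℕ) : ℝ) := by
    intro j
    refine Finset.sum_bij' (fun J _ => J ∘ Equiv.swap i j) (fun J _ => J ∘ Equiv.swap i j) ?_ ?_ ?_ ?_ ?_
    · intro J hJ
      rw [Finset.mem_piAntidiag] at hJ ⊢
      refine ⟨?_, fun _ _ => Finset.mem_univ _⟩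
      rw [← hJ.1]
      exact Equiv.sum_comp (Equiv.swap i j) J
    · intro J hJ
      rw [Finset.mem_piAntidiag] at hJ ⊢
      refine ⟨?_, fun _ _ => Finset.mem_univ _⟩
      rw [← hJ.1]
      exact Equiv.sum_comp (Equiv.swap i j) J
    · intro J _
      funext x
      simp
    · intro J _
      funext x
      simp
    · intro J _
      simp
  have h1 : ∑ j : Fin n, ∑ J ∈ Finset.piAntidiag (Finset.univ : Finset (Fin n)) r, ((J j : ℕ) : ℝ) =
      (n : ℝ) * ∑ J ∈ Finset.piAntidiag (Finset.univ : Finset (Fin n)) r, ((J i : ℕ) : ℝ) := by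
    rw [Finset.sum_congr rfl fun j _ => hsym j, Finset.sum_const, Finset.card_univ, Fintype.card_fin,
      nsmul_eq_mul]
  rw [← h1, Finset.sum_comm]
  have h2 : ∀ J ∈ Finset.piAntidiag (Finset.univ : Finset (Fin n)) r,
      ∑ j : Fin n, ((J j : ℕ) : ℝ) = r := by
    intro J hJ
    rw [Finset.mem_piAntidiag] at hJ
    rw [← Nat.cast_sum]
    exact_mod_cast congrArg (Nat.cast : ℕ → ℝ) hJ.1
  rw [Finset.sum_congr rfl h2, Finset.sum_const, nsmul_eq_mul, mul_comm]

private theorem cheb_zero (n r : ℕ) (hn : 1 ≤ n) (hr : 1 ≤ r) (i : Fin n) :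
    ∑ J ∈ Finset.piAntidiag (Finset.univ : Finset (Fin n)) r, (((J i : ℕ) : ℝ) / (r : ℝ) - 1 / (n : ℝ)) = 0 := by
  have h1 := cheb_mean n r hn i
  have hn0 : (0 : ℝ) < n := by exact_mod_cast hn
  have hr0 : (0 : ℝ) < r := by exact_mod_cast hr
  rw [Finset.sum_sub_distrib, ← Finset.sum_div, Finset.sum_const, nsmul_eq_mul]
  have h2 : ∑ J ∈ Finset.piAntidiag (Finset.univ : Finset (Fin n)) r, ((J i : ℕ) : ℝ) =
      r * ((Finset.piAntidiag (Finset.univ : Finset (Fin n)) r).card : ℝ) / n := by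
    rw [eq_div_iff hn0.ne']
    linarith
  rw [h2]
  field_simp
  ring

private theorem cheb_cross {m : ℕ} {α : Type*} (t : Fin m → Finset α) (F G : α → ℝ)
    (h h' : Fin m) (hne : h ≠ h') (h0 : ∑ j ∈ t h, F j = 0) :
    ∑ J ∈ Fintype.piFinset t, F (J h) * G (J h') = 0 := by
  classical
  have h1 : ∀ J : Fin m → α, F (J h) * G (J h') =
      ∏ x, ((if x = h then F (J x) else 1) * (if x = h' then G (J x) else 1)) := by
    intro J
    rw [Finset.prod_mul_distrib, Finset.prod_ite_eq' , Finset.prod_ite_eq']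
    simp
  rw [Finset.sum_congr rfl fun J _ => h1 J]
  rw [← Finset.prod_univ_sum t (fun x j => (if x = h then F j else 1) * (if x = h' then G j else 1))]
  refine Finset.prod_eq_zero (Finset.mem_univ h) ?_
  simp only [if_true, if_neg hne, mul_one]
  exact h0

theorem cheb {m n : ℕ} (hn : 1 ≤ n) (r : Fin m → ℕ) (hr : ∀ h, 1 ≤ r h) (i : Fin n)
    (ε : ℝ) (hε : 0 < ε) :
    (((JJ n r).filter (fun J => ε * m <
      |∑ h, ((J h i : ℕ) : ℝ) / (r h : ℝ) - (m : ℝ) / (n : ℝ)|)).card : ℝ) * (ε ^ 2 * m) ≤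
      ((JJ n r).card : ℝ) := by
  classical
  rcases Nat.eq_zero_or_pos m with hm | hm
  · subst hm
    simp
  have hm0 : (0 : ℝ) < m := by exact_mod_cast hm
  have hn0 : (0 : ℝ) < n := by exact_mod_cast hn
  set X : Fin m → (Fin n → ℕ) → ℝ := fun h v => ((v i : ℕ) : ℝ) / (r h : ℝ) - 1 / (n : ℝ) with hX
  have hsum : ∀ J : Fin m → Fin n → ℕ, ∑ h, ((J h i : ℕ) : ℝ) / (r h : ℝ) - (m : ℝ) / (n : ℝ) =
      ∑ h, X h (J h) := by
    intro J
    simp only [hX]
    rw [Finset.sum_sub_distrib, Finset.sum_const, Finset.card_univ, Fintype.card_fin, nsmul_eq_mul]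
    ring
  have hmom : ∑ J ∈ JJ n r, (∑ h, X h (J h)) ^ 2 ≤ (m : ℝ) * ((JJ n r).card : ℝ) := by
    have e1 : ∀ J : Fin m → Fin n → ℕ, (∑ h, X h (J h)) ^ 2 =
        ∑ h, ∑ h', X h (J h) * X h' (J h') := fun J => by
      rw [sq, Finset.sum_mul_sum]
    rw [Finset.sum_congr rfl fun J _ => e1 J, Finset.sum_comm]
    have e2 : ∀ h : Fin m, ∑ J ∈ JJ n r, ∑ h', X h (J h) * X h' (J h') ≤ ((JJ n r).card : ℝ) := by
      intro h
      rw [Finset.sum_comm]
      rw [Finset.sum_eq_single h]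
      · have e3 : ∑ J ∈ JJ n r, X h (J h) * X h (J h) ≤ ∑ J ∈ JJ n r, (1 : ℝ) := by
          refine Finset.sum_le_sum fun J hJ => ?_
          have h1 := (mem_JJ r J).1 hJ h
          have h2 : J h i ≤ r h := by
            rw [← h1]
            exact Finset.single_le_sum (f := fun k => J h k) (fun _ _ => Nat.zero_le _) (Finset.mem_univ i)
          have hr0 : (0 : ℝ) < r h := by exact_mod_cast hr h
          have h3 : ((J h i : ℕ) : ℝ) / (r h : ℝ) ≤ 1 := by
            rw [div_le_one hr0]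
            exact_mod_cast h2
          have h4 : 0 ≤ ((J h i : ℕ) : ℝ) / (r h : ℝ) := by positivity
          have h5 : 1 / (n : ℝ) ≤ 1 := by
            rw [div_le_one hn0]
            exact_mod_cast hn
          have h6 : 0 ≤ 1 / (n : ℝ) := by positivity
          have h7 : |X h (J h)| ≤ 1 := by
            simp only [hX]
            rw [abs_le]
            constructor <;> linarith
          have h8 := abs_le.1 h7
          nlinarith
        refine e3.trans ?_
        rw [Finset.sum_const, nsmul_eq_mul, mul_one]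
      · intro h' _ hne
        exact cheb_cross (fun h => Finset.piAntidiag (Finset.univ : Finset (Fin n)) (r h))
          (X h) (X h') h h' (Ne.symm hne) (cheb_zero n (r h) hn (hr h) i)
      · intro hcon
        exact absurd (Finset.mem_univ h) hcon
    calc ∑ h, ∑ J ∈ JJ n r, ∑ h', X h (J h) * X h' (J h') ≤ ∑ _h : Fin m, ((JJ n r).card : ℝ) :=
          Finset.sum_le_sum fun h _ => e2 h
      _ = _ := by rw [Finset.sum_const, Finset.card_univ, Fintype.card_fin, nsmul_eq_mul]
  simp only [hsum]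
  have h2 : (((JJ n r).filter (fun J => ε * m < |∑ h, X h (J h)|)).card : ℝ) * (ε * m) ^ 2 ≤
      ∑ J ∈ JJ n r, (∑ h, X h (J h)) ^ 2 := by
    rw [← nsmul_eq_mul, ← Finset.sum_const]
    refine (Finset.sum_le_sum fun J hJ => ?_).trans
      (Finset.sum_le_sum_of_subset_of_nonneg (Finset.filter_subset _ _) fun _ _ _ => sq_nonneg _)
    have h3 := (Finset.mem_filter.1 hJ).2
    rw [← sq_abs (∑ h, X h (J h))]
    have h4 : 0 ≤ ε * m := by positivity
    exact pow_le_pow_left₀ h4 h3.le 2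
  have h3 := h2.trans hmom
  have h4 : (((JJ n r).filter (fun J => ε * m < |∑ h, X h (J h)|)).card : ℝ) * (ε ^ 2 * m) * m ≤
      ((JJ n r).card : ℝ) * m := by
    calc _ = (((JJ n r).filter (fun J => ε * m < |∑ h, X h (J h)|)).card : ℝ) * (ε * m) ^ 2 := by ring
      _ ≤ _ := h3
      _ = _ := by ring
  exact le_of_mul_le_mul_right h4 hm0

end Pool.Agent.SubT
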