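import Pool.Agent.SubT.Place
import Pool.Agent.SubT.AuxB
import Pool.Agent.SubT.Cheb

/-! Module AUX. Text: team-store MP_e27144_an_pr_growth_helper66.md.
HINT: (2.2) of the text. D (M v)^-1 = integral matrix B_v; unknowns: the coefficients of P indexed by JJ n r; equations: coefficient of Y^J in subZ B_v P is 0 for all v and all bad J (at most 3 n Ntot/(eps^2 m) <= Ntot/2 of them, cheb); Int.Matrix.exists_ne_zero_int_vec_norm_le (Siegel); G = D^(-|r|) subZ B_v P; av v of an integer <= max 1 |.|; P = G(M_v X) by block homogeneity. -/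

namespace Pool.Agent.SubT

open scoped BigOperators ENNReal

open MeasureTheory Set Filter Topology

/-- an exponent array as a monomial -/
noncomputable def AUX_toF {m n : ℕ} (J : Fin m → Fin n → ℕ) : (Fin m × Fin n) →₀ ℕ :=
  Finsupp.equivFunOnFinite.symm (fun hk => J hk.1 hk.2)

theorem AUX_toF_apply {m n : ℕ} (J : Fin m → Fin n → ℕ) (h : Fin m) (k : Fin n) :
    AUX_toF J (h, k) = J h k := rfl

theorem AUX_toF_inj {m n : ℕ} : Function.Injective (AUX_toF : (Fin m → Fin n → ℕ) → _) := by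
  intro J J' h
  funext a b
  rw [← AUX_toF_apply J a b, h, AUX_toF_apply]

/-- a common denominator of the inverse matrices -/
theorem AUX_den {n : ℕ} (M : Pl → Matrix (Fin n) (Fin n) ℚ) (hM : ∀ v, (M v).det ≠ 0) :
    ∃ D : ℕ, 1 ≤ D ∧ ∃ B : Pl → Matrix (Fin n) (Fin n) ℤ, ∀ v,
      (B v).map (fun z : ℤ => (z : ℚ)) * M v = (D : ℚ) • (1 : Matrix (Fin n) (Fin n) ℚ) := by
  classical
  set D : ℕ := ∏ v : Pl, ∏ i : Fin n, ∏ k : Fin n, ((M v)⁻¹ i k).den with hD
  have hDpos : 1 ≤ D := by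
    rw [hD]
    refine Nat.one_le_iff_ne_zero.mpr (Finset.prod_ne_zero_iff.mpr fun v _ => ?_)
    refine Finset.prod_ne_zero_iff.mpr fun i _ => ?_
    exact Finset.prod_ne_zero_iff.mpr fun k _ => Rat.den_ne_zero _
  have hint : ∀ v i k, ∃ z : ℤ, (z : ℚ) = (D : ℚ) * (M v)⁻¹ i k := by
    intro v i k
    have hdvd : ((M v)⁻¹ i k).den ∣ D := by
      rw [hD]
      exact (Finset.dvd_prod_of_mem (fun k => ((M v)⁻¹ i k).den) (Finset.mem_univ k)).trans
        ((Finset.dvd_prod_of_mem (fun i => ∏ k, ((M v)⁻¹ i k).den) (Finset.mem_univ i)).trans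
        (Finset.dvd_prod_of_mem (fun v => ∏ i, ∏ k, ((M v)⁻¹ i k).den) (Finset.mem_univ v)))
    obtain ⟨c, hc⟩ := hdvd
    refine ⟨c * ((M v)⁻¹ i k).num, ?_⟩
    have hq : ((M v)⁻¹ i k) * (((M v)⁻¹ i k).den : ℚ) = (((M v)⁻¹ i k).num : ℚ) :=
      Rat.mul_den_eq_num _
    rw [hc]
    push_cast
    rw [← hq]
    ring
  choose B hB using hint
  refine ⟨D, hDpos, B, fun v => ?_⟩
  have h1 : (Matrix.of (B v)).map (fun z : ℤ => (z : ℚ)) = (D : ℚ) • (M v)⁻¹ := by
    ext i k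
    simp only [Matrix.map_apply, Matrix.of_apply, Matrix.smul_apply, smul_eq_mul]
    exact hB v i k
  have h2 : (Matrix.of (B v)).map (fun z : ℤ => (z : ℚ)) * M v =
      (D : ℚ) • (1 : Matrix (Fin n) (Fin n) ℚ) := by
    rw [h1, Matrix.smul_mul, Matrix.nonsing_inv_mul _ (isUnit_iff_ne_zero.mpr (hM v))]
  exact h2

/-- scaling of the variables of a block homogeneous polynomial -/
theorem AUX_scale {m n : ℕ} (r : Fin m → ℕ) (P : MvPolynomial (Fin m × Fin n) ℤ)
    (hP : HomB r P) (D : ℚ) :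
    MvPolynomial.aeval (fun hk : Fin m × Fin n =>
      (MvPolynomial.C D * MvPolynomial.X hk : MvPolynomial (Fin m × Fin n) ℚ)) P =
    MvPolynomial.C (D ^ (∑ h, r h)) * MvPolynomial.map (Int.castRingHom ℚ) P := by
  classical
  rw [MvPolynomial.aeval_def, MvPolynomial.eval₂_eq']
  conv_rhs => rw [MvPolynomial.as_sum P, map_sum, Finset.mul_sum]
  refine Finset.sum_congr rfl fun J hJ => ?_
  rw [MvPolynomial.map_monomial, MvPolynomial.monomial_eq, Finsupp.prod_fintype _ _ (by intro i; simp)]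
  have h1 : ∏ i, (MvPolynomial.C D * MvPolynomial.X i : MvPolynomial (Fin m × Fin n) ℚ) ^ J i =
      MvPolynomial.C (D ^ (∑ h, r h)) * ∏ i, (MvPolynomial.X i) ^ J i := by
    simp only [mul_pow]
    rw [Finset.prod_mul_distrib, Finset.prod_pow_eq_pow_sum, AUXB_sum_eq r J (hP J hJ), map_pow]
  rw [h1]
  have h2 : (algebraMap ℤ (MvPolynomial (Fin m × Fin n) ℚ)) (MvPolynomial.coeff J P) =
      MvPolynomial.C ((Int.castRingHom ℚ) (MvPolynomial.coeff J P)) := rfl
  rw [h2]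
  ring

/-- the substitution of the linear forms after `subZ` -/
theorem AUX_comp {m n : ℕ} (A : Matrix (Fin n) (Fin n) ℚ) (B : Matrix (Fin n) (Fin n) ℤ) (D : ℚ)
    (h : B.map (fun z : ℤ => (z : ℚ)) * A = D • (1 : Matrix (Fin n) (Fin n) ℚ))
    (P : MvPolynomial (Fin m × Fin n) ℤ) :
    MvPolynomial.aeval (fun hk : Fin m × Fin n => lfP A hk.1 hk.2)
      (MvPolynomial.map (Int.castRingHom ℚ) (subZ B P)) =
    MvPolynomial.aeval (fun hk : Fin m × Fin n =>
      (MvPolynomial.C D * MvPolynomial.X hk : MvPolynomial (Fin m × Fin n) ℚ)) P := by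
  classical
  set φ : MvPolynomial (Fin m × Fin n) ℤ →ₐ[ℤ] MvPolynomial (Fin m × Fin n) ℚ :=
    MvPolynomial.aeval (fun hk : Fin m × Fin n => lfP A hk.1 hk.2) with hφ
  have e1 : ∀ Q : MvPolynomial (Fin m × Fin n) ℤ,
      MvPolynomial.aeval (fun hk : Fin m × Fin n => lfP A hk.1 hk.2)
        (MvPolynomial.map (Int.castRingHom ℚ) Q) = φ Q := by
    intro Q
    have : (MvPolynomial.map (Int.castRingHom ℚ) Q) =
      MvPolynomial.map (algebraMap ℤ ℚ) Q := rfl
    rw [this, MvPolynomial.aeval_map_algebraMap]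
  rw [e1]
  unfold subZ
  rw [← AlgHom.comp_apply]
  congr 1
  apply MvPolynomial.algHom_ext
  intro hk
  rw [AlgHom.comp_apply, MvPolynomial.aeval_X, MvPolynomial.aeval_X, map_sum]
  have e2 : ∀ i : Fin n, φ (MvPolynomial.C (B hk.2 i) * MvPolynomial.X (hk.1, i)) =
      MvPolynomial.C ((B hk.2 i : ℤ) : ℚ) * lfP A hk.1 i := by
    intro i
    rw [map_mul, hφ, MvPolynomial.aeval_X]
    congr 1
    have := MvPolynomial.aeval_C (fun hk : Fin m × Fin n => lfP A hk.1 hk.2) (B hk.2 i)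
    rw [this]
    rfl
  rw [Finset.sum_congr rfl fun i _ => e2 i]
  unfold lfP
  simp only [Finset.mul_sum]
  rw [Finset.sum_comm]
  have e3 : ∀ k : Fin n, ∑ i : Fin n, (MvPolynomial.C ((B hk.2 i : ℤ) : ℚ) *
      (MvPolynomial.C (A i k) * MvPolynomial.X (hk.1, k)) : MvPolynomial (Fin m × Fin n) ℚ) =
      MvPolynomial.C ((D • (1 : Matrix (Fin n) (Fin n) ℚ)) hk.2 k) * MvPolynomial.X (hk.1, k) := by
    intro k
    rw [← h, Matrix.mul_apply, map_sum, Finset.sum_mul]
    refine Finset.sum_congr rfl fun i _ => ?_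
    rw [Matrix.map_apply, map_mul, mul_assoc]
  rw [Finset.sum_congr rfl fun k _ => e3 k, Finset.sum_eq_single hk.2]
  · simp
  · intro k _ hne
    simp [Matrix.one_apply_ne hne.symm]
  · intro hh
    exact absurd (Finset.mem_univ _) hh

section

attribute [local instance] Matrix.seminormedAddCommGroup

/-- Siegel's lemma in the form used here (also for no equations). -/
theorem AUX_siegel {α β : Type} [Fintype α] [Fintype β] [DecidableEq β] [DecidableEq α]
    (A : Matrix α β ℤ) (b : ℝ)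
    (hb : 1 ≤ b) (hA : ∀ i k, |((A i k : ℤ) : ℝ)| ≤ b)
    (hβ : 0 < Fintype.card β) (h2 : 2 * Fintype.card α ≤ Fintype.card β) :
    ∃ t : β → ℤ, t ≠ 0 ∧ A.mulVec t = 0 ∧ ∀ k, |((t k : ℤ) : ℝ)| ≤ Fintype.card β * b := by
  have hβ1 : (1 : ℝ) ≤ Fintype.card β := by exact_mod_cast hβ
  rcases Nat.eq_zero_or_pos (Fintype.card α) with h0 | h0
  · have := Fintype.card_eq_zero_iff.mp h0
    obtain ⟨k0⟩ := Fintype.card_pos_iff.mp hβ
    refine ⟨Pi.single k0 1, ?_, ?_, ?_⟩
    · intro h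
      have := congrFun h k0
      simp at this
    · funext i
      exact (IsEmpty.false i).elim
    · intro k
      have : |(((Pi.single k0 1 : β → ℤ) k : ℤ) : ℝ)| ≤ 1 := by
        by_cases hk : k = k0
        · subst hk; simp
        · simp [Pi.single_eq_of_ne hk]
      nlinarith
  · have hlt : Fintype.card α < Fintype.card β := by omega
    obtain ⟨t, ht0, ht1, ht2⟩ := Int.Matrix.exists_ne_zero_int_vec_norm_le A hlt h0
    refine ⟨t, ht0, ht1, fun k => ?_⟩
    have h3 : |((t k : ℤ) : ℝ)| ≤ ‖t‖ := by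
      have := norm_le_pi_norm t k
      rwa [Int.norm_eq_abs] at this
    refine h3.trans (ht2.trans ?_)
    have hA' : ‖A‖ ≤ b := by
      rw [Matrix.norm_le_iff (by linarith)]
      intro i k
      rw [Int.norm_eq_abs]
      exact hA i k
    have hbase1 : (1 : ℝ) ≤ (Fintype.card β : ℝ) * max 1 ‖A‖ := by
      have : (1 : ℝ) ≤ max 1 ‖A‖ := le_max_left _ _
      nlinarith
    have hαβ : (2 : ℝ) * Fintype.card α ≤ Fintype.card β := by exact_mod_cast h2
    have hα0 : (0 : ℝ) < Fintype.card α := by exact_mod_cast h0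
    have hexp : ((Fintype.card α : ℝ) / ((Fintype.card β : ℝ) - Fintype.card α)) ≤ 1 := by
      rw [div_le_one (by linarith)]
      linarith
    calc ((Fintype.card β : ℝ) * max 1 ‖A‖) ^
          ((Fintype.card α : ℝ) / ((Fintype.card β : ℝ) - Fintype.card α))
        ≤ ((Fintype.card β : ℝ) * max 1 ‖A‖) ^ (1 : ℝ) :=
          Real.rpow_le_rpow_of_exponent_le hbase1 hexp
      _ = (Fintype.card β : ℝ) * max 1 ‖A‖ := Real.rpow_one _
      _ ≤ (Fintype.card β : ℝ) * b := by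
          apply mul_le_mul_of_nonneg_left _ (by linarith)
          exact max_le hb hA'

end

/-- norm bound for `subZ` of a block homogeneous polynomial -/
theorem AUX_nrm_subZ {m n : ℕ} (B : Matrix (Fin n) (Fin n) ℤ) (b : ℝ) (hb : 1 ≤ b)
    (hB : ∀ k i, |((B k i : ℤ) : ℝ)| ≤ b) (r : Fin m → ℕ)
    (P : MvPolynomial (Fin m × Fin n) ℤ) (hP : HomB r P) :
    nrm (subZ B P) ≤ nrm P * (n * b) ^ (∑ h, r h) := by
  have h1 : subZ B P = ∑ J ∈ P.support,
      MvPolynomial.C (P.coeff J) * subZ B (MvPolynomial.monomial J 1) := by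
    conv_lhs => rw [MvPolynomial.as_sum P]
    unfold subZ
    rw [map_sum]
    refine Finset.sum_congr rfl fun J _ => ?_
    rw [MvPolynomial.aeval_monomial, MvPolynomial.aeval_monomial, map_one, one_mul]
    rfl
  rw [h1]
  refine (nrm_sum_le _ _).trans ?_
  unfold nrm at *
  rw [Finset.sum_mul]
  refine Finset.sum_le_sum fun J hJ => ?_
  refine (nrm_mul_le _ _).trans ?_
  refine mul_le_mul ?_ (nrm_subZ_monomial_le B b hb hB r J (hP J hJ)) (nrm_nonneg _) (abs_nonneg _)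
  exact AUXB_nrm_monomial_le 0 _

/-- AUX: existence of the auxiliary polynomial. -/
theorem aux {n : ℕ} (hn : 1 ≤ n) (M : Pl → Matrix (Fin n) (Fin n) ℚ)
    (hM : ∀ v, (M v).det ≠ 0) :
    ∃ C0 : ℝ, 1 ≤ C0 ∧ ∀ ε : ℝ, 0 < ε → ε < 1 → ∀ m : ℕ, 6 * (n : ℝ) / ε ^ 2 ≤ m →
      ∀ r : Fin m → ℕ, (∀ h, 1 ≤ r h) → ∃ P : MvPolynomial (Fin m × Fin n) ℤ,
        IsAux M C0 ε r P := by
  classical
  obtain ⟨D, hD, B, hBM⟩ := AUX_den M hM
  -- a bound for the entries of all B v
  obtain ⟨b, hb1, hb⟩ : ∃ b : ℝ, 1 ≤ b ∧ ∀ v k i, |((B v k i : ℤ) : ℝ)| ≤ b := by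
    refine ⟨1 + ∑ v : Pl, ∑ k, ∑ i, |((B v k i : ℤ) : ℝ)|, ?_, fun v k i => ?_⟩
    · have : 0 ≤ ∑ v : Pl, ∑ k, ∑ i, |((B v k i : ℤ) : ℝ)| :=
        Finset.sum_nonneg fun _ _ => Finset.sum_nonneg fun _ _ =>
          Finset.sum_nonneg fun _ _ => abs_nonneg _
      linarith
    · have h1 : |((B v k i : ℤ) : ℝ)| ≤ ∑ i, |((B v k i : ℤ) : ℝ)| :=
        Finset.single_le_sum (f := fun i => |((B v k i : ℤ) : ℝ)|)
          (fun _ _ => abs_nonneg _) (Finset.mem_univ i)
      have h2 : ∑ i, |((B v k i : ℤ) : ℝ)| ≤ ∑ k, ∑ i, |((B v k i : ℤ) : ℝ)| :=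
        Finset.single_le_sum (f := fun k => ∑ i, |((B v k i : ℤ) : ℝ)|)
          (fun _ _ => Finset.sum_nonneg fun _ _ => abs_nonneg _) (Finset.mem_univ k)
      have h3 : ∑ k, ∑ i, |((B v k i : ℤ) : ℝ)| ≤ ∑ v : Pl, ∑ k, ∑ i, |((B v k i : ℤ) : ℝ)| :=
        Finset.single_le_sum (f := fun v => ∑ k, ∑ i, |((B v k i : ℤ) : ℝ)|)
          (fun _ _ => Finset.sum_nonneg fun _ _ => Finset.sum_nonneg fun _ _ => abs_nonneg _)
          (Finset.mem_univ v)
      linarith
  have hn1 : (1 : ℝ) ≤ n := by exact_mod_cast hn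
  have hD1 : (1 : ℝ) ≤ D := by exact_mod_cast hD
  have hnb : (1 : ℝ) ≤ n * b := by nlinarith
  have h4n : (1 : ℝ) ≤ 4 ^ n := one_le_pow₀ (by norm_num)
  refine ⟨4 ^ n * (n * b) * (n * b) * D, ?_, ?_⟩
  · have h1 : (1 : ℝ) ≤ 4 ^ n * (n * b) := by nlinarith
    have h2 : (1 : ℝ) ≤ 4 ^ n * (n * b) * (n * b) := by nlinarith
    nlinarith
  intro ε hε hε1 m hm r hr
  set R : ℕ := ∑ h, r h with hR
  set Nt : ℕ := (JJ n r).card with hNt
  have hNt0 : 0 < Nt := card_JJ_pos hn r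
  have hNtle : (Nt : ℝ) ≤ 2 ^ (n * R) := card_JJ_le r
  -- bad arrays
  set bad : Finset (Fin m → Fin n → ℕ) := (Finset.univ : Finset (Fin n)).biUnion (fun i =>
    (JJ n r).filter (fun J => ε * m <
      |∑ h, ((J h i : ℕ) : ℝ) / (r h : ℝ) - (m : ℝ) / (n : ℝ)|)) with hbad
  have hε2 : 0 < ε ^ 2 := by positivity
  have hm6 : 6 * (n : ℝ) ≤ ε ^ 2 * m := by
    rw [div_le_iff₀ hε2] at hm
    linarith
  have hbadcard : 6 * (bad.card : ℝ) ≤ Nt := by
    have h1 : (bad.card : ℝ) ≤ ∑ i : Fin n, (((JJ n r).filter (fun J => ε * m <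
      |∑ h, ((J h i : ℕ) : ℝ) / (r h : ℝ) - (m : ℝ) / (n : ℝ)|)).card : ℝ) := by
      have := Finset.card_biUnion_le (s := (Finset.univ : Finset (Fin n))) (t := fun i =>
        (JJ n r).filter (fun J => ε * m <
          |∑ h, ((J h i : ℕ) : ℝ) / (r h : ℝ) - (m : ℝ) / (n : ℝ)|))
      exact_mod_cast this
    have h2 : ∀ i : Fin n, (((JJ n r).filter (fun J => ε * m <
      |∑ h, ((J h i : ℕ) : ℝ) / (r h : ℝ) - (m : ℝ) / (n : ℝ)|)).card : ℝ) * (6 * n) ≤ Nt := by
      intro i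
      have := cheb hn r hr i ε hε
      refine le_trans ?_ this
      exact mul_le_mul_of_nonneg_left hm6 (Nat.cast_nonneg _)
    have h3 : (∑ i : Fin n, (((JJ n r).filter (fun J => ε * m <
      |∑ h, ((J h i : ℕ) : ℝ) / (r h : ℝ) - (m : ℝ) / (n : ℝ)|)).card : ℝ)) * (6 * n) ≤ n * Nt := by
      rw [Finset.sum_mul]
      refine (Finset.sum_le_sum fun i _ => h2 i).trans ?_
      simp
    have h4 : (bad.card : ℝ) * (6 * n) ≤ n * Nt :=
      (mul_le_mul_of_nonneg_right h1 (by positivity)).trans h3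
    have h5 : (n : ℝ) * (6 * bad.card) ≤ n * Nt := by linarith
    exact le_of_mul_le_mul_left h5 (by linarith)
  -- the linear system
  set Amat : Matrix (Pl × {J // J ∈ bad}) {J // J ∈ JJ n r} ℤ := fun vJ J =>
    (subZ (B vJ.1) (MvPolynomial.monomial (AUX_toF J.1) 1)).coeff (AUX_toF vJ.2.1) with hA
  have htoF : ∀ J ∈ JJ n r, ∀ h, ∑ k, AUX_toF J (h, k) = r h := by
    intro J hJ h
    exact (mem_JJ r J).mp hJ h
  have hAb : ∀ i k, |((Amat i k : ℤ) : ℝ)| ≤ (n * b) ^ R := by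
    intro i k
    refine (coeff_le_nrm _ _).trans ?_
    exact nrm_subZ_monomial_le (B i.1) b hb1 (hb i.1) r _ (htoF _ k.2)
  have hcα : Fintype.card (Pl × {J // J ∈ bad}) = 3 * bad.card := by
    rw [Fintype.card_prod, Fintype.card_coe]
    simp [Pl]
  have hcβ : Fintype.card {J // J ∈ JJ n r} = Nt := by
    rw [Fintype.card_coe]
  obtain ⟨t, ht0, htA, htb⟩ := AUX_siegel Amat ((n * b) ^ R) (one_le_pow₀ hnb) hAb
    (by rw [hcβ]; exact hNt0) (by
      rw [hcα, hcβ]
      have : (2 : ℝ) * (3 * bad.card) ≤ Nt := by linarith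
      exact_mod_cast this)
  rw [hcβ] at htb
  -- the polynomial
  set P : MvPolynomial (Fin m × Fin n) ℤ :=
    ∑ J : {J // J ∈ JJ n r}, MvPolynomial.monomial (AUX_toF J.1) (t J) with hP
  have hPcoeff : ∀ J : {J // J ∈ JJ n r}, P.coeff (AUX_toF J.1) = t J := by
    intro J
    rw [hP, MvPolynomial.coeff_sum, Finset.sum_eq_single J]
    · simp
    · intro J' _ hne
      rw [MvPolynomial.coeff_monomial, if_neg]
      intro h
      exact hne (Subtype.ext (AUX_toF_inj h))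
    · intro h
      exact absurd (Finset.mem_univ _) h
  have hP0 : P ≠ 0 := by
    intro h
    apply ht0
    funext J
    rw [← hPcoeff J, h]
    simp
  have hPhom : HomB r P := by
    intro K hK h
    have := MvPolynomial.support_sum hK
    rw [Finset.mem_biUnion] at this
    obtain ⟨J, _, hJ⟩ := this
    have h1 := MvPolynomial.support_monomial_subset hJ
    rw [Finset.mem_singleton] at h1
    rw [h1]
    exact htoF _ J.2 h
  have hnt1 : (1 : ℝ) ≤ Nt := by exact_mod_cast hNt0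
  have hnbR : (1 : ℝ) ≤ (n * b) ^ R := one_le_pow₀ hnb
  have hPnrm : nrm P ≤ (4 ^ n * (n * b)) ^ R := by
    refine (nrm_sum_le _ _).trans ?_
    have h1 : ∀ J ∈ (Finset.univ : Finset {J // J ∈ JJ n r}),
        nrm (MvPolynomial.monomial (AUX_toF J.1) (t J)) ≤ Nt * (n * b) ^ R := fun J _ =>
      (AUXB_nrm_monomial_le _ _).trans (htb J)
    refine (Finset.sum_le_sum h1).trans ?_
    rw [Finset.sum_const, nsmul_eq_mul, Finset.card_univ, hcβ, mul_pow ((4 : ℝ) ^ n) (n * b), ← pow_mul]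
    have h2 : (Nt : ℝ) * Nt ≤ 4 ^ (n * R) := by
      have h3 : (4 : ℝ) ^ (n * R) = 2 ^ (n * R) * 2 ^ (n * R) := by
        rw [← mul_pow]; norm_num
      rw [h3]
      exact mul_le_mul hNtle hNtle (by linarith) (by positivity)
    calc (Nt : ℝ) * (Nt * (n * b) ^ R) = (Nt * Nt) * (n * b) ^ R := by ring
      _ ≤ 4 ^ (n * R) * (n * b) ^ R := mul_le_mul_of_nonneg_right h2 (by linarith)
  have hC1 : (1 : ℝ) ≤ (n * b) * D := by nlinarith
  refine ⟨P, hP0, hPhom, ?_, fun v => ?_⟩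
  · refine hPnrm.trans ?_
    rw [← hR, mul_assoc (4 ^ n * (n * b)), mul_pow (4 ^ n * (n * b))]
    have : (1 : ℝ) ≤ ((n * b) * D) ^ R := one_le_pow₀ hC1
    have h0 : (0 : ℝ) ≤ (4 ^ n * (n * b)) ^ R := by positivity
    nlinarith
  · have hDq : ((D : ℚ)) ≠ 0 := by
      have : D ≠ 0 := by omega
      exact_mod_cast this
    set S := subZ (B v) P with hS
    have hShom : HomB r S := homB_subZ (B v) r P hPhom
    set G : MvPolynomial (Fin m × Fin n) ℚ :=
      MvPolynomial.C (((D : ℚ) ^ R)⁻¹) * MvPolynomial.map (Int.castRingHom ℚ) S with hG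
    have hGc : ∀ J, G.coeff J = ((D : ℚ) ^ R)⁻¹ * ((S.coeff J : ℤ) : ℚ) := by
      intro J
      rw [hG, MvPolynomial.coeff_C_mul, MvPolynomial.coeff_map]
      rfl
    have hGsub : ∀ J ∈ G.support, S.coeff J ≠ 0 := by
      intro J hJ h
      rw [MvPolynomial.mem_support_iff, hGc, h] at hJ
      simp at hJ
    have hGhom : HomB r G := by
      intro J hJ h
      exact hShom J (MvPolynomial.mem_support_iff.mpr (hGsub J hJ)) h
    refine ⟨G, hGhom, ?_, ?_, ?_⟩
    · -- the support condition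
      intro K hK i
      by_contra hcon
      push Not at hcon
      set J : Fin m → Fin n → ℕ := fun h k => K (h, k) with hJ
      have hKJ : AUX_toF J = K := by
        ext ⟨h, k⟩
        rfl
      have hJJ : J ∈ JJ n r := by
        rw [mem_JJ]
        intro h
        exact hGhom K hK h
      have hJbad : J ∈ bad := by
        rw [hbad, Finset.mem_biUnion]
        exact ⟨i, Finset.mem_univ _, Finset.mem_filter.mpr ⟨hJJ, hcon⟩⟩
      apply hGsub K hK
      have h1 := congrFun htA (v, ⟨J, hJbad⟩)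
      rw [Matrix.mulVec, dotProduct] at h1
      have h2 : S = ∑ J' : {J // J ∈ JJ n r},
          MvPolynomial.C (t J') * subZ (B v) (MvPolynomial.monomial (AUX_toF J'.1) 1) := by
        rw [hS, hP]
        unfold subZ
        rw [map_sum]
        refine Finset.sum_congr rfl fun J' _ => ?_
        rw [MvPolynomial.aeval_monomial, MvPolynomial.aeval_monomial, map_one, one_mul]
        rfl
      rw [h2, MvPolynomial.coeff_sum, ← hKJ]
      simp only [MvPolynomial.coeff_C_mul]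
      refine Eq.trans ?_ h1
      refine Finset.sum_congr rfl fun J' _ => ?_
      rw [mul_comm]
    · -- the coefficient bound
      intro J
      rw [hGc, av_mul, av_inv, av_pow]
      have hSn : nrm S ≤ (4 ^ n * (n * b)) ^ R * (n * b) ^ R :=
        (AUX_nrm_subZ (B v) b hb1 (hb v) r P hPhom).trans
          (mul_le_mul_of_nonneg_right hPnrm (by linarith))
      have h1 : av v ((S.coeff J : ℤ) : ℚ) ≤ (4 ^ n * (n * b)) ^ R * (n * b) ^ R := by
        refine (av_int_le v _).trans (max_le ?_ ((coeff_le_nrm S J).trans hSn))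
        have : (1 : ℝ) ≤ (4 ^ n * (n * b)) ^ R := one_le_pow₀ (by nlinarith)
        nlinarith
      have h2 : (1 : ℝ) / D ≤ av v ((D : ℚ)) := by
        have := av_int_ge v (z := (D : ℤ)) (by omega)
        simpa using this
      have hDpos : (0 : ℝ) < D := by linarith
      have h3 : (av v (D : ℚ) ^ R)⁻¹ ≤ (D : ℝ) ^ R := by
        rw [inv_le_comm₀ (pow_pos (lt_of_lt_of_le (by positivity) h2) _) (by positivity)]
        rw [← inv_pow]
        apply pow_le_pow_left₀ (by positivity)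
        rw [← one_div]; exact h2
      calc (av v (D : ℚ) ^ R)⁻¹ * av v ((S.coeff J : ℤ) : ℚ)
          ≤ (D : ℝ) ^ R * ((4 ^ n * (n * b)) ^ R * (n * b) ^ R) :=
            mul_le_mul h3 h1 (av_nonneg _ _) (by positivity)
        _ = (4 ^ n * (n * b) * (n * b) * D) ^ R := by
            rw [mul_pow (4 ^ n * (n * b) * (n * b)) (D : ℝ), mul_pow (4 ^ n * (n * b)) (n * b)]
            ring
        _ = (4 ^ n * (n * b) * (n * b) * D) ^ (∑ h, r h) := by rw [hR]
    · -- the identity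
      have h1 := AUX_comp (m := m) (M v) (B v) (D : ℚ) (hBM v) P
      rw [AUX_scale r P hPhom, ← hS, ← hR] at h1
      rw [hG, map_mul, h1, MvPolynomial.algHom_C, ← mul_assoc]
      have h2 : (algebraMap ℚ (MvPolynomial (Fin m × Fin n) ℚ)) (((D : ℚ) ^ R)⁻¹) =
        MvPolynomial.C (((D : ℚ) ^ R)⁻¹) := rfl
      rw [h2, ← map_mul, inv_mul_cancel₀ (pow_ne_zero _ hDq), map_one, one_mul]

end Pool.Agent.SubT
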