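import Pool.Agent.SubT.Comp

/-! Module CBX. Text: team-store MP_e27144_an_pr_growth_helper66.md.
HINT: section 5: wd of combinations = Cauchy-Binet; basis: cmp of the matrix of g is invertible; span: wedges of standard basis vectors are the standard basis. -/

namespace Pool.Agent.SubT

open scoped BigOperators ENNReal

open MeasureTheory Set Filter Topology

/-- the wedges of a family are the columns of the compound -/
theorem CBX_wd {n p : ℕ} (g : Fin n → Fin n → ℚ) (τ σ : Fin (n.choose p)) :
    wd (fun a : Fin p => g (el τ a)) σ = cmp p (Matrix.transpose g) σ τ := rfl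

/-- CBX: the wedges of a basis form a basis. -/
theorem wd_basis {n p : ℕ} (g : Fin n → Fin n → ℚ) (hg : LinearIndependent ℚ g) :
    LinearIndependent ℚ (fun τ : Fin (n.choose p) => wd (fun a : Fin p => g (el τ a))) := by
  obtain ⟨G, hG⟩ : ∃ G : Matrix (Fin n) (Fin n) ℚ, G = g := ⟨g, rfl⟩
  have h0 : LinearIndependent ℚ G.row := by
    subst hG
    exact hg
  have h1 : IsUnit G := Matrix.linearIndependent_rows_iff_isUnit.1 h0
  have h2 : G.det ≠ 0 := isUnit_iff_ne_zero.1 ((Matrix.isUnit_iff_isUnit_det _).1 h1)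
  have h3 : (Matrix.transpose G).det ≠ 0 := by
    rw [Matrix.det_transpose]; exact h2
  have h4 := cmp_det_ne_zero p _ h3
  have h5 : IsUnit (cmp p (Matrix.transpose G)) :=
    (Matrix.isUnit_iff_isUnit_det _).2 (isUnit_iff_ne_zero.2 h4)
  subst hG
  have h6 := Matrix.linearIndependent_cols_iff_isUnit.2 h5
  exact h6

/-- CBX: expansion of a wedge in the wedges of a family. -/
theorem wd_expand {n p : ℕ} (g : Fin n → Fin n → ℚ) (k : Fin p → Fin n → ℚ) :
    wd (fun b : Fin p => ∑ j, k b j • g j) =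
      ∑ τ : Fin (n.choose p), Matrix.det (fun a b : Fin p => k b (el τ a)) •
        wd (fun a : Fin p => g (el τ a)) := by
  funext σ
  have h := cauchyBinet (n := n) (p := p) (fun a j => g j (el σ a)) (fun j b => k b j)
  have e : wd (fun b : Fin p => ∑ j, k b j • g j) σ =
      Matrix.det (fun a b : Fin p => ∑ j, g j (el σ a) * k b j) := by
    unfold wd
    congr 1
    funext a b
    show (∑ j, k b j • g j) (el σ a) = _
    rw [Finset.sum_apply]
    refine Finset.sum_congr rfl fun j _ => ?_
    rw [Pi.smul_apply, smul_eq_mul, mul_comm]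
  rw [e, h, Finset.sum_apply]
  refine Finset.sum_congr rfl fun τ _ => ?_
  rw [Pi.smul_apply, smul_eq_mul, mul_comm]
  rfl

theorem CBX_one {n p : ℕ} (τ σ : Fin (n.choose p)) :
    wd (fun a : Fin p => fun i : Fin n => (1 : Matrix (Fin n) (Fin n) ℚ) i (el τ a)) σ =
      (1 : Matrix (Fin (n.choose p)) (Fin (n.choose p)) ℚ) σ τ := by
  have h : wd (fun a : Fin p => fun i : Fin n => (1 : Matrix (Fin n) (Fin n) ℚ) i (el τ a)) σ =
      cmp p (1 : Matrix (Fin n) (Fin n) ℚ) σ τ := rfl
  rw [h, cmp_one]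

/-- CBSP: the wedges span. -/
theorem wd_span {n p : ℕ} :
    Submodule.span ℚ (Set.range (wd : (Fin p → Fin n → ℚ) → Fin (n.choose p) → ℚ)) = ⊤ := by
  rw [eq_top_iff]
  rintro v -
  have hv : v = ∑ τ : Fin (n.choose p), v τ •
      wd (fun a : Fin p => fun i : Fin n => (1 : Matrix (Fin n) (Fin n) ℚ) i (el τ a)) := by
    funext σ
    rw [Finset.sum_apply, Finset.sum_eq_single σ]
    · rw [Pi.smul_apply, CBX_one, Matrix.one_apply_eq, smul_eq_mul, mul_one]
    · intro τ _ hτ
      rw [Pi.smul_apply, CBX_one, Matrix.one_apply_ne hτ.symm, smul_eq_mul, mul_zero]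
    · intro h
      exact absurd (Finset.mem_univ _) h
  rw [hv]
  exact Submodule.sum_mem _ fun τ _ =>
    Submodule.smul_mem _ _ (Submodule.subset_span ⟨_, rfl⟩)

end Pool.Agent.SubT
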