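import Pool.Agent.SubT.GeoB

/-! Module GM1. Text: team-store MP_e27144_an_pr_growth_helper66.md.
HINT: (4.3): det(x) in Z[1/6] nonzero; det(M_v x) = det(M_v) det(x); Leibniz. -/

namespace Pool.Agent.SubT

open scoped BigOperators ENNReal

open MeasureTheory Set Filter Topology

/-- Leibniz with bounds for rows and columns -/
theorem GM1_det (v : Pl) {k : ℕ} (A : Matrix (Fin k) (Fin k) ℚ) (a b : Fin k → ℝ)
    (ha : ∀ i, 0 ≤ a i) (h : ∀ i j, av v (A i j) ≤ a i * b j) :
    av v A.det ≤ k.factorial * ((∏ i, a i) * ∏ i, b i) := by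
  rw [Matrix.det_apply]
  refine le_trans (av_sum_le v _ _) ?_
  have h1 : ∀ σ ∈ (Finset.univ : Finset (Equiv.Perm (Fin k))),
      av v (Equiv.Perm.sign σ • ∏ i, A (σ i) i) ≤ (∏ i, a i) * ∏ i, b i := by
    intro σ _
    have h2 : av v (Equiv.Perm.sign σ • ∏ i, A (σ i) i) = av v (∏ i, A (σ i) i) := by
      rcases Int.units_eq_one_or (Equiv.Perm.sign σ) with h | h
      · rw [h, one_smul]
      · rw [h, Units.neg_smul, one_smul, av_neg]
    rw [h2, av_prod]
    calc ∏ i, av v (A (σ i) i) ≤ ∏ i, a (σ i) * b i :=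
          Finset.prod_le_prod (fun i _ => av_nonneg _ _) (fun i _ => h _ _)
      _ = (∏ i, a i) * ∏ i, b i := by
          rw [Finset.prod_mul_distrib, Equiv.prod_comp σ a]
  refine le_trans (Finset.sum_le_sum h1) ?_
  rw [Finset.sum_const, Finset.card_univ, Fintype.card_perm, Fintype.card_fin, nsmul_eq_mul]

/-- GM1: (4.3). -/
theorem gm1 {n : ℕ} (hn : 1 ≤ n) (M : Pl → Matrix (Fin n) (Fin n) ℚ)
    (hM : ∀ v, (M v).det ≠ 0) :
    ∃ c0 : ℝ, 0 < c0 ∧ ∀ (s : Fin n → ℝ) (t : Pl → Fin n → ℝ), (∀ i, 0 < s i) →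
      (∀ v i, 0 < t v i) → ∀ x : Fin n → Fin n → ℚ, LinearIndependent ℚ x →
      (∀ j, x j ∈ Gam M t) → c0 * PiW s t ≤ ∏ j, nS M s (x j) := by
  have hfac : (0 : ℝ) < (n.factorial : ℝ) ^ 3 := by positivity
  refine ⟨(∏ v, av v (M v).det) / (n.factorial : ℝ) ^ 3,
    div_pos (Finset.prod_pos (fun v _ => av_pos v (hM v))) hfac, ?_⟩
  intro s t hs ht x hx hG
  set X : Matrix (Fin n) (Fin n) ℚ := Matrix.of x with hX
  have hdet0 : X.det ≠ 0 := by
    have : IsUnit X := Matrix.linearIndependent_rows_iff_isUnit.1 hx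
    exact ((Matrix.isUnit_iff_isUnit_det X).1 this).ne_zero
  have hR : InR X.det := inR_det X (fun i j => (hG i).1 j)
  have h1 := prod_av_ge_one hR hdet0
  have hent : ∀ v i j, (M v * X.transpose) i j = lin M v i (x j) := by
    intro v i j
    rw [Matrix.mul_apply]
    rfl
  have hd : ∀ v, av v (M v).det * av v X.det = av v (M v * X.transpose).det := by
    intro v
    rw [Matrix.det_mul, Matrix.det_transpose, av_mul]
  have hnS : ∀ j, 0 ≤ nS M s (x j) := fun j =>
    (nS_pos M hM s hs (x j) (hx.ne_zero j)).le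
  have b0 : av 0 (M 0 * X.transpose).det ≤
      n.factorial * ((∏ i, (s i)⁻¹) * ∏ j, nS M s (x j)) := by
    refine GM1_det 0 _ _ _ (fun i => (inv_pos.2 (hs i)).le) ?_
    intro i j
    rw [hent, ← div_eq_inv_mul, le_div_iff₀ (hs i), mul_comm]
    exact le_nS M s (x j) i
  have bp : ∀ v : Pl, v ≠ 0 → av v (M v * X.transpose).det ≤
      n.factorial * ((∏ i, t v i) * ∏ j : Fin n, (1 : ℝ)) := by
    intro v hv
    refine GM1_det v _ _ _ (fun i => (ht v i).le) ?_
    intro i j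
    rw [hent, mul_one]
    exact (hG j).2 v hv i
  have h2 : ∏ v, (av v (M v).det * av v X.det) ≤
      (n.factorial * ((∏ i, (s i)⁻¹) * ∏ j, nS M s (x j))) *
      ((n.factorial * ∏ i, t 1 i) * (n.factorial * ∏ i, t 2 i)) := by
    rw [Fin.prod_univ_three, hd, hd, hd, mul_assoc]
    have b1 := bp 1 (by decide)
    have b2 := bp 2 (by decide)
    rw [Finset.prod_const_one, mul_one] at b1 b2
    refine mul_le_mul b0 (mul_le_mul b1 b2 (av_nonneg _ _) ?_)
      (mul_nonneg (av_nonneg _ _) (av_nonneg _ _)) ?_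
    · exact mul_nonneg (by positivity) (Finset.prod_nonneg (fun i _ => (ht 1 i).le))
    · refine mul_nonneg (by positivity) (mul_nonneg ?_ ?_)
      · exact Finset.prod_nonneg (fun i _ => (inv_pos.2 (hs i)).le)
      · exact Finset.prod_nonneg (fun j _ => hnS j)
  rw [Finset.prod_mul_distrib] at h2
  have h3 : ∏ v, av v (M v).det ≤ (n.factorial * ((∏ i, (s i)⁻¹) * ∏ j, nS M s (x j))) *
      ((n.factorial * ∏ i, t 1 i) * (n.factorial * ∏ i, t 2 i)) := by
    refine le_trans ?_ h2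
    exact le_mul_of_one_le_right (Finset.prod_nonneg (fun v _ => av_nonneg _ _)) h1
  have hs' : 0 < ∏ i, s i := Finset.prod_pos (fun i _ => hs i)
  have ht1 : 0 < ∏ i, t 1 i := Finset.prod_pos (fun i _ => ht 1 i)
  have ht2 : 0 < ∏ i, t 2 i := Finset.prod_pos (fun i _ => ht 2 i)
  unfold PiW
  rw [Finset.prod_mul_distrib]
  rw [Finset.prod_inv_distrib] at h3
  rw [div_mul_div_comm, div_le_iff₀ (by positivity)]
  calc (∏ v, av v (M v).det) * ∏ i, s i
      ≤ (n.factorial * ((∏ i, s i)⁻¹ * ∏ j, nS M s (x j))) *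
        ((n.factorial * ∏ i, t 1 i) * (n.factorial * ∏ i, t 2 i)) * ∏ i, s i :=
        mul_le_mul_of_nonneg_right h3 hs'.le
    _ = (∏ j, nS M s (x j)) * ((n.factorial : ℝ) ^ 3 * ((∏ i, t 1 i) * ∏ i, t 2 i)) := by
        field_simp

end Pool.Agent.SubT
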