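import Pool.Agent.SubT.Place

/-! Module DL. Text: team-store MP_e27144_an_pr_growth_helper66.md.
HINT: (4.4): downwards induction on j. -/

namespace Pool.Agent.SubT

open scoped BigOperators ENNReal

open MeasureTheory Set Filter Topology

/-- a nontrivial real combination of `k + 1` forms vanishing on `k` vectors -/
theorem DL_dep {n k : ℕ} (y : Fin n → (Fin n → ℚ) → ℝ)
    (hy : ∀ i x x', y i (x + x') = y i x + y i x') (hy' : ∀ i (c : ℚ) x, y i (c • x) = c * y i x)
    (g : Fin n → Fin n → ℚ) (p : Fin (k + 1) → Fin n) (hk : k ≤ n) :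
    ∃ a : Fin (k + 1) → ℝ, a ≠ 0 ∧ ∀ x ∈ spB g k, ∑ i, a i * y (p i) x = 0 := by
  let f : (Fin (k + 1) → ℝ) →ₗ[ℝ] (Fin k → ℝ) :=
    { toFun := fun a l => ∑ i, a i * y (p i) (g (Fin.castLE hk l))
      map_add' := by
        intro a b
        funext l
        simp only [Pi.add_apply, add_mul, Finset.sum_add_distrib]
      map_smul' := by
        intro c a
        funext l
        simp only [Pi.smul_apply, smul_eq_mul, RingHom.id_apply, Finset.mul_sum, mul_assoc] }
  have hker : LinearMap.ker f ≠ ⊥ := by
    apply LinearMap.ker_ne_bot_of_finrank_lt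
    simp
  obtain ⟨a, ha, ha0⟩ := Submodule.exists_mem_ne_zero_of_ne_bot hker
  refine ⟨a, ha0, ?_⟩
  rw [LinearMap.mem_ker] at ha
  intro x hx
  refine Submodule.span_induction (p := fun x _ => ∑ i, a i * y (p i) x = 0) ?_ ?_ ?_ ?_ hx
  · rintro x ⟨i, hi, rfl⟩
    have := congrFun ha ⟨i.val, hi⟩
    exact this
  · refine Finset.sum_eq_zero (fun i _ => ?_)
    have : y (p i) 0 = 0 := by
      have := hy' (p i) 0 0
      simpa using this
    rw [this, mul_zero]
  · intro x x' _ _ h h'
    simp only [hy, mul_add, Finset.sum_add_distrib, h, h', add_zero]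
  · intro c x _ h
    simp only [hy']
    have : ∀ i, a i * ((c : ℝ) * y (p i) x) = (c : ℝ) * (a i * y (p i) x) := fun i => by ring
    simp only [this, ← Finset.mul_sum, h, mul_zero]

theorem DL_main {n : ℕ} (y : Fin n → (Fin n → ℚ) → ℝ)
    (hy : ∀ i x x', y i (x + x') = y i x + y i x') (hy' : ∀ i (c : ℚ) x, y i (c • x) = c * y i x)
    (g : Fin n → Fin n → ℚ) : ∀ d : ℕ, d < n → ∃ π : Equiv.Perm (Fin n), ∀ m : ℕ, n - d ≤ m →
      m ≤ n → ∀ x ∈ spB g m, ∀ B : ℝ, (∀ i : Fin n, i.val < m → |y (π i) x| ≤ B) →
      ∀ i, |y i x| ≤ (n.factorial / m.factorial : ℝ) * B := by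
  intro d
  induction d with
  | zero =>
    intro hn
    refine ⟨1, ?_⟩
    intro m h1 h2 x _ B h i
    have hm : m = n := by omega
    subst hm
    rw [div_self (by positivity), one_mul]
    exact h i i.2
  | succ d ih =>
    intro hn
    obtain ⟨π, hπ⟩ := ih (by omega)
    obtain ⟨k, hk⟩ : ∃ k, k = n - (d + 1) := ⟨_, rfl⟩
    have hk1 : 1 ≤ k := by omega
    have hkn : k + 1 ≤ n := by omega
    obtain ⟨a, ha0, ha⟩ := DL_dep (k := k) y hy hy' g (fun i => π (Fin.castLE hkn i)) (by omega)
    obtain ⟨i0, _, hi0⟩ := Finset.exists_max_image (Finset.univ : Finset (Fin (k + 1)))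
      (fun i => |a i|) ⟨0, Finset.mem_univ _⟩
    have hpos : 0 < |a i0| := by
      obtain ⟨i, hi⟩ := Function.ne_iff.1 ha0
      exact lt_of_lt_of_le (abs_pos.2 hi) (hi0 i (Finset.mem_univ _))
    set e0 : Fin n := Fin.castLE hkn i0 with he0
    set ek : Fin n := ⟨k, by omega⟩ with hek
    have he0v : e0.val < k + 1 := i0.2
    have hekv : ek.val = k := rfl
    refine ⟨π * Equiv.swap e0 ek, ?_⟩
    intro m h1 h2 x hx B h i
    rcases Nat.lt_or_ge m (k + 1) with hm | hm
    · have hmk : m = k := by omega
      subst hmk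
      have hB : 0 ≤ B := le_trans (abs_nonneg _) (h ⟨0, by omega⟩ (by show 0 < m; omega))
      -- the bound for the indices different from `i0`
      have hb : ∀ l : Fin (m + 1), l ≠ i0 → |y (π (Fin.castLE hkn l)) x| ≤ B := by
        intro l hl
        have hl' : Fin.castLE hkn l ≠ e0 := fun h => hl (Fin.castLE_injective hkn h)
        by_cases hlk : Fin.castLE hkn l = ek
        · have hlt : e0.val < m := by
            have h3 : e0.val ≠ m := by
              intro h3
              exact hl' (hlk.trans (Fin.ext (by rw [h3]))) 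
            omega
          have := h e0 hlt
          rw [Equiv.Perm.mul_apply, Equiv.swap_apply_left] at this
          rw [hlk]
          exact this
        · have hlt : (Fin.castLE hkn l).val < m := by
            have h3 : (Fin.castLE hkn l).val ≠ m := fun h3 => hlk (Fin.ext (by rw [h3]))
            have h4 : (Fin.castLE hkn l).val < m + 1 := l.2
            omega
          have := h _ hlt
          rw [Equiv.Perm.mul_apply, Equiv.swap_apply_of_ne_of_ne hl' hlk] at this
          exact this
      have hb0 : |y (π e0) x| ≤ m * B := by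
        have h3 := ha x hx
        rw [← Finset.add_sum_erase _ _ (Finset.mem_univ i0)] at h3
        have h4 : |a i0| * |y (π e0) x| ≤ |a i0| * (m * B) := by
          rw [← abs_mul]
          have h5 : a i0 * y (π e0) x =
              - ∑ l ∈ Finset.univ.erase i0, a l * y (π (Fin.castLE hkn l)) x := by
            linarith
          rw [h5, abs_neg]
          calc |∑ l ∈ Finset.univ.erase i0, a l * y (π (Fin.castLE hkn l)) x|
              ≤ ∑ l ∈ Finset.univ.erase i0, |a l * y (π (Fin.castLE hkn l)) x| :=
                Finset.abs_sum_le_sum_abs _ _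
            _ ≤ ∑ l ∈ Finset.univ.erase i0, |a i0| * B := by
                refine Finset.sum_le_sum (fun l hl => ?_)
                rw [abs_mul]
                exact mul_le_mul (hi0 l (Finset.mem_univ _)) (hb l (Finset.ne_of_mem_erase hl))
                  (abs_nonneg _) (abs_nonneg _)
            _ = |a i0| * (m * B) := by
                rw [Finset.sum_const, Finset.card_erase_of_mem (Finset.mem_univ _),
                  Finset.card_univ, Fintype.card_fin, nsmul_eq_mul]
                simp only [Nat.add_sub_cancel]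
                ring
        exact le_of_mul_le_mul_left h4 hpos
      have hm1 : (1 : ℝ) ≤ m := by exact_mod_cast hk1
      have hall : ∀ l : Fin n, l.val < m + 1 → |y (π l) x| ≤ m * B := by
        intro l hl
        by_cases hle : l = e0
        · rw [hle]; exact hb0
        · have := hb ⟨l.val, hl⟩ (by
            intro h3
            apply hle
            apply Fin.ext
            show l.val = i0.val
            rw [← h3])
          refine le_trans this ?_
          nlinarith
      have hx' : x ∈ spB g (m + 1) := by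
        refine Submodule.span_mono ?_ hx
        rintro _ ⟨l, hl, rfl⟩
        exact ⟨l, by omega, rfl⟩
      have h6 := hπ (m + 1) (by omega) (by omega) x hx' _ hall i
      refine le_trans h6 ?_
      rw [Nat.factorial_succ]
      push_cast
      have hf : (0 : ℝ) < m.factorial := by positivity
      have hf' : (0 : ℝ) < n.factorial := by positivity
      have h7 : (n.factorial : ℝ) / ((m + 1) * m.factorial) * (m * B) =
        (n.factorial / m.factorial * B) * (m / (m + 1)) := by
        field_simp
      rw [h7]
      have h8 : (m : ℝ) / (m + 1) ≤ 1 := by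
        rw [div_le_one (by positivity)]; linarith
      exact mul_le_of_le_one_right (by positivity) h8
    · refine hπ m (by omega) h2 x hx B ?_ i
      intro l hl
      have hlt : (Equiv.swap e0 ek l).val < m := by
        by_cases h3 : l = e0
        · rw [h3, Equiv.swap_apply_left]; omega
        · by_cases h4 : l = ek
          · rw [h4, Equiv.swap_apply_right]; omega
          · rw [Equiv.swap_apply_of_ne_of_ne h3 h4]; exact hl
      have := h _ hlt
      rw [Equiv.Perm.mul_apply, Equiv.swap_apply_self] at this
      exact this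

/-- DL: Davenport's permutation, (4.4). -/
theorem dl {n : ℕ} (A : Matrix (Fin n) (Fin n) ℚ) (hA : A.det ≠ 0) (s : Fin n → ℝ)
    (hs : ∀ i, 0 < s i) (g : Fin n → Fin n → ℚ) (hg : LinearIndependent ℚ g) :
    ∃ π : Equiv.Perm (Fin n), ∀ j : Fin n, ∀ x ∈ spB g (j.val + 1), ∀ B : ℝ,
      (∀ i : Fin n, i.val ≤ j.val → s (π i) * |((A.mulVec x (π i) : ℚ) : ℝ)| ≤ B) →
      ∀ i, s i * |((A.mulVec x i : ℚ) : ℝ)| ≤ n.factorial * B := by
  rcases Nat.eq_zero_or_pos n with h0 | hn
  · subst h0
    exact ⟨1, fun j => j.elim0⟩
  obtain ⟨π, hπ⟩ := DL_main (fun i x => s i * ((A.mulVec x i : ℚ) : ℝ))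
    (by intro i x x'; simp only [Matrix.mulVec_add, Pi.add_apply]; push_cast; ring)
    (by intro i c x; simp only [Matrix.mulVec_smul, Pi.smul_apply, smul_eq_mul]; push_cast; ring)
    g (n - 1) (by omega)
  refine ⟨π, ?_⟩
  intro j x hx B h i
  have habs : ∀ i, |s i * ((A.mulVec x i : ℚ) : ℝ)| = s i * |((A.mulVec x i : ℚ) : ℝ)| := by
    intro i
    rw [abs_mul, abs_of_pos (hs i)]
  have h1 := hπ (j.val + 1) (by omega) (by have := j.2; omega) x hx B (by
    intro l hl
    rw [habs]
    exact h l (by omega)) i
  rw [habs] at h1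
  have hB : 0 ≤ B := by
    have h2 := h ⟨0, hn⟩ (Nat.zero_le _)
    refine le_trans ?_ h2
    have := hs (π ⟨0, hn⟩)
    positivity
  refine le_trans h1 ?_
  refine mul_le_mul_of_nonneg_right ?_ hB
  refine div_le_self (by positivity) ?_
  exact_mod_cast Nat.one_le_iff_ne_zero.2 (Nat.factorial_ne_zero _)

end Pool.Agent.SubT
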