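import Pool.Agent.SubT.GeoB

/-! Module MIN. Text: team-store MP_e27144_an_pr_growth_helper66.md.
HINT: (4.2): Gam spans (multiples 6^k e_i), and {x in Gam : nS x <= B} is finite (6^k x integral for a fixed k, bounded). Choose g_j successively of minimal norm outside the span of the previous ones. -/

namespace Pool.Agent.SubT

open scoped BigOperators ENNReal

open MeasureTheory Set Filter Topology

/-- integrality from the two finite places -/
theorem MIN_int {y : ℚ} (hR : InR y) (h2 : padicNorm 2 y ≤ 1) (h3 : padicNorm 3 y ≤ 1) :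
    ∃ z : ℤ, y = (z : ℚ) := by
  have key : ∀ p : ℕ, p.Prime → padicNorm p y ≤ 1 → ¬ p ∣ y.den := by
    intro p hp hle hdvd
    have : Fact p.Prime := ⟨hp⟩
    have hy0 : y ≠ 0 := by
      rintro rfl
      simp at hdvd
      exact hp.one_lt.ne' hdvd
    rw [padicNorm.eq_zpow_of_nonzero hy0] at hle
    have hval : padicValRat p y < 0 := by
      rw [padicValRat_def]
      have h4 : padicValInt p y.num = 0 := by
        apply padicValInt.eq_zero_of_not_dvd
        intro h5
        have h6 : p ∣ y.num.natAbs := Int.natCast_dvd.1 h5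
        have h7 := Nat.dvd_gcd h6 hdvd
        rw [y.reduced] at h7
        exact hp.one_lt.ne' (Nat.dvd_one.1 h7)
      have h5 : 1 ≤ padicValNat p y.den := one_le_padicValNat_of_dvd y.den_nz hdvd
      rw [h4]
      omega
    have h6 : (1 : ℚ) < (p : ℚ) ^ (-padicValRat p y) := by
      apply one_lt_zpow₀ (by exact_mod_cast hp.one_lt)
      omega
    linarith
  obtain ⟨k, z, hz⟩ := hR
  have hden : y.den ∣ 6 ^ k := by
    have h4 : (y.den : ℤ) ∣ (6 : ℤ) ^ k := by
      have h5 : (6 : ℤ) ^ k * y.num = z * y.den := by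
        have h6 : (y.den : ℚ) ≠ 0 := by exact_mod_cast y.den_nz
        have h7 : (6 : ℚ) ^ k * y.num = z * y.den := by
          rw [← hz]
          nth_rewrite 2 [← Rat.num_div_den y]
          field_simp
        exact_mod_cast h7
      have h6 : (y.den : ℤ) ∣ (6 : ℤ) ^ k * y.num := ⟨z, by rw [h5]; ring⟩
      have h7 : IsCoprime (y.den : ℤ) y.num := by
        rw [Int.isCoprime_iff_gcd_eq_one, Int.gcd_comm]
        exact y.reduced
      exact h7.dvd_of_dvd_mul_right h6
    exact_mod_cast h4
  have hone : y.den = 1 := by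
    by_contra hne
    obtain ⟨p, hp, hpd⟩ := Nat.exists_prime_and_dvd hne
    have h4 : p ∣ 6 := hp.dvd_of_dvd_pow (hpd.trans hden)
    have h5 : p = 2 ∨ p = 3 := by
      have h6 : p ∣ 2 * 3 := h4
      rcases (Nat.Prime.dvd_mul hp).1 h6 with h | h
      · left; exact (Nat.prime_dvd_prime_iff_eq hp Nat.prime_two).1 h
      · right; exact (Nat.prime_dvd_prime_iff_eq hp Nat.prime_three).1 h
    rcases h5 with rfl | rfl
    · exact key 2 hp h2 hpd
    · exact key 3 hp h3 hpd
  exact ⟨y.num, by
    nth_rewrite 1 [← Rat.num_div_den y]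
    rw [hone]; simp⟩

theorem MIN_pow (p : ℕ) [Fact p.Prime] (x : ℚ) (K : ℕ) :
    padicNorm p (x ^ K) = padicNorm p x ^ K := by
  induction K with
  | zero => simp
  | succ K ih => rw [pow_succ, padicNorm.mul, ih, pow_succ]

/-- bounded sets of vectors in `Z[1/6]` are finite -/
theorem MIN_finite (n : ℕ) (B : ℝ) :
    {x : Fin n → ℚ | InRn x ∧ ∀ v k, av v (x k) ≤ B}.Finite := by
  obtain ⟨K, hK⟩ : ∃ K : ℕ, B ≤ 2 ^ K := by
    obtain ⟨K, hK⟩ := exists_nat_gt B
    refine ⟨K, le_trans hK.le ?_⟩
    exact_mod_cast (Nat.lt_two_pow_self (n := K)).le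
  obtain ⟨N, hN⟩ := exists_nat_gt ((6 : ℝ) ^ K * B)
  have hfin : (Set.pi Set.univ (fun _ : Fin n => Set.Icc (-(N : ℤ)) N)).Finite :=
    Set.Finite.pi (fun _ => Set.finite_Icc _ _)
  refine (hfin.image (fun z : Fin n → ℤ => fun k => (z k : ℚ) / 6 ^ K)).subset ?_
  rintro x ⟨hR, hx⟩
  have h6 : ((6 : ℚ) ^ K) ≠ 0 := by positivity
  have hint : ∀ k, ∃ z : ℤ, (6 : ℚ) ^ K * x k = (z : ℚ) := by
    intro k
    apply MIN_int
    · have h : InR ((6 : ℚ) ^ K) := by
        have := inR_pow (inR_int 6) K
        simpa using this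
      exact inR_mul h (hR k)
    · have h1 := hx 1 k
      have h2 : av 1 (x k) = ((padicNorm 2 (x k) : ℚ) : ℝ) := by
        unfold av
        rw [if_neg (by decide), if_pos rfl]
      rw [h2] at h1
      have h3 : padicNorm 2 (x k) ≤ 2 ^ K := by
        have : ((padicNorm 2 (x k) : ℚ) : ℝ) ≤ ((2 ^ K : ℚ) : ℝ) := by
          push_cast
          exact le_trans h1 hK
        exact_mod_cast this
      rw [padicNorm.mul, MIN_pow]
      have h4 : padicNorm 2 (6 : ℚ) = 1 / 2 := by
        have : (6 : ℚ) = 2 * 3 := by norm_num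
        rw [this, padicNorm.mul]
        have h5 : padicNorm 2 (2 : ℚ) = (2 : ℚ)⁻¹ := by
          have := padicNorm.padicNorm_p (p := 2) (by norm_num)
          exact_mod_cast this
        have h6 : padicNorm 2 (3 : ℚ) = 1 := by
          have := padicNorm.padicNorm_of_prime_of_ne (p := 2) (q := 3) (by norm_num)
          exact_mod_cast this
        rw [h5, h6]; norm_num
      rw [h4]
      calc (1 / 2 : ℚ) ^ K * padicNorm 2 (x k) ≤ (1 / 2 : ℚ) ^ K * 2 ^ K :=
            mul_le_mul_of_nonneg_left h3 (by positivity)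
        _ = 1 := by rw [← mul_pow]; norm_num
    · have h1 := hx 2 k
      have h2 : av 2 (x k) = ((padicNorm 3 (x k) : ℚ) : ℝ) := by
        unfold av
        rw [if_neg (by decide), if_neg (by decide)]
      rw [h2] at h1
      have h3 : padicNorm 3 (x k) ≤ 2 ^ K := by
        have : ((padicNorm 3 (x k) : ℚ) : ℝ) ≤ ((2 ^ K : ℚ) : ℝ) := by
          push_cast
          exact le_trans h1 hK
        exact_mod_cast this
      have : Fact (Nat.Prime 3) := ⟨Nat.prime_three⟩
      rw [padicNorm.mul, MIN_pow]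
      have h4 : padicNorm 3 (6 : ℚ) = 1 / 3 := by
        have : (6 : ℚ) = 2 * 3 := by norm_num
        rw [this, padicNorm.mul]
        have h5 : padicNorm 3 (3 : ℚ) = (3 : ℚ)⁻¹ := by
          have := padicNorm.padicNorm_p (p := 3) (by norm_num)
          exact_mod_cast this
        have h6 : padicNorm 3 (2 : ℚ) = 1 := by
          have := padicNorm.padicNorm_of_prime_of_ne (p := 3) (q := 2) (by norm_num)
          exact_mod_cast this
        rw [h5, h6]; norm_num
      rw [h4]
      calc (1 / 3 : ℚ) ^ K * padicNorm 3 (x k) ≤ (1 / 3 : ℚ) ^ K * 2 ^ K :=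
            mul_le_mul_of_nonneg_left h3 (by positivity)
        _ = (2 / 3) ^ K := by rw [← mul_pow]; norm_num
        _ ≤ 1 := pow_le_one₀ (by norm_num) (by norm_num)
  choose z hz using hint
  refine ⟨z, ?_, ?_⟩
  · intro k _
    have h1 := hx 0 k
    rw [av_real] at h1
    have h2 : |(z k : ℝ)| < N := by
      have h3 : (z k : ℝ) = (6 : ℝ) ^ K * (x k : ℝ) := by
        have := hz k
        have h4 : ((z k : ℚ) : ℝ) = (((6 : ℚ) ^ K * x k : ℚ) : ℝ) := by rw [this]
        push_cast at h4
        exact h4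
      rw [h3, abs_mul, abs_of_pos (by positivity)]
      exact lt_of_le_of_lt (mul_le_mul_of_nonneg_left h1 (by positivity)) hN
    rw [abs_lt] at h2
    constructor
    · have : (-(N : ℤ) : ℝ) < (z k : ℝ) := by push_cast; exact h2.1
      exact_mod_cast this.le
    · exact_mod_cast h2.2.le
  · funext k
    show (z k : ℚ) / 6 ^ K = x k
    rw [← hz k]
    field_simp

theorem MIN_spans {n : ℕ} (M : Pl → Matrix (Fin n) (Fin n) ℚ) (t : Pl → Fin n → ℝ)
    (ht : ∀ v i, 0 < t v i) : Submodule.span ℚ (Gam M t) = ⊤ := by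
  -- large powers of 6 are small at the finite places
  have h6 : ∀ v : Pl, v ≠ 0 → av v 6 ≤ 1 / 2 := by
    intro v hv
    unfold av
    rw [if_neg hv]
    split_ifs with h1
    · have h4 : padicNorm 2 (6 : ℚ) = 1 / 2 := by
        have : (6 : ℚ) = 2 * 3 := by norm_num
        rw [this, padicNorm.mul]
        have h5 : padicNorm 2 (2 : ℚ) = (2 : ℚ)⁻¹ := by
          have := padicNorm.padicNorm_p (p := 2) (by norm_num)
          exact_mod_cast this
        have h6 : padicNorm 2 (3 : ℚ) = 1 := by
          have := padicNorm.padicNorm_of_prime_of_ne (p := 2) (q := 3) (by norm_num)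
          exact_mod_cast this
        rw [h5, h6]; norm_num
      rw [h4]; norm_num
    · have : Fact (Nat.Prime 3) := ⟨Nat.prime_three⟩
      have h4 : padicNorm 3 (6 : ℚ) = 1 / 3 := by
        have : (6 : ℚ) = 2 * 3 := by norm_num
        rw [this, padicNorm.mul]
        have h5 : padicNorm 3 (3 : ℚ) = (3 : ℚ)⁻¹ := by
          have := padicNorm.padicNorm_p (p := 3) (by norm_num)
          exact_mod_cast this
        have h6 : padicNorm 3 (2 : ℚ) = 1 := by
          have := padicNorm.padicNorm_of_prime_of_ne (p := 3) (q := 2) (by norm_num)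
          exact_mod_cast this
        rw [h5, h6]; norm_num
      rw [h4]; norm_num
  obtain ⟨C, hC1, hC⟩ := av_matrix_bound M
  have hCpos : 0 < C := lt_of_lt_of_le one_pos hC1
  obtain ⟨K, hK⟩ : ∃ K : ℕ, ∀ v i, C * (1 / 2 : ℝ) ^ K ≤ t v i := by
    have h1 : ∀ p : Pl × Fin n, ∃ K : ℕ, C * (1 / 2 : ℝ) ^ K ≤ t p.1 p.2 := by
      intro p
      obtain ⟨K, hK⟩ := exists_pow_lt_of_lt_one (div_pos (ht p.1 p.2) hCpos)
        (show (1 / 2 : ℝ) < 1 by norm_num)
      refine ⟨K, ?_⟩
      rw [lt_div_iff₀ hCpos] at hK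
      linarith
    choose f hf using h1
    refine ⟨∑ p, f p, fun v i => le_trans ?_ (hf (v, i))⟩
    refine mul_le_mul_of_nonneg_left ?_ hCpos.le
    exact pow_le_pow_of_le_one (by norm_num) (by norm_num)
      (Finset.single_le_sum (f := f) (fun _ _ => Nat.zero_le _) (Finset.mem_univ (v, i)))
  have hmem : ∀ k : Fin n, (fun l => if l = k then (6 : ℚ) ^ K else 0) ∈ Gam M t := by
    intro k
    refine ⟨?_, ?_⟩
    · intro l
      show InR (if l = k then (6 : ℚ) ^ K else 0)
      split_ifs
      · have := inR_pow (inR_int 6) K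
        simpa using this
      · exact inR_zero
    · intro v hv i
      have h1 : lin M v i (fun l => if l = k then (6 : ℚ) ^ K else 0) = M v i k * 6 ^ K := by
        unfold lin Matrix.mulVec dotProduct
        simp
      rw [h1, av_mul, av_pow]
      refine le_trans ?_ (hK v i)
      refine mul_le_mul (hC v i k).1 ?_ (pow_nonneg (av_nonneg _ _) _) hCpos.le
      exact pow_le_pow_left₀ (av_nonneg _ _) (h6 v hv) K
  rw [eq_top_iff]
  rintro x -
  have hx : x = ∑ k, (x k / 6 ^ K) • (fun l => if l = k then (6 : ℚ) ^ K else 0) := by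
    funext l
    rw [Finset.sum_apply]
    simp
  rw [hx]
  exact Submodule.sum_mem _ (fun k _ => Submodule.smul_mem _ _ (Submodule.subset_span (hmem k)))

/-- MIN: successive minima, (4.2). -/
theorem exists_minima {n : ℕ} (hn : 1 ≤ n) (M : Pl → Matrix (Fin n) (Fin n) ℚ)
    (hM : ∀ v, (M v).det ≠ 0) (s : Fin n → ℝ) (hs : ∀ i, 0 < s i) (t : Pl → Fin n → ℝ)
    (ht : ∀ v i, 0 < t v i) : ∃ g : Fin n → Fin n → ℚ, IsMin M s t g := by
  -- finiteness
  have hfin : ∀ B : ℝ, {x | x ∈ Gam M t ∧ nS M s x ≤ B}.Finite := by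
    intro B
    obtain ⟨C, hC1, hC⟩ := coord_le_lin M hM
    have hCpos : 0 < C := lt_of_lt_of_le one_pos hC1
    refine (MIN_finite n (C * (∑ i, |B| / s i + ∑ v, ∑ i, t v i))).subset ?_
    rintro x ⟨hx, hxB⟩
    refine ⟨hx.1, ?_⟩
    intro v k
    refine (hC v x _).1 (fun i => ?_) k
    have h0 : 0 ≤ ∑ i, |B| / s i := Finset.sum_nonneg (fun i _ => by
      have := hs i; positivity)
    have h0' : 0 ≤ ∑ v, ∑ i, t v i :=
      Finset.sum_nonneg (fun v _ => Finset.sum_nonneg (fun i _ => (ht v i).le))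
    by_cases hv : v = 0
    · subst hv
      have h1 := le_trans (le_nS M s x i) hxB
      have h2 : av 0 (lin M 0 i x) ≤ |B| / s i := by
        rw [le_div_iff₀ (hs i), mul_comm]
        exact le_trans h1 (le_abs_self B)
      have h3 : |B| / s i ≤ ∑ i, |B| / s i :=
        Finset.single_le_sum (f := fun i => |B| / s i) (fun i _ => by
          have := hs i; positivity) (Finset.mem_univ i)
      linarith
    · have h1 := hx.2 v hv i
      have h2 : t v i ≤ ∑ i, t v i :=
        Finset.single_le_sum (f := fun i => t v i) (fun i _ => (ht v i).le) (Finset.mem_univ i)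
      have h3 : ∑ i, t v i ≤ ∑ v, ∑ i, t v i :=
        Finset.single_le_sum (f := fun v => ∑ i, t v i)
          (fun v _ => Finset.sum_nonneg (fun i _ => (ht v i).le)) (Finset.mem_univ v)
      linarith
  -- a minimal element outside a proper subspace
  have hmin : ∀ W : Submodule ℚ (Fin n → ℚ), W ≠ ⊤ → ∃ x ∈ Gam M t, x ∉ W ∧
      ∀ y ∈ Gam M t, y ∉ W → nS M s x ≤ nS M s y := by
    intro W hW
    obtain ⟨x0, hx0, hx0W⟩ : ∃ x ∈ Gam M t, x ∉ W := by
      by_contra h
      push Not at h
      apply hW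
      rw [eq_top_iff, ← MIN_spans M t ht]
      exact Submodule.span_le.2 h
    have hf : {x | (x ∈ Gam M t ∧ nS M s x ≤ nS M s x0) ∧ x ∉ W}.Finite :=
      (hfin (nS M s x0)).subset (fun x hx => hx.1)
    obtain ⟨x, hx, hxm⟩ := Set.exists_min_image _ (nS M s) hf ⟨x0, ⟨hx0, le_refl _⟩, hx0W⟩
    refine ⟨x, hx.1.1, hx.2, ?_⟩
    intro y hy hyW
    rcases le_total (nS M s y) (nS M s x0) with h | h
    · exact hxm y ⟨⟨hy, h⟩, hyW⟩
    · exact le_trans hx.1.2 h
  -- successive choice
  have hstep : ∀ j : ℕ, j ≤ n → ∃ g : ℕ → Fin n → ℚ, (∀ i < j, g i ∈ Gam M t) ∧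
      (∀ i < j, ∀ y ∈ Gam M t, y ∉ Submodule.span ℚ {x | ∃ l < i, x = g l} →
        nS M s (g i) ≤ nS M s y) ∧
      (∀ i < j, g i ∉ Submodule.span ℚ {x | ∃ l < i, x = g l}) := by
    intro j
    induction j with
    | zero =>
      intro _
      exact ⟨fun _ => 0, fun i hi => absurd hi (Nat.not_lt_zero _),
        fun i hi => absurd hi (Nat.not_lt_zero _), fun i hi => absurd hi (Nat.not_lt_zero _)⟩
    | succ j ih =>
      intro hj
      obtain ⟨g, h1, h2, h3⟩ := ih (by omega)
      have hW : Submodule.span ℚ {x | ∃ l < j, x = g l} ≠ ⊤ := by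
        intro h
        have h4 : Module.finrank ℚ (Submodule.span ℚ (Set.range (fun l : Fin j => g l))) ≤
            Fintype.card (Fin j) := finrank_range_le_card _
        have h5 : {x | ∃ l < j, x = g l} = Set.range (fun l : Fin j => g l) := by
          ext x
          constructor
          · rintro ⟨l, hl, rfl⟩
            exact ⟨⟨l, hl⟩, rfl⟩
          · rintro ⟨l, rfl⟩
            exact ⟨l, l.2, rfl⟩
        rw [← h5, h, finrank_top] at h4
        simp at h4
        omega
      obtain ⟨x, hx, hxW, hxm⟩ := hmin _ hW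
      refine ⟨Function.update g j x, ?_⟩
      have hset : ∀ i ≤ j, {z | ∃ l < i, z = Function.update g j x l} = {z | ∃ l < i, z = g l} := by
        intro i hi
        ext z
        constructor
        · rintro ⟨l, hl, rfl⟩
          exact ⟨l, hl, by rw [Function.update_of_ne (by omega)]⟩
        · rintro ⟨l, hl, rfl⟩
          exact ⟨l, hl, by rw [Function.update_of_ne (by omega)]⟩
      refine ⟨?_, ?_, ?_⟩
      · intro i hi
        rcases Nat.lt_succ_iff_lt_or_eq.1 hi with h | rfl
        · rw [Function.update_of_ne (by omega)]; exact h1 i h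
        · rw [Function.update_self]; exact hx
      · intro i hi
        rw [hset i (by omega)]
        rcases Nat.lt_succ_iff_lt_or_eq.1 hi with h | rfl
        · rw [Function.update_of_ne (by omega)]; exact h2 i h
        · rw [Function.update_self]; exact hxm
      · intro i hi
        rw [hset i (by omega)]
        rcases Nat.lt_succ_iff_lt_or_eq.1 hi with h | rfl
        · rw [Function.update_of_ne (by omega)]; exact h3 i h
        · rw [Function.update_self]; exact hxW
  obtain ⟨g, h1, h2, h3⟩ := hstep n le_rfl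
  have hsp : ∀ j : ℕ, j ≤ n → spB (fun i : Fin n => g i) j =
      Submodule.span ℚ {x | ∃ l < j, x = g l} := by
    intro j hj
    unfold spB
    congr 1
    ext x
    constructor
    · rintro ⟨i, hi, rfl⟩
      exact ⟨i, hi, rfl⟩
    · rintro ⟨l, hl, rfl⟩
      exact ⟨⟨l, by omega⟩, hl, rfl⟩
  refine ⟨fun i => g i, ?_, fun j => h1 j j.2, ?_, ?_⟩
  · have hind : ∀ j : ℕ, j ≤ n → LinearIndependent ℚ (fun i : Fin j => g i) := by
      intro j
      induction j with
      | zero =>
        intro _
        exact linearIndependent_empty_type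
      | succ j ih =>
        intro hj
        rw [linearIndependent_finSucc']
        refine ⟨ih (by omega), ?_⟩
        have h4 := h3 j (by omega)
        have h5 : {x | ∃ l < j, x = g l} = Set.range (Fin.init fun i : Fin (j + 1) => g i) := by
          ext x
          constructor
          · rintro ⟨l, hl, rfl⟩
            exact ⟨⟨l, hl⟩, rfl⟩
          · rintro ⟨l, rfl⟩
            exact ⟨l, l.2, rfl⟩
        rw [h5] at h4
        exact h4
    exact hind n le_rfl
  · intro i j hij
    refine h2 i i.2 (g j) (h1 j j.2) ?_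
    intro h
    apply h3 j j.2
    refine Submodule.span_mono ?_ h
    rintro _ ⟨l, hl, rfl⟩
    exact ⟨l, lt_of_lt_of_le hl hij, rfl⟩
  · intro j x hx hxW
    rw [hsp j.val j.2.le] at hxW
    exact h2 j j.2 x hx hxW

end Pool.Agent.SubT
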