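import Pool.Agent.SubT.MF
import Pool.Agent.SubT.DL
import Pool.Agent.SubT.Mini

/-! Module GM2. Text: team-store MP_e27144_an_pr_growth_helper66.md.
HINT: (4.5). -/

namespace Pool.Agent.SubT

open scoped BigOperators ENNReal

open MeasureTheory Set Filter Topology

/-- GM2: (4.5). -/
theorem gm2 {n : ℕ} (hn : 1 ≤ n) (M : Pl → Matrix (Fin n) (Fin n) ℚ)
    (hM : ∀ v, (M v).det ≠ 0) :
    ∃ C2 : ℝ, 0 < C2 ∧ ∀ (s : Fin n → ℝ) (t : Pl → Fin n → ℝ), (∀ i, 0 < s i) →
      (∀ v i, 0 < t v i) → ∀ g : Fin n → Fin n → ℚ, IsMin M s t g →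
      ∏ j, nS M s (g j) ≤ C2 * PiW s t := by
  obtain ⟨C1, hC1, hmf⟩ := mf hn M hM
  set θ : ℝ := (2 * (n.factorial : ℝ))⁻¹ with hθ
  have hfac : (0 : ℝ) < n.factorial := by positivity
  have hθ0 : 0 < θ := by positivity
  refine ⟨C1 / θ ^ n, by positivity, ?_⟩
  intro s t hs ht g hg
  by_contra hcon
  rw [not_le] at hcon
  obtain ⟨π, hπ⟩ := dl (M 0) (hM 0) s hs g hg.indep
  have hlam : ∀ j, 0 < nS M s (g j) := fun j => nS_pos M hM s hs (g j) (hg.indep.ne_zero j)
  -- the boxes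
  let t' : Pl → Fin n → ℝ := fun v i =>
    if v = 0 then θ * nS M s (g (π.symm i)) / s i else t v i
  have ht' : ∀ v i, 0 < t' v i := by
    intro v i
    show 0 < (if v = 0 then _ else _)
    split_ifs
    · exact div_pos (mul_pos hθ0 (hlam _)) (hs i)
    · exact ht v i
  have hs' : 0 < ∏ i, s i := Finset.prod_pos (fun i _ => hs i)
  have ht1 : 0 < ∏ i, t 1 i := Finset.prod_pos (fun i _ => ht 1 i)
  have ht2 : 0 < ∏ i, t 2 i := Finset.prod_pos (fun i _ => ht 2 i)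
  have hprod : ∏ v, ∏ i, t' v i = (θ ^ n * ∏ j, nS M s (g j)) / (∏ i, s i) *
      ((∏ i, t 1 i) * ∏ i, t 2 i) := by
    rw [Fin.prod_univ_three]
    have e0 : ∏ i, t' 0 i = (θ ^ n * ∏ j, nS M s (g j)) / (∏ i, s i) := by
      show ∏ i, θ * nS M s (g (π.symm i)) / s i = _
      rw [Finset.prod_div_distrib, Finset.prod_mul_distrib, Finset.prod_const, Finset.card_univ,
        Fintype.card_fin, Equiv.prod_comp π.symm (fun j => nS M s (g j))]
    have e1 : ∏ i, t' 1 i = ∏ i, t 1 i := rfl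
    have e2 : ∏ i, t' 2 i = ∏ i, t 2 i := rfl
    rw [e0, e1, e2, mul_assoc]
  have hbig : C1 ≤ ∏ v, ∏ i, t' v i := by
    rw [hprod]
    unfold PiW at hcon
    rw [Finset.prod_mul_distrib, div_mul_div_comm, div_lt_iff₀ (by positivity)] at hcon
    rw [div_mul_eq_mul_div, le_div_iff₀ hs']
    nlinarith [hcon]
  obtain ⟨x, hxR, hx0, hx⟩ := hmf t' ht' hbig
  have hxG : x ∈ Gam M t := by
    refine ⟨hxR, ?_⟩
    intro v hv i
    have := hx v i
    have h2 : t' v i = t v i := if_neg hv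
    rwa [h2] at this
  -- the level of x
  have htop : x ∈ spB g n := by
    have h1 : spB g n = ⊤ := by
      have h2 : Submodule.span ℚ (Set.range g) = ⊤ := by
        have : Nonempty (Fin n) := ⟨⟨0, hn⟩⟩
        exact hg.indep.span_eq_top_of_card_eq_finrank (by simp)
      rw [← h2]
      unfold spB
      congr 1
      ext z
      constructor
      · rintro ⟨i, _, rfl⟩
        exact ⟨i, rfl⟩
      · rintro ⟨i, rfl⟩
        exact ⟨i, i.2, rfl⟩
    rw [h1]
    trivial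
  have hex : ∃ k, x ∈ spB g k := ⟨n, htop⟩
  classical
  obtain ⟨k, hk, hkmin⟩ : ∃ k, x ∈ spB g k ∧ ∀ l < k, x ∉ spB g l :=
    ⟨Nat.find hex, Nat.find_spec hex, fun l hl => Nat.find_min hex hl⟩
  have hkn : k ≤ n := by
    by_contra h
    push Not at h
    exact hkmin n h htop
  have hk0 : k ≠ 0 := by
    intro h
    subst h
    apply hx0
    have h1 : spB g 0 = ⊥ := by
      unfold spB
      rw [Submodule.span_eq_bot]
      rintro z ⟨i, hi, _⟩
      exact absurd hi (Nat.not_lt_zero _)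
    rw [h1] at hk
    exact (Submodule.mem_bot ℚ).1 hk
  obtain ⟨j, rfl⟩ : ∃ j, k = j + 1 := ⟨k - 1, by omega⟩
  have hjn : j < n := by omega
  have hnot : x ∉ spB g j := hkmin j (by omega)
  have h1 := hπ ⟨j, hjn⟩ x hk (θ * nS M s (g ⟨j, hjn⟩)) (by
    intro i hi
    have h2 := hx 0 (π i)
    have h3 : t' 0 (π i) = θ * nS M s (g i) / s (π i) := by
      show (if (0 : Pl) = 0 then _ else _) = _
      rw [if_pos rfl, Equiv.symm_apply_apply]
    rw [h3, av_real, le_div_iff₀ (hs _), mul_comm] at h2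
    refine le_trans h2 ?_
    exact mul_le_mul_of_nonneg_left (hg.mono (show i ≤ ⟨j, hjn⟩ from hi)) hθ0.le)
  have h2 : nS M s x ≤ n.factorial * (θ * nS M s (g ⟨j, hjn⟩)) := by
    refine nS_le hn M s x _ (fun i => ?_)
    rw [av_real]
    exact h1 i
  have h3 := hg.least ⟨j, hjn⟩ x hxG hnot
  have h4 : n.factorial * (θ * nS M s (g ⟨j, hjn⟩)) = nS M s (g ⟨j, hjn⟩) / 2 := by
    rw [hθ]
    field_simp
  rw [h4] at h2
  have h5 := hlam ⟨j, hjn⟩
  linarith

end Pool.Agent.SubT
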