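import Pool.Agent.SubT.CMinA
import Pool.Agent.SubT.CompX
import Pool.Agent.SubT.GM1
import Pool.Agent.SubT.GM2

/-! Module CMIN. Text: team-store MP_e27144_an_pr_growth_helper66.md.
HINT: section 6, (a) and the next line. -/

namespace Pool.Agent.SubT

open scoped BigOperators ENNReal

open MeasureTheory Set Filter Topology

theorem CMIN_rank {N : ℕ} {V : Type*} [AddCommGroup V] [Module ℚ V] (f : Fin N → V)
    (hf : LinearIndependent ℚ f) (q : Fin N → Prop) [DecidablePred q] :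
    Module.finrank ℚ (Submodule.span ℚ {x | ∃ i : Fin N, q i ∧ x = f i}) =
      (Finset.univ.filter q).card := by
  have h1 : {x | ∃ i : Fin N, q i ∧ x = f i} = Set.range (fun i : {i : Fin N // q i} => f i.1) := by
    ext x
    constructor
    · rintro ⟨i, hi, rfl⟩; exact ⟨⟨i, hi⟩, rfl⟩
    · rintro ⟨⟨i, hi⟩, rfl⟩; exact ⟨i, hi, rfl⟩
  rw [h1]
  have h2 := finrank_span_eq_card (hf.comp (Subtype.val : {i : Fin N // q i} → Fin N)
    Subtype.val_injective)
  rw [Fintype.card_subtype] at h2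
  exact h2

theorem CMIN_indep {N : ℕ} {V : Type*} [AddCommGroup V] [Module ℚ V] (G : Fin N → V)
    (hG : LinearIndependent ℚ G) (τ0 : Fin N) (X : V)
    (hX : X ∉ Submodule.span ℚ {Y | ∃ τ : Fin N, τ ≠ τ0 ∧ Y = G τ}) :
    LinearIndependent ℚ (fun τ => if τ = τ0 then X else G τ) := by
  rw [Fintype.linearIndependent_iff]
  intro c hc
  have hsplit : c τ0 • X + ∑ τ ∈ Finset.univ.erase τ0, c τ • G τ = 0 := by
    rw [← Finset.add_sum_erase _ _ (Finset.mem_univ τ0)] at hc
    rw [if_pos rfl] at hc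
    rw [← hc]
    congr 1
    refine Finset.sum_congr rfl fun τ hτ => ?_
    rw [if_neg (Finset.ne_of_mem_erase hτ)]
  have hmem : ∑ τ ∈ Finset.univ.erase τ0, c τ • G τ ∈
      Submodule.span ℚ {Y | ∃ τ : Fin N, τ ≠ τ0 ∧ Y = G τ} := by
    refine Submodule.sum_mem _ fun τ hτ => Submodule.smul_mem _ _ (Submodule.subset_span ?_)
    exact ⟨τ, Finset.ne_of_mem_erase hτ, rfl⟩
  have h0 : c τ0 = 0 := by
    by_contra hne
    apply hX
    have e : X = (c τ0)⁻¹ • (-∑ τ ∈ Finset.univ.erase τ0, c τ • G τ) := by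
      rw [eq_neg_of_add_eq_zero_right hsplit, neg_neg, smul_smul, inv_mul_cancel₀ hne, one_smul]
    rw [e]
    exact Submodule.smul_mem _ _ (Submodule.neg_mem _ hmem)
  rw [h0, zero_smul, zero_add] at hsplit
  have hall : ∑ τ, (if τ = τ0 then 0 else c τ) • G τ = 0 := by
    rw [← Finset.add_sum_erase _ _ (Finset.mem_univ τ0)]
    rw [if_pos rfl, zero_smul, zero_add, ← hsplit]
    refine Finset.sum_congr rfl fun τ hτ => ?_
    rw [if_neg (Finset.ne_of_mem_erase hτ)]
  have hz := Fintype.linearIndependent_iff.mp hG _ hall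
  intro τ
  by_cases h : τ = τ0
  · rw [h]; exact h0
  · have := hz τ
    rwa [if_neg h] at this

/-- CMIN: a vector outside `U = span(G_τ : τ ≠ τ0)` is long. -/
theorem outside_long {n p : ℕ} (hp : 1 ≤ p) (hpn : p ≤ n) (M : Pl → Matrix (Fin n) (Fin n) ℚ)
    (hM : ∀ v, (M v).det ≠ 0) :
    ∃ c0 : ℝ, 0 < c0 ∧ ∀ (s : Fin n → ℝ) (t : Pl → Fin n → ℝ), (∀ i, 0 < s i) →
      (∀ v i, 0 < t v i) → PiW s t = 1 → ∀ g : Fin n → Fin n → ℚ, IsMin M s t g →
      ∀ τ0 : Fin (n.choose p), ∀ X ∈ Gam (MC p M) (tC p t),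
        X ∉ Submodule.span ℚ {Y | ∃ τ : Fin (n.choose p), τ ≠ τ0 ∧
          Y = wd (fun a : Fin p => g (el τ a))} →
        c0 * prodSub (fun j => nS M s (g j)) τ0 ≤ nS (MC p M) (sC p s) X := by
  have hN : 1 ≤ n.choose p := Nat.choose_pos hpn
  have hMC : ∀ v, ((MC p M) v).det ≠ 0 := fun v => cmp_det_ne_zero p (M v) (hM v)
  obtain ⟨c1, hc1, h1⟩ := gm1 hN (MC p M) hMC
  obtain ⟨C2, hC2, h2⟩ := gm2 (hp.trans hpn) M hM
  set F : ℝ := (p.factorial : ℝ) with hF
  have hFpos : 0 < F := by rw [hF]; exact_mod_cast Nat.factorial_pos p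
  set N : ℕ := n.choose p with hNdef
  set c : ℕ := (n - 1).choose (p - 1) with hc
  refine ⟨c1 / (F ^ (2 * N) * (F ^ (N - 1) * C2 ^ c)), by positivity, ?_⟩
  intro s t hs ht hPi g hg τ0 X hXG hXU
  set lam : Fin n → ℝ := fun j => nS M s (g j) with hlam
  have hgne : ∀ j, g j ≠ 0 := fun j => hg.indep.ne_zero j
  have hlampos : ∀ j, 0 < lam j := fun j => nS_pos M hM s hs (g j) (hgne j)
  set G : Fin N → Fin N → ℚ := fun τ => wd (fun a : Fin p => g (el τ a)) with hG
  have hGind : LinearIndependent ℚ G := wd_basis g hg.indep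
  set x : Fin N → Fin N → ℚ := fun τ => if τ = τ0 then X else G τ with hx
  have hxind : LinearIndependent ℚ x := CMIN_indep G hGind τ0 X hXU
  have hGmem : ∀ τ, G τ ∈ Gam (MC p M) (tC p t) := fun τ =>
    wd_mem_Gam M t ht _ (fun b => hg.mem _)
  have hxmem : ∀ τ, x τ ∈ Gam (MC p M) (tC p t) := by
    intro τ
    simp only [hx]
    split_ifs
    · exact hXG
    · exact hGmem τ
  have hsC : ∀ i, 0 < sC p s i := fun i => Finset.prod_pos fun a _ => hs _
  have htC : ∀ v i, 0 < tC p t v i := fun v i =>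
    mul_pos hFpos (Finset.prod_pos fun a _ => ht v _)
  have hb := h1 (sC p s) (tC p t) hsC htC x hxind hxmem
  rw [PiW_C hp hpn s hs t ht, hPi, one_pow] at hb
  -- the product
  have hGle : ∀ τ, nS (MC p M) (sC p s) (G τ) ≤ F * prodSub lam τ := fun τ =>
    nS_wd_le hp hpn M s hs (fun a => g (el τ a))
  have hps : ∀ τ : Fin N, 0 < prodSub lam τ := fun τ => Finset.prod_pos fun a _ => hlampos _
  have hnn : ∀ y : Fin N → ℚ, 0 ≤ nS (MC p M) (sC p s) y := by
    intro y
    by_cases hy : y = 0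
    · have h0 := le_nS (MC p M) (sC p s) y ⟨0, hN⟩
      exact (mul_nonneg (hsC _).le (av_nonneg _ _)).trans h0
    · exact (nS_pos (MC p M) hMC (sC p s) hsC y hy).le
  have hprod : ∏ τ, nS (MC p M) (sC p s) (x τ) ≤
      nS (MC p M) (sC p s) X * (F ^ (N - 1) * ∏ τ ∈ Finset.univ.erase τ0, prodSub lam τ) := by
    rw [← Finset.mul_prod_erase _ _ (Finset.mem_univ τ0)]
    have e1 : x τ0 = X := by simp [hx]
    rw [e1]
    refine mul_le_mul_of_nonneg_left ?_ (hnn X)
    have e2 : F ^ (N - 1) = ∏ _τ ∈ Finset.univ.erase τ0, F := by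
      rw [Finset.prod_const, Finset.card_erase_of_mem (Finset.mem_univ τ0), Finset.card_univ,
        Fintype.card_fin]
    rw [e2, ← Finset.prod_mul_distrib]
    refine Finset.prod_le_prod (fun τ _ => hnn _) (fun τ hτ => ?_)
    have e3 : x τ = G τ := by simp only [hx]; rw [if_neg (Finset.ne_of_mem_erase hτ)]
    rw [e3]
    exact hGle τ
  have hall : prodSub lam τ0 * ∏ τ ∈ Finset.univ.erase τ0, prodSub lam τ = (∏ i, lam i) ^ c := by
    rw [Finset.mul_prod_erase _ _ (Finset.mem_univ τ0)]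
    exact prod_prodSub hp hpn lam
  have hlamle : (∏ i, lam i) ^ c ≤ C2 ^ c := by
    have := h2 s t hs ht g hg
    rw [hPi, mul_one] at this
    exact pow_le_pow_left₀ (Finset.prod_nonneg fun i _ => (hlampos i).le) this c
  have hP0 := hps τ0
  have herase : ∏ τ ∈ Finset.univ.erase τ0, prodSub lam τ ≤ C2 ^ c / prodSub lam τ0 := by
    rw [le_div_iff₀ hP0, mul_comm, hall]
    exact hlamle
  have hfin : c1 * (1 / F ^ (2 * N)) ≤
      nS (MC p M) (sC p s) X * (F ^ (N - 1) * (C2 ^ c / prodSub lam τ0)) := by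
    refine hb.trans (hprod.trans ?_)
    refine mul_le_mul_of_nonneg_left ?_ (hnn X)
    exact mul_le_mul_of_nonneg_left herase (by positivity)
  have e4 : nS (MC p M) (sC p s) X * (F ^ (N - 1) * (C2 ^ c / prodSub lam τ0)) =
      nS (MC p M) (sC p s) X * (F ^ (N - 1) * C2 ^ c) / prodSub lam τ0 := by ring
  rw [e4, le_div_iff₀ hP0] at hfin
  rw [div_mul_eq_mul_div, div_le_iff₀ (by positivity)]
  have e5 : c1 * (1 / F ^ (2 * N)) * prodSub lam τ0 =
      c1 * prodSub lam τ0 / F ^ (2 * N) := by ring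
  rw [e5, div_le_iff₀ (by positivity)] at hfin
  calc c1 * prodSub lam τ0 ≤ nS (MC p M) (sC p s) X * (F ^ (N - 1) * C2 ^ c) * F ^ (2 * N) := hfin
    _ = nS (MC p M) (sC p s) X * (F ^ (2 * N) * (F ^ (N - 1) * C2 ^ c)) := by ring

/-- CMIN: the first `N-1` minima of the compound span `U`, and there is a gap.
`D` is the gap of the original minima at `k`. -/
theorem cmin {n p : ℕ} (hp : 1 ≤ p) (hpn : p < n) (M : Pl → Matrix (Fin n) (Fin n) ℚ)
    (hM : ∀ v, (M v).det ≠ 0) :
    ∃ C : ℝ, 1 ≤ C ∧ ∀ (s : Fin n → ℝ) (t : Pl → Fin n → ℝ), (∀ i, 0 < s i) →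
      (∀ v i, 0 < t v i) → PiW s t = 1 → ∀ g : Fin n → Fin n → ℚ, IsMin M s t g →
      ∀ D : ℝ, C ≤ D →
      (∀ i j : Fin n, i.val + 1 = n - p → j.val = n - p → D * nS M s (g i) ≤ nS M s (g j)) →
      ∀ h : Fin (n.choose p) → Fin (n.choose p) → ℚ, IsMin (MC p M) (sC p s) (tC p t) h →
      ∀ τ0 : Fin (n.choose p), (∀ a : Fin p, ((el τ0 a : Fin n) : ℕ) = (n - p) + a) →
        spB h (n.choose p - 1) = Submodule.span ℚ {Y | ∃ τ : Fin (n.choose p), τ ≠ τ0 ∧
          Y = wd (fun a : Fin p => g (el τ a))} ∧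
        ∀ i j : Fin (n.choose p), i.val + 2 = n.choose p → j.val + 1 = n.choose p →
          D / C * nS (MC p M) (sC p s) (h i) ≤ nS (MC p M) (sC p s) (h j) := by
  classical
  obtain ⟨c0, hc0, hout⟩ := outside_long hp hpn.le M hM
  have hMC : ∀ v, ((MC p M) v).det ≠ 0 := fun v => cmp_det_ne_zero p (M v) (hM v)
  set F : ℝ := (p.factorial : ℝ) with hF
  have hFpos : 0 < F := by rw [hF]; exact_mod_cast Nat.factorial_pos p
  refine ⟨F / c0 + 1, by have := div_pos hFpos hc0; linarith, ?_⟩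
  intro s t hs ht hPi g hg D hD hgap h hh τ0 hτ0
  have hC0 : 0 < F / c0 + 1 := by have := div_pos hFpos hc0; linarith
  have hD1 : 1 ≤ D := by have := div_pos hFpos hc0; linarith
  have hDpos : 0 < D := by linarith
  have hN1 : 1 ≤ n.choose p := Nat.choose_pos hpn.le
  set lam : Fin n → ℝ := fun j => nS M s (g j) with hlam
  have hlampos : ∀ j, 0 < lam j := fun j => nS_pos M hM s hs (g j) (hg.indep.ne_zero j)
  set G : Fin (n.choose p) → Fin (n.choose p) → ℚ := fun τ => wd (fun a : Fin p => g (el τ a)) with hG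
  have hGind : LinearIndependent ℚ G := wd_basis g hg.indep
  have hGmem : ∀ τ, G τ ∈ Gam (MC p M) (tC p t) := fun τ =>
    wd_mem_Gam M t ht _ (fun b => hg.mem _)
  have hsC : ∀ i, 0 < sC p s i := fun i => Finset.prod_pos fun a _ => hs _
  set U : Submodule ℚ (Fin (n.choose p) → ℚ) := Submodule.span ℚ {Y | ∃ τ : Fin (n.choose p), τ ≠ τ0 ∧ Y = G τ} with hU
  have hUrank : Module.finrank ℚ U = n.choose p - 1 := by
    rw [hU, CMIN_rank G hGind (fun τ => τ ≠ τ0), Finset.filter_ne', Finset.card_erase_of_mem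
      (Finset.mem_univ τ0), Finset.card_univ, Fintype.card_fin]
  have hP0 : 0 < prodSub lam τ0 := Finset.prod_pos fun a _ => hlampos _
  set B : ℝ := F * (prodSub lam τ0 / D) with hB
  have hGle : ∀ τ, τ ≠ τ0 → nS (MC p M) (sC p s) (G τ) ≤ B := by
    intro τ hτ
    have h1 : nS (MC p M) (sC p s) (G τ) ≤ F * prodSub lam τ :=
      nS_wd_le hp hpn.le M s hs (fun a => g (el τ a))
    have h2 := prodSub_le_top (n := n) (k := n - p) (p := p) (by omega) (by omega) hp lam hlampos
      hg.mono D hD1 hgap τ0 hτ0 τ hτ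
    refine h1.trans (mul_le_mul_of_nonneg_left ?_ hFpos.le)
    rw [le_div_iff₀ hDpos, mul_comm]
    exact h2
  have hBlt : B < c0 * prodSub lam τ0 := by
    have h1 : F / D < c0 := by
      rw [div_lt_iff₀ hDpos]
      have h2 : F / c0 < D := by linarith
      rw [div_lt_iff₀ hc0] at h2
      linarith
    calc B = F / D * prodSub lam τ0 := by rw [hB]; ring
      _ < c0 * prodSub lam τ0 := mul_lt_mul_of_pos_right h1 hP0
  have hspB : ∀ j : ℕ, j ≤ n.choose p → Module.finrank ℚ (spB h j) = j := by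
    intro j hj
    unfold spB
    rw [CMIN_rank h hh.indep (fun i => i.val < j), Fin.card_filter_val_lt]
    omega
  -- the first N - 1 minima
  have hfirst : ∀ j : Fin (n.choose p), j.val < n.choose p - 1 → nS (MC p M) (sC p s) (h j) ≤ B ∧ h j ∈ U := by
    intro j hj
    have h1 : ∃ τ : Fin (n.choose p), τ ≠ τ0 ∧ G τ ∉ spB h j.val := by
      by_contra hcon
      push Not at hcon
      have hle : U ≤ spB h j.val := by
        rw [hU, Submodule.span_le]
        rintro Y ⟨τ, hτ, rfl⟩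
        exact hcon τ hτ
      have hr := Submodule.finrank_mono hle
      rw [hUrank, hspB j.val (by omega)] at hr
      omega
    obtain ⟨τ, hτ, hGτ⟩ := h1
    have h2 : nS (MC p M) (sC p s) (h j) ≤ B := (hh.least j (G τ) (hGmem τ) hGτ).trans (hGle τ hτ)
    refine ⟨h2, ?_⟩
    by_contra hnot
    have h3 := hout s t hs ht hPi g hg τ0 (h j) (hh.mem j) hnot
    have : c0 * prodSub lam τ0 ≤ B := h3.trans h2
    linarith
  have hspan : spB h (n.choose p - 1) = U := by
    have hle : spB h (n.choose p - 1) ≤ U := by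
      unfold spB
      rw [Submodule.span_le]
      rintro x ⟨i, hi, rfl⟩
      exact (hfirst i hi).2
    apply Submodule.eq_of_le_of_finrank_eq hle
    rw [hUrank, hspB (n.choose p - 1) (by omega)]
  refine ⟨hspan, fun i j hi hj => ?_⟩
  have h1 : nS (MC p M) (sC p s) (h i) ≤ B := (hfirst i (by omega)).1
  have h2 : h j ∉ U := by
    rw [← hspan]
    intro hmem
    have hle : spB h (n.choose p) ≤ spB h (n.choose p - 1) := by
      unfold spB
      rw [Submodule.span_le]
      rintro x ⟨l, hl, rfl⟩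
      by_cases hlj : l = j
      · rw [hlj]; exact hmem
      · apply Submodule.subset_span
        refine ⟨l, ?_, rfl⟩
        have : l.val ≠ j.val := fun h => hlj (Fin.ext h)
        omega
    have hr := Submodule.finrank_mono hle
    rw [hspB (n.choose p) le_rfl, hspB (n.choose p - 1) (by omega)] at hr
    omega
  have h3 := hout s t hs ht hPi g hg τ0 (h j) (hh.mem j) h2
  refine le_trans ?_ h3
  have h4 : D / (F / c0 + 1) * nS (MC p M) (sC p s) (h i) ≤ D / (F / c0 + 1) * B :=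
    mul_le_mul_of_nonneg_left h1 (by positivity)
  refine h4.trans ?_
  have e1 : D / (F / c0 + 1) * B = F / (F / c0 + 1) * prodSub lam τ0 := by
    rw [hB]; field_simp
  rw [e1]
  apply mul_le_mul_of_nonneg_right _ hP0.le
  rw [div_le_iff₀ hC0]
  have : c0 * (F / c0 + 1) = F + c0 := by field_simp
  linarith

end Pool.Agent.SubT
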