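import Pool.Agent.SubT.Comp

/-! Module CBS. Text: team-store MP_e27144_an_pr_growth_helper66.md.
HINT: section 5/6: each i lies in (n-1 choose p-1) of the p-subsets; a subset different from the top one has el tau 0 < k and el tau a <= k + a. -/

namespace Pool.Agent.SubT

open scoped BigOperators ENNReal

open MeasureTheory Set Filter Topology

/-- the product over the elements of the subset -/
private lemma CBS_prod {n p : ℕ} (lam : Fin n → ℝ) (τ : Fin (n.choose p)) :
    prodSub lam τ = ∏ i ∈ ((subEq n p).symm τ).1, lam i := by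
  unfold prodSub el
  set S := ((subEq n p).symm τ) with hS
  have h : S.1 = Finset.univ.map (S.1.orderEmbOfFin S.2).toEmbedding := by
    rw [Finset.map_orderEmbOfFin_univ]
  conv_rhs => rw [h]
  rw [Finset.prod_map]
  rfl

/-- CBS: `∏_τ lam_τ = (∏ lam)^(n-1 choose p-1)`. -/
theorem prod_prodSub {n p : ℕ} (hp : 1 ≤ p) (hpn : p ≤ n) (lam : Fin n → ℝ) :
    ∏ τ : Fin (n.choose p), prodSub lam τ = (∏ i, lam i) ^ ((n - 1).choose (p - 1)) := by
  classical
  have e1 : ∏ τ : Fin (n.choose p), prodSub lam τ =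
      ∏ S : {σ : Finset (Fin n) // σ.card = p}, ∏ i ∈ S.1, lam i := by
    rw [← Equiv.prod_comp (subEq n p)]
    refine Finset.prod_congr rfl (fun S _ => ?_)
    rw [CBS_prod, Equiv.symm_apply_apply]
  have e2 : ∏ S : {σ : Finset (Fin n) // σ.card = p}, ∏ i ∈ S.1, lam i =
      ∏ S : {σ : Finset (Fin n) // σ.card = p}, ∏ i : Fin n, if i ∈ S.1 then lam i else 1 := by
    refine Finset.prod_congr rfl (fun S _ => ?_)
    rw [Finset.prod_ite_mem, Finset.univ_inter]
  rw [e1, e2, Finset.prod_comm, ← Finset.prod_pow]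
  refine Finset.prod_congr rfl (fun i _ => ?_)
  rw [Finset.prod_ite, Finset.prod_const, Finset.prod_const_one, mul_one]
  congr 1
  -- count of the `p`-subsets containing `i`
  have e3 : (Finset.univ.filter (fun S : {σ : Finset (Fin n) // σ.card = p} => i ∈ S.1)).card =
      (((Finset.univ : Finset (Fin n)).erase i).powersetCard (p - 1)).card := by
    refine Finset.card_bij (fun S _ => S.1.erase i) ?_ ?_ ?_
    · intro S hS
      rw [Finset.mem_filter] at hS
      rw [Finset.mem_powersetCard]
      refine ⟨Finset.erase_subset_erase _ (Finset.subset_univ _), ?_⟩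
      rw [Finset.card_erase_of_mem hS.2, S.2]
    · intro S hS S' hS' h
      rw [Finset.mem_filter] at hS hS'
      apply Subtype.ext
      rw [← Finset.insert_erase hS.2, ← Finset.insert_erase hS'.2, h]
    · intro T hT
      rw [Finset.mem_powersetCard] at hT
      have hi : i ∉ T := fun h => (Finset.mem_erase.1 (hT.1 h)).1 rfl
      refine ⟨⟨insert i T, ?_⟩, ?_, ?_⟩
      · rw [Finset.card_insert_of_notMem hi, hT.2]
        omega
      · rw [Finset.mem_filter]
        exact ⟨Finset.mem_univ _, Finset.mem_insert_self _ _⟩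
      · exact Finset.erase_insert hi
  rw [e3, Finset.card_powersetCard, Finset.card_erase_of_mem (Finset.mem_univ _), Finset.card_univ,
    Fintype.card_fin]

/-- CBS: the top subset. -/
theorem exists_top {n k p : ℕ} (hk : k + p = n) :
    ∃ τ0 : Fin (n.choose p), ∀ a : Fin p, ((el τ0 a : Fin n) : ℕ) = k + a := by
  obtain ⟨τ0, h, -⟩ := exists_el (fun a : Fin p => (⟨k + a, by omega⟩ : Fin n))
    (fun a b hab => by
      rw [Fin.lt_def] at hab ⊢
      simpa using hab)
  exact ⟨τ0, fun a => by rw [h a]⟩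

/-- CBS: all other products are smaller. -/
theorem prodSub_le_top {n k p : ℕ} (hk : k + p = n) (hk1 : 1 ≤ k) (hp : 1 ≤ p)
    (lam : Fin n → ℝ) (hpos : ∀ i, 0 < lam i) (hmono : Monotone lam) (D : ℝ) (hD : 1 ≤ D)
    (hgap : ∀ i j : Fin n, i.val + 1 = k → j.val = k → D * lam i ≤ lam j)
    (τ0 : Fin (n.choose p)) (h0 : ∀ a : Fin p, ((el τ0 a : Fin n) : ℕ) = k + a)
    (τ : Fin (n.choose p)) (hτ : τ ≠ τ0) : D * prodSub lam τ ≤ prodSub lam τ0 := by
  classical
  have hmt := el_strictMono τ
  -- an increasing map into `Fin n` satisfies `el τ a ≤ k + a`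
  have hup : ∀ j : ℕ, ∀ a : Fin p, a.val + j + 1 = p → ((el τ a : Fin n) : ℕ) + j < n := by
    intro j
    induction j with
    | zero => intro a _; simpa using (el τ a).2
    | succ j ih =>
      intro a ha
      have hb : a.val + 1 < p := by omega
      have h1 := ih ⟨a.val + 1, hb⟩ (by simp; omega)
      have h2 : (el τ a : Fin n) < el τ ⟨a.val + 1, hb⟩ := hmt (by
        rw [Fin.lt_def]; simp)
      rw [Fin.lt_def] at h2
      omega
  have hle : ∀ a : Fin p, ((el τ a : Fin n) : ℕ) ≤ k + a := by
    intro a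
    have := hup (p - 1 - a.val) a (by have := a.2; omega)
    have := a.2
    omega
  have hlow : ∀ a : Fin p, ((el τ ⟨0, by omega⟩ : Fin n) : ℕ) + a ≤ (el τ a : Fin n) := by
    intro a
    obtain ⟨a, ha⟩ := a
    induction a with
    | zero => simp
    | succ a ih =>
      have h1 := ih (by omega)
      have h2 : (el τ ⟨a, by omega⟩ : Fin n) < el τ ⟨a + 1, ha⟩ := hmt (by
        rw [Fin.lt_def]; simp)
      rw [Fin.lt_def] at h2
      simp only at h1 ⊢
      omega
  have hz : ((el τ ⟨0, by omega⟩ : Fin n) : ℕ) < k := by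
    by_contra hcon
    push Not at hcon
    apply hτ
    obtain ⟨σ, -, hu⟩ := exists_el (fun a : Fin p => (⟨k + a, by omega⟩ : Fin n))
      (fun a b hab => by
        rw [Fin.lt_def] at hab ⊢
        simpa using hab)
    have t1 : τ = σ := hu τ (fun a => by
      apply Fin.ext
      have h1 := hlow a
      have h2 := hle a
      simp only
      omega)
    have t2 : τ0 = σ := hu τ0 (fun a => by
      apply Fin.ext
      exact h0 a)
    rw [t1, t2]
  have hfac : ∀ a : Fin p, lam (el τ a) ≤ lam (el τ0 a) := by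
    intro a
    apply hmono
    rw [Fin.le_def, h0 a]
    exact hle a
  have hfirst : D * lam (el τ ⟨0, by omega⟩) ≤ lam (el τ0 ⟨0, by omega⟩) := by
    have h1 : lam (el τ ⟨0, by omega⟩) ≤ lam ⟨k - 1, by omega⟩ := by
      apply hmono
      rw [Fin.le_def]
      simp only
      omega
    have h2 := hgap ⟨k - 1, by omega⟩ (el τ0 ⟨0, by omega⟩) (by simp only; omega)
      (by rw [h0]; simp)
    exact le_trans (mul_le_mul_of_nonneg_left h1 (by linarith)) h2
  unfold prodSub
  rw [← Finset.mul_prod_erase Finset.univ (fun a => lam (el τ a))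
      (Finset.mem_univ (⟨0, by omega⟩ : Fin p)),
    ← Finset.mul_prod_erase Finset.univ (fun a => lam (el τ0 a))
      (Finset.mem_univ (⟨0, by omega⟩ : Fin p)), ← mul_assoc]
  refine mul_le_mul hfirst ?_ ?_ (hpos _).le
  · exact Finset.prod_le_prod (fun a _ => (hpos _).le) (fun a _ => hfac a)
  · exact Finset.prod_nonneg (fun a _ => (hpos _).le)

end Pool.Agent.SubT
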