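import Pool.Agent.SubT.Place

/-! Module GEOB. Text: team-store MP_e27144_an_pr_growth_helper66.md.
HINT: elementary. -/

namespace Pool.Agent.SubT

open scoped BigOperators ENNReal

open MeasureTheory Set Filter Topology

/-- basic facts on `nS` -/
theorem le_nS {n : ℕ} (M : Pl → Matrix (Fin n) (Fin n) ℚ) (s : Fin n → ℝ) (x : Fin n → ℚ)
    (i : Fin n) : s i * av 0 (lin M 0 i x) ≤ nS M s x :=
  le_ciSup (f := fun i => s i * av 0 (lin M 0 i x)) (Set.finite_range _).bddAbove i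

theorem nS_le {n : ℕ} (hn : 1 ≤ n) (M : Pl → Matrix (Fin n) (Fin n) ℚ) (s : Fin n → ℝ)
    (x : Fin n → ℚ) (B : ℝ) (h : ∀ i, s i * av 0 (lin M 0 i x) ≤ B) : nS M s x ≤ B := by
  haveI : Nonempty (Fin n) := ⟨⟨0, hn⟩⟩
  exact ciSup_le h

theorem nS_pos {n : ℕ} (M : Pl → Matrix (Fin n) (Fin n) ℚ) (hM : ∀ v, (M v).det ≠ 0)
    (s : Fin n → ℝ) (hs : ∀ i, 0 < s i) (x : Fin n → ℚ) (hx : x ≠ 0) : 0 < nS M s x := by
  have h : (M 0).mulVec x ≠ 0 := by
    intro h0
    exact hx (Matrix.eq_zero_of_mulVec_eq_zero (hM 0) h0)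
  obtain ⟨i, hi⟩ := Function.ne_iff.1 h
  exact lt_of_lt_of_le (mul_pos (hs i) (av_pos 0 hi)) (le_nS M s x i)

/-- The spans of the minima: a vector of the lattice which is shorter than the j-th minimum
lies in the span of the vectors before. -/
theorem IsMin.mem_of_lt {n : ℕ} {M : Pl → Matrix (Fin n) (Fin n) ℚ} {s : Fin n → ℝ}
    {t : Pl → Fin n → ℝ} {g : Fin n → Fin n → ℚ} (h : IsMin M s t g) (j : Fin n)
    {x : Fin n → ℚ} (hx : x ∈ Gam M t) (hlt : nS M s x < nS M s (g j)) : x ∈ spB g j.val := by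
  by_contra hc
  exact absurd (h.least j x hx hc) (not_le.2 hlt)

end Pool.Agent.SubT
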