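import Pool.Agent.SubT.Comp
import Pool.Agent.SubT.CompS
import Pool.Agent.SubT.GeoB

/-! Module CMINA. Text: team-store MP_e27144_an_pr_growth_helper66.md.
HINT: section 6. -/

namespace Pool.Agent.SubT

open scoped BigOperators ENNReal

open MeasureTheory Set Filter Topology

theorem CMINA_lin {n p : ℕ} (M : Pl → Matrix (Fin n) (Fin n) ℚ) (v : Pl)
    (σ : Fin (n.choose p)) (x : Fin p → Fin n → ℚ) :
    lin (MC p M) v σ (wd x) = Matrix.det (fun a b : Fin p => lin M v (el σ a) (x b)) := by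
  have h := congrFun (cmp_mulVec_wd (M v) x) σ
  exact h

theorem CMINA_det {p : ℕ} (A : Matrix (Fin p) (Fin p) ℝ) (B : Fin p → ℝ)
    (h : ∀ i j, |A i j| ≤ B j) : |A.det| ≤ p.factorial * ∏ j, B j := by
  rw [Matrix.det_apply]
  refine (Finset.abs_sum_le_sum_abs _ _).trans ?_
  have h1 : ∀ σ ∈ (Finset.univ : Finset (Equiv.Perm (Fin p))),
      |Equiv.Perm.sign σ • ∏ i, A (σ i) i| ≤ ∏ j, B j := by
    intro σ _
    have h2 : |Equiv.Perm.sign σ • ∏ i, A (σ i) i| = |∏ i, A (σ i) i| := by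
      rcases Int.units_eq_one_or (Equiv.Perm.sign σ) with h | h <;> simp [h]
    rw [h2, Finset.abs_prod]
    exact Finset.prod_le_prod (fun i _ => abs_nonneg _) (fun i _ => h _ _)
  refine (Finset.sum_le_sum h1).trans ?_
  rw [Finset.sum_const, nsmul_eq_mul, Finset.card_univ, Fintype.card_perm, Fintype.card_fin]

/-- CMIN: wedges of lattice vectors. -/
theorem wd_mem_Gam {n p : ℕ} (M : Pl → Matrix (Fin n) (Fin n) ℚ) (t : Pl → Fin n → ℝ)
    (ht : ∀ v i, 0 < t v i) (x : Fin p → Fin n → ℚ) (hx : ∀ b, x b ∈ Gam M t) :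
    wd x ∈ Gam (MC p M) (tC p t) := by
  refine ⟨fun σ => inR_det _ (fun a b => (hx b).1 _), fun v hv σ => ?_⟩
  rw [CMINA_lin]
  exact av_det_le v _ (fun a => t v (el σ a)) (fun a b => (hx b).2 v hv (el σ a))

theorem nS_wd_le {n p : ℕ} (hp : 1 ≤ p) (hpn : p ≤ n) (M : Pl → Matrix (Fin n) (Fin n) ℚ)
    (s : Fin n → ℝ) (hs : ∀ i, 0 < s i) (x : Fin p → Fin n → ℚ) :
    nS (MC p M) (sC p s) (wd x) ≤ p.factorial * ∏ b, nS M s (x b) := by
  refine nS_le (Nat.choose_pos hpn) _ _ _ _ (fun σ => ?_)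
  rw [CMINA_lin, av_real]
  have e1 : ((Matrix.det (fun a b : Fin p => lin M 0 (el σ a) (x b)) : ℚ) : ℝ) =
      Matrix.det (fun a b : Fin p => ((lin M 0 (el σ a) (x b) : ℚ) : ℝ)) := by
    have := RingHom.map_det (Rat.castHom ℝ)
      (Matrix.of (fun a b : Fin p => lin M 0 (el σ a) (x b)))
    exact this
  have e2 : sC p s σ * |((Matrix.det (fun a b : Fin p => lin M 0 (el σ a) (x b)) : ℚ) : ℝ)| =
      |Matrix.det (Matrix.of fun a b : Fin p => s (el σ a) *
        (Matrix.of (fun a b : Fin p => ((lin M 0 (el σ a) (x b) : ℚ) : ℝ))) a b)| := by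
    rw [Matrix.det_mul_column, abs_mul, e1]
    congr 1
    rw [abs_of_nonneg (Finset.prod_nonneg fun a _ => (hs _).le)]
    rfl
  rw [e2]
  refine CMINA_det _ (fun b => nS M s (x b)) (fun a b => ?_)
  simp only [Matrix.of_apply]
  rw [abs_mul, abs_of_nonneg (hs _).le]
  have h := le_nS M s (x b) (el σ a)
  rwa [av_real] at h

theorem PiW_C {n p : ℕ} (hp : 1 ≤ p) (hpn : p ≤ n) (s : Fin n → ℝ) (hs : ∀ i, 0 < s i)
    (t : Pl → Fin n → ℝ) (ht : ∀ v i, 0 < t v i) :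
    PiW (sC p s) (tC p t) =
      PiW s t ^ ((n - 1).choose (p - 1)) / (p.factorial : ℝ) ^ (2 * n.choose p) := by
  unfold PiW
  have h1 : ∏ σ : Fin (n.choose p), sC p s σ = (∏ i, s i) ^ ((n - 1).choose (p - 1)) :=
    prod_prodSub hp hpn s
  have h2 : ∀ v : Pl, ∏ σ : Fin (n.choose p), tC p t v σ =
      (p.factorial : ℝ) ^ (n.choose p) * (∏ i, t v i) ^ ((n - 1).choose (p - 1)) := by
    intro v
    unfold tC
    rw [Finset.prod_mul_distrib, Finset.prod_const, Finset.card_univ, Fintype.card_fin]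
    congr 1
    exact prod_prodSub hp hpn (t v)
  rw [h1, Finset.prod_mul_distrib, h2 1, h2 2, Finset.prod_mul_distrib, div_pow, mul_pow]
  have hf : (0 : ℝ) < (p.factorial : ℝ) := by exact_mod_cast Nat.factorial_pos p
  have p1 : (0 : ℝ) < ∏ i, t 1 i := Finset.prod_pos fun i _ => ht 1 i
  have p2 : (0 : ℝ) < ∏ i, t 2 i := Finset.prod_pos fun i _ => ht 2 i
  rw [two_mul, pow_add]
  field_simp

end Pool.Agent.SubT
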