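import Pool.Agent.SubT.Defs

/-! Module CNT. Text: team-store MP_e27144_an_pr_growth_helper66.md.
HINT: elementary counting; log 2 = 0.693.., log 3 = 1.0986.. . -/

namespace Pool.Agent.SubT

open scoped BigOperators ENNReal

open MeasureTheory Set Filter Topology

theorem CNT_log3 : 1.09 < Real.log 3 ∧ Real.log 3 < 1.11 := by
  have h1 := Real.log_two_gt_d9
  have h2 := Real.log_two_lt_d9
  constructor
  · have h : Real.log ((2 : ℝ) ^ 19) < Real.log ((3 : ℝ) ^ 12) :=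
      Real.log_lt_log (by norm_num) (by norm_num)
    rw [Real.log_pow, Real.log_pow] at h
    push_cast at h
    linarith
  · have h : Real.log ((3 : ℝ) ^ 5) < Real.log ((2 : ℝ) ^ 8) :=
      Real.log_lt_log (by norm_num) (by norm_num)
    rw [Real.log_pow, Real.log_pow] at h
    push_cast at h
    linarith

theorem CNT_log2 : 0.693 < Real.log 2 ∧ Real.log 2 < 0.694 := by
  have h1 := Real.log_two_gt_d9
  have h2 := Real.log_two_lt_d9
  constructor <;> linarith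

theorem CNT_finite (τ : ℝ) (hτ : 0 ≤ τ) :
    {p : ℕ × ℕ | LL p.1 p.2 < τ} ⊆
      ((Finset.range ⌈τ / Real.log 2⌉₊ ×ˢ Finset.range ⌈τ / Real.log 3⌉₊ : Finset (ℕ × ℕ)) :
        Set (ℕ × ℕ)) := by
  obtain ⟨a1, a2⟩ := CNT_log2
  obtain ⟨b1, b2⟩ := CNT_log3
  have hl2 : 0 < Real.log 2 := by linarith
  have hl3 : 0 < Real.log 3 := by linarith
  rintro ⟨a, b⟩ h
  simp only [mem_setOf_eq, LL] at h
  simp only [Finset.coe_product, Set.mem_prod, Finset.mem_coe, Finset.mem_range]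
  have ha : (0 : ℝ) ≤ a := Nat.cast_nonneg _
  have hb : (0 : ℝ) ≤ b := Nat.cast_nonneg _
  constructor
  · rw [Nat.lt_ceil, lt_div_iff₀ hl2]
    nlinarith
  · rw [Nat.lt_ceil, lt_div_iff₀ hl3]
    nlinarith

/-- CNT: number of lattice points with `L < τ` in a quadrant. -/
theorem card_LL_lt_le (τ : ℝ) (hτ : 0 ≤ τ) :
    ({p : ℕ × ℕ | LL p.1 p.2 < τ}.ncard : ℝ) ≤ 1.4 * τ ^ 2 + 2.4 * τ + 1 ∧
      {p : ℕ × ℕ | LL p.1 p.2 < τ}.Finite := by
  obtain ⟨a1, a2⟩ := CNT_log2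
  obtain ⟨b1, b2⟩ := CNT_log3
  have hl2 : 0 < Real.log 2 := by linarith
  have hl3 : 0 < Real.log 3 := by linarith
  have hsub := CNT_finite τ hτ
  have hfin : {p : ℕ × ℕ | LL p.1 p.2 < τ}.Finite := (Finset.finite_toSet _).subset hsub
  refine ⟨?_, hfin⟩
  have h1 : {p : ℕ × ℕ | LL p.1 p.2 < τ}.ncard ≤ ⌈τ / Real.log 2⌉₊ * ⌈τ / Real.log 3⌉₊ := by
    have := Set.ncard_le_ncard hsub (Finset.finite_toSet _)
    rwa [Set.ncard_coe_finset, Finset.card_product, Finset.card_range, Finset.card_range] at this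
  have h2 : (⌈τ / Real.log 2⌉₊ : ℝ) ≤ 1.4431 * τ + 1 := by
    have := (Nat.ceil_lt_add_one (div_nonneg hτ hl2.le)).le
    have h3 : τ / Real.log 2 ≤ 1.4431 * τ := by
      rw [div_le_iff₀ hl2]
      nlinarith
    linarith
  have h3 : (⌈τ / Real.log 3⌉₊ : ℝ) ≤ 0.9175 * τ + 1 := by
    have := (Nat.ceil_lt_add_one (div_nonneg hτ hl3.le)).le
    have h3 : τ / Real.log 3 ≤ 0.9175 * τ := by
      rw [div_le_iff₀ hl3]
      nlinarith
    linarith
  have h4 : (0 : ℝ) ≤ (⌈τ / Real.log 2⌉₊ : ℝ) := Nat.cast_nonneg _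
  have h5 : (0 : ℝ) ≤ (⌈τ / Real.log 3⌉₊ : ℝ) := Nat.cast_nonneg _
  have h6 : ({p : ℕ × ℕ | LL p.1 p.2 < τ}.ncard : ℝ) ≤
      (⌈τ / Real.log 2⌉₊ : ℝ) * ⌈τ / Real.log 3⌉₊ := by exact_mod_cast h1
  have h7 : (⌈τ / Real.log 2⌉₊ : ℝ) * ⌈τ / Real.log 3⌉₊ ≤
      (1.4431 * τ + 1) * (0.9175 * τ + 1) := mul_le_mul h2 h3 h5 (by positivity)
  nlinarith [sq_nonneg τ]

/-- counting a region described by intervals -/
theorem CNT_sigma (S : Set (ℕ × ℕ)) (hS : S.Finite) (m : ℕ) (lo hi : ℕ → ℕ) (c : ℕ → ℝ)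
    (hmem : ∀ b < m, ∀ a, lo b ≤ a → a < hi b → (a, b) ∈ S)
    (hc : ∀ b < m, c b ≤ (hi b : ℝ) - lo b) (hlo : ∀ b < m, lo b ≤ hi b) :
    ∑ b ∈ Finset.range m, c b ≤ (S.ncard : ℝ) := by
  set T : Finset (ℕ × ℕ) := ((Finset.range m).sigma fun b => Finset.Ico (lo b) (hi b)).image
    (fun x => (x.2, x.1)) with hT
  have hcard : (T.card : ℝ) = ∑ b ∈ Finset.range m, ((hi b : ℝ) - lo b) := by
    rw [hT, Finset.card_image_of_injOn, Finset.card_sigma]
    · push_cast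
      refine Finset.sum_congr rfl fun b hb => ?_
      rw [Nat.card_Ico, Nat.cast_sub (hlo b (Finset.mem_range.1 hb))]
    · rintro ⟨b, a⟩ _ ⟨b', a'⟩ _ h
      simp only [Prod.mk.injEq] at h
      obtain ⟨rfl, rfl⟩ := h
      rfl
  have hsub : (T : Set (ℕ × ℕ)) ⊆ S := by
    rintro p hp
    rw [hT, Finset.mem_coe, Finset.mem_image] at hp
    obtain ⟨⟨b, a⟩, hx, rfl⟩ := hp
    rw [Finset.mem_sigma, Finset.mem_range, Finset.mem_Ico] at hx
    exact hmem b hx.1 a hx.2.1 hx.2.2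
  have h1 : T.card ≤ S.ncard := by
    have := Set.ncard_le_ncard hsub hS
    rwa [Set.ncard_coe_finset] at this
  calc ∑ b ∈ Finset.range m, c b ≤ ∑ b ∈ Finset.range m, ((hi b : ℝ) - lo b) :=
        Finset.sum_le_sum fun b hb => hc b (Finset.mem_range.1 hb)
    _ = T.card := hcard.symm
    _ ≤ S.ncard := by exact_mod_cast h1

theorem card_LL_lt_ge (τ : ℝ) (hτ : 0 ≤ τ) :
    0.6 * τ ^ 2 ≤ ({p : ℕ × ℕ | LL p.1 p.2 < τ}.ncard : ℝ) := by
  obtain ⟨a1, a2⟩ := CNT_log2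
  obtain ⟨b1, b2⟩ := CNT_log3
  set l2 := Real.log 2 with hl2d
  set l3 := Real.log 3 with hl3d
  have hl2 : 0 < l2 := by linarith
  have hl3 : 0 < l3 := by linarith
  set u : ℝ := τ / l3 with hu
  have hu0 : 0 ≤ u := div_nonneg hτ hl3.le
  have huτ : u * l3 = τ := by rw [hu]; field_simp
  set m : ℕ := ⌈u⌉₊ with hm
  have hm1 : u ≤ m := Nat.le_ceil u
  have hm2 : (m : ℝ) < u + 1 := Nat.ceil_lt_add_one hu0
  have hfin := (card_LL_lt_le τ hτ).2
  have key := CNT_sigma _ hfin m (fun _ => 0) (fun b => ⌈(τ - b * l3) / l2⌉₊)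
    (fun b => (τ - b * l3) / l2)
    (by
      intro b _ a _ ha
      rw [Nat.lt_ceil, lt_div_iff₀ hl2] at ha
      simp only [mem_setOf_eq, LL]
      linarith)
    (by
      intro b _
      simp only [Nat.cast_zero, sub_zero]
      exact Nat.le_ceil _)
    (fun _ _ => Nat.zero_le _)
  refine le_trans ?_ key
  have hsum : ∑ b ∈ Finset.range m, (τ - b * l3) / l2 =
      l3 / (2 * l2) * (m * (2 * u - m + 1)) := by
    have hG : ∀ n : ℕ, ∑ b ∈ Finset.range n, (τ - b * l3) / l2 =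
        l3 / (2 * l2) * (n * (2 * u - n + 1)) := by
      intro n
      induction n with
      | zero => simp
      | succ n ih =>
        rw [Finset.sum_range_succ, ih, ← huτ]
        push_cast
        field_simp
        ring
    exact hG m
  rw [hsum]
  have h1 : u ^ 2 ≤ m * (2 * u - m + 1) := by nlinarith
  have h2 : 0 ≤ l3 / (2 * l2) := by positivity
  have h3 : 0.6 * τ ^ 2 ≤ l3 / (2 * l2) * u ^ 2 := by
    rw [← huτ]
    have h4 : 0.6 * (u * l3) ^ 2 = (0.6 * (2 * l2) * l3) * (l3 / (2 * l2) * u ^ 2) := by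
      field_simp
    rw [h4]
    have h5 : 0.6 * (2 * l2) * l3 ≤ 1 := by nlinarith
    have h6 : 0 ≤ l3 / (2 * l2) * u ^ 2 := by positivity
    nlinarith
  exact h3.trans (mul_le_mul_of_nonneg_left h1 h2)

/-- CNT: number of lattice points of a strip. -/
theorem card_strip_ge (g w : ℝ) (hg : 0 < g) (hw : 3 ≤ w) :
    0.9 * g * w ≤ ({p : ℕ × ℕ | g ≤ LL p.1 p.2 ∧ LL p.1 p.2 < g + w}.ncard : ℝ) := by
  obtain ⟨a1, a2⟩ := CNT_log2
  obtain ⟨b1, b2⟩ := CNT_log3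
  set l2 := Real.log 2 with hl2d
  set l3 := Real.log 3 with hl3d
  have hl2 : 0 < l2 := by linarith
  have hl3 : 0 < l3 := by linarith
  have hfin : {p : ℕ × ℕ | g ≤ LL p.1 p.2 ∧ LL p.1 p.2 < g + w}.Finite :=
    (card_LL_lt_le (g + w) (by linarith)).2.subset fun p hp => hp.2
  set m : ℕ := ⌈g / l3⌉₊ with hm
  have hm1 : g / l3 ≤ m := Nat.le_ceil _
  have key := CNT_sigma _ hfin m (fun b => ⌈(g - b * l3) / l2⌉₊)
    (fun b => ⌈(g + w - b * l3) / l2⌉₊) (fun _ => w / l2 - 1)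
    (by
      intro b hb a ha ha'
      rw [Nat.lt_ceil, lt_div_iff₀ hl2] at ha'
      have h1 : (g - b * l3) / l2 ≤ a := (Nat.le_ceil _).trans (by exact_mod_cast ha)
      rw [div_le_iff₀ hl2] at h1
      simp only [mem_setOf_eq, LL]
      constructor <;> linarith)
    (by
      intro b hb
      have h1 : 0 ≤ (g - b * l3) / l2 := by
        rw [hm, Nat.lt_ceil, lt_div_iff₀ hl3] at hb
        exact div_nonneg (by linarith) hl2.le
      have h2 := (Nat.ceil_lt_add_one h1).le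
      have h3 : (g + w - b * l3) / l2 ≤ (⌈(g + w - b * l3) / l2⌉₊ : ℝ) := Nat.le_ceil _
      have h4 : (g + w - b * l3) / l2 = (g - b * l3) / l2 + w / l2 := by ring
      rw [h4] at h3
      rw [h4]
      linarith)
    (by
      intro b _
      apply Nat.ceil_mono
      apply div_le_div_of_nonneg_right _ hl2.le
      linarith)
  refine le_trans ?_ key
  rw [Finset.sum_const, Finset.card_range, nsmul_eq_mul]
  have h1 : 1.1 * w ≤ w / l2 - 1 := by
    have : 1.44 * w ≤ w / l2 := by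
      rw [le_div_iff₀ hl2]
      nlinarith
    linarith
  have h2 : 0.9 * g ≤ g / l3 := by
    rw [le_div_iff₀ hl3]
    nlinarith
  have h3 : 0.9 * g ≤ m := h2.trans hm1
  calc 0.9 * g * w ≤ (0.9 * g) * (1.1 * w) := by nlinarith [mul_pos hg (by linarith : 0 < w)]
    _ ≤ m * (w / l2 - 1) := mul_le_mul h3 h1 (by positivity) (Nat.cast_nonneg _)

end Pool.Agent.SubT
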