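import Pool.Agent.SubT.Defs

/-! Module CB. Text: team-store MP_e27144_an_pr_growth_helper66.md.
HINT: section 5. Cauchy-Binet: expand by multilinearity over all maps Fin p -> Fin n, non injective ones vanish, injective ones = increasing map composed with a permutation. -/

namespace Pool.Agent.SubT

open scoped BigOperators ENNReal

open MeasureTheory Set Filter Topology

/-- `el σ` is strictly increasing. -/
theorem el_strictMono {n p : ℕ} (σ : Fin (n.choose p)) :
    StrictMono (fun a : Fin p => (el σ a : Fin n)) := by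
  intro a b hab
  exact (((subEq n p).symm σ).1.orderEmbOfFin ((subEq n p).symm σ).2).strictMono hab

theorem CB_el_inj {n p : ℕ} (σ : Fin (n.choose p)) :
    Function.Injective (fun a : Fin p => (el σ a : Fin n)) := (el_strictMono σ).injective

theorem CB_range {n p : ℕ} (σ : Fin (n.choose p)) (i : Fin n) :
    (∃ a : Fin p, el σ a = i) ↔ i ∈ ((subEq n p).symm σ).1 := by
  have h := Finset.range_orderEmbOfFin ((subEq n p).symm σ).1 ((subEq n p).symm σ).2
  constructor
  · rintro ⟨a, rfl⟩
    exact Finset.orderEmbOfFin_mem _ _ a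
  · intro hi
    have : i ∈ Set.range (((subEq n p).symm σ).1.orderEmbOfFin ((subEq n p).symm σ).2) := by
      rw [h]; exact hi
    obtain ⟨a, ha⟩ := this
    exact ⟨a, ha⟩

theorem CB_eq_of_range {n p : ℕ} (σ τ : Fin (n.choose p))
    (h : ∀ i : Fin n, (∃ a : Fin p, el σ a = i) → ∃ a : Fin p, el τ a = i) : σ = τ := by
  have h1 : ((subEq n p).symm σ).1 ⊆ ((subEq n p).symm τ).1 := by
    intro i hi
    exact (CB_range τ i).1 (h i ((CB_range σ i).2 hi))
  have h2 : ((subEq n p).symm σ).1 = ((subEq n p).symm τ).1 := by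
    apply Finset.eq_of_subset_of_card_le h1
    rw [((subEq n p).symm σ).2, ((subEq n p).symm τ).2]
  have h3 : (subEq n p).symm σ = (subEq n p).symm τ := Subtype.ext h2
  exact (subEq n p).symm.injective h3

/-- a subset given by an injective map -/
theorem CB_exists {n p : ℕ} (f : Fin p → Fin n) (hf : Function.Injective f) :
    ∃ σ : Fin (n.choose p), ∀ i : Fin n, (∃ a : Fin p, el σ a = i) ↔ ∃ a : Fin p, f a = i := by
  classical
  have hc : (Finset.univ.image f).card = p := by
    rw [Finset.card_image_of_injective _ hf, Finset.card_univ, Fintype.card_fin]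
  refine ⟨subEq n p ⟨Finset.univ.image f, hc⟩, fun i => ?_⟩
  rw [CB_range]
  simp

/-- every increasing map is `el σ` for exactly one `σ` -/
theorem exists_el {n p : ℕ} (f : Fin p → Fin n) (hf : StrictMono f) :
    ∃! σ : Fin (n.choose p), ∀ a, el σ a = f a := by
  obtain ⟨σ, hσ⟩ := CB_exists f hf.injective
  refine ⟨σ, ?_, ?_⟩
  · have hm : ∀ a, f a ∈ ((subEq n p).symm σ).1 := fun a => (CB_range σ _).1 ((hσ _).2 ⟨a, rfl⟩)
    have h := Finset.orderEmbOfFin_unique ((subEq n p).symm σ).2 hm hf
    intro a
    exact (congrFun h a).symm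
  · intro τ hτ
    apply CB_eq_of_range
    rintro i ⟨a, ha⟩
    rw [hσ]
    exact ⟨a, by rw [← hτ a, ha]⟩

/-- CB: Cauchy-Binet in the general form: a determinant of a product through `Fin n`. -/
theorem cauchyBinet {n p : ℕ} (A : Fin p → Fin n → ℚ) (B : Fin n → Fin p → ℚ) :
    Matrix.det (fun a b : Fin p => ∑ i, A a i * B i b) =
      ∑ σ : Fin (n.choose p), Matrix.det (fun a b : Fin p => A a (el σ b)) *
        Matrix.det (fun a b : Fin p => B (el σ a) b) := by
  classical
  -- expansion by multilinearity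
  have h1 : Matrix.det (fun a b : Fin p => ∑ i, A a i * B i b) =
      ∑ r : Fin p → Fin n, (∏ a, A a (r a)) * Matrix.det (fun a b : Fin p => B (r a) b) := by
    have e1 : (fun a b : Fin p => ∑ i, A a i * B i b) =
        (fun a : Fin p => ∑ i : Fin n, (fun b : Fin p => A a i * B i b)) := by
      funext a b
      rw [Finset.sum_apply]
    have e2 : Matrix.det (fun a b : Fin p => ∑ i, A a i * B i b) =
        (Matrix.detRowAlternating (n := Fin p) (R := ℚ)).toMultilinearMap
          (fun a : Fin p => ∑ i : Fin n, (fun b : Fin p => A a i * B i b)) := by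
      rw [e1]
      rfl
    rw [e2, MultilinearMap.map_sum]
    refine Finset.sum_congr rfl fun r _ => ?_
    have e3 := Matrix.det_mul_column (fun a : Fin p => A a (r a))
      (fun a b : Fin p => B (r a) b)
    rw [← e3]
    rfl
  rw [h1]
  -- the permutations
  have h2 : ∀ σ : Fin (n.choose p), Matrix.det (fun a b : Fin p => A a (el σ b)) *
        Matrix.det (fun a b : Fin p => B (el σ a) b) =
      ∑ π : Equiv.Perm (Fin p), (∏ a, A a (el σ (π a))) *
        Matrix.det (fun a b : Fin p => B (el σ (π a)) b) := by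
    intro σ
    rw [← Matrix.det_transpose (fun a b : Fin p => A a (el σ b)), Matrix.det_apply, Finset.sum_mul]
    refine Finset.sum_congr rfl fun π _ => ?_
    have e4 := Matrix.det_permute π (fun a b : Fin p => B (el σ a) b)
    have e5 : (Matrix.submatrix (fun a b : Fin p => B (el σ a) b) π id) =
        (fun a b : Fin p => B (el σ (π a)) b) := by
      funext a b
      rfl
    rw [e5] at e4
    rw [e4]
    have e6 : ∏ i : Fin p, (Matrix.transpose (fun a b : Fin p => A a (el σ b))) (π i) i =
        ∏ a, A a (el σ (π a)) := Finset.prod_congr rfl fun a _ => rfl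
    rw [e6, Units.smul_def, zsmul_eq_mul]
    ring
  rw [Finset.sum_congr rfl (fun σ _ => h2 σ), ← Finset.sum_product']
  symm
  refine Finset.sum_of_injOn
    (fun (q : Fin (n.choose p) × Equiv.Perm (Fin p)) (a : Fin p) => el q.1 (q.2 a)) ?_ ?_ ?_ ?_
  · rintro ⟨σ, π⟩ _ ⟨τ, ρ⟩ _ h
    have h' : ∀ a, el σ (π a) = el τ (ρ a) := fun a => congrFun h a
    have hst : σ = τ := by
      apply CB_eq_of_range
      rintro i ⟨a, ha⟩
      refine ⟨ρ (π.symm a), ?_⟩
      rw [← h', Equiv.apply_symm_apply, ha]
    subst hst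
    have : π = ρ := by
      ext a
      exact congrArg Fin.val (CB_el_inj σ (h' a))
    rw [this]
  · intro q _
    exact Finset.mem_coe.2 (Finset.mem_univ _)
  · intro r _ hr
    by_cases hinj : Function.Injective r
    · exfalso
      apply hr
      obtain ⟨σ, hσ⟩ := CB_exists r hinj
      have hch : ∀ a : Fin p, ∃ b : Fin p, el σ b = r a := fun a => (hσ _).2 ⟨a, rfl⟩
      choose g hg using hch
      have hgi : Function.Injective g := by
        intro a b hab
        apply hinj
        rw [← hg a, ← hg b, hab]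
      have hgb : Function.Bijective g := Finite.injective_iff_bijective.1 hgi
      refine ⟨(σ, Equiv.ofBijective g hgb), by simp, ?_⟩
      funext a
      exact hg a
    · have hni : ∃ a b, r a = r b ∧ a ≠ b := by
        by_contra hcon
        push Not at hcon
        exact hinj fun a b hab => hcon a b hab
      obtain ⟨a, b, hab, hne⟩ := hni
      have hz : Matrix.det (fun a b : Fin p => B (r a) b) = 0 := by
        refine Matrix.det_zero_of_row_eq (M := fun a b : Fin p => B (r a) b) hne ?_
        show B (r a) = B (r b)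
        rw [hab]
      exact mul_eq_zero_of_right _ hz
  · rintro ⟨σ, π⟩ _
    rfl

theorem cmp_mulVec_wd {n p : ℕ} (A : Matrix (Fin n) (Fin n) ℚ) (x : Fin p → Fin n → ℚ) :
    (cmp p A).mulVec (wd x) = wd (fun b => A.mulVec (x b)) := by
  funext σ
  have h := cauchyBinet (n := n) (p := p) (fun a i => A (el σ a) i) (fun i b => x b i)
  have e : wd (fun b => A.mulVec (x b)) σ =
      Matrix.det (fun a b : Fin p => ∑ i, A (el σ a) i * x b i) := rfl
  rw [e, h]
  rfl

theorem cmp_mul {n : ℕ} (p : ℕ) (A B : Matrix (Fin n) (Fin n) ℚ) :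
    cmp p (A * B) = cmp p A * cmp p B := by
  funext σ τ
  have h := cauchyBinet (n := n) (p := p) (fun a i => A (el σ a) i) (fun i b => B i (el τ b))
  have e : cmp p (A * B) σ τ =
      Matrix.det (fun a b : Fin p => ∑ i, A (el σ a) i * B i (el τ b)) := by
    unfold cmp
    congr 1
  rw [e, h, Matrix.mul_apply]
  rfl

theorem cmp_one {n : ℕ} (p : ℕ) : cmp p (1 : Matrix (Fin n) (Fin n) ℚ) = 1 := by
  funext σ τ
  by_cases h : σ = τ
  · subst h
    rw [Matrix.one_apply_eq]
    have e : (fun a b : Fin p => (1 : Matrix (Fin n) (Fin n) ℚ) (el σ a) (el σ b)) =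
        (1 : Matrix (Fin p) (Fin p) ℚ) := by
      funext a b
      by_cases hab : a = b
      · subst hab
        rw [Matrix.one_apply_eq, Matrix.one_apply_eq]
      · rw [Matrix.one_apply_ne hab, Matrix.one_apply_ne]
        exact fun h => hab (CB_el_inj σ h)
    unfold cmp
    rw [e, Matrix.det_one]
  · rw [Matrix.one_apply_ne h]
    have hex : ∃ a : Fin p, ∀ b : Fin p, el σ a ≠ el τ b := by
      by_contra hcon
      push Not at hcon
      apply h
      apply CB_eq_of_range
      rintro i ⟨a, ha⟩
      obtain ⟨b, hb⟩ := hcon a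
      exact ⟨b, by rw [← hb, ha]⟩
    obtain ⟨a, ha⟩ := hex
    unfold cmp
    refine Matrix.det_eq_zero_of_row_eq_zero a fun b => ?_
    exact Matrix.one_apply_ne (ha b)

theorem cmp_det_ne_zero {n : ℕ} (p : ℕ) (A : Matrix (Fin n) (Fin n) ℚ) (hA : A.det ≠ 0) :
    (cmp p A).det ≠ 0 := by
  have h : A * A⁻¹ = 1 := Matrix.mul_nonsing_inv A (isUnit_iff_ne_zero.2 hA)
  have h2 : cmp p A * cmp p A⁻¹ = 1 := by rw [← cmp_mul, h, cmp_one]
  have h3 := congrArg Matrix.det h2
  rw [Matrix.det_mul, Matrix.det_one] at h3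
  intro h0
  rw [h0, zero_mul] at h3
  exact zero_ne_one h3

end Pool.Agent.SubT
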