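import Pool.Agent.SubT.GeoB

/-! Module CRUDE. Text: team-store MP_e27144_an_pr_growth_helper66.md.
HINT: (4.6): coord_le_lin and the product formula for a nonzero coordinate. -/

namespace Pool.Agent.SubT

open scoped BigOperators ENNReal

open MeasureTheory Set Filter Topology

/-- CRUDE: (4.6). -/
theorem crude {n : ℕ} (hn : 1 ≤ n) (M : Pl → Matrix (Fin n) (Fin n) ℚ)
    (hM : ∀ v, (M v).det ≠ 0) :
    ∃ c0 : ℝ, 0 < c0 ∧ ∀ (s : Fin n → ℝ) (t : Pl → Fin n → ℝ) (σ T : ℝ), 0 < σ → 0 < T →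
      (∀ i, σ ≤ s i) → (∀ v i, 0 < t v i) → (∀ v i, v ≠ 0 → t v i ≤ T) →
      ∀ x ∈ Gam M t, x ≠ 0 → c0 * σ ≤ T ^ 2 * nS M s x := by
  obtain ⟨C, hC1, hC⟩ := coord_le_lin M hM
  have hCpos : 0 < C := lt_of_lt_of_le one_pos hC1
  refine ⟨(C ^ 3)⁻¹, by positivity, ?_⟩
  intro s t σ T hσ hT hs ht htT x hx hx0
  obtain ⟨k, hk⟩ : ∃ k, x k ≠ 0 := by
    by_contra h
    push Not at h
    exact hx0 (funext h)
  have h1 := prod_av_ge_one (hx.1 k) hk
  have hspos : ∀ i, 0 < s i := fun i => lt_of_lt_of_le hσ (hs i)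
  have hN : 0 < nS M s x := nS_pos M hM s hspos x hx0
  have hfin : ∀ v : Pl, v ≠ 0 → av v (x k) ≤ C * T := fun v hv =>
    (hC v x T).1 (fun i => le_trans (hx.2 v hv i) (htT v i hv)) k
  have hinf : av 0 (x k) ≤ C * (nS M s x / σ) := by
    refine (hC 0 x _).1 (fun i => ?_) k
    rw [le_div_iff₀ hσ]
    calc av 0 (lin M 0 i x) * σ ≤ av 0 (lin M 0 i x) * s i :=
          mul_le_mul_of_nonneg_left (hs i) (av_nonneg _ _)
      _ = s i * av 0 (lin M 0 i x) := mul_comm _ _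
      _ ≤ nS M s x := le_nS M s x i
  have hprod : ∏ v : Pl, av v (x k) = av 0 (x k) * (av 1 (x k) * av 2 (x k)) := by
    rw [Fin.prod_univ_three]; ring
  rw [hprod] at h1
  have h2 : av 1 (x k) * av 2 (x k) ≤ (C * T) * (C * T) :=
    mul_le_mul (hfin 1 (by decide)) (hfin 2 (by decide)) (av_nonneg _ _) (by positivity)
  have h3 : av 0 (x k) * (av 1 (x k) * av 2 (x k)) ≤ (C * (nS M s x / σ)) * ((C * T) * (C * T)) :=
    mul_le_mul hinf h2 (mul_nonneg (av_nonneg _ _) (av_nonneg _ _)) (by positivity)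
  have h4 : 1 ≤ (C * (nS M s x / σ)) * ((C * T) * (C * T)) := le_trans h1 h3
  have h5 : (C * (nS M s x / σ)) * ((C * T) * (C * T)) = C ^ 3 * (T ^ 2 * nS M s x) / σ := by
    field_simp
  rw [h5, le_div_iff₀ hσ, one_mul] at h4
  rw [inv_mul_le_iff₀ (by positivity)]
  exact h4

end Pool.Agent.SubT
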