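import Pool.Agent.SubT.GM1
import Pool.Agent.SubT.GM2
import Pool.Agent.SubT.DL
import Pool.Agent.SubT.GeoB

/-! Module DAV. Text: team-store MP_e27144_an_pr_growth_helper66.md.
HINT: section 6, DAVENPORT paragraph (nu_i = nS M s (h (i-1)), rho_i = theta/nu_i for i < N, rho_N = theta/nu_(N-1)). Uses dl, gm1, gm2, exists_minima for s2. -/

namespace Pool.Agent.SubT

open scoped BigOperators ENNReal

open MeasureTheory Set Filter Topology

theorem davSpTop {N : ℕ} (h : Fin N → Fin N → ℚ) (hi : LinearIndependent ℚ h) :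
    spB h N = ⊤ := by
  have h1 : spB h N = Submodule.span ℚ (Set.range h) := by
    unfold spB
    congr 1
    ext x
    constructor
    · rintro ⟨i, -, rfl⟩
      exact ⟨i, rfl⟩
    · rintro ⟨i, rfl⟩
      exact ⟨i, i.2, rfl⟩
  rw [h1]
  exact hi.span_eq_top_of_card_eq_finrank' (by simp)

theorem davSpBot {N : ℕ} (h : Fin N → Fin N → ℚ) : spB h 0 = ⊥ := by
  unfold spB
  have h1 : {x | ∃ i : Fin N, i.val < 0 ∧ x = h i} = (∅ : Set (Fin N → ℚ)) := by
    ext x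
    simp
  rw [h1, Submodule.span_empty]

theorem davNotMem {N : ℕ} (h : Fin N → Fin N → ℚ) (hi : LinearIndependent ℚ h) (j : Fin N) :
    h j ∉ spB h j.val := by
  have h1 : spB h j.val = Submodule.span ℚ (h '' {i : Fin N | i.val < j.val}) := by
    unfold spB
    congr 1
    ext x
    constructor
    · rintro ⟨i, hij, rfl⟩
      exact ⟨i, hij, rfl⟩
    · rintro ⟨i, hij, rfl⟩
      exact ⟨i, hij, rfl⟩
  rw [h1]
  apply hi.notMem_span_image
  simp

/-- a nonzero vector enters the flag at some index -/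
theorem davIdx {N : ℕ} (h : Fin N → Fin N → ℚ) (hi : LinearIndependent ℚ h) (X : Fin N → ℚ)
    (hX : X ≠ 0) : ∃ j : Fin N, X ∈ spB h (j.val + 1) ∧ X ∉ spB h j.val := by
  classical
  have hex : ∃ k : ℕ, X ∈ spB h k := ⟨N, by rw [davSpTop h hi]; trivial⟩
  have hk := Nat.find_spec hex
  have hk0 : Nat.find hex ≠ 0 := by
    intro h0
    rw [h0, davSpBot] at hk
    exact hX ((Submodule.mem_bot ℚ).1 hk)
  have hkN : Nat.find hex ≤ N := Nat.find_min' hex (by rw [davSpTop h hi]; trivial)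
  obtain ⟨j, hj⟩ := Nat.exists_eq_succ_of_ne_zero hk0
  refine ⟨⟨j, by omega⟩, ?_, ?_⟩
  · have : (j + 1) = Nat.find hex := by omega
    simpa [this] using hk
  · exact Nat.find_min hex (by simp only; omega)

/-- real numbers only: the last but one minimum is small -/
theorem davMuA {N : ℕ} (hN : 2 ≤ N) (μ : Fin N → ℝ) (a b : Fin N) (hba : a ≠ b)
    (hμ0 : ∀ j, 0 < μ j) (F θ E B c P : ℝ) (hF0 : 0 < F) (hθ0 : 0 < θ) (hE : 0 < E) (hc : 0 < c)
    (hμprod : ∏ j, μ j ≤ B) (hμlow : ∀ j, θ / F ≤ μ j) (hμb : E ≤ F * μ b)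
    (hid : E * θ ^ (N - 1) = P) (hP : c ≤ P) : μ a ≤ B / c * F ^ (N - 1) * θ := by
  classical
  obtain ⟨m, rfl⟩ : ∃ m, N = m + 2 := ⟨N - 2, by omega⟩
  have e1 : m + 2 - 1 = m + 1 := by omega
  rw [e1] at hid ⊢
  have h1 : ∏ j, μ j = μ b * (μ a * ∏ j ∈ (Finset.univ.erase b).erase a, μ j) := by
    rw [← Finset.mul_prod_erase Finset.univ μ (Finset.mem_univ b),
      ← Finset.mul_prod_erase (Finset.univ.erase b) μ
        (Finset.mem_erase.2 ⟨hba, Finset.mem_univ a⟩)]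
  have h2 : (θ / F) ^ m ≤ ∏ j ∈ (Finset.univ.erase b).erase a, μ j := by
    have hcard : ((Finset.univ.erase b).erase a).card = m := by
      rw [Finset.card_erase_of_mem (Finset.mem_erase.2 ⟨hba, Finset.mem_univ a⟩),
        Finset.card_erase_of_mem (Finset.mem_univ b), Finset.card_univ, Fintype.card_fin]
      omega
    have hpc : (θ / F) ^ m = ∏ _j ∈ (Finset.univ.erase b).erase a, (θ / F) := by
      rw [Finset.prod_const, hcard]
    rw [hpc]
    apply Finset.prod_le_prod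
    · intro i _
      exact (div_pos hθ0 hF0).le
    · intro i _
      exact hμlow i
  have h3 : E / F ≤ μ b := by
    rw [div_le_iff₀ hF0]
    linarith
  have hθF : 0 < (θ / F) ^ m := pow_pos (div_pos hθ0 hF0) _
  have h4 : E / F * (μ a * (θ / F) ^ m) ≤ B := by
    refine le_trans ?_ hμprod
    rw [h1]
    apply mul_le_mul h3 _ (mul_pos (hμ0 a) hθF).le (hμ0 b).le
    exact mul_le_mul_of_nonneg_left h2 (hμ0 a).le
  have h5 : μ a * P ≤ B * F ^ (m + 1) * θ := by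
    have h8 : μ a * P = (E / F * (μ a * (θ / F) ^ m)) * (F ^ (m + 1) * θ) := by
      rw [← hid, div_pow, pow_succ θ, pow_succ F]
      field_simp
    rw [h8]
    calc _ ≤ B * (F ^ (m + 1) * θ) := mul_le_mul_of_nonneg_right h4 (by positivity)
      _ = _ := by ring
  have h9 : μ a * c ≤ B * F ^ (m + 1) * θ := (mul_le_mul_of_nonneg_left hP (hμ0 a).le).trans h5
  calc μ a = μ a * c / c := by field_simp
    _ ≤ B * F ^ (m + 1) * θ / c := div_le_div_of_nonneg_right h9 hc.le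
    _ = _ := by ring

/-- real numbers only: the final contradiction -/
theorem davEnd {N : ℕ} (hN : 2 ≤ N) (F θ E c P δ : ℝ) (hF0 : 0 < F) (hθ0 : 0 < θ)
    (hc : 0 < c) (hid : E * θ ^ (N - 1) = P) (hP : c ≤ P) (hE : E ≤ F) (hθδ : θ ≤ δ)
    (hδ1 : δ ≤ 1) (hδ2 : δ ≤ c / (2 * F)) : False := by
  have h3 : P ≤ F * θ ^ (N - 1) := by
    rw [← hid]
    exact mul_le_mul_of_nonneg_right hE (by positivity)
  have h4 : θ ^ (N - 1) ≤ θ := by
    calc θ ^ (N - 1) ≤ θ ^ 1 := pow_le_pow_of_le_one hθ0.le (hθδ.trans hδ1) (by omega)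
      _ = θ := pow_one θ
  have h5 : c ≤ F * (c / (2 * F)) := by
    calc c ≤ F * θ ^ (N - 1) := hP.trans h3
      _ ≤ F * (c / (2 * F)) := mul_le_mul_of_nonneg_left (h4.trans (hθδ.trans hδ2)) hF0.le
  have h6 : F * (c / (2 * F)) = c / 2 := by
    field_simp
  rw [h6] at h5
  linarith

/-- real numbers only: identities for theta -/
theorem davId {N : ℕ} (hN : 2 ≤ N) (θ P x y : ℝ) (hx : 0 < x) (hy : 0 < y)
    (h : θ ^ N = P * x / y) : θ * y / x * θ ^ (N - 1) = P := by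
  have h1 : θ * θ ^ (N - 1) = P * x / y := by
    rw [← h, ← pow_succ']
    congr 1
    omega
  calc θ * y / x * θ ^ (N - 1) = (θ * θ ^ (N - 1)) * y / x := by ring
    _ = P * x / y * y / x := by rw [h1]
    _ = P := by field_simp

/-- the key estimate -/
theorem davKey {N : ℕ} (hN : 2 ≤ N) (M : Pl → Matrix (Fin N) (Fin N) ℚ)
    (s : Fin N → ℝ) (t : Pl → Fin N → ℝ) (hs : ∀ i, 0 < s i)
    (h : Fin N → Fin N → ℚ) (hmin : IsMin M s t h) (ρ : Fin N → ℝ)
    (hρ0 : ∀ i, 0 < ρ i) (hρanti : ∀ i j : Fin N, i ≤ j → ρ j ≤ ρ i)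
    (π : Equiv.Perm (Fin N)) (hπ : ∀ j : Fin N, ∀ x ∈ spB h (j.val + 1), ∀ B : ℝ,
      (∀ i : Fin N, i.val ≤ j.val → s (π i) * |(((M 0).mulVec x (π i) : ℚ) : ℝ)| ≤ B) →
      ∀ i, s i * |(((M 0).mulVec x i : ℚ) : ℝ)| ≤ N.factorial * B)
    (X : Fin N → ℚ) (hX : X ∈ Gam M t) (j : Fin N) (hj1 : X ∈ spB h (j.val + 1))
    (hj2 : X ∉ spB h j.val) :
    ρ j * nS M s (h j) ≤ (N.factorial : ℝ) * nS M (fun i => ρ (π.symm i) * s i) X := by
  have h1 : nS M s (h j) ≤ nS M s X := hmin.least j X hX hj2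
  obtain ⟨w, hw⟩ : ∃ w, w = nS M (fun i => ρ (π.symm i) * s i) X := ⟨_, rfl⟩
  have h2 : ∀ i, s i * |(((M 0).mulVec X i : ℚ) : ℝ)| ≤ N.factorial * (w / ρ j) := by
    apply hπ j X hj1
    intro i hi
    have h3 := le_nS M (fun i => ρ (π.symm i) * s i) X (π i)
    rw [← hw] at h3
    simp only [Equiv.symm_apply_apply] at h3
    rw [av_real] at h3
    have h4 : ρ j ≤ ρ i := hρanti i j hi
    rw [le_div_iff₀ (hρ0 j)]
    have h5 : 0 ≤ s (π i) * |(((M 0).mulVec X (π i) : ℚ) : ℝ)| :=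
      mul_nonneg (hs _).le (abs_nonneg _)
    calc s (π i) * |(((M 0).mulVec X (π i) : ℚ) : ℝ)| * ρ j
        ≤ s (π i) * |(((M 0).mulVec X (π i) : ℚ) : ℝ)| * ρ i :=
          mul_le_mul_of_nonneg_left h4 h5
      _ = ρ i * s (π i) * |((lin M 0 (π i) X : ℚ) : ℝ)| := by unfold lin; ring
      _ ≤ _ := h3
  have h3 : nS M s X ≤ (N.factorial : ℝ) * (w / ρ j) := by
    apply nS_le (by omega) M s X
    intro i
    rw [av_real]
    exact h2 i
  have h4 : nS M s (h j) ≤ (N.factorial : ℝ) * (w / ρ j) := h1.trans h3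
  rw [← hw]
  have hne := (hρ0 j).ne'
  calc ρ j * nS M s (h j) ≤ ρ j * ((N.factorial : ℝ) * (w / ρ j)) :=
        mul_le_mul_of_nonneg_left h4 (hρ0 j).le
    _ = (N.factorial : ℝ) * w := by
      field_simp

/-- real numbers only: the choice of theta and rho -/
theorem davRho {N : ℕ} (hN : 2 ≤ N) (ν : Fin N → ℝ) (hν0 : ∀ j, 0 < ν j) (hνm : Monotone ν)
    (a b : Fin N) (ha : a.val = N - 2) (hb : b.val = N - 1) (D B δ : ℝ) (hD0 : 0 < D)
    (hB : 0 < B) (hδ0 : 0 < δ) (hgap : D * ν a ≤ ν b) (hprodle : ∏ j, ν j ≤ B)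
    (hDδ : B / δ ^ N ≤ D) :
    ∃ (θ : ℝ) (ρ : Fin N → ℝ), 0 < θ ∧ θ ^ N = (∏ j, ν j) * ν a / ν b ∧ θ ^ N ≤ B / D ∧
      θ ≤ δ ∧ (∀ i, 0 < ρ i) ∧ (∀ i j : Fin N, i ≤ j → ρ j ≤ ρ i) ∧ ∏ i, ρ i = 1 ∧
      (∀ j, θ ≤ ρ j * ν j) ∧ ρ b * ν b = θ * ν b / ν a ∧
      ∀ j, θ / ν b ≤ ρ j ∧ ρ j ≤ θ / ν ⟨0, by omega⟩ := by
  classical
  have hab : a ≤ b := by
    rw [Fin.le_def]; omega
  have hprod0 : 0 < ∏ j, ν j := Finset.prod_pos fun j _ => hν0 j
  obtain ⟨T, hT⟩ : ∃ T, T = (∏ j, ν j) * ν a / ν b := ⟨_, rfl⟩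
  have hT0 : 0 < T := by
    rw [hT]; exact div_pos (mul_pos hprod0 (hν0 a)) (hν0 b)
  obtain ⟨θ, hθ⟩ : ∃ θ, θ = T ^ ((N : ℝ)⁻¹) := ⟨_, rfl⟩
  have hθ0 : 0 < θ := by rw [hθ]; exact Real.rpow_pos_of_pos hT0 _
  have hθN : θ ^ N = T := by
    rw [hθ]; exact Real.rpow_inv_natCast_pow hT0.le (by omega)
  have hTle : T ≤ B / D := by
    rw [hT, div_le_div_iff₀ (hν0 b) hD0]
    calc (∏ j, ν j) * ν a * D = (∏ j, ν j) * (D * ν a) := by ring
      _ ≤ B * ν b := mul_le_mul hprodle hgap (mul_pos hD0 (hν0 a)).le hB.le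
  have hθδ : θ ≤ δ := by
    have h1 : θ ^ N ≤ δ ^ N := by
      rw [hθN]
      refine hTle.trans ?_
      rw [div_le_iff₀ hD0]
      rw [div_le_iff₀ (pow_pos hδ0 _)] at hDδ
      linarith
    exact le_of_pow_le_pow_left₀ (by omega) hδ0.le h1
  have hmina : ∀ i : Fin N, i ≠ b → min i a = i := by
    intro i hi
    apply min_eq_left
    rw [Fin.le_def]
    have h1 : i.val ≠ N - 1 := fun h2 => hi (Fin.ext (by omega))
    have := i.2
    omega
  have hminb : min b a = a := min_eq_right hab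
  have hprodν : (∏ i, ν (min i a)) * ν b = (∏ j, ν j) * ν a := by
    rw [← Finset.mul_prod_erase Finset.univ (fun i => ν (min i a)) (Finset.mem_univ b),
      ← Finset.mul_prod_erase Finset.univ ν (Finset.mem_univ b), hminb]
    have : ∏ x ∈ Finset.univ.erase b, ν (min x a) = ∏ x ∈ Finset.univ.erase b, ν x :=
      Finset.prod_congr rfl fun x hx => by rw [hmina x (Finset.ne_of_mem_erase hx)]
    rw [this]
    ring
  have hne : ∏ i, ν (min i a) ≠ 0 := (Finset.prod_pos fun i _ => hν0 _).ne'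
  have hne2 := (hν0 b).ne'
  refine ⟨θ, fun i => θ / ν (min i a), hθ0, hθN.trans hT, by rw [hθN]; exact hTle, hθδ, ?_, ?_,
    ?_, ?_, ?_, ?_⟩
  · exact fun i => div_pos hθ0 (hν0 _)
  · intro i j hij
    apply div_le_div_of_nonneg_left hθ0.le (hν0 _)
    exact hνm (min_le_min_right a hij)
  · rw [Finset.prod_div_distrib, Finset.prod_const, Finset.card_univ, Fintype.card_fin, hθN,
      hT, ← hprodν]
    field_simp
  · intro j
    simp only
    rw [div_mul_eq_mul_div, le_div_iff₀ (hν0 _)]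
    exact mul_le_mul_of_nonneg_left (hνm (min_le_left j a)) hθ0.le
  · simp only
    rw [hminb, div_mul_eq_mul_div]
  · intro j
    constructor
    · apply div_le_div_of_nonneg_left hθ0.le (hν0 _)
      apply hνm
      rw [Fin.le_def]
      have := (min j a).2
      omega
    · apply div_le_div_of_nonneg_left hθ0.le (hν0 _)
      apply hνm
      rw [Fin.le_def]
      simp only
      omega

/-- DAV. In the notation of the text: `nS M s (h j) = nu_(j+1)`, `U = spB h (N-1)`. -/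
theorem dav {N : ℕ} (hN : 2 ≤ N) (M : Pl → Matrix (Fin N) (Fin N) ℚ)
    (hM : ∀ v, (M v).det ≠ 0) (P0 : ℝ) (hP0 : 0 < P0) :
    ∃ C : ℝ, 1 ≤ C ∧ ∀ (s : Fin N → ℝ) (t : Pl → Fin N → ℝ), (∀ i, 0 < s i) →
      (∀ v i, 0 < t v i) → PiW s t = P0 → ∀ h : Fin N → Fin N → ℚ, IsMin M s t h →
      ∀ D : ℝ, C ≤ D → D * nS M s (h ⟨N - 2, by omega⟩) ≤ nS M s (h ⟨N - 1, by omega⟩) →
      ∃ (θ : ℝ) (s2 : Fin N → ℝ), 0 < θ ∧ (∀ i, 0 < s2 i) ∧ θ ^ N ≤ C / D ∧ PiW s2 t = P0 ∧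
        θ ^ N * nS M s (h ⟨N - 1, by omega⟩) =
          (∏ j, nS M s (h j)) * nS M s (h ⟨N - 2, by omega⟩) ∧
        (∀ i, θ / nS M s (h ⟨N - 1, by omega⟩) * s i ≤ s2 i ∧
          s2 i ≤ θ / nS M s (h ⟨0, by omega⟩) * s i) ∧
        (∃ f : Fin (N - 1) → Fin N → ℚ, LinearIndependent ℚ f ∧
          ∀ j, f j ∈ Gam M t ∧ nS M s2 (f j) ≤ C * θ) ∧
        ∀ X ∈ Gam M t, nS M s2 X ≤ 1 → X ∈ spB h (N - 1) := by
  obtain ⟨c0, hc0, H1⟩ := gm1 (by omega : 1 ≤ N) M hM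
  obtain ⟨C2, hC2, H2⟩ := gm2 (by omega : 1 ≤ N) M hM
  obtain ⟨F, hF⟩ : ∃ F, F = (N.factorial : ℝ) := ⟨_, rfl⟩
  have hF0 : 0 < F := by
    rw [hF]; exact_mod_cast Nat.factorial_pos N
  obtain ⟨B, hB⟩ : ∃ B, B = C2 * P0 := ⟨_, rfl⟩
  obtain ⟨c, hc⟩ : ∃ c, c = c0 * P0 := ⟨_, rfl⟩
  have hB0 : 0 < B := by rw [hB]; exact mul_pos hC2 hP0
  have hcp : 0 < c := by rw [hc]; exact mul_pos hc0 hP0
  obtain ⟨δ, hδ⟩ : ∃ δ, δ = min 1 (c / (2 * F)) := ⟨_, rfl⟩
  have hδ0 : 0 < δ := by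
    rw [hδ]; exact lt_min one_pos (div_pos hcp (by linarith))
  have hδ1 : δ ≤ 1 := by rw [hδ]; exact min_le_left _ _
  have hδ2 : δ ≤ c / (2 * F) := by rw [hδ]; exact min_le_right _ _
  obtain ⟨C, hC⟩ : ∃ C, C = 1 + B + B / δ ^ N + B / c * F ^ (N - 1) := ⟨_, rfl⟩
  have hp2 : 0 < B / δ ^ N := div_pos hB0 (pow_pos hδ0 _)
  have hp3 : 0 < B / c * F ^ (N - 1) := mul_pos (div_pos hB0 hcp) (pow_pos hF0 _)
  have hC1 : 1 ≤ C := by rw [hC]; linarith
  have hCB : B ≤ C := by rw [hC]; linarith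
  have hCB2 : B / δ ^ N ≤ C := by rw [hC]; linarith
  have hCB3 : B / c * F ^ (N - 1) ≤ C := by rw [hC]; linarith
  clear hC
  refine ⟨C, hC1, ?_⟩
  intro s t hs ht hPi h hmin D hCD hgap
  obtain ⟨a, ha⟩ : ∃ a : Fin N, a = ⟨N - 2, by omega⟩ := ⟨_, rfl⟩
  obtain ⟨b, hb⟩ : ∃ b : Fin N, b = ⟨N - 1, by omega⟩ := ⟨_, rfl⟩
  rw [← ha, ← hb] at hgap
  rw [← ha, ← hb]
  have hav : a.val = N - 2 := by rw [ha]
  have hbv : b.val = N - 1 := by rw [hb]
  clear ha hb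
  have hind := hmin.indep
  have hν0 : ∀ j, 0 < nS M s (h j) := fun j => nS_pos M hM s hs (h j) (hind.ne_zero j)
  have hD0 : 0 < D := by linarith
  have hprodle : ∏ j, nS M s (h j) ≤ B := by
    have := H2 s t hs ht h hmin
    rwa [hPi, ← hB] at this
  have hprodge : c ≤ ∏ j, nS M s (h j) := by
    have := H1 s t hs ht h hind hmin.mem
    rwa [hPi, ← hc] at this
  obtain ⟨θ, ρ, hθ0, hθN, hθD, hθδ, hρ0, hρanti, hρprod, hρν, hρb, hρle⟩ :=
    davRho hN (fun j => nS M s (h j)) hν0 hmin.mono a b hav hbv D B δ hD0 hB0 hδ0 hgap hprodle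
      (hCB2.trans hCD)
  obtain ⟨π, hπ⟩ := dl (M 0) (hM 0) s hs h hind
  have key := davKey hN M s t hs h hmin ρ hρ0 hρanti π hπ
  rw [← hF] at key
  have hid := davId hN θ _ _ _ (hν0 a) (hν0 b) hθN
  have hE : 0 < θ * nS M s (h b) / nS M s (h a) := div_pos (mul_pos hθ0 (hν0 b)) (hν0 a)
  have hPi2 : PiW (fun i => ρ (π.symm i) * s i) t = P0 := by
    rw [← hPi]
    unfold PiW
    rw [Finset.prod_mul_distrib, Equiv.prod_comp π.symm ρ, hρprod, one_mul]
  have hs20 : ∀ i, 0 < ρ (π.symm i) * s i := fun i => mul_pos (hρ0 _) (hs i)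
  obtain ⟨s2, hs2⟩ : ∃ s2 : Fin N → ℝ, s2 = fun i => ρ (π.symm i) * s i := ⟨_, rfl⟩
  rw [← hs2] at key hPi2
  have hs20' : ∀ i, 0 < s2 i := by rw [hs2]; exact hs20
  have hbig : ∀ X ∈ Gam M t, X ∉ spB h (N - 1) →
      θ * nS M s (h b) / nS M s (h a) ≤ F * nS M s2 X := by
    intro X hX hX2
    rw [← hρb]
    apply key X hX b
    · have : b.val + 1 = N := by omega
      rw [this, davSpTop h hind]
      trivial
    · rw [hbv]; exact hX2
  refine ⟨θ, s2, hθ0, hs20', ?_, hPi2, ?_, ?_, ?_, ?_⟩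
  · exact hθD.trans (div_le_div_of_nonneg_right hCB hD0.le)
  · rw [hθN, div_mul_cancel₀ _ (hν0 b).ne']
  · intro i
    rw [hs2]
    exact ⟨mul_le_mul_of_nonneg_right (hρle _).1 (hs i).le,
      mul_le_mul_of_nonneg_right (hρle _).2 (hs i).le⟩
  · obtain ⟨g, hg⟩ := exists_minima (by omega : 1 ≤ N) M hM s2 hs20' t ht
    have hgi := hg.indep
    have hμ0 : ∀ j, 0 < nS M s2 (g j) := fun j => nS_pos M hM s2 hs20' (g j) (hgi.ne_zero j)
    have hμm : Monotone fun j => nS M s2 (g j) := hg.mono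
    have hμprod : ∏ j, nS M s2 (g j) ≤ B := by
      have := H2 s2 t hs20' ht g hg
      rwa [hPi2, ← hB] at this
    have hμlow : ∀ j, θ / F ≤ nS M s2 (g j) := by
      intro j
      obtain ⟨k, hk1, hk2⟩ := davIdx h hind (g j) (hgi.ne_zero j)
      have h1 := key (g j) (hg.mem j) k hk1 hk2
      rw [div_le_iff₀' hF0]
      exact (hρν k).trans h1
    have hμb : θ * nS M s (h b) / nS M s (h a) ≤ F * nS M s2 (g b) := by
      have h1 : ∃ i, g i ∉ spB h (N - 1) := by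
        by_contra hcon
        have hcon' : ∀ i, g i ∈ spB h (N - 1) := fun i => by
          by_contra h3
          exact hcon ⟨i, h3⟩
        have h2 : (⊤ : Submodule ℚ (Fin N → ℚ)) ≤ spB h (N - 1) := by
          rw [← davSpTop g hgi]
          unfold spB
          rw [Submodule.span_le]
          rintro x ⟨i, -, rfl⟩
          exact hcon' i
        have h4 := davNotMem h hind b
        rw [hbv] at h4
        exact h4 (h2 trivial)
      obtain ⟨i, hi⟩ := h1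
      refine (hbig (g i) (hg.mem i) hi).trans ?_
      apply mul_le_mul_of_nonneg_left _ hF0.le
      apply hμm
      rw [Fin.le_def]
      have := i.2
      omega
    have hba : a ≠ b := by
      intro h1
      have h2 := congrArg Fin.val h1
      omega
    have hμa := davMuA hN (fun j => nS M s2 (g j)) a b hba hμ0 F θ _ B c _ hF0 hθ0 hE hcp
      hμprod hμlow hμb hid hprodge
    refine ⟨fun j => g (Fin.castLE (by omega) j), ?_, ?_⟩
    · exact hgi.comp _ (Fin.castLE_injective _)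
    · intro j
      refine ⟨hg.mem _, ?_⟩
      have h1 : nS M s2 (g (Fin.castLE (by omega) j)) ≤ nS M s2 (g a) := by
        apply hμm
        rw [Fin.le_def]
        have := j.2
        simp only [Fin.val_castLE]
        omega
      refine (h1.trans hμa).trans ?_
      exact mul_le_mul_of_nonneg_right hCB3 hθ0.le
  · intro X hX hX1
    by_contra hcon
    have h1 := hbig X hX hcon
    have h2 : θ * nS M s (h b) / nS M s (h a) ≤ F := by
      refine h1.trans ?_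
      calc F * nS M s2 X ≤ F * 1 := mul_le_mul_of_nonneg_left hX1 hF0.le
        _ = F := mul_one F
    exact davEnd hN F θ _ c _ δ hF0 hθ0 hcp hid hprodge h2 hθδ hδ1 hδ2

end Pool.Agent.SubT
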