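import Mathlib

/-!
Definitions for the parametric Subspace theorem over Q with the places inf, 2, 3
(text: team-store MP_e27144_an_pr_growth_helper66.md). Author: helper66.
-/

namespace Pool.Agent.SubT

open scoped BigOperators

/-- The three places: 0 = real, 1 = 2-adic, 2 = 3-adic. -/
abbrev Pl := Fin 3

/-- The absolute value at a place. -/
noncomputable def av (v : Pl) (x : ℚ) : ℝ :=
  if v = 0 then |(x : ℝ)| else if v = 1 then ((padicNorm 2 x : ℚ) : ℝ)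
  else ((padicNorm 3 x : ℚ) : ℝ)

/-- `x` is in `Z[1/6]`. -/
def InR (x : ℚ) : Prop := ∃ k : ℕ, ∃ z : ℤ, (6 : ℚ) ^ k * x = (z : ℚ)

/-- A vector with entries in `Z[1/6]`. -/
def InRn {ι : Type*} (x : ι → ℚ) : Prop := ∀ i, InR (x i)

/-- The linear forms of a system: `L_(v,i)(x)`. -/
def lin {n : ℕ} (M : Pl → Matrix (Fin n) (Fin n) ℚ) (v : Pl) (i : Fin n) (x : Fin n → ℚ) : ℚ :=
  (M v).mulVec x i

/-- The solutions of a system with exponents `c` and parameter `Q`. -/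
def Sol {n : ℕ} (M : Pl → Matrix (Fin n) (Fin n) ℚ) (c : Pl → Fin n → ℝ) (Q : ℝ) :
    Set (Fin n → ℚ) :=
  {x | InRn x ∧ ∀ v i, av v (lin M v i x) ≤ Q ^ (c v i)}

/-- The span of the solutions. -/
def spSol {n : ℕ} (M : Pl → Matrix (Fin n) (Fin n) ℚ) (c : Pl → Fin n → ℝ) (Q : ℝ) :
    Submodule ℚ (Fin n → ℚ) :=
  Submodule.span ℚ (Sol M c Q)

/-! ### polynomials -/

/-- Sum of the absolute values of the coefficients. -/
noncomputable def nrm {σ : Type*} (P : MvPolynomial σ ℤ) : ℝ :=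
  ∑ m ∈ P.support, |((P.coeff m : ℤ) : ℝ)|

/-- Hasse derivative: the coefficient of `T^μ` in `P(X+T)`. -/
noncomputable def hd {σ R : Type*} [Fintype σ] [CommSemiring R] (μ : σ →₀ ℕ)
    (P : MvPolynomial σ R) : MvPolynomial σ R :=
  ∑ m ∈ P.support, MvPolynomial.monomial (m - μ) ((∏ i, (((m i).choose (μ i) : ℕ) : R)) * P.coeff m)

/-- Translation: `P(ξ + X)`. -/
noncomputable def tc {σ : Type*} (ξ : σ → ℚ) (P : MvPolynomial σ ℤ) : MvPolynomial σ ℚ :=
  MvPolynomial.aeval (fun h => (MvPolynomial.C (ξ h) + MvPolynomial.X h : MvPolynomial σ ℚ)) P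

/-- All monomials have weight at least `θ`. -/
def OrdGe {σ R : Type*} [Fintype σ] [CommSemiring R] (w : σ → ℝ) (θ : ℝ)
    (F : MvPolynomial σ R) : Prop :=
  ∀ m ∈ F.support, θ ≤ ∑ i, w i * ((m i : ℕ) : ℝ)

/-- The exponents in Roth's lemma. -/
noncomputable def om : ℕ → ℝ → ℝ
  | 0, _ => 1
  | m + 1, ε => min (om m (ε ^ 2 / 12) / 2) (ε ^ 2 / 24)

/-- `P` is homogeneous of degree `r h` in the block `h`. -/
def HomB {m n : ℕ} {R : Type*} [CommSemiring R] (r : Fin m → ℕ)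
    (P : MvPolynomial (Fin m × Fin n) R) : Prop :=
  ∀ J ∈ P.support, ∀ h, ∑ k, J (h, k) = r h

/-- The linear form `L_i` in the variables of block `h`. -/
noncomputable def lfP {m n : ℕ} (A : Matrix (Fin n) (Fin n) ℚ) (h : Fin m) (i : Fin n) :
    MvPolynomial (Fin m × Fin n) ℚ :=
  ∑ k, MvPolynomial.C (A i k) * MvPolynomial.X (h, k)

/-- `P` is an auxiliary polynomial (conclusion of the theorem of section 2). -/
def IsAux {m n : ℕ} (M : Pl → Matrix (Fin n) (Fin n) ℚ) (C0 ε : ℝ) (r : Fin m → ℕ)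
    (P : MvPolynomial (Fin m × Fin n) ℤ) : Prop :=
  P ≠ 0 ∧ HomB r P ∧ nrm P ≤ C0 ^ (∑ h, r h) ∧
    ∀ v : Pl, ∃ G : MvPolynomial (Fin m × Fin n) ℚ,
      HomB r G ∧
      (∀ J ∈ G.support, ∀ i, |∑ h, ((J (h, i) : ℕ) : ℝ) / (r h : ℝ) - (m : ℝ) / (n : ℝ)| ≤ ε * m) ∧
      (∀ J, av v (G.coeff J) ≤ C0 ^ (∑ h, r h)) ∧
      MvPolynomial.map (Int.castRingHom ℚ) P =
        MvPolynomial.aeval (fun hk : Fin m × Fin n => lfP (M v) hk.1 hk.2) G

/-- The polynomial `F(b,s) = P(X_h = sum_j b_(h,j) g_(h,j) + s_h e_(a h))`. -/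
noncomputable def FP {m n : ℕ} (g : Fin m → Fin n → Fin (n + 1) → ℚ) (a : Fin m → Fin (n + 1))
    (P : MvPolynomial (Fin m × Fin (n + 1)) ℤ) : MvPolynomial ((Fin m × Fin n) ⊕ Fin m) ℚ :=
  MvPolynomial.aeval (fun hk : Fin m × Fin (n + 1) =>
    ((∑ j, MvPolynomial.C (g hk.1 j hk.2) * MvPolynomial.X (Sum.inl (hk.1, j))) +
      (if hk.2 = a hk.1 then MvPolynomial.X (Sum.inr hk.1) else 0) :
      MvPolynomial ((Fin m × Fin n) ⊕ Fin m) ℚ)) P

/-- The polynomial `E(P)`: `X_(h,a h)` is replaced by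
`X_(h,a h) - sum_(k ≠ a h) (y_(h,k)/y_(h,a h)) X_(h,k)`. -/
noncomputable def EP {m n : ℕ} (y : Fin m → Fin n → ℤ) (a : Fin m → Fin n)
    (P : MvPolynomial (Fin m × Fin n) ℤ) : MvPolynomial (Fin m × Fin n) ℚ :=
  MvPolynomial.aeval (fun hk : Fin m × Fin n =>
    (if hk.2 = a hk.1 then
        MvPolynomial.X (hk.1, a hk.1) - ∑ k ∈ Finset.univ.erase (a hk.1),
          MvPolynomial.C ((y hk.1 k : ℚ) / (y hk.1 (a hk.1) : ℚ)) * MvPolynomial.X (hk.1, k)
      else MvPolynomial.X hk : MvPolynomial (Fin m × Fin n) ℚ)) P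

/-- Property (O): every monomial of `E(P)` has weight at least 1. -/
def PropO {m n : ℕ} (r : Fin m → ℕ) (y : Fin m → Fin n → ℤ) (a : Fin m → Fin n)
    (P : MvPolynomial (Fin m × Fin n) ℤ) : Prop :=
  ∀ J ∈ (EP y a P).support, 1 ≤ ∑ h, ((J (h, a h) : ℕ) : ℝ) / (r h : ℝ)

/-! ### geometry of numbers -/

/-- The lattice `Gamma`. Only `t 1` and `t 2` matter. -/
def Gam {n : ℕ} (M : Pl → Matrix (Fin n) (Fin n) ℚ) (t : Pl → Fin n → ℝ) : Set (Fin n → ℚ) :=
  {x | InRn x ∧ ∀ v : Pl, v ≠ 0 → ∀ i, av v (lin M v i x) ≤ t v i}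

/-- The norm `max_i s_i |L_(inf,i)(x)|`. -/
noncomputable def nS {n : ℕ} (M : Pl → Matrix (Fin n) (Fin n) ℚ) (s : Fin n → ℝ)
    (x : Fin n → ℚ) : ℝ :=
  ⨆ i, s i * av 0 (lin M 0 i x)

/-- The normalising product. -/
noncomputable def PiW {n : ℕ} (s : Fin n → ℝ) (t : Pl → Fin n → ℝ) : ℝ :=
  (∏ i, s i) / ∏ i, (t 1 i * t 2 i)

/-- The span of the vectors before `j`. -/
def spB {n : ℕ} (g : Fin n → Fin n → ℚ) (j : ℕ) : Submodule ℚ (Fin n → ℚ) :=
  Submodule.span ℚ {x | ∃ i : Fin n, i.val < j ∧ x = g i}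

/-- `g` realises the successive minima of `Gamma`. -/
structure IsMin {n : ℕ} (M : Pl → Matrix (Fin n) (Fin n) ℚ) (s : Fin n → ℝ)
    (t : Pl → Fin n → ℝ) (g : Fin n → Fin n → ℚ) : Prop where
  indep : LinearIndependent ℚ g
  mem : ∀ j, g j ∈ Gam M t
  mono : Monotone fun j => nS M s (g j)
  least : ∀ j : Fin n, ∀ x ∈ Gam M t, x ∉ spB g j.val → nS M s (g j) ≤ nS M s x

/-! ### compounds -/

/-- The `p`-subsets of `Fin n`, numbered. -/
noncomputable def subEq (n p : ℕ) : {σ : Finset (Fin n) // σ.card = p} ≃ Fin (n.choose p) :=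
  Fintype.equivFinOfCardEq (by
    rw [Fintype.card_finset_len, Fintype.card_fin])

/-- The `a`-th element of the `σ`-th `p`-subset. -/
noncomputable def el {n p : ℕ} (σ : Fin (n.choose p)) (a : Fin p) : Fin n :=
  ((subEq n p).symm σ).1.orderEmbOfFin ((subEq n p).symm σ).2 a

/-- The wedge of `p` vectors in coordinates. -/
noncomputable def wd {n p : ℕ} (x : Fin p → Fin n → ℚ) : Fin (n.choose p) → ℚ :=
  fun σ => Matrix.det (fun a b : Fin p => x b (el σ a))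

/-- The compound matrix. -/
noncomputable def cmp {n : ℕ} (p : ℕ) (A : Matrix (Fin n) (Fin n) ℚ) :
    Matrix (Fin (n.choose p)) (Fin (n.choose p)) ℚ :=
  fun σ τ => Matrix.det (fun a b : Fin p => A (el σ a) (el τ b))

/-- The products `lam_tau`. -/
noncomputable def prodSub {n p : ℕ} (lam : Fin n → ℝ) (τ : Fin (n.choose p)) : ℝ :=
  ∏ a, lam (el τ a)

/-! ### the circle -/

/-- `L(a,b) = a log 2 + b log 3`. -/
noncomputable def LL (a b : ℕ) : ℝ := a * Real.log 2 + b * Real.log 3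

/-- The exponent arrays of block degrees `r`. -/
def JJ {m : ℕ} (n : ℕ) (r : Fin m → ℕ) : Finset (Fin m → Fin n → ℕ) :=
  Fintype.piFinset (fun h => Finset.piAntidiag (Finset.univ : Finset (Fin n)) (r h))

/-- Substitution of integral linear forms, `X_(h,k) = sum_i B k i * Y_(h,i)`. -/
noncomputable def subZ {m n : ℕ} (B : Matrix (Fin n) (Fin n) ℤ)
    (P : MvPolynomial (Fin m × Fin n) ℤ) : MvPolynomial (Fin m × Fin n) ℤ :=
  MvPolynomial.aeval (fun hk : Fin m × Fin n =>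
    (∑ i, MvPolynomial.C (B hk.2 i) * MvPolynomial.X (hk.1, i) : MvPolynomial (Fin m × Fin n) ℤ)) P

/-- The weighted norm of a polynomial at a place. -/
noncomputable def wn {σ : Type*} [Fintype σ] (v : Pl) (ρ : σ → ℝ) (F : MvPolynomial σ ℚ) : ℝ :=
  ∑ m ∈ F.support, av v (F.coeff m) * ∏ i, ρ i ^ (m i)

/-- the weights of the compound -/
noncomputable def sC {n : ℕ} (p : ℕ) (s : Fin n → ℝ) : Fin (n.choose p) → ℝ :=
  fun σ => ∏ a : Fin p, s (el σ a)

/-- the bounds of the compound -/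
noncomputable def tC {n : ℕ} (p : ℕ) (t : Pl → Fin n → ℝ) : Pl → Fin (n.choose p) → ℝ :=
  fun v σ => p.factorial * ∏ a : Fin p, t v (el σ a)

/-- the compound system -/
noncomputable def MC {n : ℕ} (p : ℕ) (M : Pl → Matrix (Fin n) (Fin n) ℚ) :
    Pl → Matrix (Fin (n.choose p)) (Fin (n.choose p)) ℚ :=
  fun v => cmp p (M v)

/-- the denominator part: `A_q = log max(1,|q|_2) + log max(1,|q|_3)` -/
noncomputable def Aq (q : ℚ) : ℝ := Real.log (max 1 (av 1 q)) + Real.log (max 1 (av 2 q))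

/-- `n = (a,b)` is near `q`: `2^a 3^b q` is an integer at distance less than `1/36` from
`2^a 3^b x`. -/
def NearAt (x : ℝ) (a b : ℕ) (q : ℚ) : Prop :=
  (∃ z : ℤ, (2 : ℚ) ^ a * 3 ^ b * q = (z : ℚ)) ∧ (2 : ℝ) ^ a * 3 ^ b * |x - (q : ℝ)| < 1 / 36

/-- closed and invariant under multiplication by `m` for all `m` in a set of multipliers -/
def InvSet (S : Set ℕ) (X : Set (AddCircle (1 : ℝ))) : Prop :=
  IsClosed X ∧ ∀ m ∈ S, ∀ x ∈ X, m • x ∈ X

end Pool.Agent.SubT
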