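import Pool.Agent.SubT.DimC
import Pool.Agent.SubT.Dim1

/-! Module DIM2. Text: team-store MP_e27144_an_pr_growth_helper66.md.
HINT: section 11, C2 (through dim_main or box_dim; Dirichlet pigeonhole in the torus; volume is the product Haar measure, preserved by translations). -/

namespace Pool.Agent.SubT

open scoped BigOperators ENNReal

open MeasureTheory Set Filter Topology

private instance DIM2_fact : Fact ((0 : ℝ) < 1) := ⟨one_pos⟩

private lemma DIM2_prob1 : IsProbabilityMeasure (volume : Measure (AddCircle (1 : ℝ))) :=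
  ⟨by rw [AddCircle.measure_univ]; simp⟩

private lemma DIM2_prob (d : ℕ) :
    IsProbabilityMeasure (volume : Measure (Fin d → AddCircle (1 : ℝ))) := by
  haveI := DIM2_prob1
  rw [volume_pi]
  infer_instance

/-- close points from equal cells -/
private lemma DIM2_cell1 (K : ℕ) (hK : 1 ≤ K) : ∃ c : AddCircle (1 : ℝ) → Fin K,
    ∀ x y, c x = c y → ‖x - y‖ ≤ 1 / (K : ℝ) := by
  have hK0 : (0 : ℝ) < K := by exact_mod_cast hK
  let val : AddCircle (1 : ℝ) → ℝ := fun x => (AddCircle.equivIco (1 : ℝ) 0 x : ℝ)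
  have hv0 : ∀ x, 0 ≤ val x := fun x => (AddCircle.equivIco (1 : ℝ) 0 x).2.1
  have hv1 : ∀ x, val x < 1 := fun x => by
    have := (AddCircle.equivIco (1 : ℝ) 0 x).2.2
    simpa using this
  have hvx : ∀ x, ((val x : ℝ) : AddCircle (1 : ℝ)) = x := fun x => AddCircle.coe_equivIco
  have hfl : ∀ x, ⌊(K : ℝ) * val x⌋₊ < K := by
    intro x
    rw [Nat.floor_lt (mul_nonneg hK0.le (hv0 x))]
    calc (K : ℝ) * val x < K * 1 := mul_lt_mul_of_pos_left (hv1 x) hK0
      _ = K := mul_one _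
  refine ⟨fun x => ⟨⌊(K : ℝ) * val x⌋₊, hfl x⟩, fun x y hxy => ?_⟩
  have h1 : ⌊(K : ℝ) * val x⌋₊ = ⌊(K : ℝ) * val y⌋₊ := congrArg Fin.val hxy
  have h2 : |(K : ℝ) * val x - K * val y| < 1 := by
    have a1 := Nat.floor_le (mul_nonneg hK0.le (hv0 x))
    have a2 := Nat.lt_floor_add_one ((K : ℝ) * val x)
    have a3 := Nat.floor_le (mul_nonneg hK0.le (hv0 y))
    have a4 := Nat.lt_floor_add_one ((K : ℝ) * val y)
    rw [h1] at a1 a2
    rw [abs_lt]
    constructor <;> linarith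
  have h3 : x - y = ((val x - val y : ℝ) : AddCircle (1 : ℝ)) := by
    rw [AddCircle.coe_sub, hvx, hvx]
  have h4 : ‖((val x - val y : ℝ) : AddCircle (1 : ℝ))‖ ≤ |val x - val y| := by
    have := AddCircle.norm_eq (1 : ℝ) (x := val x - val y)
    rw [this]
    simp only [inv_one, one_mul, mul_one]
    exact round_le _ 0 |>.trans (by simp)
  rw [h3]
  refine h4.trans ?_
  rw [le_div_iff₀ hK0]
  have h5 : |val x - val y| * K = |(K : ℝ) * val x - K * val y| := by
    rw [← mul_sub, abs_mul, abs_of_pos hK0, mul_comm]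
  rw [h5]
  exact h2.le

private lemma DIM2_cell (d K : ℕ) (hK : 1 ≤ K) : ∃ c : (Fin d → AddCircle (1 : ℝ)) → (Fin d → Fin K),
    ∀ x y, c x = c y → ‖x - y‖ ≤ 1 / (K : ℝ) := by
  obtain ⟨c, hc⟩ := DIM2_cell1 K hK
  refine ⟨fun x i => c (x i), fun x y h => ?_⟩
  rw [pi_norm_le_iff_of_nonneg (by positivity)]
  intro i
  exact hc _ _ (congrFun h i)

/-- DIM2: no Hölder (in the mean) coding of a rotation of a torus. -/
theorem no_coding {d : ℕ} (α β : Fin d → AddCircle (1 : ℝ))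
    (φ : (Fin d → AddCircle (1 : ℝ)) → AddCircle (1 : ℝ)) (hφ : Measurable φ)
    (h2 : ∀ᵐ θ, φ (θ + α) = (2 : ℕ) • φ θ) (h3 : ∀ᵐ θ, φ (θ + β) = (3 : ℕ) • φ θ)
    (C s : ℝ) (hs : 0 < s) (hreg : ∀ t : Fin d → AddCircle (1 : ℝ),
      ∫ θ, ‖φ (θ + t) - φ θ‖ ≤ C * ‖t‖ ^ s) :
    ∃ x, (Measure.map φ volume) {x} ≠ 0 := by
  by_contra hcon
  push Not at hcon
  haveI := DIM2_prob d
  have htr : ∀ t : Fin d → AddCircle (1 : ℝ),
      MeasurePreserving (fun θ : Fin d → AddCircle (1 : ℝ) => θ + t) volume volume :=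
    fun t => measurePreserving_add_right volume t
  set μ := Measure.map φ (volume : Measure (Fin d → AddCircle (1 : ℝ))) with hμ
  haveI : IsProbabilityMeasure μ := Measure.isProbabilityMeasure_map hφ.aemeasurable
  have hpres : ∀ (m : ℕ) (t : Fin d → AddCircle (1 : ℝ)), (∀ᵐ θ, φ (θ + t) = m • φ θ) →
      MeasurePreserving (fun x : AddCircle (1 : ℝ) => m • x) μ μ := by
    intro m t h
    have hm : Measurable (fun x : AddCircle (1 : ℝ) => m • x) := (continuous_nsmul m).measurable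
    refine ⟨hm, ?_⟩
    rw [hμ, Measure.map_map hm hφ]
    have e1 : ((fun x : AddCircle (1 : ℝ) => m • x) ∘ φ) =ᵐ[volume] fun θ => φ (θ + t) := by
      filter_upwards [h] with θ hθ
      exact hθ.symm
    rw [Measure.map_congr e1]
    have e2 : (fun θ => φ (θ + t)) = φ ∘ (fun θ => θ + t) := rfl
    rw [e2, ← Measure.map_map hφ (htr t).measurable, (htr t).map_eq]
  have hm2 := hpres 2 α h2
  have hm3 := hpres 3 β h3
  -- iterates
  have hit : ∀ a b : ℕ, ∀ᵐ θ, φ (θ + (a • α + b • β)) = (2 ^ a * 3 ^ b : ℕ) • φ θ := by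
    have hα : ∀ a : ℕ, ∀ᵐ θ, φ (θ + a • α) = (2 ^ a : ℕ) • φ θ := by
      intro a
      induction a with
      | zero => exact Eventually.of_forall (fun θ => by simp)
      | succ a ih =>
        have h4 := (htr (a • α)).quasiMeasurePreserving.ae h2
        filter_upwards [ih, h4] with θ e1 e2
        rw [succ_nsmul, ← add_assoc, e2, e1, ← mul_nsmul', pow_succ]
        congr 1
        ring
    have hβ : ∀ b : ℕ, ∀ᵐ θ, φ (θ + b • β) = (3 ^ b : ℕ) • φ θ := by
      intro b
      induction b with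
      | zero => exact Eventually.of_forall (fun θ => by simp)
      | succ b ih =>
        have h4 := (htr (b • β)).quasiMeasurePreserving.ae h3
        filter_upwards [ih, h4] with θ e1 e2
        rw [succ_nsmul, ← add_assoc, e2, e1, ← mul_nsmul', pow_succ]
        congr 1
        ring
    intro a b
    have h4 := (htr (a • α)).quasiMeasurePreserving.ae (hβ b)
    filter_upwards [hα a, h4] with θ e1 e2
    rw [← add_assoc, e2, e1, ← mul_nsmul']
    congr 1
    ring
  -- the distance of two iterates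
  have hdist : ∀ a b a' b' : ℕ,
      ∫ x, ‖(2 ^ a * 3 ^ b : ℕ) • x - (2 ^ a' * 3 ^ b' : ℕ) • x‖ ∂μ ≤
        C * ‖(a • α + b • β) - (a' • α + b' • β)‖ ^ s := by
    intro a b a' b'
    have hmeas : Continuous (fun x : AddCircle (1 : ℝ) =>
        ‖(2 ^ a * 3 ^ b : ℕ) • x - (2 ^ a' * 3 ^ b' : ℕ) • x‖) := by fun_prop
    rw [hμ, integral_map hφ.aemeasurable hmeas.aestronglyMeasurable]
    set u := a • α + b • β with hu
    set u' := a' • α + b' • β with hu'
    have e1 : ∫ θ, ‖(2 ^ a * 3 ^ b : ℕ) • φ θ - (2 ^ a' * 3 ^ b' : ℕ) • φ θ‖ =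
        ∫ θ, ‖φ (θ + u) - φ (θ + u')‖ := by
      refine integral_congr_ae ?_
      filter_upwards [hit a b, hit a' b'] with θ f1 f2
      rw [f1, f2]
    have e2 : ∫ θ, ‖φ (θ + u) - φ (θ + u')‖ = ∫ θ, ‖φ (θ + (u - u')) - φ θ‖ := by
      have := integral_add_right_eq_self (μ := (volume : Measure (Fin d → AddCircle (1 : ℝ))))
        (fun θ => ‖φ (θ + (u - u')) - φ θ‖) u'
      rw [← this]
      refine integral_congr_ae (Eventually.of_forall (fun θ => ?_))
      show ‖φ (θ + u) - φ (θ + u')‖ = ‖φ (θ + u' + (u - u')) - φ (θ + u')‖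
      have : θ + u' + (u - u') = θ + u := by abel
      rw [this]
    rw [e1, e2]
    exact hreg _
  -- constants
  set C' : ℝ := |C| + 1 with hC'
  have hC1 : 1 ≤ C' := by rw [hC']; linarith [abs_nonneg C]
  have hC0 : 0 < C' := by linarith
  have hCC : C ≤ C' := by rw [hC']; linarith [le_abs_self C]
  set D : ℝ := 2 ^ d * C' ^ ((d : ℝ) / s) with hD
  have hD0 : 0 < D := by positivity
  have hD1 : 1 ≤ D := by
    rw [hD]
    have h5 : (1 : ℝ) ≤ 2 ^ d := one_le_pow₀ (by norm_num)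
    have h6 : (1 : ℝ) ≤ C' ^ ((d : ℝ) / s) := Real.one_le_rpow hC1 (by positivity)
    nlinarith
  obtain ⟨ε, hε0, hεlt, hF⟩ := box_dim μ hm2 hm3 hcon ((d : ℝ) / s + 1) (1 / D) (by positivity)
    (by positivity)
  have hε1 : ε ≤ 1 := by
    have : 1 / D ≤ 1 := by rw [div_le_one hD0]; exact hD1
    linarith
  have hεD : D * ε ≤ 1 := by
    have := mul_lt_mul_of_pos_left hεlt hD0
    rw [mul_one_div, div_self hD0.ne'] at this
    exact this.le
  set q : ℝ := (C' / ε) ^ (1 / s) with hq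
  have hCe : 1 ≤ C' / ε := by rw [le_div_iff₀ hε0]; linarith
  have hq1 : 1 ≤ q := Real.one_le_rpow hCe (by positivity)
  set K : ℕ := ⌈q⌉₊ with hK
  have hqK : q ≤ K := Nat.le_ceil q
  have hK1 : 1 ≤ K := by
    have : (1 : ℝ) ≤ K := hq1.trans hqK
    exact_mod_cast this
  have hK2 : (K : ℝ) ≤ 2 * q := by
    have := Nat.ceil_lt_add_one (show 0 ≤ q by linarith)
    linarith
  have hK0 : (0 : ℝ) < K := by exact_mod_cast hK1
  obtain ⟨c, hc⟩ := DIM2_cell d K hK1
  classical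
  let pt : ℕ × ℕ → (Fin d → AddCircle (1 : ℝ)) := fun p => p.1 • α + p.2 • β
  let ch : (Fin d → Fin K) → ℕ × ℕ := fun z =>
    if h : ∃ p, c (pt p) = z then h.choose else (0, 0)
  have hch : ∀ p, c (pt (ch (c (pt p)))) = c (pt p) := by
    intro p
    have h : ∃ p', c (pt p') = c (pt p) := ⟨p, rfl⟩
    have e : ch (c (pt p)) = h.choose := dif_pos h
    rw [e]
    exact h.choose_spec
  let F : Finset (ℕ × ℕ) := Finset.univ.image ch
  have hcard : (F.card : ℝ) ≤ ε ^ (-((d : ℝ) / s + 1)) := by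
    have c1 : F.card ≤ K ^ d := by
      refine Finset.card_image_le.trans ?_
      simp
    have c2 : (F.card : ℝ) ≤ (K : ℝ) ^ d := by exact_mod_cast c1
    refine c2.trans ?_
    have c3 : (K : ℝ) ^ d ≤ (2 * q) ^ d := pow_le_pow_left₀ hK0.le hK2 d
    refine c3.trans ?_
    have c4 : (2 * q) ^ d = D * ε ^ (-((d : ℝ) / s)) := by
      rw [mul_pow, hD, hq, ← Real.rpow_natCast ((C' / ε) ^ (1 / s)) d, ← Real.rpow_mul (by positivity),
        Real.div_rpow hC0.le hε0.le, Real.rpow_neg hε0.le]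
      have : 1 / s * (d : ℝ) = (d : ℝ) / s := by ring
      rw [this]
      ring
    rw [c4, neg_add, Real.rpow_add hε0, Real.rpow_neg_one]
    have c5 : 0 < ε ^ (-((d : ℝ) / s)) := Real.rpow_pos_of_pos hε0 _
    have c6 : D ≤ ε⁻¹ := by
      rw [le_inv_comm₀ hD0 hε0, ← one_div]
      exact hεlt.le
    nlinarith
  obtain ⟨a, b, hab⟩ := hF F hcard
  set p := ch (c (pt (a, b))) with hp
  have hpF : p ∈ F := Finset.mem_image.2 ⟨_, Finset.mem_univ _, rfl⟩
  have h5 := hab p hpF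
  have h6 := hdist a b p.1 p.2
  have h7 : ‖pt (a, b) - pt p‖ ≤ 1 / (K : ℝ) := hc _ _ (hch (a, b)).symm
  have h8 : C * ‖pt (a, b) - pt p‖ ^ s ≤ ε := by
    have k1 : ‖pt (a, b) - pt p‖ ^ s ≤ (1 / (K : ℝ)) ^ s :=
      Real.rpow_le_rpow (norm_nonneg _) h7 hs.le
    have k2 : (1 / (K : ℝ)) ^ s ≤ (1 / q) ^ s := by
      refine Real.rpow_le_rpow (by positivity) ?_ hs.le
      exact one_div_le_one_div_of_le (by linarith) hqK
    have k3 : (1 / q) ^ s = ε / C' := by
      rw [hq, Real.div_rpow (by norm_num) (by positivity), Real.one_rpow,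
        ← Real.rpow_mul (by positivity), one_div_mul_cancel hs.ne', Real.rpow_one]
      field_simp
    calc C * ‖pt (a, b) - pt p‖ ^ s ≤ C' * ‖pt (a, b) - pt p‖ ^ s :=
          mul_le_mul_of_nonneg_right hCC (by positivity)
      _ ≤ C' * (ε / C') := by
          refine mul_le_mul_of_nonneg_left ?_ hC0.le
          rw [← k3]; exact k1.trans k2
      _ = ε := by field_simp
  exact absurd (h6.trans h8) (not_le.2 h5)

end Pool.Agent.SubT
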