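import Pool.Agent.SubT.Growth

/-! Module DIMC. Text: team-store MP_e27144_an_pr_growth_helper66.md.
HINT: section 11, Borel-Cantelli. -/

namespace Pool.Agent.SubT

open scoped BigOperators ENNReal

open MeasureTheory Set Filter Topology

/-- If consecutive approximations with denominators `k j` are extremely good then the point is
rational. -/
lemma DIMC_rat (k : ℕ → ℕ) (hk1 : ∀ j, (2 : ℝ) ^ j ≤ Real.log (k j))
    (hk2 : ∀ j, 2 * Real.log (k j) ≤ Real.log (k (j + 1)))
    (y : ℝ) (p : ℕ → ℤ) (j0 : ℕ)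
    (hp : ∀ j, j0 ≤ j → |(k j : ℝ) * y - p j| < Real.exp (-(4 * Real.log (k (j + 1))))) :
    y = (p j0 : ℝ) / k j0 := by
  have hpos : ∀ j, (0 : ℝ) < Real.log (k j) := fun j => lt_of_lt_of_le (by positivity) (hk1 j)
  have hkpos : ∀ j, (0 : ℝ) < (k j : ℝ) := by
    intro j
    have h := hpos j
    rcases Nat.eq_zero_or_pos (k j) with h0 | h0
    · rw [h0] at h
      simp at h
    · exact_mod_cast h0
  have hkexp : ∀ j, (k j : ℝ) = Real.exp (Real.log (k j)) := fun j => (Real.exp_log (hkpos j)).symm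
  -- consecutive fractions agree
  have hcons : ∀ j, j0 ≤ j → (p j : ℝ) / k j = (p (j + 1) : ℝ) / k (j + 1) := by
    intro j hj
    have e1 := hp j hj
    have e2 := hp (j + 1) (by omega)
    have hT1 : 1 ≤ Real.log (k (j + 1)) := le_trans (one_le_pow₀ (by norm_num)) (hk1 (j + 1))
    have hT2 := hk2 (j + 1)
    have hT0 := hk2 j
    have b1 : (k (j + 1) : ℝ) * |(k j : ℝ) * y - p j| < 1 / 2 := by
      have : (k (j + 1) : ℝ) * |(k j : ℝ) * y - p j|
          ≤ Real.exp (Real.log (k (j + 1))) * Real.exp (-(4 * Real.log (k (j + 1)))) := by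
        rw [← hkexp]
        exact mul_le_mul_of_nonneg_left e1.le (hkpos _).le
      refine lt_of_le_of_lt this ?_
      rw [← Real.exp_add]
      have h3 : Real.exp (Real.log (k (j + 1)) + -(4 * Real.log (k (j + 1)))) ≤ Real.exp (-1) :=
        Real.exp_le_exp.mpr (by linarith)
      refine lt_of_le_of_lt h3 ?_
      rw [Real.exp_neg]
      have := Real.exp_one_gt_d9
      rw [inv_lt_comm₀ (Real.exp_pos 1) (by norm_num)]
      norm_num
      linarith
    have b2 : (k j : ℝ) * |(k (j + 1) : ℝ) * y - p (j + 1)| < 1 / 2 := by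
      have : (k j : ℝ) * |(k (j + 1) : ℝ) * y - p (j + 1)|
          ≤ Real.exp (Real.log (k j)) * Real.exp (-(4 * Real.log (k (j + 1 + 1)))) := by
        rw [← hkexp]
        exact mul_le_mul_of_nonneg_left e2.le (hkpos _).le
      refine lt_of_le_of_lt this ?_
      rw [← Real.exp_add]
      have h3 : Real.exp (Real.log (k j) + -(4 * Real.log (k (j + 1 + 1)))) ≤ Real.exp (-1) :=
        Real.exp_le_exp.mpr (by have := hpos j; linarith)
      refine lt_of_le_of_lt h3 ?_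
      rw [Real.exp_neg]
      have := Real.exp_one_gt_d9
      rw [inv_lt_comm₀ (Real.exp_pos 1) (by norm_num)]
      norm_num
      linarith
    have hint : |((p j * (k (j + 1) : ℤ) - p (j + 1) * (k j : ℤ) : ℤ) : ℝ)| < 1 := by
      have heq : ((p j * (k (j + 1) : ℤ) - p (j + 1) * (k j : ℤ) : ℤ) : ℝ)
          = (k j : ℝ) * ((k (j + 1) : ℝ) * y - p (j + 1))
            - (k (j + 1) : ℝ) * ((k j : ℝ) * y - p j) := by
        push_cast
        ring
      rw [heq]
      calc |(k j : ℝ) * ((k (j + 1) : ℝ) * y - p (j + 1))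
            - (k (j + 1) : ℝ) * ((k j : ℝ) * y - p j)|
          ≤ |(k j : ℝ) * ((k (j + 1) : ℝ) * y - p (j + 1))|
            + |(k (j + 1) : ℝ) * ((k j : ℝ) * y - p j)| := abs_sub _ _
        _ = (k j : ℝ) * |(k (j + 1) : ℝ) * y - p (j + 1)|
            + (k (j + 1) : ℝ) * |(k j : ℝ) * y - p j| := by
            rw [abs_mul, abs_mul, abs_of_pos (hkpos j), abs_of_pos (hkpos (j + 1))]
        _ < 1 := by linarith
    have hzero : p j * (k (j + 1) : ℤ) - p (j + 1) * (k j : ℤ) = 0 := by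
      have h1 : |p j * (k (j + 1) : ℤ) - p (j + 1) * (k j : ℤ)| < 1 := by
        have := hint
        rw [← Int.cast_abs] at this
        exact_mod_cast this
      exact Int.abs_lt_one_iff.mp h1
    rw [div_eq_div_iff (hkpos j).ne' (hkpos (j + 1)).ne']
    have : (p j * (k (j + 1) : ℤ) : ℤ) = p (j + 1) * (k j : ℤ) := by linarith
    exact_mod_cast this
  have hall : ∀ i, (p (j0 + i) : ℝ) / k (j0 + i) = (p j0 : ℝ) / k j0 := by
    intro i
    induction i with
    | zero => rfl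
    | succ i ih => rw [← ih, ← add_assoc, hcons (j0 + i) (by omega)]
  -- the limit
  by_contra hne
  have hd : 0 < |y - (p j0 : ℝ) / k j0| := abs_pos.mpr (sub_ne_zero.mpr hne)
  have hb : ∀ i : ℕ, |y - (p j0 : ℝ) / k j0| ≤ Real.exp (-((i : ℕ) : ℝ)) := by
    intro i
    have e1 := hp (j0 + i) (by omega)
    rw [← hall i]
    have hk0 := hkpos (j0 + i)
    have heq : y - (p (j0 + i) : ℝ) / k (j0 + i)
        = ((k (j0 + i) : ℝ) * y - p (j0 + i)) / k (j0 + i) := by
      field_simp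
    rw [heq, abs_div, abs_of_pos hk0]
    have hk1' : (1 : ℝ) ≤ k (j0 + i) := by
      have : 0 < k (j0 + i) := by exact_mod_cast hk0
      exact_mod_cast this
    have h2i : (i : ℝ) ≤ Real.log (k (j0 + i + 1)) := by
      have h1 := hk1 (j0 + i + 1)
      have h2 : ((j0 + i + 1 : ℕ) : ℝ) ≤ (2 : ℝ) ^ (j0 + i + 1) := by
        have := (Nat.lt_two_pow_self (n := j0 + i + 1)).le
        exact_mod_cast this
      have h3 : (i : ℝ) ≤ ((j0 + i + 1 : ℕ) : ℝ) := by
        push_cast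
        have : (0 : ℝ) ≤ j0 := Nat.cast_nonneg _
        linarith
      linarith
    calc |(k (j0 + i) : ℝ) * y - p (j0 + i)| / k (j0 + i)
        ≤ |(k (j0 + i) : ℝ) * y - p (j0 + i)| := div_le_self (abs_nonneg _) hk1'
      _ ≤ Real.exp (-(4 * Real.log (k (j0 + i + 1)))) := e1.le
      _ ≤ Real.exp (-((i : ℕ) : ℝ)) := Real.exp_le_exp.mpr (by
          have := hpos (j0 + i + 1)
          linarith)
  have hlim : Tendsto (fun i : ℕ => Real.exp (-((i : ℕ) : ℝ))) atTop (𝓝 0) :=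
    Real.tendsto_exp_neg_atTop_nhds_zero.comp tendsto_natCast_atTop_atTop
  have := ge_of_tendsto' hlim hb
  linarith

/-- Markov plus growth. -/
lemma DIMC_meas (μ : Measure (AddCircle (1 : ℝ))) [IsProbabilityMeasure μ]
    (A c K : ℝ) (hA : 1 ≤ A) (hc : 0 < c) (hK : 0 < K) (k : ℕ) (T : ℝ) (hT : 1 ≤ T)
    (hint : ∫ x, ‖k • x‖ ∂μ < T ^ (-c))
    (hgr : μ {x | Real.exp (-(4 * (2 * T) ^ A)) ≤ ‖(k : ℤ) • x‖} ≤
        ENNReal.ofReal (K * (4 * (2 * T) ^ A) ^ (c / (2 * A))) * μ {x | 1 / 36 ≤ ‖(k : ℤ) • x‖}) :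
    μ {x | Real.exp (-(4 * (2 * T) ^ A)) ≤ ‖k • x‖} ≤
      ENNReal.ofReal (36 * K * 4 ^ (c / (2 * A)) * 2 ^ (c / 2) * T ^ (-(c / 2))) := by
  simp only [natCast_zsmul] at hgr
  refine le_trans hgr ?_
  have hcont : Continuous (fun x : AddCircle (1 : ℝ) => ‖k • x‖) := by fun_prop
  have hbdd : ∀ x : AddCircle (1 : ℝ), ‖k • x‖ ≤ 1 / 2 := by
    intro x
    have := AddCircle.norm_le_half_period (p := (1 : ℝ)) (x := k • x) one_ne_zero
    simpa using this
  have hintg : Integrable (fun x : AddCircle (1 : ℝ) => ‖k • x‖) μ := by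
    refine Integrable.mono' (integrable_const (1 / 2 : ℝ)) hcont.aestronglyMeasurable ?_
    refine Filter.Eventually.of_forall fun x => ?_
    rw [Real.norm_eq_abs, abs_of_nonneg (norm_nonneg _)]
    exact hbdd x
  have hmk := mul_meas_ge_le_integral_of_nonneg (μ := μ)
    (f := fun x : AddCircle (1 : ℝ) => ‖k • x‖) (Filter.Eventually.of_forall fun x => norm_nonneg _)
    hintg (1 / 36)
  have hreal : μ {x : AddCircle (1 : ℝ) | 1 / 36 ≤ ‖k • x‖} ≤ ENNReal.ofReal (36 * T ^ (-c)) := by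
    rw [← ofReal_measureReal]
    refine ENNReal.ofReal_le_ofReal ?_
    have := hmk
    linarith
  have hT0 : 0 < T := by linarith
  have hA0 : 0 < A := by linarith
  calc ENNReal.ofReal (K * (4 * (2 * T) ^ A) ^ (c / (2 * A))) * μ {x | 1 / 36 ≤ ‖k • x‖}
      ≤ ENNReal.ofReal (K * (4 * (2 * T) ^ A) ^ (c / (2 * A))) * ENNReal.ofReal (36 * T ^ (-c)) := by
        gcongr
    _ = ENNReal.ofReal (K * (4 * (2 * T) ^ A) ^ (c / (2 * A)) * (36 * T ^ (-c))) :=
        (ENNReal.ofReal_mul (by positivity)).symm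
    _ = _ := by
        congr 1
        rw [Real.mul_rpow (by norm_num) (by positivity), ← Real.rpow_mul (by positivity)]
        have hAe : A * (c / (2 * A)) = c / 2 := by
          field_simp
        rw [hAe, Real.mul_rpow (by norm_num) hT0.le]
        have hTT : T ^ (c / 2) * T ^ (-c) = T ^ (-(c / 2)) := by
          rw [← Real.rpow_add hT0]
          congr 1
          ring
        rw [← hTT]
        ring

/-- DIMC: Theorem C. -/
theorem dim_main (μ : Measure (AddCircle (1 : ℝ))) [IsProbabilityMeasure μ]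
    (h2 : MeasurePreserving (fun x => (2 : ℕ) • x) μ μ)
    (h3 : MeasurePreserving (fun x => (3 : ℕ) • x) μ μ) (hat : ∀ x, μ {x} = 0)
    (A c : ℝ) (hA : 1 ≤ A) (hc : 0 < c) (N0 : ℝ) :
    ∃ N ≥ N0, 1 ≤ N ∧ ∀ k : ℕ, N ≤ Real.log k → Real.log k ≤ N ^ A →
      (Real.log k) ^ (-c) ≤ ∫ x, ‖k • x‖ ∂μ := by
  by_contra hcon
  push Not at hcon
  have hA0 : 0 < A := by linarith
  choose f hf1 hf2 hf3 using hcon
  classical
  -- the sequence
  let N1 : ℝ := max N0 1
  let g : ℝ → ℕ := fun N => if h : N ≥ N0 ∧ 1 ≤ N then f N h.1 h.2 else 0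
  have hg : ∀ N, N1 ≤ N → N ≤ Real.log (g N) ∧ Real.log (g N) ≤ N ^ A ∧
      ∫ x, ‖(g N) • x‖ ∂μ < (Real.log (g N)) ^ (-c) := by
    intro N hN
    have h1 : N ≥ N0 := le_trans (le_max_left _ _) hN
    have h2 : 1 ≤ N := le_trans (le_max_right _ _) hN
    have : g N = f N h1 h2 := by
      show (if h : N ≥ N0 ∧ 1 ≤ N then f N h.1 h.2 else 0) = _
      rw [dif_pos ⟨h1, h2⟩]
    rw [this]
    exact ⟨hf1 N h1 h2, hf2 N h1 h2, hf3 N h1 h2⟩
  have hkex : ∀ G : ℝ → ℕ, ∀ M : ℝ, ∃ k : ℕ → ℕ, k 0 = G M ∧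
      ∀ j : ℕ, k (j + 1) = G (2 * Real.log ((k j : ℕ) : ℝ)) := by
    intro G M
    exact ⟨fun j => Nat.rec (motive := fun _ => ℕ) (G M)
      (fun _ m => G (2 * Real.log (m : ℝ))) j, rfl, fun _ => rfl⟩
  obtain ⟨k, hk0, hks⟩ := hkex g N1
  have hN1 : 1 ≤ N1 := le_max_right _ _
  have hkN : ∀ j, N1 ≤ Real.log (k j) := by
    intro j
    induction j with
    | zero => rw [hk0]; exact (hg N1 le_rfl).1
    | succ j ih =>
      rw [hks]
      have := (hg (2 * Real.log (k j)) (by linarith)).1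
      linarith
  have hk2 : ∀ j, 2 * Real.log (k j) ≤ Real.log (k (j + 1)) := by
    intro j
    rw [hks]
    exact (hg (2 * Real.log (k j)) (by have := hkN j; linarith)).1
  have hk3 : ∀ j, Real.log (k (j + 1)) ≤ (2 * Real.log (k j)) ^ A := by
    intro j
    rw [hks]
    exact (hg (2 * Real.log (k j)) (by have := hkN j; linarith)).2.1
  have hk4 : ∀ j, ∫ x, ‖(k j) • x‖ ∂μ < (Real.log (k j)) ^ (-c) := by
    intro j
    cases j with
    | zero => rw [hk0]; exact (hg N1 le_rfl).2.2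
    | succ j =>
      rw [hks]
      exact (hg (2 * Real.log (k j)) (by have := hkN j; linarith)).2.2
  have hk1 : ∀ j, (2 : ℝ) ^ j ≤ Real.log (k j) := by
    intro j
    induction j with
    | zero => have := hkN 0; simpa using le_trans hN1 this
    | succ j ih =>
      have := hk2 j
      rw [pow_succ]
      linarith
  obtain ⟨K, hK, hgrow⟩ := growth (c / (2 * A)) (by positivity)
  let K' : ℝ := 36 * K * 4 ^ (c / (2 * A)) * 2 ^ (c / 2)
  have hK' : 0 ≤ K' := by positivity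
  let r : ℝ := (2 : ℝ) ^ (-(c / 2))
  have hr0 : 0 < r := by positivity
  have hr1 : r < 1 := Real.rpow_lt_one_of_one_lt_of_neg (by norm_num) (by linarith)
  have hmeas : ∀ j, μ {x | Real.exp (-(4 * (2 * Real.log (k j)) ^ A)) ≤ ‖(k j) • x‖}
      ≤ ENNReal.ofReal (K' * r ^ j) := by
    intro j
    have hTj : 1 ≤ Real.log (k j) := le_trans hN1 (hkN j)
    have h4 : (1 : ℝ) ≤ (2 * Real.log (k j)) ^ A :=
      Real.one_le_rpow (by linarith) hA0.le
    have h1 := hgrow μ h2 h3 (k j : ℤ) (4 * (2 * Real.log (k j)) ^ A) (by linarith)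
    have h5 := DIMC_meas μ A c K hA hc hK (k j) (Real.log (k j)) hTj (hk4 j) h1
    refine le_trans h5 (ENNReal.ofReal_le_ofReal ?_)
    refine mul_le_mul_of_nonneg_left ?_ hK'
    have h6 : Real.log (k j) ^ (-(c / 2)) ≤ ((2 : ℝ) ^ j) ^ (-(c / 2)) :=
      Real.rpow_le_rpow_of_nonpos (by positivity) (hk1 j) (by linarith)
    refine le_trans h6 (le_of_eq ?_)
    show ((2 : ℝ) ^ j) ^ (-(c / 2)) = ((2 : ℝ) ^ (-(c / 2))) ^ j
    rw [← Real.rpow_natCast, ← Real.rpow_natCast, ← Real.rpow_mul (by norm_num),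
      ← Real.rpow_mul (by norm_num)]
    congr 1
    ring
  have hsum : (∑' j, μ {x | Real.exp (-(4 * (2 * Real.log (k j)) ^ A)) ≤ ‖(k j) • x‖}) ≠ ∞ := by
    have hs : Summable (fun j : ℕ => K' * r ^ j) :=
      (summable_geometric_of_lt_one hr0.le hr1).mul_left K'
    refine ne_top_of_le_ne_top ?_ (ENNReal.tsum_le_tsum hmeas)
    exact hs.tsum_ofReal_ne_top
  have hae := ae_eventually_notMem hsum
  have hcount : (Set.range (fun q : ℚ => (((q : ℝ)) : AddCircle (1 : ℝ)))).Countable :=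
    Set.countable_range _
  have hNS : NullSingletonClass μ := ⟨hat⟩
  have hnull : μ (Set.range (fun q : ℚ => (((q : ℝ)) : AddCircle (1 : ℝ)))) = 0 :=
    hcount.measure_zero μ
  have hae2 : ∀ᵐ x ∂μ, x ∉ Set.range (fun q : ℚ => (((q : ℝ)) : AddCircle (1 : ℝ))) :=
    measure_eq_zero_iff_ae_notMem.mp hnull
  have hfalse : ∀ᵐ x ∂μ, False := by
    filter_upwards [hae, hae2] with x hx hx2
    apply hx2
    obtain ⟨j0, hj0⟩ := Filter.eventually_atTop.mp hx
    obtain ⟨y, rfl⟩ := QuotientAddGroup.mk_surjective x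
    have hy := DIMC_rat k hk1 hk2 y (fun j => round ((k j : ℝ) * y)) j0 (by
      intro j hj
      have h := hj0 j hj
      replace h := not_le.mp h
      have hn : ‖(k j) • ((y : ℝ) : AddCircle (1 : ℝ))‖ = |(k j : ℝ) * y - round ((k j : ℝ) * y)| := by
        rw [← AddCircle.coe_nsmul, nsmul_eq_mul]
        exact UnitAddCircle.norm_eq
      have h' : |(k j : ℝ) * y - round ((k j : ℝ) * y)|
          < Real.exp (-(4 * (2 * Real.log (k j)) ^ A)) := by
        rw [← hn]
        exact h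
      refine lt_of_lt_of_le h' (Real.exp_le_exp.mpr ?_)
      have := hk3 j
      linarith)
    refine ⟨((round ((k j0 : ℝ) * y) : ℤ) : ℚ) / (k j0 : ℚ), ?_⟩
    show ((((((round ((k j0 : ℝ) * y) : ℤ) : ℚ) / (k j0 : ℚ) : ℚ)) : ℝ) : AddCircle (1 : ℝ))
      = ((y : ℝ) : AddCircle (1 : ℝ))
    congr 1
    push_cast
    exact hy.symm
  have := hfalse
  rw [Filter.eventually_false_iff_eq_bot, ae_eq_bot] at this
  exact IsProbabilityMeasure.ne_zero μ this

end Pool.Agent.SubT
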