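import Pool.Agent.SubT.Defs

/-! Module EVO. Text: team-store MP_e27144_an_pr_growth_helper66.md.
HINT: EP y a P = FP composed with the substitution s_h := X_(h,a h), b_(h,j) := linear form in X_(h,k), k != a h (matrix inverse of the coordinates k != a h of g_h,j; they are a basis of the hyperplane y_h.x = 0). Monomials: the exponent of X_(h,a h) is the exponent of s_h. -/

namespace Pool.Agent.SubT

open scoped BigOperators ENNReal

open MeasureTheory Set Filter Topology

section

variable {m n : ℕ} {a : Fin m → Fin (n + 1)}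

/-- the exponents of the variables `X_(h,a h)` are `e h` -/
def EVO_Ex (a : Fin m → Fin (n + 1)) (e : Fin m → ℕ)
    (F : MvPolynomial (Fin m × Fin (n + 1)) ℚ) : Prop :=
  ∀ J, F.coeff J ≠ 0 → ∀ h, J (h, a h) = e h

theorem EVO_sum {α : Type*} (s : Finset α) (f : α → MvPolynomial (Fin m × Fin (n + 1)) ℚ)
    (e : Fin m → ℕ) (h : ∀ i ∈ s, EVO_Ex a e (f i)) : EVO_Ex a e (∑ i ∈ s, f i) := by
  intro J hJ
  rw [MvPolynomial.coeff_sum] at hJ
  obtain ⟨i, hi, h1⟩ := Finset.exists_ne_zero_of_sum_ne_zero hJ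
  exact h i hi J h1

theorem EVO_mul {F G : MvPolynomial (Fin m × Fin (n + 1)) ℚ} {e e' : Fin m → ℕ}
    (hF : EVO_Ex a e F) (hG : EVO_Ex a e' G) : EVO_Ex a (fun h => e h + e' h) (F * G) := by
  classical
  intro J hJ h
  rw [MvPolynomial.coeff_mul] at hJ
  obtain ⟨⟨p, q⟩, hpq, h1⟩ := Finset.exists_ne_zero_of_sum_ne_zero hJ
  have hpq' : p + q = J := Finset.HasAntidiagonal.mem_antidiagonal.1 hpq
  have h2 := hF p (left_ne_zero_of_mul h1) h
  have h3 := hG q (right_ne_zero_of_mul h1) h
  show J (h, a h) = e h + e' h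
  rw [← h2, ← h3, ← hpq']
  rfl

theorem EVO_C (c : ℚ) : EVO_Ex a (fun _ => 0) (MvPolynomial.C c) := by
  classical
  intro J hJ h
  rw [MvPolynomial.coeff_C] at hJ
  by_cases h0 : 0 = J
  · rw [← h0]
    rfl
  · rw [if_neg h0] at hJ
    exact absurd rfl hJ

theorem EVO_pow {F : MvPolynomial (Fin m × Fin (n + 1)) ℚ} {e : Fin m → ℕ}
    (hF : EVO_Ex a e F) (k : ℕ) : EVO_Ex a (fun h => k * e h) (F ^ k) := by
  induction k with
  | zero =>
    have h1 := EVO_C (a := a) 1
    rw [MvPolynomial.C_1] at h1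
    simpa using h1
  | succ k ih =>
    rw [pow_succ]
    have h1 := EVO_mul ih hF
    have h2 : (fun h => (k + 1) * e h) = fun h => k * e h + e h := by
      funext h
      ring
    rw [h2]
    exact h1

theorem EVO_prod {α : Type*} (s : Finset α) (f : α → MvPolynomial (Fin m × Fin (n + 1)) ℚ)
    (e : α → Fin m → ℕ) (h : ∀ i ∈ s, EVO_Ex a (e i) (f i)) :
    EVO_Ex a (fun h => ∑ i ∈ s, e i h) (∏ i ∈ s, f i) := by
  classical
  induction s using Finset.induction_on with
  | empty =>
    have h1 := EVO_C (a := a) 1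
    rw [MvPolynomial.C_1] at h1
    simpa using h1
  | insert b s hb ih =>
    rw [Finset.prod_insert hb]
    have h1 := EVO_mul (h b (Finset.mem_insert_self _ _))
      (ih fun i hi => h i (Finset.mem_insert_of_mem hi))
    have h2 : (fun h => ∑ i ∈ insert b s, e i h) = fun h => e b h + ∑ i ∈ s, e i h := by
      funext h
      rw [Finset.sum_insert hb]
    rw [h2]
    exact h1

theorem EVO_X (x : Fin m × Fin (n + 1)) :
    EVO_Ex a (fun h => if x = (h, a h) then 1 else 0) (MvPolynomial.X x) := by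
  classical
  intro J hJ h
  rw [MvPolynomial.coeff_X] at hJ
  by_cases h0 : Finsupp.single x 1 = J
  · rw [← h0, Finsupp.single_apply]
  · rw [if_neg h0] at hJ
    exact absurd rfl hJ

end

/-- Every vector with `y.w = 0` is a combination of the `g j`. -/
theorem EVO_span {n : ℕ} (g : Fin n → Fin (n + 1) → ℚ) (hg : LinearIndependent ℚ g)
    (y : Fin (n + 1) → ℚ) (hy : ∀ j, ∑ k, y k * g j k = 0) (a : Fin (n + 1)) (ha : y a ≠ 0)
    (w : Fin (n + 1) → ℚ) (hw : ∑ k, y k * w k = 0) : ∃ c : Fin n → ℚ, ∀ k, ∑ j, c j * g j k = w k := by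
  classical
  let φ : (Fin (n + 1) → ℚ) →ₗ[ℚ] ℚ := ∑ k, y k • LinearMap.proj k
  have hφ : ∀ x, φ x = ∑ k, y k * x k := by
    intro x
    simp [φ, LinearMap.sum_apply]
  have hsurj : Function.Surjective φ := by
    intro c
    refine ⟨Pi.single a (c / y a), ?_⟩
    rw [hφ, Finset.sum_eq_single a]
    · rw [Pi.single_eq_same]
      field_simp
    · intro k _ hk
      rw [Pi.single_eq_of_ne hk, mul_zero]
    · intro h
      exact absurd (Finset.mem_univ _) h
  have hker : Module.finrank ℚ (LinearMap.ker φ) = n := by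
    have h1 := LinearMap.finrank_range_add_finrank_ker φ
    rw [LinearMap.range_eq_top.2 hsurj, finrank_top, Module.finrank_self,
      Module.finrank_fin_fun] at h1
    omega
  have hle : Submodule.span ℚ (Set.range g) ≤ LinearMap.ker φ := by
    rw [Submodule.span_le]
    rintro _ ⟨j, rfl⟩
    show φ (g j) = 0
    rw [hφ]
    exact hy j
  have heq : Submodule.span ℚ (Set.range g) = LinearMap.ker φ := by
    apply Submodule.eq_of_le_of_finrank_eq hle
    rw [hker, finrank_span_eq_card hg, Fintype.card_fin]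
  have hmem : w ∈ Submodule.span ℚ (Set.range g) := by
    rw [heq]
    show φ w = 0
    rw [hφ]
    exact hw
  rw [Submodule.mem_span_range_iff_exists_fun] at hmem
  obtain ⟨c, hc⟩ := hmem
  refine ⟨c, fun k => ?_⟩
  rw [← hc, Finset.sum_apply]
  rfl

/-- EVO: from the CLAIM to property (O). -/
theorem ev_to_O {m n : ℕ} (r : Fin m → ℕ) (g : Fin m → Fin n → Fin (n + 1) → ℚ)
    (hg : ∀ h, LinearIndependent ℚ (g h)) (y : Fin m → Fin (n + 1) → ℤ)
    (hy : ∀ h j, ∑ k, (y h k : ℚ) * g h j k = 0) (a : Fin m → Fin (n + 1))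
    (ha : ∀ h, y h (a h) ≠ 0) (P : MvPolynomial (Fin m × Fin (n + 1)) ℤ)
    (hP : ∀ mon : ((Fin m × Fin n) ⊕ Fin m) →₀ ℕ,
        (∑ h, ((mon (Sum.inr h) : ℕ) : ℝ) / (r h : ℝ) ≤ 1) → (FP g a P).coeff mon = 0) :
    PropO r y a P := by
  classical
  have haq : ∀ h, (y h (a h) : ℚ) ≠ 0 := fun h => by exact_mod_cast ha h
  -- the coefficients
  have hB : ∀ h (k : Fin (n + 1)), k ≠ a h → ∃ c : Fin n → ℚ, ∀ k' : Fin (n + 1),
      ∑ j, c j * g h j k' =
        (Pi.single k 1 - Pi.single (a h) ((y h k : ℚ) / (y h (a h) : ℚ)) : Fin (n + 1) → ℚ) k' := by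
    intro h k hk
    apply EVO_span (g h) (hg h) (fun k => (y h k : ℚ)) (hy h) (a h) (haq h)
    have h1 : ∀ k', (y h k' : ℚ) * (Pi.single k 1 - Pi.single (a h)
        ((y h k : ℚ) / (y h (a h) : ℚ)) : Fin (n + 1) → ℚ) k' =
        (y h k' : ℚ) * (Pi.single k 1 : Fin (n + 1) → ℚ) k' -
        (y h k' : ℚ) * (Pi.single (a h) ((y h k : ℚ) / (y h (a h) : ℚ)) :
          Fin (n + 1) → ℚ) k' := by
      intro k'
      rw [Pi.sub_apply]
      ring
    rw [Finset.sum_congr rfl fun k' _ => h1 k', Finset.sum_sub_distrib,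
      Finset.sum_eq_single k, Finset.sum_eq_single (a h)]
    · rw [Pi.single_eq_same, Pi.single_eq_same]
      have := haq h
      field_simp
      ring
    · intro k' _ hk'
      rw [Pi.single_eq_of_ne hk', mul_zero]
    · intro h
      exact absurd (Finset.mem_univ _) h
    · intro k' _ hk'
      rw [Pi.single_eq_of_ne hk', mul_zero]
    · intro h
      exact absurd (Finset.mem_univ _) h
  choose! B hB' using hB
  -- the substitution
  let θ : ((Fin m × Fin n) ⊕ Fin m) → MvPolynomial (Fin m × Fin (n + 1)) ℚ :=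
    Sum.elim (fun hj => ∑ k ∈ Finset.univ.erase (a hj.1),
      MvPolynomial.C (B hj.1 k hj.2) * MvPolynomial.X (hj.1, k))
      (fun h => MvPolynomial.X (h, a h))
  have hθ1 : ∀ h (k' : Fin (n + 1)), ∑ j, MvPolynomial.C (g h j k') * θ (Sum.inl (h, j)) =
      ∑ k ∈ Finset.univ.erase (a h), MvPolynomial.C (∑ j, B h k j * g h j k') *
        MvPolynomial.X (h, k) := by
    intro h k'
    show ∑ j, MvPolynomial.C (g h j k') * (∑ k ∈ Finset.univ.erase (a h),
      MvPolynomial.C (B h k j) * MvPolynomial.X (h, k)) = _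
    simp only [Finset.mul_sum, map_sum, Finset.sum_mul, map_mul]
    rw [Finset.sum_comm]
    refine Finset.sum_congr rfl fun k _ => Finset.sum_congr rfl fun j _ => ?_
    ring
  have hE : EP y a P = MvPolynomial.aeval θ (FP g a P) := by
    unfold EP FP
    have h1 := MvPolynomial.comp_aeval_apply (R := ℤ) (fun hk : Fin m × Fin (n + 1) =>
      ((∑ j, MvPolynomial.C (g hk.1 j hk.2) * MvPolynomial.X (Sum.inl (hk.1, j))) +
        (if hk.2 = a hk.1 then MvPolynomial.X (Sum.inr hk.1) else 0) :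
        MvPolynomial ((Fin m × Fin n) ⊕ Fin m) ℚ))
      ((MvPolynomial.aeval θ : MvPolynomial ((Fin m × Fin n) ⊕ Fin m) ℚ →ₐ[ℚ] _).restrictScalars ℤ)
      P
    rw [AlgHom.restrictScalars_apply] at h1
    rw [h1]
    congr 1
    apply MvPolynomial.algHom_ext
    rintro ⟨h, k'⟩
    rw [MvPolynomial.aeval_X, MvPolynomial.aeval_X, AlgHom.restrictScalars_apply, map_add, map_sum]
    have h2 : ∑ j, (MvPolynomial.aeval θ) ((MvPolynomial.C (g h j k') * MvPolynomial.X
        (Sum.inl (h, j)) : MvPolynomial ((Fin m × Fin n) ⊕ Fin m) ℚ)) =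
        ∑ j, MvPolynomial.C (g h j k') * θ (Sum.inl (h, j)) := by
      refine Finset.sum_congr rfl fun j _ => ?_
      rw [map_mul, MvPolynomial.aeval_X, MvPolynomial.aeval_C]
      rfl
    rw [h2, hθ1]
    by_cases hk' : k' = a h
    · subst hk'
      simp only [if_true]
      rw [MvPolynomial.aeval_X]
      have h3 : ∀ k ∈ Finset.univ.erase (a h), MvPolynomial.C (∑ j, B h k j * g h j (a h)) *
          (MvPolynomial.X (h, k) : MvPolynomial (Fin m × Fin (n + 1)) ℚ) =
          -(MvPolynomial.C ((y h k : ℚ) / (y h (a h) : ℚ)) * MvPolynomial.X (h, k)) := by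
        intro k hk
        have hne : k ≠ a h := (Finset.mem_erase.1 hk).1
        rw [hB' h k hne, Pi.sub_apply, Pi.single_eq_same, Pi.single_eq_of_ne hne.symm, zero_sub,
          map_neg, neg_mul]
      rw [Finset.sum_congr rfl h3, Finset.sum_neg_distrib]
      show _ = _ + MvPolynomial.X (h, a h)
      ring
    · simp only [if_neg hk']
      rw [map_zero, add_zero, Finset.sum_eq_single k']
      · rw [hB' h k' hk', Pi.sub_apply, Pi.single_eq_same, Pi.single_eq_of_ne hk', sub_zero,
          MvPolynomial.C_1, one_mul]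
      · intro k hk hne
        rw [hB' h k (Finset.mem_erase.1 hk).1, Pi.sub_apply, Pi.single_eq_of_ne hne.symm,
          Pi.single_eq_of_ne hk', sub_zero, MvPolynomial.C_0, zero_mul]
      · intro hk
        exact absurd (Finset.mem_erase.2 ⟨hk', Finset.mem_univ _⟩) hk
  -- the exponents
  have hθ2 : ∀ i, EVO_Ex a (fun h => if i = Sum.inr h then 1 else 0) (θ i) := by
    rintro (⟨h, j⟩ | h)
    · have h1 : (fun h' : Fin m => if (Sum.inl (h, j) : (Fin m × Fin n) ⊕ Fin m) = Sum.inr h'
          then 1 else 0) = fun _ => 0 := by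
        funext h'
        exact if_neg Sum.inl_ne_inr
      rw [h1]
      refine EVO_sum _ _ _ fun k hk => ?_
      have h2 := EVO_mul (EVO_C (a := a) (B h k j)) (EVO_X (a := a) (h, k))
      have h3 : (fun h' : Fin m => 0 + if (h, k) = (h', a h') then 1 else 0) = fun _ => 0 := by
        funext h'
        rw [if_neg, add_zero]
        intro h4
        rw [Prod.mk.injEq] at h4
        obtain ⟨rfl, h5⟩ := h4
        exact (Finset.mem_erase.1 hk).1 h5
      rw [h3] at h2
      exact h2
    · have h1 : (fun h' : Fin m => if (Sum.inr h : (Fin m × Fin n) ⊕ Fin m) = Sum.inr h'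
          then 1 else 0) = fun h' => if (h, a h) = (h', a h') then 1 else 0 := by
        funext h'
        by_cases hh : h = h'
        · subst hh
          simp
        · rw [if_neg, if_neg]
          · intro h4
            exact hh (congrArg Prod.fst h4)
          · intro h4
            exact hh (Sum.inr_injective h4)
      rw [h1]
      exact EVO_X (a := a) (h, a h)
  intro J hJ
  rw [MvPolynomial.mem_support_iff, hE, MvPolynomial.aeval_def, MvPolynomial.eval₂_eq',
    MvPolynomial.coeff_sum] at hJ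
  obtain ⟨mon, hmon, h1⟩ := Finset.exists_ne_zero_of_sum_ne_zero hJ
  have h2 := EVO_mul (EVO_C (a := a) ((FP g a P).coeff mon))
    (EVO_prod (a := a) Finset.univ (fun i => θ i ^ mon i)
      (fun i h => mon i * if i = Sum.inr h then 1 else 0)
      fun i _ => EVO_pow (hθ2 i) (mon i))
  have h3 : ∀ h, J (h, a h) = mon (Sum.inr h) := by
    intro h
    refine (h2 J h1 h).trans ?_
    show 0 + ∑ i, mon i * (if i = Sum.inr h then 1 else 0) = _
    rw [zero_add, Finset.sum_eq_single (Sum.inr h)]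
    · rw [if_pos rfl, mul_one]
    · intro i _ hi
      rw [if_neg hi, mul_zero]
    · intro h
      exact absurd (Finset.mem_univ _) h
  by_contra hcon
  push Not at hcon
  apply MvPolynomial.mem_support_iff.1 hmon
  apply hP
  have h4 : ∑ h, ((mon (Sum.inr h) : ℕ) : ℝ) / (r h : ℝ) =
      ∑ h, ((J (h, a h) : ℕ) : ℝ) / (r h : ℝ) := by
    refine Finset.sum_congr rfl fun h _ => ?_
    rw [h3]
  rw [h4]
  exact hcon.le

end Pool.Agent.SubT
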