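import Pool.Agent.SubT.WN
import Pool.Agent.SubT.Cheb

/-! Module EV: evaluation of the auxiliary polynomial (the CLAIM of section 3.3). helper66. -/

namespace Pool.Agent.SubT

open scoped BigOperators ENNReal

open MeasureTheory Set Filter Topology

/-- all coefficients are in `Z[1/6]` -/
def EV_CR {σ : Type*} (F : MvPolynomial σ ℚ) : Prop := ∀ m, InR (F.coeff m)

theorem EV_CR_add {σ : Type*} {F G : MvPolynomial σ ℚ} (hF : EV_CR F) (hG : EV_CR G) :
    EV_CR (F + G) := fun m => by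
  rw [MvPolynomial.coeff_add]; exact inR_add (hF m) (hG m)

theorem EV_CR_mul {σ : Type*} {F G : MvPolynomial σ ℚ} (hF : EV_CR F) (hG : EV_CR G) :
    EV_CR (F * G) := fun m => by
  classical
  rw [MvPolynomial.coeff_mul]
  exact inR_sum _ _ fun p _ => inR_mul (hF _) (hG _)

theorem EV_CR_C {σ : Type*} {x : ℚ} (hx : InR x) : EV_CR (MvPolynomial.C x : MvPolynomial σ ℚ) :=
  fun m => by
  classical
  rw [MvPolynomial.coeff_C]
  split_ifs
  · exact hx
  · exact inR_zero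

theorem EV_CR_X {σ : Type*} (i : σ) : EV_CR (MvPolynomial.X i : MvPolynomial σ ℚ) := fun m => by
  classical
  rw [MvPolynomial.coeff_X']
  split_ifs
  · exact inR_one
  · exact inR_zero

theorem EV_CR_zero {σ : Type*} : EV_CR (0 : MvPolynomial σ ℚ) := fun m => by
  rw [MvPolynomial.coeff_zero]; exact inR_zero

theorem EV_CR_sum {σ α : Type*} (s : Finset α) (f : α → MvPolynomial σ ℚ)
    (h : ∀ i ∈ s, EV_CR (f i)) : EV_CR (∑ i ∈ s, f i) := fun m => by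
  rw [MvPolynomial.coeff_sum]
  exact inR_sum _ _ fun i hi => h i hi m

theorem EV_CR_aeval {σ τ : Type*} (f : τ → MvPolynomial σ ℚ) (hf : ∀ i, EV_CR (f i))
    (P : MvPolynomial τ ℤ) : EV_CR (MvPolynomial.aeval f P) := by
  induction P using MvPolynomial.induction_on with
  | C a =>
    rw [MvPolynomial.aeval_C]
    have : (algebraMap ℤ (MvPolynomial σ ℚ)) a = MvPolynomial.C ((a : ℤ) : ℚ) := by
      simp [MvPolynomial.algebraMap_eq]
    rw [this]
    exact EV_CR_C (inR_int a)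
  | add p q hp hq => rw [map_add]; exact EV_CR_add hp hq
  | mul_X p i hp => rw [map_mul, MvPolynomial.aeval_X]; exact EV_CR_mul hp (hf i)

/-- The coefficients of `F(b,s)` are in `Z[1/6]`. -/
theorem inR_coeff_FP {m n : ℕ} (g : Fin m → Fin n → Fin (n + 1) → ℚ) (a : Fin m → Fin (n + 1))
    (hg : ∀ h j k, InR (g h j k)) (P : MvPolynomial (Fin m × Fin (n + 1)) ℤ)
    (mon : ((Fin m × Fin n) ⊕ Fin m) →₀ ℕ) : InR ((FP g a P).coeff mon) := by
  refine EV_CR_aeval _ (fun hk => ?_) P mon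
  refine EV_CR_add (EV_CR_sum _ _ fun j _ => EV_CR_mul (EV_CR_C (hg _ _ _)) (EV_CR_X _)) ?_
  split_ifs
  · exact EV_CR_X _
  · exact EV_CR_zero

/-- the linear form in the new variables -/
noncomputable def EV_F {m n : ℕ} (M : Pl → Matrix (Fin (n + 1)) (Fin (n + 1)) ℚ)
    (g : Fin m → Fin n → Fin (n + 1) → ℚ) (a : Fin m → Fin (n + 1)) (v : Pl)
    (hi : Fin m × Fin (n + 1)) : MvPolynomial ((Fin m × Fin n) ⊕ Fin m) ℚ :=
  (∑ j, MvPolynomial.C (lin M v hi.2 (g hi.1 j)) * MvPolynomial.X (Sum.inl (hi.1, j))) +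
    MvPolynomial.C (M v hi.2 (a hi.1)) * MvPolynomial.X (Sum.inr hi.1)

theorem EV_FP_eq {m n : ℕ} (M : Pl → Matrix (Fin (n + 1)) (Fin (n + 1)) ℚ)
    (g : Fin m → Fin n → Fin (n + 1) → ℚ) (a : Fin m → Fin (n + 1)) (v : Pl)
    (P : MvPolynomial (Fin m × Fin (n + 1)) ℤ) (G : MvPolynomial (Fin m × Fin (n + 1)) ℚ)
    (h : MvPolynomial.map (Int.castRingHom ℚ) P =
        MvPolynomial.aeval (fun hk : Fin m × Fin (n + 1) => lfP (M v) hk.1 hk.2) G) :
    FP g a P = MvPolynomial.aeval (EV_F M g a v) G := by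
  classical
  unfold FP
  rw [← MvPolynomial.aeval_map_algebraMap ℚ]
  change MvPolynomial.aeval _ (MvPolynomial.map (Int.castRingHom ℚ) P) = _
  rw [h, MvPolynomial.comp_aeval_apply]
  congr 2
  funext hi
  unfold lfP EV_F lin
  simp only [map_sum, map_mul, MvPolynomial.aeval_X, MvPolynomial.algHom_C,
    MvPolynomial.algebraMap_eq, Matrix.mulVec, dotProduct]
  simp only [mul_add, Finset.sum_add_distrib, Finset.mul_sum, mul_ite, mul_zero,
    Finset.sum_ite_eq', Finset.mem_univ, if_true, Finset.sum_mul]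
  congr 1
  rw [Finset.sum_comm]
  refine Finset.sum_congr rfl fun j _ => Finset.sum_congr rfl fun k _ => ?_
  ring

theorem EV_wn_le {m n : ℕ} (M : Pl → Matrix (Fin (n + 1)) (Fin (n + 1)) ℚ)
    (g : Fin m → Fin n → Fin (n + 1) → ℚ) (a : Fin m → Fin (n + 1)) (v : Pl)
    (hi : Fin m × Fin (n + 1)) (ρ : (Fin m × Fin n) ⊕ Fin m → ℝ) (hρ : ∀ i, 0 ≤ ρ i)
    (hρ1 : ∀ p, ρ (Sum.inl p) = 1) (q b : ℝ) (hg : ∀ j, av v (lin M v hi.2 (g hi.1 j)) ≤ q)
    (hb : av v (M v hi.2 (a hi.1)) ≤ b) (hρ2 : ρ (Sum.inr hi.1) ≤ q) (hb0 : 0 ≤ b) :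
    wn v ρ (EV_F M g a v hi) ≤ (n + b) * q := by
  unfold EV_F
  refine (wn_add_le v ρ hρ _ _).trans ?_
  have h1 : wn v ρ (∑ j, MvPolynomial.C (lin M v hi.2 (g hi.1 j)) *
      MvPolynomial.X (Sum.inl (hi.1, j))) ≤ n * q := by
    refine (wn_sum_le v ρ hρ _ _).trans ?_
    refine (Finset.sum_le_sum fun j _ => (wn_mul_le v ρ hρ _ _).trans ?_).trans_eq
      (b := ∑ j : Fin n, q) ?_
    · rw [wn_C, wn_X, hρ1, mul_one]; exact hg j
    · simp
  have h2 : wn v ρ (MvPolynomial.C (M v hi.2 (a hi.1)) * MvPolynomial.X (Sum.inr hi.1)) ≤ b * q := by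
    refine (wn_mul_le v ρ hρ _ _).trans ?_
    rw [wn_C, wn_X]
    exact mul_le_mul hb hρ2 (hρ _) hb0
  linarith

theorem EV_J {m N : ℕ} (r : Fin m → ℕ) (hr : ∀ h, 1 ≤ r h) (Lg : Fin m → ℝ) (RR ε : ℝ)
    (hRR : 0 < RR) (h1 : ∀ h, RR ≤ r h * Lg h) (h2 : ∀ h, r h * Lg h ≤ (1 + ε) * RR)
    (x : Fin m → ℝ) (hx0 : ∀ h, 0 ≤ x h) (hx1 : ∀ h, x h ≤ r h)
    (hx : |∑ h, x h / (r h : ℝ) - (m : ℝ) / (N : ℝ)| ≤ ε * m) :
    |∑ h, x h * Lg h - RR * ((m : ℝ) / (N : ℝ))| ≤ RR * (2 * ε * m) := by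
  have hrp : ∀ h, (0 : ℝ) < r h := fun h => by exact_mod_cast hr h
  have e1 : ∑ h, x h * Lg h = RR * ∑ h, x h / (r h : ℝ) +
      ∑ h, x h / (r h : ℝ) * (r h * Lg h - RR) := by
    rw [Finset.mul_sum, ← Finset.sum_add_distrib]
    refine Finset.sum_congr rfl fun h _ => ?_
    field_simp [(hrp h).ne']
    ring
  have e2 : 0 ≤ ∑ h, x h / (r h : ℝ) * (r h * Lg h - RR) :=
    Finset.sum_nonneg fun h _ => mul_nonneg (div_nonneg (hx0 h) (hrp h).le) (by linarith [h1 h])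
  have e3 : ∑ h, x h / (r h : ℝ) * (r h * Lg h - RR) ≤ ε * RR * m := by
    have : ∀ h ∈ (Finset.univ : Finset (Fin m)), x h / (r h : ℝ) * (r h * Lg h - RR) ≤ ε * RR := by
      intro h _
      have a1 : x h / (r h : ℝ) ≤ 1 := (div_le_one (hrp h)).2 (hx1 h)
      have a2 : 0 ≤ r h * Lg h - RR := by linarith [h1 h]
      have a3 : r h * Lg h - RR ≤ ε * RR := by linarith [h2 h]
      calc x h / (r h : ℝ) * (r h * Lg h - RR) ≤ 1 * (r h * Lg h - RR) :=
            mul_le_mul_of_nonneg_right a1 a2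
        _ ≤ ε * RR := by linarith
    refine (Finset.sum_le_sum this).trans ?_
    simp [mul_comm]
  rw [e1]
  have e4 := abs_le.1 hx
  rw [abs_le]
  constructor
  · nlinarith [e4.1, mul_nonneg (abs_nonneg (∑ h, x h / (r h : ℝ) - (m : ℝ) / (N : ℝ))) hRR.le,
      hx, abs_nonneg (∑ h, x h / (r h : ℝ) - (m : ℝ) / (N : ℝ)),
      mul_le_mul_of_nonneg_left e4.1 hRR.le, mul_le_mul_of_nonneg_left
        ((abs_nonneg _).trans hx) hRR.le]
  · nlinarith [mul_le_mul_of_nonneg_left e4.2 hRR.le]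

theorem EV_card {m N : ℕ} (r : Fin m → ℕ) (G : MvPolynomial (Fin m × Fin N) ℚ)
    (hG : HomB r G) : ((G.support.card : ℕ) : ℝ) ≤ 2 ^ (N * ∑ h, r h) := by
  classical
  refine le_trans ?_ (card_JJ_le (n := N) r)
  have : G.support.card ≤ (JJ N r).card := by
    refine Finset.card_le_card_of_injOn (fun J h k => J (h, k)) ?_ ?_
    · intro J hJ
      exact (mem_JJ r _).2 fun h => hG J hJ h
    · intro J _ J' _ e
      ext ⟨h, k⟩
      exact congrFun (congrFun e h) k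
  exact_mod_cast this

theorem EV_bound {m n : ℕ} (M : Pl → Matrix (Fin (n + 1)) (Fin (n + 1)) ℚ)
    (c : Pl → Fin (n + 1) → ℝ) (K : ℝ) (hK : 1 ≤ K) (hcK : ∀ v i, |c v i| ≤ K) (ε : ℝ)
    (hε : 0 < ε) (C0 : ℝ) (hC0 : 1 ≤ C0) (b : ℝ) (hb1 : 1 ≤ b) (hb : ∀ v i j, av v (M v i j) ≤ b)
    (Q : Fin m → ℝ) (hQ : ∀ h, 1 < Q h) (RR : ℝ) (hRR : 0 < RR) (r : Fin m → ℕ)
    (hr : ∀ h, 1 ≤ r h) (h1 : ∀ h, RR ≤ r h * Real.log (Q h))
    (h2 : ∀ h, r h * Real.log (Q h) ≤ (1 + ε) * RR)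
    (g : Fin m → Fin n → Fin (n + 1) → ℚ) (a : Fin m → Fin (n + 1))
    (hg : ∀ h j, g h j ∈ Sol M c (Q h)) (v : Pl) (G : MvPolynomial (Fin m × Fin (n + 1)) ℚ)
    (hG1 : HomB r G)
    (hG2 : ∀ J ∈ G.support, ∀ i, |∑ h, ((J (h, i) : ℕ) : ℝ) / (r h : ℝ) -
      (m : ℝ) / ((n + 1 : ℕ) : ℝ)| ≤ ε * m)
    (hG3 : ∀ J, av v (G.coeff J) ≤ C0 ^ (∑ h, r h))
    (ρ : (Fin m × Fin n) ⊕ Fin m → ℝ) (hρ1 : ∀ p, ρ (Sum.inl p) = 1)
    (hρ2 : ∀ h, ρ (Sum.inr h) = Q h ^ (-K)) :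
    wn v ρ (MvPolynomial.aeval (EV_F M g a v) G) ≤
      (2 ^ (n + 1) * C0 * (n + b)) ^ (∑ h, r h) *
        Real.exp (RR * ((m : ℝ) / ((n + 1 : ℕ) : ℝ) * ∑ i, c v i +
          2 * ((n + 1 : ℕ) : ℝ) * K * ε * m)) := by
  classical
  have hρ : ∀ i, 0 ≤ ρ i := by
    rintro (p | h)
    · rw [hρ1]; exact zero_le_one
    · rw [hρ2]; exact Real.rpow_nonneg (zero_lt_one.trans (hQ h)).le _
  have hF : ∀ hi : Fin m × Fin (n + 1), wn v ρ (EV_F M g a v hi) ≤
      (n + b) * Q hi.1 ^ (c v hi.2) := by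
    intro hi
    refine EV_wn_le M g a v hi ρ hρ hρ1 _ b (fun j => (hg hi.1 j).2 v hi.2) (hb _ _ _) ?_
      (by linarith)
    rw [hρ2]
    exact Real.rpow_le_rpow_of_exponent_le (hQ _).le (by have := abs_le.1 (hcK v hi.2); linarith)
  refine (wn_aeval_le v ρ hρ G _ _ hF).trans ?_
  set E := Real.exp (RR * ((m : ℝ) / ((n + 1 : ℕ) : ℝ) * ∑ i, c v i +
          2 * ((n + 1 : ℕ) : ℝ) * K * ε * m)) with hE
  set S := ∑ h, r h with hS
  have key : ∀ J ∈ G.support, av v (G.coeff J) *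
      ∏ i : Fin m × Fin (n + 1), ((n + b) * Q i.1 ^ (c v i.2)) ^ (J i) ≤
      C0 ^ S * ((n + b) ^ S * E) := by
    intro J hJ
    have p1 : ∏ i : Fin m × Fin (n + 1), ((n + b) * Q i.1 ^ (c v i.2)) ^ (J i) =
        (n + b) ^ S * Real.exp (∑ k, c v k * ∑ h, ((J (h, k) : ℕ) : ℝ) * Real.log (Q h)) := by
      simp only [mul_pow]
      rw [Finset.prod_mul_distrib, Finset.prod_pow_eq_pow_sum]
      congr 1
      · congr 1
        rw [Fintype.sum_prod_type]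
        exact Finset.sum_congr rfl fun h _ => hG1 J hJ h
      · rw [Real.exp_sum, Fintype.prod_prod_type, Finset.prod_comm]
        refine Finset.prod_congr rfl fun k _ => ?_
        rw [Finset.mul_sum, Real.exp_sum]
        refine Finset.prod_congr rfl fun h _ => ?_
        have hq : 0 < Q h := zero_lt_one.trans (hQ h)
        rw [Real.rpow_def_of_pos hq, ← Real.exp_nat_mul]
        congr 1
        ring
    rw [p1]
    refine mul_le_mul (hG3 J) ?_ ?_ (by positivity)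
    · refine mul_le_mul_of_nonneg_left ?_ (by positivity)
      rw [hE]
      refine Real.exp_le_exp.2 ?_
      have hk : ∀ k, c v k * ∑ h, ((J (h, k) : ℕ) : ℝ) * Real.log (Q h) ≤
          RR * ((m : ℝ) / ((n + 1 : ℕ) : ℝ)) * c v k + K * (RR * (2 * ε * m)) := by
        intro k
        have hJle : ∀ h, ((J (h, k) : ℕ) : ℝ) ≤ r h := by
          intro h
          have := hG1 J hJ h
          have h3 : J (h, k) ≤ ∑ k, J (h, k) :=
            Finset.single_le_sum (f := fun k => J (h, k)) (fun _ _ => Nat.zero_le _)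
              (Finset.mem_univ k)
          rw [this] at h3
          exact_mod_cast h3
        have hab := EV_J (N := n + 1) r hr (fun h => Real.log (Q h)) RR ε hRR h1 h2
          (fun h => ((J (h, k) : ℕ) : ℝ)) (fun h => Nat.cast_nonneg _) hJle (hG2 J hJ k)
        set X := ∑ h, ((J (h, k) : ℕ) : ℝ) * Real.log (Q h) with hX
        have : c v k * (X - RR * ((m : ℝ) / ((n + 1 : ℕ) : ℝ))) ≤ K * (RR * (2 * ε * m)) := by
          refine (le_abs_self _).trans ?_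
          rw [abs_mul]
          exact mul_le_mul (hcK v k) hab (abs_nonneg _) (by linarith)
        linarith
      refine (Finset.sum_le_sum fun k _ => hk k).trans_eq ?_
      rw [Finset.sum_add_distrib, ← Finset.mul_sum]
      simp only [Finset.sum_const, Finset.card_univ, Fintype.card_fin, nsmul_eq_mul]
      ring
    · positivity
  refine (Finset.sum_le_sum key).trans ?_
  rw [Finset.sum_const, nsmul_eq_mul]
  have hc := EV_card r G hG1
  have : (2 ^ (n + 1) * C0 * (n + b)) ^ S * E = 2 ^ ((n + 1) * S) * (C0 ^ S * ((n + b) ^ S * E)) := by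
    rw [mul_pow, mul_pow, ← pow_mul]; ring
  rw [this]
  refine mul_le_mul_of_nonneg_right hc ?_
  have hEp : 0 < E := Real.exp_pos _
  positivity

theorem EV_num (N K Δ ε m RR S lD : ℝ) (hN : 1 ≤ N) (hK : 1 ≤ K) (hΔ : 0 < Δ) (hm : 0 < m)
    (hRR : 0 < RR) (hS : 0 < S) (hlD : 0 ≤ lD) (hε2 : ε * (24 * N ^ 2 * K) ≤ Δ)
    (hm1 : 24 * N * K ≤ Δ * m) (hSb : S * (12 * N * lD) + S * Δ ≤ 2 * m * RR * Δ) :
    3 * (S * lD) + (RR * (m / N * (-Δ) + 6 * N * K * ε * m) + 6 * K * RR) < 0 := by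
  have hNp : 0 < N := by linarith
  have t1 : 3 * (S * lD) * (4 * N) < 2 * m * RR * Δ := by
    have : 0 < S * Δ := mul_pos hS hΔ
    have e : 3 * (S * lD) * (4 * N) = S * (12 * N * lD) := by ring
    rw [e]; linarith
  have t2 : 6 * N * K * ε * m * (4 * N) ≤ m * Δ := by
    have h1 := mul_le_mul_of_nonneg_left hε2 hm.le
    have e : 6 * N * K * ε * m * (4 * N) = m * (ε * (24 * N ^ 2 * K)) := by ring
    rw [e]; exact h1
  have t3 : 6 * K * (4 * N) ≤ m * Δ := by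
    have e : 6 * K * (4 * N) = 24 * N * K := by ring
    rw [e]; linarith
  have e : (3 * (S * lD) + (RR * (m / N * (-Δ) + 6 * N * K * ε * m) + 6 * K * RR)) * (4 * N) =
      3 * (S * lD) * (4 * N) - 4 * m * RR * Δ +
        RR * (6 * N * K * ε * m * (4 * N)) + RR * (6 * K * (4 * N)) := by
    field_simp
    ring
  have u1 := mul_le_mul_of_nonneg_left t2 hRR.le
  have u2 := mul_le_mul_of_nonneg_left t3 hRR.le
  have t4 : (3 * (S * lD) + (RR * (m / N * (-Δ) + 6 * N * K * ε * m) + 6 * K * RR)) * (4 * N) < 0 := by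
    rw [e]
    have e2 : RR * (m * Δ) = m * RR * Δ := by ring
    rw [e2] at u1 u2
    linarith
  by_contra hcon
  have : 0 ≤ (3 * (S * lD) + (RR * (m / N * (-Δ) + 6 * N * K * ε * m) + 6 * K * RR)) * (4 * N) :=
    mul_nonneg (not_lt.1 hcon) (by positivity)
  linarith

/-- EV: the CLAIM of (3.3). -/
theorem ev {n : ℕ} (hn : 1 ≤ n) (M : Pl → Matrix (Fin (n + 1)) (Fin (n + 1)) ℚ)
    (hM : ∀ v, (M v).det ≠ 0) (c : Pl → Fin (n + 1) → ℝ) (hc : ∑ v, ∑ i, c v i < 0) :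
    ∃ ε : ℝ, 0 < ε ∧ ε < 1 ∧ ∃ m0 : ℕ, ∀ m ≥ m0, ∀ C0 : ℝ, 1 ≤ C0 → ∃ Qm : ℝ, 1 < Qm ∧
      ∀ Q : Fin m → ℝ, (∀ h, Qm ≤ Q h) → ∀ RR : ℝ, 0 < RR → ∀ r : Fin m → ℕ, (∀ h, 1 ≤ r h) →
      (∀ h, RR ≤ r h * Real.log (Q h)) → (∀ h, r h * Real.log (Q h) ≤ (1 + ε) * RR) →
      ∀ (g : Fin m → Fin n → Fin (n + 1) → ℚ) (a : Fin m → Fin (n + 1)),
      (∀ h j, g h j ∈ Sol M c (Q h)) →
      ∀ P : MvPolynomial (Fin m × Fin (n + 1)) ℤ, IsAux M C0 ε r P →
      ∀ mon : ((Fin m × Fin n) ⊕ Fin m) →₀ ℕ,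
        (∑ h, ((mon (Sum.inr h) : ℕ) : ℝ) / (r h : ℝ) ≤ 1) → (FP g a P).coeff mon = 0 := by
  classical
  obtain ⟨Δ, hΔ⟩ : ∃ Δ : ℝ, Δ = -∑ v, ∑ i, c v i := ⟨_, rfl⟩
  have hΔ0 : 0 < Δ := by rw [hΔ]; linarith
  obtain ⟨K, hKdef⟩ : ∃ K : ℝ, K = 1 + ∑ v, ∑ i, |c v i| := ⟨_, rfl⟩
  have hK : 1 ≤ K := by
    rw [hKdef]
    have : 0 ≤ ∑ v, ∑ i, |c v i| :=
      Finset.sum_nonneg fun v _ => Finset.sum_nonneg fun i _ => abs_nonneg _
    linarith
  have hcK : ∀ v i, |c v i| ≤ K := by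
    intro v i
    have h1 : |c v i| ≤ ∑ i, |c v i| :=
      Finset.single_le_sum (f := fun i => |c v i|) (fun _ _ => abs_nonneg _) (Finset.mem_univ i)
    have h2 : ∑ i, |c v i| ≤ ∑ v, ∑ i, |c v i| :=
      Finset.single_le_sum (f := fun v => ∑ i, |c v i|)
        (fun _ _ => Finset.sum_nonneg fun _ _ => abs_nonneg _) (Finset.mem_univ v)
    linarith
  obtain ⟨b, hb1, hb⟩ := av_matrix_bound M
  obtain ⟨N, hN⟩ : ∃ N : ℝ, N = ((n + 1 : ℕ) : ℝ) := ⟨_, rfl⟩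
  have hN0 : 1 ≤ N := by rw [hN]; exact_mod_cast Nat.le_add_left 1 n
  have hNp : 0 < N := by linarith
  have hKp : 0 < K := by linarith
  refine ⟨min (1 / 2) (Δ / (24 * N ^ 2 * K)), lt_min (by norm_num) (by positivity),
    (min_le_left _ _).trans_lt (by norm_num), ⌈24 * N * K / Δ⌉₊, ?_⟩
  obtain ⟨ε, hεdef⟩ : ∃ ε : ℝ, ε = min (1 / 2) (Δ / (24 * N ^ 2 * K)) := ⟨_, rfl⟩
  rw [← hεdef]
  have hε0 : 0 < ε := by rw [hεdef]; exact lt_min (by norm_num) (by positivity)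
  have hε1 : ε ≤ 1 / 2 := by rw [hεdef]; exact min_le_left _ _
  have hε2 : ε * (24 * N ^ 2 * K) ≤ Δ := by
    have : ε ≤ Δ / (24 * N ^ 2 * K) := by rw [hεdef]; exact min_le_right _ _
    rwa [le_div_iff₀ (by positivity)] at this
  intro m hm C0 hC0
  have hm1 : 24 * N * K ≤ Δ * m := by
    have : 24 * N * K / Δ ≤ m := (Nat.le_ceil _).trans (by exact_mod_cast hm)
    rw [div_le_iff₀ hΔ0] at this
    linarith
  have hmp : (0 : ℝ) < m := by
    by_contra h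
    have : Δ * (m : ℝ) ≤ 0 := mul_nonpos_of_nonneg_of_nonpos hΔ0.le (not_lt.1 h)
    have : 0 < 24 * N * K := by positivity
    linarith
  obtain ⟨D, hD⟩ : ∃ D : ℝ, D = 2 ^ (n + 1) * C0 * (n + b) := ⟨_, rfl⟩
  have hD1 : 1 ≤ D := by
    rw [hD]
    have a1 : (1 : ℝ) ≤ 2 ^ (n + 1) := one_le_pow₀ (by norm_num)
    have a2 : (1 : ℝ) ≤ n + b := by
      have : (0 : ℝ) ≤ n := Nat.cast_nonneg _
      linarith
    exact one_le_mul_of_one_le_of_one_le (one_le_mul_of_one_le_of_one_le a1 hC0) a2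
  have hlD : 0 ≤ Real.log D := Real.log_nonneg hD1
  refine ⟨Real.exp (12 * N * Real.log D / Δ + 1), ?_, ?_⟩
  · rw [Real.one_lt_exp_iff]
    have : 0 ≤ 12 * N * Real.log D / Δ := by positivity
    linarith
  intro Q hQ RR hRR r hr h1 h2 g a hg P hP mon hmon
  by_contra hne
  obtain ⟨hP0, hPH, hPn, hPv⟩ := hP
  have hlQ : ∀ h, 12 * N * Real.log D / Δ + 1 ≤ Real.log (Q h) := fun h =>
    (Real.le_log_iff_exp_le (lt_of_lt_of_le (Real.exp_pos _) (hQ h))).2 (hQ h)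
  have hlQ1 : ∀ h, 1 ≤ Real.log (Q h) := fun h => by
    have : 0 ≤ 12 * N * Real.log D / Δ := by positivity
    linarith [hlQ h]
  have hQ1 : ∀ h, 1 < Q h := fun h => by
    refine lt_of_lt_of_le ?_ (hQ h)
    rw [Real.one_lt_exp_iff]
    have : 0 ≤ 12 * N * Real.log D / Δ := by positivity
    linarith
  have hrp : ∀ h, (0 : ℝ) < r h := fun h => by exact_mod_cast hr h
  -- the exponent of the s-part
  have hs : ∑ h, ((mon (Sum.inr h) : ℕ) : ℝ) * Real.log (Q h) ≤ 2 * RR := by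
    have e1 : ∀ h ∈ (Finset.univ : Finset (Fin m)), ((mon (Sum.inr h) : ℕ) : ℝ) * Real.log (Q h) ≤
        ((mon (Sum.inr h) : ℕ) : ℝ) / (r h : ℝ) * ((1 + ε) * RR) := by
      intro h _
      have : ((mon (Sum.inr h) : ℕ) : ℝ) * Real.log (Q h) =
          ((mon (Sum.inr h) : ℕ) : ℝ) / (r h : ℝ) * (r h * Real.log (Q h)) := by
        field_simp [(hrp h).ne']
      rw [this]
      exact mul_le_mul_of_nonneg_left (h2 h) (div_nonneg (Nat.cast_nonneg _) (hrp h).le)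
    refine (Finset.sum_le_sum e1).trans ?_
    rw [← Finset.sum_mul]
    have : (∑ h, ((mon (Sum.inr h) : ℕ) : ℝ) / (r h : ℝ)) * ((1 + ε) * RR) ≤ 1 * ((1 + ε) * RR) :=
      mul_le_mul_of_nonneg_right hmon (by positivity)
    nlinarith
  obtain ⟨ρ, hρdef⟩ : ∃ ρ : (Fin m × Fin n) ⊕ Fin m → ℝ,
      ρ = Sum.elim (fun _ => 1) (fun h => Q h ^ (-K)) := ⟨_, rfl⟩
  have hρ1 : ∀ p, ρ (Sum.inl p) = 1 := fun p => by rw [hρdef]; rfl
  have hρ2 : ∀ h, ρ (Sum.inr h) = Q h ^ (-K) := fun p => by rw [hρdef]; rfl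
  have hρ : ∀ i, 0 ≤ ρ i := by
    rintro (p | h)
    · rw [hρ1]; exact zero_le_one
    · rw [hρ2]; exact Real.rpow_nonneg (zero_lt_one.trans (hQ1 h)).le _
  have hρm : Real.exp (-(2 * K * RR)) ≤ ∏ i, ρ i ^ (mon i) := by
    have : ∏ i, ρ i ^ (mon i) =
        Real.exp (-(K * ∑ h, ((mon (Sum.inr h) : ℕ) : ℝ) * Real.log (Q h))) := by
      rw [Fintype.prod_sum_type]
      simp only [hρ1, one_pow, Finset.prod_const_one, one_mul, hρ2]
      rw [Finset.mul_sum, ← Finset.sum_neg_distrib, Real.exp_sum]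
      refine Finset.prod_congr rfl fun h _ => ?_
      rw [Real.rpow_def_of_pos (zero_lt_one.trans (hQ1 h)), ← Real.exp_nat_mul]
      congr 1
      ring
    rw [this]
    refine Real.exp_le_exp.2 ?_
    have := mul_le_mul_of_nonneg_left hs hKp.le
    linarith
  obtain ⟨S, hS⟩ : ∃ S : ℕ, S = ∑ h, r h := ⟨_, rfl⟩
  have hv : ∀ v : Pl, av v ((FP g a P).coeff mon) ≤
      D ^ S * Real.exp (RR * ((m : ℝ) / N * ∑ i, c v i + 2 * N * K * ε * m) + 2 * K * RR) := by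
    intro v
    obtain ⟨G, hG1, hG2, hG3, hG4⟩ := hPv v
    have e1 := EV_FP_eq M g a v P G hG4
    have e2 := EV_bound M c K hK hcK ε hε0 C0 hC0 b hb1 (fun v i j => (hb v i j).1) Q hQ1 RR hRR r
      hr h1 h2 g a hg v G hG1 hG2 hG3 ρ hρ1 hρ2
    rw [← e1] at e2
    have e3 := (coeff_le_wn v ρ hρ (FP g a P) mon).trans e2
    have e4 : av v ((FP g a P).coeff mon) * Real.exp (-(2 * K * RR)) ≤
        av v ((FP g a P).coeff mon) * ∏ i, ρ i ^ (mon i) :=
      mul_le_mul_of_nonneg_left hρm (av_nonneg _ _)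
    have e5 := e4.trans e3
    rw [Real.exp_neg, ← div_eq_mul_inv, div_le_iff₀ (Real.exp_pos _)] at e5
    refine e5.trans_eq ?_
    rw [Real.exp_add, hD, hS, hN]
    ring
  have hR : InR ((FP g a P).coeff mon) :=
    inR_coeff_FP g a (fun h j k => (hg h j).1 k) P mon
  have hge := prod_av_ge_one hR hne
  have hle : ∏ v : Pl, av v ((FP g a P).coeff mon) ≤
      ∏ v : Pl, (D ^ S * Real.exp (RR * ((m : ℝ) / N * ∑ i, c v i + 2 * N * K * ε * m) +
        2 * K * RR)) := Finset.prod_le_prod (fun v _ => av_nonneg _ _) fun v _ => hv v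
  have heq : ∏ v : Pl, (D ^ S * Real.exp (RR * ((m : ℝ) / N * ∑ i, c v i + 2 * N * K * ε * m) +
        2 * K * RR)) =
      Real.exp (3 * (S * Real.log D) + (RR * ((m : ℝ) / N * (-Δ) + 6 * N * K * ε * m) +
        6 * K * RR)) := by
    have hD0 : 0 < D := by linarith
    have : ∀ v : Pl, D ^ S * Real.exp (RR * ((m : ℝ) / N * ∑ i, c v i + 2 * N * K * ε * m) +
        2 * K * RR) = Real.exp (S * Real.log D + (RR * ((m : ℝ) / N * ∑ i, c v i +
          2 * N * K * ε * m) + 2 * K * RR)) := by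
      intro v
      rw [Real.exp_add (S * Real.log D), Real.exp_nat_mul, Real.exp_log hD0]
    simp only [this]
    rw [← Real.exp_sum]
    congr 1
    have hsum : ∑ v, ∑ i, c v i = -Δ := by rw [hΔ]; ring
    rw [← hsum]
    simp only [Finset.sum_add_distrib, ← Finset.mul_sum, Finset.sum_const, Finset.card_univ,
      Fintype.card_fin, nsmul_eq_mul]
    push_cast
    ring
  rw [heq] at hle
  have hlt : Real.exp (3 * (S * Real.log D) + (RR * ((m : ℝ) / N * (-Δ) + 6 * N * K * ε * m) +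
        6 * K * RR)) < 1 := by
    rw [Real.exp_lt_one_iff]
    -- bound for S
    have hSb : (S : ℝ) * (12 * N * Real.log D / Δ + 1) ≤ 2 * m * RR := by
      rw [hS]
      push_cast
      rw [Finset.sum_mul]
      refine (Finset.sum_le_sum (g := fun _ => 2 * RR) fun h _ => ?_).trans_eq ?_
      · have := mul_le_mul_of_nonneg_left (hlQ h) (hrp h).le
        have h3 := h2 h
        nlinarith
      · simp; ring
    have hSb2 : (S : ℝ) * (12 * N * Real.log D) + S * Δ ≤ 2 * m * RR * Δ := by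
      have := mul_le_mul_of_nonneg_right hSb hΔ0.le
      have e : (S : ℝ) * (12 * N * Real.log D / Δ + 1) * Δ =
          (S : ℝ) * (12 * N * Real.log D) + S * Δ := by
        field_simp
      rw [e] at this
      exact this
    have hSpos : 0 < (S : ℝ) := by
      have hm' : 0 < m := by exact_mod_cast hmp
      have : 0 < S := by
        rw [hS]
        exact Finset.sum_pos (fun h _ => hr h) ⟨⟨0, hm'⟩, Finset.mem_univ _⟩
      exact_mod_cast this
    exact EV_num N K Δ ε m RR S (Real.log D) hN0 hK hΔ0 hmp hRR hSpos hlD hε2 hm1 hSb2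
  linarith

end Pool.Agent.SubT
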