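import Pool.Agent.SubT.Defs

/-! Module FURSTA. Text: team-store MP_e27144_an_pr_growth_helper66.md.
HINT: consecutive elements of {2^(ja) 3^(jb)} have ratio tending to 1 (log 2/log 3 irrational). -/

namespace Pool.Agent.SubT

open scoped BigOperators ENNReal

open MeasureTheory Set Filter Topology

theorem FURSTA_irr : Irrational (Real.log 2 / Real.log 3) := by
  have h2 : 0 < Real.log 2 := Real.log_pos (by norm_num)
  have h3 : 0 < Real.log 3 := Real.log_pos (by norm_num)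
  rintro ⟨q, hq⟩
  have hq0 : (0 : ℝ) < (q : ℝ) := by rw [hq]; positivity
  have hqpos : 0 < q := by exact_mod_cast hq0
  have hnum : 0 < q.num := Rat.num_pos.mpr hqpos
  obtain ⟨n, hn⟩ : ∃ n : ℕ, q.num = (n : ℤ) := ⟨q.num.toNat, (Int.toNat_of_nonneg hnum.le).symm⟩
  have hn0 : 0 < n := by omega
  have hqe : (q : ℝ) = (n : ℝ) / (q.den : ℝ) := by
    have := Rat.cast_def (K := ℝ) q
    rw [this, hn]; push_cast; rfl
  have hd : (0 : ℝ) < (q.den : ℝ) := by exact_mod_cast q.den_pos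
  have h : (q.den : ℝ) * Real.log 2 = (n : ℝ) * Real.log 3 := by
    rw [hqe] at hq
    field_simp at hq
    linarith
  have h' : Real.log ((2 : ℝ) ^ q.den) = Real.log ((3 : ℝ) ^ n) := by
    rw [Real.log_pow, Real.log_pow]; exact h
  have h'' : (2 : ℝ) ^ q.den = (3 : ℝ) ^ n :=
    Real.log_injOn_pos (by simp) (by simp) h'
  have h3' : (2 : ℕ) ^ q.den = 3 ^ n := by exact_mod_cast h''
  have he : Even ((2 : ℕ) ^ q.den) := by
    rw [Nat.even_pow]; exact ⟨even_two, q.den_pos.ne'⟩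
  have ho : Odd ((3 : ℕ) ^ n) := Odd.pow (by decide)
  rw [h3'] at he
  exact (Nat.not_even_iff_odd.mpr ho) he

/-- combinations with positive coefficients are eventually dense -/
theorem FURSTA_dense_aux (u v : ℝ) (hu : 0 < u) (hv : 0 < v) (δ δ1 : ℝ) (p q : ℕ)
    (hδ1 : 0 < δ1) (hδ1' : δ1 < δ) (he : (p : ℝ) * u - (q : ℝ) * v = δ1) :
    ∃ T0 : ℝ, ∀ t : ℝ, T0 ≤ t → ∃ a b : ℕ, t ≤ a * u + b * v ∧ a * u + b * v ≤ t + δ := by
  obtain ⟨M, hM⟩ := exists_nat_ge (u / δ1)
  have hM' : u ≤ M * δ1 := by rwa [div_le_iff₀ hδ1] at hM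
  refine ⟨M * (q * v), fun t ht => ?_⟩
  set A := ⌊(t - M * (q * v)) / u⌋₊ with hA
  have hA1 : (A : ℝ) * u ≤ t - M * (q * v) := by
    have := Nat.floor_le (a := (t - M * (q * v)) / u) (div_nonneg (by linarith) hu.le)
    rwa [← hA, le_div_iff₀ hu] at this
  have hA2 : t - M * (q * v) < (A + 1) * u := by
    have := Nat.lt_floor_add_one ((t - M * (q * v)) / u)
    rwa [← hA, div_lt_iff₀ hu] at this
  set R := t - M * (q * v) - A * u with hR
  have hR0 : 0 ≤ R := by linarith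
  have hRu : R < u := by linarith
  set k := ⌈R / δ1⌉₊ with hk
  have hk1 : R ≤ k * δ1 := by
    have := Nat.le_ceil (R / δ1)
    rwa [← hk, div_le_iff₀ hδ1] at this
  have hk2 : k * δ1 < R + δ1 := by
    have := Nat.ceil_lt_add_one (div_nonneg hR0 hδ1.le)
    rw [← hk] at this
    have h2 := mul_lt_mul_of_pos_right this hδ1
    have h3 : (R / δ1 + 1) * δ1 = R + δ1 := by field_simp
    linarith
  have hkM : k ≤ M := by
    rw [hk]
    apply Nat.ceil_le.mpr
    rw [div_le_iff₀ hδ1]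
    linarith
  obtain ⟨c, hc⟩ := Nat.exists_eq_add_of_le hkM
  refine ⟨A + k * p, c * q, ?_, ?_⟩
  · push_cast
    have hMc : (M : ℝ) = k + c := by exact_mod_cast hc
    have : ((A : ℝ) + k * p) * u + c * q * v = A * u + k * (p * u - q * v) + (k + c) * (q * v) := by
      ring
    rw [this, he, ← hMc]
    linarith
  · push_cast
    have hMc : (M : ℝ) = k + c := by exact_mod_cast hc
    have : ((A : ℝ) + k * p) * u + c * q * v = A * u + k * (p * u - q * v) + (k + c) * (q * v) := by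
      ring
    rw [this, he, ← hMc]
    linarith

theorem FURSTA_dense (u v : ℝ) (hu : 0 < u) (hv : 0 < v) (hirr : Irrational (u / v))
    (δ : ℝ) (hδ : 0 < δ) :
    ∃ T0 : ℝ, ∀ t : ℝ, T0 ≤ t → ∃ a b : ℕ, t ≤ a * u + b * v ∧ a * u + b * v ≤ t + δ := by
  have hd := dense_addSubgroupClosure_pair_iff.mpr hirr
  set δ' := min δ (min u v) with hδ'
  have hδ'0 : 0 < δ' := lt_min hδ (lt_min hu hv)
  obtain ⟨x, hx, hx'⟩ := hd.exists_between hδ'0
  rw [SetLike.mem_coe, AddSubgroup.mem_closure_pair] at hx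
  obtain ⟨m, n, hmn⟩ := hx
  simp only [zsmul_eq_mul] at hmn
  have hx1 : 0 < x := hx'.1
  have hx2 : x < δ' := hx'.2
  have hxδ : x < δ := lt_of_lt_of_le hx2 (min_le_left _ _)
  have hxu : x < u := lt_of_lt_of_le hx2 ((min_le_right _ _).trans (min_le_left _ _))
  have hxv : x < v := lt_of_lt_of_le hx2 ((min_le_right _ _).trans (min_le_right _ _))
  rcases le_or_gt m 0 with hm | hm
  · -- then n > 0
    have hn : 0 < n := by
      by_contra hn
      push Not at hn
      have h1 : (m : ℝ) * u ≤ 0 := mul_nonpos_of_nonpos_of_nonneg (by exact_mod_cast hm) hu.le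
      have h2 : (n : ℝ) * v ≤ 0 := mul_nonpos_of_nonpos_of_nonneg (by exact_mod_cast hn) hv.le
      linarith
    obtain ⟨p, hp⟩ : ∃ p : ℕ, n = (p : ℤ) := ⟨n.toNat, (Int.toNat_of_nonneg hn.le).symm⟩
    obtain ⟨q, hq⟩ : ∃ q : ℕ, -m = (q : ℤ) :=
      ⟨(-m).toNat, (Int.toNat_of_nonneg (by omega)).symm⟩
    have hq' : m = -(q : ℤ) := by omega
    subst hp hq'
    have he : (p : ℝ) * v - (q : ℝ) * u = x := by
      rw [← hmn]; push_cast; ring
    obtain ⟨T0, hT0⟩ := FURSTA_dense_aux v u hv hu δ x p q hx1 hxδ he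
    refine ⟨T0, fun t ht => ?_⟩
    obtain ⟨a, b, h1, h2⟩ := hT0 t ht
    exact ⟨b, a, by linarith, by linarith⟩
  · have hn : n ≤ 0 := by
      by_contra hn
      push Not at hn
      have h1 : (1 : ℝ) * u ≤ (m : ℝ) * u :=
        mul_le_mul_of_nonneg_right (by exact_mod_cast hm) hu.le
      have h2 : 0 ≤ (n : ℝ) * v := mul_nonneg (by exact_mod_cast hn.le) hv.le
      linarith
    obtain ⟨p, hp⟩ : ∃ p : ℕ, m = (p : ℤ) := ⟨m.toNat, (Int.toNat_of_nonneg hm.le).symm⟩
    obtain ⟨q, hq⟩ : ∃ q : ℕ, -n = (q : ℤ) :=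
      ⟨(-n).toNat, (Int.toNat_of_nonneg (by omega)).symm⟩
    have hq' : n = -(q : ℤ) := by omega
    subst hp hq'
    have he : (p : ℝ) * u - (q : ℝ) * v = x := by
      rw [← hmn]; push_cast; ring
    exact FURSTA_dense_aux u v hu hv δ x p q hx1 hxδ he

/-- multiplicative form -/
theorem FURSTA_mult (j : ℕ) (hj : 1 ≤ j) (ε : ℝ) (hε : 0 < ε) :
    ∃ N0 : ℝ, 1 ≤ N0 ∧ ∀ t : ℝ, N0 ≤ t → ∃ a b : ℕ,
      t ≤ ((2 ^ (j * a) * 3 ^ (j * b) : ℕ) : ℝ) ∧
      ((2 ^ (j * a) * 3 ^ (j * b) : ℕ) : ℝ) ≤ (1 + ε) * t := by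
  have h2 : 0 < Real.log 2 := Real.log_pos (by norm_num)
  have h3 : 0 < Real.log 3 := Real.log_pos (by norm_num)
  have hj0 : (0 : ℝ) < j := by exact_mod_cast hj
  have hirr : Irrational ((j * Real.log 2) / (j * Real.log 3)) := by
    rw [mul_div_mul_left _ _ hj0.ne']
    exact FURSTA_irr
  have hδ : 0 < Real.log (1 + ε) := Real.log_pos (by linarith)
  obtain ⟨T0, hT0⟩ := FURSTA_dense (j * Real.log 2) (j * Real.log 3) (by positivity) (by positivity)
    hirr (Real.log (1 + ε)) hδ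
  refine ⟨max 1 (Real.exp T0), le_max_left _ _, fun t ht => ?_⟩
  have ht1 : 1 ≤ t := (le_max_left _ _).trans ht
  have ht0 : 0 < t := by linarith
  obtain ⟨a, b, h1, h2'⟩ := hT0 (Real.log t) (by
    rw [Real.le_log_iff_exp_le ht0]; exact (le_max_right _ _).trans ht)
  have hlog : Real.log ((2 ^ (j * a) * 3 ^ (j * b) : ℕ) : ℝ) =
      a * (j * Real.log 2) + b * (j * Real.log 3) := by
    push_cast
    rw [Real.log_mul (by positivity) (by positivity), Real.log_pow, Real.log_pow]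
    push_cast; ring
  have hpos : (0 : ℝ) < ((2 ^ (j * a) * 3 ^ (j * b) : ℕ) : ℝ) := by push_cast; positivity
  refine ⟨a, b, ?_, ?_⟩
  · rw [← hlog] at h1
    exact (Real.log_le_log_iff ht0 hpos).mp h1
  · rw [← hlog] at h2'
    rw [← Real.log_mul ht0.ne' (by linarith)] at h2'
    have := (Real.log_le_log_iff hpos (by positivity)).mp h2'
    linarith

/-- FURSTA: if `0` is an accumulation point of a closed set invariant under all `2^(ja) 3^(jb)`
for one `j ≥ 1` then the set is everything. -/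
theorem furst_zero (j : ℕ) (hj : 1 ≤ j) (X : Set (AddCircle (1 : ℝ)))
    (hX : InvSet {m | ∃ a b : ℕ, m = 2 ^ (j * a) * 3 ^ (j * b)} X)
    (h0 : (0 : AddCircle (1 : ℝ)) ∈ closure (X \ {0})) : X = univ := by
  rw [eq_univ_iff_forall]
  intro y
  rw [← hX.1.closure_eq, Metric.mem_closure_iff]
  intro ε hε
  -- a lift of y in [0,1)
  obtain ⟨y0, hy0, rfl⟩ : ∃ y0 : ℝ, (0 ≤ y0 ∧ y0 < 1) ∧ (y0 : AddCircle (1 : ℝ)) = y := by
    obtain ⟨z, rfl⟩ := QuotientAddGroup.mk_surjective y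
    refine ⟨Int.fract z, ⟨Int.fract_nonneg _, Int.fract_lt_one _⟩, ?_⟩
    have : z = Int.fract z + (⌊z⌋ : ℝ) := (Int.fract_add_floor z).symm
    conv_rhs => rw [this]
    show ((Int.fract z : ℝ) : AddCircle (1 : ℝ)) = ((Int.fract z + (⌊z⌋ : ℝ) : ℝ) : AddCircle (1 : ℝ))
    rw [AddCircle.coe_add]
    have h1 : (((⌊z⌋ : ℝ)) : AddCircle (1 : ℝ)) = 0 := by
      rw [AddCircle.coe_eq_zero_iff]
      exact ⟨⌊z⌋, by simp⟩
    rw [h1, add_zero]
  obtain ⟨N0, hN0, hN⟩ := FURSTA_mult j hj (ε / 4) (by positivity)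
  set r := min (1 / 2) ((min (ε / 4) 1) / N0) with hr
  have hr0 : 0 < r := by
    have : 0 < min (ε / 4) 1 := lt_min (by positivity) one_pos
    positivity
  obtain ⟨x, hxX, hx⟩ := Metric.mem_closure_iff.mp h0 r hr0
  rw [dist_zero_left] at hx
  obtain ⟨hxX, hxne⟩ := hxX
  have hxne' : x ≠ 0 := hxne
  -- lift of x
  obtain ⟨x0, hx0, hx0n⟩ : ∃ x0 : ℝ, (x0 : AddCircle (1 : ℝ)) = x ∧ |x0| = ‖x‖ := by
    obtain ⟨z, rfl⟩ := QuotientAddGroup.mk_surjective x
    refine ⟨z - round z, ?_, ?_⟩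
    · show ((z - round z : ℝ) : AddCircle (1 : ℝ)) = (z : AddCircle (1 : ℝ))
      rw [AddCircle.coe_sub]
      have h1 : (((round z : ℝ)) : AddCircle (1 : ℝ)) = 0 := by
        rw [AddCircle.coe_eq_zero_iff]
        exact ⟨round z, by simp⟩
      rw [h1, sub_zero]
    · exact (UnitAddCircle.norm_eq (x := z)).symm
  have hx0ne : x0 ≠ 0 := by
    rintro rfl
    apply hxne'
    rw [← hx0]; simp
  have hx0abs : 0 < |x0| := abs_pos.mpr hx0ne
  have hx0r : |x0| < r := by rw [hx0n]; exact hx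
  have hmN : |x0| * N0 < min (ε / 4) 1 := by
    have : |x0| < (min (ε / 4) 1) / N0 := lt_of_lt_of_le hx0r (min_le_right _ _)
    rwa [lt_div_iff₀ (by linarith)] at this
  -- claim: for every real w with w * x0 > 0, |w| ≤ 2, |w| ≥ 1/2?? we treat w of the same sign
  have key : ∀ w : ℝ, 0 ≤ w / x0 → |w| ≤ 1 → (w : AddCircle (1 : ℝ)) = (y0 : AddCircle (1 : ℝ)) →
      ∃ b ∈ X, dist (y0 : AddCircle (1 : ℝ)) b < ε := by
    intro w hw hw1 hwy
    set t := max N0 (w / x0) with ht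
    obtain ⟨a, b, h1, h2⟩ := hN t (le_max_left _ _)
    refine ⟨(2 ^ (j * a) * 3 ^ (j * b)) • x, hX.2 _ ⟨a, b, rfl⟩ x hxX, ?_⟩
    rw [← hwy, ← hx0, dist_eq_norm, ← AddCircle.coe_nsmul, ← AddCircle.coe_sub]
    refine lt_of_le_of_lt (b := |w - (2 ^ (j * a) * 3 ^ (j * b)) • x0|) ?_ ?_
    · rw [AddCircle.norm_eq]
      simp only [inv_one, one_mul, mul_one]
      exact round_le _ 0 |>.trans (by simp)
    · rw [nsmul_eq_mul]
      set s : ℝ := ((2 ^ (j * a) * 3 ^ (j * b) : ℕ) : ℝ) with hs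
      have hsx : |w - s * x0| = |w / x0 - s| * |x0| := by
        rw [← abs_mul]; congr 1; field_simp
      rw [hsx]
      have htN : t ≤ w / x0 + N0 := max_le (by linarith) (by linarith)
      have habs : |w / x0 - s| ≤ N0 + ε / 4 * t := by
        rw [abs_le]
        constructor
        · linarith
        · have : w / x0 ≤ t := le_max_right _ _
          have h5 : 0 ≤ ε / 4 * t := by
            have : 0 ≤ t := hw.trans (le_max_right _ _)
            positivity
          linarith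
      have hwx : w / x0 * |x0| ≤ 1 := by
        have : w / x0 * |x0| = |w| := by
          rw [← abs_of_nonneg hw, ← abs_mul]; congr 1; field_simp
        linarith
      have h6 : t * |x0| ≤ 2 := by
        have : t * |x0| ≤ (w / x0 + N0) * |x0| := mul_le_mul_of_nonneg_right htN hx0abs.le
        have h7 : |x0| * N0 < 1 := lt_of_lt_of_le hmN (min_le_right _ _)
        nlinarith
      have h8 : |x0| * N0 < ε / 4 := lt_of_lt_of_le hmN (min_le_left _ _)
      calc |w / x0 - s| * |x0| ≤ (N0 + ε / 4 * t) * |x0| :=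
            mul_le_mul_of_nonneg_right habs hx0abs.le
        _ = |x0| * N0 + ε / 4 * (t * |x0|) := by ring
        _ ≤ |x0| * N0 + ε / 4 * 2 := by
            have := mul_le_mul_of_nonneg_left h6 (show (0:ℝ) ≤ ε / 4 by positivity)
            linarith
        _ < ε := by linarith
  rcases lt_or_gt_of_ne hx0ne with hneg | hpos
  · refine key (y0 - 1) (div_nonneg_of_nonpos (by linarith) hneg.le) ?_ ?_
    · rw [abs_le]; constructor <;> linarith [hy0.1, hy0.2]
    · rw [AddCircle.coe_sub]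
      have h1 : (((1 : ℝ)) : AddCircle (1 : ℝ)) = 0 := by
        rw [AddCircle.coe_eq_zero_iff]
        exact ⟨1, by simp⟩
      rw [h1, sub_zero]
  · refine key y0 (div_nonneg hy0.1 hpos.le) ?_ rfl
    rw [abs_le]; constructor <;> linarith [hy0.1, hy0.2]

end Pool.Agent.SubT
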