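import Pool.Agent.SubT.FurstA

/-! Module FURSTB. Text: team-store MP_e27144_an_pr_growth_helper66.md.
HINT: Boshernitzan: X infinite closed invariant, X1 = set of accumulation points. If X1 contains a rational point r: multiply into denominators coprime to 6 and translate, furst_zero. Otherwise X1 - X1 has 0 as accumulation point, so is everything; nested sets {x in X1 : x + k/t in X1, k < t} under the powers = 1 mod t are nonempty: X1 is 1/t-dense for all t coprime to 6. -/

namespace Pool.Agent.SubT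

open scoped BigOperators ENNReal

open MeasureTheory Set Filter Topology

/-- the multipliers -/
theorem FURSTB_sub (j : ℕ) (X : Set (AddCircle (1 : ℝ)))
    (hX : InvSet {m | ∃ a b : ℕ, m = 2 ^ a * 3 ^ b} X) :
    InvSet {m | ∃ a b : ℕ, m = 2 ^ (j * a) * 3 ^ (j * b)} X :=
  ⟨hX.1, fun m ⟨a, b, h⟩ x hx => hX.2 m ⟨j * a, j * b, h⟩ x hx⟩

/-- an infinite closed invariant set has dense differences -/
theorem FURSTB_diff (j : ℕ) (hj : 1 ≤ j) (A : Set (AddCircle (1 : ℝ))) (hinf : A.Infinite)
    (hA : InvSet {m | ∃ a b : ℕ, m = 2 ^ (j * a) * 3 ^ (j * b)} A) (d : AddCircle (1 : ℝ)) :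
    ∃ x ∈ A, ∃ y ∈ A, x - y = d := by
  have hD : InvSet {m | ∃ a b : ℕ, m = 2 ^ (j * a) * 3 ^ (j * b)}
      ((fun p : AddCircle (1 : ℝ) × AddCircle (1 : ℝ) => p.1 - p.2) '' (A ×ˢ A)) := by
    refine ⟨?_, ?_⟩
    · have hc : IsCompact A := hA.1.isCompact
      exact ((hc.prod hc).image (by fun_prop)).isClosed
    · rintro m hm _ ⟨⟨x, y⟩, ⟨hx, hy⟩, rfl⟩
      refine ⟨(m • x, m • y), ⟨hA.2 m hm x hx, hA.2 m hm y hy⟩, ?_⟩
      simp [smul_sub]
  have h0 : (0 : AddCircle (1 : ℝ)) ∈ closure
      (((fun p : AddCircle (1 : ℝ) × AddCircle (1 : ℝ) => p.1 - p.2) '' (A ×ˢ A)) \ {0}) := by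
    rw [Metric.mem_closure_iff]
    intro ε hε
    obtain ⟨z, _, hz⟩ := hinf.exists_accPt_of_subset_isCompact
      (isCompact_univ (X := AddCircle (1 : ℝ))) (subset_univ _)
    have hz' : ∀ δ > 0, ∃ x ∈ A, x ≠ z ∧ dist x z < δ := by
      intro δ hδ
      rw [accPt_iff_nhds] at hz
      obtain ⟨y, ⟨hy1, hy2⟩, hy3⟩ := hz (Metric.ball z δ) (Metric.ball_mem_nhds z hδ)
      exact ⟨y, hy2, hy3, hy1⟩
    obtain ⟨x, hx, hxz, hxd⟩ := hz' (ε / 2) (by positivity)
    obtain ⟨y, hy, hyz, hyd⟩ := hz' (min (ε / 2) (dist x z))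
      (lt_min (by positivity) (dist_pos.mpr hxz))
    refine ⟨x - y, ⟨⟨(x, y), ⟨hx, hy⟩, rfl⟩, ?_⟩, ?_⟩
    · intro h
      have hxy : x = y := sub_eq_zero.mp h
      rw [hxy] at hyd
      exact lt_irrefl _ (lt_of_lt_of_le hyd (min_le_right _ _))
    · rw [dist_zero_left, ← dist_eq_norm]
      calc dist x y ≤ dist x z + dist z y := dist_triangle _ _ _
        _ = dist x z + dist y z := by rw [dist_comm z y]
        _ < ε / 2 + ε / 2 := by
            have := lt_of_lt_of_le hyd (min_le_left _ _)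
            linarith
        _ = ε := by ring
  have := furst_zero j hj _ hD h0
  have hd : d ∈ ((fun p : AddCircle (1 : ℝ) × AddCircle (1 : ℝ) => p.1 - p.2) '' (A ×ˢ A)) := by
    rw [this]; trivial
  obtain ⟨⟨x, y⟩, ⟨hx, hy⟩, h⟩ := hd
  exact ⟨x, hx, y, hy, h⟩

/-- a nonempty invariant set without torsion points is infinite -/
theorem FURSTB_inf (j : ℕ) (hj : 1 ≤ j) (A : Set (AddCircle (1 : ℝ))) (hne : A.Nonempty)
    (hA : InvSet {m | ∃ a b : ℕ, m = 2 ^ (j * a) * 3 ^ (j * b)} A)
    (htor : ∀ x ∈ A, ∀ n : ℕ, 1 ≤ n → n • x ≠ 0) : A.Infinite := by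
  obtain ⟨x, hx⟩ := hne
  have hinj : Function.Injective (fun a : ℕ => (2 ^ (j * a) * 3 ^ (j * 0) : ℕ) • x) := by
    have aux : ∀ a b : ℕ, a < b → (2 ^ (j * a) * 3 ^ (j * 0) : ℕ) • x ≠
        (2 ^ (j * b) * 3 ^ (j * 0) : ℕ) • x := by
      intro a b hab h
      simp only [mul_zero, pow_zero, mul_one] at h
      have hlt : 2 ^ (j * a) < 2 ^ (j * b) :=
        Nat.pow_lt_pow_right (by norm_num) (Nat.mul_lt_mul_of_pos_left hab (by omega))
      apply htor x hx (2 ^ (j * b) - 2 ^ (j * a)) (by omega)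
      have h2 : (2 ^ (j * b) - 2 ^ (j * a)) • x + (2 ^ (j * a)) • x = (2 ^ (j * b)) • x := by
        rw [← add_smul, Nat.sub_add_cancel hlt.le]
      rw [← h] at h2
      simpa using h2
    intro a b h
    rcases lt_trichotomy a b with h' | h' | h'
    · exact absurd h (aux a b h')
    · exact h'
    · exact absurd h.symm (aux b a h')
  exact (Set.infinite_range_of_injective hinj).mono (by
    rintro _ ⟨a, rfl⟩
    exact hA.2 _ ⟨a, 0, rfl⟩ x hx)

/-- residues: for `t` coprime to `6` some `j` has all multipliers `≡ 1`. -/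
theorem FURSTB_mod (t : ℕ) (ht2 : Nat.Coprime 2 t) (ht3 : Nat.Coprime 3 t) (a b : ℕ) :
    (2 ^ (t.totient * a) * 3 ^ (t.totient * b)) ≡ 1 [MOD t] := by
  have h2 := (Nat.ModEq.pow_totient ht2).pow a
  have h3 := (Nat.ModEq.pow_totient ht3).pow b
  have := h2.mul h3
  simpa [pow_mul] using this

theorem FURSTB_smul_eq (t m : ℕ) (hm : m ≡ 1 [MOD t]) (z : AddCircle (1 : ℝ)) (hz : t • z = 0) :
    m • z = z := by
  have h1 : (m : ℤ) ≡ 1 [ZMOD t] := by exact_mod_cast (Int.natCast_modEq_iff.mpr hm)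
  obtain ⟨c, hc⟩ := h1.symm.dvd
  have h2 : (m : ℤ) = 1 + t * c := by linarith
  rw [← natCast_zsmul, h2, add_smul, one_smul, mul_comm, mul_smul, natCast_zsmul, hz, smul_zero,
    add_zero]

/-- FURSTB: Furstenberg's theorem. -/
theorem furst_closed (X : Set (AddCircle (1 : ℝ)))
    (hX : InvSet {m | ∃ a b : ℕ, m = 2 ^ a * 3 ^ b} X) : X = univ ∨ X.Finite := by
  by_cases hfin : X.Finite
  · exact Or.inr hfin
  left
  have hinf : X.Infinite := hfin
  -- the derived set
  set X1 : Set (AddCircle (1 : ℝ)) := {z | AccPt z (𝓟 X)} with hX1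
  have hX1closed : IsClosed X1 := isClosed_derivedSet X
  have hX1sub : X1 ⊆ X := by
    intro z hz
    have : z ∈ closure X := mem_closure_iff_clusterPt.mpr (AccPt.clusterPt hz)
    rwa [hX.1.closure_eq] at this
  have hX1ne : X1.Nonempty := by
    obtain ⟨z, _, hz⟩ := hinf.exists_accPt_of_subset_isCompact
      (isCompact_univ (X := AddCircle (1 : ℝ))) (subset_univ _)
    exact ⟨z, hz⟩
  have hacc : ∀ z : AddCircle (1 : ℝ), z ∈ X1 ↔ ∀ δ > 0, ∃ x ∈ X, x ≠ z ∧ dist x z < δ := by
    intro z
    show AccPt z (𝓟 X) ↔ _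
    rw [accPt_iff_nhds]
    constructor
    · intro h δ hδ
      obtain ⟨y, ⟨hy1, hy2⟩, hy3⟩ := h (Metric.ball z δ) (Metric.ball_mem_nhds z hδ)
      exact ⟨y, hy2, hy3, hy1⟩
    · intro h U hU
      obtain ⟨δ, hδ, hδU⟩ := Metric.mem_nhds_iff.mp hU
      obtain ⟨x, hx, hxz, hxd⟩ := h δ hδ
      exact ⟨x, ⟨hδU hxd, hx⟩, hxz⟩
  have hnormle : ∀ (m : ℕ) (y : AddCircle (1 : ℝ)), ‖m • y‖ ≤ m * ‖y‖ := by
    intro m y
    exact norm_nsmul_le
  have hX1inv : InvSet {m | ∃ a b : ℕ, m = 2 ^ a * 3 ^ b} X1 := by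
    refine ⟨hX1closed, ?_⟩
    rintro m hm z hz
    have hmpos : 1 ≤ m := by
      obtain ⟨a, b, rfl⟩ := hm
      exact Nat.one_le_iff_ne_zero.mpr (by positivity)
    rw [hacc] at hz ⊢
    intro δ hδ
    have hm0 : (0 : ℝ) < m := by exact_mod_cast hmpos
    -- choose x close to z, not equal, with m(x - z) ≠ 0
    obtain ⟨x, hx, hxz, hxd⟩ := hz (min (δ / m) (1 / (2 * m))) (by positivity)
    refine ⟨m • x, hX.2 m hm x hx, ?_, ?_⟩
    · intro h
      have hne : x - z ≠ 0 := sub_ne_zero.mpr hxz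
      have h1 : m • (x - z) = 0 := by rw [smul_sub, h, sub_self]
      have h2 : ‖x - z‖ < 1 / (2 * m) := by
        rw [← dist_eq_norm]; exact lt_of_lt_of_le hxd (min_le_right _ _)
      have h3 : ‖m • (x - z)‖ = m * ‖x - z‖ := by
        obtain ⟨w, hw⟩ := QuotientAddGroup.mk_surjective (x - z)
        have hw1 : x - z = ((w - round w : ℝ) : AddCircle (1 : ℝ)) := by
          rw [← hw]
          show (w : AddCircle (1 : ℝ)) = _
          rw [AddCircle.coe_sub]
          have h1 : (((round w : ℝ)) : AddCircle (1 : ℝ)) = 0 := by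
            rw [AddCircle.coe_eq_zero_iff]
            exact ⟨round w, by simp⟩
          rw [h1, sub_zero]
        have hw2 : ‖x - z‖ = |w - round w| := by
          rw [← hw]; exact UnitAddCircle.norm_eq (x := w)
        rw [hw1, ← AddCircle.coe_nsmul, ← hw1, hw2]
        have h5 : |m • (w - round w)| ≤ |(1 : ℝ)| / 2 := by
          rw [nsmul_eq_mul, abs_mul, abs_of_pos hm0, ← hw2, abs_one]
          have := mul_lt_mul_of_pos_left h2 hm0
          have h6 : (m : ℝ) * (1 / (2 * m)) = 1 / 2 := by field_simp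
          linarith
        rw [(AddCircle.norm_coe_eq_abs_iff (1 : ℝ) (by norm_num)).mpr h5]
        rw [nsmul_eq_mul, abs_mul, abs_of_pos hm0]
      rw [h1, norm_zero] at h3
      have h4 : ‖x - z‖ = 0 := by
        rcases mul_eq_zero.mp h3.symm with h | h
        · exact absurd h hm0.ne'
        · exact h
      exact hne (norm_eq_zero.mp h4)
    · rw [dist_eq_norm, ← smul_sub]
      calc ‖m • (x - z)‖ ≤ m * ‖x - z‖ := hnormle m _
        _ < m * (δ / m) := by
            apply mul_lt_mul_of_pos_left _ hm0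
            rw [← dist_eq_norm]; exact lt_of_lt_of_le hxd (min_le_left _ _)
        _ = δ := by field_simp
  by_cases htor : ∃ r ∈ X1, ∃ n : ℕ, 1 ≤ n ∧ n • r = 0
  · -- a torsion accumulation point
    obtain ⟨r, hr, n, hn, hnr⟩ := htor
    -- remove the factors 2 and 3
    obtain ⟨a, t0, ht0, hn1⟩ := Nat.exists_eq_pow_mul_and_not_dvd (n := n) (by omega) 2 (by norm_num)
    have ht0pos : t0 ≠ 0 := by rintro rfl; simp at ht0
    obtain ⟨b, t, ht, hn2⟩ := Nat.exists_eq_pow_mul_and_not_dvd (n := t0) ht0pos 3 (by norm_num)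
    have htpos : t ≠ 0 := by rintro rfl; simp at ht
    have hn3 : n = 2 ^ a * 3 ^ b * t := by rw [hn1, hn2]; ring
    set r' := (2 ^ a * 3 ^ b) • r with hr'
    have hr'X1 : r' ∈ X1 := hX1inv.2 _ ⟨a, b, rfl⟩ r hr
    have htr : t • r' = 0 := by
      rw [hr', smul_smul, mul_comm, ← hn3, hnr]
    have ht2 : Nat.Coprime 2 t := by
      rw [Nat.Prime.coprime_iff_not_dvd Nat.prime_two]
      intro h; apply ht0; rw [hn2]; exact h.mul_left _
    have ht3 : Nat.Coprime 3 t := by
      rw [Nat.Prime.coprime_iff_not_dvd Nat.prime_three]; exact ht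
    set j := t.totient with hj
    have hj1 : 1 ≤ j := Nat.totient_pos.mpr (by omega)
    set Y : Set (AddCircle (1 : ℝ)) := (fun x => x + r') ⁻¹' X with hY
    have hYinv : InvSet {m | ∃ a b : ℕ, m = 2 ^ (j * a) * 3 ^ (j * b)} Y := by
      refine ⟨hX.1.preimage (by fun_prop), ?_⟩
      rintro m ⟨a', b', hm⟩ x hx
      show m • x + r' ∈ X
      have hmr : m • r' = r' := FURSTB_smul_eq t m (by rw [hm]; exact FURSTB_mod t ht2 ht3 a' b') r' htr
      have : m • x + r' = m • (x + r') := by rw [smul_add, hmr]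
      rw [this]
      exact hX.2 m ⟨j * a', j * b', hm⟩ _ hx
    have h0 : (0 : AddCircle (1 : ℝ)) ∈ closure (Y \ {0}) := by
      rw [Metric.mem_closure_iff]
      intro ε hε
      obtain ⟨x, hx, hxr, hxd⟩ := (hacc r').mp hr'X1 ε hε
      refine ⟨x - r', ⟨?_, ?_⟩, ?_⟩
      · show x - r' + r' ∈ X
        simpa using hx
      · exact sub_ne_zero.mpr hxr
      · rw [dist_zero_left, ← dist_eq_norm]; exact hxd
    have hYu := furst_zero j hj1 Y hYinv h0
    rw [eq_univ_iff_forall]
    intro y
    have : y - r' ∈ Y := by rw [hYu]; trivial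
    have h2 : y - r' + r' ∈ X := this
    simpa using h2
  · push Not at htor
    -- nested sets
    have main : ∀ t : ℕ, Nat.Coprime 2 t → Nat.Coprime 3 t → 1 ≤ t → ∀ k : ℕ,
        ∃ x : AddCircle (1 : ℝ), ∀ i ≤ k, x + i • ((1 / t : ℝ) : AddCircle (1 : ℝ)) ∈ X1 := by
      intro t ht2 ht3 ht1 k
      set z : AddCircle (1 : ℝ) := ((1 / t : ℝ) : AddCircle (1 : ℝ)) with hz
      have ht0 : (t : ℝ) ≠ 0 := by exact_mod_cast (by omega : t ≠ 0)
      have htz : t • z = 0 := by
        rw [hz, ← AddCircle.coe_nsmul, nsmul_eq_mul]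
        rw [AddCircle.coe_eq_zero_iff]
        exact ⟨1, by simp; field_simp⟩
      set j := t.totient with hj
      have hj1 : 1 ≤ j := Nat.totient_pos.mpr (by omega)
      set A : ℕ → Set (AddCircle (1 : ℝ)) := fun k => {x | ∀ i ≤ k, x + i • z ∈ X1} with hA
      have hAinv : ∀ k, InvSet {m | ∃ a b : ℕ, m = 2 ^ (j * a) * 3 ^ (j * b)} (A k) := by
        intro k
        refine ⟨?_, ?_⟩
        · have : A k = ⋂ i ∈ Finset.range (k + 1), (fun x => x + i • z) ⁻¹' X1 := by
            ext x
            simp only [hA, mem_ofPred_eq, mem_iInter, mem_preimage, Finset.mem_range, Nat.lt_succ_iff]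
          rw [this]
          exact isClosed_biInter fun i _ => hX1closed.preimage (by fun_prop)
        · rintro m ⟨a', b', hm⟩ x hx i hi
          have hmz : m • z = z := FURSTB_smul_eq t m (by rw [hm]; exact FURSTB_mod t ht2 ht3 a' b') z htz
          have : m • x + i • z = m • (x + i • z) := by
            rw [smul_add, smul_comm m i z, hmz]
          rw [this]
          exact hX1inv.2 m ⟨j * a', j * b', hm⟩ _ (hx i hi)
      have hAne : ∀ k, (A k).Nonempty := by
        intro k
        induction k with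
        | zero =>
          obtain ⟨x, hx⟩ := hX1ne
          refine ⟨x, fun i hi => ?_⟩
          have : i = 0 := by omega
          subst this
          simpa using hx
        | succ k ih =>
          have hAinf : (A k).Infinite := by
            refine FURSTB_inf j hj1 (A k) ih (hAinv k) ?_
            intro x hx n hn
            have := hx 0 (Nat.zero_le _)
            rw [zero_smul, add_zero] at this
            exact htor x this n hn
          obtain ⟨x, hx, y, hy, hxy⟩ := FURSTB_diff j hj1 (A k) hAinf (hAinv k) z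
          refine ⟨y, fun i hi => ?_⟩
          rcases Nat.lt_or_ge i (k + 1) with h | h
          · exact hy i (by omega)
          · have hi' : i = k + 1 := by omega
            subst hi'
            have hx' : x = y + z := by rw [← hxy]; abel
            have : y + (k + 1) • z = x + k • z := by
              rw [hx', add_smul, one_smul]; abel
            rw [this]
            exact hx k le_rfl
      exact hAne k
    -- X1 is dense
    have hX1univ : X1 = univ := by
      rw [eq_univ_iff_forall]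
      intro y
      rw [← hX1closed.closure_eq, Metric.mem_closure_iff]
      intro ε hε
      obtain ⟨n, hn⟩ := exists_nat_gt (1 / ε)
      set t := 6 * n + 1 with ht
      have ht2 : Nat.Coprime 2 t := by
        rw [Nat.Prime.coprime_iff_not_dvd Nat.prime_two]; omega
      have ht3 : Nat.Coprime 3 t := by
        rw [Nat.Prime.coprime_iff_not_dvd Nat.prime_three]; omega
      obtain ⟨x, hx⟩ := main t ht2 ht3 (by omega) t
      obtain ⟨w, hw⟩ := QuotientAddGroup.mk_surjective (y - x)
      have hw1 : y - x = ((Int.fract w : ℝ) : AddCircle (1 : ℝ)) := by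
        rw [← hw]
        show (w : AddCircle (1 : ℝ)) = _
        conv_lhs => rw [← Int.fract_add_floor w]
        rw [AddCircle.coe_add]
        have h1 : (((⌊w⌋ : ℝ)) : AddCircle (1 : ℝ)) = 0 := by
          rw [AddCircle.coe_eq_zero_iff]
          exact ⟨⌊w⌋, by simp⟩
        rw [h1, add_zero]
      have ht0 : (0 : ℝ) < t := by exact_mod_cast (by omega : 0 < t)
      set i := ⌊Int.fract w * t⌋₊ with hi
      have hi1 : (i : ℝ) ≤ Int.fract w * t := Nat.floor_le (by
        have := Int.fract_nonneg w; positivity)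
      have hi2 : Int.fract w * t < i + 1 := Nat.lt_floor_add_one _
      have hit : i ≤ t := by
        have h1 : Int.fract w * t ≤ 1 * t :=
          mul_le_mul_of_nonneg_right (Int.fract_lt_one w).le ht0.le
        have : (i : ℝ) ≤ t := by linarith
        exact_mod_cast this
      refine ⟨x + i • ((1 / t : ℝ) : AddCircle (1 : ℝ)), hx i hit, ?_⟩
      rw [dist_eq_norm]
      have h1 : y - (x + i • ((1 / t : ℝ) : AddCircle (1 : ℝ))) =
          ((Int.fract w - i * (1 / t) : ℝ) : AddCircle (1 : ℝ)) := by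
        rw [AddCircle.coe_sub, ← hw1, ← nsmul_eq_mul, AddCircle.coe_nsmul]
        abel
      rw [h1]
      refine lt_of_le_of_lt (b := |Int.fract w - i * (1 / t)|) ?_ ?_
      · rw [AddCircle.norm_eq]
        simp only [inv_one, one_mul, mul_one]
        exact round_le _ 0 |>.trans (by simp)
      · have hnt : (n : ℝ) < t := by rw [ht]; push_cast; nlinarith [Nat.cast_nonneg (α := ℝ) n]
        have h2 : 1 / ε < t := hn.trans hnt
        have h3 : (1 : ℝ) / t < ε := by
          rw [div_lt_iff₀ hε] at h2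
          rw [div_lt_iff₀ ht0]; linarith
        have h4 : Int.fract w - i * (1 / t) = (Int.fract w * t - i) / t := by
          field_simp
        rw [h4, abs_of_nonneg (div_nonneg (by linarith) ht0.le)]
        refine lt_of_le_of_lt ?_ h3
        exact div_le_div_of_nonneg_right (by linarith) ht0.le
    rw [eq_univ_iff_forall]
    intro y
    apply hX1sub
    rw [hX1univ]; trivial

end Pool.Agent.SubT
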