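import Pool.Agent.SubT.Wron

/-! Module GW: generalised Wronskian. Proof (1.2) of the text (Kronecker substitution). -/

namespace Pool.Agent.SubT

open scoped BigOperators

open Polynomial in
theorem gw_taylor (ψ : ℚ[X]) (i : ℕ) :
    (aeval (X + C X : ℚ[X][X]) ψ).coeff i = hasseDeriv i ψ := by
  induction ψ using Polynomial.induction_on' with
  | add p q hp hq => rw [map_add, coeff_add, hp, hq, map_add]
  | monomial n a =>
    rw [aeval_monomial, hasseDeriv_monomial]
    have h1 : (algebraMap ℚ ℚ[X][X]) a = C (C a) := rfl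
    rw [h1, coeff_C_mul, coeff_X_add_C_pow, ← C_mul_X_pow_eq_monomial]
    rw [map_mul, ← C_eq_natCast]
    ring

theorem gw_mv {m : ℕ} {B : Type*} [CommRing B] [Algebra ℚ B] (x y : Fin m → B) (D : ℕ)
    (P : MvPolynomial (Fin m) ℚ) (hP : ∀ d ∈ P.support, ∀ l, d l < D) :
    MvPolynomial.aeval (fun l => x l + y l) P =
      ∑ p ∈ Fintype.piFinset (fun _ : Fin m => Finset.range D),
        MvPolynomial.aeval x (hd (Finsupp.equivFunOnFinite.symm p) P) * ∏ l, y l ^ p l := by
  have h1 : ∀ p : Fin m → ℕ, MvPolynomial.aeval x (hd (Finsupp.equivFunOnFinite.symm p) P) =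
      ∑ d ∈ P.support, algebraMap ℚ B (P.coeff d) *
        ∏ l, (((d l).choose (p l) : ℕ) : B) * x l ^ (d l - p l) := by
    intro p
    rw [hd, map_sum]
    refine Finset.sum_congr rfl fun d _ => ?_
    rw [MvPolynomial.aeval_monomial, Finsupp.prod_fintype _ _ (fun i => by simp), map_mul,
      map_prod, Finset.prod_mul_distrib]
    simp only [map_natCast, Finsupp.coe_tsub, Pi.sub_apply, Finsupp.equivFunOnFinite_symm_apply_apply]
    ring
  simp only [h1]
  rw [MvPolynomial.aeval_def, MvPolynomial.eval₂_eq']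
  simp only [Finset.sum_mul]
  rw [Finset.sum_comm]
  refine Finset.sum_congr rfl fun d hd => ?_
  have h2 : ∀ l, (x l + y l) ^ d l =
      ∑ k ∈ Finset.range D, (((d l).choose k : ℕ) : B) * x l ^ (d l - k) * y l ^ k := by
    intro l
    rw [add_comm, add_pow]
    have h3 : Finset.range (d l + 1) ⊆ Finset.range D :=
      Finset.range_subset_range.2 (hP d hd l)
    rw [← Finset.sum_subset h3]
    · refine Finset.sum_congr rfl fun k _ => ?_
      ring
    · intro k _ hk
      rw [Finset.mem_range, not_lt] at hk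
      rw [Nat.choose_eq_zero_of_lt (by omega)]
      simp
  simp only [h2]
  rw [Finset.prod_univ_sum, Finset.mul_sum]
  refine Finset.sum_congr rfl fun p _ => ?_
  rw [Finset.prod_mul_distrib]
  ring

/-- the Kronecker exponents are different -/
theorem gw_inj (D : ℕ) : ∀ {m : ℕ} (a b : Fin m → ℕ), (∀ l, a l < D) → (∀ l, b l < D) →
    ∑ l : Fin m, D ^ (l : ℕ) * a l = ∑ l : Fin m, D ^ (l : ℕ) * b l → a = b := by
  intro m
  induction m with
  | zero =>
    intro a b _ _ _
    exact Subsingleton.elim _ _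
  | succ m ih =>
    intro a b ha hb h
    rw [Fin.sum_univ_succ, Fin.sum_univ_succ] at h
    simp only [Fin.val_zero, pow_zero, one_mul, Fin.val_succ] at h
    have h1 : ∀ c : Fin (m + 1) → ℕ, ∑ l : Fin m, D ^ ((l : ℕ) + 1) * c l.succ =
        D * ∑ l : Fin m, D ^ (l : ℕ) * c l.succ := by
      intro c
      rw [Finset.mul_sum]
      refine Finset.sum_congr rfl fun l _ => ?_
      ring
    rw [h1, h1] at h
    have hD : 0 < D := lt_of_le_of_lt (Nat.zero_le _) (ha 0)
    have h2 := congrArg (· % D) h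
    simp only [Nat.add_mul_mod_self_left] at h2
    rw [Nat.mod_eq_of_lt (ha 0), Nat.mod_eq_of_lt (hb 0)] at h2
    rw [h2] at h
    have h3 := Nat.eq_of_mul_eq_mul_left hD (Nat.add_left_cancel h)
    have h4 := ih (fun l => a l.succ) (fun l => b l.succ) (fun l => ha _) (fun l => hb _) h3
    funext l
    refine Fin.cases h2 (fun l => ?_) l
    exact congrFun h4 l

open Polynomial in
/-- the Kronecker substitution is injective on polynomials of small degrees -/
theorem gw_kron {m : ℕ} (D : ℕ) (P : MvPolynomial (Fin m) ℚ)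
    (hP : ∀ d ∈ P.support, ∀ l, d l < D)
    (h : MvPolynomial.aeval (fun l : Fin m => (X : ℚ[X]) ^ (D ^ (l : ℕ))) P = 0) : P = 0 := by
  by_contra hne
  obtain ⟨d, hd⟩ := MvPolynomial.support_nonempty.2 hne
  have h1 := congrArg (fun f : ℚ[X] => f.coeff (∑ l : Fin m, D ^ (l : ℕ) * d l)) h
  simp only [coeff_zero] at h1
  rw [MvPolynomial.aeval_def, MvPolynomial.eval₂_eq', finsetSum_coeff, Finset.sum_eq_single d] at h1
  · have h2 : (∏ i : Fin m, ((X : ℚ[X]) ^ D ^ (i : ℕ)) ^ d i) = X ^ (∑ l : Fin m, D ^ (l : ℕ) * d l) := by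
      rw [← Finset.prod_pow_eq_pow_sum]
      refine Finset.prod_congr rfl fun i _ => ?_
      rw [← pow_mul]
    rw [h2, Polynomial.algebraMap_apply, coeff_C_mul, coeff_X_pow_self, mul_one] at h1
    exact (MvPolynomial.mem_support_iff.1 hd) h1
  · intro e he hed
    have h2 : (∏ i : Fin m, ((X : ℚ[X]) ^ D ^ (i : ℕ)) ^ e i) = X ^ (∑ l : Fin m, D ^ (l : ℕ) * e l) := by
      rw [← Finset.prod_pow_eq_pow_sum]
      refine Finset.prod_congr rfl fun i _ => ?_
      rw [← pow_mul]
    rw [h2, Polynomial.algebraMap_apply, coeff_C_mul, coeff_X_pow, if_neg, mul_zero]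
    intro h3
    apply hed
    exact (DFunLike.coe_injective (gw_inj D _ _ (hP d hd) (hP e he) h3)).symm
  · intro h3
    exact absurd hd h3

open Polynomial in
theorem gw {m k : ℕ} (φ : Fin k → MvPolynomial (Fin m) ℚ) (h : LinearIndependent ℚ φ) :
    ∃ μ : Fin k → (Fin m →₀ ℕ), (∀ i, ∑ l, μ i l ≤ (i : ℕ)) ∧
      Matrix.det (fun i j : Fin k => hd (μ i) (φ j)) ≠ 0 := by
  classical
  -- a bound for the degrees
  obtain ⟨D, hD⟩ : ∃ D : ℕ, ∀ j, ∀ d ∈ (φ j).support, ∀ l, d l < D := by
    refine ⟨(Finset.univ.sup fun j => (φ j).totalDegree) + 1, fun j d hd l => ?_⟩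
    have h1 : d l ≤ d.degree := Finsupp.le_degree l d
    have h2 : d.degree ≤ (φ j).totalDegree := by
      rw [Finsupp.degree_eq_sum]
      exact le_trans (by rw [Finsupp.sum_fintype _ _ (fun _ => rfl)]) (MvPolynomial.le_totalDegree hd)
    have h3 : (φ j).totalDegree ≤ Finset.univ.sup fun j => (φ j).totalDegree :=
      Finset.le_sup (f := fun j => (φ j).totalDegree) (Finset.mem_univ j)
    omega
  set κ : MvPolynomial (Fin m) ℚ →ₐ[ℚ] ℚ[X] :=
    MvPolynomial.aeval (fun l : Fin m => (X : ℚ[X]) ^ (D ^ (l : ℕ))) with hκ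
  have hψ : LinearIndependent ℚ fun j => κ (φ j) := by
    rw [Fintype.linearIndependent_iff] at h ⊢
    intro g hg
    apply h g
    apply gw_kron D
    · intro d hd l
      have hd' : d ∈ Finset.univ.biUnion fun j => (g j • φ j).support :=
        MvPolynomial.support_sum hd
      rw [Finset.mem_biUnion] at hd'
      obtain ⟨j, -, hj⟩ := hd'
      exact hD j d (MvPolynomial.support_smul hj) l
    · rw [← hκ, map_sum, ← hg]
      simp only [map_smul]
  have hw := w1 (fun j => κ (φ j)) hψ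
  -- the Kronecker curve
  have hη : ∀ l : Fin m, ∃ η : ℚ[X][X], (X + C X : ℚ[X][X]) ^ (D ^ (l : ℕ)) =
      C (X ^ (D ^ (l : ℕ))) + X * η := by
    intro l
    have h1 := sub_dvd_pow_sub_pow (X + C X : ℚ[X][X]) (C X) (D ^ (l : ℕ))
    rw [add_sub_cancel_right] at h1
    obtain ⟨η, hη⟩ := h1
    refine ⟨η, ?_⟩
    rw [← hη, C_pow]
    ring
  choose η hη using hη
  set S : Finset (Fin m → ℕ) := Fintype.piFinset (fun _ : Fin m => Finset.range D) with hS
  set e : ℕ → (Fin m → ℕ) → ℚ[X] := fun i p =>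
    (∏ l, ((X : ℚ[X][X]) * η l) ^ p l).coeff i with he
  have he0 : ∀ i p, i < ∑ l, p l → e i p = 0 := by
    intro i p hi
    have h1 : ∏ l, ((X : ℚ[X][X]) * η l) ^ p l = X ^ (∑ l, p l) * ∏ l, η l ^ p l := by
      rw [← Finset.prod_pow_eq_pow_sum, ← Finset.prod_mul_distrib]
      refine Finset.prod_congr rfl fun l _ => ?_
      rw [mul_pow]
    simp only [he]
    rw [h1, coeff_X_pow_mul', if_neg (by omega)]
  have hexp : ∀ (i : ℕ) (j : Fin k), hasseDeriv i (κ (φ j)) =
      ∑ p ∈ S, e i p • κ (hd (Finsupp.equivFunOnFinite.symm p) (φ j)) := by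
    intro i j
    rw [← gw_taylor]
    have h1 : aeval (X + C X : ℚ[X][X]) (κ (φ j)) =
        MvPolynomial.aeval (fun l : Fin m => C (X ^ (D ^ (l : ℕ))) + X * η l) (φ j) := by
      have h2 : (aeval (X + C X : ℚ[X][X])).comp κ =
          MvPolynomial.aeval (fun l : Fin m => C (X ^ (D ^ (l : ℕ))) + X * η l) := by
        apply MvPolynomial.algHom_ext
        intro l
        rw [AlgHom.comp_apply, hκ, MvPolynomial.aeval_X, MvPolynomial.aeval_X, map_pow, aeval_X, hη]
      rw [← h2]
      rfl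
    rw [h1, gw_mv _ _ D (φ j) (hD j), finsetSum_coeff]
    refine Finset.sum_congr rfl fun p _ => ?_
    have h3 : MvPolynomial.aeval (fun l : Fin m => (C (X ^ (D ^ (l : ℕ))) : ℚ[X][X]))
        (hd (Finsupp.equivFunOnFinite.symm p) (φ j)) =
        C (κ (hd (Finsupp.equivFunOnFinite.symm p) (φ j))) := by
      have h4 : MvPolynomial.aeval (fun l : Fin m => (C (X ^ (D ^ (l : ℕ))) : ℚ[X][X])) =
          (IsScalarTower.toAlgHom ℚ ℚ[X] ℚ[X][X]).comp κ := by
        apply MvPolynomial.algHom_ext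
        intro l
        rw [AlgHom.comp_apply, hκ, MvPolynomial.aeval_X, MvPolynomial.aeval_X]
        rfl
      rw [h4]
      rfl
    rw [h3, coeff_C_mul, smul_eq_mul, mul_comm]
  -- expand the determinant
  have hdet : Matrix.det (fun i j : Fin k => hasseDeriv (i : ℕ) (κ (φ j))) =
      ∑ r ∈ Fintype.piFinset (fun _ : Fin k => S), (∏ i : Fin k, e (i : ℕ) (r i)) *
        κ (Matrix.det (fun i j : Fin k => hd (Finsupp.equivFunOnFinite.symm (r i)) (φ j))) := by
    have h1 : (fun i j : Fin k => hasseDeriv (i : ℕ) (κ (φ j))) = fun i : Fin k =>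
        ∑ p ∈ S, e (i : ℕ) p • (fun j => κ (hd (Finsupp.equivFunOnFinite.symm p) (φ j))) := by
      funext i j
      rw [hexp, Finset.sum_apply]
      rfl
    have h2 := (Matrix.detRowAlternating (R := ℚ[X]) (n := Fin k)).toMultilinearMap.map_sum_finset
      (fun (i : Fin k) (p : Fin m → ℕ) => e (i : ℕ) p •
        (fun j => κ (hd (Finsupp.equivFunOnFinite.symm p) (φ j)))) (fun _ => S)
    have h3 : Matrix.det (fun i j : Fin k => hasseDeriv (i : ℕ) (κ (φ j))) =
        (Matrix.detRowAlternating (R := ℚ[X]) (n := Fin k)).toMultilinearMap (fun i : Fin k =>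
        ∑ p ∈ S, e (i : ℕ) p • (fun j => κ (hd (Finsupp.equivFunOnFinite.symm p) (φ j)))) := by
      rw [h1]
      rfl
    rw [h3, h2]
    refine Finset.sum_congr rfl fun r _ => ?_
    rw [MultilinearMap.map_smul_univ, smul_eq_mul]
    congr 1
    have h4 := AlgHom.map_det κ
      (fun i j : Fin k => hd (Finsupp.equivFunOnFinite.symm (r i)) (φ j))
    rw [h4]
    rfl
  rw [hdet] at hw
  obtain ⟨r, -, hr⟩ := Finset.exists_ne_zero_of_sum_ne_zero hw
  refine ⟨fun i => Finsupp.equivFunOnFinite.symm (r i), fun i => ?_, fun h0 => ?_⟩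
  · by_contra hlt
    rw [not_le] at hlt
    apply hr
    have h1 : e (i : ℕ) (r i) = 0 := he0 _ _ (by simpa using hlt)
    rw [Finset.prod_eq_zero (Finset.mem_univ i) h1, zero_mul]
  · apply hr
    have h1 : Matrix.det (fun i j : Fin k => hd (Finsupp.equivFunOnFinite.symm (r i)) (φ j)) = 0 := h0
    rw [h1, map_zero, mul_zero]

theorem gw_hd_map {m : ℕ} (μ : Fin m →₀ ℕ) (P : MvPolynomial (Fin m) ℤ) :
    hd μ (MvPolynomial.map (Int.castRingHom ℚ) P) =
      MvPolynomial.map (Int.castRingHom ℚ) (hd μ P) := by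
  have hs : (MvPolynomial.map (Int.castRingHom ℚ) P).support = P.support :=
    MvPolynomial.support_map_of_injective _ Int.cast_injective
  rw [hd, hd, hs, map_sum]
  refine Finset.sum_congr rfl fun d _ => ?_
  rw [MvPolynomial.map_monomial, MvPolynomial.coeff_map]
  congr 1
  rw [RingHom.map_mul, map_prod]
  simp

/-- The same for integer polynomials. -/
theorem gwZ {m k : ℕ} (φ : Fin k → MvPolynomial (Fin m) ℤ)
    (h : LinearIndependent ℚ fun j => MvPolynomial.map (Int.castRingHom ℚ) (φ j)) :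
    ∃ μ : Fin k → (Fin m →₀ ℕ), (∀ i, ∑ l, μ i l ≤ (i : ℕ)) ∧
      Matrix.det (fun i j : Fin k => hd (μ i) (φ j)) ≠ 0 := by
  obtain ⟨μ, h1, h2⟩ := gw _ h
  refine ⟨μ, h1, fun h0 => h2 ?_⟩
  have h3 := RingHom.map_det (MvPolynomial.map (Int.castRingHom ℚ))
    (fun i j : Fin k => hd (μ i) (φ j))
  rw [h0, map_zero] at h3
  have h4 : (fun i j : Fin k => hd (μ i) (MvPolynomial.map (Int.castRingHom ℚ) (φ j))) =
      (MvPolynomial.map (Int.castRingHom ℚ)).mapMatrix
        (fun i j : Fin k => hd (μ i) (φ j)) := by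
    funext i j
    exact gw_hd_map (μ i) (φ j)
  rw [h4]
  exact h3.symm

end Pool.Agent.SubT
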