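import Pool.Agent.SubT.Defs

/-! Module GAP. Text: team-store MP_e27144_an_pr_growth_helper66.md.
HINT: numbers only; section 6 first paragraph. D = Q^delta-prime. -/

namespace Pool.Agent.SubT

open scoped BigOperators ENNReal

open MeasureTheory Set Filter Topology

private theorem gap_sum (n : ℕ) : ∑ i : Fin n, (n - i.val) = n * (n + 1) / 2 := by
  rw [Fin.sum_univ_eq_sum_range (fun i => n - i) n]
  have h1 : ∑ i ∈ Finset.range n, (n - i) = ∑ i ∈ Finset.range n, (i + 1) := by
    rw [← Finset.sum_range_reflect (fun i => i + 1) n]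
    refine Finset.sum_congr rfl fun i hi => ?_
    have := Finset.mem_range.1 hi
    omega
  have h2 : ∑ i ∈ Finset.range n, (i + 1) = ∑ i ∈ Finset.range (n + 1), i := by
    rw [Finset.sum_range_succ' (fun i => i) n]
    simp
  rw [h1, h2, Finset.sum_range_id]
  rw [Nat.add_sub_cancel, mul_comm]

/-- GAP: choice of `k` (numbers only). `D = Q^delta'`, `D^n = Q^delta`. -/
theorem exists_gap {n : ℕ} (lam : Fin n → ℝ) (hpos : ∀ i, 0 < lam i)
    (hmono : Monotone lam) (D : ℝ) (hD : 1 < D)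
    (hprod : (D ^ (n * (n + 1) / 2))⁻¹ < ∏ i, lam i)
    (h0 : ∃ i, lam i ≤ (D ^ n)⁻¹) :
    ∃ k : ℕ, 1 ≤ k ∧ k < n ∧ (∀ j : Fin n, lam j ≤ (D ^ n)⁻¹ → j.val < k) ∧
      ∀ i j : Fin n, i.val + 1 = k → j.val = k → D * lam i ≤ lam j := by
  by_contra hcon
  push Not at hcon
  have hD0 : 0 < D := by linarith
  have key : ∀ i : ℕ, ∀ hi : i < n, lam ⟨i, hi⟩ ≤ (D ^ (n - i))⁻¹ := by
    intro i
    induction i with
    | zero =>
      intro hi
      obtain ⟨i0, hi0⟩ := h0
      exact (hmono (Fin.mk_le_of_le_val (Nat.zero_le _))).trans hi0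
    | succ i ih =>
      intro hi
      by_cases hc : lam ⟨i + 1, hi⟩ ≤ (D ^ n)⁻¹
      · refine hc.trans ?_
        apply inv_anti₀ (pow_pos hD0 _)
        exact pow_le_pow_right₀ hD.le (by omega)
      · obtain ⟨a, b, ha, hb, hab⟩ := hcon (i + 1) (by omega) hi (fun j hj => by
          by_contra hlt
          push Not at hlt
          exact hc ((hmono (show (⟨i + 1, hi⟩ : Fin n) ≤ j from hlt)).trans hj))
        have hb' : b = ⟨i + 1, hi⟩ := Fin.ext hb
        have ha' : a = ⟨i, by omega⟩ := Fin.ext (by simpa using ha)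
        rw [hb', ha'] at hab
        have h1 := ih (by omega)
        have e : n - i = (n - (i + 1)) + 1 := by omega
        rw [e, pow_succ, mul_inv] at h1
        calc lam ⟨i + 1, hi⟩ ≤ D * lam ⟨i, by omega⟩ := hab.le
          _ ≤ D * ((D ^ (n - (i + 1)))⁻¹ * D⁻¹) := mul_le_mul_of_nonneg_left h1 hD0.le
          _ = (D ^ (n - (i + 1)))⁻¹ := by
            field_simp
  have h2 : ∏ i, lam i ≤ ∏ i : Fin n, (D ^ (n - i.val))⁻¹ :=
    Finset.prod_le_prod (fun i _ => (hpos i).le) fun i _ => key i.val i.2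
  rw [Finset.prod_inv_distrib, Finset.prod_pow_eq_pow_sum, gap_sum] at h2
  exact absurd hprod (not_lt.2 h2)

end Pool.Agent.SubT
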