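import Pool.Agent.SubT.Defs

/-! Module GAUSS: (1.3) of the text. -/

namespace Pool.Agent.SubT

open scoped BigOperators

private theorem gauss_pow {A : Polynomial ℤ} (h : A.IsPrimitive) (l : ℕ) : (A ^ l).IsPrimitive := by
  induction l with
  | zero =>
    rw [pow_zero]
    exact Polynomial.isPrimitive_one
  | succ l ih =>
    rw [pow_succ]
    exact ih.mul h

theorem gauss1 (F : Polynomial ℤ) (hF : F ≠ 0) (p : ℤ) (q : ℕ) (hq : 1 ≤ q)
    (hpq : IsCoprime p (q : ℤ)) (l : ℕ)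
    (h : (Polynomial.X - Polynomial.C ((p : ℚ) / (q : ℚ))) ^ l ∣
      F.map (Int.castRingHom ℚ)) :
    (q : ℝ) ^ l ≤ ∑ i ∈ F.support, |((F.coeff i : ℤ) : ℝ)| := by
  have hq0 : (q : ℚ) ≠ 0 := by
    have : (0 : ℚ) < q := by exact_mod_cast hq
    exact this.ne'
  have hqz : (q : ℤ) ≠ 0 := by exact_mod_cast (by omega : q ≠ 0)
  set A : Polynomial ℤ := Polynomial.C (q : ℤ) * Polynomial.X + Polynomial.C (-p) with hA
  have hlc : A.leadingCoeff = q := Polynomial.leadingCoeff_linear hqz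
  have hprim : A.IsPrimitive := by
    rw [Polynomial.isPrimitive_iff_isUnit_of_C_dvd]
    intro r hr
    rw [Polynomial.C_dvd_iff_dvd_coeff] at hr
    have h0 := hr 0
    have h1 := hr 1
    simp only [hA, Polynomial.coeff_add, Polynomial.coeff_C_mul, Polynomial.coeff_X_zero, mul_zero,
      Polynomial.coeff_C_zero, zero_add, Polynomial.coeff_X_one, mul_one] at h0 h1
    rw [Polynomial.coeff_C_of_ne_zero one_ne_zero, add_zero] at h1
    rw [dvd_neg] at h0
    exact hpq.isUnit_of_dvd' h0 h1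
  have hpow : (A ^ l).IsPrimitive := gauss_pow hprim l
  have hmapA : (A ^ l).map (Int.castRingHom ℚ) =
      Polynomial.C ((q : ℚ) ^ l) * (Polynomial.X - Polynomial.C ((p : ℚ) / (q : ℚ))) ^ l := by
    rw [Polynomial.C_pow, ← mul_pow, Polynomial.map_pow]
    congr 1
    rw [hA, mul_sub, ← Polynomial.C_mul, mul_div_cancel₀ _ hq0]
    simp [sub_eq_add_neg]
  have hdiv : (A ^ l).map (Int.castRingHom ℚ) ∣ F.map (Int.castRingHom ℚ) := by
    have h3 : IsUnit (Polynomial.C ((q : ℚ) ^ l)) :=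
      Polynomial.isUnit_C.2 (IsUnit.mk0 _ (pow_ne_zero _ hq0))
    rw [hmapA, h3.mul_left_dvd]
    exact h
  have hdvd : A ^ l ∣ F :=
    (Polynomial.IsPrimitive.Int.dvd_iff_map_cast_dvd_map_cast _ _ hpow).2 hdiv
  obtain ⟨G, hG⟩ := hdvd
  have hG0 : G ≠ 0 := by
    rintro rfl
    rw [mul_zero] at hG
    exact hF hG
  have hlF : F.leadingCoeff = (q : ℤ) ^ l * G.leadingCoeff := by
    rw [hG, Polynomial.leadingCoeff_mul, Polynomial.leadingCoeff_pow, hlc]
  have hGl : (1 : ℤ) ≤ |G.leadingCoeff| :=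
    Int.one_le_abs (Polynomial.leadingCoeff_ne_zero.2 hG0)
  have h5 : (q : ℤ) ^ l ≤ |F.leadingCoeff| := by
    rw [hlF, abs_mul, abs_of_nonneg (by positivity)]
    nlinarith [pow_pos (show (0 : ℤ) < q by exact_mod_cast hq) l]
  have h6 : (q : ℝ) ^ l ≤ |((F.coeff F.natDegree : ℤ) : ℝ)| := by
    rw [Polynomial.coeff_natDegree]
    exact_mod_cast h5
  refine h6.trans ?_
  exact Finset.single_le_sum (f := fun i => |((F.coeff i : ℤ) : ℝ)|) (fun i _ => abs_nonneg _)
    (Polynomial.natDegree_mem_support_of_nonzero hF)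

end Pool.Agent.SubT
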