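import Pool.Agent.SubT.Normal

/-! Module HEIGHT. Text: team-store MP_e27144_an_pr_growth_helper66.md.
HINT: (3.2) of the text, both cases. Index sets I_v = {i : L*_(v,i)(h) != 0}: finitely many I : Pl -> Finset; VV = {orthogonal complements of W_I}; an integral basis of each W_I; kappa = Delta/7. -/

namespace Pool.Agent.SubT

open scoped BigOperators ENNReal

open MeasureTheory Set Filter Topology

/-- the dual forms -/
noncomputable def HEIGHT_L {n : ℕ} (M : Pl → Matrix (Fin n) (Fin n) ℚ) (v : Pl) :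
    Matrix (Fin n) (Fin n) ℚ := ((M v)⁻¹).transpose

theorem HEIGHT_dual {n : ℕ} (M : Pl → Matrix (Fin n) (Fin n) ℚ) (hM : ∀ v, (M v).det ≠ 0)
    (v : Pl) (w x : Fin n → ℚ) :
    ∑ k, w k * x k = ∑ i, (HEIGHT_L M v).mulVec w i * lin M v i x := by
  have hunit : IsUnit (M v).det := isUnit_iff_ne_zero.2 (hM v)
  have h1 : w ⬝ᵥ x = ((M v)⁻¹.transpose.mulVec w) ⬝ᵥ ((M v).mulVec x) := by
    rw [Matrix.mulVec_transpose, ← Matrix.dotProduct_mulVec, Matrix.mulVec_mulVec,
      Matrix.nonsing_inv_mul _ hunit, Matrix.one_mulVec]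
  exact h1

theorem HEIGHT_inj {n : ℕ} (M : Pl → Matrix (Fin n) (Fin n) ℚ) (hM : ∀ v, (M v).det ≠ 0)
    (v : Pl) {w : Fin n → ℚ} (hw : w ≠ 0) : ∃ i, (HEIGHT_L M v).mulVec w i ≠ 0 := by
  by_contra hcon
  push Not at hcon
  apply hw
  funext k
  have h1 := HEIGHT_dual M hM v w (Pi.single k 1)
  rw [Finset.sum_eq_single k] at h1
  · rw [Pi.single_eq_same, mul_one] at h1
    rw [h1]
    exact Finset.sum_eq_zero fun i _ => by rw [hcon i, zero_mul]
  · intro b _ hb
    rw [Pi.single_eq_of_ne hb, mul_zero]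
  · intro h
    exact absurd (Finset.mem_univ k) h

/-- the spaces `W_I` -/
def HEIGHT_W {n : ℕ} (M : Pl → Matrix (Fin n) (Fin n) ℚ) (I : Pl → Finset (Fin n)) :
    Submodule ℚ (Fin n → ℚ) where
  carrier := {w | ∀ v, ∀ i ∉ I v, (HEIGHT_L M v).mulVec w i = 0}
  add_mem' := by
    intro a b ha hb v i hi
    rw [Matrix.mulVec_add, Pi.add_apply, ha v i hi, hb v i hi, add_zero]
  zero_mem' := by
    intro v i hi
    rw [Matrix.mulVec_zero]
    rfl
  smul_mem' := by
    intro r a ha v i hi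
    rw [Matrix.mulVec_smul, Pi.smul_apply, ha v i hi, smul_zero]

/-- the orthogonal complement -/
def HEIGHT_orth {n : ℕ} (W : Submodule ℚ (Fin n → ℚ)) : Submodule ℚ (Fin n → ℚ) where
  carrier := {x | ∀ w ∈ W, ∑ k, w k * x k = 0}
  add_mem' := by
    intro a b ha hb w hw
    have h1 := ha w hw
    have h2 := hb w hw
    simp only [Pi.add_apply, mul_add, Finset.sum_add_distrib]
    rw [h1, h2, add_zero]
  zero_mem' := by
    intro w _
    simp
  smul_mem' := by
    intro r a ha w hw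
    have h1 := ha w hw
    have h2 : ∀ k, w k * (r • a) k = r * (w k * a k) := fun k => by
      rw [Pi.smul_apply, smul_eq_mul]; ring
    simp only [h2]
    rw [← Finset.mul_sum, h1, mul_zero]

theorem HEIGHT_den {ι : Type*} [Fintype ι] (f : ι → ℚ) :
    ∃ D : ℕ, 0 < D ∧ ∀ i, ∃ z : ℤ, (D : ℚ) * f i = z := by
  classical
  refine ⟨∏ i, (f i).den, Finset.prod_pos fun i _ => (f i).den_pos, fun i => ?_⟩
  refine ⟨((∏ j ∈ Finset.univ.erase i, (f j).den : ℕ) : ℤ) * (f i).num, ?_⟩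
  have h1 : (∏ j, (f j).den) = (∏ j ∈ Finset.univ.erase i, (f j).den) * (f i).den := by
    rw [Finset.prod_erase_mul _ _ (Finset.mem_univ i)]
  have h2 : ((f i).den : ℚ) * f i = ((f i).num : ℚ) := by
    rw [mul_comm]
    exact Rat.mul_den_eq_num (f i)
  rw [h1]
  push_cast
  rw [mul_assoc, h2]

theorem HEIGHT_gen {n : ℕ} (W : Submodule ℚ (Fin n → ℚ)) :
    ∃ S : Finset (Fin n → ℚ), (∀ w ∈ S, InRn w) ∧ (∀ w ∈ S, w ∈ W) ∧
      ∀ x : Fin n → ℚ, (∀ w ∈ S, ∑ k, w k * x k = 0) → x ∈ HEIGHT_orth W := by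
  classical
  obtain ⟨S0, hS0⟩ : W.FG := IsNoetherian.noetherian W
  choose D hD hz using fun w : Fin n → ℚ => HEIGHT_den w
  refine ⟨S0.image (fun w => (D w : ℚ) • w), ?_, ?_, ?_⟩
  · intro w hw k
    obtain ⟨w', _, rfl⟩ := Finset.mem_image.1 hw
    obtain ⟨z, hz'⟩ := hz w' k
    have h1 : ((D w' : ℚ) • w') k = (z : ℚ) := by
      rw [Pi.smul_apply, smul_eq_mul, hz']
    rw [h1]
    exact inR_int z
  · intro w hw
    obtain ⟨w', hw', rfl⟩ := Finset.mem_image.1 hw
    exact W.smul_mem _ (hS0 ▸ Submodule.subset_span hw')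
  · intro x hx w hw
    rw [← hS0] at hw
    refine Submodule.span_induction (p := fun w _ => ∑ k, w k * x k = 0) ?_ ?_ ?_ ?_ hw
    · intro w' hw'
      have h1 := hx ((D w' : ℚ) • w') (Finset.mem_image_of_mem _ hw')
      have h2 : ∀ k, ((D w' : ℚ) • w') k * x k = (D w' : ℚ) * (w' k * x k) := fun k => by
        rw [Pi.smul_apply, smul_eq_mul]; ring
      simp only [h2] at h1
      rw [← Finset.mul_sum] at h1
      have h3 : (D w' : ℚ) ≠ 0 := by exact_mod_cast (hD w').ne'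
      exact (mul_eq_zero.1 h1).resolve_left h3
    · simp
    · intro a b _ _ ha hb
      simp only [Pi.add_apply, add_mul, Finset.sum_add_distrib]
      rw [ha, hb, add_zero]
    · intro r a _ ha
      have h2 : ∀ k, (r • a) k * x k = r * (a k * x k) := fun k => by
        rw [Pi.smul_apply, smul_eq_mul]; ring
      simp only [h2]
      rw [← Finset.mul_sum, ha, mul_zero]

/-- lower bound for the values of rational forms at integral points -/
theorem HEIGHT_low {n : ℕ} (A : Pl → Matrix (Fin n) (Fin n) ℚ) :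
    ∃ c : ℝ, 0 < c ∧ ∀ v : Pl, ∀ i : Fin n, ∀ y : Fin n → ℤ, ∀ B : ℝ, 0 < B →
      (∀ k, |((y k : ℤ) : ℝ)| ≤ B) → (A v).mulVec (fun k => (y k : ℚ)) i ≠ 0 →
        c / B ≤ av v ((A v).mulVec (fun k => (y k : ℚ)) i) := by
  classical
  obtain ⟨D, hD, hz⟩ := HEIGHT_den (fun p : Pl × Fin n × Fin n => A p.1 p.2.1 p.2.2)
  choose z hz using hz
  set E : ℝ := (∑ p : Pl × Fin n × Fin n, |((z p : ℤ) : ℝ)|) + 1 with hE
  have hEpos : 0 < E := by
    have : 0 ≤ ∑ p : Pl × Fin n × Fin n, |((z p : ℤ) : ℝ)| :=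
      Finset.sum_nonneg fun p _ => abs_nonneg _
    linarith
  have hDpos : (0 : ℝ) < D := by exact_mod_cast hD
  refine ⟨1 / (E * D), by positivity, fun v i y B hB hy hne => ?_⟩
  set x : ℚ := (A v).mulVec (fun k => (y k : ℚ)) i with hx
  set Z : ℤ := ∑ k, z (v, i, k) * y k with hZ
  have h1 : (D : ℚ) * x = (Z : ℚ) := by
    rw [hx, hZ, Matrix.mulVec, dotProduct, Finset.mul_sum]
    push_cast
    refine Finset.sum_congr rfl fun k _ => ?_
    rw [← mul_assoc, hz (v, i, k)]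
  have hZ0 : Z ≠ 0 := by
    intro h0
    rw [h0] at h1
    have hD' : (D : ℚ) ≠ 0 := by exact_mod_cast hD.ne'
    push_cast at h1
    exact hne ((mul_eq_zero.1 h1).resolve_left hD')
  have hZb : |(Z : ℝ)| ≤ E * B := by
    rw [hZ]
    push_cast
    calc |∑ k, ((z (v, i, k) : ℤ) : ℝ) * ((y k : ℤ) : ℝ)|
        ≤ ∑ k, |((z (v, i, k) : ℤ) : ℝ) * ((y k : ℤ) : ℝ)| := Finset.abs_sum_le_sum_abs _ _
      _ ≤ ∑ k, |((z (v, i, k) : ℤ) : ℝ)| * B := by
          refine Finset.sum_le_sum fun k _ => ?_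
          rw [abs_mul]
          exact mul_le_mul_of_nonneg_left (hy k) (abs_nonneg _)
      _ = (∑ k, |((z (v, i, k) : ℤ) : ℝ)|) * B := by rw [Finset.sum_mul]
      _ ≤ E * B := by
          refine mul_le_mul_of_nonneg_right ?_ hB.le
          have h2 : ∑ k, |((z (v, i, k) : ℤ) : ℝ)| ≤
              ∑ p : Pl × Fin n × Fin n, |((z p : ℤ) : ℝ)| := by
            have h3 : ∑ k, |((z (v, i, k) : ℤ) : ℝ)| =
                ∑ p ∈ Finset.univ.image (fun k : Fin n => ((v, i, k) : Pl × Fin n × Fin n)),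
                  |((z p : ℤ) : ℝ)| := by
              rw [Finset.sum_image]
              intro a _ b _ hab
              simpa using hab
            rw [h3]
            exact Finset.sum_le_sum_of_subset_of_nonneg (Finset.subset_univ _)
              fun p _ _ => abs_nonneg _
          linarith
  have h4 : av v (Z : ℚ) = av v (D : ℚ) * av v x := by rw [← h1, av_mul]
  have h5 := av_int_ge v hZ0
  have h6 : av v (D : ℚ) ≤ D := by
    have h7 := av_int_le v (D : ℤ)
    have h8 : max 1 |(((D : ℕ) : ℤ) : ℝ)| = (D : ℝ) := by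
      push_cast
      rw [abs_of_pos hDpos]
      exact max_eq_right (by exact_mod_cast hD)
    rw [h8] at h7
    exact_mod_cast h7
  have hZpos : 0 < |(Z : ℝ)| := abs_pos.2 (by exact_mod_cast hZ0)
  have h9 : 1 / (E * B) ≤ D * av v x := by
    calc 1 / (E * B) ≤ 1 / |(Z : ℝ)| := one_div_le_one_div_of_le hZpos hZb
      _ ≤ av v (Z : ℚ) := h5
      _ = av v (D : ℚ) * av v x := h4
      _ ≤ D * av v x := mul_le_mul_of_nonneg_right h6 (av_nonneg _ _)
  calc 1 / (E * D) / B = (1 / (E * B)) / D := by field_simp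
    _ ≤ (D * av v x) / D := by gcongr
    _ = av v x := by field_simp

/-- the upper bound for the dual forms at the cross product -/
theorem HEIGHT_up {n : ℕ} (M : Pl → Matrix (Fin (n + 1)) (Fin (n + 1)) ℚ)
    (hM : ∀ v, (M v).det ≠ 0) (c : Pl → Fin (n + 1) → ℝ) :
    ∃ C : ℝ, 0 < C ∧ ∀ Q : ℝ, 0 < Q → ∀ g : Fin n → Fin (n + 1) → ℚ,
      (∀ j, g j ∈ Sol M c Q) → ∀ h : Fin (n + 1) → ℚ,
      (∀ A : Matrix (Fin (n + 1)) (Fin (n + 1)) ℚ, A.det ≠ 0 → ∀ i : Fin (n + 1),
        ∃ s : ℚ, (s = 1 ∨ s = -1) ∧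
          (A⁻¹.transpose).mulVec h i = s * A.det⁻¹ *
            Matrix.det (fun a b : Fin n => A.mulVec (g b) (i.succAbove a))) →
      ∀ v i, av v ((HEIGHT_L M v).mulVec h i) ≤ C * Q ^ ((∑ j, c v j) - c v i) := by
  classical
  set C : ℝ := (∑ v : Pl, av v (M v).det⁻¹) * n.factorial with hC
  have hpos : ∀ v, 0 < av v (M v).det⁻¹ := fun v => av_pos v (inv_ne_zero (hM v))
  have hfac : (0 : ℝ) < n.factorial := by exact_mod_cast n.factorial_pos
  refine ⟨C, mul_pos (Finset.sum_pos (fun v _ => hpos v) Finset.univ_nonempty) hfac, ?_⟩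
  intro Q hQ g hg h hcross v i
  obtain ⟨s, hs, hh⟩ := hcross (M v) (hM v) i
  have h1 : av v s = 1 := by
    rcases hs with rfl | rfl
    · exact av_one v
    · rw [av_neg, av_one]
  have h2 : av v (Matrix.det (fun a b : Fin n => (M v).mulVec (g b) (i.succAbove a))) ≤
      n.factorial * ∏ a : Fin n, Q ^ (c v (i.succAbove a)) :=
    av_det_le v (fun a b : Fin n => (M v).mulVec (g b) (i.succAbove a))
      (fun a => Q ^ (c v (i.succAbove a))) fun a b => (hg b).2 v (i.succAbove a)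
  have h3 : ∏ a : Fin n, Q ^ (c v (i.succAbove a)) = Q ^ ((∑ j, c v j) - c v i) := by
    rw [← Real.rpow_sum_of_pos hQ]
    congr 1
    rw [Fin.sum_univ_succAbove _ i]
    ring
  have h4 : (HEIGHT_L M v).mulVec h i = s * (M v).det⁻¹ *
      Matrix.det (fun a b : Fin n => (M v).mulVec (g b) (i.succAbove a)) := hh
  have h5 : av v (M v).det⁻¹ ≤ ∑ v : Pl, av v (M v).det⁻¹ :=
    Finset.single_le_sum (f := fun v => av v (M v).det⁻¹) (fun v _ => (hpos v).le)
      (Finset.mem_univ v)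
  rw [h4, av_mul, av_mul, h1, one_mul]
  calc av v (M v).det⁻¹ *
        av v (Matrix.det (fun a b : Fin n => (M v).mulVec (g b) (i.succAbove a)))
      ≤ (∑ v : Pl, av v (M v).det⁻¹) * (n.factorial * Q ^ ((∑ j, c v j) - c v i)) := by
        rw [← h3]
        exact mul_le_mul h5 h2 (av_nonneg _ _) (le_trans (hpos v).le h5)
    _ = C * Q ^ ((∑ j, c v j) - c v i) := by rw [hC]; ring

/-- the cross product is a multiple of the primitive normal vector -/
theorem HEIGHT_mult {n : ℕ} (g : Fin n → Fin (n + 1) → ℚ) (hg : LinearIndependent ℚ g)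
    (y b : Fin (n + 1) → ℚ) (hb : ∑ k, b k * y k = 1) (hy : ∀ j, ∑ k, y k * g j k = 0)
    (h : Fin (n + 1) → ℚ) (hh : ∀ j, ∑ k, h k * g j k = 0) (k : Fin (n + 1)) :
    h k = (∑ k, b k * h k) * y k := by
  classical
  have hnot : b ∉ Submodule.span ℚ (Set.range g) := by
    intro hmem
    have h1 : ∑ k, b k * y k = 0 := by
      refine Submodule.span_induction (p := fun w _ => ∑ k, w k * y k = 0) ?_ ?_ ?_ ?_ hmem
      · rintro _ ⟨j, rfl⟩
        rw [← hy j]
        exact Finset.sum_congr rfl fun k _ => mul_comm _ _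
      · simp
      · intro a b _ _ ha hb
        simp only [Pi.add_apply, add_mul, Finset.sum_add_distrib]
        rw [ha, hb, add_zero]
      · intro r a _ ha
        have h2 : ∀ k, (r • a) k * y k = r * (a k * y k) := fun k => by
          rw [Pi.smul_apply, smul_eq_mul]; ring
        simp only [h2]
        rw [← Finset.mul_sum, ha, mul_zero]
    rw [hb] at h1
    exact one_ne_zero h1
  have hli : LinearIndependent ℚ (Fin.cons b g : Fin (n + 1) → (Fin (n + 1) → ℚ)) :=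
    linearIndependent_finCons.2 ⟨hg, hnot⟩
  have hrow : LinearIndependent ℚ (NORMAL_B b g).row := hli
  have hu := Matrix.linearIndependent_rows_iff_isUnit.1 hrow
  have hdet : (NORMAL_B b g).det ≠ 0 := by
    rw [Matrix.isUnit_iff_isUnit_det] at hu
    exact hu.ne_zero
  set u : ℚ := ∑ k, b k * h k with hu'
  have h0 : (fun k => h k - u * y k) = 0 := by
    refine Matrix.eq_zero_of_mulVec_eq_zero hdet ?_
    funext i
    refine Fin.cases ?_ (fun j => ?_) i
    · show ∑ l, b l * (h l - u * y l) = 0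
      have : ∀ l, b l * (h l - u * y l) = b l * h l - u * (b l * y l) := fun l => by ring
      simp only [this]
      rw [Finset.sum_sub_distrib, ← Finset.mul_sum, hb, ← hu']
      ring
    · show ∑ l, g j l * (h l - u * y l) = 0
      have : ∀ l, g j l * (h l - u * y l) = h l * g j l - u * (y l * g j l) := fun l => by ring
      simp only [this]
      rw [Finset.sum_sub_distrib, ← Finset.mul_sum, hy j, hh j]
      ring
  have h1 := congrFun h0 k
  simp only [Pi.zero_apply] at h1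
  linarith

/-- the span is the orthogonal complement -/
theorem HEIGHT_span {n : ℕ} (g : Fin n → Fin (n + 1) → ℚ) (hg : LinearIndependent ℚ g)
    (W : Submodule ℚ (Fin (n + 1) → ℚ)) (h : Fin (n + 1) → ℚ) (h0 : h ≠ 0) (hW : h ∈ W)
    (hgW : ∀ j, g j ∈ HEIGHT_orth W) :
    Submodule.span ℚ (Set.range g) = HEIGHT_orth W := by
  classical
  have hle : Submodule.span ℚ (Set.range g) ≤ HEIGHT_orth W := by
    rw [Submodule.span_le]
    rintro _ ⟨j, rfl⟩
    exact hgW j
  refine Submodule.eq_of_le_of_finrank_le hle ?_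
  rw [finrank_span_eq_card hg, Fintype.card_fin]
  have hlt : HEIGHT_orth W < ⊤ := by
    rw [lt_top_iff_ne_top]
    intro htop
    apply h0
    funext k
    have h1 : (Pi.single k 1 : Fin (n + 1) → ℚ) ∈ HEIGHT_orth W := by
      rw [htop]; exact Submodule.mem_top
    have h2 := h1 h hW
    rw [Finset.sum_eq_single k] at h2
    · rw [Pi.single_eq_same, mul_one] at h2
      rw [h2]
      rfl
    · intro b _ hb
      rw [Pi.single_eq_of_ne hb, mul_zero]
    · intro h'
      exact absurd (Finset.mem_univ k) h'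
  have h2 := Submodule.finrank_lt hlt.ne
  rw [Module.finrank_fintype_fun_eq_card, Fintype.card_fin] at h2
  omega

/-- HEIGHT. -/
theorem height {n : ℕ} (hn : 1 ≤ n) (M : Pl → Matrix (Fin (n + 1)) (Fin (n + 1)) ℚ)
    (hM : ∀ v, (M v).det ≠ 0) (c : Pl → Fin (n + 1) → ℝ) (hc : ∑ v, ∑ i, c v i < 0) :
    ∃ Q1 : ℝ, 1 < Q1 ∧ ∃ κ : ℝ, 0 < κ ∧ ∃ VV : Finset (Submodule ℚ (Fin (n + 1) → ℚ)),
      ∀ Q ≥ Q1, ∀ g : Fin n → Fin (n + 1) → ℚ, LinearIndependent ℚ g →
        (∀ j, g j ∈ Sol M c Q) → ∀ y : Fin (n + 1) → ℤ, (∃ b : Fin (n + 1) → ℤ, ∑ k, b k * y k = 1) →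
        (∀ j, ∑ k, (y k : ℚ) * g j k = 0) →
        Submodule.span ℚ (Set.range g) ∈ VV ∨ ∃ k, Q ^ κ ≤ |((y k : ℤ) : ℝ)| := by
  classical
  set Δ : ℝ := -∑ v, ∑ i, c v i with hΔ
  have hΔpos : 0 < Δ := by rw [hΔ]; linarith
  choose S hSR hSW hSo using fun I : Pl → Finset (Fin (n + 1)) => HEIGHT_gen (HEIGHT_W M I)
  obtain ⟨cl, hcl, hlow⟩ := HEIGHT_low (HEIGHT_L M)
  obtain ⟨cu, hcu, hup⟩ := HEIGHT_up M hM c
  -- the constant of case B
  set C2 : ℝ := ∑ I : Pl → Finset (Fin (n + 1)), ∑ w ∈ S I, ∑ v : Pl, ∑ i,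
    av v ((HEIGHT_L M v).mulVec w i) with hC2
  have hC2b : ∀ I, ∀ w ∈ S I, ∀ v : Pl, ∑ i, av v ((HEIGHT_L M v).mulVec w i) ≤ C2 := by
    intro I w hw v
    have hn1 : ∀ w v, 0 ≤ ∑ i, av v ((HEIGHT_L M v).mulVec w i) := fun w v =>
      Finset.sum_nonneg fun i _ => av_nonneg _ _
    have hn2 : ∀ w, 0 ≤ ∑ v : Pl, ∑ i, av v ((HEIGHT_L M v).mulVec w i) := fun w =>
      Finset.sum_nonneg fun v _ => hn1 w v
    have hn3 : ∀ I, 0 ≤ ∑ w ∈ S I, ∑ v : Pl, ∑ i, av v ((HEIGHT_L M v).mulVec w i) := fun I =>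
      Finset.sum_nonneg fun w _ => hn2 w
    calc ∑ i, av v ((HEIGHT_L M v).mulVec w i)
        ≤ ∑ v : Pl, ∑ i, av v ((HEIGHT_L M v).mulVec w i) :=
          Finset.single_le_sum (f := fun v => ∑ i, av v ((HEIGHT_L M v).mulVec w i))
            (fun v _ => hn1 w v) (Finset.mem_univ v)
      _ ≤ ∑ w ∈ S I, ∑ v : Pl, ∑ i, av v ((HEIGHT_L M v).mulVec w i) :=
          Finset.single_le_sum
            (f := fun w => ∑ v : Pl, ∑ i, av v ((HEIGHT_L M v).mulVec w i))
            (fun w _ => hn2 w) hw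
      _ ≤ C2 := Finset.single_le_sum
            (f := fun I => ∑ w ∈ S I, ∑ v : Pl, ∑ i, av v ((HEIGHT_L M v).mulVec w i))
            (fun I _ => hn3 I) (Finset.mem_univ I)
  have hC2n : 0 ≤ C2 := Finset.sum_nonneg fun I _ => Finset.sum_nonneg fun w _ =>
    Finset.sum_nonneg fun v _ => Finset.sum_nonneg fun i _ => av_nonneg _ _
  have e1 : ∀ᶠ Q : ℝ in atTop, (cu / cl) ^ 3 < Q ^ (Δ / 14) :=
    (tendsto_rpow_atTop (by positivity)).eventually_gt_atTop _
  have e2 : ∀ᶠ Q : ℝ in atTop, C2 ^ 3 < Q ^ (Δ / 2) :=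
    (tendsto_rpow_atTop (by positivity)).eventually_gt_atTop _
  obtain ⟨Q0, hQ0⟩ := eventually_atTop.1 (e1.and e2)
  refine ⟨max Q0 2, lt_of_lt_of_le one_lt_two (le_max_right _ _), Δ / 7, by positivity,
    Finset.univ.image (fun I : Pl → Finset (Fin (n + 1)) => HEIGHT_orth (HEIGHT_W M I)), ?_⟩
  intro Q hQ g hgli hgS y hyb hyg
  have hQ2 : 2 ≤ Q := le_trans (le_max_right _ _) hQ
  have hQpos : 0 < Q := by linarith
  have hQ1 : 1 ≤ Q := by linarith
  obtain ⟨hA, hB⟩ := hQ0 Q (le_trans (le_max_left _ _) hQ)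
  obtain ⟨b, hb⟩ := hyb
  obtain ⟨h, hh0, hhR, hhg, hhA⟩ := exists_cross g hgli fun j k => (hgS j).1 k
  -- the index sets
  set I : Pl → Finset (Fin (n + 1)) := fun v =>
    Finset.univ.filter fun i => (HEIGHT_L M v).mulVec h i ≠ 0 with hI
  have hmax : ∀ v, ∃ i ∈ I v, ∀ i' ∈ I v, c v i' ≤ c v i := by
    intro v
    obtain ⟨i, hi⟩ := HEIGHT_inj M hM v hh0
    exact Finset.exists_max_image (I v) (c v) ⟨i, Finset.mem_filter.2 ⟨Finset.mem_univ _, hi⟩⟩
  choose iv hiv himax using hmax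
  by_cases hcase : -Δ / 2 ≤ ∑ v, c v (iv v)
  · -- case A
    right
    by_contra hcon
    push Not at hcon
    have hbQ : ∑ k, (b k : ℚ) * (y k : ℚ) = 1 := by exact_mod_cast hb
    set u : ℚ := ∑ k, (b k : ℚ) * h k with hu
    have hmul : ∀ k, h k = u * (y k : ℚ) :=
      HEIGHT_mult g hgli (fun k => (y k : ℚ)) (fun k => (b k : ℚ)) hbQ hyg h hhg
    have huR : InR u := inR_sum _ _ fun k _ => inR_mul (inR_int _) (hhR k)
    have hu0 : u ≠ 0 := by
      intro h0
      apply hh0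
      funext k
      rw [hmul k, h0, zero_mul]
      rfl
    have hprod := prod_av_ge_one huR hu0
    have hLy : ∀ v i, (HEIGHT_L M v).mulVec h i =
        u * (HEIGHT_L M v).mulVec (fun k => (y k : ℚ)) i := by
      intro v i
      have h1 : h = u • (fun k => (y k : ℚ)) := by
        funext k
        rw [hmul k, Pi.smul_apply, smul_eq_mul]
      rw [h1, Matrix.mulVec_smul, Pi.smul_apply, smul_eq_mul]
    have hlo : ∀ v, av v u * (cl / Q ^ (Δ / 7)) ≤ av v ((HEIGHT_L M v).mulVec h (iv v)) := by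
      intro v
      have h1 : (HEIGHT_L M v).mulVec h (iv v) ≠ 0 := (Finset.mem_filter.1 (hiv v)).2
      rw [hLy] at h1
      have h2 : (HEIGHT_L M v).mulVec (fun k => (y k : ℚ)) (iv v) ≠ 0 :=
        (mul_ne_zero_iff.1 h1).2
      rw [hLy, av_mul]
      exact mul_le_mul_of_nonneg_left
        (hlow v (iv v) y (Q ^ (Δ / 7)) (Real.rpow_pos_of_pos hQpos _)
          (fun k => (hcon k).le) h2) (av_nonneg _ _)
    have hP1 : (cl / Q ^ (Δ / 7)) ^ 3 ≤ ∏ v : Pl, av v ((HEIGHT_L M v).mulVec h (iv v)) := by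
      have hq : 0 < cl / Q ^ (Δ / 7) := div_pos hcl (Real.rpow_pos_of_pos hQpos _)
      calc (cl / Q ^ (Δ / 7)) ^ 3 = 1 * (cl / Q ^ (Δ / 7)) ^ 3 := by ring
        _ ≤ (∏ v : Pl, av v u) * (cl / Q ^ (Δ / 7)) ^ 3 :=
            mul_le_mul_of_nonneg_right hprod (by positivity)
        _ = ∏ v : Pl, (av v u * (cl / Q ^ (Δ / 7))) := by
            rw [Finset.prod_mul_distrib, Finset.prod_const, Finset.card_univ, Fintype.card_fin]
        _ ≤ ∏ v : Pl, av v ((HEIGHT_L M v).mulVec h (iv v)) :=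
            Finset.prod_le_prod (fun v _ => mul_nonneg (av_nonneg _ _) hq.le) fun v _ => hlo v
    have hP2 : ∏ v : Pl, av v ((HEIGHT_L M v).mulVec h (iv v)) ≤ cu ^ 3 * Q ^ (-Δ / 2) := by
      calc ∏ v : Pl, av v ((HEIGHT_L M v).mulVec h (iv v))
          ≤ ∏ v : Pl, (cu * Q ^ ((∑ j, c v j) - c v (iv v))) :=
            Finset.prod_le_prod (fun v _ => av_nonneg _ _) fun v _ =>
              hup Q hQpos g hgS h hhA v (iv v)
        _ = cu ^ 3 * Q ^ (∑ v, ((∑ j, c v j) - c v (iv v))) := by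
            rw [Finset.prod_mul_distrib, Finset.prod_const, Finset.card_univ, Fintype.card_fin,
              Real.rpow_sum_of_pos hQpos]
        _ ≤ cu ^ 3 * Q ^ (-Δ / 2) := by
            refine mul_le_mul_of_nonneg_left ?_ (by positivity)
            refine Real.rpow_le_rpow_of_exponent_le hQ1 ?_
            rw [Finset.sum_sub_distrib]
            have : ∑ v, ∑ j, c v j = -Δ := by rw [hΔ]; ring
            rw [this]
            linarith
    have h3 := hP1.trans hP2
    have h4 : (Q ^ (Δ / 7)) ^ 3 = Q ^ (3 * Δ / 7) := by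
      rw [← Real.rpow_natCast, ← Real.rpow_mul hQpos.le]
      congr 1
      push_cast
      ring
    have h5 : Q ^ (3 * Δ / 7) * Q ^ (-Δ / 2) = (Q ^ (Δ / 14))⁻¹ := by
      rw [← Real.rpow_add hQpos, ← Real.rpow_neg hQpos.le]
      congr 1
      ring
    rw [div_pow, h4, div_le_iff₀ (Real.rpow_pos_of_pos hQpos _)] at h3
    have h6 : cl ^ 3 ≤ cu ^ 3 * (Q ^ (Δ / 14))⁻¹ := by
      rw [← h5]
      calc cl ^ 3 ≤ cu ^ 3 * Q ^ (-Δ / 2) * Q ^ (3 * Δ / 7) := h3
        _ = _ := by ring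
    have h7 : 0 < Q ^ (Δ / 14) := Real.rpow_pos_of_pos hQpos _
    rw [div_pow, div_lt_iff₀ (by positivity)] at hA
    have h8 : cl ^ 3 * Q ^ (Δ / 14) ≤ cu ^ 3 := by
      calc cl ^ 3 * Q ^ (Δ / 14) ≤ cu ^ 3 * (Q ^ (Δ / 14))⁻¹ * Q ^ (Δ / 14) :=
            mul_le_mul_of_nonneg_right h6 h7.le
        _ = cu ^ 3 := by field_simp
    linarith
  · -- case B
    push Not at hcase
    left
    refine Finset.mem_image.2 ⟨I, Finset.mem_univ _, ?_⟩
    have hWh : h ∈ HEIGHT_W M I := by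
      intro v i hi
      by_contra hne
      exact hi (Finset.mem_filter.2 ⟨Finset.mem_univ _, hne⟩)
    refine (HEIGHT_span g hgli (HEIGHT_W M I) h hh0 hWh fun j => ?_).symm
    refine hSo I (g j) fun w hw => ?_
    by_contra hne
    have hwR : InR (∑ k, w k * g j k) :=
      inR_sum _ _ fun k _ => inR_mul (hSR I w hw k) ((hgS j).1 k)
    have h1 := prod_av_ge_one hwR hne
    have hwW := hSW I w hw
    have h2 : ∀ v : Pl, av v (∑ k, w k * g j k) ≤ C2 * Q ^ (c v (iv v)) := by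
      intro v
      rw [HEIGHT_dual M hM v w (g j)]
      calc av v (∑ i, (HEIGHT_L M v).mulVec w i * lin M v i (g j))
          ≤ ∑ i, av v ((HEIGHT_L M v).mulVec w i * lin M v i (g j)) := av_sum_le _ _ _
        _ ≤ ∑ i, av v ((HEIGHT_L M v).mulVec w i) * Q ^ (c v (iv v)) := by
            refine Finset.sum_le_sum fun i _ => ?_
            rw [av_mul]
            by_cases hi : i ∈ I v
            · refine mul_le_mul_of_nonneg_left ?_ (av_nonneg _ _)
              exact ((hgS j).2 v i).trans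
                (Real.rpow_le_rpow_of_exponent_le hQ1 (himax v i hi))
            · rw [hwW v i hi, av_zero, zero_mul, zero_mul]
        _ = (∑ i, av v ((HEIGHT_L M v).mulVec w i)) * Q ^ (c v (iv v)) := by
            rw [Finset.sum_mul]
        _ ≤ C2 * Q ^ (c v (iv v)) :=
            mul_le_mul_of_nonneg_right (hC2b I w hw v) (Real.rpow_nonneg hQpos.le _)
    have h3 : ∏ v : Pl, av v (∑ k, w k * g j k) ≤ C2 ^ 3 * Q ^ (-Δ / 2) := by
      calc ∏ v : Pl, av v (∑ k, w k * g j k)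
          ≤ ∏ v : Pl, (C2 * Q ^ (c v (iv v))) :=
            Finset.prod_le_prod (fun v _ => av_nonneg _ _) fun v _ => h2 v
        _ = C2 ^ 3 * Q ^ (∑ v, c v (iv v)) := by
            rw [Finset.prod_mul_distrib, Finset.prod_const, Finset.card_univ, Fintype.card_fin,
              Real.rpow_sum_of_pos hQpos]
        _ ≤ C2 ^ 3 * Q ^ (-Δ / 2) := by
            refine mul_le_mul_of_nonneg_left ?_ (by positivity)
            exact Real.rpow_le_rpow_of_exponent_le hQ1 hcase.le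
    have h4 : Q ^ (-Δ / 2) = (Q ^ (Δ / 2))⁻¹ := by
      rw [← Real.rpow_neg hQpos.le]
      congr 1
      ring
    have h5 : 0 < Q ^ (Δ / 2) := Real.rpow_pos_of_pos hQpos _
    have h6 : C2 ^ 3 * (Q ^ (Δ / 2))⁻¹ < 1 := by
      rw [mul_inv_lt_iff₀ h5, one_mul]
      exact hB
    rw [h4] at h3
    linarith

end Pool.Agent.SubT
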