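import Pool.Agent.SubT.Defs

/-! Module STRIP. Text: team-store MP_e27144_an_pr_growth_helper66.md.
HINT: numbers only: sum_j min(t,w_j)^2/w_j <= 4 t for w_j = g/2^j, t <= g. -/

namespace Pool.Agent.SubT

open scoped BigOperators ENNReal

open MeasureTheory Set Filter Topology

private theorem strip_geo (J : ℕ) (g : ℝ) :
    ∑ j ∈ Finset.range J, (g / 2) / 2 ^ j = g - g / 2 ^ J := by
  induction J with
  | zero => simp
  | succ J ih =>
    rw [Finset.sum_range_succ, ih, pow_succ]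
    field_simp
    ring

private theorem strip_aux (J : ℕ) : ∀ (g t : ℝ), 0 < g → 0 ≤ t → t ≤ g →
    ∑ j ∈ Finset.range J, (min t (g / 2 ^ j)) ^ 2 / (g / 2 ^ j) ≤ 4 * t - t ^ 2 / g := by
  induction J with
  | zero =>
    intro g t hg ht htg
    simp only [Finset.range_zero, Finset.sum_empty]
    have h1 : t ^ 2 / g ≤ t := by
      rw [div_le_iff₀ hg]
      nlinarith
    linarith
  | succ J ih =>
    intro g t hg ht htg
    rw [Finset.sum_range_succ']
    have hw : ∀ j : ℕ, g / 2 ^ (j + 1) = (g / 2) / 2 ^ j := fun j => by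
      rw [pow_succ]
      field_simp
    simp only [hw, pow_zero, div_one]
    rw [min_eq_left htg]
    by_cases hc : t ≤ g / 2
    · have h1 := ih (g / 2) t (by linarith) ht hc
      have h2 : t ^ 2 / (g / 2) = 2 * (t ^ 2 / g) := by field_simp
      rw [h2] at h1
      linarith
    · push Not at hc
      have h1 : ∑ j ∈ Finset.range J, (min t (g / 2 / 2 ^ j)) ^ 2 / (g / 2 / 2 ^ j) ≤
          ∑ j ∈ Finset.range J, (g / 2) / 2 ^ j := by
        refine Finset.sum_le_sum fun j _ => ?_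
        have hwp : 0 < g / 2 / 2 ^ j := by positivity
        rw [div_le_iff₀ hwp]
        have h3 : min t (g / 2 / 2 ^ j) ≤ g / 2 / 2 ^ j := min_le_right _ _
        have h4 : 0 ≤ min t (g / 2 / 2 ^ j) := le_min ht hwp.le
        nlinarith
      rw [strip_geo] at h1
      have h2 : 0 < g / 2 ^ J := by positivity
      have h3 : g + 2 * (t ^ 2 / g) ≤ 4 * t := by
        have e : g + 2 * (t ^ 2 / g) = (g ^ 2 + 2 * t ^ 2) / g := by field_simp
        rw [e, div_le_iff₀ hg]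
        nlinarith
      linarith

/-- STRIP (numbers only): the pigeonhole over the twelve strips. `cnt j q` is the number of bad
points of the `j`-th strip in the triangle of `q`. -/
theorem strip_pigeon (g : ℝ) (R0 : ℕ) (hg : 4096 ≤ g) (hgR : 4000 * (R0 + 1) ≤ g)
    (QQ : Finset ℚ) (hR : QQ.card ≤ R0) (t : ℚ → ℝ) (ht0 : ∀ q ∈ QQ, 0 ≤ t q)
    (htg : ∀ q ∈ QQ, t q ≤ g) (hsum : ∑ q ∈ QQ, t q ≤ 1.05 * g) (cnt : ℕ → ℚ → ℝ)
    (hcnt : ∀ j < 12, ∀ q ∈ QQ, cnt j q ≤ 1.4 * (min (t q) (g / 2 ^ j)) ^ 2 +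
      2.4 * (min (t q) (g / 2 ^ j)) + 1) :
    ∃ j < 12, ∑ q ∈ QQ, cnt j q ≤ g * (g / 2 ^ j) / 2 := by
  by_contra hcon
  push Not at hcon
  have hg0 : 0 < g := by linarith
  have hRR : (QQ.card : ℝ) ≤ R0 := by exact_mod_cast hR
  have h1 : ∀ j ∈ Finset.range 12, g / 2 ≤
      1.4 * ∑ q ∈ QQ, (min (t q) (g / 2 ^ j)) ^ 2 / (g / 2 ^ j) + 2.9 * R0 := by
    intro j hj
    have hj' : j < 12 := Finset.mem_range.1 hj
    have h2 := hcon j hj'
    have hw : 0 < g / 2 ^ j := by positivity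
    have hw2 : 1 / (g / 2 ^ j) ≤ 1 / 2 := by
      have h5 : (2 : ℝ) ^ j ≤ 2 ^ 11 := pow_le_pow_right₀ (by norm_num) (by omega)
      have h6 : (2 : ℝ) ≤ g / 2 ^ j := by
        rw [le_div_iff₀ (by positivity)]
        norm_num at h5
        linarith
      exact one_div_le_one_div_of_le (by norm_num) h6
    have h3 : ∑ q ∈ QQ, cnt j q ≤ ∑ q ∈ QQ, (1.4 * ((min (t q) (g / 2 ^ j)) ^ 2 / (g / 2 ^ j)) + 2.9) *
        (g / 2 ^ j) := by
      refine Finset.sum_le_sum fun q hq => (hcnt j hj' q hq).trans ?_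
      have h4 : min (t q) (g / 2 ^ j) ≤ g / 2 ^ j := min_le_right _ _
      have h5 : (min (t q) (g / 2 ^ j)) ^ 2 / (g / 2 ^ j) * (g / 2 ^ j) = (min (t q) (g / 2 ^ j)) ^ 2 := by
        field_simp
      have h6 : 1 ≤ 0.5 * (g / 2 ^ j) := by
        rw [div_le_iff₀ hw] at hw2
        linarith
      calc 1.4 * (min (t q) (g / 2 ^ j)) ^ 2 + 2.4 * (min (t q) (g / 2 ^ j)) + 1
          ≤ 1.4 * (min (t q) (g / 2 ^ j)) ^ 2 + 2.4 * (g / 2 ^ j) + 0.5 * (g / 2 ^ j) := by linarith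
        _ = 1.4 * ((min (t q) (g / 2 ^ j)) ^ 2 / (g / 2 ^ j) * (g / 2 ^ j)) + 2.9 * (g / 2 ^ j) := by
            rw [h5]; ring
        _ = _ := by ring
    rw [← Finset.sum_mul, Finset.sum_add_distrib, ← Finset.mul_sum, Finset.sum_const, nsmul_eq_mul] at h3
    have h4 : g * (g / 2 ^ j) / 2 < (1.4 * ∑ q ∈ QQ, (min (t q) (g / 2 ^ j)) ^ 2 / (g / 2 ^ j) +
        QQ.card * 2.9) * (g / 2 ^ j) := lt_of_lt_of_le h2 h3
    have h5 : g / 2 < 1.4 * ∑ q ∈ QQ, (min (t q) (g / 2 ^ j)) ^ 2 / (g / 2 ^ j) + QQ.card * 2.9 := by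
      have : g * (g / 2 ^ j) / 2 = g / 2 * (g / 2 ^ j) := by ring
      rw [this] at h4
      exact lt_of_mul_lt_mul_right h4 hw.le
    nlinarith
  have h2 := Finset.sum_le_sum h1
  rw [Finset.sum_const, Finset.card_range, Finset.sum_add_distrib, ← Finset.mul_sum, Finset.sum_comm,
    Finset.sum_const, Finset.card_range] at h2
  have h3 : ∑ q ∈ QQ, ∑ j ∈ Finset.range 12, (min (t q) (g / 2 ^ j)) ^ 2 / (g / 2 ^ j) ≤
      ∑ q ∈ QQ, 4 * t q := by
    refine Finset.sum_le_sum fun q hq => ?_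
    have h4 := strip_aux 12 g (t q) hg0 (ht0 q hq) (htg q hq)
    have h5 : 0 ≤ (t q) ^ 2 / g := by positivity
    linarith
  rw [← Finset.mul_sum] at h3
  simp only [nsmul_eq_mul, Nat.cast_ofNat] at h2
  have hR1 : (0 : ℝ) ≤ R0 := Nat.cast_nonneg _
  linarith

end Pool.Agent.SubT
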