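import Pool.Agent.SubT.Place

/-! Module TRI. Text: team-store MP_e27144_an_pr_growth_helper66.md.
HINT: elementary; the exponents of 2 and 3 in the denominator of q. -/

namespace Pool.Agent.SubT

open scoped BigOperators ENNReal

open MeasureTheory Set Filter Topology

theorem NearAt.unique {x : ℝ} {a b : ℕ} {q q' : ℚ} (h : NearAt x a b q) (h' : NearAt x a b q') :
    q = q' := by
  obtain ⟨⟨z, hz⟩, h1⟩ := h
  obtain ⟨⟨z', hz'⟩, h1'⟩ := h'
  have hM : (0 : ℝ) < 2 ^ a * 3 ^ b := by positivity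
  have e : (2 : ℝ) ^ a * 3 ^ b * |(q : ℝ) - q'| < 1 := by
    have h2 : |(q : ℝ) - q'| ≤ |x - q| + |x - q'| := by
      have : (q : ℝ) - q' = -(x - q) + (x - q') := by ring
      rw [this]
      refine (abs_add_le _ _).trans ?_
      rw [abs_neg]
    have h3 := mul_le_mul_of_nonneg_left h2 hM.le
    linarith
  have hz1 : (2 : ℝ) ^ a * 3 ^ b * (q : ℝ) = z := by exact_mod_cast hz
  have hz2 : (2 : ℝ) ^ a * 3 ^ b * (q' : ℝ) = z' := by exact_mod_cast hz'
  have e2 : |(z : ℝ) - z'| < 1 := by
    rw [← hz1, ← hz2, ← mul_sub, abs_mul, abs_of_pos hM]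
    exact e
  have e3 : |z - z'| < 1 := by exact_mod_cast e2
  have e4 : z = z' := by
    have := Int.abs_lt_one_iff.1 e3
    omega
  have hM' : (2 : ℚ) ^ a * 3 ^ b ≠ 0 := by positivity
  apply mul_left_cancel₀ hM'
  rw [hz, hz', e4]

theorem NearAt.inR {x : ℝ} {a b : ℕ} {q : ℚ} (h : NearAt x a b q) : InR q := by
  obtain ⟨⟨z, hz⟩, -⟩ := h
  refine ⟨a + b, 2 ^ b * 3 ^ a * z, ?_⟩
  push_cast
  rw [← hz]
  have : (6 : ℚ) = 2 * 3 := by norm_num
  rw [this, mul_pow, pow_add, pow_add]
  ring

/-- divisibility criterion -/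
theorem TRI_int_iff (q : ℚ) (m : ℕ) : (∃ z : ℤ, (m : ℚ) * q = (z : ℚ)) ↔ q.den ∣ m := by
  constructor
  · rintro ⟨z, hz⟩
    have h1 : (m : ℤ) * q.num = z * q.den := by
      have h2 : (q.den : ℚ) ≠ 0 := by exact_mod_cast q.den_ne_zero
      have h3 : (m : ℚ) * (q.num / q.den) = z := by rw [Rat.num_div_den]; exact hz
      have h4 : (m : ℚ) * q.num = z * q.den := by
        field_simp at h3
        linarith
      exact_mod_cast h4
    have h5 : (q.den : ℤ) ∣ (m : ℤ) * q.num := ⟨z, by rw [h1]; ring⟩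
    have h6 : IsCoprime (q.den : ℤ) q.num := by
      have := q.reduced
      rw [Nat.Coprime, ← Int.natAbs_natCast q.den] at this
      exact (Int.isCoprime_iff_gcd_eq_one.2 this).symm
    have h7 : (q.den : ℤ) ∣ (m : ℤ) := h6.dvd_of_dvd_mul_right h5
    exact_mod_cast h7
  · rintro ⟨d, rfl⟩
    refine ⟨d * q.num, ?_⟩
    have h2 : (q.den : ℚ) ≠ 0 := by exact_mod_cast q.den_ne_zero
    push_cast
    conv_lhs => rw [← Rat.num_div_den q]
    rw [Rat.num_div_den]
    have : (q.den : ℚ) * q = q.num := Rat.den_mul_eq_num q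
    linear_combination (d : ℚ) * this

/-- exponent of `p` at the finite places -/
theorem TRI_log (p : ℕ) [hp : Fact p.Prime] (q : ℚ) :
    Real.log (max 1 ((padicNorm p q : ℚ) : ℝ)) = (q.den.factorization p : ℝ) * Real.log p := by
  have hp1 : (1 : ℝ) ≤ p := by exact_mod_cast hp.out.one_lt.le
  by_cases hq : q = 0
  · subst hq
    simp
  have hn : q.num ≠ 0 := Rat.num_ne_zero.2 hq
  have hval : padicValRat p q = (padicValInt p q.num : ℤ) - (padicValNat p q.den : ℤ) := rfl
  have hfac : q.den.factorization p = padicValNat p q.den := Nat.factorization_def _ hp.out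
  have hnorm : ((padicNorm p q : ℚ) : ℝ) = (p : ℝ) ^ (-padicValRat p q) := by
    rw [padicNorm.eq_zpow_of_nonzero hq]
    push_cast
    rfl
  rw [hfac]
  by_cases hd : p ∣ q.den
  · have hnp : ¬ (p : ℤ) ∣ q.num := by
      intro h
      have h1 : p ∣ q.num.natAbs := Int.natCast_dvd.1 h
      have h2 := Nat.dvd_gcd h1 hd
      rw [q.reduced] at h2
      exact hp.out.one_lt.ne' (Nat.dvd_one.1 h2)
    have hz : padicValInt p q.num = 0 := padicValInt.eq_zero_of_not_dvd hnp
    rw [hz] at hval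
    have e : ((padicNorm p q : ℚ) : ℝ) = (p : ℝ) ^ (padicValNat p q.den) := by
      rw [hnorm, hval]
      simp
    rw [e, max_eq_right (one_le_pow₀ hp1), Real.log_pow]
  · have hz : padicValNat p q.den = 0 := padicValNat.eq_zero_of_not_dvd hd
    rw [hz] at hval ⊢
    have e : ((padicNorm p q : ℚ) : ℝ) ≤ 1 := by
      rw [hnorm, hval]
      simp only [Nat.cast_zero, sub_zero, zpow_neg, zpow_natCast]
      exact inv_le_one_of_one_le₀ (one_le_pow₀ hp1)
    rw [max_eq_left e]
    simp

/-- TRI: the minimal exponents of `q` and `A_q`. -/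
theorem exists_corner (q : ℚ) (hq : InR q) :
    ∃ a0 b0 : ℕ, (∀ a b : ℕ, (∃ z : ℤ, (2 : ℚ) ^ a * 3 ^ b * q = (z : ℚ)) ↔ a0 ≤ a ∧ b0 ≤ b) ∧
      LL a0 b0 = Aq q := by
  have : Fact (Nat.Prime 2) := ⟨Nat.prime_two⟩
  have : Fact (Nat.Prime 3) := ⟨Nat.prime_three⟩
  have hd0 : q.den ≠ 0 := q.den_ne_zero
  refine ⟨q.den.factorization 2, q.den.factorization 3, ?_, ?_⟩
  · -- the denominator divides a power of `6`
    obtain ⟨k, z, hz⟩ := hq
    have h6 : q.den ∣ 6 ^ k := by
      rw [← TRI_int_iff]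
      exact ⟨z, by push_cast; exact hz⟩
    have h6' : q.den.factorization ≤ (6 ^ k).factorization :=
      (Nat.factorization_le_iff_dvd hd0 (by positivity)).2 h6
    have hother : ∀ p : ℕ, p ≠ 2 → p ≠ 3 → q.den.factorization p = 0 := by
      intro p h2 h3
      by_cases hp : p.Prime
      · have h7 := h6' p
        have h8 : (6 ^ k).factorization p = 0 := by
          apply Nat.factorization_eq_zero_of_not_dvd
          intro hdvd
          have h9 : p ∣ 6 := hp.dvd_of_dvd_pow hdvd
          have h10 : (6 : ℕ) = 2 * 3 := by norm_num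
          rw [h10] at h9
          rcases hp.dvd_mul.1 h9 with h | h
          · exact h2 ((Nat.prime_dvd_prime_iff_eq hp Nat.prime_two).1 h)
          · exact h3 ((Nat.prime_dvd_prime_iff_eq hp Nat.prime_three).1 h)
        omega
      · exact Nat.factorization_eq_zero_of_not_prime _ hp
    intro a b
    have e1 : (∃ z : ℤ, (2 : ℚ) ^ a * 3 ^ b * q = (z : ℚ)) ↔ q.den ∣ 2 ^ a * 3 ^ b := by
      rw [← TRI_int_iff]
      push_cast
      rfl
    rw [e1, ← Nat.factorization_le_iff_dvd hd0 (by positivity)]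
    have hf : (2 ^ a * 3 ^ b).factorization = Finsupp.single 2 a + Finsupp.single 3 b := by
      rw [Nat.factorization_mul (by positivity) (by positivity),
        Nat.Prime.factorization_pow Nat.prime_two, Nat.Prime.factorization_pow Nat.prime_three]
    rw [hf]
    constructor
    · intro h
      have h2 := h 2
      have h3 := h 3
      simp at h2 h3
      exact ⟨h2, h3⟩
    · rintro ⟨h2, h3⟩ p
      by_cases hp2 : p = 2
      · subst hp2; simpa using h2
      · by_cases hp3 : p = 3
        · subst hp3; simpa using h3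
        · rw [hother p hp2 hp3]
          exact Nat.zero_le _
  · have h2 := TRI_log 2 q
    have h3 := TRI_log 3 q
    unfold LL Aq
    have a1 : av 1 q = ((padicNorm 2 q : ℚ) : ℝ) := by simp [av]
    have a2 : av 2 q = ((padicNorm 3 q : ℚ) : ℝ) := by
      have h20 : (2 : Pl) ≠ 0 := by decide
      have h21 : (2 : Pl) ≠ 1 := by decide
      simp [av, h20, h21]
    rw [a1, a2, h2, h3]
    norm_num

end Pool.Agent.SubT
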