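import Pool.Agent.SubT.SStar
import Pool.Agent.SubT.Strip
import Pool.Agent.SubT.Cnt
import Pool.Agent.SubT.Tri

/-! Module KL: the Key Lemma (section 9). helper66. -/

namespace Pool.Agent.SubT

open scoped BigOperators ENNReal

open MeasureTheory Set Filter Topology

theorem KL_LL_add (a b c d : ℕ) : LL (a + c) (b + d) = LL a b + LL c d := by
  unfold LL; push_cast; ring

theorem KL_LL_nonneg (a b : ℕ) : 0 ≤ LL a b := by
  unfold LL
  have h2 : 0 < Real.log 2 := Real.log_pos (by norm_num)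
  have h3 : 0 < Real.log 3 := Real.log_pos (by norm_num)
  positivity

theorem KL_exp_LL (a b : ℕ) : Real.exp (LL a b) = 2 ^ a * 3 ^ b := by
  unfold LL
  rw [Real.exp_add, Real.exp_nat_mul, Real.exp_nat_mul, Real.exp_log (by norm_num),
    Real.exp_log (by norm_num)]

theorem KL_LL_mono {a b c d : ℕ} (h1 : a ≤ c) (h2 : b ≤ d) : LL a b ≤ LL c d := by
  obtain ⟨e, rfl⟩ := Nat.exists_eq_add_of_le h1
  obtain ⟨f, rfl⟩ := Nat.exists_eq_add_of_le h2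
  rw [KL_LL_add]
  linarith [KL_LL_nonneg e f]

/-- from one point of the triangle of `q` to the points above it -/
theorem KL_near_add {x : ℝ} {a b c d : ℕ} {q : ℚ} {δ : ℝ}
    (hz : ∃ z : ℤ, (2 : ℚ) ^ a * 3 ^ b * q = (z : ℚ))
    (hd : (2 : ℝ) ^ a * 3 ^ b * |x - (q : ℝ)| ≤ 1 / 36 * Real.exp (-δ)) (hcd : LL c d < δ) :
    NearAt x (a + c) (b + d) q := by
  obtain ⟨z, hz⟩ := hz
  refine ⟨⟨2 ^ c * 3 ^ d * z, ?_⟩, ?_⟩
  · push_cast
    rw [← hz, pow_add, pow_add]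
    ring
  · have e : (2 : ℝ) ^ (a + c) * 3 ^ (b + d) * |x - (q : ℝ)| =
        Real.exp (LL c d) * ((2 : ℝ) ^ a * 3 ^ b * |x - (q : ℝ)|) := by
      rw [KL_exp_LL, pow_add, pow_add]; ring
    rw [e]
    calc Real.exp (LL c d) * ((2 : ℝ) ^ a * 3 ^ b * |x - (q : ℝ)|)
        ≤ Real.exp (LL c d) * (1 / 36 * Real.exp (-δ)) :=
          mul_le_mul_of_nonneg_left hd (Real.exp_pos _).le
      _ = 1 / 36 * Real.exp (LL c d - δ) := by rw [sub_eq_add_neg, Real.exp_add]; ring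
      _ < 1 / 36 * 1 := by
          refine mul_lt_mul_of_pos_left ?_ (by norm_num)
          rw [Real.exp_lt_one_iff]
          linarith
      _ = 1 / 36 := mul_one _

/-- the point `q` attached to `p` -/
noncomputable def KL_q (x : ℝ) (p : ℕ × ℕ) : ℚ :=
  (round ((2 : ℝ) ^ p.1 * 3 ^ p.2 * x) : ℚ) / (2 ^ p.1 * 3 ^ p.2)

/-- bad points -/
def KL_bad (x κ g : ℝ) (p : ℕ × ℕ) : Prop :=
  ∃ z : ℤ, |(2 : ℝ) ^ p.1 * 3 ^ p.2 * x - z| ≤ 1 / 36 * Real.exp (-(κ * g))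

theorem KL_q_int (x : ℝ) (p : ℕ × ℕ) :
    ∃ z : ℤ, (2 : ℚ) ^ p.1 * 3 ^ p.2 * KL_q x p = (z : ℚ) := by
  refine ⟨round ((2 : ℝ) ^ p.1 * 3 ^ p.2 * x), ?_⟩
  unfold KL_q
  field_simp

theorem KL_q_dist {x κ g : ℝ} {p : ℕ × ℕ} (h : KL_bad x κ g p) :
    (2 : ℝ) ^ p.1 * 3 ^ p.2 * |x - (KL_q x p : ℝ)| ≤ 1 / 36 * Real.exp (-(κ * g)) := by
  obtain ⟨z, hz⟩ := h
  have hpos : (0 : ℝ) < (2 : ℝ) ^ p.1 * 3 ^ p.2 := by positivity
  have e : (2 : ℝ) ^ p.1 * 3 ^ p.2 * |x - (KL_q x p : ℝ)| =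
      |(2 : ℝ) ^ p.1 * 3 ^ p.2 * x - round ((2 : ℝ) ^ p.1 * 3 ^ p.2 * x)| := by
    rw [← abs_of_pos hpos, ← abs_mul, abs_of_pos hpos]
    congr 1
    unfold KL_q
    push_cast
    field_simp
  rw [e]
  exact (round_le _ z).trans hz

theorem KL_near {x κ g : ℝ} (hκg : 0 < κ * g) {p : ℕ × ℕ} (h : KL_bad x κ g p) :
    NearAt x p.1 p.2 (KL_q x p) := by
  refine ⟨KL_q_int x p, (KL_q_dist h).trans_lt ?_⟩
  have : Real.exp (-(κ * g)) < 1 := by rw [Real.exp_lt_one_iff]; linarith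
  linarith

/-- near zero -/
theorem KL_near_zero {x g : ℝ} (hx : |x| = 1 / 36 * Real.exp (-g)) {a b : ℕ} :
    NearAt x a b 0 ↔ LL a b < g := by
  have e : (2 : ℝ) ^ a * 3 ^ b * |x - ((0 : ℚ) : ℝ)| = 1 / 36 * Real.exp (LL a b - g) := by
    rw [Rat.cast_zero, sub_zero, hx, sub_eq_add_neg, Real.exp_add, KL_exp_LL]; ring
  constructor
  · rintro ⟨_, h⟩
    rw [e] at h
    have : Real.exp (LL a b - g) < 1 := by linarith
    rw [Real.exp_lt_one_iff] at this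
    linarith
  · intro h
    refine ⟨⟨0, by simp⟩, ?_⟩
    rw [e]
    have : Real.exp (LL a b - g) < 1 := by rw [Real.exp_lt_one_iff]; linarith
    linarith

/-- the truncated depth -/
noncomputable def KL_al (x g : ℝ) (q : ℚ) : ℝ :=
  if |x - (q : ℝ)| = 0 then 2 * g else min (2 * g) (-Real.log (36 * |x - (q : ℝ)|))

theorem KL_al_le (x g : ℝ) (q : ℚ) : KL_al x g q ≤ 2 * g := by
  unfold KL_al
  split_ifs
  · exact le_refl _
  · exact min_le_left _ _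

theorem KL_al_dist (x g : ℝ) (q : ℚ) : |x - (q : ℝ)| ≤ 1 / 36 * Real.exp (-KL_al x g q) := by
  unfold KL_al
  split_ifs with h
  · rw [h]; positivity
  · have hpos : 0 < |x - (q : ℝ)| := lt_of_le_of_ne (abs_nonneg _) (Ne.symm h)
    have h1 : Real.log (36 * |x - (q : ℝ)|) ≤ -(min (2 * g) (-Real.log (36 * |x - (q : ℝ)|))) := by
      have := min_le_right (2 * g) (-Real.log (36 * |x - (q : ℝ)|))
      linarith
    have h2 := Real.exp_le_exp.2 h1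
    rw [Real.exp_log (by positivity)] at h2
    linarith

/-- lower bound for the truncated depth -/
theorem KL_lt_al {x g y : ℝ} {q : ℚ} (h1 : y < 2 * g)
    (h2 : Real.exp y * |x - (q : ℝ)| < 1 / 36) : y < KL_al x g q := by
  unfold KL_al
  split_ifs with h
  · exact h1
  · refine lt_min h1 ?_
    have hpos : 0 < |x - (q : ℝ)| := lt_of_le_of_ne (abs_nonneg _) (Ne.symm h)
    have h3 : 36 * |x - (q : ℝ)| < Real.exp (-y) := by
      rw [Real.exp_neg]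
      rw [lt_inv_comm₀ (by positivity) (Real.exp_pos _), ← one_div, lt_div_iff₀ (by positivity)]
      linarith
    have h4 := Real.log_lt_log (by positivity) h3
    rw [Real.log_exp] at h4
    linarith

/-- the finite set of lattice points with `L < τ` -/
noncomputable def KL_T (τ : ℝ) : Finset (ℕ × ℕ) :=
  (card_LL_lt_le (max τ 0) (le_max_right _ _)).2.toFinset.filter (fun p => LL p.1 p.2 < τ)

theorem KL_mem_T {τ : ℝ} {p : ℕ × ℕ} : p ∈ KL_T τ ↔ LL p.1 p.2 < τ := by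
  unfold KL_T
  rw [Finset.mem_filter, Set.Finite.mem_toFinset]
  constructor
  · exact fun h => h.2
  · intro h
    exact ⟨lt_of_lt_of_le h (le_max_left _ _), h⟩

theorem KL_card_T {τ : ℝ} : ((KL_T τ).card : ℝ) = ({p : ℕ × ℕ | LL p.1 p.2 < τ}.ncard : ℝ) := by
  have : {p : ℕ × ℕ | LL p.1 p.2 < τ} = ((KL_T τ : Finset (ℕ × ℕ)) : Set (ℕ × ℕ)) := by
    ext p
    rw [Finset.mem_coe, KL_mem_T]
    rfl
  rw [this, Set.ncard_coe_finset]

theorem KL_card_QQ {x κ g : ℝ} (hκ : 0 < κ) (hκ1 : κ ≤ 1) (hg : 1 ≤ g)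
    (B : Finset (ℕ × ℕ)) (hB : ∀ p ∈ B, KL_bad x κ g p ∧ LL p.1 p.2 < 2 * g) :
    ((B.image (KL_q x)).card : ℝ) * (0.6 * (κ * g) ^ 2) ≤ 1.4 * (3 * g) ^ 2 + 2.4 * (3 * g) + 1 := by
  classical
  have hκg : 0 < κ * g := by positivity
  set QQ := B.image (KL_q x) with hQQ
  have hex : ∀ q : ℚ, ∃ p : ℕ × ℕ, q ∈ QQ → (p ∈ B ∧ KL_q x p = q) := by
    intro q
    by_cases h : q ∈ QQ
    · rw [hQQ, Finset.mem_image] at h
      obtain ⟨p, hp, rfl⟩ := h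
      exact ⟨p, fun _ => ⟨hp, rfl⟩⟩
    · exact ⟨(0, 0), fun h' => absurd h' h⟩
  choose pk hpk using hex
  have hcard : (QQ ×ˢ KL_T (κ * g)).card ≤ (KL_T (3 * g)).card := by
    refine Finset.card_le_card_of_injOn
      (fun w => ((pk w.1).1 + w.2.1, (pk w.1).2 + w.2.2)) ?_ ?_
    · intro w hw
      rw [Finset.mem_coe, Finset.mem_product] at hw
      obtain ⟨h1, h2⟩ := hw
      have h3 := KL_mem_T.1 h2
      have h4 := (hB _ (hpk _ h1).1).2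
      rw [Finset.mem_coe, KL_mem_T]
      simp only
      rw [KL_LL_add]
      nlinarith
    · intro w hw w' hw' e
      rw [Finset.mem_coe, Finset.mem_product] at hw hw'
      simp only [Prod.mk.injEq] at e
      obtain ⟨e1, e2⟩ := e
      have near : ∀ w : ℚ × (ℕ × ℕ), w.1 ∈ QQ → w.2 ∈ KL_T (κ * g) →
          NearAt x ((pk w.1).1 + w.2.1) ((pk w.1).2 + w.2.2) w.1 := by
        intro w h1 h2
        have h5 := hpk _ h1
        have h6 := KL_q_dist (hB _ h5.1).1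
        have h7 := KL_q_int x (pk w.1)
        rw [h5.2] at h6 h7
        exact KL_near_add h7 h6 (KL_mem_T.1 h2)
      have n1 := near w hw.1 hw.2
      have n2 := near w' hw'.1 hw'.2
      rw [← e1, ← e2] at n2
      have hq := n1.unique n2
      have : pk w.1 = pk w'.1 := by rw [hq]
      rw [this] at e1 e2
      have f1 := Nat.add_left_cancel e1
      have f2 := Nat.add_left_cancel e2
      exact Prod.ext hq (Prod.ext f1 f2)
  rw [Finset.card_product] at hcard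
  have hc : ((QQ.card : ℕ) : ℝ) * ((KL_T (κ * g)).card : ℝ) ≤ ((KL_T (3 * g)).card : ℝ) := by
    exact_mod_cast hcard
  have h1 := card_LL_lt_ge (κ * g) hκg.le
  have h2 := (card_LL_lt_le (3 * g) (by linarith)).1
  rw [← KL_card_T] at h1 h2
  refine le_trans ?_ (hc.trans h2)
  exact mul_le_mul_of_nonneg_left h1 (Nat.cast_nonneg _)

/-- facts about the point attached to a bad point -/
theorem KL_facts {x κ g : ℝ} (hκ : 0 < κ) (hg : 1 ≤ g)
    (hx : |x| = 1 / 36 * Real.exp (-g)) {p : ℕ × ℕ} (hp : KL_bad x κ g p)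
    (hp1 : g ≤ LL p.1 p.2) (hp2 : LL p.1 p.2 < 2 * g) :
    KL_q x p ≠ 0 ∧ InR (KL_q x p) ∧ g ≤ Aq (KL_q x p) ∧ Aq (KL_q x p) < 2 * g ∧
      0 ≤ KL_al x g (KL_q x p) ∧ Aq (KL_q x p) ≤ KL_al x g (KL_q x p) ∧
      ∃ a0 b0 : ℕ, a0 ≤ p.1 ∧ b0 ≤ p.2 ∧ LL a0 b0 = Aq (KL_q x p) := by
  have hκg : 0 < κ * g := by positivity
  have hn := KL_near hκg hp
  have h0 : KL_q x p ≠ 0 := by
    intro h
    rw [h] at hn
    have := (KL_near_zero hx).1 hn
    linarith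
  have hR := hn.inR
  obtain ⟨a0, b0, hab, hL⟩ := exists_corner (KL_q x p) hR
  have hle := (hab p.1 p.2).1 hn.1
  have hnc : NearAt x a0 b0 (KL_q x p) := by
    refine ⟨(hab a0 b0).2 ⟨le_refl _, le_refl _⟩, lt_of_le_of_lt ?_ hn.2⟩
    refine mul_le_mul_of_nonneg_right ?_ (abs_nonneg _)
    exact mul_le_mul (pow_le_pow_right₀ (by norm_num) hle.1)
      (pow_le_pow_right₀ (by norm_num) hle.2) (by positivity) (by positivity)
  have hAg : g ≤ Aq (KL_q x p) := by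
    by_contra hcon
    rw [← hL] at hcon
    have := (KL_near_zero hx (a := a0) (b := b0)).2 (not_le.1 hcon)
    exact h0 (hnc.unique this)
  have hA2 : Aq (KL_q x p) < 2 * g := by
    rw [← hL]
    exact lt_of_le_of_lt (KL_LL_mono hle.1 hle.2) hp2
  have hlt : LL p.1 p.2 < KL_al x g (KL_q x p) :=
    KL_lt_al hp2 (by rw [KL_exp_LL]; exact hn.2)
  have hAle : Aq (KL_q x p) ≤ LL p.1 p.2 := by
    rw [← hL]; exact KL_LL_mono hle.1 hle.2
  refine ⟨h0, hR, hAg, hA2, ?_, by linarith, a0, b0, hle.1, hle.2, hL⟩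
  linarith

/-- number of bad points of a strip with a given `q` -/
theorem KL_cnt {x κ g : ℝ} (hκ : 0 < κ) (hg : 1 ≤ g)
    (hx : |x| = 1 / 36 * Real.exp (-g)) (w : ℝ) (hw : 0 < w) (hwg : w ≤ g) (q : ℚ)
    (S : Finset (ℕ × ℕ)) (hS : ∀ p ∈ S, KL_bad x κ g p ∧ KL_q x p = q ∧ g ≤ LL p.1 p.2 ∧
      LL p.1 p.2 < g + w) (ht : Aq q ≤ KL_al x g q) :
    (S.card : ℝ) ≤ 1.4 * (min (KL_al x g q - Aq q) w) ^ 2 +
      2.4 * (min (KL_al x g q - Aq q) w) + 1 := by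
  classical
  have hκg : 0 < κ * g := by positivity
  set τ := min (KL_al x g q - Aq q) w with hτ
  have hτ0 : 0 ≤ τ := le_min (by linarith) hw.le
  rcases S.eq_empty_or_nonempty with rfl | ⟨p0, hp0⟩
  · simp
    positivity
  obtain ⟨hb0, hq0, hg0, hgw0⟩ := hS p0 hp0
  have hf := KL_facts hκ hg hx hb0 hg0 (by linarith)
  rw [hq0] at hf
  obtain ⟨-, hR, hAg, hA2, -, -, -⟩ := hf
  obtain ⟨a0, b0, hab, hL⟩ := exists_corner q hR
  have hcard : S.card ≤ (KL_T τ).card := by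
    refine Finset.card_le_card_of_injOn (fun p => (p.1 - a0, p.2 - b0)) ?_ ?_
    · intro p hp
      obtain ⟨hb, hq, hg1, hgw⟩ := hS p hp
      have hn := KL_near hκg hb
      rw [hq] at hn
      have hle := (hab p.1 p.2).1 hn.1
      rw [Finset.mem_coe, KL_mem_T]
      simp only
      have e : LL (p.1 - a0) (p.2 - b0) = LL p.1 p.2 - Aq q := by
        have := KL_LL_add a0 b0 (p.1 - a0) (p.2 - b0)
        rw [Nat.add_sub_cancel' hle.1, Nat.add_sub_cancel' hle.2] at this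
        rw [this, hL]; ring
      rw [e, hτ]
      refine lt_min ?_ (by linarith)
      have : LL p.1 p.2 < KL_al x g q :=
        KL_lt_al (by linarith) (by rw [KL_exp_LL]; exact hn.2)
      linarith
    · intro p hp p' hp' e
      have h1 := hS p hp
      have h2 := hS p' hp'
      have n1 := KL_near hκg h1.1
      have n2 := KL_near hκg h2.1
      rw [h1.2.1] at n1
      rw [h2.2.1] at n2
      have l1 := (hab p.1 p.2).1 n1.1
      have l2 := (hab p'.1 p'.2).1 n2.1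
      simp only [Prod.mk.injEq] at e
      exact Prod.ext (by omega) (by omega)
  have h2 := (card_LL_lt_le τ hτ0).1
  rw [← KL_card_T] at h2
  exact le_trans (by exact_mod_cast hcard) h2

/-- the counting for a fixed `x` -/
theorem KL_main {κ : ℝ} (hκ : 0 < κ) (hκ1 : κ ≤ 1) :
    ∃ g0 : ℝ, 0 < g0 ∧ ∀ g ≥ g0, ∀ x : ℝ, |x| = 1 / 36 * Real.exp (-g) →
      (1 / 10 ^ 4) * g ^ 2 ≤ ({p : ℕ × ℕ | LL p.1 p.2 < 2 * g ∧
        ∀ z : ℤ, 1 / 36 * Real.exp (-(κ * g)) < |(2 : ℝ) ^ p.1 * 3 ^ p.2 * x - z|}.ncard : ℝ) := by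
  classical
  obtain ⟨R0, hR0⟩ : ∃ R0 : ℕ, 30 / κ ^ 2 ≤ (R0 : ℝ) := ⟨⌈30 / κ ^ 2⌉₊, Nat.le_ceil _⟩
  obtain ⟨g1, hg1, hS⟩ := sstar R0 0.05 (by norm_num)
  refine ⟨max g1 (max 8192 (4000 * (R0 + 1))), lt_max_of_lt_left hg1, ?_⟩
  intro g hg x hx
  have hgg1 : g1 ≤ g := (le_max_left _ _).trans hg
  have hg2 : (8192 : ℝ) ≤ g := (le_max_left _ _).trans ((le_max_right _ _).trans hg)
  have hg3 : (4000 : ℝ) * (R0 + 1) ≤ g := (le_max_right _ _).trans ((le_max_right _ _).trans hg)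
  have hg1' : (1 : ℝ) ≤ g := by linarith
  have hκg : 0 < κ * g := by positivity
  set B : Finset (ℕ × ℕ) := (KL_T (2 * g)).filter (fun p => KL_bad x κ g p ∧ g ≤ LL p.1 p.2)
    with hBdef
  have hB : ∀ p ∈ B, KL_bad x κ g p ∧ g ≤ LL p.1 p.2 ∧ LL p.1 p.2 < 2 * g := by
    intro p hp
    rw [hBdef, Finset.mem_filter, KL_mem_T] at hp
    exact ⟨hp.2.1, hp.2.2, hp.1⟩
  set QQ := B.image (KL_q x) with hQQ
  have hQcard : QQ.card ≤ R0 := by
    have h := KL_card_QQ hκ hκ1 hg1' B (fun p hp => ⟨(hB p hp).1, (hB p hp).2.2⟩)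
    rw [← hQQ] at h
    have h30 : 30 ≤ (R0 : ℝ) * κ ^ 2 := by
      rwa [div_le_iff₀ (by positivity)] at hR0
    by_contra hcon
    have hcon' : (R0 : ℝ) < QQ.card := by exact_mod_cast not_le.1 hcon
    have h4 : (30 : ℝ) * (0.6 * g ^ 2) ≤ (QQ.card : ℝ) * (0.6 * (κ * g) ^ 2) := by
      have : (R0 : ℝ) * κ ^ 2 * (0.6 * g ^ 2) ≤ (QQ.card : ℝ) * κ ^ 2 * (0.6 * g ^ 2) := by
        refine mul_le_mul_of_nonneg_right ?_ (by positivity)
        exact mul_le_mul_of_nonneg_right hcon'.le (by positivity)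
      have h5 : (30 : ℝ) * (0.6 * g ^ 2) ≤ (R0 : ℝ) * κ ^ 2 * (0.6 * g ^ 2) :=
        mul_le_mul_of_nonneg_right h30 (by positivity)
      calc (30 : ℝ) * (0.6 * g ^ 2) ≤ (QQ.card : ℝ) * κ ^ 2 * (0.6 * g ^ 2) := h5.trans this
        _ = _ := by ring
    nlinarith
  have hfac : ∀ q ∈ QQ, q ≠ 0 ∧ InR q ∧ g ≤ Aq q ∧ Aq q < 2 * g ∧ 0 ≤ KL_al x g q ∧
      Aq q ≤ KL_al x g q := by
    intro q hq
    rw [hQQ, Finset.mem_image] at hq
    obtain ⟨p, hp, rfl⟩ := hq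
    obtain ⟨h1, h2, h3⟩ := hB p hp
    obtain ⟨f1, f2, f3, f4, f5, f6, -⟩ := KL_facts hκ hg1' hx h1 h2 h3
    exact ⟨f1, f2, f3, f4, f5, f6⟩
  have hsum := hS g hgg1 x hx QQ hQcard (fun h => (hfac 0 h).1 rfl)
    (fun q hq => ⟨(hfac q hq).2.1, (hfac q hq).2.2.2.1⟩) (KL_al x g)
    (fun q hq => ⟨(hfac q hq).2.2.2.2.1, KL_al_le x g q, KL_al_dist x g q⟩)
  -- the strips
  set St : ℕ → Finset (ℕ × ℕ) := fun j =>
    (KL_T (g + g / 2 ^ j)).filter (fun p => g ≤ LL p.1 p.2) with hSt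
  have hw : ∀ j : ℕ, g / 2 ^ j ≤ g := fun j => div_le_self (by linarith) (one_le_pow₀ (by norm_num))
  have hw0 : ∀ j : ℕ, 0 < g / 2 ^ j := fun j => by positivity
  obtain ⟨j, hj, hjs⟩ := strip_pigeon g R0 (by linarith) hg3 QQ hQcard
    (fun q => KL_al x g q - Aq q) (fun q hq => by linarith [(hfac q hq).2.2.2.2.2])
    (fun q hq => by linarith [(hfac q hq).2.2.1, KL_al_le x g q])
    (by norm_num at hsum ⊢; linarith)
    (fun j q => (((St j).filter (fun p => KL_bad x κ g p ∧ KL_q x p = q)).card : ℝ))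
    (by
      intro j _ q hq
      refine KL_cnt hκ hg1' hx _ (hw0 j) (hw j) q _ ?_ (hfac q hq).2.2.2.2.2
      intro p hp
      rw [Finset.mem_filter, hSt, Finset.mem_filter, KL_mem_T] at hp
      exact ⟨hp.2.1, hp.2.2, hp.1.2, hp.1.1⟩)
  -- bad points of the strip
  have hbad : (((St j).filter (fun p => KL_bad x κ g p)).card : ℝ) ≤ g * (g / 2 ^ j) / 2 := by
    refine le_trans ?_ hjs
    have : (St j).filter (fun p => KL_bad x κ g p) ⊆
        QQ.biUnion (fun q => (St j).filter (fun p => KL_bad x κ g p ∧ KL_q x p = q)) := by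
      intro p hp
      rw [Finset.mem_filter] at hp
      have hp' := hp.1
      rw [hSt, Finset.mem_filter, KL_mem_T] at hp'
      rw [Finset.mem_biUnion]
      refine ⟨KL_q x p, ?_, ?_⟩
      · rw [hQQ, Finset.mem_image]
        refine ⟨p, ?_, rfl⟩
        rw [hBdef, Finset.mem_filter, KL_mem_T]
        exact ⟨by linarith [hw j], hp.2, hp'.2⟩
      · rw [Finset.mem_filter]
        exact ⟨hp.1, hp.2, rfl⟩
    have h1 := (Finset.card_le_card this).trans Finset.card_biUnion_le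
    exact_mod_cast h1
  -- all points of the strip
  have hall : 0.9 * g * (g / 2 ^ j) ≤ ((St j).card : ℝ) := by
    have hwj : 3 ≤ g / 2 ^ j := by
      rw [le_div_iff₀ (by positivity)]
      have : (2 : ℝ) ^ j ≤ 2 ^ 11 := pow_le_pow_right₀ (by norm_num) (by omega)
      have : (2 : ℝ) ^ 11 = 2048 := by norm_num
      linarith
    have h := card_strip_ge g (g / 2 ^ j) (by linarith) hwj
    have e : {p : ℕ × ℕ | g ≤ LL p.1 p.2 ∧ LL p.1 p.2 < g + g / 2 ^ j} =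
        ((St j : Finset (ℕ × ℕ)) : Set (ℕ × ℕ)) := by
      ext p
      rw [Finset.mem_coe, hSt, Finset.mem_filter, KL_mem_T]
      exact ⟨fun h => ⟨h.2, h.1⟩, fun h => ⟨h.2, h.1⟩⟩
    rw [e, Set.ncard_coe_finset] at h
    exact h
  have hgood : 0.4 * g * (g / 2 ^ j) ≤
      (((St j).filter (fun p => ¬ KL_bad x κ g p)).card : ℝ) := by
    have := Finset.card_filter_add_card_filter_not (s := St j) (p := fun p => KL_bad x κ g p)
    have h' : (((St j).filter (fun p => KL_bad x κ g p)).card : ℝ) +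
        (((St j).filter (fun p => ¬ KL_bad x κ g p)).card : ℝ) = ((St j).card : ℝ) := by
      exact_mod_cast this
    linarith
  have hfin : {p : ℕ × ℕ | LL p.1 p.2 < 2 * g ∧
      ∀ z : ℤ, 1 / 36 * Real.exp (-(κ * g)) < |(2 : ℝ) ^ p.1 * 3 ^ p.2 * x - z|}.Finite :=
    (card_LL_lt_le (2 * g) (by linarith)).2.subset fun p hp => hp.1
  have hsub : (((St j).filter (fun p => ¬ KL_bad x κ g p) : Finset (ℕ × ℕ)) : Set (ℕ × ℕ)) ⊆
      {p : ℕ × ℕ | LL p.1 p.2 < 2 * g ∧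
      ∀ z : ℤ, 1 / 36 * Real.exp (-(κ * g)) < |(2 : ℝ) ^ p.1 * 3 ^ p.2 * x - z|} := by
    intro p hp
    rw [Finset.mem_coe, Finset.mem_filter, hSt, Finset.mem_filter, KL_mem_T] at hp
    refine ⟨by linarith [hw j, hp.1.1], fun z => ?_⟩
    by_contra hcon
    exact hp.2 ⟨z, not_lt.1 hcon⟩
  have hfinal := Set.ncard_le_ncard hsub hfin
  rw [Set.ncard_coe_finset] at hfinal
  have hfinal' : (((St j).filter (fun p => ¬ KL_bad x κ g p)).card : ℝ) ≤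
      ({p : ℕ × ℕ | LL p.1 p.2 < 2 * g ∧
      ∀ z : ℤ, 1 / 36 * Real.exp (-(κ * g)) < |(2 : ℝ) ^ p.1 * 3 ^ p.2 * x - z|}.ncard : ℝ) := by
    exact_mod_cast hfinal
  refine le_trans ?_ (hgood.trans hfinal')
  have h2j : (2 : ℝ) ^ j ≤ 2048 := by
    have : (2 : ℝ) ^ j ≤ 2 ^ 11 := pow_le_pow_right₀ (by norm_num) (by omega)
    have : (2 : ℝ) ^ 11 = 2048 := by norm_num
    linarith
  have h3 : g / 2048 ≤ g / 2 ^ j := div_le_div_of_nonneg_left (by linarith) (by positivity) h2j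
  have h4 : 0.4 * g * (g / 2048) ≤ 0.4 * g * (g / 2 ^ j) :=
    mul_le_mul_of_nonneg_left h3 (by positivity)
  refine le_trans ?_ h4
  nlinarith [sq_nonneg g]

/-- KL: the Key Lemma, real form. -/
theorem key_lemma_real (κ : ℝ) (hκ : 0 < κ) :
    ∃ g0 : ℝ, 0 < g0 ∧ ∀ g ≥ g0, ∀ x : ℝ, |x| = 1 / 36 * Real.exp (-g) →
      (1 / 10 ^ 4) * g ^ 2 ≤ ({p : ℕ × ℕ | LL p.1 p.2 < 2 * g ∧
        ∀ z : ℤ, 1 / 36 * Real.exp (-(κ * g)) < |(2 : ℝ) ^ p.1 * 3 ^ p.2 * x - z|}.ncard : ℝ) := by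
  obtain ⟨g0, hg0, h⟩ := KL_main (κ := min κ 1) (lt_min hκ one_pos) (min_le_right _ _)
  refine ⟨g0, hg0, fun g hg x hx => (h g hg x hx).trans ?_⟩
  have hg' : 0 < g := lt_of_lt_of_le hg0 hg
  have hfin : {p : ℕ × ℕ | LL p.1 p.2 < 2 * g ∧
      ∀ z : ℤ, 1 / 36 * Real.exp (-(κ * g)) < |(2 : ℝ) ^ p.1 * 3 ^ p.2 * x - z|}.Finite :=
    (card_LL_lt_le (2 * g) (by linarith)).2.subset fun p hp => hp.1
  have hsub : {p : ℕ × ℕ | LL p.1 p.2 < 2 * g ∧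
      ∀ z : ℤ, 1 / 36 * Real.exp (-(min κ 1 * g)) < |(2 : ℝ) ^ p.1 * 3 ^ p.2 * x - z|} ⊆
      {p : ℕ × ℕ | LL p.1 p.2 < 2 * g ∧
      ∀ z : ℤ, 1 / 36 * Real.exp (-(κ * g)) < |(2 : ℝ) ^ p.1 * 3 ^ p.2 * x - z|} := by
    intro p hp
    refine ⟨hp.1, fun z => lt_of_le_of_lt ?_ (hp.2 z)⟩
    refine mul_le_mul_of_nonneg_left (Real.exp_le_exp.2 ?_) (by norm_num)
    have := mul_le_mul_of_nonneg_right (min_le_left κ 1) hg'.le
    linarith
  exact_mod_cast Set.ncard_le_ncard hsub hfin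

/-- KL: the Key Lemma on the circle. -/
theorem key_lemma (κ : ℝ) (hκ : 0 < κ) :
    ∃ g0 : ℝ, 0 < g0 ∧ ∀ g ≥ g0, ∀ x : AddCircle (1 : ℝ), ‖x‖ = 1 / 36 * Real.exp (-g) →
      (1 / 10 ^ 4) * g ^ 2 ≤ ({p : ℕ × ℕ | LL p.1 p.2 < 2 * g ∧
        1 / 36 * Real.exp (-(κ * g)) < ‖(2 ^ p.1 * 3 ^ p.2 : ℕ) • x‖}.ncard : ℝ) := by
  obtain ⟨g0, hg0, h⟩ := key_lemma_real κ hκ
  refine ⟨g0, hg0, fun g hg x hx => ?_⟩
  have hg' : 0 < g := lt_of_lt_of_le hg0 hg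
  obtain ⟨ξ, rfl⟩ := QuotientAddGroup.mk_surjective x
  have hx' : |ξ - round ξ| = 1 / 36 * Real.exp (-g) := by
    rw [← hx]
    change |ξ - round ξ| = ‖((ξ : ℝ) : AddCircle (1 : ℝ))‖
    rw [UnitAddCircle.norm_eq]
  refine (h g hg (ξ - round ξ) hx').trans ?_
  have hfin : {p : ℕ × ℕ | LL p.1 p.2 < 2 * g ∧
        1 / 36 * Real.exp (-(κ * g)) <
          ‖(2 ^ p.1 * 3 ^ p.2 : ℕ) • ((ξ : ℝ) : AddCircle (1 : ℝ))‖}.Finite :=
    (card_LL_lt_le (2 * g) (by linarith)).2.subset fun p hp => hp.1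
  have hsub : {p : ℕ × ℕ | LL p.1 p.2 < 2 * g ∧ ∀ z : ℤ, 1 / 36 * Real.exp (-(κ * g)) <
      |(2 : ℝ) ^ p.1 * 3 ^ p.2 * (ξ - round ξ) - z|} ⊆
      {p : ℕ × ℕ | LL p.1 p.2 < 2 * g ∧ 1 / 36 * Real.exp (-(κ * g)) <
          ‖(2 ^ p.1 * 3 ^ p.2 : ℕ) • ((ξ : ℝ) : AddCircle (1 : ℝ))‖} := by
    intro p hp
    refine ⟨hp.1, ?_⟩
    have e : (2 ^ p.1 * 3 ^ p.2 : ℕ) • ((ξ : ℝ) : AddCircle (1 : ℝ)) =
        (((2 : ℝ) ^ p.1 * 3 ^ p.2 * ξ : ℝ) : AddCircle (1 : ℝ)) := by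
      rw [← AddCircle.coe_nsmul, nsmul_eq_mul]
      push_cast
      rfl
    rw [e, UnitAddCircle.norm_eq]
    refine (hp.2 (round ((2 : ℝ) ^ p.1 * 3 ^ p.2 * ξ) -
      2 ^ p.1 * 3 ^ p.2 * round ξ)).trans_eq ?_
    congr 1
    push_cast
    ring
  have := Set.ncard_le_ncard hsub hfin
  exact_mod_cast this

end Pool.Agent.SubT
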