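import Pool.Agent.SubT.GeoB

/-! Module MF. Text: team-store MP_e27144_an_pr_growth_helper66.md.
HINT: (4.1) pigeonhole. -/

namespace Pool.Agent.SubT

open scoped BigOperators ENNReal

open MeasureTheory Set Filter Topology

/-- the prime of a finite place -/
def MF_P (v : Pl) : ℕ := if v = 1 then 2 else 3

theorem MF_P_gt (v : Pl) : 1 < MF_P v := by
  unfold MF_P; split_ifs <;> norm_num

theorem MF_av_P {v : Pl} (hv : v ≠ 0) : av v (MF_P v : ℚ) = (MF_P v : ℝ)⁻¹ := by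
  unfold av MF_P
  rw [if_neg hv]
  by_cases h1 : v = 1
  · rw [if_pos h1, if_pos h1]
    have h5 : padicNorm 2 (2 : ℚ) = (2 : ℚ)⁻¹ := by
      have := padicNorm.padicNorm_p (p := 2) (by norm_num)
      exact_mod_cast this
    push_cast
    rw [h5]; norm_num
  · rw [if_neg h1, if_neg h1]
    have h5 : padicNorm 3 (3 : ℚ) = (3 : ℚ)⁻¹ := by
      have := padicNorm.padicNorm_p (p := 3) (by norm_num)
      exact_mod_cast this
    push_cast
    rw [h5]; norm_num

theorem MF_av_six {v : Pl} (hv : v ≠ 0) : av v 6 = (MF_P v : ℝ)⁻¹ := by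
  unfold av MF_P
  rw [if_neg hv]
  by_cases h1 : v = 1
  · rw [if_pos h1, if_pos h1]
    have h4 : padicNorm 2 (6 : ℚ) = 1 / 2 := by
      have : (6 : ℚ) = 2 * 3 := by norm_num
      rw [this, padicNorm.mul]
      have h5 : padicNorm 2 (2 : ℚ) = (2 : ℚ)⁻¹ := by
        have := padicNorm.padicNorm_p (p := 2) (by norm_num)
        exact_mod_cast this
      have h6 : padicNorm 2 (3 : ℚ) = 1 := by
        have := padicNorm.padicNorm_of_prime_of_ne (p := 2) (q := 3) (by norm_num)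
        exact_mod_cast this
      rw [h5, h6]; norm_num
    rw [h4]; norm_num
  · rw [if_neg h1, if_neg h1]
    have : Fact (Nat.Prime 3) := ⟨Nat.prime_three⟩
    have h4 : padicNorm 3 (6 : ℚ) = 1 / 3 := by
      have : (6 : ℚ) = 2 * 3 := by norm_num
      rw [this, padicNorm.mul]
      have h5 : padicNorm 3 (3 : ℚ) = (3 : ℚ)⁻¹ := by
        have := padicNorm.padicNorm_p (p := 3) (by norm_num)
        exact_mod_cast this
      have h6 : padicNorm 3 (2 : ℚ) = 1 := by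
        have := padicNorm.padicNorm_of_prime_of_ne (p := 3) (q := 2) (by norm_num)
        exact_mod_cast this
      rw [h5, h6]; norm_num
    rw [h4]; norm_num

/-- common denominator -/
theorem MF_den {n : ℕ} (M : Pl → Matrix (Fin n) (Fin n) ℚ) :
    ∃ D : ℕ, 1 ≤ D ∧ ∃ N : Pl → Fin n → Fin n → ℤ, ∀ v i j, (D : ℚ) * M v i j = N v i j := by
  refine ⟨∏ p : Pl × Fin n × Fin n, (M p.1 p.2.1 p.2.2).den, ?_, ?_⟩
  · exact Nat.one_le_iff_ne_zero.2 (Finset.prod_ne_zero_iff.2 (fun p _ => (M _ _ _).den_nz))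
  · have h : ∀ v i j, ∃ z : ℤ, ((∏ p : Pl × Fin n × Fin n, (M p.1 p.2.1 p.2.2).den : ℕ) : ℚ) *
        M v i j = z := by
      intro v i j
      obtain ⟨c, hc⟩ := Finset.dvd_prod_of_mem
        (fun p : Pl × Fin n × Fin n => (M p.1 p.2.1 p.2.2).den)
        (Finset.mem_univ ((v, i, j) : Pl × Fin n × Fin n))
      refine ⟨c * (M v i j).num, ?_⟩
      rw [hc]
      push_cast
      have h1 : ((M v i j).den : ℚ) * M v i j = (M v i j).num := by
        rw [mul_comm]; exact Rat.mul_den_eq_num _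
      show ((M v i j).den : ℚ) * c * M v i j = c * (M v i j).num
      rw [← h1]; ring
    choose N hN using h
    exact ⟨N, hN⟩

theorem MF_mod {a b m : ℤ} (h : a % m = b % m) : ∃ z : ℤ, a - b = m * z := by
  have h1 : m ∣ b - a := Int.ModEq.dvd h
  obtain ⟨c, hc⟩ := h1
  exact ⟨-c, by linarith⟩

/-- MF: Minkowski's first theorem for boxes, by pigeonhole, (4.1). -/
theorem mf {n : ℕ} (hn : 1 ≤ n) (M : Pl → Matrix (Fin n) (Fin n) ℚ) (hM : ∀ v, (M v).det ≠ 0) :
    ∃ C1 : ℝ, 0 < C1 ∧ ∀ t : Pl → Fin n → ℝ, (∀ v i, 0 < t v i) → C1 ≤ ∏ v, ∏ i, t v i →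
      ∃ x : Fin n → ℚ, InRn x ∧ x ≠ 0 ∧ ∀ v i, av v (lin M v i x) ≤ t v i := by
  obtain ⟨D, hD, N, hN⟩ := MF_den M
  obtain ⟨A0, hA0, hA⟩ := av_matrix_bound M
  set A : ℝ := n * A0 with hAdef
  have hA0' : 0 < A0 := lt_of_lt_of_le one_pos hA0
  have hAnn : 0 ≤ A := by positivity
  have hD' : (1 : ℝ) ≤ D := by exact_mod_cast hD
  have hDpos : (0 : ℝ) < D := by linarith
  refine ⟨((2 * A + 3) * 6 * (D : ℝ) ^ 2) ^ n, by positivity, ?_⟩
  intro t ht hprod
  -- the exponent k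
  obtain ⟨k, hk⟩ : ∃ k : ℕ, ∀ v i, t v i ≤ (MF_P v : ℝ) ^ k := by
    have h1 : ∀ p : Pl × Fin n, ∃ k : ℕ, t p.1 p.2 ≤ (MF_P p.1 : ℝ) ^ k := by
      intro p
      obtain ⟨k, hk⟩ := pow_unbounded_of_one_lt (t p.1 p.2)
        (show (1 : ℝ) < MF_P p.1 by exact_mod_cast MF_P_gt p.1)
      exact ⟨k, hk.le⟩
    choose f hf using h1
    refine ⟨∑ p, f p, fun v i => le_trans (hf (v, i)) ?_⟩
    exact pow_le_pow_right₀ (by exact_mod_cast (MF_P_gt v).le)
      (Finset.single_le_sum (f := f) (fun _ _ => Nat.zero_le _) (Finset.mem_univ (v, i)))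
  -- the exponents e
  have he : ∀ v i, ∃ e : ℕ, (MF_P v : ℝ) ^ k * D / t v i ≤ (MF_P v : ℝ) ^ e ∧
      (MF_P v : ℝ) ^ e ≤ MF_P v * ((MF_P v : ℝ) ^ k * D / t v i) := by
    intro v i
    have h1 : (1 : ℝ) ≤ (MF_P v : ℝ) ^ k * D / t v i := by
      rw [le_div_iff₀ (ht v i), one_mul]
      refine le_trans (hk v i) ?_
      exact le_mul_of_one_le_right (by positivity) hD'
    obtain ⟨m, hm1, hm2⟩ := exists_nat_pow_near h1
      (show (1 : ℝ) < MF_P v by exact_mod_cast MF_P_gt v)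
    refine ⟨m + 1, hm2.le, ?_⟩
    rw [pow_succ, mul_comm]
    exact mul_le_mul_of_nonneg_left hm1 (by positivity)
  choose e he1 he2 using he
  -- the size Y
  obtain ⟨Y, hY⟩ : ∃ Y : ℕ, ∀ i, (6 : ℝ) ^ k * t 0 i ≤ Y := by
    obtain ⟨Y, hY⟩ := exists_nat_gt (∑ i, (6 : ℝ) ^ k * t 0 i)
    refine ⟨Y, fun i => le_trans ?_ hY.le⟩
    exact Finset.single_le_sum (f := fun i => (6 : ℝ) ^ k * t 0 i)
      (fun i _ => by have := ht 0 i; positivity) (Finset.mem_univ i)
  have hden : ∀ i, 0 < (6 : ℝ) ^ k * t 0 i := fun i => by have := ht 0 i; positivity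
  have hY0 : (0 : ℝ) < Y := lt_of_lt_of_le (hden ⟨0, hn⟩) (hY ⟨0, hn⟩)
  let F : Fin n → ℕ := fun i => ⌊A * Y / ((6 : ℝ) ^ k * t 0 i)⌋₊ + 1
  have hF : ∀ i, (2 * F i + 1 : ℝ) ≤ (2 * A + 3) * (Y / ((6 : ℝ) ^ k * t 0 i)) := by
    intro i
    have h1 : (F i : ℝ) ≤ A * Y / ((6 : ℝ) ^ k * t 0 i) + 1 := by
      show ((⌊A * Y / ((6 : ℝ) ^ k * t 0 i)⌋₊ + 1 : ℕ) : ℝ) ≤ _
      push_cast
      have := Nat.floor_le (show (0 : ℝ) ≤ A * Y / ((6 : ℝ) ^ k * t 0 i) by
        have := hden i; positivity)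
      linarith
    have h2 : 1 ≤ (Y : ℝ) / ((6 : ℝ) ^ k * t 0 i) := by
      rw [le_div_iff₀ (hden i), one_mul]; exact hY i
    have h3 : (2 * A + 3) * (Y / ((6 : ℝ) ^ k * t 0 i)) =
        2 * (A * Y / ((6 : ℝ) ^ k * t 0 i)) + 3 * (Y / ((6 : ℝ) ^ k * t 0 i)) := by ring
    rw [h3]
    linarith
  -- the vectors
  let vec : (Fin n → Fin (Y + 1)) → Fin n → ℚ := fun y j => ((y j : ℕ) : ℚ)
  let Nz : Pl → Fin n → (Fin n → Fin (Y + 1)) → ℤ := fun v i y => ∑ j, N v i j * ((y j : ℕ) : ℤ)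
  have hNz : ∀ v i y, (D : ℚ) * lin M v i (vec y) = Nz v i y := by
    intro v i y
    show (D : ℚ) * (∑ j, M v i j * ((y j : ℕ) : ℚ)) = ((∑ j, N v i j * ((y j : ℕ) : ℤ) : ℤ) : ℚ)
    push_cast
    rw [Finset.mul_sum]
    refine Finset.sum_congr rfl (fun j _ => ?_)
    rw [← mul_assoc, hN]
  have hbd : ∀ i y, |((lin M 0 i (vec y) : ℚ) : ℝ)| ≤ A * Y := by
    intro i y
    show |(((∑ j, M 0 i j * ((y j : ℕ) : ℚ)) : ℚ) : ℝ)| ≤ A * Y
    push_cast
    refine le_trans (Finset.abs_sum_le_sum_abs _ _) ?_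
    calc ∑ j, |((M 0 i j : ℚ) : ℝ) * ((y j : ℕ) : ℝ)| ≤ ∑ _j : Fin n, A0 * Y := by
          refine Finset.sum_le_sum (fun j _ => ?_)
          rw [abs_mul]
          have h1 := (hA 0 i j).1
          rw [av_real] at h1
          have h2 : |((y j : ℕ) : ℝ)| ≤ Y := by
            rw [abs_of_nonneg (Nat.cast_nonneg _)]
            exact_mod_cast Nat.lt_succ_iff.1 (y j).2
          exact mul_le_mul h1 h2 (abs_nonneg _) hA0'.le
      _ = A * Y := by
          rw [Finset.sum_const, Finset.card_univ, Fintype.card_fin, nsmul_eq_mul, hAdef]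
          ring
  -- pigeonhole
  let f : (Fin n → Fin (Y + 1)) → (Fin n → ℤ × ℤ × ℤ) := fun y i =>
    (⌊((lin M 0 i (vec y) : ℚ) : ℝ) / ((6 : ℝ) ^ k * t 0 i)⌋,
      Nz 1 i y % ((MF_P 1 : ℤ) ^ e 1 i), Nz 2 i y % ((MF_P 2 : ℤ) ^ e 2 i))
  let T : Finset (Fin n → ℤ × ℤ × ℤ) := Fintype.piFinset (fun i =>
    Finset.Icc (-(F i : ℤ)) (F i) ×ˢ (Finset.Ico (0 : ℤ) ((MF_P 1 : ℤ) ^ e 1 i)) ×ˢ
      (Finset.Ico (0 : ℤ) ((MF_P 2 : ℤ) ^ e 2 i)))
  have hpz : ∀ v i, (0 : ℤ) < (MF_P v : ℤ) ^ e v i := fun v i => by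
    have := MF_P_gt v
    positivity
  have hmaps : ∀ y ∈ (Finset.univ : Finset (Fin n → Fin (Y + 1))), f y ∈ T := by
    intro y _
    rw [Fintype.mem_piFinset]
    intro i
    rw [Finset.mem_product, Finset.mem_product, Finset.mem_Icc, Finset.mem_Ico, Finset.mem_Ico]
    refine ⟨?_, ⟨Int.emod_nonneg _ (hpz 1 i).ne', Int.emod_lt_of_pos _ (hpz 1 i)⟩,
      ⟨Int.emod_nonneg _ (hpz 2 i).ne', Int.emod_lt_of_pos _ (hpz 2 i)⟩⟩
    have h1 : |((lin M 0 i (vec y) : ℚ) : ℝ) / ((6 : ℝ) ^ k * t 0 i)| ≤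
        A * Y / ((6 : ℝ) ^ k * t 0 i) := by
      rw [abs_div, abs_of_pos (hden i)]
      exact div_le_div_of_nonneg_right (hbd i y) (hden i).le
    have h2 : A * Y / ((6 : ℝ) ^ k * t 0 i) < F i := by
      show _ < ((⌊A * Y / ((6 : ℝ) ^ k * t 0 i)⌋₊ + 1 : ℕ) : ℝ)
      push_cast
      exact Nat.lt_floor_add_one _
    have h3 := abs_le.1 (le_trans h1 h2.le)
    constructor
    · show -(F i : ℤ) ≤ ⌊_⌋
      rw [Int.le_floor]
      push_cast
      exact h3.1
    · show ⌊_⌋ ≤ (F i : ℤ)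
      have h4 : (⌊((lin M 0 i (vec y) : ℚ) : ℝ) / ((6 : ℝ) ^ k * t 0 i)⌋ : ℝ) ≤ F i :=
        le_trans (Int.floor_le _) h3.2
      exact_mod_cast h4
  have hcard : T.card < (Finset.univ : Finset (Fin n → Fin (Y + 1))).card := by
    have h1 : T.card = ∏ i, ((2 * F i + 1) * (MF_P 1 ^ e 1 i * MF_P 2 ^ e 2 i)) := by
      rw [Fintype.card_piFinset]
      refine Finset.prod_congr rfl (fun i _ => ?_)
      rw [Finset.card_product, Finset.card_product, Int.card_Icc, Int.card_Ico, Int.card_Ico]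
      have h2 : ((F i : ℤ) + 1 - -(F i : ℤ)).toNat = 2 * F i + 1 := by omega
      have h3 : ∀ v, (((MF_P v : ℤ) ^ e v i) - 0).toNat = MF_P v ^ e v i := by
        intro v
        rw [sub_zero]
        have : ((MF_P v : ℤ) ^ e v i) = ((MF_P v ^ e v i : ℕ) : ℤ) := by push_cast; rfl
        rw [this, Int.toNat_natCast]
      rw [h2, h3 1, h3 2]
    have h2 : (T.card : ℝ) ≤ (Y : ℝ) ^ n := by
      rw [h1]
      push_cast
      calc ∏ i, ((2 * (F i : ℝ) + 1) * ((MF_P 1 : ℝ) ^ e 1 i * (MF_P 2 : ℝ) ^ e 2 i))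
          ≤ ∏ i, (((2 * A + 3) * (Y / ((6 : ℝ) ^ k * t 0 i))) *
            ((MF_P 1 * ((MF_P 1 : ℝ) ^ k * D / t 1 i)) *
              (MF_P 2 * ((MF_P 2 : ℝ) ^ k * D / t 2 i)))) := by
            refine Finset.prod_le_prod (fun i _ => by positivity) (fun i _ => ?_)
            refine mul_le_mul (hF i) (mul_le_mul (he2 1 i) (he2 2 i) (by positivity) ?_)
              (by positivity) ?_
            · have := ht 1 i; positivity
            · have := hden i; positivity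
        _ = ∏ i, (((2 * A + 3) * 6 * (D : ℝ) ^ 2) * Y * (t 0 i * t 1 i * t 2 i)⁻¹) := by
            refine Finset.prod_congr rfl (fun i _ => ?_)
            have e1 : (MF_P 1 : ℝ) = 2 := by norm_num [MF_P]
            have e2 : (MF_P 2 : ℝ) = 3 := by
              have : MF_P 2 = 3 := by decide
              rw [this]; norm_num
            have e3 : (6 : ℝ) ^ k = 2 ^ k * 3 ^ k := by rw [← mul_pow]; norm_num
            rw [e1, e2, e3]
            have h0 := ht 0 i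
            have h1 := ht 1 i
            have h2 := ht 2 i
            field_simp
            ring
        _ = (((2 * A + 3) * 6 * (D : ℝ) ^ 2) ^ n * (Y : ℝ) ^ n) *
            (∏ v, ∏ i, t v i)⁻¹ := by
            have g1 : ∏ i, (t 0 i * t 1 i * t 2 i)⁻¹ = (∏ v, ∏ i, t v i)⁻¹ := by
              rw [Finset.prod_inv_distrib, Finset.prod_mul_distrib, Finset.prod_mul_distrib,
                Fin.prod_univ_three]
            have g2 : ∀ c : ℝ, ∏ i, (c * (t 0 i * t 1 i * t 2 i)⁻¹) =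
                c ^ n * ∏ i, (t 0 i * t 1 i * t 2 i)⁻¹ := by
              intro c
              rw [Finset.prod_mul_distrib, Finset.prod_const, Finset.card_univ, Fintype.card_fin]
            rw [g2, g1, mul_pow _ (Y : ℝ)]
        _ ≤ (Y : ℝ) ^ n := by
            have h3 : 0 < ∏ v, ∏ i, t v i :=
              Finset.prod_pos (fun v _ => Finset.prod_pos (fun i _ => ht v i))
            rw [← div_eq_mul_inv, div_le_iff₀ h3, mul_comm]
            exact mul_le_mul_of_nonneg_left hprod (by positivity)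
    have h3 : (Finset.univ : Finset (Fin n → Fin (Y + 1))).card = (Y + 1) ^ n := by
      rw [Finset.card_univ, Fintype.card_pi, Finset.prod_const, Fintype.card_fin,
        Finset.card_univ, Fintype.card_fin]
    rw [h3]
    have h4 : (T.card : ℝ) < ((Y : ℝ) + 1) ^ n :=
      lt_of_le_of_lt h2 (pow_lt_pow_left₀ (by linarith) hY0.le (by omega))
    exact_mod_cast h4
  obtain ⟨y, _, y', _, hne, hyy⟩ := Finset.exists_ne_map_eq_of_card_lt_of_maps_to hcard hmaps
  have h6 : (6 : ℚ) ^ k ≠ 0 := by positivity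
  have hlin : ∀ v i, lin M v i (fun j => (vec y j - vec y' j) / 6 ^ k) =
      (lin M v i (vec y) - lin M v i (vec y')) / 6 ^ k := by
    intro v i
    show ∑ j, M v i j * ((vec y j - vec y' j) / 6 ^ k) =
      (∑ j, M v i j * vec y j - ∑ j, M v i j * vec y' j) / 6 ^ k
    rw [← Finset.sum_sub_distrib, Finset.sum_div]
    refine Finset.sum_congr rfl (fun j _ => ?_)
    ring
  refine ⟨fun j => (vec y j - vec y' j) / 6 ^ k, ?_, ?_, ?_⟩
  · intro j
    refine ⟨k, ((y j : ℕ) : ℤ) - ((y' j : ℕ) : ℤ), ?_⟩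
    show (6 : ℚ) ^ k * ((((y j : ℕ) : ℚ) - ((y' j : ℕ) : ℚ)) / 6 ^ k) = _
    push_cast
    field_simp
  · intro h
    apply hne
    funext j
    have h1 := congrFun h j
    have h2 : (((y j : ℕ) : ℚ) - ((y' j : ℕ) : ℚ)) / 6 ^ k = 0 := h1
    rw [div_eq_zero_iff] at h2
    rcases h2 with h2 | h2
    · have h3 : ((y j : ℕ) : ℚ) = ((y' j : ℕ) : ℚ) := by linarith
      exact Fin.ext (by exact_mod_cast h3)
    · exact absurd h2 h6
  · intro v i
    rw [hlin]
    by_cases hv : v = 0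
    · subst hv
      rw [av_real]
      push_cast
      have h1 : ⌊((lin M 0 i (vec y) : ℚ) : ℝ) / ((6 : ℝ) ^ k * t 0 i)⌋ =
          ⌊((lin M 0 i (vec y') : ℚ) : ℝ) / ((6 : ℝ) ^ k * t 0 i)⌋ :=
        congrArg Prod.fst (congrFun hyy i)
      have h2 := Int.abs_sub_lt_one_of_floor_eq_floor h1
      rw [← sub_div, abs_div, abs_of_pos (hden i), div_lt_one (hden i)] at h2
      rw [abs_div, abs_of_pos (show (0 : ℝ) < 6 ^ k by positivity), div_le_iff₀ (by positivity)]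
      linarith
    · have hmod : Nz v i y % ((MF_P v : ℤ) ^ e v i) = Nz v i y' % ((MF_P v : ℤ) ^ e v i) := by
        have h1 := congrArg Prod.snd (congrFun hyy i)
        have h2 : Nz 1 i y % ((MF_P 1 : ℤ) ^ e 1 i) = Nz 1 i y' % ((MF_P 1 : ℤ) ^ e 1 i) :=
          congrArg Prod.fst h1
        have h3 : Nz 2 i y % ((MF_P 2 : ℤ) ^ e 2 i) = Nz 2 i y' % ((MF_P 2 : ℤ) ^ e 2 i) :=
          congrArg Prod.snd h1
        fin_cases v
        · exact absurd rfl hv
        · exact h2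
        · exact h3
      obtain ⟨z, hz⟩ := (MF_mod hmod)
      have hPpos : (0 : ℝ) < MF_P v := by
        have := MF_P_gt v
        exact_mod_cast (by omega : 0 < MF_P v)
      have h1 : (D : ℚ) * (lin M v i (vec y) - lin M v i (vec y')) =
          (MF_P v : ℚ) ^ e v i * z := by
        rw [mul_sub, hNz, hNz]
        exact_mod_cast hz
      have h2 : av v (D : ℚ) * av v (lin M v i (vec y) - lin M v i (vec y')) ≤
          ((MF_P v : ℝ) ^ e v i)⁻¹ := by
        rw [← av_mul, h1, av_mul, av_pow, MF_av_P hv, inv_pow]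
        have := av_int_le_one hv z
        exact mul_le_of_le_one_right (by positivity) this
      have h3 : 1 / (D : ℝ) ≤ av v (D : ℚ) := by
        have := av_int_ge v (z := (D : ℤ)) (by omega)
        simpa using this
      have h4 : av v (lin M v i (vec y) - lin M v i (vec y')) ≤ D * ((MF_P v : ℝ) ^ e v i)⁻¹ := by
        have h5 : 1 / (D : ℝ) * av v (lin M v i (vec y) - lin M v i (vec y')) ≤
            ((MF_P v : ℝ) ^ e v i)⁻¹ :=
          le_trans (mul_le_mul_of_nonneg_right h3 (av_nonneg _ _)) h2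
        rw [one_div, inv_mul_le_iff₀ hDpos] at h5
        exact h5
      rw [av_div, av_pow, MF_av_six hv, inv_pow, div_inv_eq_mul]
      refine le_trans (mul_le_mul_of_nonneg_right h4 (by positivity)) ?_
      have h5 := he1 v i
      rw [div_le_iff₀ (ht v i)] at h5
      have h6 : (0 : ℝ) < (MF_P v : ℝ) ^ e v i := by positivity
      rw [mul_right_comm, ← div_eq_mul_inv, div_le_iff₀ h6]
      linarith

end Pool.Agent.SubT
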