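import Pool.Agent.SubT.Place

/-! Module NORMAL. Text: team-store MP_e27144_an_pr_growth_helper66.md.
HINT: y: clear denominators and divide by the gcd. Cross product h_k = (-1)^k det(g without column k): h.x = det(x, g_1..g_n), so A^-T h . z = h . A^-1 z = det(A^-1) det(z, A g_1, ..): coordinates = minors of the A g_j. -/

namespace Pool.Agent.SubT

open scoped BigOperators ENNReal

open MeasureTheory Set Filter Topology

/-- a nonzero integral vector is a multiple of a primitive one -/
theorem NORMAL_prim {n : ℕ} (z : Fin n → ℤ) (hz : z ≠ 0) :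
    ∃ d : ℤ, d ≠ 0 ∧ ∃ y : Fin n → ℤ, (∀ k, z k = d * y k) ∧
      ∃ b : Fin n → ℤ, ∑ k, b k * y k = 1 := by
  classical
  obtain ⟨d, hd⟩ := (IsPrincipalIdealRing.principal (Ideal.span (Set.range z))).principal
  have hmem : ∀ k, ∃ y : ℤ, z k = d * y := by
    intro k
    have h1 : z k ∈ Ideal.span (Set.range z) := Ideal.subset_span ⟨k, rfl⟩
    rw [hd] at h1
    obtain ⟨y, hy⟩ := Submodule.mem_span_singleton.1 h1
    exact ⟨y, by rw [← hy, smul_eq_mul, mul_comm]⟩
  choose y hy using hmem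
  have hd0 : d ≠ 0 := by
    rintro rfl
    apply hz
    funext k
    rw [hy k, zero_mul]
    rfl
  refine ⟨d, hd0, y, hy, ?_⟩
  have h2 : d ∈ Ideal.span (Set.range z) := by
    rw [hd]
    exact Submodule.mem_span_singleton_self d
  obtain ⟨b, hb⟩ := (Ideal.mem_span_range_iff_exists_fun).1 h2
  refine ⟨b, ?_⟩
  have h3 : d * ∑ k, b k * y k = d * 1 := by
    rw [Finset.mul_sum, mul_one]
    calc ∑ k, d * (b k * y k) = ∑ k, b k * z k := by
          refine Finset.sum_congr rfl fun k _ => ?_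
          rw [hy k]
          ring
      _ = d := hb
  exact mul_left_cancel₀ hd0 h3

/-- a nonzero rational vector is a nonzero multiple of a primitive integral one -/
theorem NORMAL_primQ {n : ℕ} (q : Fin n → ℚ) (hq : q ≠ 0) :
    ∃ c : ℚ, c ≠ 0 ∧ ∃ y : Fin n → ℤ, (∀ k, (y k : ℚ) = c * q k) ∧
      ∃ b : Fin n → ℤ, ∑ k, b k * y k = 1 := by
  classical
  set D : ℤ := ∏ k, ((q k).den : ℤ) with hD
  have hD0 : D ≠ 0 := by
    rw [hD, Finset.prod_ne_zero_iff]
    intro k _
    exact_mod_cast (q k).den_nz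
  have hint : ∀ k, ∃ z : ℤ, (z : ℚ) = (D : ℚ) * q k := by
    intro k
    refine ⟨(∏ l ∈ Finset.univ.erase k, ((q l).den : ℤ)) * (q k).num, ?_⟩
    have h1 : D = (∏ l ∈ Finset.univ.erase k, ((q l).den : ℤ)) * ((q k).den : ℤ) := by
      rw [hD, Finset.prod_erase_mul _ _ (Finset.mem_univ k)]
    have h2 : ((q k).den : ℚ) * q k = ((q k).num : ℚ) := by
      have h3 : ((q k).den : ℚ) ≠ 0 := by exact_mod_cast (q k).den_nz
      rw [mul_comm]
      exact Rat.mul_den_eq_num (q k)
    rw [h1]
    push_cast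
    rw [mul_assoc, h2]
  choose z hz using hint
  have hz0 : z ≠ 0 := by
    rintro rfl
    apply hq
    funext k
    have h1 := hz k
    have hD' : (D : ℚ) ≠ 0 := by exact_mod_cast hD0
    have h2 : (D : ℚ) * q k = 0 := by
      rw [← h1]
      norm_num
    exact (mul_eq_zero.1 h2).resolve_left hD'
  obtain ⟨d, hd0, y, hy, hb⟩ := NORMAL_prim z hz0
  have hd' : (d : ℚ) ≠ 0 := by exact_mod_cast hd0
  have hD' : (D : ℚ) ≠ 0 := by exact_mod_cast hD0
  refine ⟨(D : ℚ) / d, div_ne_zero hD' hd', y, fun k => ?_, hb⟩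
  have h1 := hz k
  rw [hy k] at h1
  push_cast at h1
  field_simp
  linarith

/-- NORMAL: a primitive integral normal vector of a hyperplane. -/
theorem exists_normal {n : ℕ} (g : Fin n → Fin (n + 1) → ℚ) :
    ∃ y : Fin (n + 1) → ℤ, (∃ b : Fin (n + 1) → ℤ, ∑ k, b k * y k = 1) ∧
      ∀ j, ∑ k, (y k : ℚ) * g j k = 0 := by
  classical
  set A : Matrix (Fin (n + 1)) (Fin (n + 1)) ℚ := Matrix.of (Fin.cons 0 g) with hA
  have hdet : A.det = 0 := Matrix.det_eq_zero_of_row_eq_zero 0 (fun j => by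
    rw [hA, Matrix.of_apply, Fin.cons_zero]
    rfl)
  obtain ⟨q, hq0, hq⟩ := Matrix.exists_mulVec_eq_zero_iff.2 hdet
  obtain ⟨c, hc, y, hy, hb⟩ := NORMAL_primQ q hq0
  refine ⟨y, hb, fun j => ?_⟩
  have h1 : (A.mulVec q) j.succ = 0 := by rw [hq]; rfl
  have h2 : (A.mulVec q) j.succ = ∑ k, g j k * q k := by
    rw [Matrix.mulVec, dotProduct]
    refine Finset.sum_congr rfl fun k _ => ?_
    rw [hA, Matrix.of_apply, Fin.cons_succ]
  calc ∑ k, (y k : ℚ) * g j k = c * ∑ k, g j k * q k := by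
        rw [Finset.mul_sum]
        refine Finset.sum_congr rfl fun k _ => ?_
        rw [hy k]
        ring
    _ = 0 := by rw [← h2, h1, mul_zero]

/-- the signed maximal minors -/
noncomputable def NORMAL_h {n : ℕ} (g : Fin n → Fin (n + 1) → ℚ) (k : Fin (n + 1)) : ℚ :=
  (-1) ^ (k : ℕ) * Matrix.det (fun a b : Fin n => g a (k.succAbove b))

/-- the bordered matrix -/
def NORMAL_B {n : ℕ} (x : Fin (n + 1) → ℚ) (g : Fin n → Fin (n + 1) → ℚ) :
    Matrix (Fin (n + 1)) (Fin (n + 1)) ℚ := fun i => (Fin.cons x g : Fin (n + 1) → _) i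

theorem NORMAL_det {n : ℕ} (x : Fin (n + 1) → ℚ) (g : Fin n → Fin (n + 1) → ℚ) :
    (NORMAL_B x g).det = ∑ k, NORMAL_h g k * x k := by
  rw [Matrix.det_succ_row_zero]
  refine Finset.sum_congr rfl fun k _ => ?_
  have h1 : NORMAL_B x g 0 k = x k := rfl
  have h2 : (NORMAL_B x g).submatrix Fin.succ k.succAbove =
      (fun a b : Fin n => g a (k.succAbove b)) := by
    ext a b
    rfl
  rw [h1, h2, NORMAL_h]
  ring

theorem NORMAL_mul {n : ℕ} (x : Fin (n + 1) → ℚ) (g : Fin n → Fin (n + 1) → ℚ)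
    (A : Matrix (Fin (n + 1)) (Fin (n + 1)) ℚ) :
    NORMAL_B x g * A.transpose = NORMAL_B (A.mulVec x) (fun j => A.mulVec (g j)) := by
  ext i k
  rw [Matrix.mul_apply]
  refine Fin.cases ?_ (fun j => ?_) i
  · show ∑ l, x l * A.transpose l k = A.mulVec x k
    rw [Matrix.mulVec, dotProduct]
    exact Finset.sum_congr rfl fun l _ => by rw [Matrix.transpose_apply, mul_comm]
  · show ∑ l, g j l * A.transpose l k = A.mulVec (g j) k
    rw [Matrix.mulVec, dotProduct]
    exact Finset.sum_congr rfl fun l _ => by rw [Matrix.transpose_apply, mul_comm]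

/-- NORMAL: the cross product (signed maximal minors) and its dual coordinates. -/
theorem exists_cross {n : ℕ} (g : Fin n → Fin (n + 1) → ℚ) (hg : LinearIndependent ℚ g)
    (hR : ∀ j k, InR (g j k)) :
    ∃ h : Fin (n + 1) → ℚ, h ≠ 0 ∧ (∀ k, InR (h k)) ∧ (∀ j, ∑ k, h k * g j k = 0) ∧
      ∀ A : Matrix (Fin (n + 1)) (Fin (n + 1)) ℚ, A.det ≠ 0 → ∀ i : Fin (n + 1),
        ∃ s : ℚ, (s = 1 ∨ s = -1) ∧
          (A⁻¹.transpose).mulVec h i = s * A.det⁻¹ *
            Matrix.det (fun a b : Fin n => A.mulVec (g b) (i.succAbove a)) := by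
  classical
  refine ⟨NORMAL_h g, ?_, ?_, ?_, ?_⟩
  · intro h0
    -- a vector outside the span
    have hlt : Submodule.span ℚ (Set.range g) ≠ ⊤ := by
      intro htop
      have h1 : Module.finrank ℚ (Submodule.span ℚ (Set.range g)) ≤ n := by
        have := finrank_range_le_card (R := ℚ) g
        rwa [Fintype.card_fin] at this
      rw [htop, finrank_top, Module.finrank_fintype_fun_eq_card, Fintype.card_fin] at h1
      omega
    obtain ⟨x, hx⟩ : ∃ x, x ∉ Submodule.span ℚ (Set.range g) := by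
      by_contra hcon
      push Not at hcon
      exact hlt (Submodule.eq_top_iff'.2 hcon)
    have hli : LinearIndependent ℚ (Fin.cons x g : Fin (n + 1) → (Fin (n + 1) → ℚ)) :=
      linearIndependent_finCons.2 ⟨hg, hx⟩
    have hrow : LinearIndependent ℚ (NORMAL_B x g).row := hli
    have hu := Matrix.linearIndependent_rows_iff_isUnit.1 hrow
    have hdet : (NORMAL_B x g).det ≠ 0 := by
      rw [Matrix.isUnit_iff_isUnit_det] at hu
      exact hu.ne_zero
    apply hdet
    rw [NORMAL_det, h0]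
    simp
  · intro k
    refine inR_mul ?_ (inR_det _ fun a b => hR _ _)
    have : ((-1 : ℚ)) ^ (k : ℕ) = (((-1 : ℤ) ^ (k : ℕ) : ℤ) : ℚ) := by push_cast; rfl
    rw [this]
    exact inR_int _
  · intro j
    rw [← NORMAL_det]
    refine Matrix.det_zero_of_row_eq (i := 0) (j := j.succ) (Fin.succ_ne_zero j).symm ?_
    rfl
  · intro A hA i
    refine ⟨(-1) ^ (i : ℕ), ?_, ?_⟩
    · rcases Nat.even_or_odd (i : ℕ) with he | ho
      · exact Or.inl he.neg_one_pow
      · exact Or.inr ho.neg_one_pow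
    · have hunit : IsUnit A.det := isUnit_iff_ne_zero.2 hA
      set x : Fin (n + 1) → ℚ := fun k => A⁻¹ k i with hx
      have h1 : (A⁻¹.transpose).mulVec (NORMAL_h g) i = (NORMAL_B x g).det := by
        rw [NORMAL_det, Matrix.mulVec, dotProduct]
        exact Finset.sum_congr rfl fun k _ => by rw [Matrix.transpose_apply, mul_comm]
      have h2 : A.mulVec x = Pi.single i 1 := by
        funext k
        have h3 : (A * A⁻¹) k i = (1 : Matrix (Fin (n + 1)) (Fin (n + 1)) ℚ) k i := by
          rw [Matrix.mul_nonsing_inv _ hunit]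
        rw [Matrix.mul_apply] at h3
        rw [Matrix.mulVec, dotProduct, hx]
        simp only
        rw [h3, Matrix.one_apply, Pi.single_apply]
      have h4 : (NORMAL_B x g).det * A.det =
          (-1) ^ (i : ℕ) * Matrix.det (fun a b : Fin n => A.mulVec (g b) (i.succAbove a)) := by
        rw [← Matrix.det_transpose A, ← Matrix.det_mul, NORMAL_mul, h2, NORMAL_det]
        rw [Finset.sum_eq_single i]
        · rw [Pi.single_eq_same, mul_one, NORMAL_h]
          congr 1
          exact (Matrix.det_transpose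
            (Matrix.of fun a b : Fin n => A.mulVec (g b) (i.succAbove a)))
        · intro k _ hk
          rw [Pi.single_eq_of_ne hk, mul_zero]
        · intro h
          exact absurd (Finset.mem_univ i) h
      rw [h1]
      have h5 : (NORMAL_B x g).det = ((NORMAL_B x g).det * A.det) * A.det⁻¹ := by
        rw [mul_assoc, mul_inv_cancel₀ hA, mul_one]
      rw [h5, h4]
      ring

end Pool.Agent.SubT
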