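import Pool.Agent.SubT.Defs

/-! Module NRM: the coefficient norm. -/

namespace Pool.Agent.SubT

open scoped BigOperators

/-- the norm as a sum over a larger set -/
theorem NRM_sum {σ : Type*} (P : MvPolynomial σ ℤ) (s : Finset (σ →₀ ℕ)) (h : P.support ⊆ s) :
    nrm P = ∑ m ∈ s, |((P.coeff m : ℤ) : ℝ)| := by
  unfold nrm
  refine Finset.sum_subset h fun m _ hm => ?_
  rw [MvPolynomial.notMem_support_iff] at hm
  rw [hm]
  simp

/-- the norm is at least the sum over any set -/
theorem NRM_sum_le {σ : Type*} (P : MvPolynomial σ ℤ) (s : Finset (σ →₀ ℕ)) :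
    ∑ m ∈ s, |((P.coeff m : ℤ) : ℝ)| ≤ nrm P := by
  classical
  rw [NRM_sum P (P.support ∪ s) Finset.subset_union_left]
  exact Finset.sum_le_sum_of_subset_of_nonneg Finset.subset_union_right
    (fun m _ _ => abs_nonneg _)

theorem nrm_nonneg {σ : Type*} (P : MvPolynomial σ ℤ) : 0 ≤ nrm P :=
  Finset.sum_nonneg fun _ _ => abs_nonneg _

theorem nrm_zero {σ : Type*} : nrm (0 : MvPolynomial σ ℤ) = 0 := by
  unfold nrm
  rw [MvPolynomial.support_zero, Finset.sum_empty]

theorem coeff_le_nrm {σ : Type*} (P : MvPolynomial σ ℤ) (m : σ →₀ ℕ) :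
    |((P.coeff m : ℤ) : ℝ)| ≤ nrm P := by
  have := NRM_sum_le P {m}
  rwa [Finset.sum_singleton] at this

theorem one_le_nrm {σ : Type*} {P : MvPolynomial σ ℤ} (h : P ≠ 0) : 1 ≤ nrm P := by
  obtain ⟨m, hm⟩ := MvPolynomial.ne_zero_iff.1 h
  refine le_trans ?_ (coeff_le_nrm P m)
  have : (1 : ℤ) ≤ |P.coeff m| := Int.one_le_abs hm
  exact_mod_cast this

theorem nrm_add_le {σ : Type*} (P P' : MvPolynomial σ ℤ) : nrm (P + P') ≤ nrm P + nrm P' := by
  classical
  have h := NRM_sum_le P (P + P').support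
  have h' := NRM_sum_le P' (P + P').support
  refine le_trans ?_ (add_le_add h h')
  unfold nrm
  rw [← Finset.sum_add_distrib]
  refine Finset.sum_le_sum fun m _ => ?_
  rw [MvPolynomial.coeff_add]
  push_cast
  exact abs_add_le _ _

theorem nrm_neg {σ : Type*} (P : MvPolynomial σ ℤ) : nrm (-P) = nrm P := by
  unfold nrm
  rw [MvPolynomial.support_neg]
  refine Finset.sum_congr rfl fun m _ => ?_
  rw [MvPolynomial.coeff_neg]
  push_cast
  rw [abs_neg]

theorem nrm_sum_le {σ α : Type*} (s : Finset α) (f : α → MvPolynomial σ ℤ) :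
    nrm (∑ i ∈ s, f i) ≤ ∑ i ∈ s, nrm (f i) := by
  classical
  induction s using Finset.induction_on with
  | empty => simp [nrm_zero]
  | insert a s ha ih =>
    rw [Finset.sum_insert ha, Finset.sum_insert ha]
    exact (nrm_add_le _ _).trans (by linarith)

theorem NRM_monomial {σ : Type*} (m : σ →₀ ℕ) (c : ℤ) :
    nrm (MvPolynomial.monomial m c) = |(c : ℝ)| := by
  classical
  rw [NRM_sum _ {m} MvPolynomial.support_monomial_subset, Finset.sum_singleton,
    MvPolynomial.coeff_monomial, if_pos rfl]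

theorem nrm_mul_le {σ : Type*} (P P' : MvPolynomial σ ℤ) : nrm (P * P') ≤ nrm P * nrm P' := by
  classical
  have e : P * P' = ∑ m ∈ P.support, ∑ m' ∈ P'.support,
      MvPolynomial.monomial (m + m') (P.coeff m * P'.coeff m') := by
    conv_lhs => rw [P.as_sum, P'.as_sum]
    rw [Finset.sum_mul_sum]
    refine Finset.sum_congr rfl fun m _ => Finset.sum_congr rfl fun m' _ => ?_
    rw [MvPolynomial.monomial_mul]
  rw [e]
  refine (nrm_sum_le _ _).trans ?_
  unfold nrm
  rw [Finset.sum_mul_sum]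
  refine Finset.sum_le_sum fun m _ => ?_
  refine (nrm_sum_le _ _).trans (Finset.sum_le_sum fun m' _ => ?_)
  rw [NRM_monomial]
  push_cast
  rw [abs_mul]

theorem NRM_one {σ : Type*} : nrm (1 : MvPolynomial σ ℤ) = 1 := by
  have := NRM_monomial (0 : σ →₀ ℕ) 1
  rw [Int.cast_one, abs_one] at this
  exact this

theorem nrm_prod_le {σ α : Type*} (s : Finset α) (f : α → MvPolynomial σ ℤ) :
    nrm (∏ i ∈ s, f i) ≤ ∏ i ∈ s, nrm (f i) := by
  classical
  induction s using Finset.induction_on with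
  | empty => simp [NRM_one]
  | insert a s ha ih =>
    rw [Finset.prod_insert ha, Finset.prod_insert ha]
    exact (nrm_mul_le _ _).trans (mul_le_mul_of_nonneg_left ih (nrm_nonneg _))

theorem nrm_hd_le {σ : Type*} [Fintype σ] (μ : σ →₀ ℕ) (P : MvPolynomial σ ℤ) (r : σ → ℕ)
    (h : ∀ i, P.degreeOf i ≤ r i) : nrm (hd μ P) ≤ 2 ^ (∑ i, r i) * nrm P := by
  unfold hd
  refine (nrm_sum_le _ _).trans ?_
  unfold nrm
  rw [Finset.mul_sum]
  refine Finset.sum_le_sum fun m hm => ?_
  have h0 := NRM_monomial (m - μ)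
    ((∏ i, (((m i).choose (μ i) : ℕ) : ℤ)) * P.coeff m)
  unfold nrm at h0
  rw [h0]
  push_cast
  rw [abs_mul]
  refine mul_le_mul_of_nonneg_right ?_ (abs_nonneg _)
  rw [Finset.abs_prod, ← Finset.prod_pow_eq_pow_sum]
  refine Finset.prod_le_prod (fun i _ => abs_nonneg _) fun i _ => ?_
  rw [abs_of_nonneg (Nat.cast_nonneg _)]
  have h1 : m i ≤ r i := (MvPolynomial.degreeOf_le_iff.1 (h i)) m hm
  have h2 : (m i).choose (μ i) ≤ 2 ^ (r i) :=
    (Nat.choose_le_two_pow _ _).trans (Nat.pow_le_pow_right (by norm_num) h1)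
  exact_mod_cast h2

theorem degreeOf_hd_le {σ : Type*} [Fintype σ] (μ : σ →₀ ℕ) (P : MvPolynomial σ ℤ) (i : σ) :
    (hd μ P).degreeOf i ≤ P.degreeOf i := by
  classical
  unfold hd
  refine (MvPolynomial.degreeOf_sum_le _ _ _).trans (Finset.sup_le fun m hm => ?_)
  rw [MvPolynomial.degreeOf_le_iff]
  intro m' hm'
  have h1 := MvPolynomial.support_monomial_subset hm'
  rw [Finset.mem_singleton] at h1
  rw [h1]
  have h2 : m i ≤ P.degreeOf i := (MvPolynomial.degreeOf_le_iff.1 le_rfl) m hm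
  refine le_trans ?_ h2
  rw [Finsupp.tsub_apply]
  exact Nat.sub_le _ _

theorem nrm_det_le {σ : Type*} {k : ℕ} (A : Matrix (Fin k) (Fin k) (MvPolynomial σ ℤ)) (B : ℝ)
    (h : ∀ i j, nrm (A i j) ≤ B) : nrm A.det ≤ k.factorial * B ^ k := by
  rw [Matrix.det_apply]
  refine (nrm_sum_le _ _).trans ?_
  have h1 : ∀ τ : Equiv.Perm (Fin k),
      nrm (Equiv.Perm.sign τ • ∏ i, A (τ i) i) ≤ B ^ k := by
    intro τ
    have h2 : nrm (∏ i, A (τ i) i) ≤ B ^ k := by
      refine (nrm_prod_le _ _).trans ?_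
      refine (Finset.prod_le_prod (fun i _ => nrm_nonneg _) (fun i _ => h _ _)).trans ?_
      rw [Finset.prod_const, Finset.card_univ, Fintype.card_fin]
    rcases Int.units_eq_one_or (Equiv.Perm.sign τ) with hs | hs
    · rw [hs, one_smul]; exact h2
    · rw [hs, Units.neg_smul, one_smul, nrm_neg]; exact h2
  refine (Finset.sum_le_sum fun τ _ => h1 τ).trans ?_
  rw [Finset.sum_const, Finset.card_univ, Fintype.card_perm, Fintype.card_fin, nsmul_eq_mul]

theorem degreeOf_det_le {σ : Type*} {k : ℕ} (A : Matrix (Fin k) (Fin k) (MvPolynomial σ ℤ))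
    (l : σ) (d : ℕ) (h : ∀ i j, (A i j).degreeOf l ≤ d) : A.det.degreeOf l ≤ k * d := by
  classical
  rw [Matrix.det_apply]
  refine (MvPolynomial.degreeOf_sum_le _ _ _).trans (Finset.sup_le fun τ _ => ?_)
  have h2 : (∏ i, A (τ i) i).degreeOf l ≤ k * d := by
    refine (MvPolynomial.degreeOf_prod_le _ _ _).trans ?_
    refine (Finset.sum_le_sum fun i _ => h _ _).trans ?_
    rw [Finset.sum_const, Finset.card_univ, Fintype.card_fin, smul_eq_mul]
  rcases Int.units_eq_one_or (Equiv.Perm.sign τ) with hs | hs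
  · rw [hs, one_smul]; exact h2
  · rw [hs, Units.neg_smul, one_smul]
    rw [MvPolynomial.degreeOf_le_iff] at h2 ⊢
    intro m hm
    rw [MvPolynomial.support_neg] at hm
    exact h2 m hm

/-- The coefficients with respect to `X_0` have smaller norm. -/
theorem nrm_finSucc_coeff_le {m : ℕ} (P : MvPolynomial (Fin (m + 1)) ℤ) (i : ℕ) :
    nrm ((MvPolynomial.finSuccEquiv ℤ m P).coeff i) ≤ nrm P := by
  classical
  have hinj : Function.Injective (fun e : Fin m →₀ ℕ => Finsupp.cons i e) := by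
    intro e e' hee
    have := congrArg Finsupp.tail hee
    simpa [Finsupp.tail_cons] using this
  have h := NRM_sum_le P
    (((MvPolynomial.finSuccEquiv ℤ m P).coeff i).support.image (fun e => Finsupp.cons i e))
  rw [Finset.sum_image (fun a _ b _ hab => hinj hab)] at h
  refine le_trans (le_of_eq ?_) h
  unfold nrm
  refine Finset.sum_congr rfl fun e _ => ?_
  rw [MvPolynomial.finSuccEquiv_coeff_coeff]

/-- The coefficient of a monomial of `X_1..X_m`, a polynomial in `X_0`, has smaller norm. -/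
theorem sum_finSucc_coeff_coeff_le {m : ℕ} (P : MvPolynomial (Fin (m + 1)) ℤ) (e : Fin m →₀ ℕ)
    (s : Finset ℕ) :
    ∑ i ∈ s, |((((MvPolynomial.finSuccEquiv ℤ m P).coeff i).coeff e : ℤ) : ℝ)| ≤ nrm P := by
  classical
  have hinj : Function.Injective (fun i : ℕ => (Finsupp.cons i e : Fin (m + 1) →₀ ℕ)) := by
    intro i i' hii
    have := DFunLike.congr_fun hii 0
    simpa [Finsupp.cons_zero] using this
  have h := NRM_sum_le P (s.image (fun i => (Finsupp.cons i e : Fin (m + 1) →₀ ℕ)))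
  rw [Finset.sum_image (fun a _ b _ hab => hinj hab)] at h
  refine le_trans (le_of_eq ?_) h
  refine Finset.sum_congr rfl fun i _ => ?_
  rw [MvPolynomial.finSuccEquiv_coeff_coeff]

end Pool.Agent.SubT
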