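import Pool.Agent.SubT.Defs

/-! Module ORD: weighted order. -/

namespace Pool.Agent.SubT

open scoped BigOperators

variable {σ : Type*} [Fintype σ]

theorem OrdGe.zero {R : Type*} [CommSemiring R] (w : σ → ℝ) (θ : ℝ) :
    OrdGe w θ (0 : MvPolynomial σ R) := by
  intro m hm
  simp at hm

theorem OrdGe.mono {R : Type*} [CommSemiring R] {w : σ → ℝ} {θ θ' : ℝ} {F : MvPolynomial σ R}
    (h : OrdGe w θ F) (hle : θ' ≤ θ) : OrdGe w θ' F := fun m hm => hle.trans (h m hm)

theorem OrdGe.nonneg {R : Type*} [CommSemiring R] {w : σ → ℝ} (hw : ∀ i, 0 ≤ w i)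
    (F : MvPolynomial σ R) : OrdGe w 0 F := fun m _ =>
  Finset.sum_nonneg fun i _ => mul_nonneg (hw i) (Nat.cast_nonneg _)

theorem OrdGe.add {R : Type*} [CommSemiring R] {w : σ → ℝ} {θ : ℝ} {F G : MvPolynomial σ R}
    (hF : OrdGe w θ F) (hG : OrdGe w θ G) : OrdGe w θ (F + G) := by
  classical
  intro m hm
  have h1 := MvPolynomial.support_add hm
  rw [Finset.mem_union] at h1
  rcases h1 with h1 | h1
  · exact hF m h1
  · exact hG m h1

theorem OrdGe.sum {R : Type*} [CommSemiring R] {w : σ → ℝ} {θ : ℝ} {α : Type*} (s : Finset α)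
    (f : α → MvPolynomial σ R) (h : ∀ i ∈ s, OrdGe w θ (f i)) : OrdGe w θ (∑ i ∈ s, f i) := by
  classical
  induction s using Finset.induction_on with
  | empty => rw [Finset.sum_empty]; exact OrdGe.zero w θ
  | insert a s ha ih =>
    rw [Finset.sum_insert ha]
    exact (h a (Finset.mem_insert_self a s)).add
      (ih fun i hi => h i (Finset.mem_insert_of_mem hi))

theorem OrdGe.mul {R : Type*} [CommSemiring R] {w : σ → ℝ} {a b : ℝ} {F G : MvPolynomial σ R}
    (hF : OrdGe w a F) (hG : OrdGe w b G) : OrdGe w (a + b) (F * G) := by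
  classical
  intro m hm
  have h1 := MvPolynomial.support_mul F G hm
  obtain ⟨m1, h2, m2, h3, rfl⟩ := Finset.mem_add.1 h1
  have h4 := hF m1 h2
  have h5 := hG m2 h3
  have h6 : ∑ i, w i * (((m1 + m2) i : ℕ) : ℝ) =
      ∑ i, w i * ((m1 i : ℕ) : ℝ) + ∑ i, w i * ((m2 i : ℕ) : ℝ) := by
    rw [← Finset.sum_add_distrib]
    refine Finset.sum_congr rfl fun i _ => ?_
    rw [Finsupp.add_apply]
    push_cast
    ring
  rw [h6]
  exact add_le_add h4 h5

theorem ORD_C {R : Type*} [CommSemiring R] (w : σ → ℝ) (x : R) :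
    OrdGe w 0 (MvPolynomial.C x : MvPolynomial σ R) := by
  classical
  intro m hm
  rw [MvPolynomial.mem_support_iff, MvPolynomial.coeff_C] at hm
  have : (0 : σ →₀ ℕ) = m := by
    by_contra h
    rw [if_neg h] at hm
    exact hm rfl
  rw [← this]
  simp

theorem ORD_neg {w : σ → ℝ} {θ : ℝ} {F : MvPolynomial σ ℚ} (hF : OrdGe w θ F) :
    OrdGe w θ (-F) := by
  intro m hm
  rw [MvPolynomial.support_neg] at hm
  exact hF m hm

theorem ORD_prod {R : Type*} [CommSemiring R] {w : σ → ℝ} {α : Type*} (s : Finset α)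
    (f : α → MvPolynomial σ R) (a : α → ℝ) (h : ∀ i ∈ s, OrdGe w (a i) (f i)) :
    OrdGe w (∑ i ∈ s, a i) (∏ i ∈ s, f i) := by
  classical
  induction s using Finset.induction_on with
  | empty =>
    rw [Finset.sum_empty, Finset.prod_empty]
    exact ORD_C w 1
  | insert b s hb ih =>
    rw [Finset.sum_insert hb, Finset.prod_insert hb]
    exact (h b (Finset.mem_insert_self b s)).mul
      (ih fun i hi => h i (Finset.mem_insert_of_mem hi))

theorem OrdGe.det {w : σ → ℝ} {k : ℕ} (A : Matrix (Fin k) (Fin k) (MvPolynomial σ ℚ))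
    (a : Fin k → ℝ) (h : ∀ i j, OrdGe w (a j) (A i j)) : OrdGe w (∑ j, a j) A.det := by
  rw [Matrix.det_apply]
  refine OrdGe.sum _ _ fun τ _ => ?_
  have h1 : OrdGe w (∑ j, a j) (∏ i, A (τ i) i) := ORD_prod _ _ a fun i _ => h (τ i) i
  rcases Int.units_eq_one_or (Equiv.Perm.sign τ) with hs | hs
  · rw [hs, one_smul]; exact h1
  · rw [hs, Units.neg_smul, one_smul]; exact ORD_neg h1

/-- the translation by an independent vector of variables -/
noncomputable def ORD_Phi (σ R : Type*) [CommSemiring R] :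
    MvPolynomial σ R →+* MvPolynomial σ (MvPolynomial σ R) :=
  MvPolynomial.eval₂Hom ((MvPolynomial.C).comp MvPolynomial.C)
    (fun i => MvPolynomial.C (MvPolynomial.X i) + MvPolynomial.X i)

theorem ORD_hd_add {R : Type*} [CommSemiring R] (μ : σ →₀ ℕ) (P Q : MvPolynomial σ R) :
    hd μ (P + Q) = hd μ P + hd μ Q := by
  classical
  have key : ∀ (P : MvPolynomial σ R) (s : Finset (σ →₀ ℕ)), P.support ⊆ s →
      hd μ P = ∑ m ∈ s, MvPolynomial.monomial (m - μ)
        ((∏ i, (((m i).choose (μ i) : ℕ) : R)) * P.coeff m) := by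
    intro P s hs
    unfold hd
    refine Finset.sum_subset hs fun m _ hm => ?_
    rw [MvPolynomial.notMem_support_iff] at hm
    rw [hm, mul_zero, MvPolynomial.monomial_zero]
  rw [key (P + Q) (P.support ∪ Q.support) MvPolynomial.support_add,
    key P (P.support ∪ Q.support) Finset.subset_union_left,
    key Q (P.support ∪ Q.support) Finset.subset_union_right, ← Finset.sum_add_distrib]
  refine Finset.sum_congr rfl fun m _ => ?_
  rw [MvPolynomial.coeff_add, mul_add, map_add]

theorem ORD_hd_monomial {R : Type*} [CommSemiring R] (μ m : σ →₀ ℕ) (x : R) :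
    hd μ (MvPolynomial.monomial m x) = MvPolynomial.monomial (m - μ)
      ((∏ i, (((m i).choose (μ i) : ℕ) : R)) * x) := by
  classical
  unfold hd
  by_cases hx : x = 0
  · rw [hx]
    simp
  · rw [MvPolynomial.support_monomial, if_neg hx, Finset.sum_singleton,
      MvPolynomial.coeff_monomial, if_pos rfl]

theorem ORD_coeff {R : Type*} [CommSemiring R] (μ m : σ →₀ ℕ) :
    MvPolynomial.coeff μ (∏ i, (MvPolynomial.C (MvPolynomial.X i) + MvPolynomial.X i :
      MvPolynomial σ (MvPolynomial σ R)) ^ (m i)) =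
      MvPolynomial.monomial (m - μ) (∏ i, (((m i).choose (μ i) : ℕ) : R)) := by
  classical
  have h1 : ∀ i, (MvPolynomial.C (MvPolynomial.X i) + MvPolynomial.X i :
      MvPolynomial σ (MvPolynomial σ R)) ^ (m i) = ∑ k ∈ Finset.range (m i + 1),
        MvPolynomial.C ((((m i).choose k : ℕ) : MvPolynomial σ R) *
          MvPolynomial.X i ^ (m i - k)) * MvPolynomial.X i ^ k := by
    intro i
    rw [add_comm, add_pow]
    refine Finset.sum_congr rfl fun k _ => ?_
    rw [map_mul, map_pow, map_natCast]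
    ring
  simp only [h1]
  rw [Finset.prod_univ_sum, MvPolynomial.coeff_sum]
  have h2 : ∀ x : σ → ℕ, MvPolynomial.coeff μ (∏ i, (MvPolynomial.C
      ((((m i).choose (x i) : ℕ) : MvPolynomial σ R) * MvPolynomial.X i ^ (m i - x i)) *
        MvPolynomial.X i ^ (x i) : MvPolynomial σ (MvPolynomial σ R))) =
      if x = μ then ∏ i, ((((m i).choose (x i) : ℕ) : MvPolynomial σ R) *
        MvPolynomial.X i ^ (m i - x i)) else 0 := by
    intro x
    rw [Finset.prod_mul_distrib, ← map_prod]
    have h3 : (∏ i, (MvPolynomial.X i : MvPolynomial σ (MvPolynomial σ R)) ^ (x i)) =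
        MvPolynomial.monomial (Finsupp.equivFunOnFinite.symm x) 1 := by
      rw [MvPolynomial.monomial_eq, map_one, one_mul, Finsupp.prod_fintype]
      · rfl
      · intro i; exact pow_zero _
    rw [h3, MvPolynomial.coeff_C_mul, MvPolynomial.coeff_monomial]
    by_cases hx : x = μ
    · rw [if_pos hx, if_pos, mul_one]
      ext i
      rw [Finsupp.equivFunOnFinite_symm_apply_apply, hx]
    · rw [if_neg hx, if_neg, mul_zero]
      intro h
      apply hx
      funext i
      rw [← h, Finsupp.equivFunOnFinite_symm_apply_apply]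
  simp only [h2]
  have h4 : ∏ i, ((((m i).choose (μ i) : ℕ) : MvPolynomial σ R) *
        MvPolynomial.X i ^ (m i - μ i)) =
      MvPolynomial.monomial (m - μ) (∏ i, (((m i).choose (μ i) : ℕ) : R)) := by
    rw [MvPolynomial.monomial_eq, Finset.prod_mul_distrib, map_prod, Finsupp.prod_fintype]
    · congr 1
    · intro i; exact pow_zero _
  by_cases hle : (μ : σ → ℕ) ∈ Fintype.piFinset (fun i => Finset.range (m i + 1))
  · rw [Finset.sum_eq_single (μ : σ → ℕ)]
    · rw [if_pos rfl, h4]
    · intro x _ hx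
      rw [if_neg hx]
    · intro h; exact absurd hle h
  · rw [Finset.sum_eq_zero]
    · rw [Fintype.mem_piFinset, not_forall] at hle
      obtain ⟨i, hi⟩ := hle
      rw [Finset.mem_range, not_lt] at hi
      have h5 : ∏ i, (((m i).choose (μ i) : ℕ) : R) = 0 := by
        apply Finset.prod_eq_zero (Finset.mem_univ i)
        rw [Nat.choose_eq_zero_of_lt (by omega), Nat.cast_zero]
      rw [h5, MvPolynomial.monomial_zero]
    · intro x hx
      rw [if_neg]
      intro h
      rw [h] at hx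
      exact hle hx

theorem ORD_hd_eq {R : Type*} [CommSemiring R] (μ : σ →₀ ℕ) (P : MvPolynomial σ R) :
    hd μ P = MvPolynomial.coeff μ (ORD_Phi σ R P) := by
  classical
  induction P using MvPolynomial.induction_on' with
  | monomial m x =>
    rw [ORD_hd_monomial]
    unfold ORD_Phi
    rw [MvPolynomial.coe_eval₂Hom, MvPolynomial.eval₂_monomial, Finsupp.prod_fintype]
    · rw [RingHom.comp_apply, MvPolynomial.coeff_C_mul, ORD_coeff, MvPolynomial.C_mul_monomial,
        mul_comm]
    · intro i; exact pow_zero _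
  | add p q hp hq =>
    rw [ORD_hd_add, hp, hq, map_add, MvPolynomial.coeff_add]

/-- `hd` commutes with translation. -/
theorem tc_hd_eq (ξ : σ → ℚ) (P : MvPolynomial σ ℤ) (μ : σ →₀ ℕ) :
    tc ξ (hd μ P) = hd μ (tc ξ P) := by
  classical
  let tcr : MvPolynomial σ ℤ →+* MvPolynomial σ ℚ :=
    (MvPolynomial.aeval (fun h => (MvPolynomial.C (ξ h) + MvPolynomial.X h :
      MvPolynomial σ ℚ))).toRingHom
  have htc : ∀ Q, tcr Q = tc ξ Q := fun Q => rfl
  have hcomp : ((MvPolynomial.map tcr).comp (ORD_Phi σ ℤ)) = (ORD_Phi σ ℚ).comp tcr := by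
    apply MvPolynomial.ringHom_ext
    · intro r
      simp [ORD_Phi, tcr]
    · intro i
      simp [ORD_Phi, tcr, add_assoc]
  rw [ORD_hd_eq, ORD_hd_eq, ← htc, ← htc]
  have h1 := RingHom.congr_fun hcomp P
  rw [RingHom.comp_apply, RingHom.comp_apply] at h1
  rw [← h1, MvPolynomial.coeff_map]

/-- Differentiation costs at most the weight of the derivative. -/
theorem OrdGe.tc_hd {w : σ → ℝ} (hw : ∀ i, 0 ≤ w i) {θ : ℝ} {ξ : σ → ℚ} {P : MvPolynomial σ ℤ}
    (h : OrdGe w θ (tc ξ P)) (μ : σ →₀ ℕ) :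
    OrdGe w (θ - ∑ i, w i * ((μ i : ℕ) : ℝ)) (tc ξ (hd μ P)) := by
  classical
  rw [tc_hd_eq]
  unfold hd
  refine OrdGe.sum _ _ fun m hm => ?_
  intro m' hm'
  by_cases hx : ((∏ i, (((m i).choose (μ i) : ℕ) : ℚ)) * (tc ξ P).coeff m) = 0
  · rw [hx, MvPolynomial.monomial_zero, MvPolynomial.support_zero] at hm'
    simp at hm'
  · rw [MvPolynomial.support_monomial, if_neg hx, Finset.mem_singleton] at hm'
    rw [hm']
    have h1 := h m hm
    have h2 : ∏ i, (((m i).choose (μ i) : ℕ) : ℚ) ≠ 0 := left_ne_zero_of_mul hx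
    rw [Finset.prod_ne_zero_iff] at h2
    have h3 : ∀ i, μ i ≤ m i := by
      intro i
      by_contra hlt
      apply h2 i (Finset.mem_univ i)
      rw [Nat.choose_eq_zero_of_lt (by omega), Nat.cast_zero]
    have h4 : ∑ i, w i * (((m - μ) i : ℕ) : ℝ) =
        ∑ i, w i * ((m i : ℕ) : ℝ) - ∑ i, w i * ((μ i : ℕ) : ℝ) := by
      rw [← Finset.sum_sub_distrib]
      refine Finset.sum_congr rfl fun i _ => ?_
      rw [Finsupp.tsub_apply, Nat.cast_sub (h3 i)]
      ring
    rw [h4]
    linarith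

end Pool.Agent.SubT
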