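import Pool.Agent.SubT.Nrm

/-! Module RESSTEP. Text: team-store MP_e27144_an_pr_growth_helper66.md.
HINT: (3.4): P = Y^a (P_a + Y *) with Y = X_(h0,k0), P_a without Y, P_a != 0. EP y a P = Y^a (EP y a P_a + Y *), and EP y a P_a at Y = 0 is EP y_new a P_a. A monomial of EP y_new a P_a (no Y in it) times Y^a is a monomial of EP y a P. -/

set_option linter.unusedSectionVars false

namespace Pool.Agent.SubT

open scoped BigOperators ENNReal

open MeasureTheory Set Filter Topology

section RESSTEP_part

variable {σ : Type*} [Fintype σ] [DecidableEq σ]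

/-- the lowest coefficient in the variable `t` -/
noncomputable def RESSTEP_low (t : σ) (d : ℕ) (P : MvPolynomial σ ℤ) : MvPolynomial σ ℤ :=
  ∑ J ∈ P.support.filter (fun J => J t = d),
    MvPolynomial.monomial (J - Finsupp.single t d) (P.coeff J)

theorem RESSTEP_coeff (t : σ) (d : ℕ) (P : MvPolynomial σ ℤ) (K : σ →₀ ℕ) :
    (RESSTEP_low t d P).coeff K = if K t = 0 then P.coeff (K + Finsupp.single t d) else 0 := by
  classical
  unfold RESSTEP_low
  rw [MvPolynomial.coeff_sum]
  by_cases hK : K t = 0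
  · rw [if_pos hK, Finset.sum_eq_single (K + Finsupp.single t d)]
    · rw [MvPolynomial.coeff_monomial, add_tsub_cancel_right, if_pos rfl]
    · intro J hJ hne
      rw [MvPolynomial.coeff_monomial, if_neg]
      intro h
      apply hne
      have h1 : J t = d := (Finset.mem_filter.1 hJ).2
      rw [← h, tsub_add_cancel_of_le]
      rw [Finsupp.single_le_iff]
      exact h1.ge
    · intro h
      have h1 : P.coeff (K + Finsupp.single t d) = 0 := by
        by_contra h2
        apply h
        rw [Finset.mem_filter]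
        refine ⟨MvPolynomial.mem_support_iff.2 h2, ?_⟩
        rw [Finsupp.add_apply, hK, Finsupp.single_eq_same, zero_add]
      rw [h1, MvPolynomial.monomial_zero, MvPolynomial.coeff_zero]
  · rw [if_neg hK]
    refine Finset.sum_eq_zero fun J hJ => ?_
    rw [MvPolynomial.coeff_monomial, if_neg]
    intro h
    apply hK
    have h1 : J t = d := (Finset.mem_filter.1 hJ).2
    rw [← h, Finsupp.tsub_apply, h1, Finsupp.single_eq_same, tsub_self]

theorem RESSTEP_split (t : σ) (d : ℕ) (P : MvPolynomial σ ℤ)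
    (hd : ∀ J ∈ P.support, d ≤ J t) : ∃ R : MvPolynomial σ ℤ,
      P = MvPolynomial.X t ^ d * (RESSTEP_low t d P + MvPolynomial.X t * R) := by
  classical
  refine ⟨∑ J ∈ P.support.filter (fun J => ¬ J t = d),
    MvPolynomial.monomial (J - Finsupp.single t (d + 1)) (P.coeff J), ?_⟩
  rw [mul_add, ← mul_assoc, ← pow_succ]
  have h0 : ∀ k : ℕ, (MvPolynomial.X t : MvPolynomial σ ℤ) ^ k =
      MvPolynomial.monomial (Finsupp.single t k) 1 := fun k => MvPolynomial.X_pow_eq_monomial
  have h1 : (MvPolynomial.X t : MvPolynomial σ ℤ) ^ d * RESSTEP_low t d P =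
      ∑ J ∈ P.support.filter (fun J => J t = d), MvPolynomial.monomial J (P.coeff J) := by
    unfold RESSTEP_low
    rw [h0, Finset.mul_sum]
    refine Finset.sum_congr rfl fun J hJ => ?_
    rw [MvPolynomial.monomial_mul, one_mul, add_tsub_cancel_of_le]
    rw [Finsupp.single_le_iff]
    exact ((Finset.mem_filter.1 hJ).2).ge
  have h2 : (MvPolynomial.X t : MvPolynomial σ ℤ) ^ (d + 1) *
      (∑ J ∈ P.support.filter (fun J => ¬ J t = d),
        MvPolynomial.monomial (J - Finsupp.single t (d + 1)) (P.coeff J)) =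
      ∑ J ∈ P.support.filter (fun J => ¬ J t = d), MvPolynomial.monomial J (P.coeff J) := by
    rw [h0, Finset.mul_sum]
    refine Finset.sum_congr rfl fun J hJ => ?_
    rw [MvPolynomial.monomial_mul, one_mul, add_tsub_cancel_of_le]
    rw [Finsupp.single_le_iff]
    have h3 := hd J (Finset.mem_filter.1 hJ).1
    have h4 := (Finset.mem_filter.1 hJ).2
    omega
  rw [h1, h2, Finset.sum_filter_add_sum_filter_not]
  exact P.as_sum

theorem RESSTEP_nrm (t : σ) (d : ℕ) (P : MvPolynomial σ ℤ) :
    nrm (RESSTEP_low t d P) ≤ nrm P := by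
  classical
  unfold nrm
  have h1 : ∀ K ∈ (RESSTEP_low t d P).support, |(((RESSTEP_low t d P).coeff K : ℤ) : ℝ)| =
      |((P.coeff (K + Finsupp.single t d) : ℤ) : ℝ)| := by
    intro K hK
    rw [MvPolynomial.mem_support_iff, RESSTEP_coeff] at hK
    rw [RESSTEP_coeff]
    by_cases h : K t = 0
    · rw [if_pos h]
    · rw [if_neg h] at hK
      exact absurd rfl hK
  rw [Finset.sum_congr rfl h1]
  have hinj : Set.InjOn (fun K : σ →₀ ℕ => K + Finsupp.single t d)
      ((RESSTEP_low t d P).support : Set (σ →₀ ℕ)) := fun K _ K' _ h => add_right_cancel h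
  rw [← Finset.sum_image (f := fun J => |((P.coeff J : ℤ) : ℝ)|) hinj]
  refine Finset.sum_le_sum_of_subset_of_nonneg ?_ fun _ _ _ => abs_nonneg _
  intro J hJ
  rw [Finset.mem_image] at hJ
  obtain ⟨K, hK, rfl⟩ := hJ
  rw [MvPolynomial.mem_support_iff, RESSTEP_coeff] at hK
  rw [MvPolynomial.mem_support_iff]
  by_cases h : K t = 0
  · rwa [if_pos h] at hK
  · rw [if_neg h] at hK
    exact absurd rfl hK

/-- no `X_t` -/
def RESSTEP_No (t : σ) (F : MvPolynomial σ ℚ) : Prop := ∀ J, F.coeff J ≠ 0 → J t = 0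

theorem RESSTEP_No_sum {t : σ} {α : Type*} (s : Finset α) (f : α → MvPolynomial σ ℚ)
    (h : ∀ i ∈ s, RESSTEP_No t (f i)) : RESSTEP_No t (∑ i ∈ s, f i) := by
  intro J hJ
  rw [MvPolynomial.coeff_sum] at hJ
  obtain ⟨i, hi, h1⟩ := Finset.exists_ne_zero_of_sum_ne_zero hJ
  exact h i hi J h1

theorem RESSTEP_No_mul {t : σ} {F G : MvPolynomial σ ℚ} (hF : RESSTEP_No t F)
    (hG : RESSTEP_No t G) : RESSTEP_No t (F * G) := by
  intro J hJ
  rw [MvPolynomial.coeff_mul] at hJ
  obtain ⟨⟨p, q⟩, hpq, h1⟩ := Finset.exists_ne_zero_of_sum_ne_zero hJ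
  have hpq' : p + q = J := Finset.HasAntidiagonal.mem_antidiagonal.1 hpq
  rw [← hpq', Finsupp.add_apply, hF p (left_ne_zero_of_mul h1), hG q (right_ne_zero_of_mul h1)]

theorem RESSTEP_No_C {t : σ} (c : ℚ) : RESSTEP_No t (MvPolynomial.C c) := by
  intro J hJ
  rw [MvPolynomial.coeff_C] at hJ
  by_cases h0 : 0 = J
  · rw [← h0]
    rfl
  · rw [if_neg h0] at hJ
    exact absurd rfl hJ

theorem RESSTEP_No_one {t : σ} : RESSTEP_No t (1 : MvPolynomial σ ℚ) := by
  have := RESSTEP_No_C (t := t) 1
  rwa [MvPolynomial.C_1] at this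

theorem RESSTEP_No_pow {t : σ} {F : MvPolynomial σ ℚ} (hF : RESSTEP_No t F) (k : ℕ) :
    RESSTEP_No t (F ^ k) := by
  induction k with
  | zero => rw [pow_zero]; exact RESSTEP_No_one
  | succ k ih => rw [pow_succ]; exact RESSTEP_No_mul ih hF

theorem RESSTEP_No_prod {t : σ} {α : Type*} (s : Finset α) (f : α → MvPolynomial σ ℚ)
    (h : ∀ i ∈ s, RESSTEP_No t (f i)) : RESSTEP_No t (∏ i ∈ s, f i) := by
  classical
  induction s using Finset.induction_on with
  | empty => rw [Finset.prod_empty]; exact RESSTEP_No_one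
  | insert b s hb ih =>
    rw [Finset.prod_insert hb]
    exact RESSTEP_No_mul (h b (Finset.mem_insert_self _ _))
      (ih fun i hi => h i (Finset.mem_insert_of_mem hi))

theorem RESSTEP_No_X {t x : σ} (h : x ≠ t) : RESSTEP_No t (MvPolynomial.X x) := by
  intro J hJ
  rw [MvPolynomial.coeff_X] at hJ
  by_cases h0 : Finsupp.single x 1 = J
  · rw [← h0, Finsupp.single_eq_of_ne h.symm]
  · rw [if_neg h0] at hJ
    exact absurd rfl hJ

/-- substitution in a polynomial without `t` -/
theorem RESSTEP_No_aeval {t : σ} (P : MvPolynomial σ ℤ) (hP : ∀ J ∈ P.support, J t = 0)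
    (f : σ → MvPolynomial σ ℚ) (hf : ∀ x, x ≠ t → RESSTEP_No t (f x)) :
    RESSTEP_No t (MvPolynomial.aeval f P) := by
  rw [MvPolynomial.aeval_def, MvPolynomial.eval₂_eq']
  refine RESSTEP_No_sum _ _ fun J hJ => RESSTEP_No_mul ?_ ?_
  · have h1 : algebraMap ℤ (MvPolynomial σ ℚ) (P.coeff J) = MvPolynomial.C ((P.coeff J : ℤ) : ℚ) := by
      simp
    rw [h1]
    exact RESSTEP_No_C _
  · refine RESSTEP_No_prod _ _ fun x _ => ?_
    by_cases hx : x = t
    · rw [hx, hP J hJ, pow_zero]
      exact RESSTEP_No_one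
    · exact RESSTEP_No_pow (hf x hx) _

theorem RESSTEP_congr {t : σ} (P : MvPolynomial σ ℤ) (f g : σ → MvPolynomial σ ℚ)
    (h : ∀ x, MvPolynomial.X t ∣ f x - g x) :
    MvPolynomial.X t ∣ MvPolynomial.aeval f P - MvPolynomial.aeval g P := by
  rw [← Ideal.mem_span_singleton, ← Ideal.Quotient.eq]
  have h1 := MvPolynomial.comp_aeval_apply (R := ℤ) f
    (Ideal.Quotient.mkₐ ℤ (Ideal.span {(MvPolynomial.X t : MvPolynomial σ ℚ)})) P
  have h2 := MvPolynomial.comp_aeval_apply (R := ℤ) g
    (Ideal.Quotient.mkₐ ℤ (Ideal.span {(MvPolynomial.X t : MvPolynomial σ ℚ)})) P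
  refine h1.trans (Eq.trans ?_ h2.symm)
  congr 1
  apply MvPolynomial.algHom_ext
  intro x
  rw [MvPolynomial.aeval_X, MvPolynomial.aeval_X]
  show Ideal.Quotient.mk _ (f x) = Ideal.Quotient.mk _ (g x)
  rw [Ideal.Quotient.eq, Ideal.mem_span_singleton]
  exact h x

end RESSTEP_part

/-- RESSTEP: removal of one variable `X_(h0,k0)`, `k0 ≠ a h0`. -/
theorem res_step {m n : ℕ} (r : Fin m → ℕ) (y : Fin m → Fin n → ℤ) (a : Fin m → Fin n)
    (ha : ∀ h, y h (a h) ≠ 0) (P : MvPolynomial (Fin m × Fin n) ℤ) (hP : P ≠ 0)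
    (r' : Fin m → ℕ) (hr' : ∀ h, r' h ≤ r h) (hH : HomB r' P) (hO : PropO r y a P)
    (h0 : Fin m) (k0 : Fin n) (hk : k0 ≠ a h0) :
    ∃ (P' : MvPolynomial (Fin m × Fin n) ℤ) (r'' : Fin m → ℕ), P' ≠ 0 ∧ (∀ h, r'' h ≤ r h) ∧
      HomB r'' P' ∧ nrm P' ≤ nrm P ∧ (h0, k0) ∉ P'.vars ∧ P'.vars ⊆ P.vars ∧
      PropO r (Function.update y h0 (Function.update (y h0) k0 0)) a P' := by
  classical
  obtain ⟨t, ht⟩ : ∃ t : Fin m × Fin n, t = (h0, k0) := ⟨_, rfl⟩
  have hne : P.support.Nonempty := MvPolynomial.support_nonempty.2 hP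
  obtain ⟨J0, hJ0, hmin⟩ := Finset.exists_min_image P.support (fun J => J t) hne
  obtain ⟨d, hd⟩ : ∃ d, d = J0 t := ⟨_, rfl⟩
  have hmin' : ∀ J ∈ P.support, d ≤ J t := fun J hJ => by rw [hd]; exact hmin J hJ
  obtain ⟨R, hR⟩ := RESSTEP_split t d P hmin'
  have hco := RESSTEP_coeff t d P
  have hsup : ∀ K ∈ (RESSTEP_low t d P).support, K t = 0 ∧ K + Finsupp.single t d ∈ P.support := by
    intro K hK
    rw [MvPolynomial.mem_support_iff, hco] at hK
    by_cases h : K t = 0
    · rw [if_pos h] at hK
      exact ⟨h, MvPolynomial.mem_support_iff.2 hK⟩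
    · rw [if_neg h] at hK
      exact absurd rfl hK
  refine ⟨RESSTEP_low t d P, fun h => if h = h0 then r' h0 - d else r' h, ?_, ?_, ?_,
    RESSTEP_nrm t d P, ?_, ?_, ?_⟩
  · intro h
    have h1 := hco (J0 - Finsupp.single t d)
    rw [h, MvPolynomial.coeff_zero, if_pos, tsub_add_cancel_of_le] at h1
    · exact MvPolynomial.mem_support_iff.1 hJ0 h1.symm
    · rw [Finsupp.single_le_iff]
      exact hd.le
    · rw [Finsupp.tsub_apply, Finsupp.single_eq_same, hd, tsub_self]
  · intro h
    show (if h = h0 then r' h0 - d else r' h) ≤ r h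
    by_cases hh : h = h0
    · rw [if_pos hh, hh]
      exact (Nat.sub_le _ _).trans (hr' h0)
    · rw [if_neg hh]
      exact hr' h
  · intro K hK h
    have h1 := hH _ (hsup K hK).2 h
    show ∑ k, K (h, k) = if h = h0 then r' h0 - d else r' h
    rw [Finset.sum_congr rfl fun k _ => Finsupp.add_apply K (Finsupp.single t d) (h, k),
      Finset.sum_add_distrib] at h1
    by_cases hh : h = h0
    · rw [if_pos hh]
      rw [Finset.sum_eq_single (f := fun k => Finsupp.single t d (h, k)) k0] at h1
      · rw [hh, ht, Finsupp.single_eq_same] at h1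
        rw [hh]
        omega
      · intro k _ hkk
        rw [Finsupp.single_eq_of_ne]
        rw [ht]
        intro h2
        exact hkk (congrArg Prod.snd h2)
      · intro h2
        exact absurd (Finset.mem_univ _) h2
    · rw [if_neg hh]
      rw [Finset.sum_eq_zero (f := fun k => Finsupp.single t d (h, k))] at h1
      · rw [← h1, add_zero]
      · intro k _
        rw [Finsupp.single_eq_of_ne]
        rw [ht]
        intro h2
        exact hh (congrArg Prod.fst h2)
  · rw [← ht, MvPolynomial.mem_vars_iff_mem_support]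
    rintro ⟨K, hK, hKt⟩
    exact Finsupp.mem_support_iff.1 hKt (hsup K hK).1
  · intro x hx
    rw [MvPolynomial.mem_vars_iff_mem_support] at hx ⊢
    obtain ⟨K, hK, hKx⟩ := hx
    refine ⟨_, (hsup K hK).2, ?_⟩
    rw [Finsupp.mem_support_iff] at hKx ⊢
    rw [Finsupp.add_apply]
    omega
  · intro K hK
    obtain ⟨y', hy'⟩ : ∃ y', y' = Function.update y h0 (Function.update (y h0) k0 0) := ⟨_, rfl⟩
    rw [← hy'] at hK
    have hy1 : ∀ h k, (h, k) ≠ t → y' h k = y h k := by
      intro h k hne
      rw [hy']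
      by_cases hh : h = h0
      · subst hh
        rw [Function.update_self, Function.update_of_ne]
        intro hkk
        exact hne (by rw [ht, hkk])
      · rw [Function.update_of_ne hh]
    have hy2 : y' h0 k0 = 0 := by
      rw [hy', Function.update_self, Function.update_self]
    have hat : ∀ h, (h, a h) ≠ t := by
      intro h h1
      rw [ht, Prod.mk.injEq] at h1
      obtain ⟨h2, h3⟩ := h1
      rw [h2] at h3
      exact hk h3.symm
    -- the two substitutions are congruent modulo `X_t`
    have hcong : MvPolynomial.X t ∣ EP y a (RESSTEP_low t d P) - EP y' a (RESSTEP_low t d P) := by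
      apply RESSTEP_congr
      rintro ⟨h, k⟩
      show MvPolynomial.X t ∣ (if k = a h then
          MvPolynomial.X (h, a h) - ∑ k ∈ Finset.univ.erase (a h),
            MvPolynomial.C ((y h k : ℚ) / (y h (a h) : ℚ)) * MvPolynomial.X (h, k)
        else MvPolynomial.X (h, k)) - (if k = a h then
          MvPolynomial.X (h, a h) - ∑ k ∈ Finset.univ.erase (a h),
            MvPolynomial.C ((y' h k : ℚ) / (y' h (a h) : ℚ)) * MvPolynomial.X (h, k)
        else MvPolynomial.X (h, k))
      by_cases hka : k = a h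
      · rw [if_pos hka, if_pos hka, sub_sub_sub_cancel_left, ← Finset.sum_sub_distrib]
        refine Finset.dvd_sum fun k' _ => ?_
        rw [hy1 h (a h) (hat h)]
        by_cases hkt : (h, k') = t
        · rw [hkt]
          exact dvd_sub (dvd_mul_left _ _) (dvd_mul_left _ _)
        · rw [hy1 h k' hkt, sub_self]
          exact dvd_zero _
      · rw [if_neg hka, if_neg hka, sub_self]
        exact dvd_zero _
    obtain ⟨S, hS⟩ := hcong
    -- no `X_t` in `EP y' a P'`
    have hno : RESSTEP_No t (EP y' a (RESSTEP_low t d P)) := by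
      refine RESSTEP_No_aeval _ (fun J hJ => (hsup J hJ).1) _ ?_
      rintro ⟨h, k⟩ hkt
      show RESSTEP_No t (if k = a h then
          MvPolynomial.X (h, a h) - ∑ k ∈ Finset.univ.erase (a h),
            MvPolynomial.C ((y' h k : ℚ) / (y' h (a h) : ℚ)) * MvPolynomial.X (h, k)
        else MvPolynomial.X (h, k))
      by_cases hka : k = a h
      · rw [if_pos hka]
        intro J hJ
        rw [MvPolynomial.coeff_sub] at hJ
        by_contra hJt
        have e1 : MvPolynomial.coeff J (MvPolynomial.X (h, a h) :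
            MvPolynomial (Fin m × Fin n) ℚ) = 0 := by
          by_contra h2
          exact hJt (RESSTEP_No_X (hat h) J h2)
        have e2 : MvPolynomial.coeff J (∑ k ∈ Finset.univ.erase (a h),
            MvPolynomial.C ((y' h k : ℚ) / (y' h (a h) : ℚ)) *
              (MvPolynomial.X (h, k) : MvPolynomial (Fin m × Fin n) ℚ)) = 0 := by
          by_contra h2
          refine hJt (RESSTEP_No_sum _ _ ?_ J h2)
          intro k' _
          by_cases hkt' : (h, k') = t
          · have h3 : y' h k' = 0 := by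
              rw [ht, Prod.mk.injEq] at hkt'
              obtain ⟨rfl, rfl⟩ := hkt'
              exact hy2
            rw [h3]
            intro J' hJ'
            exfalso
            apply hJ'
            simp
          · exact RESSTEP_No_mul (RESSTEP_No_C _) (RESSTEP_No_X hkt')
        apply hJ
        rw [e1, e2, sub_self]
      · rw [if_neg hka]
        exact RESSTEP_No_X hkt
    have hKt : K t = 0 := hno K (MvPolynomial.mem_support_iff.1 hK)
    -- the coefficient
    have hEP : EP y a P = MvPolynomial.X t ^ d * (EP y' a (RESSTEP_low t d P) +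
        MvPolynomial.X t * (S + EP y a R)) := by
      have h1 : EP y a P = EP y a (MvPolynomial.X t) ^ d * (EP y a (RESSTEP_low t d P) +
          EP y a (MvPolynomial.X t) * EP y a R) := by
        conv_lhs => rw [hR]
        unfold EP
        rw [map_mul, map_pow, map_add, map_mul]
      have h2 : EP y a (MvPolynomial.X t) = MvPolynomial.X t := by
        unfold EP
        rw [MvPolynomial.aeval_X, if_neg]
        rw [ht]
        exact hk
      rw [h1, h2, eq_add_of_sub_eq hS]
      ring
    have hmem : K + Finsupp.single t d ∈ (EP y a P).support := by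
      rw [MvPolynomial.mem_support_iff, hEP, MvPolynomial.X_pow_eq_monomial, add_comm K,
        MvPolynomial.coeff_monomial_mul, one_mul, MvPolynomial.coeff_add,
        MvPolynomial.coeff_X_mul', if_neg, add_zero]
      · exact MvPolynomial.mem_support_iff.1 hK
      · rw [Finsupp.mem_support_iff]
        exact fun h => h hKt
    have h5 := hO _ hmem
    have h6 : ∀ h, (K + Finsupp.single t d) (h, a h) = K (h, a h) := by
      intro h
      rw [Finsupp.add_apply, Finsupp.single_eq_of_ne (hat h), add_zero]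
    simp only [h6] at h5
    exact h5

end Pool.Agent.SubT
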