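import Pool.Agent.SubT.ResQ
import Pool.Agent.SubT.ResStep

/-! Module RESTRICT. Text: team-store MP_e27144_an_pr_growth_helper66.md.
HINT: (3.4): apply res_step for all (h,k), k != a h, k != b h (b h from exists_pair), then put X_(h,b h) = 1 (injective on monomials by block homogeneity), xi_h = - y_(h,b)/y_(h,a) = num/q, q = |y a| / gcd. -/

namespace Pool.Agent.SubT

open scoped BigOperators ENNReal

open MeasureTheory Set Filter Topology

theorem RESTRICT_iter {m N : ℕ} (r : Fin m → ℕ) (y : Fin m → Fin N → ℤ) (a : Fin m → Fin N)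
    (ha : ∀ h, y h (a h) ≠ 0) (P : MvPolynomial (Fin m × Fin N) ℤ) (hP : P ≠ 0)
    (hH : HomB r P) (hO : PropO r y a P) (S : Finset (Fin m × Fin N))
    (hS : ∀ x ∈ S, x.2 ≠ a x.1) :
    ∃ (P' : MvPolynomial (Fin m × Fin N) ℤ) (r' : Fin m → ℕ), P' ≠ 0 ∧ (∀ h, r' h ≤ r h) ∧
      HomB r' P' ∧ nrm P' ≤ nrm P ∧ (∀ x ∈ S, x ∉ P'.vars) ∧
      PropO r (fun h k => if (h, k) ∈ S then 0 else y h k) a P' := by
  classical
  induction S using Finset.induction_on with
  | empty =>
    refine ⟨P, r, hP, fun _ => le_rfl, hH, le_rfl, ?_, ?_⟩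
    · intro x hx
      exact absurd hx (Finset.notMem_empty x)
    · have h1 : (fun h k => if (h, k) ∈ (∅ : Finset (Fin m × Fin N)) then 0 else y h k) = y := by
        funext h k
        rw [if_neg (Finset.notMem_empty _)]
      rw [h1]
      exact hO
  | insert x S hx ih =>
    obtain ⟨P1, r1, h1, h2, h3, h4, h5, h6⟩ := ih fun z hz => hS z (Finset.mem_insert_of_mem hz)
    have ha1 : ∀ h, (fun h k => if (h, k) ∈ S then 0 else y h k) h (a h) ≠ 0 := by
      intro h
      show (if (h, a h) ∈ S then 0 else y h (a h)) ≠ 0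
      rw [if_neg]
      · exact ha h
      · intro hh
        exact hS _ (Finset.mem_insert_of_mem hh) rfl
    obtain ⟨P2, r2, g1, g2, g3, g4, g5, g6, g7⟩ := res_step r _ a ha1 P1 h1 r1 h2 h3 h6 x.1 x.2
      (hS x (Finset.mem_insert_self _ _))
    refine ⟨P2, r2, g1, g2, g3, g4.trans h4, ?_, ?_⟩
    · intro z hz
      rcases Finset.mem_insert.1 hz with rfl | hz
      · exact g5
      · exact fun hz' => h5 z hz (g6 hz')
    · have e : Function.update (fun h k => if (h, k) ∈ S then 0 else y h k) x.1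
          (Function.update ((fun h k => if (h, k) ∈ S then 0 else y h k) x.1) x.2 0) =
          fun h k => if (h, k) ∈ insert x S then 0 else y h k := by
        funext h k
        by_cases hh : h = x.1
        · subst hh
          rw [Function.update_self]
          by_cases hk : k = x.2
          · subst hk
            rw [Function.update_self, if_pos (Finset.mem_insert_self _ _)]
          · rw [Function.update_of_ne hk]
            show (if (x.1, k) ∈ S then 0 else y x.1 k) = _
            by_cases hm : (x.1, k) ∈ S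
            · rw [if_pos hm, if_pos (Finset.mem_insert_of_mem hm)]
            · rw [if_neg hm, if_neg]
              intro h7
              rcases Finset.mem_insert.1 h7 with h8 | h8
              · exact hk (congrArg Prod.snd h8)
              · exact hm h8
        · rw [Function.update_of_ne hh]
          by_cases hm : (h, k) ∈ S
          · rw [if_pos hm, if_pos (Finset.mem_insert_of_mem hm)]
          · rw [if_neg hm, if_neg]
            intro h7
            rcases Finset.mem_insert.1 h7 with h8 | h8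
            · exact hh (congrArg Prod.fst h8)
            · exact hm h8
      rw [← e]
      exact g7

section RESTRICT_part

variable {m N : ℕ} (a : Fin m → Fin N)

/-- the exponents of the variables `X_(h,a h)` -/
noncomputable def RESTRICT_bar (J : Fin m × Fin N →₀ ℕ) : Fin m →₀ ℕ :=
  Finsupp.equivFunOnFinite.symm fun h => J (h, a h)

theorem RESTRICT_bar_apply (J : Fin m × Fin N →₀ ℕ) (h : Fin m) :
    RESTRICT_bar a J h = J (h, a h) := rfl

/-- all variables except `X_(h,a h)` are put equal to 1 -/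
noncomputable def RESTRICT_de {R : Type*} [CommRing R] :
    Fin m × Fin N → MvPolynomial (Fin m) R :=
  fun x => if x.2 = a x.1 then MvPolynomial.X x.1 else 1

theorem RESTRICT_mon {R : Type*} [CommRing R] (J : Fin m × Fin N →₀ ℕ) (c : R) :
    MvPolynomial.C c * ∏ x, RESTRICT_de (R := R) a x ^ J x =
      MvPolynomial.monomial (RESTRICT_bar a J) c := by
  classical
  rw [MvPolynomial.monomial_eq, Finsupp.prod_fintype _ _ (fun i => pow_zero _),
    Fintype.prod_prod_type]
  congr 1
  refine Finset.prod_congr rfl fun h _ => ?_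
  rw [Finset.prod_eq_single (a h)]
  · show (if a h = a h then MvPolynomial.X h else 1) ^ J (h, a h) = _
    rw [if_pos rfl]
    rfl
  · intro k _ hk
    show (if k = a h then MvPolynomial.X h else 1) ^ J (h, k) = _
    rw [if_neg hk, one_pow]
  · intro h
    exact absurd (Finset.mem_univ _) h

theorem RESTRICT_aeval {R : Type*} [CommRing R] (F : MvPolynomial (Fin m × Fin N) R) :
    MvPolynomial.aeval (RESTRICT_de (R := R) a) F =
      ∑ J ∈ F.support, MvPolynomial.monomial (RESTRICT_bar a J) (F.coeff J) := by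
  rw [MvPolynomial.aeval_def, MvPolynomial.eval₂_eq']
  refine Finset.sum_congr rfl fun J _ => ?_
  exact RESTRICT_mon a J _

theorem RESTRICT_supp {R : Type*} [CommRing R] (F : MvPolynomial (Fin m × Fin N) R)
    {K : Fin m →₀ ℕ} (hK : (MvPolynomial.aeval (RESTRICT_de (R := R) a) F).coeff K ≠ 0) :
    ∃ J ∈ F.support, RESTRICT_bar a J = K := by
  classical
  rw [RESTRICT_aeval, MvPolynomial.coeff_sum] at hK
  obtain ⟨J, hJ, h1⟩ := Finset.exists_ne_zero_of_sum_ne_zero hK
  refine ⟨J, hJ, ?_⟩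
  rw [MvPolynomial.coeff_monomial] at h1
  by_contra h2
  rw [if_neg h2] at h1
  exact h1 rfl

theorem RESTRICT_coeff {R : Type*} [CommRing R] (F : MvPolynomial (Fin m × Fin N) R)
    (hinj : ∀ J ∈ F.support, ∀ J' ∈ F.support, RESTRICT_bar a J = RESTRICT_bar a J' → J = J')
    {J : Fin m × Fin N →₀ ℕ} (hJ : J ∈ F.support) :
    (MvPolynomial.aeval (RESTRICT_de (R := R) a) F).coeff (RESTRICT_bar a J) = F.coeff J := by
  classical
  rw [RESTRICT_aeval, MvPolynomial.coeff_sum, Finset.sum_eq_single J]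
  · rw [MvPolynomial.coeff_monomial, if_pos rfl]
  · intro J' hJ' hne
    rw [MvPolynomial.coeff_monomial, if_neg]
    intro h
    exact hne (hinj _ hJ' _ hJ h)
  · intro h
    exact absurd hJ h

end RESTRICT_part

/-- RESTRICT: reduction to one variable per block. -/
theorem restrict {m n : ℕ} (hn : 1 ≤ n) (r : Fin m → ℕ) (hr : ∀ h, 1 ≤ r h)
    (y : Fin m → Fin (n + 1) → ℤ) (hprim : ∀ h, ∃ b : Fin (n + 1) → ℤ, ∑ k, b k * y h k = 1)
    (a : Fin m → Fin (n + 1)) (ha : ∀ h k, |y h k| ≤ |y h (a h)|) (hbig : ∀ h, 2 ≤ |y h (a h)|)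
    (P : MvPolynomial (Fin m × Fin (n + 1)) ℤ) (hP : P ≠ 0) (hH : HomB r P)
    (hO : PropO r y a P) :
    ∃ p : MvPolynomial (Fin m) ℤ, p ≠ 0 ∧ (∀ h, p.degreeOf h ≤ r h) ∧ nrm p ≤ nrm P ∧
      ∃ (num : Fin m → ℤ) (q : Fin m → ℕ), (∀ h, 1 ≤ q h) ∧
        (∀ h, IsCoprime (num h) (q h : ℤ)) ∧
        (∀ h, ((|y h (a h)| : ℤ) : ℝ) ≤ (q h : ℝ) ^ n) ∧
        ∀ mon ∈ (tc (fun h => (num h : ℚ) / (q h : ℚ)) p).support,
          1 ≤ ∑ h, ((mon h : ℕ) : ℝ) / (r h : ℝ) := by
  classical
  have hya : ∀ h, y h (a h) ≠ 0 := by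
    intro h h0
    have := hbig h
    rw [h0] at this
    simp at this
  choose b hb1 hb2 using fun h => exists_pair (y h) (hprim h) (a h) (ha h) (hbig h)
  obtain ⟨P1, r1, h1, h2, h3, h4, h5, h6⟩ := RESTRICT_iter r y a hya P hP hH hO
    (Finset.univ.filter fun x : Fin m × Fin (n + 1) => x.2 ≠ a x.1 ∧ x.2 ≠ b x.1)
    (fun x hx => (Finset.mem_filter.1 hx).2.1)
  have hS : ∀ h k, (h, k) ∈ (Finset.univ.filter fun x : Fin m × Fin (n + 1) =>
      x.2 ≠ a x.1 ∧ x.2 ≠ b x.1) ↔ k ≠ a h ∧ k ≠ b h := by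
    intro h k
    rw [Finset.mem_filter]
    exact ⟨fun h => h.2, fun h => ⟨Finset.mem_univ _, h⟩⟩
  have hJ0 : ∀ J ∈ P1.support, ∀ h k, k ≠ a h → k ≠ b h → J (h, k) = 0 := by
    intro J hJ h k hk1 hk2
    by_contra hne
    apply h5 (h, k) ((hS h k).2 ⟨hk1, hk2⟩)
    rw [MvPolynomial.mem_vars_iff_mem_support]
    exact ⟨J, hJ, Finsupp.mem_support_iff.2 hne⟩
  have hJ1 : ∀ J ∈ P1.support, ∀ h, J (h, a h) + J (h, b h) = r1 h := by
    intro J hJ h
    rw [← h3 J hJ h, ← Finset.add_sum_erase _ _ (Finset.mem_univ (a h)),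
      Finset.sum_eq_single (b h)]
    · intro k hk hk2
      exact hJ0 J hJ h k (Finset.mem_erase.1 hk).1 hk2
    · intro hh
      exact absurd (Finset.mem_erase.2 ⟨hb1 h, Finset.mem_univ _⟩) hh
  have hinj : ∀ J ∈ P1.support, ∀ J' ∈ P1.support,
      RESTRICT_bar a J = RESTRICT_bar a J' → J = J' := by
    intro J hJ J' hJ' he
    have e1 : ∀ h, J (h, a h) = J' (h, a h) := fun h => by
      rw [← RESTRICT_bar_apply, ← RESTRICT_bar_apply, he]
    ext ⟨h, k⟩
    by_cases hk1 : k = a h
    · rw [hk1]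
      exact e1 h
    · by_cases hk2 : k = b h
      · rw [hk2]
        have e2 := hJ1 J hJ h
        have e3 := hJ1 J' hJ' h
        have e4 := e1 h
        omega
      · rw [hJ0 J hJ h k hk1 hk2, hJ0 J' hJ' h k hk1 hk2]
  obtain ⟨p, hp⟩ : ∃ p, p = MvPolynomial.aeval (RESTRICT_de (R := ℤ) a) P1 := ⟨_, rfl⟩
  have hpc : ∀ J ∈ P1.support, p.coeff (RESTRICT_bar a J) = P1.coeff J := by
    intro J hJ
    rw [hp]
    exact RESTRICT_coeff a P1 hinj hJ
  have hps : ∀ K, p.coeff K ≠ 0 → ∃ J ∈ P1.support, RESTRICT_bar a J = K := by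
    intro K hK
    rw [hp] at hK
    exact RESTRICT_supp a P1 hK
  refine ⟨p, ?_, ?_, ?_, ?_⟩
  · obtain ⟨J, hJ⟩ := MvPolynomial.support_nonempty.2 h1
    intro h0
    have e := hpc J hJ
    rw [h0, MvPolynomial.coeff_zero] at e
    exact MvPolynomial.mem_support_iff.1 hJ e.symm
  · intro h
    rw [MvPolynomial.degreeOf_le_iff]
    intro K hK
    obtain ⟨J, hJ, rfl⟩ := hps K (MvPolynomial.mem_support_iff.1 hK)
    rw [RESTRICT_bar_apply]
    have e1 := hJ1 J hJ h
    have e2 := h2 h
    omega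
  · refine le_trans ?_ h4
    unfold nrm
    have hsub : p.support ⊆ P1.support.image (RESTRICT_bar a) := by
      intro K hK
      obtain ⟨J, hJ, h7⟩ := hps K (MvPolynomial.mem_support_iff.1 hK)
      exact Finset.mem_image.2 ⟨J, hJ, h7⟩
    refine (Finset.sum_le_sum_of_subset_of_nonneg hsub fun _ _ _ => abs_nonneg _).trans ?_
    rw [Finset.sum_image fun J hJ J' hJ' h => hinj J hJ J' hJ' h]
    refine le_of_eq (Finset.sum_congr rfl fun J hJ => ?_)
    rw [hpc J hJ]
  · have hg : ∀ h, 0 < Int.gcd (y h (a h)) (y h (b h)) := fun h =>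
      Int.gcd_pos_of_ne_zero_left _ (hya h)
    have hgz : ∀ h, 0 < (Int.gcd (y h (a h)) (y h (b h)) : ℤ) := fun h => by exact_mod_cast hg h
    have hq0 : ∀ h, (((|y h (a h)| / (Int.gcd (y h (a h)) (y h (b h)) : ℤ)).toNat : ℕ) : ℤ) =
        |y h (a h)| / (Int.gcd (y h (a h)) (y h (b h)) : ℤ) := fun h =>
      Int.toNat_of_nonneg (Int.ediv_nonneg (abs_nonneg _) (hgz h).le)
    have hgq : ∀ h, (Int.gcd (y h (a h)) (y h (b h)) : ℤ) *
        (|y h (a h)| / (Int.gcd (y h (a h)) (y h (b h)) : ℤ)) = |y h (a h)| :=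
      fun h => Int.mul_ediv_cancel' ((dvd_abs _ _).2 (Int.gcd_dvd_left _ _))
    have hgb : ∀ h, (Int.gcd (y h (a h)) (y h (b h)) : ℤ) *
        (y h (b h) / (Int.gcd (y h (a h)) (y h (b h)) : ℤ)) = y h (b h) :=
      fun h => Int.mul_ediv_cancel' (Int.gcd_dvd_right _ _)
    have hga : ∀ h, (Int.gcd (y h (a h)) (y h (b h)) : ℤ) *
        (y h (a h) / (Int.gcd (y h (a h)) (y h (b h)) : ℤ)) = y h (a h) :=
      fun h => Int.mul_ediv_cancel' (Int.gcd_dvd_left _ _)
    have hqpos : ∀ h, 0 < |y h (a h)| / (Int.gcd (y h (a h)) (y h (b h)) : ℤ) := by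
      intro h
      have e1 := hgq h
      have e2 := hgz h
      have e3 := hbig h
      by_contra hneg
      push Not at hneg
      have e4 := mul_nonpos_of_nonneg_of_nonpos e2.le hneg
      omega
    have hsa : ∀ h, |y h (a h)| / (Int.gcd (y h (a h)) (y h (b h)) : ℤ) =
        Int.sign (y h (a h)) * (y h (a h) / (Int.gcd (y h (a h)) (y h (b h)) : ℤ)) := by
      intro h
      have e1 := hgz h
      apply mul_left_cancel₀ e1.ne'
      rw [hgq h, mul_left_comm, hga h]
      exact (Int.sign_mul_self_eq_abs _).symm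
    have hss : ∀ h, Int.sign (y h (a h)) * Int.sign (y h (a h)) = 1 := by
      intro h
      rcases lt_or_gt_of_ne (hya h) with h0 | h0
      · rw [Int.sign_eq_neg_one_of_neg h0]; norm_num
      · rw [Int.sign_eq_one_of_pos h0]; norm_num
    refine ⟨fun h => -(Int.sign (y h (a h)) *
        (y h (b h) / (Int.gcd (y h (a h)) (y h (b h)) : ℤ))),
      fun h => (|y h (a h)| / (Int.gcd (y h (a h)) (y h (b h)) : ℤ)).toNat, ?_, ?_, ?_, ?_⟩
    · intro h
      have e1 := hq0 h
      have e2 := hqpos h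
      show 1 ≤ (|y h (a h)| / (Int.gcd (y h (a h)) (y h (b h)) : ℤ)).toNat
      omega
    · intro h
      show IsCoprime (-(Int.sign (y h (a h)) *
        (y h (b h) / (Int.gcd (y h (a h)) (y h (b h)) : ℤ)))) _
      rw [hq0 h, hsa h, IsCoprime.neg_left_iff]
      have e1 : IsCoprime (y h (b h) / (Int.gcd (y h (a h)) (y h (b h)) : ℤ))
          (y h (a h) / (Int.gcd (y h (a h)) (y h (b h)) : ℤ)) := by
        have e2 := Int.gcd_div_gcd_div_gcd (hg h)
        exact (Int.isCoprime_iff_gcd_eq_one.2 e2).symm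
      obtain ⟨u, v, huv⟩ := e1
      refine ⟨u * Int.sign (y h (a h)), v * Int.sign (y h (a h)), ?_⟩
      have e3 := hss h
      linear_combination (u * (y h (b h) / (Int.gcd (y h (a h)) (y h (b h)) : ℤ)) +
        v * (y h (a h) / (Int.gcd (y h (a h)) (y h (b h)) : ℤ))) * e3 + huv
    · intro h
      have e1 := hb2 h
      have e2 : (((|y h (a h)| / (Int.gcd (y h (a h)) (y h (b h)) : ℤ)).toNat : ℕ) : ℝ) =
          ((|y h (a h)| / (Int.gcd (y h (a h)) (y h (b h)) : ℤ) : ℤ) : ℝ) := by
        exact_mod_cast congrArg (fun z : ℤ => (z : ℝ)) (hq0 h)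
      show _ ≤ (((|y h (a h)| / (Int.gcd (y h (a h)) (y h (b h)) : ℤ)).toNat : ℕ) : ℝ) ^ n
      rw [e2]
      exact e1
    · have hξ : ∀ h, ((-(Int.sign (y h (a h)) *
          (y h (b h) / (Int.gcd (y h (a h)) (y h (b h)) : ℤ))) : ℤ) : ℚ) /
          (((|y h (a h)| / (Int.gcd (y h (a h)) (y h (b h)) : ℤ)).toNat : ℕ) : ℚ) =
          -((y h (b h) : ℚ) / (y h (a h) : ℚ)) := by
        intro h
        have e2 : (((|y h (a h)| / (Int.gcd (y h (a h)) (y h (b h)) : ℤ)).toNat : ℕ) : ℚ) =
            ((|y h (a h)| / (Int.gcd (y h (a h)) (y h (b h)) : ℤ) : ℤ) : ℚ) := by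
          exact_mod_cast congrArg (fun z : ℤ => (z : ℚ)) (hq0 h)
        have e3 : ((|y h (a h)| / (Int.gcd (y h (a h)) (y h (b h)) : ℤ) : ℤ) : ℚ) ≠ 0 := by
          exact_mod_cast (hqpos h).ne'
        have e4 : (y h (a h) : ℚ) ≠ 0 := by exact_mod_cast hya h
        rw [e2, div_eq_iff e3, neg_mul, div_mul_eq_mul_div, eq_comm, ← neg_div, div_eq_iff e4]
        have e5 : y h (b h) * (|y h (a h)| / (Int.gcd (y h (a h)) (y h (b h)) : ℤ)) =
            (Int.sign (y h (a h)) * (y h (b h) / (Int.gcd (y h (a h)) (y h (b h)) : ℤ))) *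
              y h (a h) := by
          rw [hsa h]
          linear_combination (-(Int.sign (y h (a h)) *
            (y h (a h) / (Int.gcd (y h (a h)) (y h (b h)) : ℤ)))) * hgb h +
            (Int.sign (y h (a h)) *
            (y h (b h) / (Int.gcd (y h (a h)) (y h (b h)) : ℤ))) * hga h
        have e6 : ((y h (b h) * (|y h (a h)| / (Int.gcd (y h (a h)) (y h (b h)) : ℤ)) : ℤ) : ℚ) =
            (((Int.sign (y h (a h)) * (y h (b h) / (Int.gcd (y h (a h)) (y h (b h)) : ℤ))) *
              y h (a h) : ℤ) : ℚ) := by rw [e5]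
        rw [Int.cast_mul, Int.cast_mul _ (y h (a h))] at e6
        rw [Int.cast_neg, neg_mul, e6]
      intro K hK
      -- the polynomial `tc` is obtained from `EP` by putting variables equal to 1
      have htc : tc (fun h => ((-(Int.sign (y h (a h)) *
          (y h (b h) / (Int.gcd (y h (a h)) (y h (b h)) : ℤ))) : ℤ) : ℚ) /
          (((|y h (a h)| / (Int.gcd (y h (a h)) (y h (b h)) : ℤ)).toNat : ℕ) : ℚ)) p =
          MvPolynomial.aeval (RESTRICT_de (R := ℚ) a) (EP (fun h k => if (h, k) ∈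
            (Finset.univ.filter fun x : Fin m × Fin (n + 1) => x.2 ≠ a x.1 ∧ x.2 ≠ b x.1)
            then 0 else y h k) a P1) := by
        unfold tc EP
        rw [hp]
        have c1 := MvPolynomial.comp_aeval_apply (R := ℤ) (RESTRICT_de (R := ℤ) a)
          (MvPolynomial.aeval (R := ℤ) (fun h => (MvPolynomial.C
            (((-(Int.sign (y h (a h)) *
          (y h (b h) / (Int.gcd (y h (a h)) (y h (b h)) : ℤ))) : ℤ) : ℚ) /
          (((|y h (a h)| / (Int.gcd (y h (a h)) (y h (b h)) : ℤ)).toNat : ℕ) : ℚ)) +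
            MvPolynomial.X h : MvPolynomial (Fin m) ℚ))) P1
        have c2 := MvPolynomial.comp_aeval_apply (R := ℤ) (fun hk : Fin m × Fin (n + 1) =>
          (if hk.2 = a hk.1 then
            MvPolynomial.X (hk.1, a hk.1) - ∑ k ∈ Finset.univ.erase (a hk.1),
              MvPolynomial.C (((if (hk.1, k) ∈ (Finset.univ.filter
                fun x : Fin m × Fin (n + 1) => x.2 ≠ a x.1 ∧ x.2 ≠ b x.1)
                then 0 else y hk.1 k : ℤ) : ℚ) / ((if (hk.1, a hk.1) ∈ (Finset.univ.filter
                fun x : Fin m × Fin (n + 1) => x.2 ≠ a x.1 ∧ x.2 ≠ b x.1)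
                then 0 else y hk.1 (a hk.1) : ℤ) : ℚ)) * MvPolynomial.X (hk.1, k)
          else MvPolynomial.X hk : MvPolynomial (Fin m × Fin (n + 1)) ℚ))
          ((MvPolynomial.aeval (RESTRICT_de (R := ℚ) a) :
            MvPolynomial (Fin m × Fin (n + 1)) ℚ →ₐ[ℚ] _).restrictScalars ℤ) P1
        rw [AlgHom.restrictScalars_apply] at c2
        rw [c1, c2]
        congr 1
        apply MvPolynomial.algHom_ext
        rintro ⟨h, k⟩
        rw [MvPolynomial.aeval_X, MvPolynomial.aeval_X, AlgHom.restrictScalars_apply]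
        by_cases hk : k = a h
        · subst hk
          show MvPolynomial.aeval _ (if a h = a h then MvPolynomial.X h else 1) = _
          rw [if_pos rfl, MvPolynomial.aeval_X]
          simp only [if_true]
          rw [map_sub, MvPolynomial.aeval_X, map_sum, hξ]
          have c3 : ∀ k ∈ Finset.univ.erase (a h), MvPolynomial.aeval (RESTRICT_de (R := ℚ) a)
              (MvPolynomial.C (((if (h, k) ∈ (Finset.univ.filter
                fun x : Fin m × Fin (n + 1) => x.2 ≠ a x.1 ∧ x.2 ≠ b x.1)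
                then 0 else y h k : ℤ) : ℚ) / ((if (h, a h) ∈ (Finset.univ.filter
                fun x : Fin m × Fin (n + 1) => x.2 ≠ a x.1 ∧ x.2 ≠ b x.1)
                then 0 else y h (a h) : ℤ) : ℚ)) * MvPolynomial.X (h, k) :
                MvPolynomial (Fin m × Fin (n + 1)) ℚ) =
              MvPolynomial.C (if k = b h then (y h (b h) : ℚ) / (y h (a h) : ℚ) else 0) := by
            intro k hk
            have hk1 : k ≠ a h := (Finset.mem_erase.1 hk).1
            have hna : (h, a h) ∉ (Finset.univ.filter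
                fun x : Fin m × Fin (n + 1) => x.2 ≠ a x.1 ∧ x.2 ≠ b x.1) :=
              fun h7 => ((hS h (a h)).1 h7).1 rfl
            rw [map_mul, MvPolynomial.aeval_C, MvPolynomial.aeval_X, if_neg hna]
            have c4 : RESTRICT_de (R := ℚ) a (h, k) = 1 := if_neg hk1
            rw [c4, mul_one]
            by_cases hkb : k = b h
            · subst hkb
              rw [if_pos rfl, if_neg]
              · rfl
              · exact fun h7 => ((hS h (b h)).1 h7).2 rfl
            · rw [if_neg hkb, if_pos ((hS h k).2 ⟨hk1, hkb⟩)]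
              simp
          rw [Finset.sum_congr rfl c3, Finset.sum_eq_single (b h)]
          · rw [if_pos rfl]
            have c5 : RESTRICT_de (R := ℚ) a (h, a h) = MvPolynomial.X h := if_pos rfl
            rw [c5, MvPolynomial.C_neg]
            ring
          · intro k _ hkb
            rw [if_neg hkb, MvPolynomial.C_0]
          · intro hh
            exact absurd (Finset.mem_erase.2 ⟨hb1 h, Finset.mem_univ _⟩) hh
        · show MvPolynomial.aeval _ (if k = a h then MvPolynomial.X h else 1) = _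
          rw [if_neg hk, map_one]
          simp only [if_neg hk]
          rw [MvPolynomial.aeval_X]
          exact (if_neg hk).symm
      rw [htc] at hK
      obtain ⟨J, hJ, rfl⟩ := RESTRICT_supp a _ (MvPolynomial.mem_support_iff.1 hK)
      exact h6 J hJ

end Pool.Agent.SubT
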