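import Pool.Agent.SubT.Roth
import Pool.Agent.SubT.AuxPol
import Pool.Agent.SubT.Height
import Pool.Agent.SubT.Eval
import Pool.Agent.SubT.EvO
import Pool.Agent.SubT.Restrict

/-! Module P1. Text: team-store MP_e27144_an_pr_growth_helper66.md.
HINT: (3.3) + (3.4): assembly. eps from ev; m >= m0 and m >= 6 (n+1)/eps^2; om m (1/2); bad Q_(m-1) < ... < Q_0 (index 0 = largest Q, smallest degree); RR >= log(Q_0)/eps; r_h = ceil(RR/log Q_h); Theta = exp(RR kappa/n). -/

namespace Pool.Agent.SubT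

open scoped BigOperators ENNReal

open MeasureTheory Set Filter Topology

/-- A basis of a span inside the spanning set. -/
theorem P1_basis {n : ℕ} (s : Set (Fin (n + 1) → ℚ))
    (hs : Module.finrank ℚ (Submodule.span ℚ s) = n) :
    ∃ g : Fin n → Fin (n + 1) → ℚ, LinearIndependent ℚ g ∧ (∀ j, g j ∈ s) ∧
      Submodule.span ℚ (Set.range g) = Submodule.span ℚ s := by
  obtain ⟨f, hf, hsp, hli⟩ := Submodule.exists_fun_fin_finrank_span_eq ℚ s
  refine ⟨fun j => f (Fin.cast hs.symm j), ?_, fun j => hf _, ?_⟩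
  · exact hli.comp _ (Fin.cast_injective _)
  · refine Eq.trans ?_ hsp
    congr 1
    ext x
    constructor
    · rintro ⟨j, rfl⟩; exact ⟨_, rfl⟩
    · rintro ⟨j, rfl⟩; exact ⟨Fin.cast hs j, by simp⟩

/-- The sequence of bad parameters. -/
theorem P1_seq (m : ℕ) (A : Set ℝ) (hA : ∀ B : ℝ, ∃ Q ∈ A, B ≤ Q) (Qmin t : ℝ) (hQ : 1 ≤ Qmin)
    (ht : 1 ≤ t) :
    ∃ Q : Fin m → ℝ, (∀ h, Q h ∈ A) ∧ (∀ h, Qmin ≤ Q h) ∧
      ∀ h h' : Fin m, h.val + 1 = h'.val → t * Real.log (Q h') ≤ Real.log (Q h) := by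
  choose f hf1 hf2 using hA
  let s : ℕ → ℝ := fun k => Nat.rec (f Qmin) (fun _ x => f (x ^ t)) k
  have hs0 : s 0 = f Qmin := rfl
  have hss : ∀ k, s (k + 1) = f ((s k) ^ t) := fun _ => rfl
  have hsA : ∀ k, s k ∈ A := by
    intro k
    cases k with
    | zero => rw [hs0]; exact hf1 _
    | succ k => rw [hss]; exact hf1 _
  have hsm : ∀ k, Qmin ≤ s k := by
    intro k
    induction k with
    | zero => rw [hs0]; exact hf2 _
    | succ k ih =>
      rw [hss]
      refine le_trans ?_ (hf2 _)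
      have h1 : 1 ≤ s k := hQ.trans ih
      calc Qmin ≤ s k := ih
        _ = s k ^ (1 : ℝ) := (Real.rpow_one _).symm
        _ ≤ s k ^ t := Real.rpow_le_rpow_of_exponent_le h1 ht
  have hlog : ∀ k, t * Real.log (s k) ≤ Real.log (s (k + 1)) := by
    intro k
    have h1 : 1 ≤ s k := hQ.trans (hsm k)
    rw [← Real.log_rpow (by linarith)]
    apply Real.log_le_log (Real.rpow_pos_of_pos (by linarith) _)
    rw [hss]
    exact hf2 _
  refine ⟨fun h => s (m - 1 - h.val), fun h => hsA _, fun h => hsm _, ?_⟩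
  intro h h' hh
  have h2 : m - 1 - h.val = (m - 1 - h'.val) + 1 := by
    have := h'.2
    omega
  show t * Real.log (s (m - 1 - h'.val)) ≤ Real.log (s (m - 1 - h.val))
  rw [h2]
  exact hlog _

theorem p1 {n : ℕ} (hn : 1 ≤ n) (M : Pl → Matrix (Fin (n + 1)) (Fin (n + 1)) ℚ)
    (hM : ∀ v, (M v).det ≠ 0) (c : Pl → Fin (n + 1) → ℝ) (hc : ∑ v, ∑ i, c v i < 0) :
    ∃ Q0 : ℝ, 1 < Q0 ∧ ∃ VV : Finset (Submodule ℚ (Fin (n + 1) → ℚ)),
      ∀ Q ≥ Q0, Module.finrank ℚ (spSol M c Q) = n → spSol M c Q ∈ VV := by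
  obtain ⟨Q1, hQ1, κ, hκ, VV, hVV⟩ := height hn M hM c hc
  obtain ⟨C0, hC0, haux⟩ := aux (n := n + 1) (by omega) M hM
  obtain ⟨ε, hε0, hε1, m0, hev⟩ := ev hn M hM c hc
  have hm1 : ∃ m : ℕ, m0 ≤ m ∧ 1 ≤ m ∧ 6 * ((n + 1 : ℕ) : ℝ) / ε ^ 2 ≤ m := by
    obtain ⟨m1, hm1⟩ := exists_nat_ge (6 * ((n + 1 : ℕ) : ℝ) / ε ^ 2)
    refine ⟨max (max m0 1) m1, by omega, by omega, hm1.trans ?_⟩
    exact_mod_cast le_max_right _ _
  obtain ⟨m, hm0, hmpos, hm6⟩ := hm1
  obtain ⟨Qm, hQm, hev⟩ := hev m hm0 C0 hC0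
  have hω0 : 0 < om m (1 / 2) := om_pos m (by norm_num)
  have hω1 : om m (1 / 2) ≤ 1 := om_le_one m (by norm_num) (by norm_num)
  have hroth := roth (m := m) (1 / 2) (by norm_num) (by norm_num)
  generalize om m (1 / 2) = ω at *
  have hnpos : (0 : ℝ) < n := by exact_mod_cast hn
  have hmR : (1 : ℝ) ≤ m := by exact_mod_cast hmpos
  -- the threshold
  obtain ⟨Lm, hLm⟩ : ∃ Lm : ℝ, 1 ≤ Lm ∧ 1 ≤ κ * Lm ∧ 4 * m ^ 2 * n / (ω * κ) ≤ Lm ∧
      2 * m * n * Real.log C0 / (ω * κ) ≤ Lm := by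
    refine ⟨max (max 1 (1 / κ)) (max (4 * m ^ 2 * n / (ω * κ))
      (2 * m * n * Real.log C0 / (ω * κ))), ?_, ?_, ?_, ?_⟩
    · exact le_max_of_le_left (le_max_left _ _)
    · have h1 : 1 / κ ≤ max (max 1 (1 / κ)) (max (4 * m ^ 2 * n / (ω * κ))
        (2 * m * n * Real.log C0 / (ω * κ))) := le_max_of_le_left (le_max_right _ _)
      calc 1 = κ * (1 / κ) := by field_simp
        _ ≤ _ := mul_le_mul_of_nonneg_left h1 hκ.le
    · exact le_max_of_le_right (le_max_left _ _)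
    · exact le_max_of_le_right (le_max_right _ _)
  obtain ⟨hL1, hL2, hL3, hL4⟩ := hLm
  by_contra hcon
  push Not at hcon
  -- bad parameters
  let A : Set ℝ := {Q | Module.finrank ℚ (spSol M c Q) = n ∧ spSol M c Q ∉ VV}
  have hA : ∀ B : ℝ, ∃ Q ∈ A, B ≤ Q := by
    intro B
    obtain ⟨Q, hQ, h1, h2⟩ := hcon (max B 2) (lt_of_lt_of_le (by norm_num) (le_max_right _ _)) VV
    exact ⟨Q, ⟨h1, h2⟩, (le_max_left _ _).trans hQ⟩
  obtain ⟨Q, hQA, hQmin, hQlog⟩ := P1_seq m A hA (max (max Q1 Qm) (Real.exp Lm)) (2 / ω)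
    (le_max_of_le_left (le_max_of_le_left hQ1.le)) (by
      rw [le_div_iff₀ hω0]; linarith)
  have hQQ1 : ∀ h, Q1 ≤ Q h := fun h => (le_max_of_le_left (le_max_left _ _)).trans (hQmin h)
  have hQQm : ∀ h, Qm ≤ Q h := fun h => (le_max_of_le_left (le_max_right _ _)).trans (hQmin h)
  have hQexp : ∀ h, Real.exp Lm ≤ Q h := fun h => (le_max_right _ _).trans (hQmin h)
  have hQpos : ∀ h, 0 < Q h := fun h => lt_of_lt_of_le (Real.exp_pos _) (hQexp h)
  have hlogQ : ∀ h, Lm ≤ Real.log (Q h) := fun h => by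
    rw [Real.le_log_iff_exp_le (hQpos h)]; exact hQexp h
  have hlogQ1 : ∀ h, 1 ≤ Real.log (Q h) := fun h => hL1.trans (hlogQ h)
  -- bases and normals
  have hbas : ∀ h, ∃ g : Fin n → Fin (n + 1) → ℚ, LinearIndependent ℚ g ∧
      (∀ j, g j ∈ Sol M c (Q h)) ∧ Submodule.span ℚ (Set.range g) = spSol M c (Q h) :=
    fun h => P1_basis _ (hQA h).1
  choose g hgli hgS hgsp using hbas
  have hnor := fun h => exists_normal (g h)
  choose y hyprim hyg using hnor
  -- the maximal coordinates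
  have hmax : ∀ h, ∃ a : Fin (n + 1), ∀ k, |y h k| ≤ |y h a| := by
    intro h
    obtain ⟨a, _, ha⟩ := Finset.exists_max_image Finset.univ (fun k => |y h k|)
      Finset.univ_nonempty
    exact ⟨a, fun k => ha k (Finset.mem_univ k)⟩
  choose a ha using hmax
  have hbigR : ∀ h, Q h ^ κ ≤ ((|y h (a h)| : ℤ) : ℝ) := by
    intro h
    rcases hVV (Q h) (hQQ1 h) (g h) (hgli h) (hgS h) (y h) (hyprim h) (hyg h) with h1 | ⟨k, hk⟩
    · rw [hgsp h] at h1
      exact absurd h1 (hQA h).2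
    · refine hk.trans ?_
      rw [← Int.cast_abs]
      exact_mod_cast ha h k
  have hbig : ∀ h, 2 ≤ |y h (a h)| := by
    intro h
    have h1 : (1 : ℝ) < Q h ^ κ := by
      rw [Real.rpow_def_of_pos (hQpos h)]
      apply Real.one_lt_exp_iff.mpr
      have h2 := hlogQ1 h
      positivity
    have h2 : (1 : ℝ) < ((|y h (a h)| : ℤ) : ℝ) := h1.trans_le (hbigR h)
    have h3 : (1 : ℤ) < |y h (a h)| := by exact_mod_cast h2
    omega
  -- the real number `RR` and the degrees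
  obtain ⟨RR, hRR0, hRR⟩ : ∃ RR : ℝ, 0 < RR ∧ ∀ h, Real.log (Q h) ≤ ε * RR := by
    refine ⟨(∑ h, Real.log (Q h) + 1) / ε, ?_, ?_⟩
    · have h1 : 0 ≤ ∑ h, Real.log (Q h) := Finset.sum_nonneg fun h _ => by
        have := hlogQ1 h; linarith
      positivity
    · intro h
      have h1 : Real.log (Q h) ≤ ∑ h, Real.log (Q h) :=
        Finset.single_le_sum (f := fun h => Real.log (Q h)) (fun h _ => by
          have := hlogQ1 h; show 0 ≤ Real.log (Q h); linarith) (Finset.mem_univ h)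
      have h2 : ε * ((∑ h, Real.log (Q h) + 1) / ε) = ∑ h, Real.log (Q h) + 1 := by
        field_simp
      rw [h2]; linarith
  have hr : ∃ r : Fin m → ℕ, (∀ h, 1 ≤ r h) ∧ (∀ h, RR ≤ r h * Real.log (Q h)) ∧
      (∀ h, r h * Real.log (Q h) ≤ (1 + ε) * RR) := by
    refine ⟨fun h => ⌈RR / Real.log (Q h)⌉₊, ?_, ?_, ?_⟩
    · intro h
      have h1 := hlogQ1 h
      exact Nat.ceil_pos.mpr (by positivity)
    · intro h
      have h1 := hlogQ1 h
      have h2 := Nat.le_ceil (RR / Real.log (Q h))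
      rwa [div_le_iff₀ (by linarith)] at h2
    · intro h
      have h1 := hlogQ1 h
      have h2 := (Nat.ceil_lt_add_one (show 0 ≤ RR / Real.log (Q h) by positivity)).le
      calc (⌈RR / Real.log (Q h)⌉₊ : ℝ) * Real.log (Q h)
          ≤ (RR / Real.log (Q h) + 1) * Real.log (Q h) :=
            mul_le_mul_of_nonneg_right h2 (by linarith)
        _ = RR + Real.log (Q h) := by
            have : Real.log (Q h) ≠ 0 := by linarith
            field_simp
        _ ≤ (1 + ε) * RR := by have := hRR h; linarith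
  obtain ⟨r, hr1, hrlo, hrhi⟩ := hr
  obtain ⟨P, hPaux⟩ := haux ε hε0 hε1 m hm6 r hr1
  have hzero := hev Q hQQm RR hRR0 r hr1 hrlo hrhi g a hgS P hPaux
  have hane : ∀ h, y h (a h) ≠ 0 := by
    intro h h0
    have := hbig h
    rw [h0] at this
    simp at this
  have hO := ev_to_O r g hgli y hyg a hane P hzero
  obtain ⟨p, hp0, hpdeg, hpn, num, q, hq1, hqc, hqbig, hptc⟩ := restrict hn r hr1 y hyprim a ha
    hbig P hPaux.1 hPaux.2.1 hO
  have hPn := hPaux.2.2.1
  -- sizes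
  have hr2 : ∀ h, (r h : ℝ) * Real.log (Q h) ≤ 2 * RR := fun h =>
    (hrhi h).trans (by nlinarith)
  have hrL : ∀ h, (r h : ℝ) * Lm ≤ 2 * RR := fun h =>
    (mul_le_mul_of_nonneg_left (hlogQ h) (Nat.cast_nonneg _)).trans (hr2 h)
  have hsumL : (∑ h, (r h : ℝ)) * Lm ≤ m * (2 * RR) := by
    rw [Finset.sum_mul]
    refine (Finset.sum_le_sum fun h _ => hrL h).trans ?_
    simp
  have hωκ : 0 < ω * κ := mul_pos hω0 hκ
  have hsum0 : (0 : ℝ) ≤ ∑ h, (r h : ℝ) := Finset.sum_nonneg fun h _ => Nat.cast_nonneg _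
  have hlogC : 0 ≤ Real.log C0 := Real.log_nonneg hC0
  -- `|r| log C0 ≤ ω RR κ / n`
  have hb1 : (∑ h, (r h : ℝ)) * Real.log C0 ≤ ω * (RR * κ / n) := by
    have h1 : 2 * m * n * Real.log C0 ≤ Lm * (ω * κ) := by
      rwa [div_le_iff₀ hωκ] at hL4
    have h2 : (∑ h, (r h : ℝ)) * (2 * m * n * Real.log C0) ≤ (m * (2 * RR)) * (ω * κ) := by
      calc (∑ h, (r h : ℝ)) * (2 * m * n * Real.log C0)
          ≤ (∑ h, (r h : ℝ)) * (Lm * (ω * κ)) := mul_le_mul_of_nonneg_left h1 hsum0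
        _ = ((∑ h, (r h : ℝ)) * Lm) * (ω * κ) := by ring
        _ ≤ _ := mul_le_mul_of_nonneg_right hsumL hωκ.le
    have h3 : ((∑ h, (r h : ℝ)) * Real.log C0 * n) * (2 * m) ≤ (ω * (RR * κ)) * (2 * m) := by
      calc ((∑ h, (r h : ℝ)) * Real.log C0 * n) * (2 * m) =
          (∑ h, (r h : ℝ)) * (2 * m * n * Real.log C0) := by ring
        _ ≤ _ := h2
        _ = _ := by ring
    have h4 := le_of_mul_le_mul_right h3 (by linarith)
    rw [← mul_div_assoc, le_div_iff₀ hnpos]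
    exact h4
  have hb2 : (2 * m * ∑ h, (r h : ℝ)) * Real.log 2 ≤ ω * (RR * κ / n) := by
    have h1 : 4 * m ^ 2 * n ≤ Lm * (ω * κ) := by
      rwa [div_le_iff₀ hωκ] at hL3
    have h2 : (∑ h, (r h : ℝ)) * (4 * m ^ 2 * n) ≤ (m * (2 * RR)) * (ω * κ) := by
      calc (∑ h, (r h : ℝ)) * (4 * m ^ 2 * n)
          ≤ (∑ h, (r h : ℝ)) * (Lm * (ω * κ)) := mul_le_mul_of_nonneg_left h1 hsum0
        _ = ((∑ h, (r h : ℝ)) * Lm) * (ω * κ) := by ring
        _ ≤ _ := mul_le_mul_of_nonneg_right hsumL hωκ.le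
    have h3 : ((∑ h, (r h : ℝ)) * (2 * m) * n) * (2 * m) ≤ (ω * (RR * κ)) * (2 * m) := by
      calc ((∑ h, (r h : ℝ)) * (2 * m) * n) * (2 * m) =
          (∑ h, (r h : ℝ)) * (4 * m ^ 2 * n) := by ring
        _ ≤ _ := h2
        _ = _ := by ring
    have h4 := le_of_mul_le_mul_right h3 (by linarith)
    have h5 : Real.log 2 ≤ 1 := by
      have := Real.log_two_lt_d9
      linarith
    rw [← mul_div_assoc, le_div_iff₀ hnpos]
    calc (2 * m * ∑ h, (r h : ℝ)) * Real.log 2 * n ≤ (2 * m * ∑ h, (r h : ℝ)) * 1 * n := by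
          apply mul_le_mul_of_nonneg_right _ hnpos.le
          apply mul_le_mul_of_nonneg_left h5
          positivity
      _ = (∑ h, (r h : ℝ)) * (2 * m) * n := by ring
      _ ≤ _ := h4
  have hΘω : (Real.exp (RR * κ / n)) ^ ω = Real.exp (ω * (RR * κ / n)) := by
    rw [← Real.exp_mul, mul_comm]
  obtain ⟨i, hi, hisum⟩ := hroth r hr1
    (by
      intro h h' hh
      have h1 := hQlog h h' hh
      have h2 := hlogQ1 h
      have h3 := hlogQ1 h'
      have h4 := hr2 h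
      have h5 := hrlo h'
      -- r h * log Q h ≤ 2 RR ≤ 2 r h' log Q h' ≤ ω r h' log Q h
      have h6 : Real.log (Q h') ≤ ω / 2 * Real.log (Q h) := by
        have : 2 / ω * Real.log (Q h') = Real.log (Q h') / (ω / 2) := by field_simp
        rw [this, div_le_iff₀ (by positivity)] at h1
        linarith
      have h7 : (r h : ℝ) * Real.log (Q h) ≤ (ω * r h') * Real.log (Q h) := by
        calc (r h : ℝ) * Real.log (Q h) ≤ 2 * RR := h4
          _ ≤ 2 * (r h' * Real.log (Q h')) := by linarith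
          _ ≤ 2 * (r h' * (ω / 2 * Real.log (Q h))) := by
              have := mul_le_mul_of_nonneg_left h6 (Nat.cast_nonneg (α := ℝ) (r h'))
              linarith
          _ = _ := by ring
      exact le_of_mul_le_mul_right h7 (by linarith))
    (∑ h, r h) (fun h => Finset.single_le_sum (fun _ _ => Nat.zero_le _) (Finset.mem_univ h))
    num q hq1 hqc (Real.exp (RR * κ / n)) (Real.one_le_exp (by positivity))
    (by
      intro h
      have h1 : 0 < (q h : ℝ) := by exact_mod_cast hq1 h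
      have h2 : κ * Real.log (Q h) ≤ n * Real.log (q h) := by
        rw [← Real.log_rpow (hQpos h), ← Real.log_pow]
        exact Real.log_le_log (Real.rpow_pos_of_pos (hQpos h) _) ((hbigR h).trans (hqbig h))
      rw [← Real.le_log_iff_exp_le (by positivity), Real.log_pow, div_le_iff₀ hnpos]
      calc RR * κ ≤ (r h * Real.log (Q h)) * κ := mul_le_mul_of_nonneg_right (hrlo h) hκ.le
        _ = r h * (κ * Real.log (Q h)) := by ring
        _ ≤ r h * (n * Real.log (q h)) := mul_le_mul_of_nonneg_left h2 (Nat.cast_nonneg _)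
        _ = _ := by ring)
    (by
      rw [hΘω, ← Real.log_le_iff_le_exp (by positivity), Real.log_pow]
      push_cast
      exact hb2)
    p hp0 hpdeg
    (by
      refine hpn.trans (hPn.trans ?_)
      rw [hΘω, ← Real.log_le_iff_le_exp (by positivity), Real.log_pow]
      push_cast
      exact hb1)
  have := hptc i hi
  linarith

end Pool.Agent.SubT
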