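import Pool.Agent.SubT.Place

/-! Module SPTOP. Text: team-store MP_e27144_an_pr_growth_helper66.md.
HINT: determinant of N independent solutions and the product formula. -/

namespace Pool.Agent.SubT

open scoped BigOperators ENNReal

open MeasureTheory Set Filter Topology

/-- independent vectors among the solutions -/
theorem SPTOP_vecs {N : ℕ} (S : Set (Fin N → ℚ)) (h : Submodule.span ℚ S = ⊤) :
    ∃ x : Fin N → Fin N → ℚ, (∀ j, x j ∈ S) ∧ (Matrix.of x).det ≠ 0 := by
  obtain ⟨b, hbs, hspan, hli⟩ := exists_linearIndependent ℚ S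
  have htop : ⊤ ≤ Submodule.span ℚ (Set.range ((↑) : b → (Fin N → ℚ))) := by
    rw [Subtype.range_coe, hspan, h]
  let B := Module.Basis.mk hli htop
  let e : b ≃ Fin N := B.indexEquiv (Pi.basisFun ℚ (Fin N))
  refine ⟨fun j => (e.symm j : b).1, fun j => hbs (e.symm j).2, ?_⟩
  have h1 : LinearIndependent ℚ (fun j : Fin N => (e.symm j : b).1) :=
    hli.comp _ e.symm.injective
  have h2 : LinearIndependent ℚ (Matrix.of (fun j : Fin N => (e.symm j : b).1)).row := h1
  rw [Matrix.linearIndependent_rows_iff_isUnit, Matrix.isUnit_iff_isUnit_det] at h2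
  exact h2.ne_zero

/-- independent solutions cannot fill the space -/
theorem spSol_ne_top {N : ℕ} (hN : 1 ≤ N) (M : Pl → Matrix (Fin N) (Fin N) ℚ)
    (hM : ∀ v, (M v).det ≠ 0) (K δ : ℝ) (hδ : 0 < δ) :
    ∃ Q0 : ℝ, 1 < Q0 ∧ ∀ Q ≥ Q0, ∀ c : Pl → Fin N → ℝ, ∑ v, ∑ i, c v i ≤ -δ →
      spSol M c Q ≠ ⊤ := by
  set P : ℝ := ∏ v : Pl, av v (M v).det with hP
  have hPpos : 0 < P := Finset.prod_pos fun v _ => av_pos v (hM v)
  set F : ℝ := (N.factorial : ℝ) ^ 3 with hF
  have hFpos : 0 < F := by positivity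
  refine ⟨max 2 ((F / P + 1) ^ (1 / δ)), lt_of_lt_of_le (by norm_num) (le_max_left _ _), ?_⟩
  intro Q hQ c hc htop
  have hQ2 : 2 ≤ Q := (le_max_left _ _).trans hQ
  have hQ3 : (F / P + 1) ^ (1 / δ) ≤ Q := (le_max_right _ _).trans hQ
  have hQ0 : 0 < Q := by linarith
  obtain ⟨x, hx, hdet⟩ := SPTOP_vecs (Sol M c Q) htop
  set X : Matrix (Fin N) (Fin N) ℚ := (Matrix.of x).transpose with hX
  have hdX : X.det ≠ 0 := by rw [hX, Matrix.det_transpose]; exact hdet
  have hinR : InR X.det := inR_det X fun i j => by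
    rw [hX]
    exact (hx j).1 i
  have hone := prod_av_ge_one hinR hdX
  have hent : ∀ v i j, (M v * X) i j = lin M v i (x j) := by
    intro v i j
    simp only [Matrix.mul_apply, lin, Matrix.mulVec, dotProduct, hX, Matrix.transpose_apply,
      Matrix.of_apply]
  have hv : ∀ v : Pl, av v (M v).det * av v X.det ≤ N.factorial * ∏ i, Q ^ (c v i) := by
    intro v
    rw [← av_mul, ← Matrix.det_mul]
    apply av_det_le
    intro i j
    rw [hent]
    exact (hx j).2 v i
  have hprod : P ≤ F * Q ^ (-δ) := by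
    calc P = P * 1 := (mul_one _).symm
      _ ≤ P * ∏ v : Pl, av v X.det := mul_le_mul_of_nonneg_left hone hPpos.le
      _ = ∏ v : Pl, (av v (M v).det * av v X.det) := by rw [hP, ← Finset.prod_mul_distrib]
      _ ≤ ∏ v : Pl, (N.factorial * ∏ i, Q ^ (c v i)) :=
          Finset.prod_le_prod (fun v _ => mul_nonneg (av_nonneg _ _) (av_nonneg _ _))
            (fun v _ => hv v)
      _ = F * Q ^ (∑ v, ∑ i, c v i) := by
          rw [Finset.prod_mul_distrib, Finset.prod_const, Finset.card_univ, Fintype.card_fin, hF]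
          congr 1
          rw [Real.rpow_sum_of_pos hQ0]
          refine Finset.prod_congr rfl fun v _ => ?_
          rw [Real.rpow_sum_of_pos hQ0]
      _ ≤ F * Q ^ (-δ) := by
          apply mul_le_mul_of_nonneg_left _ hFpos.le
          exact Real.rpow_le_rpow_of_exponent_le (by linarith) hc
  have hQδ : F / P + 1 ≤ Q ^ δ := by
    have h1 : ((F / P + 1) ^ (1 / δ)) ^ δ ≤ Q ^ δ :=
      Real.rpow_le_rpow (by positivity) hQ3 hδ.le
    rwa [← Real.rpow_mul (by positivity), one_div_mul_cancel hδ.ne', Real.rpow_one] at h1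
  have hQp : 0 < Q ^ δ := Real.rpow_pos_of_pos hQ0 _
  rw [Real.rpow_neg hQ0.le, ← div_eq_mul_inv, le_div_iff₀ hQp] at hprod
  have h2 : P * (F / P + 1) ≤ F := (mul_le_mul_of_nonneg_left hQδ hPpos.le).trans hprod
  have h3 : P * (F / P + 1) = F + P := by field_simp
  linarith

end Pool.Agent.SubT
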