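import Pool.Agent.SubT.P1
import Pool.Agent.SubT.SpTop

/-! Module P1U. Text: team-store MP_e27144_an_pr_growth_helper66.md.
HINT: round every exponent up to a grid of mesh delta/(12 N) in [-K-1,K+1]; finitely many exponent vectors; P1 for each; spSol of the rounded exponents contains U and is not everything, so it is U. UU = union of the VV, filtered by U != top. Dimension N = n+1. -/

namespace Pool.Agent.SubT

open scoped BigOperators ENNReal

open MeasureTheory Set Filter Topology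

private theorem P1U_mono {N : ℕ} (M : Pl → Matrix (Fin N) (Fin N) ℚ) (c c' : Pl → Fin N → ℝ)
    (h : ∀ v i, c v i ≤ c' v i) {Q : ℝ} (hQ : 1 ≤ Q) : spSol M c Q ≤ spSol M c' Q := by
  unfold spSol
  apply Submodule.span_mono
  rintro x ⟨hx, hx'⟩
  exact ⟨hx, fun v i => (hx' v i).trans (Real.rpow_le_rpow_of_exponent_le hQ (h v i))⟩

/-- P1U: uniform version of P1 (finite net of exponents). -/
theorem p1u {N : ℕ} (hN : 2 ≤ N) (M : Pl → Matrix (Fin N) (Fin N) ℚ)
    (hM : ∀ v, (M v).det ≠ 0) (K δ : ℝ) (hδ : 0 < δ) :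
    ∃ Q0 : ℝ, 1 < Q0 ∧ ∃ UU : Finset (Submodule ℚ (Fin N → ℚ)), (∀ U ∈ UU, U ≠ ⊤) ∧
      ∀ Q ≥ Q0, ∀ c : Pl → Fin N → ℝ, (∀ v i, |c v i| ≤ K) → ∑ v, ∑ i, c v i ≤ -δ →
      ∀ U : Submodule ℚ (Fin N → ℚ), U ≤ spSol M c Q → Module.finrank ℚ U = N - 1 → U ∈ UU := by
  classical
  obtain ⟨n, rfl⟩ : ∃ n, N = n + 1 := ⟨N - 1, by omega⟩
  have hn : 1 ≤ n := by omega
  have hN0 : (0 : ℝ) < ((n + 1 : ℕ) : ℝ) := by positivity
  set h : ℝ := δ / (6 * ((n + 1 : ℕ) : ℝ)) with hh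
  have hh0 : 0 < h := by positivity
  have H : ∀ e : Pl → Fin (n + 1) → ℤ, ∃ Q0 : ℝ, 1 < Q0 ∧
      ∃ VV : Finset (Submodule ℚ (Fin (n + 1) → ℚ)),
        ∑ v, ∑ i, h * (e v i : ℝ) < 0 → ∀ Q ≥ Q0,
          Module.finrank ℚ (spSol M (fun v i => h * (e v i : ℝ)) Q) = n →
            spSol M (fun v i => h * (e v i : ℝ)) Q ∈ VV := by
    intro e
    by_cases he : ∑ v, ∑ i, h * (e v i : ℝ) < 0
    · obtain ⟨Q0, hQ0, VV, hVV⟩ := p1 hn M hM (fun v i => h * (e v i : ℝ)) he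
      exact ⟨Q0, hQ0, VV, fun _ => hVV⟩
    · exact ⟨2, by norm_num, ∅, fun h' => absurd h' he⟩
  choose q0 hq0 VV hVV using H
  obtain ⟨q2, hq2, hq2'⟩ := spSol_ne_top (N := n + 1) (by omega) M hM K (δ / 2) (by linarith)
  set Kz : ℤ := ⌈|K| / h⌉ + 1 with hKz
  set E : Finset (Pl → Fin (n + 1) → ℤ) :=
    Fintype.piFinset (fun _ => Fintype.piFinset fun _ => Finset.Icc (-Kz) Kz) with hE
  have hsum0 : 0 ≤ ∑ e ∈ E, q0 e := Finset.sum_nonneg fun e _ => by
    have := hq0 e; linarith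
  refine ⟨q2 + ∑ e ∈ E, q0 e, by linarith, (E.biUnion VV).filter (· ≠ ⊤),
    fun U hU => (Finset.mem_filter.mp hU).2, ?_⟩
  intro Q hQ c hcK hc U hUs hUr
  have hQ2 : q2 ≤ Q := by linarith
  have hQ1 : 1 ≤ Q := by linarith
  set e : Pl → Fin (n + 1) → ℤ := fun v i => ⌈c v i / h⌉ with he
  have hce : ∀ v i, c v i ≤ h * (e v i : ℝ) := by
    intro v i
    have h1 : c v i / h ≤ (⌈c v i / h⌉ : ℝ) := Int.le_ceil _
    rw [div_le_iff₀ hh0] at h1
    rw [he]
    simp only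
    linarith
  have hce2 : ∀ v i, h * (e v i : ℝ) ≤ c v i + h := by
    intro v i
    have h1 : (⌈c v i / h⌉ : ℝ) < c v i / h + 1 := Int.ceil_lt_add_one _
    have h2 : h * (⌈c v i / h⌉ : ℝ) < h * (c v i / h + 1) := mul_lt_mul_of_pos_left h1 hh0
    have h3 : h * (c v i / h + 1) = c v i + h := by field_simp
    rw [he]
    simp only
    linarith
  have heE : e ∈ E := by
    rw [hE, Fintype.mem_piFinset]
    intro v
    rw [Fintype.mem_piFinset]
    intro i
    rw [Finset.mem_Icc]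
    have h1 : |c v i| ≤ |K| := (hcK v i).trans (le_abs_self K)
    have h2 : c v i / h ≤ |K| / h := by
      gcongr
      exact (le_abs_self _).trans h1
    have h3 : -(|K| / h) ≤ c v i / h := by
      rw [neg_le, ← neg_div]
      gcongr
      exact (neg_le_abs _).trans h1
    have h4 : ⌈c v i / h⌉ ≤ ⌈|K| / h⌉ := Int.ceil_mono h2
    constructor
    · have h5 : ((-Kz : ℤ) : ℝ) ≤ (⌈c v i / h⌉ : ℝ) := by
        have h6 : |K| / h ≤ (⌈|K| / h⌉ : ℝ) := Int.le_ceil _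
        have h7 : c v i / h ≤ (⌈c v i / h⌉ : ℝ) := Int.le_ceil _
        rw [hKz]
        push_cast
        linarith
      exact_mod_cast h5
    · change ⌈c v i / h⌉ ≤ Kz
      omega
  have hsum : ∑ v, ∑ i, h * (e v i : ℝ) ≤ -(δ / 2) := by
    have h1 : ∑ v, ∑ i, h * (e v i : ℝ) ≤ ∑ v : Pl, ∑ i : Fin (n + 1), (c v i + h) :=
      Finset.sum_le_sum fun v _ => Finset.sum_le_sum fun i _ => hce2 v i
    have h2 : ∑ v : Pl, ∑ i : Fin (n + 1), (c v i + h)
        = ∑ v, ∑ i, c v i + 3 * ((n + 1 : ℕ) : ℝ) * h := by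
      simp only [Finset.sum_add_distrib, Finset.sum_const, Finset.card_univ, Fintype.card_fin,
        nsmul_eq_mul]
      push_cast
      ring
    have h3 : 3 * ((n + 1 : ℕ) : ℝ) * h = δ / 2 := by
      rw [hh]
      field_simp
      norm_num
    rw [h2, h3] at h1
    linarith
  have hle : U ≤ spSol M (fun v i => h * (e v i : ℝ)) Q := hUs.trans (P1U_mono M _ _ hce hQ1)
  have hnt := hq2' Q hQ2 (fun v i => h * (e v i : ℝ)) hsum
  have hfin : Module.finrank ℚ (Fin (n + 1) → ℚ) = n + 1 := by simp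
  have hlt : Module.finrank ℚ (spSol M (fun v i => h * (e v i : ℝ)) Q) < n + 1 := by
    have := Submodule.finrank_lt hnt
    rwa [hfin] at this
  have hUr' : Module.finrank ℚ U = n := by simpa using hUr
  have hEq : U = spSol M (fun v i => h * (e v i : ℝ)) Q :=
    Submodule.eq_of_le_of_finrank_le hle (by rw [hUr']; omega)
  have hmem : U ∈ VV e := by
    rw [hEq]
    refine hVV e (by linarith) Q ?_ ?_
    · have := Finset.single_le_sum (f := q0) (fun e' _ => by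
        have := hq0 e'; linarith) heE
      linarith
    · rw [← hEq, hUr']
  refine Finset.mem_filter.mpr ⟨Finset.mem_biUnion.mpr ⟨e, heE, hmem⟩, ?_⟩
  intro htop
  rw [htop, finrank_top, hfin] at hUr'
  omega

end Pool.Agent.SubT
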