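import Pool.Agent.SubT.CompX

/-! Module VU. Text: team-store MP_e27144_an_pr_growth_helper66.md.
HINT: section 6, last lines. -/

namespace Pool.Agent.SubT

open scoped BigOperators ENNReal

open MeasureTheory Set Filter Topology

/-- Laplace expansion of a wedge along the first vector -/
private theorem vu_key {n q : ℕ} (z : Fin n → ℚ) (y : Fin q → Fin n → ℚ) (σ : Fin (n.choose (q + 1))) :
    wd (Fin.cons z y : Fin (q + 1) → Fin n → ℚ) σ =
      ∑ j : Fin (q + 1), (-1) ^ (j : ℕ) * z (el σ j) *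
        Matrix.det (Matrix.of fun b a : Fin q => y b (el σ (Fin.succAbove j a))) := by
  have h1 : wd (Fin.cons z y : Fin (q + 1) → Fin n → ℚ) σ =
      Matrix.det (Matrix.of fun b a : Fin (q + 1) =>
        (Fin.cons z y : Fin (q + 1) → Fin n → ℚ) b (el σ a)) :=
    (Matrix.det_transpose (Matrix.of fun a b : Fin (q + 1) =>
        (Fin.cons z y : Fin (q + 1) → Fin n → ℚ) b (el σ a))).symm
  rw [h1]
  exact Matrix.det_succ_row_zero _

private theorem vu_wd_add {n q : ℕ} (x x' : Fin n → ℚ) (y : Fin q → Fin n → ℚ) :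
    wd (Fin.cons (x + x') y : Fin (q + 1) → Fin n → ℚ) =
      wd (Fin.cons x y : Fin (q + 1) → Fin n → ℚ) + wd (Fin.cons x' y : Fin (q + 1) → Fin n → ℚ) := by
  funext σ
  rw [Pi.add_apply, vu_key, vu_key, vu_key, ← Finset.sum_add_distrib]
  refine Finset.sum_congr rfl fun j _ => ?_
  rw [Pi.add_apply]
  ring

private theorem vu_wd_smul {n q : ℕ} (c : ℚ) (x : Fin n → ℚ) (y : Fin q → Fin n → ℚ) :
    wd (Fin.cons (c • x) y : Fin (q + 1) → Fin n → ℚ) =
      c • wd (Fin.cons x y : Fin (q + 1) → Fin n → ℚ) := by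
  funext σ
  rw [Pi.smul_apply, vu_key, vu_key, smul_eq_mul, Finset.mul_sum]
  refine Finset.sum_congr rfl fun j _ => ?_
  rw [Pi.smul_apply, smul_eq_mul]
  ring

/-- VU: the vectors all of whose wedges are in `U`. -/
def VU {n q : ℕ} (U : Submodule ℚ (Fin (n.choose (q + 1)) → ℚ)) : Submodule ℚ (Fin n → ℚ) where
  carrier := {x | ∀ y : Fin q → Fin n → ℚ, wd (Fin.cons x y : Fin (q + 1) → Fin n → ℚ) ∈ U}
  add_mem' := by
    intro a b ha hb y
    rw [vu_wd_add]
    exact U.add_mem (ha y) (hb y)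
  zero_mem' := by
    intro y
    have h := vu_wd_smul (0 : ℚ) (0 : Fin n → ℚ) y
    rw [zero_smul, zero_smul] at h
    rw [h]
    exact U.zero_mem
  smul_mem' := by
    intro c x hx y
    rw [vu_wd_smul]
    exact U.smul_mem c (hx y)

theorem VU_ne_top {n q : ℕ} (U : Submodule ℚ (Fin (n.choose (q + 1)) → ℚ)) (hU : U ≠ ⊤) :
    VU U ≠ ⊤ := by
  intro h
  apply hU
  rw [eq_top_iff, ← wd_span (n := n) (p := q + 1), Submodule.span_le]
  rintro _ ⟨x, rfl⟩
  have h1 : x 0 ∈ VU U := by rw [h]; exact Submodule.mem_top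
  have h2 := h1 (Fin.tail x)
  rw [Fin.cons_self_tail] at h2
  exact h2

/-- VU: the span of the first `k` vectors is contained in `VU U`. -/
theorem spB_le_VU {n k q : ℕ} (hk : k + (q + 1) = n) (g : Fin n → Fin n → ℚ)
    (hg : LinearIndependent ℚ g) (τ0 : Fin (n.choose (q + 1)))
    (h0 : ∀ a : Fin (q + 1), ((el τ0 a : Fin n) : ℕ) = k + a) :
    spB g k ≤ VU (Submodule.span ℚ {Y | ∃ τ : Fin (n.choose (q + 1)), τ ≠ τ0 ∧
          Y = wd (fun a : Fin (q + 1) => g (el τ a))}) := by
  classical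
  unfold spB
  rw [Submodule.span_le]
  rintro x ⟨i, hi, rfl⟩
  intro y
  -- coordinates in the basis `g`
  have : Nonempty (Fin n) := ⟨i⟩
  let bs : Module.Basis (Fin n) ℚ (Fin n → ℚ) := basisOfLinearIndependentOfCardEqFinrank hg (by simp)
  have hbs : ∀ j, bs j = g j := fun j => by
    simp [bs]
  have hrep : ∀ z : Fin n → ℚ, z = ∑ j, bs.repr z j • g j := fun z => by
    conv_lhs => rw [← bs.sum_repr z]
    refine Finset.sum_congr rfl fun j _ => ?_
    rw [hbs]
  let c : Fin (q + 1) → Fin n → ℚ := Fin.cons (Pi.single i 1) (fun b j => bs.repr (y b) j)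
  have hc : (Fin.cons (g i) y : Fin (q + 1) → Fin n → ℚ) = fun b => ∑ j, c b j • g j := by
    funext b
    refine Fin.cases ?_ (fun b => ?_) b
    · change g i = ∑ j, (Pi.single i (1 : ℚ) : Fin n → ℚ) j • g j
      rw [Finset.sum_eq_single i]
      · simp
      · intro j _ hj
        rw [Pi.single_eq_of_ne hj, zero_smul]
      · intro h
        exact absurd (Finset.mem_univ i) h
    · change y b = ∑ j, bs.repr (y b) j • g j
      exact hrep (y b)
  rw [hc, wd_expand g c]
  refine Submodule.sum_mem _ fun τ _ => ?_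
  by_cases hτ : τ = τ0
  · have hdet : Matrix.det (fun a b : Fin (q + 1) => c b (el τ a)) = 0 := by
      refine Matrix.det_eq_zero_of_column_eq_zero (0 : Fin (q + 1)) fun a => ?_
      change (Pi.single i (1 : ℚ) : Fin n → ℚ) (el τ a) = 0
      refine Pi.single_eq_of_ne ?_ _
      intro h
      have h1 := h0 a
      rw [← hτ, h] at h1
      omega
    rw [hdet, zero_smul]
    exact Submodule.zero_mem _
  · exact Submodule.smul_mem _ _ (Submodule.subset_span ⟨τ, hτ, rfl⟩)

end Pool.Agent.SubT
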