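import Pool.Agent.SubT.P1U
import Pool.Agent.SubT.Dav
import Pool.Agent.SubT.CMin
import Pool.Agent.SubT.Gap
import Pool.Agent.SubT.VU
import Pool.Agent.SubT.Crude
import Pool.Agent.SubT.Mini

/-! Module PST. Text: team-store MP_e27144_an_pr_growth_helper66.md.
HINT: section 6: assembly. Dimension 1: SpTop. General: for p = 1..n-1 the constants of cmin, dav, p1u for MC p M. -/

namespace Pool.Agent.SubT

open scoped BigOperators ENNReal

open MeasureTheory Set Filter Topology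

/-- logarithms of constants to a large base are small -/
private theorem PST_small (X η : ℝ) (hη : 0 < η) :
    ∃ q : ℝ, 1 < q ∧ ∀ Q ≥ q, |Real.logb Q X| ≤ η := by
  refine ⟨Real.exp (|Real.log X| / η + 1), ?_, fun Q hQ => ?_⟩
  · rw [Real.one_lt_exp_iff]
    positivity
  · have hQ0 : 0 < Q := lt_of_lt_of_le (Real.exp_pos _) hQ
    have h1 : |Real.log X| / η + 1 ≤ Real.log Q := (Real.le_log_iff_exp_le hQ0).mpr hQ
    have h0 : 0 ≤ |Real.log X| / η := by positivity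
    have hl : 0 < Real.log Q := by linarith
    unfold Real.logb
    rw [abs_div, abs_of_pos hl, div_le_iff₀ hl]
    have h2 : |Real.log X| / η ≤ Real.log Q := by linarith
    rw [div_le_iff₀ hη] at h2
    linarith

/-- the part of the argument for one gap -/
private theorem PST_gap {n q k : ℕ} (hk : k + (q + 1) = n) (hk1 : 1 ≤ k)
    (M : Pl → Matrix (Fin n) (Fin n) ℚ) (hM : ∀ v, (M v).det ≠ 0)
    (c0 : Pl → Fin n → ℝ) (hc0 : ∑ v, ∑ i, c0 v i = 0) (δ : ℝ) (hδ : 0 < δ) :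
    ∃ Q0 : ℝ, 1 < Q0 ∧ ∃ TT : Finset (Submodule ℚ (Fin n → ℚ)), (∀ T ∈ TT, T ≠ ⊤) ∧
      ∀ Q ≥ Q0, ∀ g : Fin n → Fin n → ℚ,
        IsMin M (fun i => Q ^ (-(c0 0 i))) (fun v i => Q ^ (c0 v i)) g →
        (∀ i j : Fin n, i.val + 1 = k → j.val = k →
          Q ^ δ * nS M (fun i => Q ^ (-(c0 0 i))) (g i) ≤
            nS M (fun i => Q ^ (-(c0 0 i))) (g j)) →
        ∃ T ∈ TT, spB g k ≤ T := by
  classical
  have hp : 1 ≤ q + 1 := by omega
  have hpn : q + 1 < n := by omega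
  have hkn : n - (q + 1) = k := by omega
  set N : ℕ := n.choose (q + 1) with hNdef
  have hN : 2 ≤ N := by
    obtain ⟨n', rfl⟩ : ∃ n', n = n' + 1 := ⟨n - 1, by omega⟩
    rw [hNdef, Nat.choose_succ_succ]
    have h1 : 0 < n'.choose q := Nat.choose_pos (by omega)
    have h2 : 0 < n'.choose q.succ := Nat.choose_pos (by omega)
    omega
  have hM' : ∀ v, (MC (q + 1) M v).det ≠ 0 := fun v => cmp_det_ne_zero (q + 1) (M v) (hM v)
  set f : ℝ := ((q + 1).factorial : ℝ) with hf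
  have hf1 : 1 ≤ f := by
    rw [hf]
    exact_mod_cast Nat.one_le_iff_ne_zero.mpr (Nat.factorial_ne_zero _)
  have hf0 : 0 < f := by linarith
  set P0 : ℝ := 1 / f ^ (2 * N) with hP0d
  have hP0 : 0 < P0 := by positivity
  obtain ⟨Cm, hCm1, hCm⟩ := cmin hp hpn M hM
  obtain ⟨Cd, hCd1, hCd⟩ := dav hN (MC (q + 1) M) hM' P0 hP0
  obtain ⟨cc, hcc0, hcc⟩ := crude (n := N) (by omega) (MC (q + 1) M) hM'
  obtain ⟨C2, hC20, hC2⟩ := gm2 (n := N) (by omega) (MC (q + 1) M) hM'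
  set K : ℝ := ∑ v, ∑ i, |c0 v i| with hK
  have hK0 : 0 ≤ K := Finset.sum_nonneg fun v _ => Finset.sum_nonneg fun i _ => abs_nonneg _
  have hcK : ∀ v i, |c0 v i| ≤ K := by
    intro v i
    have h1 : |c0 v i| ≤ ∑ i, |c0 v i| :=
      Finset.single_le_sum (f := fun i => |c0 v i|) (fun i _ => abs_nonneg _) (Finset.mem_univ i)
    have h2 : ∑ i, |c0 v i| ≤ K :=
      Finset.single_le_sum (f := fun v => ∑ i, |c0 v i|)
        (fun v _ => Finset.sum_nonneg fun i _ => abs_nonneg _) (Finset.mem_univ v)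
    linarith
  set p : ℝ := ((q + 1 : ℕ) : ℝ) with hpd
  have hp0 : 0 ≤ p := Nat.cast_nonneg _
  set B1 : ℝ := 3 * (p * K) + 3 with hB1
  have hpK : 0 ≤ p * K := by positivity
  set K2 : ℝ := 3 + N * B1 + p * K + B1 with hK2
  obtain ⟨q1, hq1, UU, hUU, H1⟩ := p1u hN (MC (q + 1) M) hM' K2 (δ / 2) (by linarith)
  obtain ⟨q2, hq2, H2⟩ := PST_small f 1 one_pos
  obtain ⟨q3, hq3, H3⟩ := PST_small cc 1 one_pos
  obtain ⟨q4, hq4, H4⟩ := PST_small (C2 * P0) 1 one_pos
  obtain ⟨q5, hq5, H5⟩ := PST_small Cd 1 one_pos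
  obtain ⟨q6, hq6, H6⟩ := PST_small (Cd ^ N * (Cd * Cm) / P0) (δ / 2) (by linarith)
  obtain ⟨q7, hq7, H7⟩ := PST_small (Cd ^ N * (Cd * Cm)) (δ / 2) (by linarith)
  obtain ⟨q8, hq8, H8⟩ := PST_small Cm (δ / 2) (by linarith)
  obtain ⟨q9, hq9, H9⟩ := PST_small Cd (δ / 2) (by linarith)
  refine ⟨q1 + q2 + q3 + q4 + q5 + q6 + q7 + q8 + q9, by linarith, UU.image VU, ?_, ?_⟩
  · intro T hT
    obtain ⟨U, hU, rfl⟩ := Finset.mem_image.mp hT
    exact VU_ne_top U (hUU U hU)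
  intro Q hQ g hg hgap
  have hQ1 : 1 < Q := by linarith
  have hQ0 : 0 < Q := by linarith
  have hlQ : 0 < Real.log Q := Real.log_pos hQ1
  replace H1 := H1 Q (by linarith)
  replace H2 := H2 Q (by linarith)
  replace H3 := H3 Q (by linarith)
  replace H4 := H4 Q (by linarith)
  replace H5 := H5 Q (by linarith)
  replace H6 := H6 Q (by linarith)
  replace H7 := H7 Q (by linarith)
  replace H8 := H8 Q (by linarith)
  replace H9 := H9 Q (by linarith)
  set s : Fin n → ℝ := fun i => Q ^ (-(c0 0 i)) with hs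
  set t : Pl → Fin n → ℝ := fun v i => Q ^ (c0 v i) with ht
  have hspos : ∀ i, 0 < s i := fun i => Real.rpow_pos_of_pos hQ0 _
  have htpos : ∀ v i, 0 < t v i := fun v i => Real.rpow_pos_of_pos hQ0 _
  have hsCpos : ∀ σ, 0 < sC (q + 1) s σ := fun σ => Finset.prod_pos fun a _ => hspos _
  have htCpos : ∀ v σ, 0 < tC (q + 1) t v σ := fun v σ => by
    unfold tC
    have : 0 < ∏ a : Fin (q + 1), t v (el σ a) := Finset.prod_pos fun a _ => htpos _ _
    positivity
  have lgp : ∀ e : ℝ, Real.logb Q (Q ^ e) = e := fun e => Real.logb_rpow hQ0 hQ1.ne'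
  -- the normalising product is 1
  have hPi : PiW s t = 1 := by
    unfold PiW
    rw [div_eq_one_iff_eq (Finset.prod_pos fun i _ => mul_pos (htpos 1 i) (htpos 2 i)).ne']
    have h1 : ∀ i, s i = Q ^ (-(c0 0 i)) := fun _ => rfl
    have h2 : ∀ v i, t v i = Q ^ (c0 v i) := fun _ _ => rfl
    simp only [h1, h2]
    rw [← Real.rpow_sum_of_pos hQ0, Finset.prod_mul_distrib, ← Real.rpow_sum_of_pos hQ0,
      ← Real.rpow_sum_of_pos hQ0, ← Real.rpow_add hQ0]
    congr 1
    rw [Fin.sum_univ_three] at hc0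
    rw [Finset.sum_neg_distrib]
    linarith
  have hPiC : PiW (sC (q + 1) s) (tC (q + 1) t) = P0 := by
    rw [PiW_C hp hpn.le s hspos t htpos, hPi, one_pow]
  set D : ℝ := Q ^ δ with hD
  have hD0 : 0 < D := Real.rpow_pos_of_pos hQ0 _
  have lgD : Real.logb Q D = δ := lgp δ
  have hCm0 : 0 < Cm := by linarith
  have hCd0 : 0 < Cd := by linarith
  have hCmD : Cm ≤ D := by
    rw [← Real.logb_le_logb hQ1 hCm0 hD0, lgD]
    have := (abs_le.mp H8).2
    linarith
  have hCdD : Cd ≤ D / Cm := by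
    rw [← Real.logb_le_logb hQ1 hCd0 (by positivity), Real.logb_div hD0.ne' hCm0.ne', lgD]
    have h1 := (abs_le.mp H8).2
    have h2 := (abs_le.mp H9).2
    linarith
  obtain ⟨h, hh⟩ := exists_minima (n := N) (by omega) (MC (q + 1) M) hM' (sC (q + 1) s) hsCpos
    (tC (q + 1) t) htCpos
  obtain ⟨τ0, hτ0⟩ := exists_top hk
  obtain ⟨hU, hgap'⟩ := hCm s t hspos htpos hPi g hg D hCmD (by
    intro i j hi hj
    rw [hkn] at hi hj
    exact hgap i j hi hj) h hh τ0 (by
    intro a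
    rw [hkn]
    exact hτ0 a)
  have hN2 : N - 2 < N := by omega
  have hN1 : N - 1 < N := by omega
  have hN0 : 0 < N := by omega
  set ν : Fin N → ℝ := fun j => nS (MC (q + 1) M) (sC (q + 1) s) (h j) with hν
  have hne : ∀ j, h j ≠ 0 := fun j => hh.indep.ne_zero j
  have hνpos : ∀ j, 0 < ν j := fun j => nS_pos (MC (q + 1) M) hM' _ hsCpos _ (hne j)
  obtain ⟨θ, s2, hθ, hs2, hθN, hPi2, -, hs2b, ⟨F, hFind, hF⟩, hout⟩ :=
    hCd (sC (q + 1) s) (tC (q + 1) t) hsCpos htCpos hPiC h hh (D / Cm) hCdD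
      (hgap' ⟨N - 2, hN2⟩ ⟨N - 1, hN1⟩ (by simp only; omega) (by simp only; omega))
  -- logarithms
  have lgs : ∀ σ, |Real.logb Q (sC (q + 1) s σ)| ≤ p * K := by
    intro σ
    have h1 : Real.logb Q (sC (q + 1) s σ) = ∑ a : Fin (q + 1), -(c0 0 (el σ a)) := by
      unfold sC
      rw [Real.logb_prod _ _ fun a _ => (hspos _).ne']
      exact Finset.sum_congr rfl fun a _ => lgp _
    rw [h1]
    refine (Finset.abs_sum_le_sum_abs _ _).trans ?_
    refine (Finset.sum_le_sum (g := fun _ => K) fun a _ => ?_).trans ?_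
    · rw [abs_neg]; exact hcK _ _
    · rw [Finset.sum_const, Finset.card_univ, Fintype.card_fin, nsmul_eq_mul]
  have lgt : ∀ v σ, |Real.logb Q (tC (q + 1) t v σ)| ≤ 1 + p * K := by
    intro v σ
    have h1 : Real.logb Q (tC (q + 1) t v σ)
        = Real.logb Q f + ∑ a : Fin (q + 1), c0 v (el σ a) := by
      unfold tC
      have h0 : 0 < ∏ a : Fin (q + 1), t v (el σ a) := Finset.prod_pos fun a _ => htpos _ _
      rw [Real.logb_mul hf0.ne' h0.ne', Real.logb_prod _ _ fun a _ => (htpos _ _).ne']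
      congr 1
      exact Finset.sum_congr rfl fun a _ => lgp _
    rw [h1]
    refine (abs_add_le _ _).trans (add_le_add H2 ?_)
    refine (Finset.abs_sum_le_sum_abs _ _).trans ?_
    refine (Finset.sum_le_sum (g := fun _ => K) fun a _ => hcK _ _).trans ?_
    rw [Finset.sum_const, Finset.card_univ, Fintype.card_fin, nsmul_eq_mul]
  have lgν : ∀ j, -B1 ≤ Real.logb Q (ν j) := by
    intro j
    have h1 := hcc (sC (q + 1) s) (tC (q + 1) t) (Q ^ (-(p * K))) (Q ^ (1 + p * K))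
      (Real.rpow_pos_of_pos hQ0 _) (Real.rpow_pos_of_pos hQ0 _) (fun i => by
        rw [← Real.le_logb_iff_rpow_le hQ1 (hsCpos i)]
        exact (abs_le.mp (lgs i)).1) htCpos (fun v i _ => by
        rw [← Real.logb_le_iff_le_rpow hQ1 (htCpos v i)]
        exact (abs_le.mp (lgt v i)).2) (h j) (hh.mem j) (hne j)
    have h2 : 0 < cc * Q ^ (-(p * K)) := mul_pos hcc0 (Real.rpow_pos_of_pos hQ0 _)
    have h3 := Real.logb_le_logb_of_le hQ1 h2 h1
    rw [Real.logb_mul hcc0.ne' (Real.rpow_pos_of_pos hQ0 _).ne', lgp,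
      Real.logb_mul (pow_pos (Real.rpow_pos_of_pos hQ0 _) 2).ne' (hνpos j).ne',
      Real.logb_pow, lgp] at h3
    have h4 := (abs_le.mp H3).1
    rw [hB1]
    push_cast at h3
    linarith
  have hB10 : 0 ≤ B1 := by rw [hB1]; linarith
  have lgνN : Real.logb Q (ν ⟨N - 1, hN1⟩) ≤ 1 + N * B1 := by
    have h1 := hC2 (sC (q + 1) s) (tC (q + 1) t) hsCpos htCpos h hh
    rw [hPiC] at h1
    have h2 : 0 < ∏ j, ν j := Finset.prod_pos fun j _ => hνpos j
    have h3 := Real.logb_le_logb_of_le hQ1 h2 h1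
    rw [Real.logb_prod _ _ fun j _ => (hνpos j).ne',
      ← Finset.add_sum_erase Finset.univ _ (Finset.mem_univ (⟨N - 1, hN1⟩ : Fin N))] at h3
    have h4 : -((N : ℝ) * B1) ≤ ∑ j ∈ Finset.univ.erase (⟨N - 1, hN1⟩ : Fin N),
        Real.logb Q (ν j) := by
      have h5 : ∑ j ∈ Finset.univ.erase (⟨N - 1, hN1⟩ : Fin N), (-B1)
          ≤ ∑ j ∈ Finset.univ.erase (⟨N - 1, hN1⟩ : Fin N), Real.logb Q (ν j) :=
        Finset.sum_le_sum fun j _ => lgν j
      rw [Finset.sum_const, Finset.card_erase_of_mem (Finset.mem_univ _), Finset.card_univ,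
        Fintype.card_fin, nsmul_eq_mul] at h5
      have h6 : ((N - 1 : ℕ) : ℝ) ≤ N := by exact_mod_cast Nat.sub_le N 1
      nlinarith
    have h7 := (abs_le.mp H4).2
    linarith
  -- the exponents
  set c2 : Pl → Fin N → ℝ := fun v i =>
    if v = 0 then Real.logb Q (Cd * θ / s2 i) else Real.logb Q (tC (q + 1) t v i) with hc2
  have hs2lo : ∀ i, Real.logb Q θ - Real.logb Q (ν ⟨N - 1, hN1⟩) + Real.logb Q (sC (q + 1) s i)
      ≤ Real.logb Q (s2 i) := by
    intro i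
    have h1 := (hs2b i).1
    have h2 : 0 < θ / ν ⟨N - 1, hN1⟩ * sC (q + 1) s i :=
      mul_pos (div_pos hθ (hνpos _)) (hsCpos i)
    have h3 := Real.logb_le_logb_of_le hQ1 h2 h1
    rw [Real.logb_mul (div_pos hθ (hνpos _)).ne' (hsCpos i).ne',
      Real.logb_div hθ.ne' (hνpos _).ne'] at h3
    exact h3
  have hs2hi : ∀ i, Real.logb Q (s2 i)
      ≤ Real.logb Q θ - Real.logb Q (ν ⟨0, hN0⟩) + Real.logb Q (sC (q + 1) s i) := by
    intro i
    have h1 := (hs2b i).2
    have h3 := Real.logb_le_logb_of_le hQ1 (hs2 i) h1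
    rw [Real.logb_mul (div_pos hθ (nS_pos (MC (q + 1) M) hM' _ hsCpos _ (hne _))).ne'
      (hsCpos i).ne', Real.logb_div hθ.ne'
      (nS_pos (MC (q + 1) M) hM' _ hsCpos _ (hne _)).ne'] at h3
    exact h3
  have lgc : ∀ i, Real.logb Q (Cd * θ / s2 i)
      = Real.logb Q Cd + Real.logb Q θ - Real.logb Q (s2 i) := by
    intro i
    rw [Real.logb_div (mul_pos hCd0 hθ).ne' (hs2 i).ne', Real.logb_mul hCd0.ne' hθ.ne']
  have hNB : 0 ≤ (N : ℝ) * B1 := by positivity
  have hc2K : ∀ v i, |c2 v i| ≤ K2 := by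
    intro v i
    by_cases hv : v = 0
    · have h1 : c2 v i = Real.logb Q (Cd * θ / s2 i) := by rw [hc2]; simp only [hv, if_true]
      rw [h1, lgc, abs_le]
      have h2 := hs2lo i
      have h3 := hs2hi i
      have h4 := abs_le.mp (lgs i)
      have h5 := lgν ⟨0, hN0⟩
      have h6 := abs_le.mp H5
      constructor
      · rw [hK2]; linarith
      · rw [hK2]; linarith
    · have h1 : c2 v i = Real.logb Q (tC (q + 1) t v i) := by
        rw [hc2]; simp only [hv, if_false]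
      rw [h1]
      refine (lgt v i).trans ?_
      rw [hK2]; linarith
  have hsum : ∑ v, ∑ i, c2 v i ≤ -(δ / 2) := by
    have h1 : ∑ v, ∑ i, c2 v i = Real.logb Q ((Cd * θ) ^ N / P0) := by
      rw [Fin.sum_univ_three]
      have e0 : ∀ i, c2 0 i = Real.logb Q (Cd * θ) - Real.logb Q (s2 i) := by
        intro i
        rw [hc2]
        simp only [if_true]
        rw [Real.logb_div (mul_pos hCd0 hθ).ne' (hs2 i).ne']
      have e1 : ∀ i, c2 1 i = Real.logb Q (tC (q + 1) t 1 i) := by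
        intro i
        rw [hc2]
        simp
      have e2 : ∀ i, c2 2 i = Real.logb Q (tC (q + 1) t 2 i) := by
        intro i
        rw [hc2]
        simp
      simp only [e0, e1, e2]
      rw [Finset.sum_sub_distrib, Finset.sum_const, Finset.card_univ, Fintype.card_fin,
        nsmul_eq_mul, ← hPi2]
      unfold PiW
      have ps : 0 < ∏ i, s2 i := Finset.prod_pos fun i _ => hs2 i
      have pt1 : 0 < ∏ i, tC (q + 1) t 1 i := Finset.prod_pos fun i _ => htCpos 1 i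
      have pt2 : 0 < ∏ i, tC (q + 1) t 2 i := Finset.prod_pos fun i _ => htCpos 2 i
      rw [Finset.prod_mul_distrib, Real.logb_div (pow_pos (mul_pos hCd0 hθ) N).ne'
        (div_pos ps (mul_pos pt1 pt2)).ne', Real.logb_pow, Real.logb_div ps.ne'
        (mul_pos pt1 pt2).ne', Real.logb_mul pt1.ne' pt2.ne',
        Real.logb_prod _ _ fun i _ => (hs2 i).ne', Real.logb_prod _ _ fun i _ => (htCpos 1 i).ne',
        Real.logb_prod _ _ fun i _ => (htCpos 2 i).ne']
      ring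
    rw [h1]
    have h2 : (Cd * θ) ^ N / P0 ≤ Cd ^ N * (Cd * Cm) / P0 / D := by
      rw [mul_pow, div_div, mul_comm P0 D, ← div_div]
      gcongr
      rw [mul_div_assoc]
      gcongr
      refine hθN.trans (le_of_eq ?_)
      rw [div_div_eq_mul_div]
    have h3 : 0 < (Cd * θ) ^ N / P0 := by positivity
    have h4 := Real.logb_le_logb_of_le hQ1 h3 h2
    rw [Real.logb_div (show Cd ^ N * (Cd * Cm) / P0 ≠ 0 by positivity) hD0.ne', lgD] at h4
    have h5 := (abs_le.mp H6).2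
    linarith
  have hCdθ : Cd * θ ≤ 1 := by
    have h2 : (Cd * θ) ^ N ≤ Cd ^ N * (Cd * Cm) / D := by
      rw [mul_pow, mul_div_assoc]
      gcongr
      refine hθN.trans (le_of_eq ?_)
      rw [div_div_eq_mul_div]
    have h3 : Cd ^ N * (Cd * Cm) / D ≤ 1 := by
      rw [div_le_one hD0, ← Real.logb_le_logb hQ1 (by positivity) hD0, lgD]
      have h5 := (abs_le.mp H7).2
      linarith
    exact (pow_le_one_iff_of_nonneg (by positivity) (by omega)).mp (h2.trans h3)
  -- the span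
  have hFsol : ∀ j, F j ∈ Sol (MC (q + 1) M) c2 Q := by
    intro j
    obtain ⟨hF1, hF2⟩ := hF j
    refine ⟨hF1.1, fun v i => ?_⟩
    by_cases hv : v = 0
    · have h1 : c2 v i = Real.logb Q (Cd * θ / s2 i) := by rw [hc2]; simp only [hv, if_true]
      rw [h1, Real.rpow_logb hQ0 hQ1.ne' (by have := hs2 i; positivity), hv,
        le_div_iff₀ (hs2 i), mul_comm]
      exact (le_nS (MC (q + 1) M) s2 (F j) i).trans hF2
    · have h1 : c2 v i = Real.logb Q (tC (q + 1) t v i) := by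
        rw [hc2]; simp only [hv, if_false]
      rw [h1, Real.rpow_logb hQ0 hQ1.ne' (htCpos v i)]
      exact hF1.2 v hv i
  have hFU : Submodule.span ℚ (Set.range F) ≤ spB h (N - 1) := by
    rw [Submodule.span_le]
    rintro _ ⟨j, rfl⟩
    exact hout (F j) (hF j).1 ((hF j).2.trans hCdθ)
  have hUfin : Module.finrank ℚ (spB h (N - 1)) = N - 1 := by
    have h1 : spB h (N - 1) = Submodule.span ℚ
        (Set.range fun i : Fin (N - 1) => h ⟨i.val, by omega⟩) := by
      unfold spB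
      congr 1
      ext x
      constructor
      · rintro ⟨i, hi, rfl⟩
        exact ⟨⟨i.val, hi⟩, rfl⟩
      · rintro ⟨i, rfl⟩
        exact ⟨⟨i.val, by omega⟩, i.isLt, rfl⟩
    rw [h1, finrank_span_eq_card]
    · simp
    · exact hh.indep.comp (fun i : Fin (N - 1) => (⟨i.val, by omega⟩ : Fin N)) (by
        intro a b hab
        simp only [Fin.mk.injEq] at hab
        exact Fin.ext hab)
  have hFfin : Module.finrank ℚ (Submodule.span ℚ (Set.range F)) = N - 1 := by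
    rw [finrank_span_eq_card hFind]
    simp
  have hEq : Submodule.span ℚ (Set.range F) = spB h (N - 1) :=
    Submodule.eq_of_le_of_finrank_le hFU (by rw [hFfin, hUfin])
  have hmem : spB h (N - 1) ∈ UU := by
    refine H1 c2 hc2K hsum (spB h (N - 1)) ?_ hUfin
    rw [← hEq, Submodule.span_le]
    rintro _ ⟨j, rfl⟩
    exact Submodule.subset_span (hFsol j)
  refine ⟨VU (spB h (N - 1)), Finset.mem_image_of_mem _ hmem, ?_⟩
  rw [hU]
  exact spB_le_VU hk g hg.indep τ0 hτ0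

/-- PST: the parametric Subspace theorem. -/
theorem pst {n : ℕ} (M : Pl → Matrix (Fin n) (Fin n) ℚ) (hM : ∀ v, (M v).det ≠ 0)
    (c : Pl → Fin n → ℝ) (hc : ∑ v, ∑ i, c v i < 0) :
    ∃ Q0 : ℝ, 1 < Q0 ∧ ∃ TT : Finset (Submodule ℚ (Fin n → ℚ)), (∀ T ∈ TT, T ≠ ⊤) ∧
      ∀ Q ≥ Q0, ∃ T ∈ TT, Sol M c Q ⊆ (T : Set (Fin n → ℚ)) := by
  classical
  have hn1 : 1 ≤ n := by
    by_contra h
    have h0 : n = 0 := by omega
    subst h0
    simp at hc
  have hbot : (⊥ : Submodule ℚ (Fin n → ℚ)) ≠ ⊤ := by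
    intro h
    have h1 : Module.finrank ℚ (⊥ : Submodule ℚ (Fin n → ℚ)) = n := by
      rw [h, finrank_top]; simp
    rw [finrank_bot] at h1
    omega
  have hn0 : (0 : ℝ) < n := by exact_mod_cast hn1
  set Δ : ℝ := -∑ v, ∑ i, c v i with hΔ
  have hΔ0 : 0 < Δ := by rw [hΔ]; linarith
  set δ : ℝ := Δ / n with hδ
  have hδ0 : 0 < δ := by positivity
  set δ' : ℝ := δ / n with hδ'
  have hδ'0 : 0 < δ' := by positivity
  set c0 : Pl → Fin n → ℝ := fun v i => if v = 0 then c v i + δ else c v i with hc0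
  have hc0sum : ∑ v, ∑ i, c0 v i = 0 := by
    rw [Fin.sum_univ_three]
    have e0 : ∀ i, c0 0 i = c 0 i + δ := fun i => by rw [hc0]; simp
    have e1 : ∀ i, c0 1 i = c 1 i := fun i => by rw [hc0]; simp
    have e2 : ∀ i, c0 2 i = c 2 i := fun i => by rw [hc0]; simp
    simp only [e0, e1, e2]
    rw [Finset.sum_add_distrib, Finset.sum_const, Finset.card_univ, Fintype.card_fin,
      nsmul_eq_mul]
    have h1 : (n : ℝ) * δ = Δ := by rw [hδ]; field_simp
    rw [h1, hΔ, Fin.sum_univ_three]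
    ring
  have HA : ∀ q : ℕ, ∃ Q0 : ℝ, 1 < Q0 ∧ ∃ TT : Finset (Submodule ℚ (Fin n → ℚ)),
      (∀ T ∈ TT, T ≠ ⊤) ∧ (q + 1 < n → ∀ Q ≥ Q0, ∀ g : Fin n → Fin n → ℚ,
        IsMin M (fun i => Q ^ (-(c0 0 i))) (fun v i => Q ^ (c0 v i)) g →
        (∀ i j : Fin n, i.val + 1 = n - (q + 1) → j.val = n - (q + 1) →
          Q ^ δ' * nS M (fun i => Q ^ (-(c0 0 i))) (g i) ≤
            nS M (fun i => Q ^ (-(c0 0 i))) (g j)) →
        ∃ T ∈ TT, spB g (n - (q + 1)) ≤ T) := by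
    intro q
    by_cases hq : q + 1 < n
    · obtain ⟨Q0, hQ0, TT, hTT, H⟩ := PST_gap (n := n) (q := q) (k := n - (q + 1)) (by omega)
        (by omega) M hM c0 hc0sum δ' hδ'0
      exact ⟨Q0, hQ0, TT, hTT, fun _ => H⟩
    · exact ⟨2, by norm_num, ∅, by simp, fun h => absurd h hq⟩
  choose qq hqq TT hTT HTT using HA
  obtain ⟨c1, hc10, hc1⟩ := gm1 hn1 M hM
  obtain ⟨q1, hq1, H1⟩ := PST_small c1 (δ' / 2) (by linarith)
  have hnn : 0 ≤ ∑ q ∈ Finset.range n, qq q := Finset.sum_nonneg fun q _ => by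
    have := hqq q; linarith
  refine ⟨q1 + ∑ q ∈ Finset.range n, qq q, by linarith,
    insert ⊥ ((Finset.range n).biUnion TT), ?_, ?_⟩
  · intro T hT
    rcases Finset.mem_insert.mp hT with rfl | hT
    · exact hbot
    · obtain ⟨q, _, hq⟩ := Finset.mem_biUnion.mp hT
      exact hTT q T hq
  intro Q hQ
  have hQ1 : 1 < Q := by linarith
  have hQ0 : 0 < Q := by linarith
  replace H1 := H1 Q (by linarith)
  set s : Fin n → ℝ := fun i => Q ^ (-(c0 0 i)) with hs
  set t : Pl → Fin n → ℝ := fun v i => Q ^ (c0 v i) with ht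
  have hspos : ∀ i, 0 < s i := fun i => Real.rpow_pos_of_pos hQ0 _
  have htpos : ∀ v i, 0 < t v i := fun v i => Real.rpow_pos_of_pos hQ0 _
  have hPi : PiW s t = 1 := by
    unfold PiW
    rw [div_eq_one_iff_eq (Finset.prod_pos fun i _ => mul_pos (htpos 1 i) (htpos 2 i)).ne']
    have h1 : ∀ i, s i = Q ^ (-(c0 0 i)) := fun _ => rfl
    have h2 : ∀ v i, t v i = Q ^ (c0 v i) := fun _ _ => rfl
    simp only [h1, h2]
    rw [← Real.rpow_sum_of_pos hQ0, Finset.prod_mul_distrib, ← Real.rpow_sum_of_pos hQ0,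
      ← Real.rpow_sum_of_pos hQ0, ← Real.rpow_add hQ0]
    congr 1
    have h3 := hc0sum
    rw [Fin.sum_univ_three] at h3
    rw [Finset.sum_neg_distrib]
    linarith
  obtain ⟨g, hg⟩ := exists_minima hn1 M hM s hspos t htpos
  have hne : ∀ j, g j ≠ 0 := fun j => hg.indep.ne_zero j
  have hpos : ∀ j, 0 < nS M s (g j) := fun j => nS_pos M hM s hspos _ (hne j)
  -- solutions are short vectors of the lattice
  have hsol : ∀ x ∈ Sol M c Q, x ∈ Gam M t ∧ nS M s x ≤ Q ^ (-δ) := by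
    rintro x ⟨hx1, hx2⟩
    refine ⟨⟨hx1, fun v hv i => ?_⟩, nS_le hn1 M s x _ fun i => ?_⟩
    · have h1 : c0 v i = c v i := by rw [hc0]; simp only [hv, if_false]
      change av v (lin M v i x) ≤ Q ^ (c0 v i)
      rw [h1]
      exact hx2 v i
    · have h1 : c0 0 i = c 0 i + δ := by rw [hc0]; simp
      change Q ^ (-(c0 0 i)) * av 0 (lin M 0 i x) ≤ _
      calc Q ^ (-(c0 0 i)) * av 0 (lin M 0 i x) ≤ Q ^ (-(c0 0 i)) * Q ^ (c 0 i) :=
            mul_le_mul_of_nonneg_left (hx2 0 i) (Real.rpow_nonneg hQ0.le _)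
        _ = Q ^ (-δ) := by
            rw [← Real.rpow_add hQ0, h1]
            congr 1
            ring
  set D : ℝ := Q ^ δ' with hD
  have hD0 : 0 < D := Real.rpow_pos_of_pos hQ0 _
  have hD1 : 1 < D := Real.one_lt_rpow hQ1 hδ'0
  have hDn : (D ^ n)⁻¹ = Q ^ (-δ) := by
    rw [hD, ← Real.rpow_natCast, ← Real.rpow_mul hQ0.le, ← Real.rpow_neg hQ0.le]
    congr 1
    rw [hδ']
    field_simp
  by_cases h0 : ∃ i, nS M s (g i) ≤ (D ^ n)⁻¹
  · have hprod : (D ^ (n * (n + 1) / 2))⁻¹ < ∏ i, nS M s (g i) := by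
      have h1 := hc1 s t hspos htpos g hg.indep hg.mem
      rw [hPi, mul_one] at h1
      refine lt_of_lt_of_le ?_ h1
      have h2 : 1 ≤ n * (n + 1) / 2 := by
        rw [Nat.le_div_iff_mul_le (by norm_num)]
        nlinarith
      have h3 : D ≤ D ^ (n * (n + 1) / 2) := le_self_pow₀ hD1.le (by omega)
      have h4 : (D ^ (n * (n + 1) / 2))⁻¹ ≤ D⁻¹ := inv_anti₀ hD0 h3
      refine lt_of_le_of_lt h4 ?_
      have h5 : D⁻¹ = Q ^ (-δ') := by rw [hD, Real.rpow_neg hQ0.le]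
      rw [h5, ← Real.lt_logb_iff_rpow_lt hQ1 hc10]
      have := (abs_le.mp H1).1
      linarith
    obtain ⟨k, hk1, hkn, hk2, hk3⟩ := exists_gap (fun j => nS M s (g j)) hpos hg.mono D hD1
      hprod h0
    obtain ⟨q, hq⟩ : ∃ q, k = n - (q + 1) ∧ q + 1 < n := ⟨n - k - 1, by omega, by omega⟩
    have hqQ : qq q ≤ Q := by
      have := Finset.single_le_sum (f := qq) (fun q _ => by
        have := hqq q; linarith) (Finset.mem_range.mpr (show q < n by omega))
      linarith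
    obtain ⟨T, hT, hT'⟩ := HTT q hq.2 Q hqQ g hg (by
      intro i j hi hj
      rw [← hq.1] at hi hj
      exact hk3 i j hi hj)
    refine ⟨T, Finset.mem_insert_of_mem (Finset.mem_biUnion.mpr
      ⟨q, Finset.mem_range.mpr (by omega), hT⟩), ?_⟩
    intro x hx
    obtain ⟨hx1, hx2⟩ := hsol x hx
    apply hT'
    rw [← hq.1]
    refine hg.mem_of_lt ⟨k, hkn⟩ hx1 (lt_of_le_of_lt hx2 ?_)
    rw [← hDn]
    by_contra hcon
    push Not at hcon
    exact absurd (hk2 ⟨k, hkn⟩ hcon) (lt_irrefl _)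
  · push Not at h0
    refine ⟨⊥, Finset.mem_insert_self _ _, ?_⟩
    intro x hx
    obtain ⟨hx1, hx2⟩ := hsol x hx
    have h1 : x ∈ spB g 0 := by
      refine hg.mem_of_lt ⟨0, by omega⟩ hx1 (lt_of_le_of_lt hx2 ?_)
      rw [← hDn]
      exact h0 _
    have h2 : spB g 0 = ⊥ := by
      unfold spB
      rw [Submodule.span_eq_bot]
      rintro y ⟨i, hi, _⟩
      exact absurd hi (Nat.not_lt_zero _)
    rw [h2] at h1
    exact h1

end Pool.Agent.SubT
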