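import Pool.Agent.SubT.Defs

/-! Module PLACE: absolute values and the product formula. -/

namespace Pool.Agent.SubT

open scoped BigOperators

theorem PLACE_one (x : ℚ) : av 1 x = ((padicNorm 2 x : ℚ) : ℝ) := by
  unfold av
  rw [if_neg (by decide), if_pos rfl]

theorem PLACE_two (x : ℚ) : av 2 x = ((padicNorm 3 x : ℚ) : ℝ) := by
  unfold av
  rw [if_neg (by decide), if_neg (by decide)]

theorem PLACE_cases {P : Pl → Prop} (h0 : P 0) (h1 : P 1) (h2 : P 2) (v : Pl) : P v := by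
  fin_cases v
  · exact h0
  · exact h1
  · exact h2

theorem av_real (x : ℚ) : av 0 x = |(x : ℝ)| := by
  unfold av
  rw [if_pos rfl]

theorem av_nonneg (v : Pl) (x : ℚ) : 0 ≤ av v x := by
  refine PLACE_cases (P := fun v => 0 ≤ av v x) ?_ ?_ ?_ v
  · rw [av_real]; exact abs_nonneg _
  · rw [PLACE_one]; exact_mod_cast padicNorm.nonneg x
  · rw [PLACE_two]; exact_mod_cast padicNorm.nonneg x

theorem av_zero (v : Pl) : av v 0 = 0 := by
  refine PLACE_cases (P := fun v => av v 0 = 0) ?_ ?_ ?_ v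
  · rw [av_real]; simp
  · rw [PLACE_one]; simp
  · rw [PLACE_two]; simp

theorem av_one (v : Pl) : av v 1 = 1 := by
  refine PLACE_cases (P := fun v => av v 1 = 1) ?_ ?_ ?_ v
  · rw [av_real]; simp
  · rw [PLACE_one]; simp
  · rw [PLACE_two]; simp

theorem av_eq_zero (v : Pl) (x : ℚ) : av v x = 0 ↔ x = 0 := by
  constructor
  · intro h
    revert h
    refine PLACE_cases (P := fun v => av v x = 0 → x = 0) ?_ ?_ ?_ v
    · rw [av_real]
      intro h
      rw [abs_eq_zero] at h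
      exact_mod_cast h
    · rw [PLACE_one]
      intro h
      exact padicNorm.zero_of_padicNorm_eq_zero (by exact_mod_cast h)
    · rw [PLACE_two]
      intro h
      exact padicNorm.zero_of_padicNorm_eq_zero (by exact_mod_cast h)
  · rintro rfl
    exact av_zero v

theorem av_pos (v : Pl) {x : ℚ} (h : x ≠ 0) : 0 < av v x :=
  lt_of_le_of_ne (av_nonneg v x) (fun h' => h ((av_eq_zero v x).1 h'.symm))

theorem av_mul (v : Pl) (x y : ℚ) : av v (x * y) = av v x * av v y := by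
  refine PLACE_cases (P := fun v => av v (x * y) = av v x * av v y) ?_ ?_ ?_ v
  · rw [av_real, av_real, av_real, ← abs_mul]; push_cast; rfl
  · rw [PLACE_one, PLACE_one, PLACE_one, padicNorm.mul]; push_cast; rfl
  · rw [PLACE_two, PLACE_two, PLACE_two, padicNorm.mul]; push_cast; rfl

theorem av_neg (v : Pl) (x : ℚ) : av v (-x) = av v x := by
  refine PLACE_cases (P := fun v => av v (-x) = av v x) ?_ ?_ ?_ v
  · rw [av_real, av_real]; push_cast; rw [abs_neg]
  · rw [PLACE_one, PLACE_one, padicNorm.neg]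
  · rw [PLACE_two, PLACE_two, padicNorm.neg]

theorem av_sub_comm (v : Pl) (x y : ℚ) : av v (x - y) = av v (y - x) := by
  rw [← av_neg v (y - x), neg_sub]

theorem av_inv (v : Pl) (x : ℚ) : av v x⁻¹ = (av v x)⁻¹ := by
  by_cases hx : x = 0
  · subst hx
    rw [inv_zero, av_zero, inv_zero]
  · have h := av_mul v x x⁻¹
    rw [mul_inv_cancel₀ hx, av_one] at h
    exact eq_inv_of_mul_eq_one_right h.symm

theorem av_div (v : Pl) (x y : ℚ) : av v (x / y) = av v x / av v y := by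
  rw [div_eq_mul_inv, av_mul, av_inv, div_eq_mul_inv]

theorem av_pow (v : Pl) (x : ℚ) (k : ℕ) : av v (x ^ k) = av v x ^ k := by
  induction k with
  | zero => rw [pow_zero, pow_zero, av_one]
  | succ k ih => rw [pow_succ, pow_succ, av_mul, ih]

theorem av_prod (v : Pl) {α : Type*} (s : Finset α) (f : α → ℚ) :
    av v (∏ i ∈ s, f i) = ∏ i ∈ s, av v (f i) := by
  classical
  induction s using Finset.induction_on with
  | empty => simp [av_one]
  | insert a s ha ih => rw [Finset.prod_insert ha, Finset.prod_insert ha, av_mul, ih]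

/-- ultrametric inequality at the finite places -/
theorem av_add_le_max {v : Pl} (hv : v ≠ 0) (x y : ℚ) : av v (x + y) ≤ max (av v x) (av v y) := by
  revert hv
  refine PLACE_cases (P := fun v => v ≠ 0 → av v (x + y) ≤ max (av v x) (av v y)) ?_ ?_ ?_ v
  · exact fun h => absurd rfl h
  · intro _
    rw [PLACE_one, PLACE_one, PLACE_one]
    exact_mod_cast padicNorm.nonarchimedean
  · intro _
    rw [PLACE_two, PLACE_two, PLACE_two]
    exact_mod_cast padicNorm.nonarchimedean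

theorem av_add_le (v : Pl) (x y : ℚ) : av v (x + y) ≤ av v x + av v y := by
  by_cases hv : v = 0
  · subst hv
    rw [av_real, av_real, av_real]
    push_cast
    exact abs_add_le _ _
  · refine (av_add_le_max hv x y).trans (max_le ?_ ?_)
    · linarith [av_nonneg v y]
    · linarith [av_nonneg v x]

theorem av_sub_le (v : Pl) (x y : ℚ) : av v (x - y) ≤ av v x + av v y := by
  rw [sub_eq_add_neg, ← av_neg v y]
  exact av_add_le v x (-y)

theorem av_sum_le (v : Pl) {α : Type*} (s : Finset α) (f : α → ℚ) :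
    av v (∑ i ∈ s, f i) ≤ ∑ i ∈ s, av v (f i) := by
  classical
  induction s using Finset.induction_on with
  | empty => simp [av_zero]
  | insert a s ha ih =>
    rw [Finset.sum_insert ha, Finset.sum_insert ha]
    exact (av_add_le v _ _).trans (by linarith)

theorem av_int_le_one {v : Pl} (hv : v ≠ 0) (z : ℤ) : av v (z : ℚ) ≤ 1 := by
  revert hv
  refine PLACE_cases (P := fun v => v ≠ 0 → av v (z : ℚ) ≤ 1) ?_ ?_ ?_ v
  · exact fun h => absurd rfl h
  · intro _
    rw [PLACE_one]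
    exact_mod_cast padicNorm.of_int z
  · intro _
    rw [PLACE_two]
    exact_mod_cast padicNorm.of_int z

theorem av_int_le (v : Pl) (z : ℤ) : av v (z : ℚ) ≤ max 1 |(z : ℝ)| := by
  by_cases hv : v = 0
  · subst hv
    rw [av_real]
    refine le_trans (le_of_eq ?_) (le_max_right _ _)
    norm_num
  · exact (av_int_le_one hv z).trans (le_max_left _ _)

/-- the `p`-adic norm of an integer is the inverse of a power of `p` which divides it -/
theorem PLACE_norm_int (p : ℕ) [Fact p.Prime] {z : ℤ} (hz : z ≠ 0) :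
    ∃ n : ℕ, (p : ℤ) ^ n ∣ z ∧ (padicNorm p (z : ℚ) : ℚ) = ((p : ℚ) ^ n)⁻¹ := by
  refine ⟨padicValInt p z, padicValInt_dvd z, ?_⟩
  have hz' : (z : ℚ) ≠ 0 := by exact_mod_cast hz
  rw [padicNorm.eq_zpow_of_nonzero hz', padicValRat.of_int, zpow_neg]
  norm_cast

theorem PLACE_abs_ge {z : ℤ} (hz : z ≠ 0) : (1 : ℝ) ≤ |(z : ℝ)| := by
  have h : (1 : ℤ) ≤ |z| := Int.one_le_abs hz
  exact_mod_cast h

theorem PLACE_norm_ge (p : ℕ) [Fact p.Prime] {z : ℤ} (hz : z ≠ 0) :
    1 / |(z : ℝ)| ≤ ((padicNorm p (z : ℚ) : ℚ) : ℝ) := by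
  obtain ⟨n, hn, he⟩ := PLACE_norm_int p hz
  rw [he]
  have h1 : (p : ℤ) ^ n ≤ |z| := Int.le_of_dvd (abs_pos.2 hz) ((dvd_abs _ _).2 hn)
  have h2 : (p : ℝ) ^ n ≤ |(z : ℝ)| := by exact_mod_cast h1
  have h3 : (0 : ℝ) < (p : ℝ) ^ n := by
    have : 0 < p := (Fact.out : p.Prime).pos
    positivity
  push_cast
  rw [one_div]
  exact inv_anti₀ h3 h2

theorem av_int_ge (v : Pl) {z : ℤ} (hz : z ≠ 0) : 1 / |(z : ℝ)| ≤ av v (z : ℚ) := by
  refine PLACE_cases (P := fun v => 1 / |(z : ℝ)| ≤ av v (z : ℚ)) ?_ ?_ ?_ v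
  · rw [av_real]
    have h1 := PLACE_abs_ge hz
    have h2 : 1 / |(z : ℝ)| ≤ 1 := (div_le_one (by linarith)).2 h1
    have h3 : (((z : ℚ)) : ℝ) = (z : ℝ) := by norm_num
    rw [h3]
    linarith
  · rw [PLACE_one]; exact PLACE_norm_ge 2 hz
  · rw [PLACE_two]; exact PLACE_norm_ge 3 hz

theorem PLACE_sign (v : Pl) (u : ℤˣ) (x : ℚ) : av v (u • x) = av v x := by
  rcases Int.units_eq_one_or u with rfl | rfl
  · rw [one_smul]
  · rw [Units.neg_smul, one_smul, av_neg]

/-- `|det A|_v ≤ k! * prod of row bounds` -/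
theorem av_det_le (v : Pl) {k : ℕ} (A : Matrix (Fin k) (Fin k) ℚ) (B : Fin k → ℝ)
    (h : ∀ i j, av v (A i j) ≤ B i) : av v A.det ≤ k.factorial * ∏ i, B i := by
  rw [Matrix.det_apply]
  refine (av_sum_le v _ _).trans ?_
  have h1 : ∀ σ : Equiv.Perm (Fin k),
      av v (Equiv.Perm.sign σ • ∏ i, A (σ i) i) ≤ ∏ i, B i := by
    intro σ
    rw [PLACE_sign, av_prod]
    rw [← Equiv.prod_comp σ B]
    exact Finset.prod_le_prod (fun i _ => av_nonneg v _) (fun i _ => h _ _)
  refine (Finset.sum_le_sum fun σ _ => h1 σ).trans ?_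
  rw [Finset.sum_const, Finset.card_univ, Fintype.card_perm, Fintype.card_fin, nsmul_eq_mul]

theorem inR_int (z : ℤ) : InR (z : ℚ) := ⟨0, z, by simp⟩

theorem inR_zero : InR 0 := ⟨0, 0, by simp⟩

theorem inR_one : InR 1 := ⟨0, 1, by simp⟩

theorem inR_add {x y : ℚ} (hx : InR x) (hy : InR y) : InR (x + y) := by
  obtain ⟨k, a, ha⟩ := hx
  obtain ⟨l, b, hb⟩ := hy
  refine ⟨k + l, 6 ^ l * a + 6 ^ k * b, ?_⟩
  push_cast
  rw [← ha, ← hb]
  ring

theorem inR_neg {x : ℚ} (hx : InR x) : InR (-x) := by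
  obtain ⟨k, a, ha⟩ := hx
  refine ⟨k, -a, ?_⟩
  push_cast
  rw [← ha]
  ring

theorem inR_sub {x y : ℚ} (hx : InR x) (hy : InR y) : InR (x - y) := by
  rw [sub_eq_add_neg]
  exact inR_add hx (inR_neg hy)

theorem inR_mul {x y : ℚ} (hx : InR x) (hy : InR y) : InR (x * y) := by
  obtain ⟨k, a, ha⟩ := hx
  obtain ⟨l, b, hb⟩ := hy
  refine ⟨k + l, a * b, ?_⟩
  push_cast
  rw [← ha, ← hb]
  ring

theorem inR_pow {x : ℚ} (hx : InR x) (k : ℕ) : InR (x ^ k) := by
  induction k with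
  | zero => rw [pow_zero]; exact inR_one
  | succ k ih => rw [pow_succ]; exact inR_mul ih hx

theorem inR_sum {α : Type*} (s : Finset α) (f : α → ℚ) (h : ∀ i ∈ s, InR (f i)) :
    InR (∑ i ∈ s, f i) := by
  classical
  induction s using Finset.induction_on with
  | empty => rw [Finset.sum_empty]; exact inR_zero
  | insert a s ha ih =>
    rw [Finset.sum_insert ha]
    exact inR_add (h a (Finset.mem_insert_self a s))
      (ih fun i hi => h i (Finset.mem_insert_of_mem hi))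

theorem inR_prod {α : Type*} (s : Finset α) (f : α → ℚ) (h : ∀ i ∈ s, InR (f i)) :
    InR (∏ i ∈ s, f i) := by
  classical
  induction s using Finset.induction_on with
  | empty => rw [Finset.prod_empty]; exact inR_one
  | insert a s ha ih =>
    rw [Finset.prod_insert ha]
    exact inR_mul (h a (Finset.mem_insert_self a s))
      (ih fun i hi => h i (Finset.mem_insert_of_mem hi))

theorem inR_det {k : ℕ} (A : Matrix (Fin k) (Fin k) ℚ) (h : ∀ i j, InR (A i j)) :
    InR A.det := by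
  rw [Matrix.det_apply]
  refine inR_sum _ _ fun σ _ => ?_
  rcases Int.units_eq_one_or (Equiv.Perm.sign σ) with hs | hs
  · rw [hs, one_smul]
    exact inR_prod _ _ fun i _ => h _ _
  · rw [hs, Units.neg_smul, one_smul]
    exact inR_neg (inR_prod _ _ fun i _ => h _ _)

theorem PLACE_prod (x : ℚ) : ∏ v : Pl, av v x = av 0 x * av 1 x * av 2 x := Fin.prod_univ_three _

theorem PLACE_six : av 0 6 * av 1 6 * av 2 6 = 1 := by
  have e : (6 : ℚ) = ((2 : ℕ) : ℚ) * ((3 : ℕ) : ℚ) := by norm_num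
  have h1 : padicNorm 2 (6 : ℚ) = 1 / 2 := by
    rw [e, padicNorm.mul, padicNorm.padicNorm_p (by norm_num),
      padicNorm.padicNorm_of_prime_of_ne (by norm_num)]
    norm_num
  have h2 : padicNorm 3 (6 : ℚ) = 1 / 3 := by
    rw [e, padicNorm.mul, padicNorm.padicNorm_p (by norm_num),
      padicNorm.padicNorm_of_prime_of_ne (by norm_num)]
    norm_num
  rw [av_real, PLACE_one, PLACE_two, h1, h2]
  norm_num

/-- The product formula (inequality for `Z[1/6]`). -/
theorem prod_av_ge_one {x : ℚ} (h : InR x) (h0 : x ≠ 0) : 1 ≤ ∏ v : Pl, av v x := by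
  obtain ⟨k, z, hz⟩ := h
  have h6 : (6 : ℚ) ^ k ≠ 0 := by positivity
  have hz0 : z ≠ 0 := by
    rintro rfl
    rw [Int.cast_zero] at hz
    rcases mul_eq_zero.1 hz with h | h
    · exact h6 h
    · exact h0 h
  have hprod : ∏ v : Pl, av v x = ∏ v : Pl, av v (z : ℚ) := by
    rw [← hz]
    simp only [av_mul, Finset.prod_mul_distrib]
    have h1 : ∏ v : Pl, av v ((6 : ℚ) ^ k) = 1 := by
      simp only [av_pow]
      rw [Finset.prod_pow, PLACE_prod, PLACE_six, one_pow]
    rw [h1, one_mul]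
  rw [hprod, PLACE_prod, av_real, PLACE_one, PLACE_two]
  obtain ⟨a, ha, hea⟩ := PLACE_norm_int 2 hz0
  obtain ⟨b, hb, heb⟩ := PLACE_norm_int 3 hz0
  rw [hea, heb]
  have hco : IsCoprime (((2 : ℕ) : ℤ) ^ a) (((3 : ℕ) : ℤ) ^ b) := by
    apply IsCoprime.pow
    norm_num
  have h2 : ((2 : ℕ) : ℤ) ^ a * ((3 : ℕ) : ℤ) ^ b ∣ z := hco.mul_dvd ha hb
  have h3 : ((2 : ℕ) : ℤ) ^ a * ((3 : ℕ) : ℤ) ^ b ≤ |z| :=
    Int.le_of_dvd (abs_pos.2 hz0) ((dvd_abs _ _).2 h2)
  have h4 : (2 : ℝ) ^ a * (3 : ℝ) ^ b ≤ |(z : ℝ)| := by exact_mod_cast h3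
  have e : (((z : ℚ)) : ℝ) = (z : ℝ) := by norm_num
  rw [e]
  push_cast
  have h5 : (0 : ℝ) < 2 ^ a * 3 ^ b := by positivity
  rw [mul_assoc, ← mul_inv, ← div_eq_mul_inv, le_div_iff₀ h5, one_mul]
  exact h4

/-- Some constant bounds all entries of a rational matrix at all places, from both sides. -/
theorem av_matrix_bound {k l : ℕ} (A : Pl → Matrix (Fin k) (Fin l) ℚ) :
    ∃ C : ℝ, 1 ≤ C ∧ ∀ v i j, av v (A v i j) ≤ C ∧ (A v i j ≠ 0 → C⁻¹ ≤ av v (A v i j)) := by
  have hnn : ∀ v i j, 0 ≤ av v (A v i j) + (av v (A v i j))⁻¹ := fun v i j =>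
    add_nonneg (av_nonneg _ _) (inv_nonneg.2 (av_nonneg _ _))
  refine ⟨1 + ∑ v, ∑ i, ∑ j, (av v (A v i j) + (av v (A v i j))⁻¹), ?_, ?_⟩
  · have : 0 ≤ ∑ v, ∑ i, ∑ j, (av v (A v i j) + (av v (A v i j))⁻¹) :=
      Finset.sum_nonneg fun v _ => Finset.sum_nonneg fun i _ =>
        Finset.sum_nonneg fun j _ => hnn v i j
    linarith
  · intro v i j
    have h1 : av v (A v i j) + (av v (A v i j))⁻¹ ≤
        ∑ v, ∑ i, ∑ j, (av v (A v i j) + (av v (A v i j))⁻¹) := by
      refine le_trans ?_ (Finset.single_le_sum (fun v _ => Finset.sum_nonneg fun i _ =>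
        Finset.sum_nonneg fun j _ => hnn v i j) (Finset.mem_univ v))
      refine le_trans ?_ (Finset.single_le_sum (fun i _ =>
        Finset.sum_nonneg fun j _ => hnn v i j) (Finset.mem_univ i))
      exact Finset.single_le_sum (fun j _ => hnn v i j) (Finset.mem_univ j)
    have h2 := av_nonneg v (A v i j)
    have h3 : 0 ≤ (av v (A v i j))⁻¹ := inv_nonneg.2 h2
    refine ⟨by linarith, fun h0 => ?_⟩
    have h4 := av_pos v h0
    rw [inv_le_comm₀ (by linarith) h4]
    linarith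

/-- For an invertible rational system: coordinates are bounded by the forms and conversely. -/
theorem coord_le_lin {n : ℕ} (M : Pl → Matrix (Fin n) (Fin n) ℚ) (hM : ∀ v, (M v).det ≠ 0) :
    ∃ C : ℝ, 1 ≤ C ∧ ∀ v : Pl, ∀ x : Fin n → ℚ, ∀ B : ℝ,
      ((∀ i, av v (lin M v i x) ≤ B) → ∀ k, av v (x k) ≤ C * B) ∧
      ((∀ k, av v (x k) ≤ B) → ∀ i, av v (lin M v i x) ≤ C * B) := by
  obtain ⟨C₁, hC₁, h₁⟩ := av_matrix_bound (fun v => (M v)⁻¹)
  obtain ⟨C₂, hC₂, h₂⟩ := av_matrix_bound M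
  have hgen : ∀ (v : Pl) (N : Matrix (Fin n) (Fin n) ℚ) (D : ℝ), 0 ≤ D →
      (∀ i j, av v (N i j) ≤ D) → ∀ (y : Fin n → ℚ) (B : ℝ), (∀ i, av v (y i) ≤ B) →
      ∀ k, av v (N.mulVec y k) ≤ (n * D) * B := by
    intro v N D hD hN y B hy k
    have hB : 0 ≤ B := (av_nonneg v _).trans (hy k)
    show av v (∑ i, N k i * y i) ≤ _
    refine (av_sum_le v _ _).trans ?_
    calc ∑ i, av v (N k i * y i) ≤ ∑ _i : Fin n, D * B := by
          refine Finset.sum_le_sum fun i _ => ?_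
          rw [av_mul]
          exact mul_le_mul (hN k i) (hy i) (av_nonneg _ _) hD
      _ = (n * D) * B := by
          rw [Finset.sum_const, Finset.card_univ, Fintype.card_fin, nsmul_eq_mul]
          ring
  refine ⟨1 + n * C₁ + n * C₂, ?_, ?_⟩
  · have : 0 ≤ (n : ℝ) * C₁ := by positivity
    have : 0 ≤ (n : ℝ) * C₂ := by positivity
    linarith
  · intro v x B
    have hn1 : 0 ≤ (n : ℝ) * C₁ := by positivity
    have hn2 : 0 ≤ (n : ℝ) * C₂ := by positivity
    constructor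
    · intro h k
      have hB : 0 ≤ B := (av_nonneg v _).trans (h k)
      have h3 := hgen v (M v)⁻¹ C₁ (by linarith) (fun i j => (h₁ v i j).1)
        ((M v).mulVec x) B h k
      have h4 : (M v)⁻¹.mulVec ((M v).mulVec x) = x := by
        rw [Matrix.mulVec_mulVec, Matrix.nonsing_inv_mul _ (isUnit_iff_ne_zero.2 (hM v)),
          Matrix.one_mulVec]
      rw [h4] at h3
      refine h3.trans (mul_le_mul_of_nonneg_right ?_ hB)
      linarith
    · intro h i
      have hB : 0 ≤ B := (av_nonneg v _).trans (h i)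
      have h3 := hgen v (M v) C₂ (by linarith) (fun i j => (h₂ v i j).1) x B h i
      refine h3.trans (mul_le_mul_of_nonneg_right ?_ hB)
      linarith

end Pool.Agent.SubT
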