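import Pool.Agent.SubT.StarC

/-! Module STAR. Text: team-store MP_e27144_an_pr_growth_helper66.md.
HINT: section 7: strong induction on dim V, then on the number of j with Delta_j > 0; minimal T; case (ii). -/

namespace Pool.Agent.SubT

open scoped BigOperators ENNReal

open MeasureTheory Set Filter Topology

open Module

/-- Moving along a line until one of the constraints becomes tight. -/
theorem STAR_lin {ι : Type*} (α β : ι → ℝ) (hfin : (Set.range fun i => (α i, β i)).Finite)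
    (hα : ∀ i, 0 ≤ α i) (hβ : ∃ i, β i < 0) :
    ∃ s : ℝ, 0 ≤ s ∧ (∀ i, 0 ≤ α i + s * β i) ∧ ∃ i, β i < 0 ∧ α i + s * β i = 0 := by
  obtain ⟨i1, hi1⟩ := hβ
  have hf2 : ((Set.range fun i => (α i, β i)) ∩ {p : ℝ × ℝ | p.2 < 0}).Finite :=
    hfin.inter_of_left _
  obtain ⟨p, ⟨⟨i0, hp⟩, hp2⟩, hmin⟩ := Set.exists_min_image _
    (fun p : ℝ × ℝ => p.1 / (-p.2)) hf2 ⟨(α i1, β i1), ⟨⟨i1, rfl⟩, hi1⟩⟩
  subst hp
  have hb0 : β i0 < 0 := hp2
  refine ⟨α i0 / (-β i0), div_nonneg (hα i0) (by linarith), ?_, i0, hb0, ?_⟩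
  · intro i
    rcases lt_or_ge (β i) 0 with hb | hb
    · have h1 : α i0 / (-β i0) ≤ α i / (-β i) := hmin (α i, β i) ⟨⟨i, rfl⟩, hb⟩
      rw [le_div_iff₀ (by linarith)] at h1
      linarith
    · have h1 : 0 ≤ α i0 / (-β i0) := div_nonneg (hα i0) (by linarith)
      have := mul_nonneg h1 hb
      linarith [hα i]
  · have hne : β i0 ≠ 0 := hb0.ne
    have h1 : α i0 / (-β i0) * β i0 = -α i0 := by
      field_simp
    rw [h1]; ring

theorem STAR_fin {V : Type} [AddCommGroup V] [Module ℚ V] [FiniteDimensional ℚ V]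
    {J : Type} [Fintype J] (W : J → Submodule ℚ V) {γ : Type*} (F : ℕ → (J → ℕ) → γ) :
    (Set.range fun B : Submodule ℚ V => F (finrank ℚ B) (fun j => finrank ℚ ↥(B ⊓ W j))).Finite := by
  classical
  have h1 : (Set.Icc (0 : ℕ × (J → ℕ)) (finrank ℚ V, fun _ => finrank ℚ V)).Finite :=
    Set.finite_Icc _ _
  refine (h1.image (fun p : ℕ × (J → ℕ) => F p.1 p.2)).subset ?_
  rintro _ ⟨B, rfl⟩
  refine ⟨(finrank ℚ B, fun j => finrank ℚ ↥(B ⊓ W j)), ⟨?_, ?_⟩, rfl⟩
  · exact ⟨Nat.zero_le _, fun _ => Nat.zero_le _⟩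
  · exact ⟨Submodule.finrank_le B, fun j => Submodule.finrank_le _⟩

theorem STAR_count_le {V : Type} [AddCommGroup V] [Module ℚ V] (W : Submodule ℚ V) (A : Finset V)
    (a : V) : Set.ncard {x | x ∈ A ∧ x - a ∈ W} ≤ A.card := by
  rw [← Set.ncard_coe_finset A]
  exact Set.ncard_le_ncard (fun x hx => hx.1) A.finite_toSet

theorem STAR_count_bot {V : Type} [AddCommGroup V] [Module ℚ V] (A : Finset V)
    (a : V) : Set.ncard {x | x ∈ A ∧ x - a ∈ (⊥ : Submodule ℚ V)} ≤ 1 := by
  rw [Set.ncard_le_one_iff (A.finite_toSet.subset (fun x hx => hx.1))]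
  intro x y hx hy
  have h1 : x - a = 0 := by simpa using hx.2
  have h2 : y - a = 0 := by simpa using hy.2
  rw [sub_eq_zero.mp h1, sub_eq_zero.mp h2]

theorem STAR_top {V : Type} [AddCommGroup V] [Module ℚ V] (W : Submodule ℚ V) :
    finrank ℚ ↥(⊤ ⊓ W) = finrank ℚ W := by rw [top_inf_eq]

theorem STAR_bot {V : Type} [AddCommGroup V] [Module ℚ V] (W : Submodule ℚ V) :
    finrank ℚ ↥(⊥ ⊓ W) = 0 := by rw [bot_inf_eq, finrank_bot]

theorem STAR_idem {V : Type} [AddCommGroup V] [Module ℚ V] (W : Submodule ℚ V) :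
    finrank ℚ ↥(W ⊓ W) = finrank ℚ W := by rw [inf_idem]

/-- the claim -/
def STAR_P {J : Type} [Fintype J] (V : Type) [AddCommGroup V] [Module ℚ V]
    [FiniteDimensional ℚ V] (Δ : J → ℝ) (T : ℝ) : Prop :=
  ∀ (W : J → Submodule ℚ V),
      (∀ B' : Submodule ℚ V, ∑ j, Δ j * (finrank ℚ ↥(B' ⊓ W j) : ℝ) ≤ T * (finrank ℚ B' : ℝ)) →
      ∀ (A : Finset V), A.Nonempty → ∀ a : J → V,
        ∑ j, Δ j * (((Set.ncard {x | x ∈ A ∧ x - a j ∈ W j} : ℕ) : ℝ) - 1) ≤
          T * ((A.card : ℝ) - 1)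

/-- the inner induction -/
theorem STAR_inner {V : Type} [AddCommGroup V] [Module ℚ V] [FiniteDimensional ℚ V]
    {J : Type} [Fintype J]
    (hV : 0 < finrank ℚ V)
    (IH : ∀ (V' : Type) [AddCommGroup V'] [Module ℚ V'] [FiniteDimensional ℚ V'],
      finrank ℚ V' < finrank ℚ V → ∀ (Δ : J → ℝ) (_ : ∀ j, 0 ≤ Δ j) (T : ℝ), STAR_P V' Δ T)
    (W : J → Submodule ℚ V) (A : Finset V) (hA : A.Nonempty) (a : J → V) (k : ℕ) :
    ∀ (Δ : J → ℝ) (_ : ∀ j, 0 ≤ Δ j) (T : ℝ)
    (_ : ∀ B : Submodule ℚ V,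
      ∑ j, Δ j * (finrank ℚ ↥(B ⊓ W j) : ℝ) ≤ T * (finrank ℚ B : ℝ))
    (_ : Set.ncard {j | 0 < Δ j ∧ W j ≠ ⊥} ≤ k),
    ∑ j, Δ j * (((Set.ncard {x | x ∈ A ∧ x - a j ∈ W j} : ℕ) : ℝ) - 1) ≤
      T * ((A.card : ℝ) - 1) := by
  classical
  -- the critical case
  have hcrit : ∀ (Δ : J → ℝ) (_ : ∀ j, 0 ≤ Δ j) (T : ℝ)
      (_ : ∀ B : Submodule ℚ V,
        ∑ j, Δ j * (finrank ℚ ↥(B ⊓ W j) : ℝ) ≤ T * (finrank ℚ B : ℝ))
      (B : Submodule ℚ V) (_ : B ≠ ⊥) (_ : B ≠ ⊤)
      (_ : ∑ j, Δ j * (finrank ℚ ↥(B ⊓ W j) : ℝ) = T * (finrank ℚ B : ℝ)),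
      ∑ j, Δ j * (((Set.ncard {x | x ∈ A ∧ x - a j ∈ W j} : ℕ) : ℝ) - 1) ≤
        T * ((A.card : ℝ) - 1) := by
    intro Δ hΔ T h B hB0 hB1 hBe
    have h1 : finrank ℚ B < finrank ℚ V := Submodule.finrank_lt hB1
    have h2 : finrank ℚ (V ⧸ B) < finrank ℚ V := by
      have h3 := Submodule.finrank_quotient_add_finrank B
      have h4 : 0 < finrank ℚ B := Submodule.one_le_finrank_iff.mpr hB0
      omega
    exact star_critical W Δ hΔ T h B hBe (fun W' => IH B h1 Δ hΔ T W')
      (fun W' => IH (V ⧸ B) h2 Δ hΔ T W') A hA a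
  have hA1 : (0 : ℝ) ≤ (A.card : ℝ) - 1 := by
    have : (1 : ℝ) ≤ A.card := by exact_mod_cast hA.card_pos
    linarith
  induction k using Nat.strong_induction_on with
  | _ k ihk =>
  intro Δ hΔ T h hk
  -- decrease `T`
  obtain ⟨s, hs0, hs, B, hB, hBe⟩ := STAR_lin (ι := Submodule ℚ V)
    (fun B => T * (finrank ℚ B : ℝ) - ∑ j, Δ j * (finrank ℚ ↥(B ⊓ W j) : ℝ))
    (fun B => - (finrank ℚ B : ℝ))
    (STAR_fin W (fun d e => (T * (d : ℝ) - ∑ j, Δ j * ((e j : ℕ) : ℝ), - (d : ℝ))))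
    (fun B => by have := h B; linarith)
    ⟨⊤, by
      have : (0 : ℝ) < (finrank ℚ (⊤ : Submodule ℚ V) : ℝ) := by
        rw [finrank_top]; exact_mod_cast hV
      show - (finrank ℚ (⊤ : Submodule ℚ V) : ℝ) < 0
      linarith⟩
  have hB0 : B ≠ ⊥ := by
    rintro rfl
    simp at hB
  have h' : ∀ B : Submodule ℚ V,
      ∑ j, Δ j * (finrank ℚ ↥(B ⊓ W j) : ℝ) ≤ (T - s) * (finrank ℚ B : ℝ) := fun B => by
    have := hs B
    linarith
  have hBe' : ∑ j, Δ j * (finrank ℚ ↥(B ⊓ W j) : ℝ) = (T - s) * (finrank ℚ B : ℝ) := by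
    linarith
  suffices hsuff : ∑ j, Δ j * (((Set.ncard {x | x ∈ A ∧ x - a j ∈ W j} : ℕ) : ℝ) - 1) ≤
      (T - s) * ((A.card : ℝ) - 1) by
    refine hsuff.trans ?_
    apply mul_le_mul_of_nonneg_right _ hA1
    linarith
  by_cases hBt : B ≠ ⊤
  · exact hcrit Δ hΔ (T - s) h' B hB0 hBt hBe'
  push Not at hBt
  subst hBt
  clear hB hBe hB0 hs h
  generalize T - s = T' at *
  rw [finrank_top] at hBe'
  simp only [STAR_top] at hBe'
  -- two indices?
  by_cases h2 : ∃ j l : J, j ≠ l ∧ 0 < Δ j ∧ W j ≠ ⊥ ∧ 0 < Δ l ∧ W l ≠ ⊥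
  · -- move along a line
    have hmove : ∀ j l : J, j ≠ l → 0 < Δ j → W j ≠ ⊥ → 0 < Δ l → W l ≠ ⊥ →
        (finrank ℚ (W j) : ℝ) * (((Set.ncard {x | x ∈ A ∧ x - a l ∈ W l} : ℕ) : ℝ) - 1) ≤
        (finrank ℚ (W l) : ℝ) * (((Set.ncard {x | x ∈ A ∧ x - a j ∈ W j} : ℕ) : ℝ) - 1) →
        ∑ j, Δ j * (((Set.ncard {x | x ∈ A ∧ x - a j ∈ W j} : ℕ) : ℝ) - 1) ≤
          T' * ((A.card : ℝ) - 1) := by
      intro j l hjl hj hWj hl hWl hslope
      have hdj : (0 : ℝ) < (finrank ℚ (W j) : ℝ) := by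
        exact_mod_cast Submodule.one_le_finrank_iff.mpr hWj
      have hdl : (0 : ℝ) < (finrank ℚ (W l) : ℝ) := by
        exact_mod_cast Submodule.one_le_finrank_iff.mpr hWl
      -- the direction
      let u : J → ℝ := fun i => if i = j then (finrank ℚ (W l) : ℝ) else
        if i = l then -(finrank ℚ (W j) : ℝ) else 0
      have huj : u j = (finrank ℚ (W l) : ℝ) := by simp [u]
      have hul : u l = -(finrank ℚ (W j) : ℝ) := by simp [u, hjl.symm]
      have hu0 : ∀ i, i ≠ j → i ≠ l → u i = 0 := fun i h1 h2 => by simp [u, h1, h2]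
      have husum : ∀ f : J → ℝ, ∑ i, u i * f i =
          (finrank ℚ (W l) : ℝ) * f j - (finrank ℚ (W j) : ℝ) * f l := by
        intro f
        rw [← Finset.add_sum_erase _ _ (Finset.mem_univ j), ← Finset.add_sum_erase _ _
          (Finset.mem_erase.mpr ⟨hjl.symm, Finset.mem_univ l⟩), Finset.sum_eq_zero]
        · rw [huj, hul]; ring
        · intro i hi
          simp only [Finset.mem_erase, Finset.mem_univ, and_true] at hi
          rw [hu0 i hi.2 hi.1, zero_mul]
      obtain ⟨t, ht0, ht, hte⟩ := STAR_lin (ι := Option (Submodule ℚ V))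
        (fun o => match o with
          | none => Δ l
          | some B => T' * (finrank ℚ B : ℝ) - ∑ i, Δ i * (finrank ℚ ↥(B ⊓ W i) : ℝ))
        (fun o => match o with
          | none => -(finrank ℚ (W j) : ℝ)
          | some B => - ∑ i, u i * (finrank ℚ ↥(B ⊓ W i) : ℝ))
        (by
          have hf := STAR_fin W (fun d e => (T' * (d : ℝ) - ∑ i, Δ i * ((e i : ℕ) : ℝ),
            - ∑ i, u i * ((e i : ℕ) : ℝ)))
          refine (hf.insert (Δ l, -(finrank ℚ (W j) : ℝ))).subset ?_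
          rintro _ ⟨o, rfl⟩
          cases o with
          | none => exact Set.mem_insert _ _
          | some B => exact Set.mem_insert_of_mem _ ⟨B, rfl⟩)
        (by
          intro o
          cases o with
          | none => exact (hΔ l)
          | some B =>
            have := h' B
            show 0 ≤ T' * (finrank ℚ B : ℝ) - ∑ i, Δ i * (finrank ℚ ↥(B ⊓ W i) : ℝ)
            linarith)
        ⟨none, by show -(finrank ℚ (W j) : ℝ) < 0; linarith⟩
      -- the new weights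
      let Δ' : J → ℝ := fun i => Δ i + t * u i
      have hΔ'l : 0 ≤ Δ' l := by
        have := ht none
        simp only at this
        show 0 ≤ Δ l + t * u l
        rw [hul]
        linarith
      have hΔ' : ∀ i, 0 ≤ Δ' i := by
        intro i
        by_cases h1 : i = j
        · subst h1
          show 0 ≤ Δ i + t * u i
          rw [huj]
          have := mul_nonneg ht0 hdl.le
          linarith [hΔ i]
        · by_cases h2 : i = l
          · subst h2; exact hΔ'l
          · show 0 ≤ Δ i + t * u i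
            rw [hu0 i h1 h2]
            linarith [hΔ i]
      have hsumΔ' : ∀ f : J → ℝ, ∑ i, Δ' i * f i = ∑ i, Δ i * f i + t * ∑ i, u i * f i := by
        intro f
        rw [Finset.mul_sum, ← Finset.sum_add_distrib]
        exact Finset.sum_congr rfl fun i _ => by
          show (Δ i + t * u i) * f i = _
          ring
      have hcon' : ∀ B : Submodule ℚ V,
          ∑ i, Δ' i * (finrank ℚ ↥(B ⊓ W i) : ℝ) ≤ T' * (finrank ℚ B : ℝ) := by
        intro B
        rw [hsumΔ']
        have := ht (some B)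
        simp only at this
        linarith
      have hgoal' : ∑ i, Δ' i * (((Set.ncard {x | x ∈ A ∧ x - a i ∈ W i} : ℕ) : ℝ) - 1) ≤
          T' * ((A.card : ℝ) - 1) := by
        obtain ⟨o, ho1, ho2⟩ := hte
        cases o with
        | none =>
          -- fewer indices
          simp only at ho2
          have hl0 : Δ' l = 0 := by
            show Δ l + t * u l = 0
            rw [hul]; exact ho2
          have hsub : {i | 0 < Δ' i ∧ W i ≠ ⊥} ⊂ {i | 0 < Δ i ∧ W i ≠ ⊥} := by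
            constructor
            · intro i hi
              refine ⟨?_, hi.2⟩
              by_cases h1 : i = j
              · subst h1; exact hj
              · by_cases h2 : i = l
                · subst h2; exact hl
                · have h3 : Δ' i = Δ i := by
                    show Δ i + t * u i = Δ i
                    rw [hu0 i h1 h2]; ring
                  rw [← h3]; exact hi.1
            · intro hsub
              have := (hsub (show l ∈ {i | 0 < Δ i ∧ W i ≠ ⊥} from ⟨hl, hWl⟩)).1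
              rw [hl0] at this
              exact lt_irrefl _ this
          have hlt := Set.ncard_lt_ncard hsub (Set.toFinite _)
          exact ihk (Set.ncard {i | 0 < Δ' i ∧ W i ≠ ⊥}) (by omega) Δ' hΔ' T' hcon' le_rfl
        | some B =>
          simp only at ho1 ho2
          refine hcrit Δ' hΔ' T' hcon' B ?_ ?_ ?_
          · rintro rfl
            simp [STAR_bot] at ho1
          · rintro rfl
            rw [husum] at ho1
            simp only [STAR_top] at ho1
            linarith [mul_comm (finrank ℚ (W l) : ℝ) (finrank ℚ (W j) : ℝ)]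
          · rw [hsumΔ']
            linarith
      rw [hsumΔ', husum] at hgoal'
      have h3 : 0 ≤ t * ((finrank ℚ (W l) : ℝ) *
          (((Set.ncard {x | x ∈ A ∧ x - a j ∈ W j} : ℕ) : ℝ) - 1) -
          (finrank ℚ (W j) : ℝ) * (((Set.ncard {x | x ∈ A ∧ x - a l ∈ W l} : ℕ) : ℝ) - 1)) :=
        mul_nonneg ht0 (by linarith)
      linarith
    obtain ⟨j, l, hjl, hj, hWj, hl, hWl⟩ := h2
    rcases le_total ((finrank ℚ (W j) : ℝ) *
      (((Set.ncard {x | x ∈ A ∧ x - a l ∈ W l} : ℕ) : ℝ) - 1))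
      ((finrank ℚ (W l) : ℝ) * (((Set.ncard {x | x ∈ A ∧ x - a j ∈ W j} : ℕ) : ℝ) - 1))
      with hc | hc
    · exact hmove j l hjl hj hWj hl hWl hc
    · exact hmove l j hjl.symm hl hWl hj hWj hc
  · -- at most one index
    push Not at h2
    have hVR : (0 : ℝ) < (finrank ℚ V : ℝ) := by exact_mod_cast hV
    by_cases h1 : ∃ j : J, 0 < Δ j ∧ W j ≠ ⊥
    · obtain ⟨j, hj, hWj⟩ := h1
      have hother : ∀ i, i ≠ j → Δ i = 0 ∨ W i = ⊥ := by
        intro i hi
        by_contra hcon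
        push Not at hcon
        exact hcon.2 (h2 j i hi.symm hj hWj (lt_of_le_of_ne (hΔ i) (Ne.symm hcon.1)))
      have hsum1 : ∑ i, Δ i * (finrank ℚ (W i) : ℝ) = Δ j * (finrank ℚ (W j) : ℝ) := by
        rw [Finset.sum_eq_single j]
        · intro i _ hi
          rcases hother i hi with h3 | h3
          · rw [h3, zero_mul]
          · rw [h3]; simp
        · intro h3; exact absurd (Finset.mem_univ j) h3
      have hle1 : ∑ i, Δ i * (((Set.ncard {x | x ∈ A ∧ x - a i ∈ W i} : ℕ) : ℝ) - 1) ≤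
          Δ j * (((Set.ncard {x | x ∈ A ∧ x - a j ∈ W j} : ℕ) : ℝ) - 1) := by
        rw [← Finset.add_sum_erase _ _ (Finset.mem_univ j)]
        have : ∑ i ∈ Finset.univ.erase j,
            Δ i * (((Set.ncard {x | x ∈ A ∧ x - a i ∈ W i} : ℕ) : ℝ) - 1) ≤ 0 := by
          apply Finset.sum_nonpos
          intro i hi
          have hi' : i ≠ j := (Finset.mem_erase.mp hi).1
          rcases hother i hi' with h3 | h3
          · rw [h3, zero_mul]
          · rw [h3]
            have h4 := STAR_count_bot A (a i)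
            have h5 : ((Set.ncard {x | x ∈ A ∧ x - a i ∈ (⊥ : Submodule ℚ V)} : ℕ) : ℝ) ≤ 1 := by
              exact_mod_cast h4
            exact mul_nonpos_of_nonneg_of_nonpos (hΔ i) (by linarith)
        linarith
      have hcount : ((Set.ncard {x | x ∈ A ∧ x - a j ∈ W j} : ℕ) : ℝ) ≤ (A.card : ℝ) := by
        exact_mod_cast STAR_count_le (W j) A (a j)
      have hdj : (0 : ℝ) < (finrank ℚ (W j) : ℝ) := by
        exact_mod_cast Submodule.one_le_finrank_iff.mpr hWj
      rw [hsum1] at hBe'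
      -- `Δ j ≤ T'`
      have hle2 : Δ j ≤ T' := by
        have h3 := h' (W j)
        have h4 : Δ j * (finrank ℚ (W j) : ℝ) ≤
            ∑ i, Δ i * (finrank ℚ ↥(W j ⊓ W i) : ℝ) := by
          refine le_trans (le_of_eq ?_) (Finset.single_le_sum
            (f := fun i => Δ i * (finrank ℚ ↥(W j ⊓ W i) : ℝ))
            (fun i _ => mul_nonneg (hΔ i) (Nat.cast_nonneg _)) (Finset.mem_univ j))
          simp only [STAR_idem]
        exact le_of_mul_le_mul_right (h4.trans h3) hdj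
      refine hle1.trans ?_
      calc Δ j * (((Set.ncard {x | x ∈ A ∧ x - a j ∈ W j} : ℕ) : ℝ) - 1) ≤
          Δ j * ((A.card : ℝ) - 1) := mul_le_mul_of_nonneg_left (by linarith) hj.le
        _ ≤ T' * ((A.card : ℝ) - 1) := mul_le_mul_of_nonneg_right hle2 hA1
    · push Not at h1
      have hall : ∀ i, Δ i = 0 ∨ W i = ⊥ := by
        intro i
        by_cases h3 : 0 < Δ i
        · exact Or.inr (h1 i h3)
        · exact Or.inl (le_antisymm (not_lt.mp h3) (hΔ i))
      have hT : 0 ≤ T' := by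
        have h3 : ∑ i, Δ i * (finrank ℚ (W i) : ℝ) = 0 := by
          apply Finset.sum_eq_zero
          intro i _
          rcases hall i with h3 | h3
          · rw [h3, zero_mul]
          · rw [h3]; simp
        rw [h3] at hBe'
        have : T' = 0 := by
          rcases mul_eq_zero.mp hBe'.symm with h4 | h4
          · exact h4
          · exact absurd h4 hVR.ne'
        rw [this]
      refine le_trans ?_ (mul_nonneg hT hA1)
      apply Finset.sum_nonpos
      intro i _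
      rcases hall i with h3 | h3
      · rw [h3, zero_mul]
      · rw [h3]
        have h4 := STAR_count_bot A (a i)
        have h5 : ((Set.ncard {x | x ∈ A ∧ x - a i ∈ (⊥ : Submodule ℚ V)} : ℕ) : ℝ) ≤ 1 := by
          exact_mod_cast h4
        exact mul_nonpos_of_nonneg_of_nonpos (hΔ i) (by linarith)

theorem STAR_main {J : Type} [Fintype J] (n : ℕ) :
    ∀ (V : Type) [AddCommGroup V] [Module ℚ V] [FiniteDimensional ℚ V],
      finrank ℚ V = n → ∀ (Δ : J → ℝ) (_ : ∀ j, 0 ≤ Δ j) (T : ℝ), STAR_P V Δ T := by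
  induction n using Nat.strong_induction_on with
  | _ n ih =>
  intro V _ _ _ hn Δ hΔ T W h A hA a
  rcases Nat.eq_zero_or_pos n with h0 | h0
  · -- dimension zero
    subst h0
    have hsub : Subsingleton V := finrank_zero_iff.mp hn
    have hc1 : A.card = 1 := by
      refine le_antisymm ?_ hA.card_pos
      exact Finset.card_le_one.mpr fun x _ y _ => Subsingleton.elim x y
    rw [hc1]
    simp only [Nat.cast_one, sub_self, mul_zero]
    apply Finset.sum_nonpos
    intro j _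
    have h1 : Set.ncard {x | x ∈ A ∧ x - a j ∈ W j} ≤ 1 := by
      have := STAR_count_le (W j) A (a j)
      omega
    have h2 : ((Set.ncard {x | x ∈ A ∧ x - a j ∈ W j} : ℕ) : ℝ) ≤ 1 := by exact_mod_cast h1
    exact mul_nonpos_of_nonneg_of_nonpos (hΔ j) (by linarith)
  · exact STAR_inner (by omega) (fun V' _ _ _ hlt Δ hΔ T => ih (finrank ℚ V') (by omega) V' rfl
      Δ hΔ T) W A hA a _ Δ hΔ T h le_rfl

/-- the lemma of section 7 -/
theorem star {V : Type} [AddCommGroup V] [Module ℚ V] [FiniteDimensional ℚ V]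
    {J : Type} [Fintype J] (W : J → Submodule ℚ V) (Δ : J → ℝ) (hΔ : ∀ j, 0 ≤ Δ j) (T : ℝ)
    (h : ∀ B : Submodule ℚ V, ∑ j, Δ j * (finrank ℚ ↥(B ⊓ W j) : ℝ) ≤ T * (finrank ℚ B : ℝ))
    (A : Finset V) (hA : A.Nonempty) (a : J → V) :
    ∑ j, Δ j * (((Set.ncard {x | x ∈ A ∧ x - a j ∈ W j} : ℕ) : ℝ) - 1) ≤
      T * ((A.card : ℝ) - 1) :=
  STAR_main (finrank ℚ V) V rfl Δ hΔ T W h A hA a

end Pool.Agent.SubT
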