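import Pool.Agent.SubT.Type1
import Pool.Agent.SubT.Star

/-! Module PRODI. Text: team-store MP_e27144_an_pr_growth_helper66.md.
HINT: section 8: induction on d for all families a and all r at once. -/

namespace Pool.Agent.SubT

open scoped BigOperators ENNReal

open MeasureTheory Set Filter Topology

open Module

/-- the conclusion for one point and one choice of centres -/
private def PRODI_conc {d r : ℕ} (a : Fin (r + 1) → Module.Dual ℚ (Fin d → ℚ)) (ε Q : ℝ)
    (x : Fin d → ℚ) (mc : Pl → Fin (r + 1)) : Prop :=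
  -(ε * Real.log Q) ≤
    ∑ v, ∑ i ∈ Finset.univ.erase (mc v), Real.log (av v (a i x - a (mc v) x))

/-- the hypotheses on a point -/
private def PRODI_hyp {d r : ℕ} (a : Fin (r + 1) → Module.Dual ℚ (Fin d → ℚ)) (K Q : ℝ)
    (x : Fin d → ℚ) : Prop :=
  InRn x ∧ (∀ i j, i ≠ j → a i x ≠ a j x) ∧
    ∀ v i j, i ≠ j → Q ^ (-K) ≤ av v (a i x - a j x) ∧ av v (a i x - a j x) ≤ Q ^ K

/-- the statement in dimension `d` -/
private def PRODI_st (d : ℕ) : Prop :=
  ∀ (r : ℕ) (a : Fin (r + 1) → Module.Dual ℚ (Fin d → ℚ)) (K ε : ℝ), 0 < K → 0 < ε →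
    ∃ Q0 : ℝ, 1 < Q0 ∧ ∀ Q ≥ Q0, ∀ x : Fin d → ℚ, PRODI_hyp a K Q x →
      ∀ mc : Pl → Fin (r + 1), PRODI_conc a ε Q x mc

/-- a linear map becomes integral after multiplication by an integer -/
private theorem PRODI_int {d d' : ℕ} (P : (Fin d → ℚ) →ₗ[ℚ] (Fin d' → ℚ)) :
    ∃ D : ℚ, D ≠ 0 ∧ ∀ x, InRn x → InRn (D • P x) := by
  classical
  set A := LinearMap.toMatrix' P with hA
  set D : ℚ := ∏ k, ∏ j, ((A k j).den : ℚ) with hD
  have hint : ∀ k j, ∃ z : ℤ, D * A k j = (z : ℚ) := by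
    intro k j
    have h1 : D = ((A k j).den : ℚ) * ((∏ j' ∈ Finset.univ.erase j, ((A k j').den : ℚ)) *
        ∏ k' ∈ Finset.univ.erase k, ∏ j', ((A k' j').den : ℚ)) := by
      rw [hD, ← Finset.mul_prod_erase Finset.univ _ (Finset.mem_univ k),
        ← Finset.mul_prod_erase Finset.univ (fun j' => ((A k j').den : ℚ)) (Finset.mem_univ j)]
      ring
    refine ⟨(A k j).num * ((∏ j' ∈ Finset.univ.erase j, ((A k j').den : ℤ)) *
        ∏ k' ∈ Finset.univ.erase k, ∏ j', ((A k' j').den : ℤ)), ?_⟩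
    rw [h1]
    push_cast
    have h2 : ((A k j).den : ℚ) * A k j = (A k j).num := by
      rw [mul_comm]; exact Rat.mul_den_eq_num _
    calc _ = (((A k j).den : ℚ) * A k j) * ((∏ j' ∈ Finset.univ.erase j, ((A k j').den : ℚ)) *
        ∏ k' ∈ Finset.univ.erase k, ∏ j', ((A k' j').den : ℚ)) := by ring
      _ = _ := by rw [h2]
  refine ⟨D, ?_, ?_⟩
  · rw [hD]
    refine Finset.prod_ne_zero_iff.mpr fun k _ => Finset.prod_ne_zero_iff.mpr fun j _ => ?_
    exact_mod_cast (A k j).den_nz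
  · intro x hx k
    have h1 : (D • P x) k = ∑ j, (D * A k j) * x j := by
      have h2 : P x = A.mulVec x := by
        rw [hA, LinearMap.toMatrix'_mulVec]
      rw [h2]
      simp only [Pi.smul_apply, smul_eq_mul, Matrix.mulVec, dotProduct, Finset.mul_sum]
      exact Finset.sum_congr rfl fun j _ => by ring
    rw [h1]
    refine inR_sum _ _ fun j _ => ?_
    obtain ⟨z, hz⟩ := hint k j
    rw [hz]
    exact inR_mul (inR_int z) (hx j)

/-- reduction to a smaller dimension -/
private theorem PRODI_red {d d' r : ℕ} (IH : PRODI_st d')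
    (a : Fin (r + 1) → Module.Dual ℚ (Fin d → ℚ)) (P : (Fin d → ℚ) →ₗ[ℚ] (Fin d' → ℚ))
    (S : (Fin d' → ℚ) →ₗ[ℚ] (Fin d → ℚ)) (K ε : ℝ) (hK : 0 < K) (hε : 0 < ε) :
    ∃ Q0 : ℝ, 1 < Q0 ∧ ∀ Q ≥ Q0, ∀ x : Fin d → ℚ,
      (∀ i j, a i (S (P x)) - a j (S (P x)) = a i x - a j x) → PRODI_hyp a K Q x →
      ∀ mc : Pl → Fin (r + 1), PRODI_conc a ε Q x mc := by
  obtain ⟨D, hD0, hD⟩ := PRODI_int P
  obtain ⟨Q0, hQ0, H⟩ := IH r (fun i => D⁻¹ • (a i).comp S) K ε hK hε
  refine ⟨Q0, hQ0, fun Q hQ x hx hyp mc => ?_⟩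
  obtain ⟨hyp1, hyp2, hyp3⟩ := hyp
  have key : ∀ i j, (D⁻¹ • (a i).comp S) (D • P x) - (D⁻¹ • (a j).comp S) (D • P x)
      = a i x - a j x := by
    intro i j
    rw [← hx i j]
    simp only [LinearMap.smul_apply, LinearMap.comp_apply, map_smul, smul_eq_mul]
    rw [mul_inv_cancel_left₀ hD0, mul_inv_cancel_left₀ hD0]
  have h1 : PRODI_hyp (fun i => D⁻¹ • (a i).comp S) K Q (D • P x) := by
    refine ⟨hD x hyp1, fun i j hij h => hyp2 i j hij ?_, fun v i j hij => ?_⟩
    · have h2 := key i j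
      rw [sub_eq_zero.mpr h] at h2
      exact sub_eq_zero.mp h2.symm
    · rw [key i j]
      exact hyp3 v i j hij
  have h2 := H Q hQ (D • P x) h1 mc
  unfold PRODI_conc at h2 ⊢
  simp only [key] at h2
  exact h2

/-- points of a proper subspace -/
private theorem PRODI_sub {d r : ℕ} (IH : ∀ d' < d, PRODI_st d')
    (a : Fin (r + 1) → Module.Dual ℚ (Fin d → ℚ)) (T : Submodule ℚ (Fin d → ℚ)) (hT : T ≠ ⊤)
    (K ε : ℝ) (hK : 0 < K) (hε : 0 < ε) :
    ∃ Q0 : ℝ, 1 < Q0 ∧ ∀ Q ≥ Q0, ∀ x ∈ T, PRODI_hyp a K Q x →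
      ∀ mc : Pl → Fin (r + 1), PRODI_conc a ε Q x mc := by
  have hfin : finrank ℚ T < d := by
    have := Submodule.finrank_lt hT
    simpa using this
  obtain ⟨g, hg⟩ := T.subtype.exists_leftInverse_of_injective (by simp)
  set b := Module.finBasis ℚ T with hb
  obtain ⟨Q0, hQ0, H⟩ := PRODI_red (IH _ hfin) a (b.equivFun.toLinearMap.comp g)
    (T.subtype.comp b.equivFun.symm.toLinearMap) K ε hK hε
  refine ⟨Q0, hQ0, fun Q hQ x hx hyp mc => H Q hQ x (fun i j => ?_) hyp mc⟩
  have h1 : g x = ⟨x, hx⟩ := by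
    have h2 := LinearMap.congr_fun hg ⟨x, hx⟩
    simpa using h2
  have h3 : (T.subtype.comp b.equivFun.symm.toLinearMap)
      ((b.equivFun.toLinearMap.comp g) x) = x := by
    simp only [LinearMap.comp_apply, LinearEquiv.coe_coe, h1, LinearEquiv.symm_apply_apply,
      Submodule.coe_subtype]
  rw [h3]

/-- families whose differences do not span -/
private theorem PRODI_nospan {d r : ℕ} (IH : ∀ d' < d, PRODI_st d')
    (a : Fin (r + 1) → Module.Dual ℚ (Fin d → ℚ))
    (hs : Submodule.span ℚ (Set.range fun i => a i - a 0) ≠ ⊤)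
    (K ε : ℝ) (hK : 0 < K) (hε : 0 < ε) :
    ∃ Q0 : ℝ, 1 < Q0 ∧ ∀ Q ≥ Q0, ∀ x : Fin d → ℚ, PRODI_hyp a K Q x →
      ∀ mc : Pl → Fin (r + 1), PRODI_conc a ε Q x mc := by
  set Φ := Submodule.span ℚ (Set.range fun i => a i - a 0) with hΦ
  set W := Φ.dualCoannihilator with hW
  have hWpos : 0 < finrank ℚ W := by
    have h1 : finrank ℚ Φ + finrank ℚ W = finrank ℚ (Fin d → ℚ) :=
      Subspace.finrank_add_finrank_dualCoannihilator_eq Φ
    have h2 : finrank ℚ Φ < finrank ℚ (Module.Dual ℚ (Fin d → ℚ)) := Submodule.finrank_lt hs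
    have h3 : finrank ℚ (Module.Dual ℚ (Fin d → ℚ)) = finrank ℚ (Fin d → ℚ) :=
      Subspace.dual_finrank_eq
    omega
  obtain ⟨C, hC⟩ := W.exists_isCompl
  have hfin : finrank ℚ C < d := by
    have h1 := Submodule.finrank_add_eq_of_isCompl hC
    have h2 : finrank ℚ (Fin d → ℚ) = d := by simp
    omega
  set b := Module.finBasis ℚ C with hb
  set g := Submodule.projectionOnto C W hC.symm with hg
  obtain ⟨Q0, hQ0, H⟩ := PRODI_red (IH _ hfin) a (b.equivFun.toLinearMap.comp g)
    (C.subtype.comp b.equivFun.symm.toLinearMap) K ε hK hε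
  refine ⟨Q0, hQ0, fun Q hQ x hyp mc => H Q hQ x (fun i j => ?_) hyp mc⟩
  have h3 : (C.subtype.comp b.equivFun.symm.toLinearMap)
      ((b.equivFun.toLinearMap.comp g) x) = (g x : Fin d → ℚ) := by
    simp only [LinearMap.comp_apply, LinearEquiv.coe_coe, LinearEquiv.symm_apply_apply,
      Submodule.coe_subtype]
  rw [h3]
  have h4 : x - (g x : Fin d → ℚ) ∈ W := by
    rw [← Submodule.ker_projectionOnto hC.symm, LinearMap.mem_ker, map_sub]
    have h5 := Submodule.projectionOnto_apply_left hC.symm (g x)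
    rw [h5]
    exact sub_self _
  have h6 : ∀ i, (a i - a 0) (x - (g x : Fin d → ℚ)) = 0 := by
    intro i
    rw [hW, Submodule.mem_dualCoannihilator] at h4
    exact h4 _ (Submodule.subset_span ⟨i, rfl⟩)
  have h7 : ∀ i, a i x - a i (g x : Fin d → ℚ) = a 0 x - a 0 (g x : Fin d → ℚ) := by
    intro i
    have h8 := h6 i
    rw [LinearMap.sub_apply, map_sub, map_sub] at h8
    linarith
  have h9 := h7 i
  have h10 := h7 j
  linarith

/-- the combinatorial count -/
private theorem PRODI_count {r k1 : ℕ} (L : Fin (r + 1) → ℕ) (m : Fin (r + 1))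
    (hL : ∀ i, L i ≤ k1) (hLm : L m = 0) :
    ∑ k ∈ Finset.range k1, (((Finset.univ.filter fun i => L i ≤ k).card : ℝ) - 1)
      = (k1 : ℝ) * r - ∑ i ∈ Finset.univ.erase m, (L i : ℝ) := by
  classical
  have h1 : ∀ k ∈ Finset.range k1, (((Finset.univ.filter fun i => L i ≤ k).card : ℝ) - 1)
      = ∑ i ∈ Finset.univ.erase m, if L i ≤ k then (1 : ℝ) else 0 := by
    intro k _
    have h2 : ((Finset.univ.filter fun i => L i ≤ k).card : ℝ)
        = ∑ i, if L i ≤ k then (1 : ℝ) else 0 := by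
      rw [Finset.card_filter]
      push_cast
      rfl
    rw [h2, ← Finset.add_sum_erase Finset.univ _ (Finset.mem_univ m), hLm]
    simp
  rw [Finset.sum_congr rfl h1, Finset.sum_comm]
  have h3 : ∀ i ∈ Finset.univ.erase m, (∑ k ∈ Finset.range k1, if L i ≤ k then (1 : ℝ) else 0)
      = (k1 : ℝ) - L i := by
    intro i _
    have h4 : (∑ k ∈ Finset.range k1, if L i ≤ k then (1 : ℝ) else 0)
        = (((Finset.range k1).filter fun k => L i ≤ k).card : ℝ) := by
      rw [Finset.card_filter]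
      push_cast
      rfl
    rw [h4]
    have h5 : (Finset.range k1).filter (fun k => L i ≤ k) = Finset.Ico (L i) k1 := by
      ext k
      simp only [Finset.mem_filter, Finset.mem_range, Finset.mem_Ico]
      tauto
    rw [h5, Nat.card_Ico, Nat.cast_sub (hL i)]
  rw [Finset.sum_congr rfl h3, Finset.sum_sub_distrib, Finset.sum_const,
    Finset.card_erase_of_mem (Finset.mem_univ m), Finset.card_univ, Fintype.card_fin]
  simp only [Nat.add_sub_cancel, nsmul_eq_mul]
  ring

/-- one type -/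
private theorem PRODI_type {d r : ℕ} (IH : ∀ d' < d, PRODI_st d')
    (a : Fin (r + 1) → Module.Dual ℚ (Fin d → ℚ)) (ha : Function.Injective a)
    (hs : Submodule.span ℚ (Set.range fun i => a i - a 0) = ⊤)
    (K ε μ : ℝ) (hK : 0 < K) (hε : 0 < ε) (hμ : 0 < μ) (hμε : 3 * (r : ℝ) * μ ≤ ε) (k1 : ℕ)
    (L : Pl → Fin (r + 1) → ℕ) (mc : Pl → Fin (r + 1)) (hL : ∀ v i, L v i ≤ k1)
    (hLm : ∀ v, L v (mc v) = 0) :
    ∃ Q0 : ℝ, 1 < Q0 ∧ ∀ Q ≥ Q0, ∀ x : Fin d → ℚ, PRODI_hyp a K Q x →
      (∀ v i, i ≠ mc v → av v (a i x - a (mc v) x) ≤ Q ^ (μ * (L v i : ℝ) - K) ∧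
        μ * (L v i : ℝ) ≤ Real.logb Q (av v (a i x - a (mc v) x)) + K + μ) →
      PRODI_conc a ε Q x mc := by
  classical
  have hinj : ∀ v, Function.Injective fun i => a i - a (mc v) := by
    intro v i j hij
    exact ha (sub_left_inj.mp hij)
  set Φ : Pl → Finset (Module.Dual ℚ (Fin d → ℚ)) :=
    fun v => Finset.univ.image fun i => a i - a (mc v) with hΦ
  set lv : Pl → Module.Dual ℚ (Fin d → ℚ) → ℕ :=
    fun v φ => L v (Function.invFun (fun i => a i - a (mc v)) φ) with hlv
  have hlvi : ∀ v i, lv v (a i - a (mc v)) = L v i := by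
    intro v i
    have := Function.leftInverse_invFun (hinj v) i
    rw [hlv]
    simp only
    rw [this]
  have hspan : ∀ v, Submodule.span ℚ ((Φ v : Finset (Module.Dual ℚ (Fin d → ℚ))) :
      Set (Module.Dual ℚ (Fin d → ℚ))) = ⊤ := by
    intro v
    rw [eq_top_iff, ← hs, Submodule.span_le]
    rintro _ ⟨i, rfl⟩
    have h1 : ∀ i, a i - a (mc v) ∈ Submodule.span ℚ
        ((Φ v : Finset (Module.Dual ℚ (Fin d → ℚ))) : Set (Module.Dual ℚ (Fin d → ℚ))) := by
      intro i
      apply Submodule.subset_span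
      rw [hΦ]
      exact Finset.mem_coe.mpr (Finset.mem_image.mpr ⟨i, Finset.mem_univ i, rfl⟩)
    have h2 := Submodule.sub_mem _ (h1 i) (h1 0)
    have h3 : a i - a (mc v) - (a 0 - a (mc v)) = a i - a 0 := by abel
    rw [h3] at h2
    exact h2
  have hlvk : ∀ v, ∀ φ ∈ Φ v, lv v φ ≤ k1 := fun v φ _ => hL v _
  by_cases hB : ∃ B : Submodule ℚ (Module.Dual ℚ (Fin d → ℚ)),
    ∑ v : Pl, (μ * ((k1 : ℝ) * finrank ℚ B -
      ∑ k ∈ Finset.range k1, (finrank ℚ ↥(B ⊓ Submodule.span ℚ {φ | φ ∈ Φ v ∧ lv v φ ≤ k}) : ℝ))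
        - K * finrank ℚ B) < 0
  · obtain ⟨B, hB⟩ := hB
    obtain ⟨q1, hq1, TT, hTT, H⟩ := type1 Φ lv k1 hspan hlvk μ K hμ B hB
    have HT : ∀ T : Submodule ℚ (Fin d → ℚ), ∃ q : ℝ, 1 < q ∧ (T ≠ ⊤ → ∀ Q ≥ q, ∀ x ∈ T,
        PRODI_hyp a K Q x → ∀ mc : Pl → Fin (r + 1), PRODI_conc a ε Q x mc) := by
      intro T
      by_cases hT : T = ⊤
      · exact ⟨2, by norm_num, fun h => absurd hT h⟩
      · obtain ⟨q, hq, h⟩ := PRODI_sub IH a T hT K ε hK hε
        exact ⟨q, hq, fun _ => h⟩
    choose q hq hqT using HT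
    refine ⟨q1 + ∑ T ∈ TT, q T, ?_, ?_⟩
    · have : 0 ≤ ∑ T ∈ TT, q T := Finset.sum_nonneg fun T _ => by
        have := hq T; linarith
      linarith
    · intro Q hQ x hyp hlev
      have h0 : 0 ≤ ∑ T ∈ TT, q T := Finset.sum_nonneg fun T _ => by
        have := hq T; linarith
      have hQ1 : q1 ≤ Q := by linarith
      have hQ0 : 0 < Q := by linarith
      obtain ⟨T, hT, hxT⟩ := H Q hQ1 x hyp.1 (by
        intro v φ hφ
        obtain ⟨i, _, rfl⟩ := Finset.mem_image.mp hφ
        rw [hlvi]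
        by_cases hi : i = mc v
        · rw [hi, sub_self, LinearMap.zero_apply, av_zero]
          exact (Real.rpow_pos_of_pos hQ0 _).le
        · rw [LinearMap.sub_apply]
          exact (hlev v i hi).1)
      refine hqT T (hTT T hT) Q ?_ x hxT hyp mc
      have := Finset.single_le_sum (f := q) (fun T _ => by
        have := hq T; linarith) hT
      linarith
  · push Not at hB
    refine ⟨2, by norm_num, fun Q hQ x hyp hlev => ?_⟩
    have hQ1 : 1 < Q := by linarith
    set F : Pl → ℕ → Submodule ℚ (Module.Dual ℚ (Fin d → ℚ)) :=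
      fun v k => Submodule.span ℚ {φ | φ ∈ Φ v ∧ lv v φ ≤ k} with hF
    have hst := star (J := Pl × Fin k1) (fun j => F j.1 j.2) (fun _ => μ) (fun _ => hμ.le)
      (3 * (μ * k1 - K)) (by
        intro B
        have h1 := hB B
        rw [Fintype.sum_prod_type]
        have h2 : ∀ v : Pl, ∑ k : Fin k1, μ * (finrank ℚ ↥(B ⊓ F v k) : ℝ)
            = μ * ∑ k ∈ Finset.range k1, (finrank ℚ ↥(B ⊓ F v k) : ℝ) := by
          intro v
          rw [Finset.mul_sum, ← Fin.sum_univ_eq_sum_range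
            (fun k => μ * (finrank ℚ ↥(B ⊓ F v k) : ℝ))]
        simp only [h2]
        have h3 : ∑ v : Pl, (μ * ((k1 : ℝ) * finrank ℚ B -
            ∑ k ∈ Finset.range k1, (finrank ℚ ↥(B ⊓ F v k) : ℝ)) - K * finrank ℚ B)
            = 3 * (μ * k1 - K) * finrank ℚ B
              - ∑ v : Pl, μ * ∑ k ∈ Finset.range k1, (finrank ℚ ↥(B ⊓ F v k) : ℝ) := by
          rw [Fin.sum_univ_three, Fin.sum_univ_three]
          ring
        have h4 : 0 ≤ ∑ v : Pl, (μ * ((k1 : ℝ) * finrank ℚ B -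
            ∑ k ∈ Finset.range k1, (finrank ℚ ↥(B ⊓ F v k) : ℝ)) - K * finrank ℚ B) := h1
        rw [h3] at h4
        linarith)
      (Finset.univ.image a) (Finset.univ_nonempty.image a) (fun j => a (mc j.1))
    have hcard : ((Finset.univ.image a).card : ℝ) - 1 = r := by
      rw [Finset.card_image_of_injective _ ha, Finset.card_univ, Fintype.card_fin]
      push_cast
      ring
    rw [hcard, Fintype.sum_prod_type] at hst
    have hlow : ∀ v : Pl, μ * ((k1 : ℝ) * r - ∑ i ∈ Finset.univ.erase (mc v), (L v i : ℝ))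
        ≤ ∑ k : Fin k1, μ * (((Set.ncard {x | x ∈ Finset.univ.image a ∧
            x - a (mc v) ∈ F v k} : ℕ) : ℝ) - 1) := by
      intro v
      rw [← PRODI_count (L v) (mc v) (hL v) (hLm v), Finset.mul_sum,
        ← Fin.sum_univ_eq_sum_range
          (fun k => μ * (((Finset.univ.filter fun i => L v i ≤ k).card : ℝ) - 1))]
      refine Finset.sum_le_sum fun k _ => ?_
      refine mul_le_mul_of_nonneg_left ?_ hμ.le
      have h1 : (Finset.univ.filter fun i => L v i ≤ (k : ℕ)).card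
          ≤ Set.ncard {x | x ∈ Finset.univ.image a ∧ x - a (mc v) ∈ F v k} := by
        rw [← Finset.card_image_of_injective _ ha, ← Set.ncard_coe_finset]
        refine Set.ncard_le_ncard ?_ ?_
        · intro φ hφ
          obtain ⟨i, hi, rfl⟩ := Finset.mem_image.mp (Finset.mem_coe.mp hφ)
          refine ⟨Finset.mem_image_of_mem a (Finset.mem_univ i), ?_⟩
          rw [hF]
          apply Submodule.subset_span
          refine ⟨Finset.mem_image.mpr ⟨i, Finset.mem_univ i, rfl⟩, ?_⟩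
          rw [hlvi]
          exact (Finset.mem_filter.mp hi).2
        · exact (Finset.finite_toSet (Finset.univ.image a)).subset fun x hx => hx.1
      have h2 : ((Finset.univ.filter fun i => L v i ≤ (k : ℕ)).card : ℝ)
          ≤ (Set.ncard {x | x ∈ Finset.univ.image a ∧ x - a (mc v) ∈ F v k} : ℝ) := by
        exact_mod_cast h1
      linarith
    have hall : ∑ v : Pl, μ * ((k1 : ℝ) * r - ∑ i ∈ Finset.univ.erase (mc v), (L v i : ℝ))
        ≤ 3 * (μ * k1 - K) * r := le_trans (Finset.sum_le_sum fun v _ => hlow v) hst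
    have hLlow : 3 * K * r ≤ ∑ v : Pl, μ * ∑ i ∈ Finset.univ.erase (mc v), (L v i : ℝ) := by
      have h1 : ∑ v : Pl, μ * ((k1 : ℝ) * r - ∑ i ∈ Finset.univ.erase (mc v), (L v i : ℝ))
          = 3 * μ * k1 * r - ∑ v : Pl, μ * ∑ i ∈ Finset.univ.erase (mc v), (L v i : ℝ) := by
        rw [Fin.sum_univ_three, Fin.sum_univ_three]
        ring
      rw [h1] at hall
      linarith
    have hup : ∑ v : Pl, μ * ∑ i ∈ Finset.univ.erase (mc v), (L v i : ℝ)
        ≤ ∑ v : Pl, ((∑ i ∈ Finset.univ.erase (mc v),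
            Real.logb Q (av v (a i x - a (mc v) x))) + r * (K + μ)) := by
      refine Finset.sum_le_sum fun v _ => ?_
      rw [Finset.mul_sum]
      have h1 : ∑ i ∈ Finset.univ.erase (mc v), μ * (L v i : ℝ)
          ≤ ∑ i ∈ Finset.univ.erase (mc v),
            (Real.logb Q (av v (a i x - a (mc v) x)) + (K + μ)) := by
        refine Finset.sum_le_sum fun i hi => ?_
        have := (hlev v i (Finset.ne_of_mem_erase hi)).2
        linarith
      rw [Finset.sum_add_distrib, Finset.sum_const,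
        Finset.card_erase_of_mem (Finset.mem_univ (mc v)), Finset.card_univ,
        Fintype.card_fin, Nat.add_sub_cancel, nsmul_eq_mul] at h1
      exact h1
    have hlogQ : 0 < Real.log Q := Real.log_pos hQ1
    unfold PRODI_conc
    have h2 : ∑ v : Pl, ((∑ i ∈ Finset.univ.erase (mc v),
            Real.logb Q (av v (a i x - a (mc v) x))) + r * (K + μ))
        = (∑ v : Pl, ∑ i ∈ Finset.univ.erase (mc v),
            Real.log (av v (a i x - a (mc v) x))) / Real.log Q + 3 * (r * (K + μ)) := by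
      rw [Finset.sum_add_distrib, Finset.sum_const, Finset.card_univ, Fintype.card_fin,
        Finset.sum_div]
      congr 1
      · refine Finset.sum_congr rfl fun v _ => ?_
        rw [Finset.sum_div]
        rfl
      · rw [nsmul_eq_mul]
        norm_num
    rw [h2] at hup
    have h3 : -ε ≤ (∑ v : Pl, ∑ i ∈ Finset.univ.erase (mc v),
            Real.log (av v (a i x - a (mc v) x))) / Real.log Q := by
      nlinarith
    rw [le_div_iff₀ hlogQ] at h3
    linarith

/-- PRODI: the product inequality. -/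
theorem prod_ineq {d r : ℕ} (a : Fin (r + 1) → Module.Dual ℚ (Fin d → ℚ)) (K ε : ℝ)
    (hK : 0 < K) (hε : 0 < ε) :
    ∃ Q0 : ℝ, 1 < Q0 ∧ ∀ Q ≥ Q0, ∀ x : Fin d → ℚ, InRn x → (∀ i j, i ≠ j → a i x ≠ a j x) →
      (∀ v i j, i ≠ j → Q ^ (-K) ≤ av v (a i x - a j x) ∧ av v (a i x - a j x) ≤ Q ^ K) →
      ∀ mc : Pl → Fin (r + 1),
        -(ε * Real.log Q) ≤
          ∑ v, ∑ i ∈ Finset.univ.erase (mc v), Real.log (av v (a i x - a (mc v) x)) := by
  classical
  have main : ∀ d, PRODI_st d := by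
    intro d
    induction d using Nat.strong_induction_on with
    | _ d IH =>
    intro r a K ε hK hε
    by_cases ha : Function.Injective a
    · by_cases hs : Submodule.span ℚ (Set.range fun i => a i - a 0) = ⊤
      · -- the main case
        set μ : ℝ := ε / (3 * (r + 1)) with hμd
        have hr0 : (0 : ℝ) ≤ r := Nat.cast_nonneg r
        have hμ : 0 < μ := by positivity
        have hμε : 3 * (r : ℝ) * μ ≤ ε := by
          rw [hμd, mul_div_assoc', div_le_iff₀ (by positivity)]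
          nlinarith
        set k1 : ℕ := ⌈2 * K / μ⌉₊ with hk1
        have HX : ∀ y : (Pl → Fin (r + 1) → ℕ) × (Pl → Fin (r + 1)), ∃ q : ℝ, 1 < q ∧
            ((∀ v i, y.1 v i ≤ k1) → (∀ v, y.1 v (y.2 v) = 0) →
              ∀ Q ≥ q, ∀ x : Fin d → ℚ, PRODI_hyp a K Q x →
              (∀ v i, i ≠ y.2 v → av v (a i x - a (y.2 v) x) ≤ Q ^ (μ * (y.1 v i : ℝ) - K) ∧
                μ * (y.1 v i : ℝ) ≤ Real.logb Q (av v (a i x - a (y.2 v) x)) + K + μ) →
              PRODI_conc a ε Q x y.2) := by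
          intro y
          by_cases hy : (∀ v i, y.1 v i ≤ k1) ∧ (∀ v, y.1 v (y.2 v) = 0)
          · obtain ⟨q, hq, h⟩ := PRODI_type IH a ha hs K ε μ hK hε hμ hμε k1 y.1 y.2 hy.1 hy.2
            exact ⟨q, hq, fun _ _ => h⟩
          · exact ⟨2, by norm_num, fun h1 h2 => absurd ⟨h1, h2⟩ hy⟩
        choose q hq H using HX
        set E : Finset ((Pl → Fin (r + 1) → ℕ) × (Pl → Fin (r + 1))) :=
          (Fintype.piFinset fun _ => Fintype.piFinset fun _ => Finset.range (k1 + 1)) ×ˢ
            Finset.univ with hE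
        have hnn : 0 ≤ ∑ y ∈ E, q y := Finset.sum_nonneg fun y _ => by
          have := hq y; linarith
        refine ⟨2 + ∑ y ∈ E, q y, by linarith, fun Q hQ x hyp mc => ?_⟩
        have hQ1 : 1 < Q := by linarith
        have hQ0 : 0 < Q := by linarith
        set L : Pl → Fin (r + 1) → ℕ := fun v i =>
          if i = mc v then 0 else ⌈(Real.logb Q (av v (a i x - a (mc v) x)) + K) / μ⌉₊ with hLd
        have hne : ∀ v i, i ≠ mc v → 0 < av v (a i x - a (mc v) x) := fun v i hi =>
          av_pos v (sub_ne_zero.mpr (hyp.2.1 i (mc v) hi))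
        have hb1 : ∀ v i, i ≠ mc v → 0 ≤ Real.logb Q (av v (a i x - a (mc v) x)) + K := by
          intro v i hi
          have h1 := (hyp.2.2 v i (mc v) hi).1
          have h2 := (Real.le_logb_iff_rpow_le hQ1 (hne v i hi)).mpr h1
          linarith
        have hb2 : ∀ v i, i ≠ mc v → Real.logb Q (av v (a i x - a (mc v) x)) ≤ K := by
          intro v i hi
          have h1 := (hyp.2.2 v i (mc v) hi).2
          exact (Real.logb_le_iff_le_rpow hQ1 (hne v i hi)).mpr h1
        have hLk : ∀ v i, L v i ≤ k1 := by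
          intro v i
          rw [hLd]
          by_cases hi : i = mc v
          · simp [hi]
          · simp only [hi, if_false]
            rw [hk1]
            apply Nat.ceil_le_ceil
            gcongr
            have := hb2 v i hi
            linarith
        have hLm : ∀ v, L v (mc v) = 0 := by
          intro v
          rw [hLd]
          simp
        have hmem : (L, mc) ∈ E := by
          rw [hE, Finset.mem_product, Fintype.mem_piFinset]
          refine ⟨fun v => ?_, Finset.mem_univ _⟩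
          rw [Fintype.mem_piFinset]
          intro i
          rw [Finset.mem_range]
          exact Nat.lt_succ_of_le (hLk v i)
        have hqQ : q (L, mc) ≤ Q := by
          have := Finset.single_le_sum (f := q) (fun y _ => by
            have := hq y; linarith) hmem
          linarith
        refine H (L, mc) hLk hLm Q hqQ x hyp ?_
        intro v i hi
        have hLi : L v i = ⌈(Real.logb Q (av v (a i x - a (mc v) x)) + K) / μ⌉₊ := by
          rw [hLd]
          simp only [hi, if_false]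
        have h1 : (Real.logb Q (av v (a i x - a (mc v) x)) + K) / μ ≤ (L v i : ℝ) := by
          rw [hLi]; exact Nat.le_ceil _
        have h2 : (L v i : ℝ) < (Real.logb Q (av v (a i x - a (mc v) x)) + K) / μ + 1 := by
          rw [hLi]
          exact Nat.ceil_lt_add_one (div_nonneg (hb1 v i hi) hμ.le)
        rw [div_le_iff₀ hμ] at h1
        have h3 : μ * (L v i : ℝ) < μ * ((Real.logb Q (av v (a i x - a (mc v) x)) + K) / μ + 1) :=
          mul_lt_mul_of_pos_left h2 hμ
        have h4 : μ * ((Real.logb Q (av v (a i x - a (mc v) x)) + K) / μ + 1)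
            = Real.logb Q (av v (a i x - a (mc v) x)) + K + μ := by
          field_simp
        constructor
        · change av v (a i x - a (mc v) x) ≤ Q ^ (μ * (L v i : ℝ) - K)
          rw [← Real.logb_le_iff_le_rpow hQ1 (hne v i hi)]
          linarith
        · change μ * (L v i : ℝ) ≤ _
          linarith
      · exact PRODI_nospan IH a hs K ε hK hε
    · -- two equal forms: no point satisfies the hypotheses
      refine ⟨2, by norm_num, fun Q _ x hyp mc => ?_⟩
      exfalso
      apply ha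
      intro i j hij
      by_contra hne
      exact hyp.2.1 i j hne (by rw [hij])
  obtain ⟨Q0, hQ0, H⟩ := main d r a K ε hK hε
  exact ⟨Q0, hQ0, fun Q hQ x h1 h2 h3 mc => H Q hQ x ⟨h1, h2, h3⟩ mc⟩

end Pool.Agent.SubT
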