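import Pool.Agent.SubT.ProdIneq

/-! Module PRODP. Text: team-store MP_e27144_an_pr_growth_helper66.md.
HINT: prod_ineq with d = r+1 and the coordinate forms; lower bounds from the product formula. -/

namespace Pool.Agent.SubT

open scoped BigOperators ENNReal

open MeasureTheory Set Filter Topology

open Module

/-- lower bound at one place from upper bounds at the other places -/
private theorem PRODP_low {x : ℚ} (h : InR x) (h0 : x ≠ 0) {B : ℝ} (hB : 0 < B)
    (hx : ∀ v : Pl, av v x ≤ B) (v : Pl) : (B ^ 2)⁻¹ ≤ av v x := by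
  have h1 := prod_av_ge_one h h0
  rw [← Finset.mul_prod_erase Finset.univ (fun w => av w x) (Finset.mem_univ v)] at h1
  have h2 : ∏ w ∈ Finset.univ.erase v, av w x ≤ B ^ 2 := by
    have h3 : ∏ w ∈ Finset.univ.erase v, av w x ≤ ∏ _w ∈ Finset.univ.erase v, B :=
      Finset.prod_le_prod (fun w _ => av_nonneg w x) (fun w _ => hx w)
    rw [Finset.prod_const, Finset.card_erase_of_mem (Finset.mem_univ v), Finset.card_univ,
      Fintype.card_fin] at h3
    exact h3
  have h4 : 0 < B ^ 2 := by positivity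
  rw [inv_le_iff_one_le_mul₀' h4]
  calc (1 : ℝ) ≤ av v x * ∏ w ∈ Finset.univ.erase v, av w x := h1
    _ ≤ av v x * B ^ 2 := mul_le_mul_of_nonneg_left h2 (av_nonneg v x)
    _ = B ^ 2 * av v x := mul_comm _ _

/-- PRODP: the product inequality for points of `Z[1/6]`. -/
theorem prod_pts (r : ℕ) (K ε : ℝ) (hK : 0 < K) (hε : 0 < ε) :
    ∃ Q0 : ℝ, 1 < Q0 ∧ ∀ Q ≥ Q0, ∀ q : Fin (r + 1) → ℚ, (∀ i, InR (q i)) →
      Function.Injective q →
      (∀ v i j, i ≠ j → av v (q i - q j) ≤ Q ^ K) →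
      ∀ mc : Pl → Fin (r + 1),
        -(ε * Real.log Q) ≤
          ∑ v, ∑ i ∈ Finset.univ.erase (mc v), Real.log (av v (q i - q (mc v))) := by
  obtain ⟨Q0, hQ0, H⟩ := prod_ineq (d := r + 1)
    (fun i : Fin (r + 1) => (LinearMap.proj i : (Fin (r + 1) → ℚ) →ₗ[ℚ] ℚ)) (2 * K) ε
    (by linarith) hε
  refine ⟨Q0, hQ0, fun Q hQ q hq hinj hub mc => ?_⟩
  have hQ1 : 1 < Q := lt_of_lt_of_le hQ0 hQ
  have hQp : 0 < Q := by linarith
  have hne : ∀ i j, i ≠ j → q i - q j ≠ 0 := fun i j hij h => hij (hinj (sub_eq_zero.mp h))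
  have hm := H Q hQ q hq (fun i j hij h => hij (hinj h)) (fun v i j hij => ?_) mc
  · exact hm
  · constructor
    · have h1 := PRODP_low (inR_sub (hq i) (hq j)) (hne i j hij) (Real.rpow_pos_of_pos hQp K)
        (fun w => hub w i j hij) v
      have h2 : ((Q ^ K) ^ 2)⁻¹ = Q ^ (-(2 * K)) := by
        rw [Real.rpow_neg hQp.le, mul_comm 2 K, Real.rpow_mul hQp.le, Real.rpow_two]
      rw [h2] at h1
      exact h1
    · refine le_trans (hub v i j hij) ?_
      exact Real.rpow_le_rpow_of_exponent_le hQ1.le (by linarith)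

end Pool.Agent.SubT
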