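import Pool.Agent.SubT.Defs

/-! Module RESQ. Text: team-store MP_e27144_an_pr_growth_helper66.md.
HINT: (3.4): y a divides the product over b != a of y a / gcd(y a, y b) (a common prime power argument or: the ideal generated by all y b is 1); so some factor^n >= |y a|. -/

namespace Pool.Agent.SubT

open scoped BigOperators ENNReal

open MeasureTheory Set Filter Topology

/-- RESQ: some pair of coordinates of a primitive vector has large height. -/
theorem exists_pair {n : ℕ} (y : Fin (n + 1) → ℤ) (hprim : ∃ b : Fin (n + 1) → ℤ, ∑ k, b k * y k = 1)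
    (a : Fin (n + 1)) (ha : ∀ k, |y k| ≤ |y a|) (hbig : 2 ≤ |y a|) :
    ∃ b : Fin (n + 1), b ≠ a ∧
      ((|y a| : ℤ) : ℝ) ≤ (((|y a| / (Int.gcd (y a) (y b) : ℤ) : ℤ)) : ℝ) ^ n := by
  classical
  obtain ⟨c, hc⟩ := hprim
  have hya : y a ≠ 0 := by
    intro h
    rw [h] at hbig
    simp at hbig
  have hg : ∀ b, 0 < (Int.gcd (y a) (y b) : ℤ) := by
    intro b
    have := Int.gcd_pos_of_ne_zero_left (y b) hya
    exact_mod_cast this
  have hdvd : ∀ b, (Int.gcd (y a) (y b) : ℤ) ∣ |y a| := fun b =>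
    (dvd_abs _ _).2 (Int.gcd_dvd_left _ _)
  have hgq : ∀ b, (Int.gcd (y a) (y b) : ℤ) * (|y a| / (Int.gcd (y a) (y b) : ℤ)) = |y a| :=
    fun b => Int.mul_ediv_cancel' (hdvd b)
  have hq : ∀ b, 0 < |y a| / (Int.gcd (y a) (y b) : ℤ) := by
    intro b
    have h1 := hgq b
    have h2 := hg b
    by_contra hneg
    push Not at hneg
    have h3 : (Int.gcd (y a) (y b) : ℤ) * (|y a| / (Int.gcd (y a) (y b) : ℤ)) ≤ 0 :=
      mul_nonpos_of_nonneg_of_nonpos h2.le hneg
    omega
  obtain ⟨P, hP⟩ : ∃ P : ℤ, P = ∏ b ∈ Finset.univ.erase a, |y a| / (Int.gcd (y a) (y b) : ℤ) :=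
    ⟨_, rfl⟩
  have hP0 : 0 < P := by
    rw [hP]
    exact Finset.prod_pos fun b _ => hq b
  have hdiv : ∀ b, |y a| ∣ y b * P := by
    intro b
    by_cases hb : b = a
    · subst hb
      exact Dvd.dvd.mul_right ((abs_dvd _ _).2 dvd_rfl) _
    · have hmem : b ∈ Finset.univ.erase a := Finset.mem_erase.2 ⟨hb, Finset.mem_univ _⟩
      rw [hP, ← Finset.mul_prod_erase _ _ hmem, ← mul_assoc]
      apply Dvd.dvd.mul_right
      obtain ⟨d, hd⟩ : (Int.gcd (y a) (y b) : ℤ) ∣ y b := Int.gcd_dvd_right _ _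
      refine ⟨d, ?_⟩
      conv_lhs => rw [hd]
      rw [mul_right_comm, ← hd, hgq b, mul_comm]
      try rw [hgq b]
  have hdP : |y a| ∣ P := by
    have h1 : P = ∑ k, c k * (y k * P) := by
      have h2 : ∑ k, c k * (y k * P) = (∑ k, c k * y k) * P := by
        rw [Finset.sum_mul]
        exact Finset.sum_congr rfl fun k _ => by ring
      rw [h2, hc, one_mul]
    rw [h1]
    exact Finset.dvd_sum fun k _ => (hdiv k).mul_left _
  have hle : |y a| ≤ P := Int.le_of_dvd hP0 hdP
  by_contra hcon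
  push Not at hcon
  have hcard : (Finset.univ.erase a).card = n := by
    rw [Finset.card_erase_of_mem (Finset.mem_univ _), Finset.card_univ, Fintype.card_fin]
    rfl
  by_cases hn : n = 0
  · subst hn
    have h1 : P = 1 := by
      rw [hP, Finset.card_eq_zero.1 hcard, Finset.prod_empty]
    omega
  · have hne : (Finset.univ.erase a).Nonempty := by
      rw [← Finset.card_pos, hcard]
      omega
    have h1 : ∏ b ∈ Finset.univ.erase a, (((|y a| / (Int.gcd (y a) (y b) : ℤ) : ℤ)) : ℝ) ^ n <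
        ∏ _b ∈ Finset.univ.erase a, ((|y a| : ℤ) : ℝ) := by
      refine Finset.prod_lt_prod_of_nonempty ?_ ?_ hne
      · intro b _
        have := hq b
        have h2 : (0 : ℝ) < ((|y a| / (Int.gcd (y a) (y b) : ℤ) : ℤ) : ℝ) := by exact_mod_cast this
        positivity
      · intro b hb
        exact hcon b (Finset.mem_erase.1 hb).1
    rw [Finset.prod_const, hcard, Finset.prod_pow] at h1
    have h2 : (∏ b ∈ Finset.univ.erase a, (((|y a| / (Int.gcd (y a) (y b) : ℤ) : ℤ)) : ℝ)) =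
        (P : ℝ) := by
      rw [hP]
      push_cast
      rfl
    rw [h2] at h1
    have h3 : ((|y a| : ℤ) : ℝ) ≤ (P : ℝ) := by exact_mod_cast hle
    have h4 : (0 : ℝ) ≤ ((|y a| : ℤ) : ℝ) := by
      have : (0 : ℤ) ≤ |y a| := abs_nonneg _
      exact_mod_cast this
    have h5 := pow_le_pow_left₀ h4 h3 n
    linarith

end Pool.Agent.SubT
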