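import Pool.Agent.SubT.Defs

/-! Module SPLIT: (1.4) of the text. -/

namespace Pool.Agent.SubT

open scoped BigOperators

theorem split {m : ℕ} (P : MvPolynomial (Fin (m + 1)) ℤ) (hP : P ≠ 0) :
    ∃ k : ℕ, 1 ≤ k ∧ k ≤ P.degreeOf 0 + 1 ∧ ∃ e : Fin k → ℕ, ∃ ψ : Fin k → Polynomial ℚ,
      LinearIndependent ℚ (fun j => MvPolynomial.map (Int.castRingHom ℚ)
        ((MvPolynomial.finSuccEquiv ℤ m P).coeff (e j))) ∧
      LinearIndependent ℚ ψ ∧
      ∀ i : ℕ, MvPolynomial.map (Int.castRingHom ℚ) ((MvPolynomial.finSuccEquiv ℤ m P).coeff i) =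
        ∑ j, MvPolynomial.C ((ψ j).coeff i) * MvPolynomial.map (Int.castRingHom ℚ)
          ((MvPolynomial.finSuccEquiv ℤ m P).coeff (e j)) := by
  classical
  set F := MvPolynomial.finSuccEquiv ℤ m P with hF
  set d := P.degreeOf 0 with hd
  have hdeg : F.natDegree = d := MvPolynomial.natDegree_finSuccEquiv P
  let c : ℕ → MvPolynomial (Fin m) ℚ := fun i => MvPolynomial.map (Int.castRingHom ℚ) (F.coeff i)
  have hc0 : ∀ i, d < i → c i = 0 := by
    intro i hi
    show MvPolynomial.map (Int.castRingHom ℚ) (F.coeff i) = 0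
    rw [Polynomial.coeff_eq_zero_of_natDegree_lt (by rw [hdeg]; exact hi), map_zero]
  obtain ⟨κ, a, ha, hspan, hind⟩ := exists_linearIndependent' ℚ (fun i : Fin (d + 1) => c i.val)
  have : Finite κ := Finite.of_injective a ha
  haveI : Fintype κ := Fintype.ofFinite κ
  let k := Fintype.card κ
  let eq : Fin k ≃ κ := (Fintype.equivFin κ).symm
  let e : Fin k → ℕ := fun j => (a (eq j)).val
  have hind' : LinearIndependent ℚ (fun j : Fin k => c (e j)) := hind.comp eq eq.injective
  have hmem : ∀ i, c i ∈ Submodule.span ℚ (Set.range (fun j : Fin k => c (e j))) := by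
    intro i
    have h1 : Set.range (fun j : Fin k => c (e j)) =
        Set.range ((fun i : Fin (d + 1) => c i.val) ∘ a) := by
      ext x
      constructor
      · rintro ⟨j, rfl⟩
        exact ⟨eq j, rfl⟩
      · rintro ⟨y, rfl⟩
        refine ⟨eq.symm y, ?_⟩
        show c (a (eq (eq.symm y))).val = c (a y).val
        rw [eq.apply_symm_apply]
    rw [h1, hspan]
    by_cases hi : i ≤ d
    · exact Submodule.subset_span ⟨⟨i, by omega⟩, rfl⟩
    · rw [hc0 i (by omega)]
      exact Submodule.zero_mem _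
  let b := Module.Basis.span hind'
  have hb : ∀ j, (b j : MvPolynomial (Fin m) ℚ) = c (e j) := fun j => congrArg Subtype.val (Module.Basis.span_apply hind' j)
  let co : ℕ → Fin k → ℚ := fun i j => b.repr ⟨c i, hmem i⟩ j
  have hco : ∀ i, c i = ∑ j, MvPolynomial.C (co i j) * c (e j) := by
    intro i
    have h1 := b.sum_repr ⟨c i, hmem i⟩
    have h2 := congrArg Subtype.val h1
    rw [Submodule.coe_sum] at h2
    refine h2.symm.trans ?_
    refine Finset.sum_congr rfl fun j _ => ?_
    rw [Submodule.coe_smul, hb, MvPolynomial.smul_eq_C_mul]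
  have hco0 : ∀ i, d < i → ∀ j, co i j = 0 := by
    intro i hi j
    show b.repr ⟨c i, hmem i⟩ j = 0
    have : (⟨c i, hmem i⟩ : Submodule.span ℚ (Set.range (fun j : Fin k => c (e j)))) = 0 :=
      Subtype.ext (hc0 i hi)
    rw [this, map_zero]
    rfl
  have hcoe : ∀ l j, co (e l) j = if j = l then 1 else 0 := by
    intro l j
    show b.repr ⟨c (e l), hmem (e l)⟩ j = _
    have : (⟨c (e l), hmem (e l)⟩ : Submodule.span ℚ (Set.range (fun j : Fin k => c (e j)))) = b l :=
      Subtype.ext (hb l).symm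
    rw [this, Module.Basis.repr_self, Finsupp.single_apply]
    by_cases h : l = j
    · rw [if_pos h, if_pos h.symm]
    · rw [if_neg h, if_neg (fun h' => h h'.symm)]
  let ψ : Fin k → Polynomial ℚ := fun j => ∑ i ∈ Finset.range (d + 1), Polynomial.monomial i (co i j)
  have hψ : ∀ j i, (ψ j).coeff i = co i j := by
    intro j i
    show (∑ i ∈ Finset.range (d + 1), Polynomial.monomial i (co i j)).coeff i = co i j
    rw [Polynomial.finsetSum_coeff]
    simp only [Polynomial.coeff_monomial]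
    rw [Finset.sum_ite_eq' (Finset.range (d + 1)) i (fun i => co i j)]
    split_ifs with h
    · rfl
    · rw [Finset.mem_range, not_lt] at h
      exact (hco0 i (by omega) j).symm
  refine ⟨k, ?_, ?_, e, ψ, hind', ?_, ?_⟩
  · by_contra h
    have hk : k = 0 := by omega
    have hzero : ∀ i, c i = 0 := by
      intro i
      rw [hco i]
      haveI : IsEmpty (Fin k) := by rw [hk]; exact Fin.isEmpty
      exact Finset.sum_of_isEmpty _
    apply hP
    have hF0 : F = 0 := by
      ext1 i
      have h1 : MvPolynomial.map (Int.castRingHom ℚ) (F.coeff i) =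
          MvPolynomial.map (Int.castRingHom ℚ) 0 := by
        rw [map_zero]; exact hzero i
      exact MvPolynomial.map_injective _ (RingHom.injective_int _) h1
    rw [hF] at hF0
    exact (MvPolynomial.finSuccEquiv ℤ m).injective (by rw [hF0, map_zero])
  · have h1 := Fintype.card_le_of_injective a ha
    rw [Fintype.card_fin] at h1
    exact h1
  · rw [Fintype.linearIndependent_iff]
    intro g hg l
    have h1 := congrArg (fun q : Polynomial ℚ => q.coeff (e l)) hg
    simp only [Polynomial.finsetSum_coeff, Polynomial.coeff_smul, hψ, hcoe, smul_eq_mul,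
      Polynomial.coeff_zero, mul_ite, mul_one, mul_zero] at h1
    rw [Finset.sum_ite_eq' Finset.univ l g, if_pos (Finset.mem_univ l)] at h1
    exact h1
  · intro i
    have h1 := hco i
    rw [show MvPolynomial.map (Int.castRingHom ℚ) (F.coeff i) = c i from rfl, h1]
    refine Finset.sum_congr rfl fun j _ => ?_
    rw [hψ]

theorem SPLIT_gauss (N : ℕ) : ∑ j ∈ Finset.range N, (j : ℝ) = N * ((N : ℝ) - 1) / 2 := by
  induction N with
  | zero => simp
  | succ N ih =>
    rw [Finset.sum_range_succ, ih]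
    push_cast
    ring

/-- (1.5) of the text. -/
theorem num15 (θ : ℝ) (hθ : 0 ≤ θ) (r k : ℕ) (hr : 1 ≤ r) (hk : 1 ≤ k) (hkr : k ≤ r + 1) :
    (k : ℝ) * min (θ / 2) (θ ^ 2 / 4) ≤
      ∑ j ∈ Finset.range k, max (θ - (j : ℝ) / (r : ℝ)) 0 := by
  have hr0 : (0 : ℝ) < r := by exact_mod_cast hr
  have key : ∀ N : ℕ, N ≤ k → 1 ≤ N → ((N : ℝ) - 1) ≤ θ * r →
      (N : ℝ) * (θ / 2) ≤ ∑ j ∈ Finset.range k, max (θ - (j : ℝ) / (r : ℝ)) 0 := by
    intro N hN hN1 hNr
    have h1 : ∑ j ∈ Finset.range N, (θ - (j : ℝ) / (r : ℝ)) ≤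
        ∑ j ∈ Finset.range k, max (θ - (j : ℝ) / (r : ℝ)) 0 := by
      calc ∑ j ∈ Finset.range N, (θ - (j : ℝ) / (r : ℝ)) ≤
          ∑ j ∈ Finset.range N, max (θ - (j : ℝ) / (r : ℝ)) 0 :=
            Finset.sum_le_sum fun j _ => le_max_left _ _
        _ ≤ _ := Finset.sum_le_sum_of_subset_of_nonneg
            (Finset.range_subset_range.2 hN) fun j _ _ => le_max_right _ _
    refine le_trans ?_ h1
    rw [Finset.sum_sub_distrib, Finset.sum_const, Finset.card_range, nsmul_eq_mul,
      ← Finset.sum_div, SPLIT_gauss]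
    have h2 : (N : ℝ) * ((N : ℝ) - 1) / 2 / r ≤ N * (θ / 2) := by
      rw [div_le_iff₀ hr0]
      have hN0 : (0 : ℝ) ≤ N := Nat.cast_nonneg N
      nlinarith
    linarith
  by_cases hcase : (k : ℝ) - 1 ≤ θ * r
  · refine le_trans ?_ (key k le_rfl hk hcase)
    exact mul_le_mul_of_nonneg_left (min_le_left _ _) (Nat.cast_nonneg k)
  · rw [not_le] at hcase
    have hfl : (⌊θ * r⌋₊ : ℝ) ≤ θ * r := Nat.floor_le (by positivity)
    have hfl2 : θ * r < ⌊θ * r⌋₊ + 1 := Nat.lt_floor_add_one _
    have hNk : ⌊θ * r⌋₊ + 1 ≤ k := by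
      have h3 : (⌊θ * r⌋₊ : ℝ) + 1 < k := by linarith
      have h4 : ⌊θ * r⌋₊ + 1 < k := by exact_mod_cast h3
      exact h4.le
    have h5 := key (⌊θ * r⌋₊ + 1) hNk (by omega) (by push_cast; linarith)
    refine le_trans ?_ h5
    push_cast
    have hkr' : (k : ℝ) ≤ 2 * r := by
      have h6 : (k : ℝ) ≤ r + 1 := by exact_mod_cast hkr
      have h7 : (1 : ℝ) ≤ r := by exact_mod_cast hr
      linarith
    calc (k : ℝ) * min (θ / 2) (θ ^ 2 / 4) ≤ (2 * r) * (θ ^ 2 / 4) :=
          mul_le_mul hkr' (min_le_right _ _) (by positivity) (by positivity)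
      _ = (θ * r) * (θ / 2) := by ring
      _ ≤ _ := mul_le_mul_of_nonneg_right hfl2.le (by positivity)

end Pool.Agent.SubT
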