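import Pool.Agent.SubT.Nrm
import Pool.Agent.SubT.Ord
import Pool.Agent.SubT.GWron
import Pool.Agent.SubT.Gauss
import Pool.Agent.SubT.Split

/-! Module ROTH: Roth's lemma, (1.6) of the text. -/

namespace Pool.Agent.SubT

open scoped BigOperators

theorem om_pos (m : ℕ) {ε : ℝ} (h : 0 < ε) : 0 < om m ε := by
  induction m generalizing ε with
  | zero => simp [om]
  | succ m ih =>
    have h2 : 0 < ε ^ 2 / 12 := by positivity
    have h3 := ih h2
    simp only [om]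
    exact lt_min (by linarith) (by positivity)

theorem om_le_one (m : ℕ) {ε : ℝ} (h : 0 < ε) (h1 : ε ≤ 1) : om m ε ≤ 1 := by
  cases m with
  | zero => simp [om]
  | succ m =>
    simp only [om]
    refine (min_le_right _ _).trans ?_
    nlinarith

/-! ### coefficients of Hasse derivatives -/

theorem ROTH_coeff_hd {σ R : Type*} [Fintype σ] [CommSemiring R] (μ : σ →₀ ℕ)
    (P : MvPolynomial σ R) (n : σ →₀ ℕ) :
    (hd μ P).coeff n = (∏ i, (((n i + μ i).choose (μ i) : ℕ) : R)) * P.coeff (n + μ) := by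
  classical
  unfold hd
  rw [MvPolynomial.coeff_sum]
  have hz : ∀ m ∈ P.support, m ≠ n + μ →
      MvPolynomial.coeff n (MvPolynomial.monomial (m - μ)
        ((∏ i, (((m i).choose (μ i) : ℕ) : R)) * P.coeff m)) = 0 := by
    intro m _ hne
    rw [MvPolynomial.coeff_monomial]
    split_ifs with h
    · by_cases hle : μ ≤ m
      · exact absurd (by rw [← h, tsub_add_cancel_of_le hle]) hne
      · have : ∃ i, ¬ μ i ≤ m i := by
          by_contra hcon
          push Not at hcon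
          exact hle (fun i => hcon i)
        obtain ⟨i, hi⟩ := this
        have : (∏ i, (((m i).choose (μ i) : ℕ) : R)) = 0 := by
          apply Finset.prod_eq_zero (Finset.mem_univ i)
          rw [Nat.choose_eq_zero_of_lt (by omega)]
          simp
        rw [this, zero_mul]
    · rfl
  by_cases hs : n + μ ∈ P.support
  · rw [Finset.sum_eq_single (n + μ)]
    · rw [MvPolynomial.coeff_monomial, if_pos (by simp)]
      rfl
    · exact hz
    · exact fun h => absurd hs h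
  · rw [Finset.sum_eq_zero]
    · rw [MvPolynomial.notMem_support_iff.mp hs, mul_zero]
    · intro m hm
      exact hz m hm (fun h => hs (h ▸ hm))

theorem ROTH_map_hd {σ R S : Type*} [Fintype σ] [CommSemiring R] [CommSemiring S] (f : R →+* S)
    (μ : σ →₀ ℕ) (P : MvPolynomial σ R) :
    MvPolynomial.map f (hd μ P) = hd μ (MvPolynomial.map f P) := by
  ext n
  rw [MvPolynomial.coeff_map, ROTH_coeff_hd, ROTH_coeff_hd, MvPolynomial.coeff_map]
  simp

theorem ROTH_finSucc_hd {R : Type*} [CommSemiring R] {m : ℕ} (a : ℕ) (μ : Fin m →₀ ℕ)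
    (P : MvPolynomial (Fin (m + 1)) R) (n : ℕ) :
    (MvPolynomial.finSuccEquiv R m (hd (μ.cons a) P)).coeff n =
      MvPolynomial.C ((((n + a).choose a : ℕ) : R)) *
        hd μ ((MvPolynomial.finSuccEquiv R m P).coeff (n + a)) := by
  ext ν
  rw [MvPolynomial.finSuccEquiv_coeff_coeff, MvPolynomial.coeff_C_mul, ROTH_coeff_hd,
    ROTH_coeff_hd, MvPolynomial.finSuccEquiv_coeff_coeff, Fin.prod_univ_succ, mul_assoc]
  have h : (Finsupp.cons n ν + Finsupp.cons a μ : Fin (m + 1) →₀ ℕ) =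
      Finsupp.cons (n + a) (ν + μ) := by
    ext i
    refine Fin.cases ?_ (fun i => ?_) i <;> simp
  rw [h]
  simp

/-- Maps of coefficients commute with `finSuccEquiv`. -/
theorem ROTH_finSucc_map {R S : Type*} [CommSemiring R] [CommSemiring S] (f : R →+* S) {m : ℕ}
    (P : MvPolynomial (Fin (m + 1)) R) (n : ℕ) :
    (MvPolynomial.finSuccEquiv S m (MvPolynomial.map f P)).coeff n =
      MvPolynomial.map f ((MvPolynomial.finSuccEquiv R m P).coeff n) := by
  ext ν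
  rw [MvPolynomial.finSuccEquiv_coeff_coeff, MvPolynomial.coeff_map, MvPolynomial.coeff_map,
    MvPolynomial.finSuccEquiv_coeff_coeff]

theorem ROTH_hd_sum {σ R α : Type*} [Fintype σ] [CommSemiring R] (μ : σ →₀ ℕ) (s : Finset α)
    (a : α → R) (F : α → MvPolynomial σ R) :
    hd μ (∑ j ∈ s, MvPolynomial.C (a j) * F j) = ∑ j ∈ s, MvPolynomial.C (a j) * hd μ (F j) := by
  ext n
  simp only [ROTH_coeff_hd, MvPolynomial.coeff_sum, MvPolynomial.coeff_C_mul, Finset.mul_sum]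
  exact Finset.sum_congr rfl fun j _ => by ring

/-- The factorisation of the determinant. -/
theorem ROTH_factor {m k : ℕ} (P : MvPolynomial (Fin (m + 1)) ℤ) (e : Fin k → ℕ)
    (ψ : Fin k → Polynomial ℚ)
    (hs : ∀ i : ℕ, MvPolynomial.map (Int.castRingHom ℚ)
        ((MvPolynomial.finSuccEquiv ℤ m P).coeff i) =
        ∑ j, MvPolynomial.C ((ψ j).coeff i) * MvPolynomial.map (Int.castRingHom ℚ)
          ((MvPolynomial.finSuccEquiv ℤ m P).coeff (e j)))
    (μ : Fin k → (Fin m →₀ ℕ)) :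
    MvPolynomial.finSuccEquiv ℚ m (MvPolynomial.map (Int.castRingHom ℚ)
      (Matrix.det (Matrix.of fun i j : Fin k => hd ((μ i).cons (j : ℕ)) P))) =
    Polynomial.C (MvPolynomial.map (Int.castRingHom ℚ) (Matrix.det (Matrix.of fun i j : Fin k =>
      hd (μ i) ((MvPolynomial.finSuccEquiv ℤ m P).coeff (e j))))) *
    (Matrix.det (Matrix.of fun i j : Fin k =>
      Polynomial.hasseDeriv (i : ℕ) (ψ j))).map MvPolynomial.C := by
  have e1 : MvPolynomial.finSuccEquiv ℚ m (MvPolynomial.map (Int.castRingHom ℚ)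
      (Matrix.det (Matrix.of fun i j : Fin k => hd ((μ i).cons (j : ℕ)) P))) =
      Matrix.det (Matrix.of fun i j : Fin k => MvPolynomial.finSuccEquiv ℚ m
        (MvPolynomial.map (Int.castRingHom ℚ) (hd ((μ i).cons (j : ℕ)) P))) := by
    have := RingHom.map_det (((MvPolynomial.finSuccEquiv ℚ m).toAlgHom.toRingHom).comp
      (MvPolynomial.map (Int.castRingHom ℚ)))
      (Matrix.of fun i j : Fin k => hd ((μ i).cons (j : ℕ)) P)
    exact this
  have e2 : Polynomial.C (MvPolynomial.map (Int.castRingHom ℚ)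
      (Matrix.det (Matrix.of fun i j : Fin k =>
      hd (μ i) ((MvPolynomial.finSuccEquiv ℤ m P).coeff (e j))))) =
      Matrix.det (Matrix.of fun i j : Fin k => (Polynomial.C (MvPolynomial.map (Int.castRingHom ℚ)
        (hd (μ i) ((MvPolynomial.finSuccEquiv ℤ m P).coeff (e j)))) :
        Polynomial (MvPolynomial (Fin m) ℚ))) := by
    have := RingHom.map_det ((Polynomial.C : MvPolynomial (Fin m) ℚ →+* _).comp
      (MvPolynomial.map (Int.castRingHom ℚ)))
      (Matrix.of fun i j : Fin k => hd (μ i) ((MvPolynomial.finSuccEquiv ℤ m P).coeff (e j)))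
    exact this
  have e3 : (Matrix.det (Matrix.of fun i j : Fin k => Polynomial.hasseDeriv (i : ℕ) (ψ j))).map
      (MvPolynomial.C : ℚ →+* MvPolynomial (Fin m) ℚ) =
      Matrix.det (Matrix.of fun i j : Fin k => (Polynomial.hasseDeriv (j : ℕ) (ψ i)).map
        (MvPolynomial.C : ℚ →+* MvPolynomial (Fin m) ℚ)) := by
    have := RingHom.map_det (Polynomial.mapRingHom (MvPolynomial.C : ℚ →+* MvPolynomial (Fin m) ℚ))
      (Matrix.of fun i j : Fin k => Polynomial.hasseDeriv (i : ℕ) (ψ j))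
    rw [← Matrix.det_transpose ((Polynomial.mapRingHom _).mapMatrix _)] at this
    exact this
  rw [e1, e2, e3, ← Matrix.det_mul]
  congr 1
  ext1 i j
  ext1 n
  rw [Matrix.mul_apply, Matrix.of_apply, ROTH_finSucc_map, ROTH_finSucc_hd,
    Polynomial.finsetSum_coeff, map_mul, ROTH_map_hd, hs, ROTH_hd_sum, Finset.mul_sum]
  refine Finset.sum_congr rfl fun l _ => ?_
  rw [Matrix.of_apply, Matrix.of_apply, Polynomial.coeff_C_mul, Polynomial.coeff_map,
    Polynomial.hasseDeriv_coeff, ROTH_map_hd, MvPolynomial.map_C, map_mul]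
  simp only [map_natCast]
  ring

/-! ### translations -/

/-- Translation over `ℚ`. -/
noncomputable def ROTH_T {m : ℕ} (ξ : Fin m → ℚ) :
    MvPolynomial (Fin m) ℚ →ₐ[ℚ] MvPolynomial (Fin m) ℚ :=
  MvPolynomial.aeval (fun h => (MvPolynomial.C (ξ h) + MvPolynomial.X h : MvPolynomial (Fin m) ℚ))

theorem ROTH_tc_eq {m : ℕ} (ξ : Fin m → ℚ) (P : MvPolynomial (Fin m) ℤ) :
    tc ξ P = ROTH_T ξ (MvPolynomial.map (Int.castRingHom ℚ) P) := by
  unfold tc ROTH_T
  induction P using MvPolynomial.induction_on with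
  | C a => simp
  | add p q hp hq => simp only [map_add, hp, hq]
  | mul_X p i hp =>
    simp only [map_mul, hp, MvPolynomial.map_X, MvPolynomial.aeval_X]

theorem ROTH_T_finSucc {m : ℕ} (ξ : Fin (m + 1) → ℚ) (F : MvPolynomial (Fin (m + 1)) ℚ) :
    MvPolynomial.finSuccEquiv ℚ m (ROTH_T ξ F) =
      ((MvPolynomial.finSuccEquiv ℚ m F).map
        (ROTH_T (fun h => ξ h.succ)).toRingHom).comp
          (Polynomial.X + Polynomial.C (MvPolynomial.C (ξ 0))) := by
  have hC : ∀ (n : ℕ) (a : ℚ), MvPolynomial.finSuccEquiv ℚ n (MvPolynomial.C a) =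
      Polynomial.C (MvPolynomial.C a) := by
    intro n a
    rw [MvPolynomial.finSuccEquiv_apply]
    simp
  induction F using MvPolynomial.induction_on with
  | C a =>
    rw [hC]
    have h1 : ROTH_T ξ (MvPolynomial.C a) = MvPolynomial.C a := by
      unfold ROTH_T; simp
    rw [h1, hC]
    have h2 : ∀ a, (ROTH_T (fun h : Fin m => ξ h.succ)) (MvPolynomial.C a) =
      MvPolynomial.C a := by
      intro a; unfold ROTH_T; simp
    simp [h2]
  | add p q hp hq => simp only [map_add, hp, hq, Polynomial.map_add, Polynomial.add_comp]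
  | mul_X p i hp =>
    have key : MvPolynomial.finSuccEquiv ℚ m (ROTH_T ξ (MvPolynomial.X i)) =
      ((MvPolynomial.finSuccEquiv ℚ m (MvPolynomial.X i)).map
        (ROTH_T (fun h => ξ h.succ)).toRingHom).comp
          (Polynomial.X + Polynomial.C (MvPolynomial.C (ξ 0))) := by
      have h3 : ROTH_T ξ (MvPolynomial.X i) = MvPolynomial.C (ξ i) + MvPolynomial.X i := by
        unfold ROTH_T; simp
      rw [h3, map_add, hC]
      refine Fin.cases ?_ (fun j => ?_) i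
      · rw [MvPolynomial.finSuccEquiv_X_zero]
        simp [add_comm]
      · rw [MvPolynomial.finSuccEquiv_X_succ]
        have h4 : (ROTH_T (fun h : Fin m => ξ h.succ)) (MvPolynomial.X j) =
          MvPolynomial.C (ξ j.succ) + MvPolynomial.X j := by
          unfold ROTH_T; simp
        simp [h4]
    rw [map_mul, map_mul, hp, map_mul, Polynomial.map_mul, Polynomial.mul_comp, key]

theorem ROTH_sep {m : ℕ} (ξ : Fin (m + 1) → ℚ) (W : MvPolynomial (Fin (m + 1)) ℤ)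
    (U : MvPolynomial (Fin m) ℤ) (V : Polynomial ℚ)
    (h : MvPolynomial.finSuccEquiv ℚ m (MvPolynomial.map (Int.castRingHom ℚ) W) =
      Polynomial.C (MvPolynomial.map (Int.castRingHom ℚ) U) * V.map MvPolynomial.C)
    (l : ℕ) (i : Fin m →₀ ℕ) :
    (tc ξ W).coeff (i.cons l) =
      (tc (fun h => ξ h.succ) U).coeff i *
        (V.comp (Polynomial.X + Polynomial.C (ξ 0))).coeff l := by
  have h2 : ∀ a, (ROTH_T (fun h : Fin m => ξ h.succ)) (MvPolynomial.C a) =
      MvPolynomial.C a := by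
      intro a; unfold ROTH_T; simp
  have h5 : (ROTH_T (fun h : Fin m => ξ h.succ)).toRingHom.comp MvPolynomial.C =
      (MvPolynomial.C : ℚ →+* MvPolynomial (Fin m) ℚ) := by
    ext a : 1
    exact h2 a
  rw [← MvPolynomial.finSuccEquiv_coeff_coeff, ROTH_tc_eq, ROTH_T_finSucc, h, Polynomial.map_mul,
    Polynomial.map_C, Polynomial.map_map, h5, Polynomial.mul_comp, Polynomial.C_comp,
    Polynomial.coeff_C_mul, ROTH_tc_eq]
  have h6 : ((V.map (MvPolynomial.C : ℚ →+* MvPolynomial (Fin m) ℚ)).comp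
      (Polynomial.X + Polynomial.C (MvPolynomial.C (ξ 0)))) =
      (V.comp (Polynomial.X + Polynomial.C (ξ 0))).map MvPolynomial.C := by
    rw [Polynomial.map_comp]
    simp
  rw [h6, Polynomial.coeff_map, mul_comm, MvPolynomial.coeff_C_mul, mul_comm]
  rfl

theorem ROTH_V {m : ℕ} (W : MvPolynomial (Fin (m + 1)) ℤ)
    (U : MvPolynomial (Fin m) ℤ) (V : Polynomial ℚ) (hU : U ≠ 0) (hV : V ≠ 0)
    (h : MvPolynomial.finSuccEquiv ℚ m (MvPolynomial.map (Int.castRingHom ℚ) W) =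
      Polynomial.C (MvPolynomial.map (Int.castRingHom ℚ) U) * V.map MvPolynomial.C)
    (p : ℤ) (q : ℕ) (hq : 1 ≤ q) (hpq : IsCoprime p (q : ℤ)) :
    (q : ℝ) ^ (V.comp (Polynomial.X + Polynomial.C ((p : ℚ) / (q : ℚ)))).natTrailingDegree ≤
      nrm W := by
  obtain ⟨i0, hi0⟩ := MvPolynomial.support_nonempty.mpr hU
  rw [MvPolynomial.mem_support_iff] at hi0
  set G := MvPolynomial.finSuccEquiv ℤ m W with hG
  let F : Polynomial ℤ := ∑ n ∈ Finset.range (G.natDegree + 1),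
    Polynomial.monomial n ((G.coeff n).coeff i0)
  have hF : ∀ n, F.coeff n = (G.coeff n).coeff i0 := by
    intro n
    simp only [F, Polynomial.finsetSum_coeff, Polynomial.coeff_monomial]
    by_cases hn : n ∈ Finset.range (G.natDegree + 1)
    · rw [Finset.sum_eq_single n]
      · simp
      · intro b _ hb; simp [hb]
      · intro hn'; exact absurd hn hn'
    · rw [Finset.sum_eq_zero]
      · rw [Polynomial.coeff_eq_zero_of_natDegree_lt (by
          simpa using hn)]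
        simp
      · intro b hb
        rw [if_neg]
        rintro rfl
        exact hn hb
  have hFm : F.map (Int.castRingHom ℚ) = Polynomial.C ((U.coeff i0 : ℤ) : ℚ) * V := by
    ext n
    rw [Polynomial.coeff_map, hF, hG, ← MvPolynomial.coeff_map, ← ROTH_finSucc_map, h,
      Polynomial.coeff_C_mul, Polynomial.coeff_map, mul_comm, MvPolynomial.coeff_C_mul,
      MvPolynomial.coeff_map, Polynomial.coeff_C_mul, mul_comm]
    simp
  have hU0 : ((U.coeff i0 : ℤ) : ℚ) ≠ 0 := by exact_mod_cast hi0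
  have hF0 : F ≠ 0 := by
    intro h0
    rw [h0, Polynomial.map_zero] at hFm
    exact (mul_ne_zero (Polynomial.C_ne_zero.mpr hU0) hV) hFm.symm
  have hl := Polynomial.rootMultiplicity_eq_natTrailingDegree (p := V) (t := (p : ℚ) / (q : ℚ))
  have := gauss1 F hF0 p q hq hpq
    (V.comp (Polynomial.X + Polynomial.C ((p : ℚ) / (q : ℚ)))).natTrailingDegree (by
      rw [hFm, ← hl]
      exact (Polynomial.pow_rootMultiplicity_dvd V _).mul_left _)
  refine this.trans ?_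
  refine le_trans (le_of_eq ?_) (sum_finSucc_coeff_coeff_le W i0 F.support)
  exact Finset.sum_congr rfl fun n _ => by rw [hF]

theorem ROTH_fact (k R r : ℕ) (hk : k ≤ r + 1) (hr : r ≤ R) :
    (k.factorial : ℝ) ≤ ((2 : ℝ) ^ R) ^ k := by
  have h1 : k.factorial ≤ k ^ k := Nat.factorial_le_pow k
  have h2 : k ≤ 2 ^ R := by
    have : r < 2 ^ r := Nat.lt_two_pow_self
    have h3 : 2 ^ r ≤ 2 ^ R := Nat.pow_le_pow_right (by norm_num) hr
    omega
  have h4 : k.factorial ≤ (2 ^ R) ^ k := h1.trans (Nat.pow_le_pow_left h2 k)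
  exact_mod_cast h4

/-- The degrees grow. -/
theorem ROTH_mono {m : ℕ} {ω : ℝ} (hω1 : ω ≤ 1) (r : Fin (m + 1) → ℕ)
    (hrat : ∀ h h' : Fin (m + 1), h.val + 1 = h'.val → (r h : ℝ) ≤ ω * (r h' : ℝ)) (l : Fin m) :
    (r 0 : ℝ) ≤ ω * (r l.succ : ℝ) := by
  obtain ⟨l, hl⟩ := l
  induction l with
  | zero =>
    exact hrat 0 _ (by simp)
  | succ l ih =>
    have h1 := ih (by omega)
    have h2 := hrat (Fin.succ ⟨l, by omega⟩) (Fin.succ ⟨l + 1, hl⟩) (by simp)
    have hr : (0 : ℝ) ≤ (r (Fin.succ ⟨l + 1, hl⟩) : ℝ) := Nat.cast_nonneg _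
    have h3 : (r (Fin.succ ⟨l, by omega⟩) : ℝ) ≤ (r (Fin.succ ⟨l + 1, hl⟩) : ℝ) := by
      refine h2.trans ?_
      nlinarith
    have hr0 : (0 : ℝ) ≤ (r 0 : ℝ) := Nat.cast_nonneg _
    have hr1 : (0 : ℝ) ≤ (r (Fin.succ ⟨l, by omega⟩) : ℝ) := Nat.cast_nonneg _
    by_cases hω : 0 ≤ ω
    · exact h1.trans (mul_le_mul_of_nonneg_left h3 hω)
    · push Not at hω
      nlinarith

/-- The lower bound for the order of the determinant. -/
theorem ROTH_lower {m k : ℕ} (ε ω : ℝ) (h0 : 0 < ε) (h1 : ε ≤ 1) (hω0 : 0 < ω) (hω1 : ω ≤ 1)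
    (hωb : ω ≤ ε ^ 2 / 24) (r : Fin (m + 1) → ℕ) (hr : ∀ h, 1 ≤ r h)
    (hrat : ∀ h h' : Fin (m + 1), h.val + 1 = h'.val → (r h : ℝ) ≤ ω * (r h' : ℝ))
    (hk1 : 1 ≤ k) (hk : k ≤ r 0 + 1) (μ : Fin k → (Fin m →₀ ℕ))
    (hμ : ∀ i, ∑ l, μ i l ≤ (i : ℕ)) (ξ : Fin (m + 1) → ℚ) (P : MvPolynomial (Fin (m + 1)) ℤ)
    (hord : OrdGe (fun h => 1 / (r h : ℝ)) ε (tc ξ P)) :
    OrdGe (fun h => 1 / (r h : ℝ)) (5 / 24 * k * ε ^ 2)
      (tc ξ (Matrix.det (Matrix.of fun i j : Fin k => hd ((μ i).cons (j : ℕ)) P))) := by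
  have hdet : tc ξ (Matrix.det (Matrix.of fun i j : Fin k => hd ((μ i).cons (j : ℕ)) P)) =
      Matrix.det (Matrix.of fun i j : Fin k => tc ξ (hd ((μ i).cons (j : ℕ)) P)) := by
    have := AlgHom.map_det (MvPolynomial.aeval (R := ℤ)
      (fun h => (MvPolynomial.C (ξ h) + MvPolynomial.X h : MvPolynomial (Fin (m + 1)) ℚ)))
      (Matrix.of fun i j : Fin k => hd ((μ i).cons (j : ℕ)) P)
    exact this
  rw [hdet]
  have hw : ∀ i : Fin (m + 1), 0 ≤ 1 / (r i : ℝ) := fun i => by positivity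
  have hr0 : (0 : ℝ) < (r 0 : ℝ) := by exact_mod_cast hr 0
  have hsum := OrdGe.det (w := fun h => 1 / (r h : ℝ))
    (Matrix.of fun i j : Fin k => tc ξ (hd ((μ i).cons (j : ℕ)) P))
    (fun j : Fin k => max (ε - ((j : ℕ) : ℝ) / (r 0 : ℝ)) 0 - ω) (by
      intro i j
      rw [Matrix.of_apply]
      have hA := OrdGe.tc_hd hw hord ((μ i).cons (j : ℕ))
      have hB := OrdGe.nonneg (w := fun h => 1 / (r h : ℝ)) hw
        (tc ξ (hd ((μ i).cons (j : ℕ)) P))
      rcases le_total (ε - ((j : ℕ) : ℝ) / (r 0 : ℝ)) 0 with hc | hc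
      · rw [max_eq_right hc]
        exact hB.mono (by linarith)
      · rw [max_eq_left hc]
        refine hA.mono ?_
        rw [Fin.sum_univ_succ]
        simp only [Finsupp.cons_zero, Finsupp.cons_succ]
        have h3 : ∑ l : Fin m, 1 / (r l.succ : ℝ) * ((μ i l : ℕ) : ℝ) ≤ ω := by
          have h4 : ∀ l : Fin m, 1 / (r l.succ : ℝ) * ((μ i l : ℕ) : ℝ) ≤
              ω / (r 0 : ℝ) * ((μ i l : ℕ) : ℝ) := by
            intro l
            apply mul_le_mul_of_nonneg_right _ (Nat.cast_nonneg _)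
            have h5 := ROTH_mono hω1 r hrat l
            have h6 : (0 : ℝ) < (r l.succ : ℝ) := by exact_mod_cast hr l.succ
            rw [div_le_div_iff₀ h6 hr0]
            linarith
          refine (Finset.sum_le_sum fun l _ => h4 l).trans ?_
          rw [← Finset.mul_sum]
          have h7 : (∑ l, ((μ i l : ℕ) : ℝ)) ≤ (r 0 : ℝ) := by
            have h8 := hμ i
            have h9 : (i : ℕ) < k := i.2
            have h10 : ∑ l, μ i l ≤ r 0 := by omega
            exact_mod_cast h10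
          calc ω / (r 0 : ℝ) * ∑ l, ((μ i l : ℕ) : ℝ) ≤ ω / (r 0 : ℝ) * (r 0 : ℝ) :=
                mul_le_mul_of_nonneg_left h7 (by positivity)
            _ = ω := by field_simp
        have h11 : 1 / (r 0 : ℝ) * ((j : ℕ) : ℝ) = ((j : ℕ) : ℝ) / (r 0 : ℝ) := by ring
        rw [h11]
        linarith)
  refine hsum.mono ?_
  have h15 := num15 ε h0.le (r 0) k (hr 0) hk1 hk
  rw [Finset.sum_sub_distrib]
  have h16 : ∑ j : Fin k, max (ε - ((j : ℕ) : ℝ) / (r 0 : ℝ)) 0 =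
      ∑ j ∈ Finset.range k, max (ε - (j : ℝ) / (r 0 : ℝ)) 0 :=
    Fin.sum_univ_eq_sum_range (fun j : ℕ => max (ε - (j : ℝ) / (r 0 : ℝ)) 0) k
  rw [h16]
  have h17 : min (ε / 2) (ε ^ 2 / 4) = ε ^ 2 / 4 := by
    apply min_eq_right
    nlinarith
  rw [h17] at h15
  simp only [Finset.sum_const, Finset.card_univ, Fintype.card_fin, nsmul_eq_mul]
  have h18 : (k : ℝ) * ω ≤ k * (ε ^ 2 / 24) := mul_le_mul_of_nonneg_left hωb (Nat.cast_nonneg _)
  nlinarith

/-- The induction step. -/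
theorem ROTH_step {m : ℕ} (ih : ∀ (ε : ℝ) (_ : 0 < ε) (_ : ε ≤ 1) (r : Fin m → ℕ)
    (_ : ∀ h, 1 ≤ r h)
    (_ : ∀ h h' : Fin m, h.val + 1 = h'.val → (r h : ℝ) ≤ om m ε * (r h' : ℝ))
    (Rm : ℕ) (_ : ∀ h, r h ≤ Rm) (p : Fin m → ℤ) (q : Fin m → ℕ) (_ : ∀ h, 1 ≤ q h)
    (_ : ∀ h, IsCoprime (p h) (q h : ℤ)) (Θ : ℝ) (_ : 1 ≤ Θ)
    (_ : ∀ h, Θ ≤ (q h : ℝ) ^ (r h)) (_ : (2 : ℝ) ^ (2 * m * Rm) ≤ Θ ^ (om m ε))
    (P : MvPolynomial (Fin m) ℤ) (_ : P ≠ 0) (_ : ∀ h, P.degreeOf h ≤ r h)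
    (_ : nrm P ≤ Θ ^ (om m ε)),
    ∃ i ∈ (tc (fun h => (p h : ℚ) / (q h : ℚ)) P).support,
      ∑ h, ((i h : ℕ) : ℝ) / (r h : ℝ) ≤ ε)
    (ε : ℝ) (h0 : 0 < ε) (h1 : ε ≤ 1) (r : Fin (m + 1) → ℕ) (hr : ∀ h, 1 ≤ r h)
    (hrat : ∀ h h' : Fin (m + 1), h.val + 1 = h'.val → (r h : ℝ) ≤ om (m + 1) ε * (r h' : ℝ))
    (Rm : ℕ) (hR : ∀ h, r h ≤ Rm) (p : Fin (m + 1) → ℤ) (q : Fin (m + 1) → ℕ)
    (hq : ∀ h, 1 ≤ q h) (hc : ∀ h, IsCoprime (p h) (q h : ℤ)) (Θ : ℝ) (hΘ1 : 1 ≤ Θ)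
    (hΘ : ∀ h, Θ ≤ (q h : ℝ) ^ (r h))
    (hRm : (2 : ℝ) ^ (2 * (m + 1) * Rm) ≤ Θ ^ (om (m + 1) ε))
    (P : MvPolynomial (Fin (m + 1)) ℤ) (hP0 : P ≠ 0) (hdeg : ∀ h, P.degreeOf h ≤ r h)
    (hP : nrm P ≤ Θ ^ (om (m + 1) ε)) :
    ∃ i ∈ (tc (fun h => (p h : ℚ) / (q h : ℚ)) P).support,
      ∑ h, ((i h : ℕ) : ℝ) / (r h : ℝ) ≤ ε := by
  have hω0 : 0 < om (m + 1) ε := om_pos _ h0
  have hω1 : om (m + 1) ε ≤ 1 := om_le_one _ h0 h1
  have hωa : 2 * om (m + 1) ε ≤ om m (ε ^ 2 / 12) := by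
    have : om (m + 1) ε ≤ om m (ε ^ 2 / 12) / 2 := by
      simp only [om]; exact min_le_left _ _
    linarith
  have hωb : om (m + 1) ε ≤ ε ^ 2 / 24 := by
    simp only [om]; exact min_le_right _ _
  have hω'0 : 0 < om m (ε ^ 2 / 12) := om_pos _ (by positivity)
  generalize om (m + 1) ε = ω at *
  have ih := ih (ε ^ 2 / 12) (by positivity) (by nlinarith)
  generalize om m (ε ^ 2 / 12) = ω' at *
  by_contra hcon
  push Not at hcon
  have hord : OrdGe (fun h => 1 / (r h : ℝ)) ε (tc (fun h => (p h : ℚ) / (q h : ℚ)) P) := by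
    intro i hi
    have h2 := hcon i hi
    refine le_trans h2.le (le_of_eq ?_)
    exact Finset.sum_congr rfl fun h _ => by ring
  obtain ⟨k, hk1, hk2, e, ψ, hφ, hψ, hs⟩ := split P hP0
  obtain ⟨μ, hμ, hU⟩ := gwZ (fun j => (MvPolynomial.finSuccEquiv ℤ m P).coeff (e j)) hφ
  have hV := w1 ψ hψ
  have hkr : k ≤ r 0 + 1 := hk2.trans (by have := hdeg 0; omega)
  have hfac := ROTH_factor P e ψ hs μ
  have hlow := ROTH_lower ε ω h0 h1 hω0 hω1 hωb r hr hrat hk1 hkr μ hμ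
    (fun h => (p h : ℚ) / (q h : ℚ)) P hord
  set U : MvPolynomial (Fin m) ℤ := Matrix.det (Matrix.of fun i j : Fin k =>
    hd (μ i) ((MvPolynomial.finSuccEquiv ℤ m P).coeff (e j))) with hUdef
  set V : Polynomial ℚ := Matrix.det (Matrix.of fun i j : Fin k =>
    Polynomial.hasseDeriv (i : ℕ) (ψ j)) with hVdef
  set W : MvPolynomial (Fin (m + 1)) ℤ := Matrix.det (Matrix.of fun i j : Fin k =>
    hd ((μ i).cons (j : ℕ)) P) with hWdef
  have hU0 : U ≠ 0 := hU
  have hV0 : V ≠ 0 := hV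
  -- sizes
  set T : ℝ := Θ ^ ω with hT
  have hT1 : 1 ≤ T := Real.one_le_rpow hΘ1 hω0.le
  have hTT : T * T ≤ Θ ^ ω' := by
    rw [hT, ← Real.rpow_add (by linarith)]
    exact Real.rpow_le_rpow_of_exponent_le hΘ1 (by linarith)
  have hpow : ∀ n : ℕ, (Θ ^ ω') ^ n = (Θ ^ n) ^ ω' := by
    intro n
    rw [← Real.rpow_natCast, ← Real.rpow_natCast, ← Real.rpow_mul (by linarith),
      ← Real.rpow_mul (by linarith), mul_comm]
  have hrsum : ∑ h, r h ≤ (m + 1) * Rm := by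
    refine (Finset.sum_le_sum fun h _ => hR h).trans ?_
    simp
  have hrsum' : ∑ h : Fin m, r h.succ ≤ m * Rm := by
    refine (Finset.sum_le_sum fun h _ => hR h.succ).trans ?_
    simp
  have hfact : (k.factorial : ℝ) ≤ ((2 : ℝ) ^ Rm) ^ k := ROTH_fact k Rm (r 0) hkr (hR 0)
  have hnP : 0 ≤ nrm P := nrm_nonneg P
  have hnU : nrm U ≤ (T * T) ^ k := by
    have h2 := nrm_det_le (Matrix.of fun i j : Fin k =>
      hd (μ i) ((MvPolynomial.finSuccEquiv ℤ m P).coeff (e j))) ((2 : ℝ) ^ (m * Rm) * T) (by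
        intro i j
        rw [Matrix.of_apply]
        refine (nrm_hd_le (μ i) _ (fun l => r l.succ) (fun l =>
          (MvPolynomial.degreeOf_coeff_finSuccEquiv P l (e j)).trans (hdeg _))).trans ?_
        refine mul_le_mul (pow_le_pow_right₀ (by norm_num) hrsum')
          ((nrm_finSucc_coeff_le P (e j)).trans hP) (nrm_nonneg _) (by positivity))
    refine h2.trans ?_
    calc (k.factorial : ℝ) * ((2 : ℝ) ^ (m * Rm) * T) ^ k
        ≤ ((2 : ℝ) ^ Rm) ^ k * ((2 : ℝ) ^ (m * Rm) * T) ^ k :=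
          mul_le_mul_of_nonneg_right hfact (by positivity)
      _ = ((2 : ℝ) ^ (Rm + m * Rm) * T) ^ k := by rw [← mul_pow, ← mul_assoc, ← pow_add]
      _ ≤ (T * T) ^ k := by
          apply pow_le_pow_left₀ (by positivity)
          apply mul_le_mul_of_nonneg_right _ (by linarith)
          refine le_trans (pow_le_pow_right₀ (by norm_num) ?_) hRm
          nlinarith
  have hnW : nrm W ≤ (T * T) ^ k := by
    have h2 := nrm_det_le (Matrix.of fun i j : Fin k =>
      hd ((μ i).cons (j : ℕ)) P) ((2 : ℝ) ^ ((m + 1) * Rm) * T) (by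
        intro i j
        rw [Matrix.of_apply]
        refine (nrm_hd_le ((μ i).cons (j : ℕ)) _ r hdeg).trans ?_
        refine mul_le_mul (pow_le_pow_right₀ (by norm_num) hrsum)
          hP (nrm_nonneg _) (by positivity))
    refine h2.trans ?_
    calc (k.factorial : ℝ) * ((2 : ℝ) ^ ((m + 1) * Rm) * T) ^ k
        ≤ ((2 : ℝ) ^ Rm) ^ k * ((2 : ℝ) ^ ((m + 1) * Rm) * T) ^ k :=
          mul_le_mul_of_nonneg_right hfact (by positivity)
      _ = ((2 : ℝ) ^ (Rm + (m + 1) * Rm) * T) ^ k := by rw [← mul_pow, ← mul_assoc, ← pow_add]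
      _ ≤ (T * T) ^ k := by
          apply pow_le_pow_left₀ (by positivity)
          apply mul_le_mul_of_nonneg_right _ (by linarith)
          refine le_trans (pow_le_pow_right₀ (by norm_num) ?_) hRm
          nlinarith
  -- the induction hypothesis for `U`
  obtain ⟨i, hi, hisum⟩ := ih (fun h => k * r h.succ)
    (fun h => Nat.mul_pos hk1 (hr h.succ))
    (by
      intro h h' hh
      have h2 := hrat h.succ h'.succ (by simp; omega)
      push_cast
      have h3 : (0 : ℝ) ≤ (r h'.succ : ℝ) := Nat.cast_nonneg _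
      have h4 : (r h.succ : ℝ) ≤ ω' * (r h'.succ : ℝ) :=
        h2.trans (mul_le_mul_of_nonneg_right (by linarith) h3)
      calc (k : ℝ) * (r h.succ : ℝ) ≤ k * (ω' * (r h'.succ : ℝ)) :=
            mul_le_mul_of_nonneg_left h4 (Nat.cast_nonneg _)
        _ = ω' * (k * (r h'.succ : ℝ)) := by ring)
    (k * Rm) (fun h => Nat.mul_le_mul_left k (hR h.succ)) (fun h => p h.succ) (fun h => q h.succ)
    (fun h => hq h.succ) (fun h => hc h.succ) (Θ ^ k) (one_le_pow₀ hΘ1)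
    (by
      intro h
      calc Θ ^ k ≤ ((q h.succ : ℝ) ^ (r h.succ)) ^ k :=
            pow_le_pow_left₀ (by linarith) (hΘ h.succ) k
        _ = (q h.succ : ℝ) ^ (k * r h.succ) := by rw [← pow_mul, mul_comm])
    (by
      rw [← hpow]
      have h2 : (2 : ℝ) ^ (2 * m * (k * Rm)) = ((2 : ℝ) ^ (2 * m * Rm)) ^ k := by
        rw [← pow_mul]; congr 1; ring
      rw [h2]
      apply pow_le_pow_left₀ (by positivity)
      refine le_trans (le_trans (pow_le_pow_right₀ (by norm_num) ?_) hRm)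
        (Real.rpow_le_rpow_of_exponent_le hΘ1 (by linarith))
      nlinarith)
    U hU0
    (by
      intro h
      refine degreeOf_det_le _ h (r h.succ) ?_
      intro i j
      rw [Matrix.of_apply]
      exact (degreeOf_hd_le _ _ _).trans
        ((MvPolynomial.degreeOf_coeff_finSuccEquiv P h (e j)).trans (hdeg _)))
    (by
      rw [← hpow]
      exact hnU.trans (pow_le_pow_left₀ (by positivity) hTT k))
  -- the order of `V`
  set l : ℕ := (V.comp (Polynomial.X + Polynomial.C ((p 0 : ℚ) / (q 0 : ℚ)))).natTrailingDegree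
    with hl
  have hVl := ROTH_V W U V hU0 hV0 hfac (p 0) (q 0) (hq 0) (hc 0)
  rw [← hl] at hVl
  have hr0 : (0 : ℝ) < (r 0 : ℝ) := by exact_mod_cast hr 0
  have hk0 : (0 : ℝ) < (k : ℝ) := by exact_mod_cast hk1
  have hRm1 : 1 ≤ Rm := (hr 0).trans (hR 0)
  have hq2 : 2 ≤ q 0 := by
    by_contra hlt
    have hq1 : q 0 = 1 := by have := hq 0; omega
    have h2 := hΘ 0
    rw [hq1, Nat.cast_one, one_pow] at h2
    have hΘe : Θ = 1 := le_antisymm h2 hΘ1
    rw [hT, hΘe, Real.one_rpow] at hRm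
    have h3 : (1 : ℝ) < (2 : ℝ) ^ (2 * (m + 1) * Rm) := by
      apply one_lt_pow₀ (by norm_num)
      have : 0 < 2 * (m + 1) * Rm := by positivity
      omega
    linarith
  have hlq : 0 < Real.log (q 0 : ℝ) := Real.log_pos (by exact_mod_cast hq2)
  have hlr : (l : ℝ) ≤ 2 * ω * k * r 0 := by
    have h2 : (q 0 : ℝ) ^ l ≤ (T * T) ^ k := hVl.trans hnW
    have h3 : Real.log ((q 0 : ℝ) ^ l) ≤ Real.log ((T * T) ^ k) :=
      Real.log_le_log (by
        have : (0 : ℝ) < (q 0 : ℝ) := by exact_mod_cast (hq 0)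
        positivity) h2
    rw [Real.log_pow, Real.log_pow, Real.log_mul (by linarith) (by linarith), hT,
      Real.log_rpow (by linarith)] at h3
    have h4 : Real.log Θ ≤ r 0 * Real.log (q 0 : ℝ) := by
      rw [← Real.log_pow]
      exact Real.log_le_log (by linarith) (hΘ 0)
    have h5 : (l : ℝ) * Real.log (q 0 : ℝ) ≤ (2 * ω * k * r 0) * Real.log (q 0 : ℝ) := by
      calc (l : ℝ) * Real.log (q 0 : ℝ) ≤ k * (ω * Real.log Θ + ω * Real.log Θ) := h3
        _ = (2 * ω * k) * Real.log Θ := by ring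
        _ ≤ (2 * ω * k) * (r 0 * Real.log (q 0 : ℝ)) :=
            mul_le_mul_of_nonneg_left h4 (by positivity)
        _ = _ := by ring
    exact le_of_mul_le_mul_right h5 hlq
  -- the monomial
  have hne : (tc (fun h => (p h : ℚ) / (q h : ℚ)) W).coeff (i.cons l) ≠ 0 := by
    rw [ROTH_sep (fun h => (p h : ℚ) / (q h : ℚ)) W U V hfac]
    refine mul_ne_zero (MvPolynomial.mem_support_iff.mp hi) ?_
    rw [hl]
    rw [Ne, Polynomial.coeff_natTrailingDegree_eq_zero, Polynomial.comp_X_add_C_eq_zero_iff]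
    exact hV0
  have hfin := hlow (i.cons l) (MvPolynomial.mem_support_iff.mpr hne)
  rw [Fin.sum_univ_succ] at hfin
  simp only [Finsupp.cons_zero, Finsupp.cons_succ] at hfin
  have h6 : 1 / (r 0 : ℝ) * (l : ℝ) ≤ k * (ε ^ 2 / 12) := by
    rw [one_div, inv_mul_le_iff₀ hr0]
    have h7 : 2 * ω * k * r 0 ≤ r 0 * (k * (ε ^ 2 / 12)) := by
      have h8 : 2 * ω ≤ ε ^ 2 / 12 := by linarith
      calc 2 * ω * k * r 0 = (k * r 0) * (2 * ω) := by ring
        _ ≤ (k * r 0) * (ε ^ 2 / 12) := mul_le_mul_of_nonneg_left h8 (by positivity)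
        _ = _ := by ring
    exact hlr.trans h7
  have h9 : ∑ h : Fin m, 1 / (r h.succ : ℝ) * ((i h : ℕ) : ℝ) ≤ k * (ε ^ 2 / 12) := by
    have h10 : ∑ h : Fin m, 1 / (r h.succ : ℝ) * ((i h : ℕ) : ℝ) =
        k * ∑ h : Fin m, ((i h : ℕ) : ℝ) / ((k * r h.succ : ℕ) : ℝ) := by
      rw [Finset.mul_sum]
      refine Finset.sum_congr rfl fun h _ => ?_
      have h11 : (0 : ℝ) < (r h.succ : ℝ) := by exact_mod_cast hr h.succ
      push_cast
      field_simp
    rw [h10]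
    exact mul_le_mul_of_nonneg_left hisum hk0.le
  have h12 : 0 < (k : ℝ) * ε ^ 2 := by positivity
  nlinarith

theorem roth {m : ℕ} (ε : ℝ) (h0 : 0 < ε) (h1 : ε ≤ 1) (r : Fin m → ℕ) (hr : ∀ h, 1 ≤ r h)
    (hrat : ∀ h h' : Fin m, h.val + 1 = h'.val → (r h : ℝ) ≤ om m ε * (r h' : ℝ))
    (Rm : ℕ) (hR : ∀ h, r h ≤ Rm) (p : Fin m → ℤ) (q : Fin m → ℕ) (hq : ∀ h, 1 ≤ q h)
    (hc : ∀ h, IsCoprime (p h) (q h : ℤ)) (Θ : ℝ) (hΘ1 : 1 ≤ Θ)
    (hΘ : ∀ h, Θ ≤ (q h : ℝ) ^ (r h)) (hRm : (2 : ℝ) ^ (2 * m * Rm) ≤ Θ ^ (om m ε))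
    (P : MvPolynomial (Fin m) ℤ) (hP0 : P ≠ 0) (hdeg : ∀ h, P.degreeOf h ≤ r h)
    (hP : nrm P ≤ Θ ^ (om m ε)) :
    ∃ i ∈ (tc (fun h => (p h : ℚ) / (q h : ℚ)) P).support,
      ∑ h, ((i h : ℕ) : ℝ) / (r h : ℝ) ≤ ε := by
  induction m generalizing ε Rm Θ with
  | zero =>
    refine ⟨0, ?_, by simpa using h0.le⟩
    rw [MvPolynomial.mem_support_iff, ROTH_tc_eq]
    rw [MvPolynomial.eq_C_of_isEmpty P]
    have hc0 : P.coeff 0 ≠ 0 := by
      intro h2
      apply hP0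
      rw [MvPolynomial.eq_C_of_isEmpty P, h2, MvPolynomial.C_0]
    have h3 : (ROTH_T (fun h : Fin 0 => (p h : ℚ) / (q h : ℚ)))
        (MvPolynomial.map (Int.castRingHom ℚ) (MvPolynomial.C (P.coeff 0))) =
        MvPolynomial.C ((P.coeff 0 : ℤ) : ℚ) := by
      unfold ROTH_T; simp
    rw [h3, MvPolynomial.coeff_zero_C]
    exact_mod_cast hc0
  | succ m ih =>
    exact ROTH_step (fun ε h0 h1 r hr hrat Rm hR p q hq hc Θ hΘ1 hΘ hRm P hP0 hdeg hP =>
      ih ε h0 h1 r hr hrat Rm hR p q hq hc Θ hΘ1 hΘ hRm P hP0 hdeg hP)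
      ε h0 h1 r hr hrat Rm hR p q hq hc Θ hΘ1 hΘ hRm P hP0 hdeg hP

end Pool.Agent.SubT
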