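import Pool.Agent.SubT.ProdPts

/-! Module SST. Text: team-store MP_e27144_an_pr_growth_helper66.md.
HINT: section 9, (S*): prod_pts with Q = e^g, K = 4 for {0} and QQ (take the maximum of Q0 over r <= R0), centres m_2 = m_3 = 0 and m_inf = argmax of alpha (alpha_0 = g). -/

namespace Pool.Agent.SubT

open scoped BigOperators ENNReal

open MeasureTheory Set Filter Topology

/-- the core: a fixed enumeration -/
private theorem sst_core (r : ℕ) (ε g : ℝ) (hg : 0 < g) (x : ℝ)
    (hx : |x| = 1 / 36 * Real.exp (-g)) (q : Fin (r + 1) → ℚ) (hq0 : q 0 = 0)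
    (hinj : Function.Injective q) (hR : ∀ i, InR (q i))
    (hA : ∀ i, Aq (q i) ≤ 2 * g) (α : Fin (r + 1) → ℝ) (hα0 : α 0 = g)
    (hα : ∀ i, 0 ≤ α i ∧ α i ≤ 2 * g) (hxq : ∀ i, |x - (q i : ℝ)| ≤ 1 / 36 * Real.exp (-α i))
    (hprod : (∀ i, InR (q i)) → Function.Injective q →
      (∀ v i j, i ≠ j → av v (q i - q j) ≤ (Real.exp g) ^ (4 : ℝ)) →
      ∀ mc : Pl → Fin (r + 1),
        -(ε * Real.log (Real.exp g)) ≤
          ∑ v, ∑ i ∈ Finset.univ.erase (mc v), Real.log (av v (q i - q (mc v)))) :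
    ∑ i ∈ Finset.univ.erase (0 : Fin (r + 1)), (α i - Aq (q i)) ≤ (1 + ε) * g := by
  have hQ4 : (Real.exp g) ^ (4 : ℝ) = Real.exp (4 * g) := by
    rw [← Real.exp_mul, mul_comm]
  have hle1 : ∀ i, |x - (q i : ℝ)| ≤ 1 / 36 := fun i => by
    refine (hxq i).trans ?_
    have h1 : Real.exp (-α i) ≤ 1 := Real.exp_le_one_iff.2 (by linarith [(hα i).1])
    linarith
  have hav : ∀ v : Pl, v ≠ 0 → ∀ i, Real.log (max 1 (av v (q i))) ≤ Aq (q i) := by
    intro v hv i
    have h1 : 0 ≤ Real.log (max 1 (av 1 (q i))) := Real.log_nonneg (le_max_left _ _)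
    have h2 : 0 ≤ Real.log (max 1 (av 2 (q i))) := Real.log_nonneg (le_max_left _ _)
    unfold Aq
    have hv' : v = 1 ∨ v = 2 := by
      fin_cases v
      · exact absurd rfl hv
      · exact Or.inl rfl
      · exact Or.inr rfl
    rcases hv' with h | h
    · rw [h]; linarith
    · rw [h]; linarith
  have hfin : ∀ v : Pl, v ≠ 0 → ∀ i, av v (q i) ≤ Real.exp (4 * g) := by
    intro v hv i
    have h1 := (hav v hv i).trans (hA i)
    have h2 : av v (q i) ≤ max 1 (av v (q i)) := le_max_right _ _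
    have h3 : 0 < max 1 (av v (q i)) := lt_of_lt_of_le one_pos (le_max_left _ _)
    have h4 : max 1 (av v (q i)) ≤ Real.exp (2 * g) := by
      rw [← Real.log_le_iff_le_exp h3]
      exact h1
    have h5 : Real.exp (2 * g) ≤ Real.exp (4 * g) := Real.exp_le_exp.2 (by linarith)
    linarith
  have hreal : ∀ i j, av 0 (q i - q j) ≤ |x - (q i : ℝ)| + |x - (q j : ℝ)| := by
    intro i j
    rw [av_real]
    push_cast
    have : ((q i : ℝ) - (q j : ℝ)) = (x - (q j : ℝ)) - (x - (q i : ℝ)) := by ring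
    rw [this]
    refine (abs_sub _ _).trans ?_
    linarith
  have hbd : ∀ v i j, i ≠ j → av v (q i - q j) ≤ (Real.exp g) ^ (4 : ℝ) := by
    intro v i j _
    rw [hQ4]
    by_cases hv : v = 0
    · rw [hv]
      have h1 := hreal i j
      have h2 := hle1 i
      have h3 := hle1 j
      have h4 : 1 ≤ Real.exp (4 * g) := Real.one_le_exp (by linarith)
      linarith
    · rw [sub_eq_add_neg]
      refine (av_add_le_max hv _ _).trans ?_
      rw [av_neg]
      exact max_le (hfin v hv i) (hfin v hv j)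
  obtain ⟨m, -, hm⟩ := Finset.exists_max_image (Finset.univ : Finset (Fin (r + 1))) α
    ⟨0, Finset.mem_univ _⟩
  let mc : Pl → Fin (r + 1) := fun v => if v = 0 then m else 0
  have h1 := hprod hR hinj hbd mc
  rw [Real.log_exp, Fin.sum_univ_three] at h1
  have e0 : mc 0 = m := if_pos rfl
  have e1 : mc 1 = 0 := if_neg (by decide)
  have e2 : mc 2 = 0 := if_neg (by decide)
  rw [e0, e1, e2] at h1
  have hpos : ∀ (v : Pl) (i j : Fin (r + 1)), i ≠ j → 0 < av v (q i - q j) := by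
    intro v i j hij
    exact av_pos v (sub_ne_zero.2 fun h => hij (hinj h))
  -- the real place
  have hr1 : ∑ i ∈ Finset.univ.erase m, Real.log (av 0 (q i - q m)) ≤
      ∑ i ∈ Finset.univ.erase m, (-α i) := by
    refine Finset.sum_le_sum fun i hi => ?_
    have hne : i ≠ m := Finset.ne_of_mem_erase hi
    rw [Real.log_le_iff_le_exp (hpos 0 i m hne)]
    have h2 := hreal i m
    have h3 := hxq i
    have h4 := hxq m
    have h5 : Real.exp (-α m) ≤ Real.exp (-α i) :=
      Real.exp_le_exp.2 (neg_le_neg (hm i (Finset.mem_univ i)))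
    have h6 := Real.exp_pos (-α i)
    linarith
  have hr2 : ∑ i ∈ Finset.univ.erase m, (-α i) = α m - ∑ i, α i := by
    rw [Finset.sum_neg_distrib, ← Finset.add_sum_erase Finset.univ α (Finset.mem_univ m)]
    ring
  -- the finite places
  have hf : ∑ i ∈ Finset.univ.erase (0 : Fin (r + 1)), Real.log (av 1 (q i - q 0)) +
      ∑ i ∈ Finset.univ.erase (0 : Fin (r + 1)), Real.log (av 2 (q i - q 0)) ≤
      ∑ i ∈ Finset.univ.erase (0 : Fin (r + 1)), Aq (q i) := by
    rw [← Finset.sum_add_distrib]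
    refine Finset.sum_le_sum fun i hi => ?_
    have hne : i ≠ 0 := Finset.ne_of_mem_erase hi
    have h2 := hpos 1 i 0 hne
    have h3 := hpos 2 i 0 hne
    rw [hq0, sub_zero] at h2 h3 ⊢
    unfold Aq
    exact add_le_add (Real.log_le_log h2 (le_max_right _ _)) (Real.log_le_log h3 (le_max_right _ _))
  have hsplit : ∑ i, α i = g + ∑ i ∈ Finset.univ.erase (0 : Fin (r + 1)), α i := by
    rw [← Finset.add_sum_erase Finset.univ α (Finset.mem_univ 0), hα0]
  have hm2 := (hα m).2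
  rw [Finset.sum_sub_distrib]
  linarith

/-- SST: the inequality (S*). `QQ` is a finite set of nonzero elements of `Z[1/6]`, the `q`
with `g ≤ A_q`, `A_q < 2g`, and `α q ≤ 2g` with `|x - q| ≤ (1/36) e^(-α q)`. -/
theorem sstar (R0 : ℕ) (ε : ℝ) (hε : 0 < ε) :
    ∃ g0 : ℝ, 0 < g0 ∧ ∀ g ≥ g0, ∀ x : ℝ, |x| = 1 / 36 * Real.exp (-g) →
      ∀ QQ : Finset ℚ, QQ.card ≤ R0 → (0 : ℚ) ∉ QQ → (∀ q ∈ QQ, InR q ∧ Aq q < 2 * g) →
      ∀ α : ℚ → ℝ, (∀ q ∈ QQ, 0 ≤ α q ∧ α q ≤ 2 * g ∧ |x - (q : ℝ)| ≤ 1 / 36 * Real.exp (-α q)) →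
        ∑ q ∈ QQ, (α q - Aq q) ≤ (1 + ε) * g := by
  classical
  choose Q0 hQ1 hQ2 using fun r : ℕ => prod_pts r 4 ε (by norm_num) hε
  refine ⟨1 + ∑ r ∈ Finset.range (R0 + 1), |Real.log (Q0 r)|, by positivity, ?_⟩
  intro g hg x hx QQ hcard h0 hQQ α hα
  have hsn : 0 ≤ ∑ r ∈ Finset.range (R0 + 1), |Real.log (Q0 r)| :=
    Finset.sum_nonneg fun _ _ => abs_nonneg _
  have hg1 : 0 < g := by linarith
  set r := QQ.card with hr
  have hrm : r ∈ Finset.range (R0 + 1) := Finset.mem_range.2 (by omega)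
  have hQle : Real.exp g ≥ Q0 r := by
    have h1 : |Real.log (Q0 r)| ≤ ∑ r ∈ Finset.range (R0 + 1), |Real.log (Q0 r)| :=
      Finset.single_le_sum (f := fun r => |Real.log (Q0 r)|) (fun _ _ => abs_nonneg _) hrm
    have h2 : Real.log (Q0 r) ≤ g := by
      have := le_abs_self (Real.log (Q0 r))
      linarith
    have h3 : 0 < Q0 r := by linarith [hQ1 r]
    exact (Real.log_le_iff_le_exp h3).1 h2
  have hprod := hQ2 r (Real.exp g) hQle
  let e : Fin r ≃ QQ := (Fintype.equivFinOfCardEq (by rw [Fintype.card_coe])).symm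
  let q : Fin (r + 1) → ℚ := Fin.cons 0 (fun i => (e i : ℚ))
  let α' : Fin (r + 1) → ℝ := Fin.cons g (fun i => α (e i : ℚ))
  have hqs : ∀ i : Fin r, q i.succ = (e i : ℚ) := fun i => rfl
  have hαs : ∀ i : Fin r, α' i.succ = α (e i : ℚ) := fun i => rfl
  have hinj : Function.Injective q := by
    intro a b hab
    refine Fin.cases (fun hab => ?_) (fun i hab => ?_) a hab
    · refine Fin.cases (fun _ => rfl) (fun j hab => ?_) b hab
      exfalso
      apply h0
      have h1 : (0 : ℚ) = (e j : ℚ) := hab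
      rw [h1]
      exact (e j).2
    · refine Fin.cases (fun hab => ?_) (fun j hab => ?_) b hab
      · exfalso
        apply h0
        have h1 : (e i : ℚ) = (0 : ℚ) := hab
        rw [← h1]
        exact (e i).2
      · have h1 : (e i : ℚ) = (e j : ℚ) := hab
        have h2 : e i = e j := Subtype.ext h1
        rw [e.injective h2]
  have hA0 : Aq 0 = 0 := by
    unfold Aq
    rw [av_zero, av_zero]
    simp
  have hcore := sst_core r ε g hg1 x hx q rfl hinj
    (fun i => by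
      refine Fin.cases ?_ (fun j => ?_) i
      · exact inR_zero
      · rw [hqs]
        exact (hQQ _ (e j).2).1)
    (fun i => by
      refine Fin.cases ?_ (fun j => ?_) i
      · change Aq 0 ≤ 2 * g
        rw [hA0]
        linarith
      · rw [hqs]
        exact (hQQ _ (e j).2).2.le)
    α' rfl
    (fun i => by
      refine Fin.cases ?_ (fun j => ?_) i
      · change 0 ≤ g ∧ g ≤ 2 * g
        constructor <;> linarith
      · rw [hαs]
        exact ⟨(hα _ (e j).2).1, (hα _ (e j).2).2.1⟩)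
    (fun i => by
      refine Fin.cases ?_ (fun j => ?_) i
      · change |x - ((0 : ℚ) : ℝ)| ≤ 1 / 36 * Real.exp (-g)
        rw [Rat.cast_zero, sub_zero, hx]
      · rw [hqs, hαs]
        exact (hα _ (e j).2).2.2)
    (hprod q)
  have hsum : ∑ i ∈ Finset.univ.erase (0 : Fin (r + 1)), (α' i - Aq (q i)) =
      ∑ p ∈ QQ, (α p - Aq p) := by
    have h1 : ∑ i, (α' i - Aq (q i)) = (α' 0 - Aq (q 0)) + ∑ i : Fin r, (α' i.succ - Aq (q i.succ)) :=
      Fin.sum_univ_succ _
    have h2 := Finset.add_sum_erase Finset.univ (fun i => α' i - Aq (q i)) (Finset.mem_univ (0 : Fin (r + 1)))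
    have h3 : ∑ i ∈ Finset.univ.erase (0 : Fin (r + 1)), (α' i - Aq (q i)) =
        ∑ i : Fin r, (α (e i : ℚ) - Aq (e i : ℚ)) := by
      have h4 : ∑ i : Fin r, (α' i.succ - Aq (q i.succ)) = ∑ i : Fin r, (α (e i : ℚ) - Aq (e i : ℚ)) := rfl
      linarith
    rw [h3, e.sum_comp (fun p : QQ => α (p : ℚ) - Aq (p : ℚ))]
    exact Finset.sum_coe_sort QQ (fun p => α p - Aq p)
  rw [← hsum]
  exact hcore

end Pool.Agent.SubT
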