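import Mathlib

/-! Module STARC. Text: team-store MP_e27144_an_pr_growth_helper66.md.
HINT: section 7 case (i). -/

namespace Pool.Agent.SubT

open scoped BigOperators ENNReal

open MeasureTheory Set Filter Topology

open Module

private theorem STARC_ncard {α : Type} (A : Finset α) (p : α → Prop) [DecidablePred p] :
    Set.ncard {x | x ∈ A ∧ p x} = (A.filter p).card := by
  have : {x | x ∈ A ∧ p x} = (↑(A.filter p) : Set α) := by
    ext x; simp
  rw [this, Set.ncard_coe_finset]

private theorem STARC_rank {V U : Type} [AddCommGroup V] [Module ℚ V] [FiniteDimensional ℚ V]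
    [AddCommGroup U] [Module ℚ U] (f : V →ₗ[ℚ] U) (P : Submodule ℚ V) :
    finrank ℚ ↥(P.map f) + finrank ℚ ↥(P ⊓ LinearMap.ker f) = finrank ℚ ↥P := by
  have h1 := LinearMap.finrank_range_add_finrank_ker (f.domRestrict P)
  have h2 : LinearMap.range (f.domRestrict P) = P.map f := LinearMap.range_domRestrict P f
  have h3 : (LinearMap.ker (f.domRestrict P)).map P.subtype = P ⊓ LinearMap.ker f := by
    ext x
    simp only [Submodule.mem_map, LinearMap.mem_ker, Submodule.mem_inf, Submodule.coe_subtype]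
    constructor
    · rintro ⟨y, hy, rfl⟩
      exact ⟨y.2, by simpa using hy⟩
    · rintro ⟨hx, hf⟩
      exact ⟨⟨x, hx⟩, by simpa using hf, rfl⟩
  rw [h2] at h1
  rw [← h3, Submodule.finrank_map_subtype_eq]
  exact h1

/-- the critical case: induction through a critical subspace (case (i) of the text) -/
theorem star_critical {V : Type} [AddCommGroup V] [Module ℚ V] [FiniteDimensional ℚ V]
    {J : Type} [Fintype J] (W : J → Submodule ℚ V) (Δ : J → ℝ) (hΔ : ∀ j, 0 ≤ Δ j) (T : ℝ)
    (h : ∀ B : Submodule ℚ V, ∑ j, Δ j * (finrank ℚ ↥(B ⊓ W j) : ℝ) ≤ T * (finrank ℚ B : ℝ))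
    (B : Submodule ℚ V)
    (hB : ∑ j, Δ j * (finrank ℚ ↥(B ⊓ W j) : ℝ) = T * (finrank ℚ B : ℝ))
    (ih1 : ∀ (W' : J → Submodule ℚ B),
      (∀ B' : Submodule ℚ B, ∑ j, Δ j * (finrank ℚ ↥(B' ⊓ W' j) : ℝ) ≤ T * (finrank ℚ B' : ℝ)) →
      ∀ (A : Finset B), A.Nonempty → ∀ a : J → B,
        ∑ j, Δ j * (((Set.ncard {x | x ∈ A ∧ x - a j ∈ W' j} : ℕ) : ℝ) - 1) ≤
          T * ((A.card : ℝ) - 1))
    (ih2 : ∀ (W' : J → Submodule ℚ (V ⧸ B)),
      (∀ B' : Submodule ℚ (V ⧸ B),
        ∑ j, Δ j * (finrank ℚ ↥(B' ⊓ W' j) : ℝ) ≤ T * (finrank ℚ B' : ℝ)) →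
      ∀ (A : Finset (V ⧸ B)), A.Nonempty → ∀ a : J → V ⧸ B,
        ∑ j, Δ j * (((Set.ncard {x | x ∈ A ∧ x - a j ∈ W' j} : ℕ) : ℝ) - 1) ≤
          T * ((A.card : ℝ) - 1))
    (A : Finset V) (hA : A.Nonempty) (a : J → V) :
    ∑ j, Δ j * (((Set.ncard {x | x ∈ A ∧ x - a j ∈ W j} : ℕ) : ℝ) - 1) ≤
      T * ((A.card : ℝ) - 1) := by
  classical
  -- the hypotheses for B
  have H1 : ∀ B' : Submodule ℚ B,
      ∑ j, Δ j * (finrank ℚ ↥(B' ⊓ (W j).comap B.subtype) : ℝ) ≤ T * (finrank ℚ B' : ℝ) := by
    intro B'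
    have key := h (B'.map B.subtype)
    have e1 : finrank ℚ ↥(B'.map B.subtype) = finrank ℚ B' := Submodule.finrank_map_subtype_eq B B'
    have e2 : ∀ j, finrank ℚ ↥(B'.map B.subtype ⊓ W j) =
        finrank ℚ ↥(B' ⊓ (W j).comap B.subtype) := by
      intro j
      rw [← Submodule.finrank_map_subtype_eq B (B' ⊓ (W j).comap B.subtype)]
      have e3 : B'.map B.subtype ⊓ W j = (B' ⊓ (W j).comap B.subtype).map B.subtype := by
        ext x
        simp only [Submodule.mem_inf, Submodule.mem_map, Submodule.mem_comap,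
          Submodule.coe_subtype]
        constructor
        · rintro ⟨⟨y, hy, rfl⟩, hx⟩
          exact ⟨y, ⟨hy, hx⟩, rfl⟩
        · rintro ⟨y, ⟨hy, hx⟩, rfl⟩
          exact ⟨⟨y, hy, rfl⟩, hx⟩
      rw [e3]
    rw [e1] at key
    simpa only [e2] using key
  -- the hypotheses for the quotient
  have H2 : ∀ B' : Submodule ℚ (V ⧸ B),
      ∑ j, Δ j * (finrank ℚ ↥(B' ⊓ (W j).map B.mkQ) : ℝ) ≤ T * (finrank ℚ B' : ℝ) := by
    intro B'
    have key := h (B'.comap B.mkQ)
    have e1 : finrank ℚ B' + finrank ℚ B = finrank ℚ ↥(B'.comap B.mkQ) := by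
      have := STARC_rank B.mkQ (B'.comap B.mkQ)
      have m : (B'.comap B.mkQ).map B.mkQ = B' :=
        Submodule.map_comap_eq_of_surjective (Submodule.mkQ_surjective B) B'
      have k : B'.comap B.mkQ ⊓ LinearMap.ker B.mkQ = B := by
        rw [Submodule.ker_mkQ, inf_eq_right]
        intro x hx
        have : B.mkQ x = 0 := by simpa using hx
        rw [Submodule.mem_comap, this]
        exact B'.zero_mem
      rw [m, k] at this
      exact this
    have e2 : ∀ j, finrank ℚ ↥(B' ⊓ (W j).map B.mkQ) + finrank ℚ ↥(B ⊓ W j) =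
        finrank ℚ ↥(B'.comap B.mkQ ⊓ W j) := by
      intro j
      have := STARC_rank B.mkQ (B'.comap B.mkQ ⊓ W j)
      have m : (B'.comap B.mkQ ⊓ W j).map B.mkQ = B' ⊓ (W j).map B.mkQ := by
        ext x
        simp only [Submodule.mem_inf, Submodule.mem_map, Submodule.mem_comap]
        constructor
        · rintro ⟨y, ⟨hy, hx⟩, rfl⟩
          exact ⟨hy, y, hx, rfl⟩
        · rintro ⟨hy, y, hx, rfl⟩
          exact ⟨y, ⟨hy, hx⟩, rfl⟩
      have k : B'.comap B.mkQ ⊓ W j ⊓ LinearMap.ker B.mkQ = B ⊓ W j := by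
        rw [Submodule.ker_mkQ]
        apply le_antisymm
        · rintro x ⟨⟨h1, h2⟩, h3⟩
          exact ⟨h3, h2⟩
        · rintro x ⟨h1, h2⟩
          refine ⟨⟨?_, h2⟩, h1⟩
          have : B.mkQ x = 0 := by simpa using h1
          change B.mkQ x ∈ B'
          rw [this]
          exact B'.zero_mem
      rw [m, k] at this
      exact this
    have e3 : ∑ j, Δ j * (finrank ℚ ↥(B' ⊓ (W j).map B.mkQ) : ℝ) =
        ∑ j, Δ j * (finrank ℚ ↥(B'.comap B.mkQ ⊓ W j) : ℝ) -
          ∑ j, Δ j * (finrank ℚ ↥(B ⊓ W j) : ℝ) := by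
      rw [← Finset.sum_sub_distrib]
      refine Finset.sum_congr rfl fun j _ => ?_
      rw [← e2 j]
      push_cast
      ring
    rw [e3, hB]
    have e1' : (finrank ℚ ↥(B'.comap B.mkQ) : ℝ) = finrank ℚ B' + finrank ℚ B := by
      rw [← e1]; push_cast; ring
    rw [e1'] at key
    linarith
  -- the image
  set π := B.mkQ with hπ
  set Ab : Finset (V ⧸ B) := A.image π with hAb
  have hAbne : Ab.Nonempty := hA.image _
  have I2 := ih2 (fun j => (W j).map π) H2 Ab hAbne (fun j => π (a j))
  -- fibres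
  have hfib : ∀ y ∈ Ab, ∃ x, x ∈ A ∧ π x = y := by
    intro y hy
    simpa [hAb] using hy
  have key : ∀ y ∈ Ab,
      ∑ j, Δ j * (if y - π (a j) ∈ (W j).map π then
        (((A.filter (fun x => π x = y ∧ x - a j ∈ W j)).card : ℝ) - 1) else 0) ≤
        T * (((A.filter (fun x => π x = y)).card : ℝ) - 1) := by
    intro y hy
    obtain ⟨x0, hx0A, hx0⟩ := hfib y hy
    have hmemB : ∀ x, π x = y → x - x0 ∈ B := by
      intro x hx
      have : π (x - x0) = 0 := by rw [map_sub, hx, hx0, sub_self]
      exact (Submodule.Quotient.mk_eq_zero B).1 this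
    -- the translated fibre
    set F : Finset V := A.filter (fun x => π x = y) with hF
    have hFm : ∀ x ∈ F, x - x0 ∈ B := by
      intro x hx
      exact hmemB x (Finset.mem_filter.mp hx).2
    set A' : Finset B := F.attach.image (fun x => (⟨x.1 - x0, hFm x.1 x.2⟩ : B)) with hA'
    have hmemA' : ∀ z : B, z ∈ A' ↔ (z : V) + x0 ∈ F := by
      intro z
      simp only [hA', Finset.mem_image, Finset.mem_attach, true_and, Subtype.exists]
      constructor
      · rintro ⟨x, hx, hxz⟩
        have : (z : V) = x - x0 := by rw [← hxz]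
        rw [this, sub_add_cancel]
        exact hx
      · intro hz
        refine ⟨(z : V) + x0, hz, ?_⟩
        apply Subtype.ext
        simp
    have hcardA' : A'.card = F.card := by
      rw [hA', Finset.card_image_of_injective, Finset.card_attach]
      intro x x' hxx
      have := congrArg Subtype.val hxx
      simp only [sub_left_inj] at this
      exact Subtype.ext this
    have hA'ne : A'.Nonempty := by
      refine ⟨0, (hmemA' 0).2 ?_⟩
      simp [hF, hx0A, hx0]
    -- choice of the centres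
    have hch : ∀ j, ∃ a' : B, (y - π (a j) ∈ (W j).map π →
        ∀ z : B, (z - a' ∈ (W j).comap B.subtype ↔ (z : V) + x0 - a j ∈ W j)) ∧
        (¬ (y - π (a j) ∈ (W j).map π) → a' = 0) := by
      intro j
      by_cases hj : y - π (a j) ∈ (W j).map π
      · obtain ⟨w, hw, hwy⟩ := hj
        have hin : a j + w - x0 ∈ B := by
          apply hmemB
          rw [map_add, hwy]
          abel
        refine ⟨⟨a j + w - x0, hin⟩, fun _ z => ?_, fun hn => absurd ⟨w, hw, hwy⟩ hn⟩
        simp only [Submodule.mem_comap, Submodule.coe_subtype, AddSubgroupClass.coe_sub]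
        constructor
        · intro hz
          have := (W j).add_mem hz hw
          have e : (z : V) - (a j + w - x0) + w = (z : V) + x0 - a j := by abel
          rwa [e] at this
        · intro hz
          have := (W j).sub_mem hz hw
          have e : (z : V) + x0 - a j - w = (z : V) - (a j + w - x0) := by abel
          rwa [e] at this
      · exact ⟨0, fun h' => absurd h' hj, fun _ => rfl⟩
    choose a' ha1 ha2 using hch
    have I1 := ih1 (fun j => (W j).comap B.subtype) H1 A' hA'ne a'
    rw [hcardA'] at I1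
    refine le_trans (Finset.sum_le_sum fun j _ => ?_) I1
    apply mul_le_mul_of_nonneg_left _ (hΔ j)
    rw [STARC_ncard]
    by_cases hj : y - π (a j) ∈ (W j).map π
    · rw [if_pos hj]
      have : (A.filter (fun x => π x = y ∧ x - a j ∈ W j)).card =
          (A'.filter (fun z => z - a' j ∈ (W j).comap B.subtype)).card := by
        symm
        apply Finset.card_bij (fun (z : B) _ => (z : V) + x0)
        · intro z hz
          rw [Finset.mem_filter] at hz
          have h1 := (hmemA' z).1 hz.1
          have h2 := (ha1 j hj z).1 hz.2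
          rw [hF, Finset.mem_filter] at h1
          exact Finset.mem_filter.2 ⟨h1.1, h1.2, h2⟩
        · intro z _ z' _ hzz
          exact Subtype.ext (add_right_cancel hzz)
        · intro x hx
          rw [Finset.mem_filter] at hx
          refine ⟨⟨x - x0, hmemB x hx.2.1⟩, ?_, by simp⟩
          rw [Finset.mem_filter]
          constructor
          · rw [hmemA', hF, Finset.mem_filter]
            simp only [sub_add_cancel]
            exact ⟨hx.1, hx.2.1⟩
          · rw [ha1 j hj]
            simp only [sub_add_cancel]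
            exact hx.2.2
      rw [this]
    · rw [if_neg hj]
      have hz : (0 : B) ∈ A'.filter (fun z => z - a' j ∈ (W j).comap B.subtype) := by
        rw [Finset.mem_filter]
        constructor
        · rw [hmemA', hF, Finset.mem_filter]
          simp [hx0A, hx0]
        · rw [ha2 j hj, sub_zero]
          exact Submodule.zero_mem _
      have : 1 ≤ (A'.filter (fun z => z - a' j ∈ (W j).comap B.subtype)).card :=
        Finset.card_pos.mpr ⟨0, hz⟩
      have : (1 : ℝ) ≤ ((A'.filter (fun z => z - a' j ∈ (W j).comap B.subtype)).card : ℝ) := by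
        exact_mod_cast this
      linarith
  -- summation over the fibres
  have S1 := Finset.sum_le_sum key
  rw [Finset.sum_comm] at S1
  have cardA : ∑ y ∈ Ab, ((A.filter (fun x => π x = y)).card : ℝ) = (A.card : ℝ) := by
    have := Finset.card_eq_sum_card_image π A
    rw [this]
    push_cast
    rfl
  have R1 : ∑ y ∈ Ab, T * (((A.filter (fun x => π x = y)).card : ℝ) - 1) =
      T * ((A.card : ℝ) - (Ab.card : ℝ)) := by
    rw [← Finset.mul_sum, Finset.sum_sub_distrib, cardA]
    simp
  rw [R1] at S1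
  have L1 : ∀ j, ∑ y ∈ Ab, Δ j * (if y - π (a j) ∈ (W j).map π then
        (((A.filter (fun x => π x = y ∧ x - a j ∈ W j)).card : ℝ) - 1) else 0) =
      Δ j * (((A.filter (fun x => x - a j ∈ W j)).card : ℝ) -
        ((Ab.filter (fun y => y - π (a j) ∈ (W j).map π)).card : ℝ)) := by
    intro j
    rw [← Finset.mul_sum]
    congr 1
    rw [← Finset.sum_filter, Finset.sum_sub_distrib]
    have e1 : ∑ y ∈ Ab.filter (fun y => y - π (a j) ∈ (W j).map π), (1 : ℝ) =
        ((Ab.filter (fun y => y - π (a j) ∈ (W j).map π)).card : ℝ) := by simp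
    rw [e1]
    congr 1
    have e2 : (A.filter (fun x => x - a j ∈ W j)).card =
        ∑ y ∈ Ab.filter (fun y => y - π (a j) ∈ (W j).map π),
          (A.filter (fun x => π x = y ∧ x - a j ∈ W j)).card := by
      rw [Finset.card_eq_sum_card_fiberwise (f := π)
        (t := Ab.filter (fun y => y - π (a j) ∈ (W j).map π))]
      · refine Finset.sum_congr rfl fun y _ => ?_
        rw [Finset.filter_filter]
        congr 1
        ext x
        simp only [Finset.mem_filter]
        tauto
      · intro x hx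
        have hx' := Finset.mem_filter.mp (Finset.mem_coe.mp hx)
        refine Finset.mem_coe.mpr (Finset.mem_filter.mpr ⟨Finset.mem_image_of_mem _ hx'.1, ?_⟩)
        exact ⟨x - a j, hx'.2, by rw [map_sub]⟩
    rw [e2]
    push_cast
    rfl
  rw [Finset.sum_congr rfl (fun j _ => L1 j)] at S1
  have I2' : ∑ j, Δ j * (((Ab.filter (fun y => y - π (a j) ∈ (W j).map π)).card : ℝ) - 1) ≤
      T * ((Ab.card : ℝ) - 1) := by
    refine le_trans (le_of_eq ?_) I2
    refine Finset.sum_congr rfl fun j _ => ?_
    rw [STARC_ncard]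
  have goal' : ∑ j, Δ j * (((A.filter (fun x => x - a j ∈ W j)).card : ℝ) - 1) ≤
      T * ((A.card : ℝ) - 1) := by
    have e : ∑ j, Δ j * (((A.filter (fun x => x - a j ∈ W j)).card : ℝ) - 1) =
        ∑ j, Δ j * (((A.filter (fun x => x - a j ∈ W j)).card : ℝ) -
          ((Ab.filter (fun y => y - π (a j) ∈ (W j).map π)).card : ℝ)) +
        ∑ j, Δ j * (((Ab.filter (fun y => y - π (a j) ∈ (W j).map π)).card : ℝ) - 1) := by
      rw [← Finset.sum_add_distrib]
      refine Finset.sum_congr rfl fun j _ => ?_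
      ring
    rw [e]
    linarith
  refine le_trans (le_of_eq ?_) goal'
  refine Finset.sum_congr rfl fun j _ => ?_
  rw [STARC_ncard]

end Pool.Agent.SubT
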