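import Pool.Agent.SubT.PST
import Pool.Agent.SubT.Adapt

/-! Module TYPE1. Text: team-store MP_e27144_an_pr_growth_helper66.md.
HINT: section 8: PST in dimension dim B. Coordinates x -> (b_i x) for a basis b of B scaled so that all values are in Z[1/6]; for each v the adapted basis of exists_adapted (chain span{phi in Phi v : lv <= k}); |beta(x)|_v <= C Q^(mu lev - k0). T = preimages of the subspaces. -/

namespace Pool.Agent.SubT

open scoped BigOperators ENNReal

open MeasureTheory Set Filter Topology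

open Module

/-- forms in the span of bounded forms are bounded -/
private theorem TYPE1_span_bound {d : ℕ} (v : Pl) (S : Finset (Module.Dual ℚ (Fin d → ℚ)))
    {φ : Module.Dual ℚ (Fin d → ℚ)}
    (h : φ ∈ Submodule.span ℚ ((S : Finset (Module.Dual ℚ (Fin d → ℚ))) :
      Set (Module.Dual ℚ (Fin d → ℚ)))) :
    ∃ C : ℝ, 0 ≤ C ∧ ∀ (x : Fin d → ℚ) (R : ℝ),
      (∀ ψ ∈ S, av v (ψ x) ≤ R) → av v (φ x) ≤ C * R := by
  obtain ⟨f, -, hf⟩ := Submodule.mem_span_finset.1 h
  refine ⟨∑ ψ ∈ S, av v (f ψ), Finset.sum_nonneg fun _ _ => av_nonneg _ _, ?_⟩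
  intro x R hR
  have h1 : φ x = ∑ ψ ∈ S, f ψ * ψ x := by
    rw [← hf]
    simp [LinearMap.sum_apply]
  rw [h1, Finset.sum_mul]
  refine (av_sum_le v S _).trans (Finset.sum_le_sum fun ψ hψ => ?_)
  rw [av_mul]
  exact mul_le_mul_of_nonneg_left (hR ψ hψ) (av_nonneg _ _)

/-- common denominators -/
private theorem TYPE1_den {r d : ℕ} (β : Fin r → Module.Dual ℚ (Fin d → ℚ)) :
    ∃ D : ℕ, D ≠ 0 ∧ ∀ (i : Fin r) (x : Fin d → ℚ), InRn x → InR ((D : ℚ) * β i x) := by
  refine ⟨∏ i, ∏ k, (β i (fun j => if k = j then 1 else 0)).den, ?_, ?_⟩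
  · exact Finset.prod_ne_zero_iff.2 fun i _ => Finset.prod_ne_zero_iff.2 fun k _ => Rat.den_ne_zero _
  · intro i x hx
    set D : ℕ := ∏ i, ∏ k, (β i (fun j => if k = j then 1 else 0)).den with hD
    rw [LinearMap.pi_apply_eq_sum_univ (β i) x, Finset.mul_sum]
    refine inR_sum _ _ fun k _ => ?_
    have h1 : (β i (fun j => if k = j then 1 else 0)).den ∣ D := by
      rw [hD]
      exact (Finset.dvd_prod_of_mem (fun k => (β i (fun j => if k = j then 1 else 0)).den)
        (Finset.mem_univ k)).trans (Finset.dvd_prod_of_mem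
          (fun i => ∏ k, (β i (fun j => if k = j then 1 else 0)).den) (Finset.mem_univ i))
    obtain ⟨t, ht⟩ := h1
    have h2 : (D : ℚ) * (x k • β i (fun j => if k = j then 1 else 0)) =
        x k * (((t : ℤ) * (β i (fun j => if k = j then 1 else 0)).num : ℤ) : ℚ) := by
      have h3 : (β i (fun j => if k = j then 1 else 0)) *
          ((β i (fun j => if k = j then 1 else 0)).den : ℚ) =
            ((β i (fun j => if k = j then 1 else 0)).num : ℚ) := Rat.mul_den_eq_num _
      rw [ht]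
      push_cast
      rw [← h3, smul_eq_mul]
      ring
    rw [h2]
    exact inR_mul (hx k) (inR_int _)

/-- TYPE1: the Subspace theorem on a space `B` of linear forms with levels. `F v k` (`k < k1`) is an
increasing chain of spaces of linear forms, each spanned by forms `φ` with
`av v (φ x) ≤ Q^(μ (k - k0))`, and all forms of `V` are spanned by forms with
`av v (φ x) ≤ Q^(μ (k1 - k0))`. If the degree of `B` is negative then `x` is in one of finitely many
proper subspaces. `Φ v` is a finite set of forms, `lv v φ` the level of `φ ∈ Φ v`. -/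
theorem type1 {d : ℕ} (Φ : Pl → Finset (Module.Dual ℚ (Fin d → ℚ)))
    (lv : Pl → Module.Dual ℚ (Fin d → ℚ) → ℕ) (k1 : ℕ)
    (hspan : ∀ v, Submodule.span ℚ ((Φ v : Finset (Module.Dual ℚ (Fin d → ℚ))) :
      Set (Module.Dual ℚ (Fin d → ℚ))) = ⊤)
    (hlv : ∀ v, ∀ φ ∈ Φ v, lv v φ ≤ k1) (μ k0 : ℝ) (hμ : 0 < μ)
    (B : Submodule ℚ (Module.Dual ℚ (Fin d → ℚ)))
    (hdeg : ∑ v : Pl, (μ * ((k1 : ℝ) * finrank ℚ B -
      ∑ k ∈ Finset.range k1, (finrank ℚ ↥(B ⊓ Submodule.span ℚ {φ | φ ∈ Φ v ∧ lv v φ ≤ k}) : ℝ))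
        - k0 * finrank ℚ B) < 0) :
    ∃ Q0 : ℝ, 1 < Q0 ∧ ∃ TT : Finset (Submodule ℚ (Fin d → ℚ)), (∀ T ∈ TT, T ≠ ⊤) ∧
      ∀ Q ≥ Q0, ∀ x : Fin d → ℚ, InRn x →
        (∀ v, ∀ φ ∈ Φ v, av v (φ x) ≤ Q ^ (μ * (lv v φ : ℝ) - k0)) →
        ∃ T ∈ TT, x ∈ T := by
  classical
  set r : ℕ := finrank ℚ B with hr
  set F : Pl → ℕ → Submodule ℚ (Module.Dual ℚ (Fin d → ℚ)) := fun v k =>
    Submodule.span ℚ {φ | φ ∈ Φ v ∧ lv v φ ≤ k} with hF
  have hmono : ∀ v, Monotone (F v) := fun v k l hkl =>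
    Submodule.span_mono fun φ hφ => ⟨hφ.1, hφ.2.trans hkl⟩
  have had : ∀ v, ∃ (b : Basis (Fin r) ℚ B) (lev : Fin r → ℕ),
      (∀ j, lev j ≤ k1) ∧
      (∀ j, lev j < k1 → ((b j : B) : Module.Dual ℚ (Fin d → ℚ)) ∈ F v (lev j)) ∧
      (∑ j, (lev j : ℤ)) =
        k1 * (finrank ℚ B : ℤ) - ∑ k ∈ Finset.range k1, (finrank ℚ ↥(B ⊓ F v k) : ℤ) :=
    fun v => exists_adapted B k1 (F v) (hmono v)
  choose b lev hle hmem hsum using had
  -- membership in all cases
  have hmem' : ∀ v j, ((b v j : B) : Module.Dual ℚ (Fin d → ℚ)) ∈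
      Submodule.span ℚ ((((Φ v).filter fun φ => lv v φ ≤ lev v j :
        Finset (Module.Dual ℚ (Fin d → ℚ))) : Set (Module.Dual ℚ (Fin d → ℚ)))) := by
    intro v j
    rcases (hle v j).lt_or_eq with h | h
    · have h1 := hmem v j h
      have h2 : ((((Φ v).filter fun φ => lv v φ ≤ lev v j :
        Finset (Module.Dual ℚ (Fin d → ℚ))) : Set (Module.Dual ℚ (Fin d → ℚ)))) =
          {φ | φ ∈ Φ v ∧ lv v φ ≤ lev v j} := by
        ext φ
        simp
      rw [h2]
      exact h1
    · have h2 : ((((Φ v).filter fun φ => lv v φ ≤ lev v j :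
        Finset (Module.Dual ℚ (Fin d → ℚ))) : Set (Module.Dual ℚ (Fin d → ℚ)))) =
          ((Φ v : Finset (Module.Dual ℚ (Fin d → ℚ))) : Set (Module.Dual ℚ (Fin d → ℚ))) := by
        rw [Finset.filter_true_of_mem]
        intro φ hφ
        rw [h]
        exact hlv v φ hφ
      rw [h2, hspan v]
      trivial
  choose C hC0 hC using fun v j => TYPE1_span_bound v _ (hmem' v j)
  -- reference basis
  set β : Basis (Fin r) ℚ B := Module.finBasis ℚ B with hβ
  obtain ⟨D, hD0, hD⟩ := TYPE1_den (fun i : Fin r => ((β i : B) : Module.Dual ℚ (Fin d → ℚ)))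
  have hDq : (D : ℚ) ≠ 0 := by exact_mod_cast hD0
  set T : (Fin d → ℚ) →ₗ[ℚ] (Fin r → ℚ) :=
    LinearMap.pi (fun i => (D : ℚ) • ((β i : B) : Module.Dual ℚ (Fin d → ℚ))) with hT
  have hTapp : ∀ x i, T x i = (D : ℚ) * ((β i : B) : Module.Dual ℚ (Fin d → ℚ)) x := by
    intro x i
    simp [hT]
  set M : Pl → Matrix (Fin r) (Fin r) ℚ := fun v => (D : ℚ)⁻¹ • Matrix.transpose (β.toMatrix (b v)) with hM
  have hMdet : ∀ v, (M v).det ≠ 0 := by
    intro v
    have h1 : (β.toMatrix (b v)).det ≠ 0 := by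
      intro h
      have h2 := congrArg Matrix.det (β.toMatrix_mul_toMatrix_flip (b v))
      rw [Matrix.det_mul, h, zero_mul, Matrix.det_one] at h2
      exact zero_ne_one h2
    rw [hM]
    simp only [Matrix.det_smul, Matrix.det_transpose]
    exact mul_ne_zero (pow_ne_zero _ (inv_ne_zero hDq)) h1
  have hlin : ∀ v j x, lin M v j (T x) = ((b v j : B) : Module.Dual ℚ (Fin d → ℚ)) x := by
    intro v j x
    have h1 : (b v j : B) = ∑ i, (β.repr (b v j) i) • β i := (β.sum_repr (b v j)).symm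
    have h2 : ((b v j : B) : Module.Dual ℚ (Fin d → ℚ)) =
        ∑ i, (β.repr (b v j) i) • ((β i : B) : Module.Dual ℚ (Fin d → ℚ)) := by
      have h3 : ((∑ i, (β.repr (b v j) i) • β i : B) : Module.Dual ℚ (Fin d → ℚ)) =
          ∑ i, (β.repr (b v j) i) • ((β i : B) : Module.Dual ℚ (Fin d → ℚ)) := by
        rw [Submodule.coe_sum]
        rfl
      rw [← h3, ← h1]
    rw [h2]
    unfold lin
    rw [Matrix.mulVec, dotProduct]
    simp only [LinearMap.sum_apply, LinearMap.smul_apply, smul_eq_mul]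
    refine Finset.sum_congr rfl fun i _ => ?_
    rw [hTapp, hM]
    simp only [Matrix.smul_apply, Matrix.transpose_apply, Basis.toMatrix_apply, smul_eq_mul]
    field_simp
  -- exponents
  set S : ℝ := ∑ v : Pl, (μ * ((k1 : ℝ) * finrank ℚ B -
      ∑ k ∈ Finset.range k1, (finrank ℚ ↥(B ⊓ F v k) : ℝ)) - k0 * finrank ℚ B) with hS
  have hS0 : S < 0 := hdeg
  set η : ℝ := -S / (6 * (r + 1)) with hη
  have hη0 : 0 < η := by
    rw [hη]
    apply div_pos (by linarith)
    positivity
  set c : Pl → Fin r → ℝ := fun v j => μ * (lev v j : ℝ) - k0 + η with hc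
  have hsumR : ∀ v, (∑ j, (lev v j : ℝ)) =
      (k1 : ℝ) * finrank ℚ B - ∑ k ∈ Finset.range k1, (finrank ℚ ↥(B ⊓ F v k) : ℝ) := by
    intro v
    have h1 := hsum v
    have h2 := congrArg (fun z : ℤ => (z : ℝ)) h1
    push_cast at h2
    exact h2
  have hcsum : ∑ v, ∑ j, c v j < 0 := by
    have h1 : ∀ v, ∑ j, c v j = (μ * ((k1 : ℝ) * finrank ℚ B -
      ∑ k ∈ Finset.range k1, (finrank ℚ ↥(B ⊓ F v k) : ℝ)) - k0 * finrank ℚ B) + r * η := by
      intro v
      rw [hc]
      simp only [Finset.sum_add_distrib, Finset.sum_sub_distrib, ← Finset.mul_sum]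
      rw [hsumR v]
      simp only [Finset.sum_const, Finset.card_univ, Fintype.card_fin, nsmul_eq_mul]
      rw [← hr]
      ring
    rw [Finset.sum_congr rfl fun v _ => h1 v, Finset.sum_add_distrib, ← hS]
    simp only [Finset.sum_const, Finset.card_univ, Fintype.card_fin, nsmul_eq_mul]
    have h3 : η * (6 * (r + 1)) = -S := by
      rw [hη]
      field_simp
    push_cast
    nlinarith [h3, hη0, hS0]
  obtain ⟨Q0, hQ0, TT, hTT, hsol⟩ := pst M hMdet c hcsum
  set CC : ℝ := ∑ v, ∑ j, C v j with hCC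
  have hCle : ∀ v j, C v j ≤ CC := by
    intro v j
    rw [hCC]
    exact (Finset.single_le_sum (fun j _ => hC0 v j) (Finset.mem_univ j)).trans
      (Finset.single_le_sum (f := fun v => ∑ j, C v j)
        (fun v _ => Finset.sum_nonneg fun j _ => hC0 v j) (Finset.mem_univ v))
  obtain ⟨Q1, hQ1⟩ := Filter.eventually_atTop.1
    ((tendsto_rpow_atTop hη0).eventually_ge_atTop CC)
  refine ⟨max Q0 Q1, lt_max_of_lt_left hQ0, TT.image (Submodule.comap T), ?_, ?_⟩
  · intro T' hT'
    obtain ⟨U, hU, rfl⟩ := Finset.mem_image.1 hT'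
    intro htop
    obtain ⟨f, hf0, hf⟩ := Submodule.exists_le_ker_of_lt_top U (lt_top_iff_ne_top.2 (hTT U hU))
    apply hf0
    have h1 : ∀ x, f (T x) = 0 := by
      intro x
      have : x ∈ Submodule.comap T U := by
        rw [htop]
        trivial
      exact hf this
    have h2 : ∀ i, f (fun j => if i = j then 1 else 0) = 0 := by
      have h3 : ∑ i, (f (fun j => if i = j then 1 else 0) * (D : ℚ)) • β i = 0 := by
        apply Subtype.ext
        apply LinearMap.ext
        intro x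
        have h4 := h1 x
        rw [LinearMap.pi_apply_eq_sum_univ f (T x)] at h4
        simp only [Submodule.coe_sum, Submodule.coe_smul, LinearMap.sum_apply,
          LinearMap.smul_apply, smul_eq_mul, ZeroMemClass.coe_zero, LinearMap.zero_apply]
        refine Eq.trans ?_ h4
        refine Finset.sum_congr rfl fun i _ => ?_
        rw [hTapp, smul_eq_mul]
        ring
      intro i
      have h5 := Fintype.linearIndependent_iff.1 β.linearIndependent _ h3 i
      exact (mul_eq_zero.1 h5).resolve_right hDq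
    apply LinearMap.ext
    intro y
    rw [LinearMap.pi_apply_eq_sum_univ f y]
    simp [h2]
  · intro Q hQ x hx hb
    have hQ0' : Q0 ≤ Q := (le_max_left _ _).trans hQ
    have hQ1' : Q1 ≤ Q := (le_max_right _ _).trans hQ
    have hQone : 1 ≤ Q := hQ0.le.trans hQ0'
    have hQpos : 0 < Q := by linarith
    obtain ⟨U, hU, hUsub⟩ := hsol Q hQ0'
    refine ⟨Submodule.comap T U, Finset.mem_image_of_mem _ hU, ?_⟩
    apply hUsub
    refine ⟨?_, ?_⟩
    · intro i
      rw [hTapp]
      exact hD i x hx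
    · intro v j
      rw [hlin]
      have h1 := hC v j x (Q ^ (μ * (lev v j : ℝ) - k0)) (by
        intro ψ hψ
        rw [Finset.mem_filter] at hψ
        refine (hb v ψ hψ.1).trans ?_
        apply Real.rpow_le_rpow_of_exponent_le hQone
        have : (lv v ψ : ℝ) ≤ lev v j := by exact_mod_cast hψ.2
        nlinarith)
      refine h1.trans ?_
      have h2 : Q ^ c v j = Q ^ η * Q ^ (μ * (lev v j : ℝ) - k0) := by
        rw [← Real.rpow_add hQpos]
        congr 1
        show μ * (lev v j : ℝ) - k0 + η = η + (μ * (lev v j : ℝ) - k0)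
        ring
      rw [h2]
      apply mul_le_mul_of_nonneg_right _ (Real.rpow_nonneg hQpos.le _)
      exact (hCle v j).trans (hQ1 Q hQ1')

end Pool.Agent.SubT
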