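import Pool.Agent.SubT.Place

/-! Module WN. Text: team-store MP_e27144_an_pr_growth_helper66.md.
HINT: elementary; wn of a product: expand both sums. In wn_aeval_le: write G as a sum of monomials. -/

namespace Pool.Agent.SubT

open scoped BigOperators ENNReal

open MeasureTheory Set Filter Topology

theorem WN_subset {σ : Type*} [Fintype σ] (v : Pl) (ρ : σ → ℝ) (F : MvPolynomial σ ℚ)
    (s : Finset (σ →₀ ℕ)) (h : F.support ⊆ s) :
    wn v ρ F = ∑ m ∈ s, av v (F.coeff m) * ∏ i, ρ i ^ (m i) := by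
  unfold wn
  refine Finset.sum_subset h fun m _ hm => ?_
  rw [MvPolynomial.notMem_support_iff.1 hm, av_zero, zero_mul]

theorem WN_prod_nonneg {σ : Type*} [Fintype σ] {ρ : σ → ℝ} (hρ : ∀ i, 0 ≤ ρ i) (m : σ →₀ ℕ) :
    0 ≤ ∏ i, ρ i ^ (m i) := Finset.prod_nonneg fun i _ => pow_nonneg (hρ i) _

theorem wn_nonneg {σ : Type*} [Fintype σ] (v : Pl) (ρ : σ → ℝ) (hρ : ∀ i, 0 ≤ ρ i)
    (F : MvPolynomial σ ℚ) : 0 ≤ wn v ρ F :=
  Finset.sum_nonneg fun m _ => mul_nonneg (av_nonneg v _) (WN_prod_nonneg hρ m)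

theorem coeff_le_wn {σ : Type*} [Fintype σ] (v : Pl) (ρ : σ → ℝ) (hρ : ∀ i, 0 ≤ ρ i)
    (F : MvPolynomial σ ℚ) (m : σ →₀ ℕ) : av v (F.coeff m) * ∏ i, ρ i ^ (m i) ≤ wn v ρ F := by
  classical
  by_cases hm : m ∈ F.support
  · exact Finset.single_le_sum (f := fun m => av v (F.coeff m) * ∏ i, ρ i ^ (m i))
      (fun n _ => mul_nonneg (av_nonneg v _) (WN_prod_nonneg hρ n)) hm
  · rw [MvPolynomial.notMem_support_iff.1 hm, av_zero, zero_mul]
    exact wn_nonneg v ρ hρ F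

theorem wn_add_le {σ : Type*} [Fintype σ] (v : Pl) (ρ : σ → ℝ) (hρ : ∀ i, 0 ≤ ρ i)
    (F G : MvPolynomial σ ℚ) : wn v ρ (F + G) ≤ wn v ρ F + wn v ρ G := by
  classical
  rw [WN_subset v ρ (F + G) (F.support ∪ G.support) MvPolynomial.support_add,
    WN_subset v ρ F (F.support ∪ G.support) Finset.subset_union_left,
    WN_subset v ρ G (F.support ∪ G.support) Finset.subset_union_right, ← Finset.sum_add_distrib]
  refine Finset.sum_le_sum fun m _ => ?_
  rw [MvPolynomial.coeff_add, ← add_mul]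
  exact mul_le_mul_of_nonneg_right (av_add_le v _ _) (WN_prod_nonneg hρ m)

theorem WN_monomial {σ : Type*} [Fintype σ] (v : Pl) (ρ : σ → ℝ) (m : σ →₀ ℕ) (c : ℚ) :
    wn v ρ (MvPolynomial.monomial m c) = av v c * ∏ i, ρ i ^ (m i) := by
  classical
  rw [WN_subset v ρ _ {m} MvPolynomial.support_monomial_subset, Finset.sum_singleton,
    MvPolynomial.coeff_monomial, if_pos rfl]

theorem wn_sum_le {σ α : Type*} [Fintype σ] (v : Pl) (ρ : σ → ℝ) (hρ : ∀ i, 0 ≤ ρ i)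
    (s : Finset α) (f : α → MvPolynomial σ ℚ) : wn v ρ (∑ i ∈ s, f i) ≤ ∑ i ∈ s, wn v ρ (f i) := by
  classical
  induction s using Finset.induction_on with
  | empty =>
    rw [Finset.sum_empty, Finset.sum_empty]
    apply le_of_eq
    unfold wn
    rw [MvPolynomial.support_zero, Finset.sum_empty]
  | insert a s ha ih =>
    rw [Finset.sum_insert ha, Finset.sum_insert ha]
    exact (wn_add_le v ρ hρ _ _).trans (by gcongr)

theorem wn_mul_le {σ : Type*} [Fintype σ] (v : Pl) (ρ : σ → ℝ) (hρ : ∀ i, 0 ≤ ρ i)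
    (F G : MvPolynomial σ ℚ) : wn v ρ (F * G) ≤ wn v ρ F * wn v ρ G := by
  classical
  have h1 : F * G = ∑ m ∈ F.support, ∑ n ∈ G.support,
      MvPolynomial.monomial (m + n) (F.coeff m * G.coeff n) := by
    conv_lhs => rw [F.as_sum, G.as_sum]
    rw [Finset.sum_mul_sum]
    refine Finset.sum_congr rfl fun m _ => Finset.sum_congr rfl fun n _ => ?_
    rw [MvPolynomial.monomial_mul]
  rw [h1]
  refine (wn_sum_le v ρ hρ _ _).trans ?_
  have h2 : wn v ρ F * wn v ρ G = ∑ m ∈ F.support, ∑ n ∈ G.support,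
      (av v (F.coeff m) * ∏ i, ρ i ^ (m i)) * (av v (G.coeff n) * ∏ i, ρ i ^ (n i)) := by
    unfold wn
    rw [Finset.sum_mul_sum]
  rw [h2]
  refine Finset.sum_le_sum fun m _ => (wn_sum_le v ρ hρ _ _).trans ?_
  refine Finset.sum_le_sum fun n _ => ?_
  rw [WN_monomial, av_mul]
  have h3 : ∏ i, ρ i ^ ((m + n) i) = (∏ i, ρ i ^ (m i)) * ∏ i, ρ i ^ (n i) := by
    rw [← Finset.prod_mul_distrib]
    refine Finset.prod_congr rfl fun i _ => ?_
    rw [Finsupp.add_apply, pow_add]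
  rw [h3]
  apply le_of_eq
  ring

theorem wn_C {σ : Type*} [Fintype σ] (v : Pl) (ρ : σ → ℝ) (x : ℚ) :
    wn v ρ (MvPolynomial.C x) = av v x := by
  have h := WN_monomial v ρ 0 x
  rw [MvPolynomial.C_apply, h]
  simp

theorem wn_X {σ : Type*} [Fintype σ] (v : Pl) (ρ : σ → ℝ) (i : σ) :
    wn v ρ (MvPolynomial.X i) = ρ i := by
  classical
  have h : (MvPolynomial.X i : MvPolynomial σ ℚ) = MvPolynomial.monomial (Finsupp.single i 1) 1 :=
    rfl
  rw [h, WN_monomial, av_one, one_mul, Finset.prod_eq_single i]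
  · simp
  · intro j _ hj
    rw [Finsupp.single_eq_of_ne hj, pow_zero]
  · intro h
    exact absurd (Finset.mem_univ i) h

theorem WN_prod_le {σ α : Type*} [Fintype σ] (v : Pl) (ρ : σ → ℝ) (hρ : ∀ i, 0 ≤ ρ i)
    (s : Finset α) (f : α → MvPolynomial σ ℚ) : wn v ρ (∏ i ∈ s, f i) ≤ ∏ i ∈ s, wn v ρ (f i) := by
  classical
  induction s using Finset.induction_on with
  | empty =>
    rw [Finset.prod_empty, Finset.prod_empty]
    have := wn_C v ρ 1
    rw [MvPolynomial.C_1, av_one] at this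
    exact this.le
  | insert a s ha ih =>
    rw [Finset.prod_insert ha, Finset.prod_insert ha]
    exact (wn_mul_le v ρ hρ _ _).trans (mul_le_mul_of_nonneg_left ih (wn_nonneg v ρ hρ _))

theorem WN_pow_le {σ : Type*} [Fintype σ] (v : Pl) (ρ : σ → ℝ) (hρ : ∀ i, 0 ≤ ρ i)
    (f : MvPolynomial σ ℚ) (k : ℕ) : wn v ρ (f ^ k) ≤ wn v ρ f ^ k := by
  induction k with
  | zero =>
    rw [pow_zero, pow_zero]
    have := wn_C v ρ 1
    rw [MvPolynomial.C_1, av_one] at this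
    exact this.le
  | succ k ih =>
    rw [pow_succ, pow_succ]
    exact (wn_mul_le v ρ hρ _ _).trans (mul_le_mul_of_nonneg_right ih (wn_nonneg v ρ hρ _))

/-- Substitution: the norm of `G(f)` is at most the value of the majorant of `G`. -/
theorem wn_aeval_le {σ τ : Type*} [Fintype σ] [Fintype τ] (v : Pl) (ρ : σ → ℝ)
    (hρ : ∀ i, 0 ≤ ρ i) (G : MvPolynomial τ ℚ) (f : τ → MvPolynomial σ ℚ) (B : τ → ℝ)
    (hB : ∀ i, wn v ρ (f i) ≤ B i) :
    wn v ρ (MvPolynomial.aeval f G) ≤ ∑ m ∈ G.support, av v (G.coeff m) * ∏ i, B i ^ (m i) := by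
  rw [MvPolynomial.aeval_def, MvPolynomial.eval₂_eq']
  refine (wn_sum_le v ρ hρ _ _).trans (Finset.sum_le_sum fun m _ => ?_)
  refine (wn_mul_le v ρ hρ _ _).trans ?_
  have h1 : wn v ρ (algebraMap ℚ (MvPolynomial σ ℚ) (G.coeff m)) = av v (G.coeff m) :=
    wn_C v ρ _
  rw [h1]
  refine mul_le_mul_of_nonneg_left ?_ (av_nonneg v _)
  refine (WN_prod_le v ρ hρ _ _).trans ?_
  refine Finset.prod_le_prod (fun i _ => wn_nonneg v ρ hρ _) fun i _ => ?_
  exact (WN_pow_le v ρ hρ _ _).trans (pow_le_pow_left₀ (wn_nonneg v ρ hρ _) (hB i) _)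

end Pool.Agent.SubT
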