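import Pool.Agent.SubT.Defs

/-! Module W1: one-variable Wronskian with Hasse derivatives. Proof (1.1) of the text. -/

namespace Pool.Agent.SubT

open Polynomial in
theorem w1_coeff_prod {ι : Type*} (s : Finset ι) (f : ι → ℚ[X]) (d : ι → ℕ)
    (h : ∀ i ∈ s, (f i).natDegree ≤ d i) :
    (∏ i ∈ s, f i).coeff (∑ i ∈ s, d i) = ∏ i ∈ s, (f i).coeff (d i) := by
  classical
  induction s using Finset.induction_on with
  | empty => simp
  | insert a s ha ih =>
    rw [Finset.prod_insert ha, Finset.sum_insert ha, Finset.prod_insert ha,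
      ← ih (fun i hi => h i (Finset.mem_insert_of_mem hi))]
    apply coeff_mul_add_eq_of_natDegree_le (h a (Finset.mem_insert_self a s))
    refine (natDegree_prod_le s f).trans ?_
    exact Finset.sum_le_sum fun i hi => h i (Finset.mem_insert_of_mem hi)

open Polynomial in
theorem w1_coeff_det {k : ℕ} (M : Matrix (Fin k) (Fin k) ℚ[X]) (d : Fin k → ℕ)
    (h : ∀ i j, (M i j).natDegree ≤ d j) :
    M.det.coeff (∑ j, d j) = Matrix.det (Matrix.of fun i j : Fin k => (M i j).coeff (d j)) := by
  rw [Matrix.det_apply', Matrix.det_apply', finsetSum_coeff]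
  refine Finset.sum_congr rfl fun σ _ => ?_
  rw [coeff_intCast_mul, w1_coeff_prod _ _ _ fun i _ => h (σ i) i]
  rfl

theorem w1_choose {k : ℕ} (v : Fin k → ℕ) (hv : Function.Injective v) :
    Matrix.det (Matrix.of fun i j : Fin k => (((v j).choose (i : ℕ) : ℕ) : ℚ)) ≠ 0 := by
  have h1 : (Matrix.of fun i j : Fin k => (descPochhammer ℤ j).eval (v i : ℤ)).det =
      (∏ i : Fin k, ((Nat.factorial i : ℕ) : ℤ)) *
      (Matrix.of fun i j : Fin k => (Nat.choose (v i) j : ℤ)).det := by
    rw [← Matrix.det_mul_row (fun (i : Fin k) => ((Nat.factorial (i : ℕ)) : ℤ))]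
    congr 1
    ext i j
    rw [Matrix.of_apply, Matrix.of_apply, descPochhammer_eval_eq_descFactorial ℤ _ _,
      Nat.descFactorial_eq_factorial_mul_choose]
    push_cast
    rfl
  have h2 := Matrix.det_eval_matrixOfPolynomials_eq_det_vandermonde (fun i : Fin k => (v i : ℤ))
      (fun i => descPochhammer ℤ i)
      (fun i => descPochhammer_natDegree ℤ i)
      (fun i => monic_descPochhammer ℤ i)
  have h3 : (Matrix.vandermonde (fun i : Fin k => (v i : ℤ))).det ≠ 0 := by
    rw [Matrix.det_vandermonde_ne_zero_iff]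
    intro i j hij
    have hij' : ((v i : ℕ) : ℤ) = ((v j : ℕ) : ℤ) := hij
    exact hv (by exact_mod_cast hij')
  have h4 : (Matrix.of fun i j : Fin k => (Nat.choose (v i) j : ℤ)).det ≠ 0 := by
    intro h0
    rw [h0, mul_zero] at h1
    rw [h2] at h3
    exact h3 h1
  have h5 : Matrix.det (Matrix.of fun i j : Fin k => (((v j).choose (i : ℕ) : ℕ) : ℚ)) =
      (((Matrix.of fun i j : Fin k => (Nat.choose (v i) j : ℤ)).det : ℤ) : ℚ) := by
    rw [← Matrix.det_transpose]
    have := RingHom.map_det (Int.castRingHom ℚ) (Matrix.of fun i j : Fin k => (Nat.choose (v i) j : ℤ))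
    rw [eq_intCast] at this
    rw [this]
    congr 1
  rw [h5]
  exact_mod_cast h4

open Polynomial in
/-- distinct degrees -/
theorem w1_base {k : ℕ} (ψ : Fin k → ℚ[X]) (h0 : ∀ j, ψ j ≠ 0)
    (hinj : Function.Injective fun j => (ψ j).natDegree) :
    Matrix.det (Matrix.of fun i j : Fin k => hasseDeriv (i : ℕ) (ψ j)) ≠ 0 := by
  intro hdet
  set M : Matrix (Fin k) (Fin k) ℚ[X] :=
    Matrix.of fun i j => X ^ (i : ℕ) * (Matrix.of fun i j : Fin k => hasseDeriv (i : ℕ) (ψ j)) i j
    with hM
  have hMd : M.det = 0 := by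
    have := Matrix.det_mul_column (fun i : Fin k => (X : ℚ[X]) ^ (i : ℕ))
      (Matrix.of fun i j : Fin k => hasseDeriv (i : ℕ) (ψ j))
    rw [hdet, mul_zero] at this
    exact this
  have hc : ∀ i j, (M i j).coeff (ψ j).natDegree =
      (((ψ j).natDegree.choose (i : ℕ) : ℕ) : ℚ) * (ψ j).leadingCoeff := by
    intro i j
    simp only [hM, Matrix.of_apply]
    rw [coeff_X_pow_mul']
    split_ifs with hij
    · rw [hasseDeriv_coeff, Nat.sub_add_cancel hij]
      rfl
    · rw [Nat.choose_eq_zero_of_lt (by omega)]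
      simp
  have hdeg : ∀ i j, (M i j).natDegree ≤ (ψ j).natDegree := by
    intro i j
    rw [natDegree_le_iff_coeff_eq_zero]
    intro N hN
    simp only [hM, Matrix.of_apply]
    rw [coeff_X_pow_mul']
    split_ifs with hij
    · rw [hasseDeriv_coeff, Nat.sub_add_cancel hij, coeff_eq_zero_of_natDegree_lt hN, mul_zero]
    · rfl
  have h1 := w1_coeff_det M (fun j => (ψ j).natDegree) hdeg
  rw [hMd, coeff_zero] at h1
  simp only [hc] at h1
  have h2 := Matrix.det_mul_row (fun j : Fin k => (ψ j).leadingCoeff)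
    (Matrix.of fun i j : Fin k => (((ψ j).natDegree.choose (i : ℕ) : ℕ) : ℚ))
  have h3 : (Matrix.of fun i j : Fin k => (((ψ j).natDegree.choose (i : ℕ) : ℕ) : ℚ) *
      (ψ j).leadingCoeff) = Matrix.of fun i j : Fin k => (ψ j).leadingCoeff *
      (Matrix.of fun i j : Fin k => (((ψ j).natDegree.choose (i : ℕ) : ℕ) : ℚ)) i j := by
    ext i j
    simp [mul_comm]
  rw [h3, h2] at h1
  have h4 : ∏ j : Fin k, (ψ j).leadingCoeff ≠ 0 :=
    Finset.prod_ne_zero_iff.2 fun j _ => leadingCoeff_ne_zero.2 (h0 j)
  exact mul_ne_zero h4 (w1_choose _ hinj) h1.symm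

open Polynomial in
theorem w1_ind (N : ℕ) : ∀ {k : ℕ} (ψ : Fin k → ℚ[X]), LinearIndependent ℚ ψ →
    ∑ j, (ψ j).natDegree ≤ N →
    Matrix.det (Matrix.of fun i j : Fin k => hasseDeriv (i : ℕ) (ψ j)) ≠ 0 := by
  induction N using Nat.strong_induction_on with
  | _ N ih =>
    intro k ψ h hN
    have h0 : ∀ j, ψ j ≠ 0 := fun j => h.ne_zero j
    by_cases hinj : Function.Injective fun j => (ψ j).natDegree
    · exact w1_base ψ h0 hinj
    · rw [Function.Injective] at hinj
      push Not at hinj
      obtain ⟨j, l, hd, hjl⟩ := hinj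
      set a : ℚ := -((ψ l).leadingCoeff / (ψ j).leadingCoeff) with ha
      set c : Fin k → ℚ := Pi.single l a with hc
      have hcj : c j = 0 := by
        rw [hc, Pi.single_eq_of_ne hjl]
      set φ : Fin k → ℚ[X] := ψ + (c · • ψ j) with hφ
      have hφi : LinearIndependent ℚ φ := (linearIndependent_add_smul_iff hcj).2 h
      have hφl : φ l = ψ l + a • ψ j := by
        simp [hφ, hc]
      have hφo : ∀ i, i ≠ l → φ i = ψ i := by
        intro i hi
        simp [hφ, hc, Pi.single_eq_of_ne hi]
      have hlt : (φ l).natDegree < (ψ l).natDegree := by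
        have hle : (φ l).natDegree ≤ (ψ l).natDegree := by
          rw [hφl]
          refine (natDegree_add_le _ _).trans (max_le le_rfl ?_)
          exact (natDegree_smul_le _ _).trans hd.le
        refine lt_of_le_of_ne hle fun heq => ?_
        have h1 : (φ l).coeff (ψ l).natDegree = 0 := by
          rw [hφl, coeff_add, coeff_smul, smul_eq_mul]
          have h2 : (ψ j).coeff (ψ l).natDegree = (ψ j).leadingCoeff := by
            rw [← hd]
            rfl
          have h3 : (ψ j).leadingCoeff ≠ 0 := leadingCoeff_ne_zero.2 (h0 j)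
          rw [h2, ha, coeff_natDegree]
          field_simp
          ring
        rw [← heq, coeff_natDegree, leadingCoeff_eq_zero] at h1
        exact hφi.ne_zero l h1
      have hsum : ∑ i, (φ i).natDegree < ∑ i, (ψ i).natDegree := by
        apply Finset.sum_lt_sum
        · intro i _
          by_cases hi : i = l
          · subst hi
            exact hlt.le
          · rw [hφo i hi]
        · exact ⟨l, Finset.mem_univ _, hlt⟩
      have h5 := ih (∑ i, (φ i).natDegree) (by omega) φ hφi le_rfl
      have h6 : (Matrix.of fun i j : Fin k => hasseDeriv (i : ℕ) (φ j)) =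
          Matrix.updateCol (Matrix.of fun i j : Fin k => hasseDeriv (i : ℕ) (ψ j)) l
            (fun i => (Matrix.of fun i j : Fin k => hasseDeriv (i : ℕ) (ψ j)) i l +
              (C a) • (Matrix.of fun i j : Fin k => hasseDeriv (i : ℕ) (ψ j)) i j) := by
        ext1 i i'
        by_cases hi : i' = l
        · subst hi
          rw [Matrix.updateCol_self]
          simp only [Matrix.of_apply]
          rw [hφl, map_add, map_smul, smul_eq_C_mul, smul_eq_mul]
        · rw [Matrix.updateCol_ne hi]
          simp only [Matrix.of_apply]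
          rw [hφo i' hi]
      rw [h6, Matrix.det_updateCol_add_smul_self _ (Ne.symm hjl)] at h5
      exact h5

theorem w1 {k : ℕ} (ψ : Fin k → Polynomial ℚ) (h : LinearIndependent ℚ ψ) :
    Matrix.det (fun i j : Fin k => Polynomial.hasseDeriv (i : ℕ) (ψ j)) ≠ 0 :=
  w1_ind _ ψ h le_rfl

end Pool.Agent.SubT
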